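import Pool.Agent.H99.D2.Chf

/-!
# The closed coefficient

`ChD`: windows `o₀ ≤ o₁ ≤ o₂`, a label of `N = c (r + 1)` which is closed on `o₁`, on thin boxes.
`cpt`: the own path on the window `o₁` of the derivative of the label in the direction `u = c r`,
against the chart of the window `o₀`. `cf_vis`: its value is visible.
-/

set_option autoImplicit false

namespace Pool.CR99

open Finset Real MvPolynomial
open Pool.Agent.H49.Ent Pool.Agent.H32.Dense Pool.STK Pool.KA Pool.KSAT Pool.K2S Pool.PB Pool.S6C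
open Pool.GEN Pool.CHT Pool.CHX Pool.ISO Pool.D2R Pool.D2G30 Pool.V1E
open Pool.FLF (Fam.sub)
open Pool.PB.Trl (rt rt_mem t_rt)

/-- **The data.** -/
structure ChD {m J : ℕ} (F : Fam m J) (c : ℕ → Fin m) (r D Dr M₀ MB x x₀ e h p q₀ q₁ q₂ su sn : ℕ)
    (κ : ℝ) (o₀ o₁ o₂ ar : ℕ) (g₀ g₁ g₂ gT₁ gT₂ : ℕ → ℕ) (B : F.Ω → Prop)
    (G₀ G₁ G₂ T₁ : PtT F → ℕ → MvPolynomial (Option (Fin m)) ℝ)
    (H₀ H₁ H₂ TH₁ TH₂ : LnT F → ℕ → MvPolynomial (Option (Fin m)) ℝ)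
    (Gt : PtT F → MvPolynomial (Option (Fin m)) ℝ)
    (Ht : LnT F → MvPolynomial (Option (Fin m)) ℝ) : Prop where
  hc : Set.InjOn c (Set.Iio (r + 2))
  o01 : o₀ ≤ o₁
  o12 : o₁ ≤ o₂
  oJ : o₂ ≤ J
  ch0 : ChOK F c (r + 2) (fun _ => D) o₀ o₀ e g₀ B G₀ H₀
  cl0 : Clsd F (r + 2) o₀ B G₀ H₀
  ch1 : ChOK F c (r + 2) (fun _ => D) o₁ o₁ e g₁ B G₁ H₁
  cl1 : Clsd F (r + 2) o₁ B G₁ H₁
  rel1 : RelvF F c (r + 1) o₁ o₁ g₁ Dr h κ B G₁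
  ch2 : ChOK F c (r + 2) (fun _ => D) o₂ o₂ e g₂ B G₂ H₂
  cl2 : Clsd F (r + 2) o₂ B G₂ H₂
  rel2 : RelvF F c (r + 1) o₂ o₂ g₂ Dr h κ B G₂
  th1 : ChOK F c (r + 1) (fun _ => D) (o₁ + (ar - o₁)) o₁ e gT₁ B T₁ TH₁
  pT2 : ∀ s l, DepC c l (TH₂ s l)
  dG : ∀ y, (Gt y).totalDegree ≤ D
  dH : ∀ s, (Ht s).totalDegree ≤ D
  pG : ∀ y, DepC c (r + 1) (Gt y)
  pH : ∀ s, DepC c (r + 1) (Ht s)
  agr : ∀ ω, B ω → ∀ b, NBx c (T₁ (ptr F J ω)) gT₁ (o₁ + (ar - o₁)) (F.t ω) (r + 1) b →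
    |eval b (Gt (ptr F J ω)) - eval b (Ht (slam F o₁ ω))| ≤ 1 / 2 ^ p
  ro1 : ROut1 F c (r + 1) o₁ o₁ (ar - o₁) g₁ gT₁ q₁ (2 ^ x) B G₁ H₁ T₁ TH₁ Ht
  ro2 : ∃ T : PtT F → ℕ → MvPolynomial (Option (Fin m)) ℝ,
    ROut1 F c (r + 1) o₁ o₂ (ar - o₂) g₂ gT₂ q₂ (2 ^ x) B G₂ H₂ T TH₂ Ht
  bl : ∀ ω, B ω → ∀ b, NBx c (G₁ (ptr F J ω)) g₁ o₁ (F.t ω) (r + 1) b →
    |eval b (Gno (c (r + 1)) J J (fun y => G₀ y (r + 1)) (ptr F J ω)) -
      eval b (G₁ (ptr F J ω) (r + 1))| ≤ 2 ^ x / 2 ^ q₀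
  Dr1 : D ≤ Dr
  a0 : g₁ r + sn ≤ su + q₀ + x₀
  a1 : gT₁ r + sn + M₀ ≤ su + p + x
  a2 : gT₁ r + sn ≤ su + q₁ + x
  a3 : q₁ ≤ p
  b1 : gT₂ r + sn + MB ≤ g₂ r + q₂ + x

section one

variable {m J : ℕ} {F : Fam m J}

/-- The charts of the window `o₀`, on the window `o₁`. -/
def hco (F : Fam m J) (o₀ o₁ : ℕ) (H₀ : LnT F → ℕ → MvPolynomial (Option (Fin m)) ℝ)
    (s : LnT F) (l : ℕ) : MvPolynomial (Option (Fin m)) ℝ := H₀ (co (o₁ - o₀) s) l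

/-- **The own path** of the derivative in the direction `u`. -/
noncomputable def cpt (F : Fam m J) (c : ℕ → Fin m) (r su sn o₀ o₁ : ℕ)
    (H₀ : LnT F → ℕ → MvPolynomial (Option (Fin m)) ℝ)
    (Ht : LnT F → MvPolynomial (Option (Fin m)) ℝ) (s : LnT F) : Polynomial ℝ :=
  Polynomial.C (2 ^ sn / 2 ^ su) *
    MvPolynomial.aeval (lc o₁ s) (pderiv (some (c r)) (Ht s - hco F o₀ o₁ H₀ s (r + 1)))

theorem deg_cpt {c : ℕ → Fin m} {r D : ℕ} (su sn o₀ o₁ : ℕ)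
    {H₀ : LnT F → ℕ → MvPolynomial (Option (Fin m)) ℝ}
    {Ht : LnT F → MvPolynomial (Option (Fin m)) ℝ} (h1 : ∀ s l, (H₀ s l).totalDegree ≤ D)
    (h2 : ∀ s, (Ht s).totalDegree ≤ D) (s : LnT F) :
    (cpt F c r su sn o₀ o₁ H₀ Ht s).natDegree ≤ D := by
  unfold cpt
  refine (Polynomial.natDegree_C_mul_le _ _).trans ?_
  have h3 := natDegree_aeval_mul (pderiv (some (c r)) (Ht s - hco F o₀ o₁ H₀ s (r + 1)))
    (lc o₁ s) (E := 1) (fun o => natDegree_lc o₁ s o) (D := D) ((pd_deg _ _).trans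
      ((totalDegree_sub _ _).trans (max_le (h2 s) (h1 _ _))))
  rwa [mul_one] at h3

theorem eval_cpt {c : ℕ → Fin m} {r su sn o₀ o₁ : ℕ}
    {H₀ : LnT F → ℕ → MvPolynomial (Option (Fin m)) ℝ}
    {Ht : LnT F → MvPolynomial (Option (Fin m)) ℝ} (h01 : o₀ ≤ o₁) (h1J : o₁ ≤ J) (ω : F.Ω)
    (τ : ℝ) : (cpt F c r su sn o₀ o₁ H₀ Ht (slam F o₁ ω)).eval τ = 2 ^ sn / 2 ^ su *
      (eval (ptw F o₁ ω τ) (pderiv (some (c r)) (Ht (slam F o₁ ω))) -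
        eval (ptw F o₁ ω τ) (pderiv (some (c r)) (H₀ (slam F o₀ ω) (r + 1)))) := by
  unfold cpt hco
  rw [Polynomial.eval_mul, Polynomial.eval_C, aeval_lc, map_sub, map_sub, co_slam F h01 h1J]

/-- The relative time is visible. -/
theorem rt_cell {F : Fam m J} {w : ℕ} {ω ν : F.Ω} (h : ptr F J ω = ptr F J ν) :
    rt F w ω = rt F w ν := by
  unfold rt
  rw [(bt_near h).1]

end one

/-- The numbers. -/
theorem num_e {a b c d : ℕ} (h : a + b ≤ c + d) : (2 : ℝ) ^ a / 2 ^ c ≤ 2 ^ d / 2 ^ b := by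
  rw [div_le_div_iff₀ (by positivity) (by positivity), ← pow_add, ← pow_add]
  exact pow_le_pow_right₀ (by norm_num) (by omega)

section data

variable {m J : ℕ} {F : Fam m J} {c : ℕ → Fin m} {r D Dr M₀ MB x x₀ e h p q₀ q₁ q₂ su sn : ℕ}
  {κ : ℝ} {o₀ o₁ o₂ ar : ℕ} {g₀ g₁ g₂ gT₁ gT₂ : ℕ → ℕ} {B : F.Ω → Prop}
  {G₀ G₁ G₂ T₁ : PtT F → ℕ → MvPolynomial (Option (Fin m)) ℝ}
  {H₀ H₁ H₂ TH₁ TH₂ : LnT F → ℕ → MvPolynomial (Option (Fin m)) ℝ}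
  {Gt : PtT F → MvPolynomial (Option (Fin m)) ℝ} {Ht : LnT F → MvPolynomial (Option (Fin m)) ℝ}
  (W : ChD F c r D Dr M₀ MB x x₀ e h p q₀ q₁ q₂ su sn κ o₀ o₁ o₂ ar g₀ g₁ g₂ gT₁ gT₂ B G₀ G₁ G₂
    T₁ H₀ H₁ H₂ TH₁ TH₂ Gt Ht)
include W

theorem ChD.hc1 : Set.InjOn c (Set.Iio (r + 1)) := W.hc.mono fun x hx => by
  rw [Set.mem_Iio] at hx ⊢
  omega

theorem ChD.n1 {ω : F.Ω} (hω : B ω) :
    |eval (bt F ω) (pderiv (some (c r)) (Ht (slam F o₁ ω))) -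
      eval (bt F ω) (pderiv (some (c r)) (H₁ (slam F o₁ ω) (r + 1)))| ≤
      2 ^ x * 2 ^ gT₁ r / 2 ^ q₁ := by
  have hJ : o₁ ≤ J := W.o12.trans W.oJ
  have h1 := W.ro1.win ω hω (rt F o₁ ω) (rt_mem F o₁ ω) (eu (c r))
  rw [ptw_rt F hJ, nrm_eu W.hc1 (W.th1.depH _), dd_eu, map_sub, map_sub, pd_Hno] at h1
  refine h1.trans (le_of_eq ?_)
  ring

theorem ChD.n2 {ω : F.Ω} (hω : B ω) :
    |eval (bt F ω) (pderiv (some (c r)) (Ht (slam F o₁ ω))) -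
      eval (bt F ω) (pderiv (some (c r)) (H₂ (slam F o₂ ω) (r + 1)))| ≤
      2 ^ x * 2 ^ gT₂ r / 2 ^ q₂ := by
  obtain ⟨T, hT⟩ := W.ro2
  have h1 := hT.win ω hω (rt F o₂ ω) (rt_mem F o₂ ω) (eu (c r))
  rw [ptw_rt F W.oJ, nrm_eu W.hc1 (W.pT2 _), dd_eu, map_sub, map_sub, pd_Hno] at h1
  refine h1.trans (le_of_eq ?_)
  ring

end data

/-- **The value is visible.** -/
theorem cf_vis (D r : ℕ) : ∃ C : ℕ, ∀ {m J : ℕ} {F : Fam m J} {c : ℕ → Fin m}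
    {Dr M₀ MB x x₀ e h p q₀ q₁ q₂ su sn : ℕ} {κ : ℝ} {o₀ o₁ o₂ ar : ℕ}
    {g₀ g₁ g₂ gT₁ gT₂ : ℕ → ℕ} {B : F.Ω → Prop}
    {G₀ G₁ G₂ T₁ : PtT F → ℕ → MvPolynomial (Option (Fin m)) ℝ}
    {H₀ H₁ H₂ TH₁ TH₂ : LnT F → ℕ → MvPolynomial (Option (Fin m)) ℝ}
    {Gt : PtT F → MvPolynomial (Option (Fin m)) ℝ} {Ht : LnT F → MvPolynomial (Option (Fin m)) ℝ},
    ChD F c r D Dr M₀ MB x x₀ e h p q₀ q₁ q₂ su sn κ o₀ o₁ o₂ ar g₀ g₁ g₂ gT₁ gT₂ B G₀ G₁ G₂ T₁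
      H₀ H₁ H₂ TH₁ TH₂ Gt Ht → (∀ l < r + 1, e + gT₁ l + M₀ + C ≤ J) →
      (∀ l < r + 1, e + g₁ l + (M₀ + x₀) + C ≤ J) → ∀ ω ν, B ω → B ν →
      ptr F J ω = ptr F J ν →
      |(cpt F c r su sn o₀ o₁ H₀ Ht (slam F o₁ ω)).eval (rt F o₁ ω) -
        (cpt F c r su sn o₀ o₁ H₀ Ht (slam F o₁ ν)).eval (rt F o₁ ν)| ≤
        2 ^ (C * (x + 1)) / 2 ^ M₀ := by
  obtain ⟨C₀, hpd⟩ := pd_last D r
  obtain ⟨C₁, hcell⟩ := pd_cell D r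
  refine ⟨C₀ + 2 * C₁ + 4, ?_⟩
  intro m J F c Dr M₀ MB x x₀ e h p q₀ q₁ q₂ su sn κ o₀ o₁ o₂ ar g₀ g₁ g₂ gT₁ gT₂ B G₀ G₁ G₂ T₁ H₀
    H₁ H₂ TH₁ TH₂ Gt Ht W hJ hJ' ω ν hω hν hpt
  have h1J : o₁ ≤ J := W.o12.trans W.oJ
  have hc1 := W.hc1
  obtain ⟨P, hP⟩ : ∃ P : PtT F → MvPolynomial (Option (Fin m)) ℝ, P = fun y =>
      Gt y - Gno (c (r + 1)) J J (fun y => G₁ y (r + 1)) y := ⟨_, rfl⟩
  obtain ⟨R, hR⟩ : ∃ R : PtT F → MvPolynomial (Option (Fin m)) ℝ, R = fun y =>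
      Gno (c (r + 1)) J J (fun y => G₀ y (r + 1)) y - G₁ y (r + 1) := ⟨_, rfl⟩
  have hPd : ∀ y, (P y).totalDegree ≤ D := fun y => by
    rw [hP]
    exact (totalDegree_sub _ _).trans (max_le (W.dG y) (deg_Gno _ _ _ (W.ch1.degG y _)))
  have hPp : ∀ y, DepC c (r + 1) (P y) := fun y b b' h1 h2 => by
    rw [hP, map_sub, map_sub, W.pG y b b' h1 h2, depC_Gno _ _ _ (W.ch1.depG y _) b b' h1 h2]
  have hRd : ∀ y, (R y).totalDegree ≤ D := fun y => by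
    rw [hR]
    exact (totalDegree_sub _ _).trans (max_le (deg_Gno _ _ _ (W.ch0.degG y _)) (W.ch1.degG y _))
  have hRp : ∀ y, DepC c (r + 1) (R y) := fun y b b' h1 h2 => by
    rw [hR, map_sub, map_sub, W.ch1.depG y _ b b' h1 h2,
      depC_Gno _ _ _ (W.ch0.depG y _) b b' h1 h2]
  have hPe : ∀ (y : PtT F) (b : Option (Fin m) → ℝ), eval b (pderiv (some (c r)) (P y)) =
      eval b (pderiv (some (c r)) (Gt y)) - eval b (pderiv (some (c r)) (G₁ y (r + 1))) := by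
    intro y b
    rw [hP, map_sub, map_sub, pd_Gno]
  have hRe : ∀ (y : PtT F) (b : Option (Fin m) → ℝ), eval b (pderiv (some (c r)) (R y)) =
      eval b (pderiv (some (c r)) (G₀ y (r + 1))) -
        eval b (pderiv (some (c r)) (G₁ y (r + 1))) := by
    intro y b
    rw [hR, map_sub, map_sub, pd_Gno]
  have hq0 : (0 : ℝ) < 2 ^ q₁ := by positivity
  have hbox : ∀ ω, B ω → ∀ b,
      NBx c (T₁ (ptr F J ω)) gT₁ (o₁ + (ar - o₁)) (F.t ω) (r + 1) b →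
      |eval b (P (ptr F J ω))| ≤ 2 ^ (x + 1) / 2 ^ q₁ := by
    intro ω hω b hb
    have h1 := W.agr ω hω b hb
    have h2 := W.ro1.box ω hω b hb
    have h3 : (1 : ℝ) / 2 ^ p ≤ 2 ^ x / 2 ^ q₁ := by
      refine div_le_div₀ (by positivity) (one_le_pow₀ (by norm_num)) hq0
        (pow_le_pow_right₀ (by norm_num) W.a3)
    rw [hP, map_sub]
    have e1 : eval b (Gt (ptr F J ω)) - eval b (Gno (c (r + 1)) J J (fun y => G₁ y (r + 1))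
        (ptr F J ω)) = (eval b (Gt (ptr F J ω)) - eval b (Ht (slam F o₁ ω))) +
        (eval b (Ht (slam F o₁ ω)) - eval b (Gno (c (r + 1)) J J (fun y => G₁ y (r + 1))
          (ptr F J ω))) := by ring
    rw [e1]
    refine (abs_add_le _ _).trans ((add_le_add (h1.trans h3) h2).trans (le_of_eq ?_))
    rw [pow_succ]
    ring
  -- the visible number
  obtain ⟨Z, hZ⟩ : ∃ Z : F.Ω → ℝ, Z = fun ω => 2 ^ sn / 2 ^ su *
      (eval (bt F ω) (pderiv (some (c r)) (P (ptr F J ω))) -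
        eval (bt F ω) (pderiv (some (c r)) (R (ptr F J ω)))) := ⟨_, rfl⟩
  -- own against visible
  have hov : ∀ ω, B ω → |Z ω -
      (cpt F c r su sn o₀ o₁ H₀ Ht (slam F o₁ ω)).eval (rt F o₁ ω)| ≤ 2 ^ (C₀ + x) / 2 ^ M₀ := by
    intro ω hω
    have h1 := hpd (c := c) (ψ := T₁ (ptr F J ω))
      (P := Gt (ptr F J ω) - Ht (slam F o₁ ω)) (g := gT₁) (a := o₁ + (ar - o₁)) (t := F.t ω)
      (M := 1 / 2 ^ p) hc1 (W.th1.degG _) (W.th1.depG _)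
      (fun b b' h1 h2 => by rw [map_sub, map_sub, W.pG _ b b' h1 h2, W.pH _ b b' h1 h2])
      ((totalDegree_sub _ _).trans (max_le (W.dG _) (W.dH _))) (by positivity)
      (fun b hb => by
        rw [map_sub]
        exact W.agr ω hω b hb) (bt F ω) (by
        show |F.t ω - F.t ω| ≤ _
        rw [sub_self, abs_zero]
        positivity) (fun l hl => by
        refine (W.th1.pos ω hω l hl).trans ?_
        exact div_le_div_of_nonneg_right (by norm_num) (by positivity))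
    rw [map_sub, map_sub] at h1
    rw [hZ, eval_cpt W.o01 h1J, ptw_rt F h1J]
    beta_reduce
    rw [hPe, hRe, ← W.cl0 ω hω (r + 1) (by omega), ← mul_sub, abs_mul,
      abs_of_pos (show (0 : ℝ) < 2 ^ sn / 2 ^ su by positivity)]
    have e1 : eval (bt F ω) (pderiv (some (c r)) (Gt (ptr F J ω))) -
        eval (bt F ω) (pderiv (some (c r)) (G₁ (ptr F J ω) (r + 1))) -
        (eval (bt F ω) (pderiv (some (c r)) (G₀ (ptr F J ω) (r + 1))) -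
        eval (bt F ω) (pderiv (some (c r)) (G₁ (ptr F J ω) (r + 1)))) -
        (eval (bt F ω) (pderiv (some (c r)) (Ht (slam F o₁ ω))) -
          eval (bt F ω) (pderiv (some (c r)) (G₀ (ptr F J ω) (r + 1)))) =
        eval (bt F ω) (pderiv (some (c r)) (Gt (ptr F J ω))) -
          eval (bt F ω) (pderiv (some (c r)) (Ht (slam F o₁ ω))) := by ring
    rw [e1]
    refine (mul_le_mul_of_nonneg_left h1 (by positivity)).trans ?_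
    have h2 : (2 : ℝ) ^ (gT₁ r + sn) / 2 ^ (su + p) ≤ 2 ^ x / 2 ^ M₀ :=
      num_e (by have := W.a1; omega)
    calc 2 ^ sn / 2 ^ su * (2 ^ C₀ * (1 / 2 ^ p) * 2 ^ gT₁ r) =
          2 ^ C₀ * (2 ^ (gT₁ r + sn) / 2 ^ (su + p)) := by
          rw [pow_add 2 (gT₁ r), pow_add 2 su]
          field_simp
      _ ≤ 2 ^ C₀ * (2 ^ x / 2 ^ M₀) := mul_le_mul_of_nonneg_left h2 (by positivity)
      _ = _ := by rw [pow_add]; ring
  -- the same cell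
  have hs1 : |eval (bt F ν) (pderiv (some (c r)) (P (ptr F J ω))) -
      eval (bt F ω) (pderiv (some (c r)) (P (ptr F J ω)))| * (2 ^ sn / 2 ^ su) ≤
      2 ^ (C₁ + 2 * x + 1) / 2 ^ M₀ := by
    have h1 := hcell (v := M₀) (M := 2 ^ (x + 1) / 2 ^ q₁) hc1 W.th1 (fun l hl => by
      have := hJ l hl
      omega) (hPp (ptr F J ω)) (hPd _) (by positivity) ω ν hω hpt (hbox ω hω)
    refine (mul_le_mul_of_nonneg_right h1 (by positivity)).trans ?_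
    have h2 : (2 : ℝ) ^ (gT₁ r + sn) / 2 ^ (su + q₁) ≤ 2 ^ x / 2 ^ 0 :=
      num_e (by have := W.a2; omega)
    rw [pow_zero, div_one] at h2
    calc (2 ^ C₁ * (2 ^ (x + 1) / 2 ^ q₁) * 2 ^ gT₁ r / 2 ^ M₀) * (2 ^ sn / 2 ^ su) =
          2 ^ (C₁ + (x + 1)) / 2 ^ M₀ * (2 ^ (gT₁ r + sn) / 2 ^ (su + q₁)) := by
          rw [pow_add 2 (gT₁ r), pow_add 2 su, pow_add 2 C₁]
          field_simp
      _ ≤ 2 ^ (C₁ + (x + 1)) / 2 ^ M₀ * 2 ^ x := mul_le_mul_of_nonneg_left h2 (by positivity)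
      _ = _ := by
          rw [show C₁ + 2 * x + 1 = C₁ + (x + 1) + x by ring, pow_add 2 (C₁ + (x + 1))]
          ring
  have hs2 : |eval (bt F ν) (pderiv (some (c r)) (R (ptr F J ω))) -
      eval (bt F ω) (pderiv (some (c r)) (R (ptr F J ω)))| * (2 ^ sn / 2 ^ su) ≤
      2 ^ (C₁ + x) / 2 ^ M₀ := by
    have h1 := hcell (v := M₀ + x₀) (M := 2 ^ x / 2 ^ q₀) hc1
      (W.ch1.mono (r' := r + 1) (by omega) (fun _ => le_rfl) le_rfl le_rfl) (fun l hl => by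
      have := hJ' l hl
      omega) (hRp (ptr F J ω)) (hRd _) (by positivity) ω ν hω hpt (fun b hb => by
        rw [hR, map_sub]
        exact W.bl ω hω b hb)
    refine (mul_le_mul_of_nonneg_right h1 (by positivity)).trans ?_
    have h2 : (2 : ℝ) ^ (g₁ r + sn) / 2 ^ (su + q₀) ≤ 2 ^ x₀ / 2 ^ 0 :=
      num_e (by have := W.a0; omega)
    rw [pow_zero, div_one] at h2
    calc (2 ^ C₁ * (2 ^ x / 2 ^ q₀) * 2 ^ g₁ r / 2 ^ (M₀ + x₀)) * (2 ^ sn / 2 ^ su) =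
          2 ^ (C₁ + x) / 2 ^ (M₀ + x₀) * (2 ^ (g₁ r + sn) / 2 ^ (su + q₀)) := by
          rw [pow_add 2 (g₁ r), pow_add 2 su, pow_add 2 C₁]
          field_simp
      _ ≤ 2 ^ (C₁ + x) / 2 ^ (M₀ + x₀) * 2 ^ x₀ := mul_le_mul_of_nonneg_left h2 (by positivity)
      _ = _ := by
          rw [pow_add 2 M₀]
          field_simp
  have hsame : |Z ω - Z ν| ≤ 2 ^ (C₁ + 2 * x + 1) / 2 ^ M₀ + 2 ^ (C₁ + x) / 2 ^ M₀ := by
    have e1 : Z ω - Z ν = -((eval (bt F ν) (pderiv (some (c r)) (P (ptr F J ω))) -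
        eval (bt F ω) (pderiv (some (c r)) (P (ptr F J ω)))) * (2 ^ sn / 2 ^ su)) +
        (eval (bt F ν) (pderiv (some (c r)) (R (ptr F J ω))) -
        eval (bt F ω) (pderiv (some (c r)) (R (ptr F J ω)))) * (2 ^ sn / 2 ^ su) := by
      rw [hZ]
      beta_reduce
      rw [hpt]
      ring
    have hpos : (0 : ℝ) < 2 ^ sn / 2 ^ su := by positivity
    rw [e1]
    refine (abs_add_le _ _).trans ?_
    rw [abs_neg, abs_mul, abs_mul, abs_of_pos hpos]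
    exact add_le_add hs1 hs2
  have h1 := hov ω hω
  have h2 := hov ν hν
  have e1 : (cpt F c r su sn o₀ o₁ H₀ Ht (slam F o₁ ω)).eval (rt F o₁ ω) -
      (cpt F c r su sn o₀ o₁ H₀ Ht (slam F o₁ ν)).eval (rt F o₁ ν) =
      -(Z ω - (cpt F c r su sn o₀ o₁ H₀ Ht (slam F o₁ ω)).eval (rt F o₁ ω)) + (Z ω - Z ν) +
      (Z ν - (cpt F c r su sn o₀ o₁ H₀ Ht (slam F o₁ ν)).eval (rt F o₁ ν)) := by ring
  rw [e1]
  refine (abs_add_le _ _).trans ((add_le_add ((abs_add_le _ _).trans (add_le_add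
    ((abs_neg _).trans_le h1) hsame)) h2).trans ?_)
  obtain ⟨E, hE⟩ : ∃ E, E = C₀ + C₁ + 2 * x + 1 := ⟨_, rfl⟩
  have hM : (0 : ℝ) < 2 ^ M₀ := by positivity
  have k1 : (2 : ℝ) ^ (C₀ + x) ≤ 2 ^ E := pow_le_pow_right₀ (by norm_num) (by omega)
  have k2 : (2 : ℝ) ^ (C₁ + 2 * x + 1) ≤ 2 ^ E := pow_le_pow_right₀ (by norm_num) (by omega)
  have k3 : (2 : ℝ) ^ (C₁ + x) ≤ 2 ^ E := pow_le_pow_right₀ (by norm_num) (by omega)
  rw [← add_div, ← add_div, ← add_div]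
  refine div_le_div_of_nonneg_right ?_ hM.le
  calc (2 : ℝ) ^ (C₀ + x) + (2 ^ (C₁ + 2 * x + 1) + 2 ^ (C₁ + x)) + 2 ^ (C₀ + x) ≤
      2 ^ (E + 2) := by
        rw [pow_add 2 E 2]
        linarith [show (0 : ℝ) < 2 ^ E by positivity]
    _ ≤ _ := pow_le_pow_right₀ (by norm_num) (by rw [hE]; nlinarith)

end Pool.CR99
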