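import Pool.Agent.H99.D2.Sup

/-!
# Jointly nonfull pairs of any radius: the data and the supply

`pzR a R₁`, `pzU a R₁`: the radius and the distance of the windows of the pair, if the last natural window
is `t - R₁ q`. `PairE`: `PairD` with the radius `R q`. `PairYE`: `PairY` with them.
-/

set_option autoImplicit false

namespace Pool.CR99

open Finset Real MvPolynomial
open Pool.Agent.H49.Ent Pool.Agent.H32.Dense Pool.STK Pool.KA Pool.KSAT Pool.K2S Pool.PB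
open Pool.GEN Pool.S6C Pool.STAT Pool.CHT Pool.GRW Pool.ONE Pool.STA Pool.PKG
open Pool.LA91 (FaQ sumQ qJets qJet ChG ojet)
open Pool.OWN68 (F1)
open Pool.RCD (vg)
open Pool.AJW Pool.PN18

/-- The radius of the pair, the last natural window is `t - R₁ q`. -/
noncomputable def pzR (a R₁ : ℝ) : ℝ := a + (a - 1) * R₁

/-- The distance of the window of the pair, the last natural window is `t - R₁ q`. -/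
noncomputable def pzU (a R₁ : ℝ) : ℝ := pzT a + a * R₁

theorem pzU_mul {a R₁ : ℝ} (ha : 1 < a) : (a - 1) * (pzU a R₁ + 1) = a * pzR a R₁ - 1 / 2 := by
  have h1 := pzT_mul ha
  unfold pzU pzR
  linarith only [h1]

theorem pzU_ge {a R₁ : ℝ} (ha : 1 < a) (hR : 0 ≤ R₁) : a * pzR a R₁ + 1 / 2 ≤ a * pzU a R₁ := by
  have h1 := pzT_ge ha
  have h2 : 0 ≤ a * R₁ := mul_nonneg (by linarith) hR
  unfold pzU pzR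
  linarith only [h1, h2]

theorem pzU_eq {a R₁ : ℝ} : pzU a R₁ = pzR a R₁ + R₁ + 1 / (2 * (a - 1)) := by
  unfold pzU pzR pzT
  ring

theorem pzR_pos {a R₁ : ℝ} (ha : 1 < a) (hR : 0 ≤ R₁) : 0 < pzR a R₁ := by
  have h2 : 0 ≤ (a - 1) * R₁ := mul_nonneg (by linarith) hR
  unfold pzR
  linarith only [ha, h2]

theorem pzU_gt {a R₁ : ℝ} (ha : 1 < a) : pzR a R₁ + R₁ < pzU a R₁ := by
  have h1 : 0 < a - 1 := by linarith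
  have : 0 < 1 / (2 * (a - 1)) := by positivity
  rw [pzU_eq]
  linarith

/-- **The data of a jointly nonfull pair** of labels: `PairD` with the radius `R q`. -/
structure PairE {m : ℕ} (S : PCl m) (Ψ : Fm2 m) (c : ℕ → Fin m) (r K : ℕ) (I₂ : Finset (Fin m))
    (κ₂ : Fin m) (a b R h δ ℓ : ℝ) (N₀ : ℕ) (v w q : ℝ) (p n : ℕ → ℝ) (lN : ℝ → ℝ) (pf : ℕ → ℝ)
    (Nf : ℕ → ℕ → ℝ) (e E₂ r₂ p₂ : ℝ) (E rd : ℕ → ℝ) (vn Pn En Rn : ℝ) (K₁ : ℕ) : Prop where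
  /-- the labels, the context in the code; hereditary -/
  psl : PsL Ψ c r K I₂ κ₂ v ℓ e E₂ r₂ p₂ E rd p n
  /-- the labels exist -/
  ex : Bas S (fun J F A => ∃ (V C : Type) (z : PtT F → V) (z' : LnT F → V)
      (G₁ G₂ : V → MvPolynomial (Option (Fin m)) ℝ) (cc : LnT F → C), Ψ J F A V C z z' G₁ G₂ cc)
  /-- the context is few bits -/
  ctx : Fw2 S (fun J F => ptr F J) w (fun _ F => F.T)
      (qJets m c 0 r 1 (fun _ _ => w) (fun l _ => pf l) Nf) Ψ (τ := fun _ _ _ C => C)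
      (fun J F _ _ _ _ _ c ω => c (vg v J F ω)) e (δ * (R * q))
  /-- the rows of the place given the second coordinate -/
  rw₁ : Rw2 S Ψ (c r) κ₂ v (p r) p₂ a b (R * q) h (δ * (R * q)) N₀
  /-- the rows of the second coordinate given the place -/
  rw₂ : Rw2 S Ψ.swap κ₂ (c r) v p₂ (p r) b a (R * q) h (δ * (R * q)) N₀
  /-- the value of the second coordinate is few bits -/
  val : Fw2 S (fun J F => ptr F J) w (fun _ F => F.T)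
      (qJets m c 0 r 1 (fun _ _ => w) (fun l _ => pf l) Nf) Ψ (τ := fun _ _ _ _ => ℤ)
      (fun J F _ _ z' _ G₂ _ ω => ⌊(2 : ℝ) ^ ((p₂ + b * (R * q)) * J) * ojet F κ₂ 0
        (G₂ (z' (slam F ⌊v * J⌋₊ ω))) ω⌋) e (δ * (R * q))
  /-- the second label is closed at `vn` plus a closed polynomial over the chain -/
  dcp : Dcp2 Ψ ((range r).image c) I₂ κ₂ K₁ vn v En Rn Pn e
  vn0 : 0 ≤ vn
  vnv : vn + pzD R b * q ≤ v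
  p₂1 : p₂ ≤ lN v + q
  p₂2 : lN v - q ≤ p₂
  Pn1 : lN vn - q ≤ Pn

theorem _root_.Pool.PKG.PairD.pairE {m : ℕ} {S : PCl m} {Ψ : Fm2 m} {c : ℕ → Fin m} {r K : ℕ}
    {I₂ : Finset (Fin m)} {κ₂ : Fin m} {a b h δ ℓ : ℝ} {N₀ : ℕ} {v w q : ℝ} {p n : ℕ → ℝ}
    {lN : ℝ → ℝ} {pf : ℕ → ℝ} {Nf : ℕ → ℕ → ℝ} {e E₂ r₂ p₂ : ℝ} {E rd : ℕ → ℝ}
    {vn Pn En Rn : ℝ} {K₁ : ℕ}
    (H : PairD S Ψ c r K I₂ κ₂ a b h δ ℓ N₀ v w q p n lN pf Nf e E₂ r₂ p₂ E rd vn Pn En Rn K₁) :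
    PairE S Ψ c r K I₂ κ₂ a b a h δ ℓ N₀ v w q p n lN pf Nf e E₂ r₂ p₂ E rd vn Pn En Rn K₁ :=
  ⟨H.psl, H.ex, H.ctx, H.rw₁, H.rw₂, H.val, H.dcp, H.vn0, H.vnv, H.p₂1, H.p₂2, H.Pn1⟩

/-- **Jointly nonfull pairs at all scales of the record**, in a subclass, the last natural window is
`t - R₁ q`: `PairY` with the radius `pzR (Sl r) R₁ q` and the window `t - pzU (Sl r) R₁ q`. -/
def PairYE (m r : ℕ) (h : ℝ) (Sl : ℕ → ℝ) (κ : ℕ → Kg) {ι Λ : Type} (Q : PropG m ι)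
    (Z : PropZ m Λ) (Y : PropY m) (R₁ : ℝ) : Prop :=
  ∀ al : ℝ, 0 < al → ∀ K₀ : ℝ, 0 < K₀ → ∀ S₀ : ℕ, 1 ≤ S₀ →
  ∃ (Kr : ℝ) (Nr : ℕ) (Ar Vr : ℕ → ℝ), 1 ≤ Kr ∧ (∀ k < Nr, -Kr ≤ Vr k ∧ Vr k ≤ Ar k ∧ Ar k ≤ Kr) ∧
  ∀ S₂ : ℕ, S₀ ≤ S₂ → ∀ dd : ℝ, 0 < dd →
  ∃ (K : ℕ) (h' D : ℝ), 0 < h' ∧ h' ≤ Sl r ∧ h' ≤ Sl (r + 1) ∧
  ∀ δ : ℝ, 0 < δ → ∀ N₀ : ℕ, 0 < N₀ →
  ∃ X₀ : ℝ, ∀ X : ℝ, X₀ ≤ X → ∃ φ₀ kf₀ : ℝ, 0 < φ₀ ∧ ∀ φ : ℝ, 0 < φ → φ ≤ φ₀ → ∀ kf : ℝ, kf₀ ≤ kf →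
  ∃ ℓ₀ : ℝ, ∀ ℓ : ℝ, ℓ₀ ≤ ℓ → ∀ e₁ : ℝ, 0 < e₁ →
  ∃ (lam : Λ) (K₁ : ℝ) (Nv : ℕ) (Vv : ℕ → ℝ), (∀ j < Nv, -K₁ ≤ Vv j ∧ Vv j ≤ K₁) ∧
  ∀ K' : ℝ, K₁ ≤ K' →
  ∃ ε₀ : ℝ, 0 < ε₀ ∧ ∀ ε : ℝ, 0 < ε → ε ≤ ε₀ →
  ∀ (S : PCl m) (g₀ : ℝ → ℝ) (P : List (Fin m) × Fin m → ℝ → ℝ → ℝ)
    (θ : ℝ) (P₂ : ℕ → List (Fin m) × Fin m → ℝ → ℝ → ℝ) (θ₂ Eb e₂ : ℕ → ℝ) (c : ℕ → Fin m)
    (Pt : ℝ → ℝ → ℝ) (rt : ℝ → ℝ) (L T : ℕ → ℝ → ℝ → ℝ) (G : Set ℝ) (g : ℝ),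
    IsClosed G → g ∈ G → (∀ l < m, HasDerivAt (fun x => L l x x) (Sl l) g) →
    Z lam S P θ c Pt rt L T κ G g →
    ∃ (p : ℕ → ι) (M : ℕ) (B₀ B₁ : ℕ → ℝ),
    (∀ j < M, B₀ j < B₁ j) ∧ ∀ k₀ : ℕ → ℕ, (∀ j < M, Q (p j) (k₀ j) S P θ c Pt rt L T κ G g) →
    ∃ q₁ : ℝ, 0 < q₁ ∧ ∀ (q t : ℝ) (x : ℕ → ℝ),
      q < q₁ → (∀ j < M, x j ∈ G ∧ t + B₀ j * q ≤ x j ∧ x j ≤ t + B₁ j * q ∧
        Q (p j) (k₀ j) S P θ c Pt rt L T κ G (x j)) →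
      ∀ (N : ℕ) (A V : ℕ → ℝ) (N' : ℕ) (V' : ℕ → ℝ),
      RecG S al g₀ P θ P₂ θ₂ Eb e₂ c Pt rt h K₀ g L T Sl κ G S₀ N A V S₂ N' V' K' ε q t →
      (∀ k < Nr, ∃ j < N, A j = Ar k ∧ V j = Vr k) → (∀ k < Nv, ∃ j < N', V' j = Vv k) →
      ∀ (pf : ℕ → ℝ) (pr : ℝ) (Nf : ℕ → ℕ → ℝ),
      (∀ l < r, L l t t - φ * q ≤ pf l ∧ pf l ≤ L l t t) →
      L r t t - φ * q ≤ pr → pr ≤ L r t t →
      (∀ l < r, ∀ j ≤ 1, Nf l j = L l t t + kf * q - (j : ℕ) * t) →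
      Y dd S c L q t pf pr Nf →
      ∃ S' : PCl m, S'.Ne ∧
        (∀ (τ : ℝ) (J : ℕ) (F : Fam m J) (A : F.Ω → Prop), S'.St τ J F A → S.St τ J F A) ∧
        ∃ (Ψ : Fm2 m) (I₂ : Finset (Fin m)) (e E₂ r₂ p₂ m₁ ρ : ℝ) (E rd : ℕ → ℝ)
          (vn Pn En Rn : ℝ) (K₁ : ℕ), 0 < e ∧ e ≤ e₁ * q ∧ 3 ^ r * X * q < m₁ ∧ ρ < 1 ∧
          (∀ i ≤ r, 0 ≤ E i ∧
            L i (t + -pzU (Sl r) R₁ * q) (t + -pzU (Sl r) R₁ * q) + E i + m₁ ≤ 1 ∧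
            0 ≤ rd i ∧ rd i ≤ ρ) ∧
          t + -pzU (Sl r) R₁ * q - D * q ≤ vn ∧
          PairE S' Ψ c r K I₂ (c (r + 1)) (Sl r) (Sl (r + 1)) (pzR (Sl r) R₁) h' δ (ℓ * q) N₀
            (t + -pzU (Sl r) R₁ * q) t q
            (fun i => L i (t + -pzU (Sl r) R₁ * q) (t + -pzU (Sl r) R₁ * q))
            (nX r (fun l x => L l x x) (t + -pzU (Sl r) R₁ * q) (X * q)) (fun x => L (r + 1) x x)
            pf Nf e E₂ r₂ p₂ E rd vn Pn En Rn K₁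

/-- **The first jet of the place** `r` from jointly nonfull pairs with the last natural window `t - R₁ q`
(the statement). -/
def F1PE (m r : ℕ) : Prop := ∀ {h : ℝ} {Sl : ℕ → ℝ} {κ : ℕ → Kg} {R₁ : ℝ}, 0 ≤ R₁ →
    (∀ l < r, κ l = .one) → 1 < Sl r → 0 < Sl (r + 1) →
    (∀ i : ℕ, 1 ≤ i → i ≤ ⌊Sl r⌋₊ → ∀ j : ℕ, 1 ≤ j → j ≤ ⌊Sl (r + 1)⌋₊ →
      (i : ℝ) * Sl (r + 1) ≠ j * Sl r) → ∀ {ι Λ : Type} {Q : PropG m ι} {Z : PropZ m Λ}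
    {Y : PropY m}, PairYE m r h Sl κ Q Z Y R₁ → F1UY m r h Sl κ (sumQ Q FaQ) Z Y

end Pool.CR99
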