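import Pool.Agent.H99.D2.Hes
import Pool.Agent.H4.D2.Evt
import Pool.Agent.H23.D2.Two
import Pool.Agent.H23.D2.Nat

/-!
# The velocity of the slope is small: events

`sep_pick`: separated points from many values. `fib_ev`: on a large part of an event the fibres of a
code have separated velocities, if the velocity is alive. `hes_ev`: the velocity of the slope of the
charts of `N` in the direction `u = c r` along the lines is small on a large part of an event.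
`vel_path`: the same for a closed path of an earlier window which is near this slope at the samples.
-/

set_option autoImplicit false

namespace Pool.CR99

open Finset Real MvPolynomial
open Pool.Agent.H49.Ent Pool.Agent.H32.Dense Pool.STK Pool.KA Pool.KSAT Pool.K2S Pool.PB Pool.S6C
open Pool.GEN Pool.CHT Pool.CHX Pool.ISO Pool.D2R Pool.D2G30 Pool.V1E
open Pool.FLF (Fam.sub)
open Pool.PB.Trl (rt rt_mem t_rt)

theorem cnd_of {Ω : Type} [Fintype Ω] {p : Ω → ℝ} {A : Ω → Prop} {ω : Ω}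
    (h : 0 < Pool.Agent.H49.Ent.cond p A True ω) : A ω := by
  by_contra hne
  unfold Pool.Agent.H49.Ent.cond at h
  rw [if_neg (by simpa using hne)] at h
  exact lt_irrefl _ h

/-- Many values: separated points. -/
theorem sep_pick {ι : Type} (s : Finset ι) (κ : ι → ℝ) {β : ℝ} (hβ : 0 < β) (D : ℕ)
    (h : 2 * D + 1 ≤ (s.image fun i => ⌊κ i / β⌋).card) :
    ∃ ν : ℕ → ι, (∀ i ≤ D, ν i ∈ s) ∧
      ∀ i ≤ D, ∀ j ≤ D, i ≠ j → β ≤ |κ (ν i) - κ (ν j)| := by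
  classical
  obtain ⟨T, hT⟩ : ∃ T, T = s.image fun i => ⌊κ i / β⌋ := ⟨_, rfl⟩
  rw [← hT] at h
  have hc : D + 1 ≤ (T.filter fun z => Even z).card ∨ D + 1 ≤ (T.filter fun z => ¬ Even z).card := by
    have h1 := Finset.card_filter_add_card_filter_not (s := T) (fun z => Even z)
    omega
  have key : ∀ U : Finset ℤ, U ⊆ T → D + 1 ≤ U.card → (∀ a ∈ U, ∀ b ∈ U, Even (a - b)) →
      ∃ ν : ℕ → ι, (∀ i ≤ D, ν i ∈ s) ∧
        ∀ i ≤ D, ∀ j ≤ D, i ≠ j → β ≤ |κ (ν i) - κ (ν j)| := by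
    intro U hU hcard hev
    have hmem : ∀ a ∈ U, ∃ i ∈ s, ⌊κ i / β⌋ = a := by
      intro a ha
      have := hU ha
      rw [hT, Finset.mem_image] at this
      exact this
    have hne : U.Nonempty := by
      rw [← Finset.card_pos]
      omega
    obtain ⟨a₀, ha₀⟩ := hne
    obtain ⟨e⟩ : Nonempty (Fin U.card ≃ U) := ⟨U.equivFin.symm⟩
    have hch : ∀ n : ℕ, ∃ i ∈ s, ∀ hn : n < U.card, ⌊κ i / β⌋ = (e ⟨n, hn⟩ : ℤ) := by
      intro n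
      by_cases hn : n < U.card
      · obtain ⟨i, h1, h2⟩ := hmem _ (e ⟨n, hn⟩).2
        exact ⟨i, h1, fun _ => h2⟩
      · obtain ⟨i, h1, -⟩ := hmem a₀ ha₀
        exact ⟨i, h1, fun hn' => absurd hn' hn⟩
    choose ν h1 h2 using hch
    refine ⟨ν, fun i _ => h1 i, fun i hi j hj hij => ?_⟩
    have hi' : i < U.card := by omega
    have hj' : j < U.card := by omega
    have e1 := h2 i hi'
    have e2 := h2 j hj'
    have hne : (e ⟨i, hi'⟩ : ℤ) ≠ (e ⟨j, hj'⟩ : ℤ) := by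
      intro h
      have := e.injective (Subtype.ext h)
      rw [Fin.mk.injEq] at this
      exact hij this
    have hev' := hev _ (e ⟨i, hi'⟩).2 _ (e ⟨j, hj'⟩).2
    rw [← e1, ← e2] at hne hev'
    obtain ⟨A, hA⟩ : ∃ A, A = ⌊κ (ν i) / β⌋ := ⟨_, rfl⟩
    obtain ⟨B, hB⟩ : ∃ B, B = ⌊κ (ν j) / β⌋ := ⟨_, rfl⟩
    rw [← hA, ← hB] at hne hev'
    have h2' : 2 ≤ |A - B| := by
      obtain ⟨k, hk⟩ := hev'
      have hk0 : k ≠ 0 := by
        intro h0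
        rw [h0] at hk
        exact hne (by linarith)
      rw [hk, ← two_mul, abs_mul]
      have : 1 ≤ |k| := Int.one_le_abs hk0
      norm_num
      linarith
    have a1 := Int.floor_le (κ (ν i) / β)
    have a2 := Int.lt_floor_add_one (κ (ν i) / β)
    have b1 := Int.floor_le (κ (ν j) / β)
    have b2 := Int.lt_floor_add_one (κ (ν j) / β)
    rw [← hA] at a1 a2
    rw [← hB] at b1 b2
    have h3 : (2 : ℝ) ≤ |(A : ℝ) - B| := by exact_mod_cast h2'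
    have h4 : 1 ≤ |κ (ν i) / β - κ (ν j) / β| := by
      rcases le_total (B : ℝ) A with h | h
      · rw [abs_of_nonneg (by linarith)] at h3
        exact le_abs.2 (Or.inl (by linarith))
      · rw [abs_of_nonpos (by linarith)] at h3
        exact le_abs.2 (Or.inr (by linarith))
    rw [← sub_div, abs_div, abs_of_pos hβ, le_div_iff₀ hβ, one_mul] at h4
    exact h4
  rcases hc with hc | hc
  · refine key _ (Finset.filter_subset _ _) hc fun a ha b hb => ?_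
    rw [Finset.mem_filter] at ha hb
    exact ha.2.sub hb.2
  · refine key _ (Finset.filter_subset _ _) hc fun a ha b hb => ?_
    rw [Finset.mem_filter, Int.not_even_iff_odd] at ha hb
    exact ha.2.sub_odd hb.2

/-- **Separated velocities on the fibres of a code**, if the velocity is alive. -/
theorem fib_ev {Ω : Type} [Fintype Ω] {p : Ω → ℝ} (hp : IsLaw p) {A : Ω → Prop} {ζ : Type}
    (Z : Ω → ζ) (κ : Ω → ℝ) {β : ℝ} (hβ : 0 < β) (D : ℕ) {c₀ : ℝ} (hc₀ : 0 < c₀)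
    (hA : 0 < Pe p A)
    (hal : ∀ E : Ω → Prop, Sub E A → c₀ * Pe p A ≤ Pe p E →
      Real.log (2 * D + 1) < CH (Pool.Agent.H49.Ent.cond p E True) (fun ω => ⌊κ ω / β⌋) Z) :
    ∃ B : Ω → Prop, Sub B A ∧ (1 - c₀) * Pe p A ≤ Pe p B ∧ ∀ ω, B ω →
      ∃ ν : ℕ → Ω, (∀ i ≤ D, A (ν i) ∧ Z (ν i) = Z ω) ∧
        ∀ i ≤ D, ∀ j ≤ D, i ≠ j → β ≤ |κ (ν i) - κ (ν j)| := by
  classical
  obtain ⟨V, hV⟩ : ∃ V : ζ → Finset ℤ, V = fun z =>
      (univ.filter fun ω => A ω ∧ Z ω = z).image fun ω => ⌊κ ω / β⌋ := ⟨_, rfl⟩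
  obtain ⟨B, hB⟩ : ∃ B : Ω → Prop, B = fun ω => A ω ∧ 2 * D + 1 ≤ (V (Z ω)).card := ⟨_, rfl⟩
  obtain ⟨E, hE⟩ : ∃ E : Ω → Prop, E = fun ω => A ω ∧ ¬ 2 * D + 1 ≤ (V (Z ω)).card := ⟨_, rfl⟩
  have hBA : Sub B A := fun ω hω => by
    rw [hB] at hω
    exact hω.1
  have hEA : Sub E A := fun ω hω => by
    rw [hE] at hω
    exact hω.1
  refine ⟨B, hBA, ?_, ?_⟩
  · by_contra hcon
    rw [not_le] at hcon
    have hsum : Pe p A ≤ Pe p B + Pe p E := by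
      refine Pool.K2S.Pe_or hp fun ω hω => ?_
      by_cases h2 : 2 * D + 1 ≤ (V (Z ω)).card
      · left
        rw [hB]
        exact ⟨hω, h2⟩
      · right
        rw [hE]
        exact ⟨hω, h2⟩
    have hE0 : c₀ * Pe p A ≤ Pe p E := by nlinarith
    have hE1 : 0 < Pe p E := lt_of_lt_of_le (by positivity) hE0
    have h1 := hal E hEA hE0
    have h2 : CH (Pool.Agent.H49.Ent.cond p E True) (fun ω => ⌊κ ω / β⌋) Z ≤
        Real.log ((2 * D + 1 : ℕ) : ℝ) := by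
      refine Pool.D2P.CH_card (isLaw_cond hp hE1) _ _ V (2 * D + 1) (fun ω hω => ?_)
        fun ω hω => ?_
      · have h3 : E ω := cnd_of hω
        rw [hV, Finset.mem_image]
        exact ⟨ω, Finset.mem_filter.2 ⟨Finset.mem_univ _, hEA ω h3, rfl⟩, rfl⟩
      · have h3 : E ω := cnd_of hω
        rw [hE] at h3
        omega
    push_cast at h2
    linarith
  · intro ω hω
    rw [hB] at hω
    obtain ⟨h1, h2⟩ := hω
    rw [hV] at h2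
    obtain ⟨ν, h3, h4⟩ := sep_pick _ κ hβ D h2
    refine ⟨ν, fun i hi => ?_, h4⟩
    have h5 := h3 i hi
    rw [Finset.mem_filter] at h5
    exact h5.2

/-- The difference of the own paths of `u` over the earlier charts is natural, for two lines over the
same charts with near frames. -/
theorem own_dif (D r : ℕ) : ∃ C : ℕ, ∀ {m J : ℕ} {F : Fam m J} {c : ℕ → Fin m}
    {o₀ o₂ x v qu : ℕ} {g₂ : ℕ → ℕ} {G₀ G₂ : PtT F → ℕ → MvPolynomial (Option (Fin m)) ℝ}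
    {H₀ H₂ : LnT F → ℕ → MvPolynomial (Option (Fin m)) ℝ} {ω ν : F.Ω},
    Set.InjOn c (Set.Iio (r + 2)) → o₀ ≤ o₂ → o₂ ≤ J →
    (∀ y l, (G₀ y l).totalDegree ≤ D) → (∀ y l, (G₂ y l).totalDegree ≤ D) →
    (∀ y l, DepC c l (G₀ y l)) → (∀ y l, DepC c l (G₂ y l)) →
    (∀ l < r + 2, H₀ (slam F o₀ ω) l = G₀ (ptr F J ω) l) →
    (∀ l < r + 2, H₂ (slam F o₂ ω) l = G₂ (ptr F J ω) l) →
    (∀ l < r + 2, H₀ (slam F o₀ ν) l = G₀ (ptr F J ω) l) →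
    (∀ l < r + 2, H₂ (slam F o₂ ν) l = G₂ (ptr F J ω) l) →
    (slam F o₂ ν).2.2 = (slam F o₂ ω).2.2 →
    (∀ l < r + 2, ∀ τ ∈ Set.Icc (0 : ℝ) 1,
      |(dv o₂ (fun s _ => H₂ s l) (c l) (slam F o₂ ω)).eval τ| ≤ 2 ^ x / 2 ^ g₂ l) →
    (∀ l < r + 2, ∀ τ ∈ Set.Icc (0 : ℝ) 1,
      |(dv o₂ (fun s _ => H₂ s l) (c l) (slam F o₂ ν)).eval τ| ≤ 2 ^ x / 2 ^ g₂ l) →
    (∀ l < r, ∀ τ ∈ Set.Icc (0 : ℝ) 1,
      |(dv o₂ (fun s _ => H₂ s l) (c l) (slam F o₂ ν)).eval τ -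
        (dv o₂ (fun s _ => H₂ s l) (c l) (slam F o₂ ω)).eval τ| ≤ 1 / 2 ^ (g₂ l + v)) →
    (∀ b, NBx c (G₂ (ptr F J ω)) g₂ o₂ (F.t ω) r b →
      |eval b (Gno (c r) J J (fun y => G₀ y r) (ptr F J ω)) - eval b (G₂ (ptr F J ω) r)| ≤
        2 ^ x / 2 ^ qu) → g₂ r ≤ qu + v →
    ∀ τ ∈ Set.Icc (0 : ℝ) 1,
      |(dv o₂ (fun s _ => hco F o₀ o₂ H₀ s r) (c r) (slam F o₂ ν)).eval τ -
        (dv o₂ (fun s _ => hco F o₀ o₂ H₀ s r) (c r) (slam F o₂ ω)).eval τ| ≤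
        2 ^ (C * (x + 1)) / 2 ^ g₂ r := by
  classical
  obtain ⟨c₀, D₁, hD₁, hlip⟩ := Pool.AVG57.nbx_lipd (r + 2) (fun _ => D)
  refine ⟨c₀ + D₁ + 4, ?_⟩
  intro m J F c o₀ o₂ x v qu g₂ G₀ G₂ H₀ H₂ ω ν hc h02 h2J dG₀ dG₂ pG₀ pG₂ e0 e2 e0ν e2ν
    htn hown hownν hV hblu n1 τ hτ
  have hcr : Set.InjOn c (Set.Iio r) := hc.mono fun y hy => by
    rw [Set.mem_Iio] at hy ⊢
    omega
  obtain ⟨Qu, hQu⟩ : ∃ Qu, Qu = G₂ (ptr F J ω) r -
    Gno (c r) J J (fun y => G₀ y r) (ptr F J ω) := ⟨_, rfl⟩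
  have dQu : Qu.totalDegree ≤ D := by
    rw [hQu]
    exact (totalDegree_sub _ _).trans (max_le (dG₂ _ _) (deg_Gno _ _ _ (dG₀ _ _)))
  have pQu : DepC c r Qu := fun b b' h1 h2 => by
    rw [hQu, map_sub, map_sub, pG₂ _ _ b b' h1 h2, depC_Gno _ _ _ (pG₀ _ _) b b' h1 h2]
  obtain ⟨γu, hγu⟩ := gno_const (c r) J J (fun y => G₀ y r) (ptr F J ω)
  have d2 : ∀ o : F.Ω, (∀ l < r + 2, H₂ (slam F o₂ o) l = G₂ (ptr F J ω) l) → ∀ l < r + 2,
      ∀ τ : ℝ, (dv o₂ (fun s _ => H₂ s l) (c l) (slam F o₂ o)).eval τ =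
        ptw F o₂ o τ (some (c l)) - eval (ptw F o₂ o τ) (G₂ (ptr F J ω) l) := by
    intro o ho l hl τ
    rw [dv_ptw o (fun s => H₂ s l), ho l hl]
  have d0 : ∀ o : F.Ω, (∀ l < r + 2, H₀ (slam F o₀ o) l = G₀ (ptr F J ω) l) → ∀ l < r + 2,
      ∀ τ : ℝ, (dv o₂ (fun s _ => hco F o₀ o₂ H₀ s l) (c l) (slam F o₂ o)).eval τ =
        ptw F o₂ o τ (some (c l)) - eval (ptw F o₂ o τ) (G₀ (ptr F J ω) l) := by
    intro o ho l hl τ
    rw [dv_ptw o (fun s => hco F o₀ o₂ H₀ s l)]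
    unfold hco
    rw [co_slam F h02 h2J, ho l hl]
  have hnone : ptw F o₂ ν τ none = ptw F o₂ ω τ none := by
    unfold ptw
    simp only [lc, Polynomial.eval_add, Polynomial.eval_mul, Polynomial.eval_C, Polynomial.eval_X]
    rw [htn]
  have htime : |ptw F o₂ ν τ none - F.t ω| ≤ 1 / 2 ^ o₂ := by
    rw [hnone]
    exact ptw_tm h2J ω hτ
  have hQus : |eval (ptw F o₂ ω τ) Qu - eval (ptw F o₂ ν τ) Qu| ≤
        2 ^ (c₀ + x * D₁) * (2 ^ x / 2 ^ qu) * (1 / 2 ^ v) := by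
    refine hlip (c := c) (i := r) (G := G₂ (ptr F J ω)) (Q := Qu) (g := g₂) (a := o₂)
      (t := F.t ω) (M := 2 ^ x / 2 ^ qu) (ρ := 1 / 2 ^ v) x (by omega) hcr (fun l => dG₂ _ l)
      (fun l => pG₂ _ l) pQu dQu (by positivity) (by positivity) ?_ ?_
      (ptw F o₂ ν τ) (ptw F o₂ ω τ) hnone htime ?_ ?_
    · rw [div_le_one (by positivity)]
      exact one_le_pow₀ (by norm_num)
    · intro b hb
      rw [hQu, map_sub, abs_sub_comm]
      exact hblu b hb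
    · intro l hl
      rw [← d2 ν e2ν l (by omega) τ]
      exact hownν l (by omega) τ hτ
    · intro l hl
      rw [← d2 ν e2ν l (by omega) τ, ← d2 ω e2 l (by omega) τ, abs_sub_comm]
      refine (hV l hl τ hτ).trans ?_
      have e3 : (1 : ℝ) / 2 ^ v * (2 ^ x / 2 ^ g₂ l) = 2 ^ x * (1 / 2 ^ (g₂ l + v)) := by
        rw [pow_add]
        field_simp
      rw [e3]
      exact le_mul_of_one_le_left (by positivity) (one_le_pow₀ (by norm_num))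
  have k1 : (2 : ℝ) ^ (c₀ + x * D₁) * (2 ^ x / 2 ^ qu) * (1 / 2 ^ v) ≤
      2 ^ (c₀ + x * (D₁ + 1)) / 2 ^ g₂ r := by
    have e1 : (2 : ℝ) ^ (c₀ + x * D₁) * (2 ^ x / 2 ^ qu) * (1 / 2 ^ v) =
        2 ^ (c₀ + x * (D₁ + 1)) / 2 ^ (qu + v) := by
      rw [show c₀ + x * (D₁ + 1) = c₀ + x * D₁ + x by ring, pow_add 2 (c₀ + x * D₁),
        pow_add 2 qu]
      field_simp
    rw [e1]
    exact div_le_div_of_nonneg_left (by positivity) (by positivity)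
      (pow_le_pow_right₀ (by norm_num) n1)
  have h1 := hown r (by omega) τ hτ
  have h2 := hownν r (by omega) τ hτ
  rw [d2 ω e2 r (by omega) τ] at h1
  rw [d2 ν e2ν r (by omega) τ] at h2
  have e6 : ∀ b, eval b Qu = eval b (G₂ (ptr F J ω) r) - (eval b (G₀ (ptr F J ω) r) + γu) :=
    fun b => by rw [hQu, map_sub, hγu]
  rw [e6, e6] at hQus
  rw [d0 ν e0ν r (by omega) τ, d0 ω e0 r (by omega) τ]
  have h3 : 2 * ((2 : ℝ) ^ x / 2 ^ g₂ r) + 2 ^ (c₀ + x * (D₁ + 1)) / 2 ^ g₂ r ≤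
      2 ^ ((c₀ + D₁ + 4) * (x + 1)) / 2 ^ g₂ r := by
    have e1 : 2 * ((2 : ℝ) ^ x / 2 ^ g₂ r) + 2 ^ (c₀ + x * (D₁ + 1)) / 2 ^ g₂ r =
        (2 * 2 ^ x + 2 ^ (c₀ + x * (D₁ + 1))) / 2 ^ g₂ r := by ring
    rw [e1]
    refine div_le_div_of_nonneg_right ?_ (by positivity)
    have k2 : (2 : ℝ) ^ x ≤ 2 ^ (c₀ + x * (D₁ + 1)) :=
      pow_le_pow_right₀ (by norm_num) (by nlinarith)
    have k3 : (2 : ℝ) ^ (c₀ + x * (D₁ + 1) + 2) ≤ 2 ^ ((c₀ + D₁ + 4) * (x + 1)) :=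
      pow_le_pow_right₀ (by norm_num) (by nlinarith [Nat.zero_le (c₀ * x)])
    have k4 : (2 : ℝ) ^ (c₀ + x * (D₁ + 1) + 2) = 4 * 2 ^ (c₀ + x * (D₁ + 1)) := by
      rw [pow_add 2 (c₀ + x * (D₁ + 1))]
      ring
    have k5 : (0 : ℝ) < 2 ^ (c₀ + x * (D₁ + 1)) := by positivity
    linarith
  refine le_trans ?_ h3
  rw [abs_le] at h1 h2 hQus ⊢
  constructor <;> linarith [h1.1, h1.2, h2.1, h2.2, hQus.1, hQus.2]

/-- Nearly affine polynomials. -/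
theorem aff_near {P : Polynomial ℝ} {D : ℕ} {b : ℝ} (hD : P.natDegree ≤ D)
    (hb : ∀ n, 2 ≤ n → |P.coeff n| ≤ b) {τ : ℝ} (hτ : τ ∈ Set.Icc (0 : ℝ) 1) :
    |P.eval τ - P.coeff 0 - P.coeff 1 * τ| ≤ D * b := by
  have hb0 : 0 ≤ b := (abs_nonneg _).trans (hb 2 le_rfl)
  rw [Polynomial.eval_eq_sum_range' (n := D + 2) (by omega), Finset.sum_range_succ',
    Finset.sum_range_succ']
  have e1 : ∑ k ∈ range D, P.coeff (k + 1 + 1) * τ ^ (k + 1 + 1) +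
      P.coeff (0 + 1) * τ ^ (0 + 1) + P.coeff 0 * τ ^ 0 - P.coeff 0 - P.coeff 1 * τ =
      ∑ k ∈ range D, P.coeff (k + 1 + 1) * τ ^ (k + 1 + 1) := by
    rw [zero_add, pow_one, pow_zero]
    ring
  rw [e1]
  refine (Finset.abs_sum_le_sum_abs _ _).trans ?_
  have h : ∀ k ∈ range D, |P.coeff (k + 1 + 1) * τ ^ (k + 1 + 1)| ≤ b := by
    intro k _
    rw [abs_mul, abs_pow, abs_of_nonneg hτ.1]
    calc |P.coeff (k + 1 + 1)| * τ ^ (k + 1 + 1) ≤ b * 1 :=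
          mul_le_mul (hb _ (by omega)) (pow_le_one₀ hτ.1 hτ.2) (pow_nonneg hτ.1 _) hb0
      _ = b := mul_one _
  refine (Finset.sum_le_sum h).trans (le_of_eq ?_)
  rw [Finset.sum_const, card_range, nsmul_eq_mul]

/-- **The code** `Z` of the geometry on one ball: the charts, the time index, the frame path to `v`
digits behind its natural digits, the own coefficients of order at least `2` of `u` and `N`. -/
structure ZOk {m J : ℕ} (F : Fam m J) (c : ℕ → Fin m) (r D x v o₀ o₂ : ℕ) (g₂ : ℕ → ℕ)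
    (A : F.Ω → Prop) (H₀ H₂ : LnT F → ℕ → MvPolynomial (Option (Fin m)) ℝ) {ζ : Type}
    (Z : F.Ω → ζ) : Prop where
  tm : ∀ ω ν, A ω → A ν → Z ω = Z ν → (slam F o₂ ν).2.2 = (slam F o₂ ω).2.2
  c0 : ∀ ω ν, A ω → A ν → Z ω = Z ν → ∀ l < r + 2, H₀ (slam F o₀ ν) l = H₀ (slam F o₀ ω) l
  c2 : ∀ ω ν, A ω → A ν → Z ω = Z ν → ∀ l < r + 2, H₂ (slam F o₂ ν) l = H₂ (slam F o₂ ω) l
  fr : ∀ ω ν, A ω → A ν → Z ω = Z ν → ∀ l < r, ∀ τ ∈ Set.Icc (0 : ℝ) 1,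
    |(dv o₂ (fun s _ => H₂ s l) (c l) (slam F o₂ ν)).eval τ -
      (dv o₂ (fun s _ => H₂ s l) (c l) (slam F o₂ ω)).eval τ| ≤ 1 / 2 ^ (g₂ l + v)
  cu : ∀ ω ν, A ω → A ν → Z ω = Z ν → ∀ n, 2 ≤ n →
    |(dv o₂ (fun s _ => hco F o₀ o₂ H₀ s r) (c r) (slam F o₂ ν)).coeff n -
      (dv o₂ (fun s _ => hco F o₀ o₂ H₀ s r) (c r) (slam F o₂ ω)).coeff n| ≤
        1 / 2 ^ (g₂ r + v + D)
  cn : ∀ ω ν, A ω → A ν → Z ω = Z ν → ∀ n, 2 ≤ n →
    |(dv o₂ (fun s _ => hco F o₀ o₂ H₀ s (r + 1)) (c (r + 1)) (slam F o₂ ν)).coeff n -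
      (dv o₂ (fun s _ => hco F o₀ o₂ H₀ s (r + 1)) (c (r + 1)) (slam F o₂ ω)).coeff n| ≤
        2 ^ x / 2 ^ g₂ (r + 1)

/-- **The velocity of the slope is small** on a large part of an event, if the velocity of `u` is
alive given the code `Z`. -/
theorem hes_ev (D r : ℕ) (hD1 : 1 ≤ D) : ∃ C : ℕ, ∀ {m J : ℕ} {F : Fam m J} {c : ℕ → Fin m}
    {o₀ o₂ x v v₂ q₀ qu : ℕ} {g₂ : ℕ → ℕ} {β c₀ : ℝ} {A : F.Ω → Prop}
    {G₀ G₂ : PtT F → ℕ → MvPolynomial (Option (Fin m)) ℝ}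
    {H₀ H₂ : LnT F → ℕ → MvPolynomial (Option (Fin m)) ℝ} {ζ : Type} {Z : F.Ω → ζ},
    Set.InjOn c (Set.Iio (r + 2)) → o₀ ≤ o₂ → o₂ ≤ J →
    (∀ y l, (G₀ y l).totalDegree ≤ D) → (∀ y l, (G₂ y l).totalDegree ≤ D) →
    (∀ y l, DepC c l (G₀ y l)) → (∀ y l, DepC c l (G₂ y l)) →
    (∀ s l, (H₀ s l).totalDegree ≤ D) →
    Clsd F (r + 2) o₀ A G₀ H₀ → Clsd F (r + 2) o₂ A G₂ H₂ →
    ZOk F c r D x v o₀ o₂ g₂ A H₀ H₂ Z →
    (∀ ω, A ω → ∀ l < r + 2, ∀ τ ∈ Set.Icc (0 : ℝ) 1,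
      |(dv o₂ (fun s _ => H₂ s l) (c l) (slam F o₂ ω)).eval τ| ≤ 2 ^ x / 2 ^ g₂ l) →
    (∀ ω, A ω → ∀ b, NBx c (G₂ (ptr F J ω)) g₂ o₂ (F.t ω) r b →
      |eval b (Gno (c r) J J (fun y => G₀ y r) (ptr F J ω)) - eval b (G₂ (ptr F J ω) r)| ≤
        2 ^ x / 2 ^ qu) →
    (∀ ω, A ω → ∀ b, NBx c (G₂ (ptr F J ω)) g₂ o₂ (F.t ω) (r + 1) b →
      |eval b (Gno (c (r + 1)) J J (fun y => G₀ y (r + 1)) (ptr F J ω)) -
        eval b (G₂ (ptr F J ω) (r + 1))| ≤ 2 ^ x / 2 ^ q₀) →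
    g₂ r + v₂ ≤ qu + v → v₂ ≤ v → g₂ (r + 1) ≤ q₀ + v₂ →
    0 < β → β ≤ 1 → 0 < c₀ → 0 < Pe F.p A →
    (∀ E : F.Ω → Prop, Sub E A → c₀ * Pe F.p A ≤ Pe F.p E → Real.log (2 * D + 1) <
      CH (Pool.Agent.H49.Ent.cond F.p E True) (fun ω => ⌊2 ^ g₂ r *
        (dv o₂ (fun s _ => hco F o₀ o₂ H₀ s r) (c r) (slam F o₂ ω)).coeff 1 / β⌋) Z) →
    ∃ B : F.Ω → Prop, Sub B A ∧ (1 - c₀) * Pe F.p A ≤ Pe F.p B ∧ ∀ ω, B ω →
      ∀ τ ∈ Set.Icc (0 : ℝ) 1, |(Polynomial.derivative (MvPolynomial.aeval (lc o₂ (slam F o₂ ω))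
        (pderiv (some (c r)) (G₂ (ptr F J ω) (r + 1) - G₀ (ptr F J ω) (r + 1))))).eval τ| ≤
        (1 / β) ^ (2 * D * D) * (2 ^ (C * (x + 1)) * (2 ^ g₂ r / 2 ^ g₂ (r + 1))) := by
  classical
  obtain ⟨C₁, hcpy⟩ := hes_cpy D r
  obtain ⟨C₂, hdif⟩ := own_dif D r
  obtain ⟨C₃, hC₃, huc⟩ := Pool.Agent.H40.FR.unit_coef (D + 1)
  obtain ⟨C₄, hC₄⟩ := pow_unbounded_of_one_lt C₃ (one_lt_two (α := ℝ))
  refine ⟨C₁ * (D + 1) + (C₂ + C₄) * (2 * D * D), ?_⟩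
  intro m J F c o₀ o₂ x v v₂ q₀ qu g₂ β c₀ A G₀ G₂ H₀ H₂ ζ Z hc h02 h2J dG₀ dG₂ pG₀ pG₂ dH₀
    cl0 cl2 hZ hown hblu hbl n1 n2 n3 hβ hβ1 hc₀ hA hal
  obtain ⟨B, hBA, hPB, hB⟩ := fib_ev F.isLaw Z (fun ω => 2 ^ g₂ r *
    (dv o₂ (fun s _ => hco F o₀ o₂ H₀ s r) (c r) (slam F o₂ ω)).coeff 1) hβ D hc₀ hA hal
  refine ⟨B, hBA, hPB, fun ω hω τ₀ hτ₀ => ?_⟩
  obtain ⟨ν, hν, hsep⟩ := hB ω hω
  have hAω := hBA ω hω
  have e0 : ∀ l < r + 2, H₀ (slam F o₀ ω) l = G₀ (ptr F J ω) l := fun l hl =>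
    (cl0 ω hAω l hl).symm
  have e2 : ∀ l < r + 2, H₂ (slam F o₂ ω) l = G₂ (ptr F J ω) l := fun l hl =>
    (cl2 ω hAω l hl).symm
  have e0ν : ∀ i ≤ D, ∀ l < r + 2, H₀ (slam F o₀ (ν i)) l = G₀ (ptr F J ω) l := fun i hi l hl =>
    (hZ.c0 ω (ν i) hAω (hν i hi).1 (hν i hi).2.symm l hl).trans (e0 l hl)
  have e2ν : ∀ i ≤ D, ∀ l < r + 2, H₂ (slam F o₂ (ν i)) l = G₂ (ptr F J ω) l := fun i hi l hl =>
    (hZ.c2 ω (ν i) hAω (hν i hi).1 (hν i hi).2.symm l hl).trans (e2 l hl)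
  have htn : ∀ i ≤ D, (slam F o₂ (ν i)).2.2 = (slam F o₂ ω).2.2 := fun i hi =>
    hZ.tm ω (ν i) hAω (hν i hi).1 (hν i hi).2.symm
  have hV : ∀ i ≤ D, ∀ l < r, ∀ τ ∈ Set.Icc (0 : ℝ) 1,
      |(dv o₂ (fun s _ => H₂ s l) (c l) (slam F o₂ (ν i))).eval τ -
        (dv o₂ (fun s _ => H₂ s l) (c l) (slam F o₂ ω)).eval τ| ≤ 1 / 2 ^ (g₂ l + v) :=
    fun i hi => hZ.fr ω (ν i) hAω (hν i hi).1 (hν i hi).2.symm
  obtain ⟨pp, hpp⟩ : ∃ pp : F.Ω → Polynomial ℝ, pp = fun ω =>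
      dv o₂ (fun s _ => hco F o₀ o₂ H₀ s r) (c r) (slam F o₂ ω) := ⟨_, rfl⟩
  obtain ⟨pn, hpn⟩ : ∃ pn : F.Ω → Polynomial ℝ, pn = fun ω =>
      dv o₂ (fun s _ => hco F o₀ o₂ H₀ s (r + 1)) (c (r + 1)) (slam F o₂ ω) := ⟨_, rfl⟩
  have dppd : ∀ ω, (pp ω).natDegree ≤ D + 1 := fun ω => by
    rw [hpp]
    exact natDegree_dv o₂ (G := fun s (_ : Fin m) => hco F o₀ o₂ H₀ s r) (fun s _ => dH₀ _ r)
      (c r) _
  have dpn : ∀ ω, (pn ω).natDegree ≤ D + 1 := fun ω => by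
    rw [hpn]
    exact natDegree_dv o₂ (G := fun s (_ : Fin m) => hco F o₀ o₂ H₀ s (r + 1))
      (fun s _ => dH₀ _ (r + 1)) (c (r + 1)) _
  have hD2 : ((D : ℝ) + 1) ≤ 2 ^ D := by
    have h1 : D + 1 ≤ 2 ^ D := Nat.lt_two_pow_self
    exact_mod_cast h1
  have hcu : ∀ i ≤ D, ∀ n, 2 ≤ n → |(pp (ν i) - pp ω).coeff n| ≤ 1 / 2 ^ (g₂ r + v + D) := by
    intro i hi n hn
    rw [Polynomial.coeff_sub, hpp]
    exact hZ.cu ω (ν i) hAω (hν i hi).1 (hν i hi).2.symm n hn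
  have hcn : ∀ i ≤ D, ∀ n, 2 ≤ n → |(pn (ν i) - pn ω).coeff n| ≤ 2 ^ x / 2 ^ g₂ (r + 1) := by
    intro i hi n hn
    rw [Polynomial.coeff_sub, hpn]
    exact hZ.cn ω (ν i) hAω (hν i hi).1 (hν i hi).2.symm n hn
  have dsu : ∀ i, (pp (ν i) - pp ω).natDegree ≤ D + 1 := fun i =>
    (Polynomial.natDegree_sub_le _ _).trans (max_le (dppd _) (dppd _))
  have dsn : ∀ i, (pn (ν i) - pn ω).natDegree ≤ D + 1 := fun i =>
    (Polynomial.natDegree_sub_le _ _).trans (max_le (dpn _) (dpn _))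
  have hg : (0 : ℝ) < 2 ^ g₂ r := by positivity
  obtain ⟨α, hα⟩ : ∃ α : ℕ → ℝ, α = fun i => 2 ^ g₂ r * (pp (ν i) - pp ω).coeff 0 := ⟨_, rfl⟩
  obtain ⟨κ, hκ⟩ : ∃ κ : ℕ → ℝ, κ = fun i => 2 ^ g₂ r * (pp (ν i) - pp ω).coeff 1 := ⟨_, rfl⟩
  have hbd : ∀ i ≤ D, ∀ τ ∈ Set.Icc (0 : ℝ) 1, |(pp (ν i) - pp ω).eval τ| ≤
      2 ^ (C₂ * (x + 1)) / 2 ^ g₂ r := by
    intro i hi τ hτ
    have h1 := hdif (v := v) (qu := qu) hc h02 h2J dG₀ dG₂ pG₀ pG₂ e0 e2 (e0ν i hi) (e2ν i hi)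
      (htn i hi) (hown ω hAω) (hown (ν i) (hν i hi).1) (hV i hi) (hblu ω hAω) (by omega) τ hτ
    rw [Polynomial.eval_sub, hpp]
    exact h1
  obtain ⟨K, hK⟩ : ∃ K : ℝ, K = 2 ^ ((C₂ + C₄) * (x + 1)) := ⟨_, rfl⟩
  have hK1 : 1 ≤ K := by
    rw [hK]
    exact one_le_pow₀ (by norm_num)
  have hcf : ∀ i ≤ D, ∀ n, |2 ^ g₂ r * (pp (ν i) - pp ω).coeff n| ≤ K := by
    intro i hi n
    have h1 := huc _ _ (dsu i) (hbd i hi) n
    rw [abs_mul, abs_of_pos hg]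
    have h2 := mul_le_mul_of_nonneg_left h1 hg.le
    refine h2.trans ?_
    have e1 : (2 : ℝ) ^ g₂ r * (C₃ * (2 ^ (C₂ * (x + 1)) / 2 ^ g₂ r)) =
        C₃ * 2 ^ (C₂ * (x + 1)) := by
      field_simp
    rw [e1, hK]
    calc C₃ * 2 ^ (C₂ * (x + 1)) ≤ 2 ^ C₄ * 2 ^ (C₂ * (x + 1)) :=
          mul_le_mul_of_nonneg_right hC₄.le (by positivity)
      _ = 2 ^ (C₄ + C₂ * (x + 1)) := by rw [pow_add]
      _ ≤ _ := pow_le_pow_right₀ (by norm_num) (by nlinarith [Nat.zero_le (C₄ * x)])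
  have hfin := hcpy (x := x + D) (v := v) (v₂ := v₂) (q₀ := q₀) (qu := qu) (ν := ν) hc h02 h2J
    dG₀ dG₂ pG₀ pG₂ e0 e2 e0ν e2ν htn (fun l hl τ hτ => (hown ω hAω l hl τ hτ).trans
      (div_le_div_of_nonneg_right (pow_le_pow_right₀ (by norm_num) (by omega)) (by positivity)))
    (fun i hi l hl τ hτ => (hown (ν i) (hν i hi).1 l hl τ hτ).trans
      (div_le_div_of_nonneg_right (pow_le_pow_right₀ (by norm_num) (by omega)) (by positivity)))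
    hV K β α κ hK1 hβ hβ1 (fun i hi => by
      rw [hα]
      exact hcf i hi 0) (fun i hi => by
      rw [hκ]
      exact hcf i hi 1) (fun i hi j hj hij => by
      have h1 := hsep i hi j hj hij
      rw [hκ]
      have e1 : (fun i => 2 ^ g₂ r * (pp (ν i) - pp ω).coeff 1) i -
          (fun i => 2 ^ g₂ r * (pp (ν i) - pp ω).coeff 1) j =
          2 ^ g₂ r * (pp (ν i)).coeff 1 - 2 ^ g₂ r * (pp (ν j)).coeff 1 := by
        simp only [Polynomial.coeff_sub]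
        ring
      rw [e1, hpp]
      exact h1) (fun i hi τ hτ => by
      have h1 := aff_near (dsu i) (hcu i hi) hτ
      have e1 : (α i + κ i * τ) / 2 ^ g₂ r = (pp (ν i) - pp ω).coeff 0 +
          (pp (ν i) - pp ω).coeff 1 * τ := by
        rw [hα, hκ]
        field_simp
      have e2 : (dv o₂ (fun s _ => hco F o₀ o₂ H₀ s r) (c r) (slam F o₂ (ν i))).eval τ -
          (dv o₂ (fun s _ => hco F o₀ o₂ H₀ s r) (c r) (slam F o₂ ω)).eval τ =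
          (pp (ν i) - pp ω).eval τ := by
        rw [Polynomial.eval_sub, hpp]
      rw [e1, e2]
      have e3 : (pp (ν i) - pp ω).eval τ - ((pp (ν i) - pp ω).coeff 0 +
          (pp (ν i) - pp ω).coeff 1 * τ) = (pp (ν i) - pp ω).eval τ -
          (pp (ν i) - pp ω).coeff 0 - (pp (ν i) - pp ω).coeff 1 * τ := by ring
      rw [e3]
      refine h1.trans ?_
      push_cast
      rw [pow_add 2 (g₂ r + v), ← div_div]
      have h2 : ((D : ℝ) + 1) * (1 / 2 ^ (g₂ r + v) / 2 ^ D) =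
          ((D : ℝ) + 1) / 2 ^ D * (1 / 2 ^ (g₂ r + v)) := by ring
      rw [h2]
      refine mul_le_of_le_one_left (by positivity) ?_
      rw [div_le_one (by positivity)]
      exact hD2) (fun i hi => ⟨(pn (ν i) - pn ω).coeff 0, (pn (ν i) - pn ω).coeff 1,
        fun τ hτ => by
      have h1 := aff_near (dsn i) (hcn i hi) hτ
      have e2 : (dv o₂ (fun s _ => hco F o₀ o₂ H₀ s (r + 1)) (c (r + 1))
          (slam F o₂ (ν i))).eval τ -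
          (dv o₂ (fun s _ => hco F o₀ o₂ H₀ s (r + 1)) (c (r + 1)) (slam F o₂ ω)).eval τ =
          (pn (ν i) - pn ω).eval τ := by
        rw [Polynomial.eval_sub, hpn]
      rw [e2]
      refine h1.trans ?_
      push_cast
      rw [← mul_div_assoc]
      refine div_le_div_of_nonneg_right ?_ (by positivity)
      rw [pow_add, mul_comm]
      exact mul_le_mul_of_nonneg_left hD2 (by positivity)⟩)
    (fun b hb => (hblu ω hAω b hb).trans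
      (div_le_div_of_nonneg_right (pow_le_pow_right₀ (by norm_num) (by omega)) (by positivity)))
    (fun b hb => (hbl ω hAω b hb).trans
      (div_le_div_of_nonneg_right (pow_le_pow_right₀ (by norm_num) (by omega)) (by positivity)))
    n1 n2 n3 τ₀ hτ₀
  refine hfin.trans ?_
  have e1 : (K / β) ^ (2 * D * D) = (1 / β) ^ (2 * D * D) *
      2 ^ ((C₂ + C₄) * (x + 1) * (2 * D * D)) := by
    rw [div_eq_mul_one_div, mul_pow, hK, ← pow_mul, mul_comm]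
  rw [e1, mul_assoc]
  refine mul_le_mul_of_nonneg_left ?_ (by positivity)
  rw [← mul_assoc, ← pow_add]
  refine mul_le_mul_of_nonneg_right (pow_le_pow_right₀ (by norm_num) ?_) (by positivity)
  nlinarith [Nat.zero_le (C₁ * D * x)]

/-! ### Paths of earlier windows -/

section res

variable {m J : ℕ} {F : Fam m J}

/-- A path of an earlier window, on a later window. -/
noncomputable def res (n : ℕ) (cP : LnT F → Polynomial ℝ) (s : LnT F) : Polynomial ℝ :=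
  (cP (co n s)).comp (Polynomial.C ((s.2.2 : ℝ) / 2 ^ n - ((s.2.2 / 2 ^ n : ℕ) : ℝ)) +
    Polynomial.C (1 / 2 ^ n) * Polynomial.X)

theorem deg_res {n K : ℕ} {cP : LnT F → Polynomial ℝ} (h : ∀ s, (cP s).natDegree ≤ K)
    (s : LnT F) : (res n cP s).natDegree ≤ K := by
  unfold res
  refine Polynomial.natDegree_comp_le.trans ?_
  have h1 : (Polynomial.C ((s.2.2 : ℝ) / 2 ^ n - ((s.2.2 / 2 ^ n : ℕ) : ℝ)) +
      Polynomial.C (1 / 2 ^ n : ℝ) * Polynomial.X).natDegree ≤ 1 := by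
    refine (Polynomial.natDegree_add_le _ _).trans (max_le ?_ ?_)
    · rw [Polynomial.natDegree_C]
      exact Nat.zero_le _
    · refine (Polynomial.natDegree_C_mul_le _ _).trans ?_
      rw [Polynomial.natDegree_X]
  calc (cP (co n s)).natDegree * _ ≤ K * 1 := Nat.mul_le_mul (h _) h1
    _ = K := mul_one _

/-- The relative times. -/
theorem rt_res {a b : ℕ} (hab : a ≤ b) (hb : b ≤ J) (ω : F.Ω) :
    ((slam F b ω).2.2 : ℝ) / 2 ^ (b - a) - (((slam F b ω).2.2 / 2 ^ (b - a) : ℕ) : ℝ) +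
      1 / 2 ^ (b - a) * rt F b ω = rt F a ω := by
  have h1 := t_rt F (hab.trans hb) ω
  have h2 := t_rt F hb ω
  have h3 : (slam F b ω).2.2 / 2 ^ (b - a) = (slam F a ω).2.2 := by
    rw [← co_slam F hab hb ω]
    rfl
  rw [h3]
  rw [h1] at h2
  have h4 : (2 : ℝ) ^ b = 2 ^ a * 2 ^ (b - a) := by
    rw [← pow_add]
    congr 1
    omega
  rw [h4] at h2
  have ha : (0 : ℝ) < 2 ^ a := by positivity
  have hba : (0 : ℝ) < 2 ^ (b - a) := by positivity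
  rw [div_eq_div_iff (by positivity) (by positivity)] at h2
  have h5 : ((slam F a ω).2.2 + rt F a ω) * 2 ^ (b - a) = (slam F b ω).2.2 + rt F b ω := by
    have : (2 : ℝ) ^ a * (((slam F a ω).2.2 + rt F a ω) * 2 ^ (b - a)) =
        2 ^ a * ((slam F b ω).2.2 + rt F b ω) := by linarith
    exact mul_left_cancel₀ ha.ne' this
  field_simp
  linarith

theorem eval_res {a b : ℕ} (hab : a ≤ b) (hb : b ≤ J) (cP : LnT F → Polynomial ℝ) (ω : F.Ω) :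
    (res (b - a) cP (slam F b ω)).eval (rt F b ω) = (cP (slam F a ω)).eval (rt F a ω) := by
  unfold res
  rw [Polynomial.eval_comp, co_slam F hab hb]
  simp only [Polynomial.eval_add, Polynomial.eval_mul, Polynomial.eval_C, Polynomial.eval_X]
  rw [rt_res hab hb]

theorem der_res {a b : ℕ} (hab : a ≤ b) (hb : b ≤ J) (cP : LnT F → Polynomial ℝ) (ω : F.Ω) :
    (Polynomial.derivative (res (b - a) cP (slam F b ω))).eval (rt F b ω) =
      1 / 2 ^ (b - a) * (Polynomial.derivative (cP (slam F a ω))).eval (rt F a ω) := by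
  unfold res
  rw [Polynomial.derivative_comp, Polynomial.eval_mul, Polynomial.eval_comp, co_slam F hab hb]
  simp only [Polynomial.derivative_add, Polynomial.derivative_C, Polynomial.derivative_C_mul,
    Polynomial.derivative_X, zero_add, mul_one, Polynomial.eval_add, Polynomial.eval_mul,
    Polynomial.eval_C, Polynomial.eval_X]
  rw [rt_res hab hb]

end res

/-- **The velocity of a closed path which is near, at the samples, a path of a later window with a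
small velocity.** -/
theorem vel_path (m K : ℕ) : ∃ C : ℝ, 1 ≤ C ∧ ∀ {J : ℕ} {F : Fam m J} {o₁ o₂ : ℕ}
    {A : F.Ω → Prop} (hA : 0 < Pe F.p A) (cP P : LnT F → Polynomial ℝ) (S E θ : ℝ),
    o₁ ≤ o₂ → o₂ ≤ J → (∀ s, (cP s).natDegree ≤ K) → (∀ s, (P s).natDegree ≤ K) → 0 < S →
    0 ≤ θ → (Fam.sub F A hA).Tm θ → C * (θ + 1) ≤ ((J : ℝ) - o₂) * Real.log 2 →
    (∀ ω, A ω → |(cP (slam F o₁ ω)).eval (rt F o₁ ω) -
      (P (slam F o₂ ω)).eval (rt F o₂ ω)| ≤ S) →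
    (∀ ω, A ω → |(Polynomial.derivative (P (slam F o₂ ω))).eval (rt F o₂ ω)| ≤ E) →
    ∃ B : F.Ω → Prop, Sub B A ∧ Pe F.p A / 2 ≤ Pe F.p B ∧ ∀ ω, B ω →
      |(Polynomial.derivative (cP (slam F o₁ ω))).eval (rt F o₁ ω)| ≤
        2 ^ (o₂ - o₁) * (Real.exp (C * (θ + 1)) * S + E) := by
  classical
  obtain ⟨C₁, hC₁, hrem⟩ := Pool.D2R.rem_fam m K 1
  obtain ⟨C₂, hC₂, hder⟩ := Pool.D2R.der_one K
  have hl : 0 ≤ Real.log C₂ := Real.log_nonneg hC₂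
  refine ⟨C₁ + Real.log C₂, by linarith, ?_⟩
  intro J F o₁ o₂ A hA cP P S E θ h12 h2J dC dP hS hθ hTm hJ hcl hE
  have hq : ∀ s, (res (o₂ - o₁) cP s - P s).natDegree ≤ K := fun s =>
    (Polynomial.natDegree_sub_le _ _).trans (max_le (deg_res dC s) (dP s))
  obtain ⟨B, b1, b2, b3⟩ := hrem J F A hA o₂ (fun _ s => res (o₂ - o₁) cP s - P s) (fun _ => S) θ
    h2J (fun _ _ s => hq s) (fun _ _ => hS) hθ hTm (by
      refine le_trans (mul_le_mul_of_nonneg_right ?_ (by linarith)) hJ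
      linarith) (fun ω hω _ _ => by
      rw [Polynomial.eval_sub, eval_res h12 h2J]
      exact hcl ω hω)
  refine ⟨B, b1, b2, fun ω hω => ?_⟩
  have h1 := hder _ _ (hq (slam F o₂ ω)) (fun τ hτ => b3 ω hω 0 (by norm_num) τ hτ) (rt F o₂ ω)
    (by
      have := rt_mem F o₂ ω
      rw [abs_of_nonneg this.1]
      exact this.2)
  rw [Polynomial.derivative_sub, Polynomial.eval_sub, der_res h12 h2J] at h1
  have h2 := hE ω (b1 ω hω)
  have hp : (0 : ℝ) < 2 ^ (o₂ - o₁) := by positivity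
  obtain ⟨y, hy⟩ : ∃ y, y = (Polynomial.derivative (cP (slam F o₁ ω))).eval (rt F o₁ ω) := ⟨_, rfl⟩
  rw [← hy] at h1 ⊢
  have h3 : |1 / 2 ^ (o₂ - o₁) * y| ≤ C₂ * (Real.exp (C₁ * (θ + 1)) * S) + E := by
    have h4 := abs_sub_abs_le_abs_sub (1 / 2 ^ (o₂ - o₁) * y)
      ((Polynomial.derivative (P (slam F o₂ ω))).eval (rt F o₂ ω))
    linarith
  have h5 : C₂ * (Real.exp (C₁ * (θ + 1)) * S) ≤ Real.exp ((C₁ + Real.log C₂) * (θ + 1)) * S := by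
    rw [← mul_assoc]
    refine mul_le_mul_of_nonneg_right ?_ hS.le
    have h6 : C₂ = Real.exp (Real.log C₂) := (Real.exp_log (by linarith)).symm
    conv_lhs => rw [h6]
    rw [← Real.exp_add]
    refine Real.exp_le_exp.2 ?_
    nlinarith
  rw [abs_mul, abs_of_pos (show (0 : ℝ) < 1 / 2 ^ (o₂ - o₁) by positivity)] at h3
  have h7 : |y| = 2 ^ (o₂ - o₁) * (1 / 2 ^ (o₂ - o₁) * |y|) := by field_simp
  rw [h7]
  exact mul_le_mul_of_nonneg_left (by linarith) hp.le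

/-- **The velocity of a bounded path of an earlier window**, on a later window. -/
theorem vel_scl (m K : ℕ) : ∃ C : ℝ, 1 ≤ C ∧ ∀ {J : ℕ} {F : Fam m J} {o₀ o₁ : ℕ}
    {A : F.Ω → Prop} (hA : 0 < Pe F.p A) (cQ : LnT F → Polynomial ℝ) (S θ : ℝ),
    o₀ ≤ o₁ → o₁ ≤ J → (∀ s, (cQ s).natDegree ≤ K) → 0 < S →
    0 ≤ θ → (Fam.sub F A hA).Tm θ → C * (θ + 1) ≤ ((J : ℝ) - o₀) * Real.log 2 →
    (∀ ω, A ω → |(cQ (slam F o₀ ω)).eval (rt F o₀ ω)| ≤ S) →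
    ∃ B : F.Ω → Prop, Sub B A ∧ Pe F.p A / 2 ≤ Pe F.p B ∧ ∀ ω, B ω →
      |(Polynomial.derivative (res (o₁ - o₀) cQ (slam F o₁ ω))).eval (rt F o₁ ω)| ≤
        Real.exp (C * (θ + 1)) * S / 2 ^ (o₁ - o₀) := by
  classical
  obtain ⟨C₁, hC₁, hrem⟩ := Pool.D2R.rem_fam m K 1
  obtain ⟨C₂, hC₂, hder⟩ := Pool.D2R.der_one K
  have hl : 0 ≤ Real.log C₂ := Real.log_nonneg hC₂
  refine ⟨C₁ + Real.log C₂, by linarith, ?_⟩
  intro J F o₀ o₁ A hA cQ S θ h01 h1J dQ hS hθ hTm hJ hcl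
  obtain ⟨B, b1, b2, b3⟩ := hrem J F A hA o₀ (fun _ s => cQ s) (fun _ => S) θ
    (h01.trans h1J) (fun _ _ s => dQ s) (fun _ _ => hS) hθ hTm (by
      refine le_trans (mul_le_mul_of_nonneg_right ?_ (by linarith)) hJ
      linarith) (fun ω hω _ _ => hcl ω hω)
  refine ⟨B, b1, b2, fun ω hω => ?_⟩
  have h1 := hder _ _ (dQ (slam F o₀ ω)) (fun τ hτ => b3 ω hω 0 (by norm_num) τ hτ) (rt F o₀ ω)
    (by
      have := rt_mem F o₀ ω
      rw [abs_of_nonneg this.1]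
      exact this.2)
  rw [der_res h01 h1J, abs_mul, abs_of_pos (show (0 : ℝ) < 1 / 2 ^ (o₁ - o₀) by positivity)]
  have h5 : C₂ * (Real.exp (C₁ * (θ + 1)) * S) ≤ Real.exp ((C₁ + Real.log C₂) * (θ + 1)) * S := by
    rw [← mul_assoc]
    refine mul_le_mul_of_nonneg_right ?_ hS.le
    have h6 : C₂ = Real.exp (Real.log C₂) := (Real.exp_log (by linarith)).symm
    conv_lhs => rw [h6]
    rw [← Real.exp_add]
    refine Real.exp_le_exp.2 ?_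
    nlinarith
  have h8 : Real.exp ((C₁ + Real.log C₂) * (θ + 1)) * S / 2 ^ (o₁ - o₀) =
      1 / 2 ^ (o₁ - o₀) * (Real.exp ((C₁ + Real.log C₂) * (θ + 1)) * S) := by ring
  rw [h8]
  exact mul_le_mul_of_nonneg_left (h1.trans h5) (by positivity)

end Pool.CR99
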