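import Pool.Agent.H33.PN.Box
import Pool.Agent.H33.PN.Stm
import Pool.Agent.H91.AB.Mvs
import Pool.Agent.H18.PN.Stgc
import Pool.Agent.H18.PN.Stgf

/-!
# The box of a record: points, digits, numbers

`bxv`, `bxg`, `bxC`: the points of the box, their windows, the digits of the near path. `NlB`: no
look-ahead in a sub-box. `ResN`: the numbers. The windows and the labels in the new units.
-/

set_option autoImplicit false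

namespace Pool.PN18

open Finset Real MvPolynomial
open Pool.Agent.H49.Ent Pool.Agent.H32.Dense Pool.STK Pool.KA Pool.KSAT Pool.K2S Pool.PB Pool.GEN
open Pool.S6C Pool.RCD Pool.LA91 Pool.OWN68 Pool.AJW Pool.AJX Pool.CHT Pool.PKG Pool.ALT
open Pool.LP30 (paQ)

/-- The point `x` of the box, in units; the box is `[-(R₁ + 2), -(R₁ + 1)]`, its mesh `1 / Λ`. -/
noncomputable def bxv (R₁ : ℝ) (Λ x : ℕ) : ℝ := -(R₁ + 2) + (x : ℝ) / (Λ : ℝ)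

/-- The window of the point `x` of the box. -/
noncomputable def bxg (t q R₁ : ℝ) (Λ x : ℕ) : ℝ := t + bxv R₁ Λ x * q

/-- The digits of the near path. -/
noncomputable def bxC (r : ℕ) (L : ℕ → ℝ → ℝ → ℝ) (g₁ X φ : ℝ) (l : ℕ) : ℝ :=
  L l g₁ g₁ - g₁ + aX r X l + 2 * φ

/-- **No look-ahead in a sub-box**: the output of `box_rec`. -/
def NlB (r : ℕ) (S' : PCl (r + 2)) (c : ℕ → Fin (r + 2)) (L : ℕ → ℝ → ℝ → ℝ)
    (d : ∀ (J : ℕ) (F : Fam (r + 2) J), LbD F) (a b R₁ V₀ t q ε e' X φ ℓ₁ ℓ₂ ε₁ : ℝ)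
    (M n s k : ℕ) : Prop :=
  ∀ l u, l = k * M ^ (n - s) → u = M ^ (n - s - 1) →
      ∀ α β γ, α ≤ β → β ≤ γ → γ ≤ M → ∀ g₁ v w o : ℝ, g₁ = bxg t q R₁ (M ^ n) 0 →
      v = bxg t q R₁ (M ^ n) (l + α * u) → w = bxg t q R₁ (M ^ n) (l + β * u) →
      o = bxg t q R₁ (M ^ n) (l + γ * u) → ∀ i j : ℕ, (i : ℝ) * b = j * a →
      ((i : ℝ) ≤ a → Nla S' (paQ (r + 2) c r v (fun l' => L l' v v)
          (fun l' => bxC r L g₁ (X * q) (φ * q) l' + v) (bxC r L g₁ (X * q) (φ * q)))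
        (qF c r d (c (r + 1)) g₁ (t + V₀ * q) (L r g₁ g₁) (L (r + 1) g₁ g₁) a b i j o
          ((2 * ε + e') * q))
        (qF c r d (c (r + 1)) g₁ (t + V₀ * q) (L r g₁ g₁) (L (r + 1) g₁ g₁) a b i j w
          ((2 * ε + e') * q)) v w (ε₁ / (M : ℝ) ^ s * q)) ∧
      ((i : ℝ) = a → Nlb S' (paQ (r + 2) c r v (fun l' => L l' v v)
          (fun l' => bxC r L g₁ (X * q) (φ * q) l' + v) (bxC r L g₁ (X * q) (φ * q)))
        (qG c r d (c (r + 1)) g₁ (t + V₀ * q) (L r g₁ g₁) (L (r + 1) g₁ g₁) i j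
          (ℓ₁ / (M : ℝ) ^ s * q) (ℓ₂ / (M : ℝ) ^ s * q)) v w (ε₁ / (M : ℝ) ^ s * q))

/-- The times decrease. -/
theorem StgM.mono {a b : ℝ} {K M : ℕ} {x : ℕ → ℝ} {τ : ℕ → ℕ} (HS : StgM a b K M x τ) :
    ∀ k ≤ M, τ k ≤ τ 0 := by
  intro k
  induction k with
  | zero => exact fun _ => le_rfl
  | succ k ih => exact fun h => (HS.τs k (by omega)).trans (ih (by omega))

/-- The slopes decrease. -/
theorem StgM.xle {a b : ℝ} {K M : ℕ} {x : ℕ → ℝ} {τ : ℕ → ℕ} (HS : StgM a b K M x τ) :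
    ∀ k ≤ M, x k ≤ a ∧ (0 < k → x k < a) := by
  intro k
  induction k with
  | zero => exact fun _ => ⟨HS.x0.le, fun h => absurd h (lt_irrefl 0)⟩
  | succ k ih =>
    intro h
    have h1 := HS.xs k (by omega)
    have h2 := (ih (by omega)).1
    exact ⟨h1.le.trans h2, fun _ => h1.trans_le h2⟩

/-- **The numbers** of the box and of the stages; all lengths in the unit of the record. -/
structure ResN (r K : ℕ) (a b K₀ R₁ V₀ : ℝ) (Ms : ℕ) (τ : ℕ → ℕ) (Rr δ : ℕ → ℝ) (γ₁ : ℝ)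
    (T Nf n Nw : ℕ) (lm ε₁ X φ kf ℓ e' ε KB K' el dl : ℝ) : Prop where
  K0 : 0 < K₀
  R0 : 0 ≤ R₁
  V0 : V₀ ≤ -(R₁ + 3)
  T1 : 1 ≤ T
  TD : pzD (τ 0) b ≤ T
  TA : ∀ k < Ms, ∀ i : ℕ, (i : ℝ) < a → τ 0 + a * Rr k / (a - i) + 1 ≤ T
  T0 : τ 0 ≤ T
  N1 : 1 ≤ Nf
  N8 : 8 * b ≤ Nf
  N2 : ∀ k < Ms, 128 * b ≤ δ k * Rr k * Nf
  M2 : 2 ≤ Nf * T
  E0 : 0 < ε₁
  E1 : ∀ k < Ms, 16 * ε₁ * T ≤ δ k * Rr k
  n3 : ((⌊a⌋₊ : ℝ) + 1) * (a + b + 1) + 2 * (a * Rr 0 / T + b * Rr 0 / T + 1) + 1 ≤ ε₁ * n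
  l0 : 0 < lm
  lE : lm * (((Nf * T : ℕ) : ℝ) ^ n * T) ≤ 1
  w1 : 1 ≤ Nw
  X1 : 2 * ((a + b + K + 8) * τ 0) + 8 ≤ X
  X2 : 32 * (r + 1) * φ ≤ X
  X3 : 12 * (R₁ + 2) ≤ X
  X4 : a + 1 + a * Rr 0 / T + 2 ≤ X
  X5 : b * -V₀ + b * (b * τ 0) + 2 * (b * τ 0) + τ 0 + 6 ≤ X
  X6 : a + a * (a * τ 0) + 2 * (a * τ 0) + τ 0 + 3 ≤ X
  k1 : 3 ^ r * X ≤ kf
  k2 : b * τ 0 + 2 * (r + 1) * φ + 1 ≤ kf
  m1 : kf + τ 0 + R₁ + 2 ≤ ℓ
  m2 : 3 ^ r * X + τ 0 + 1 ≤ ℓ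
  m3 : b * τ 0 + τ 0 + 1 ≤ ℓ
  K1 : ℓ + 1 ≤ KB
  K2 : τ 0 + 3 ^ r * X + 3 ≤ KB
  K3 : 2 * (a + b) * τ 0 + 2 ≤ KB
  K4 : τ 0 + K₀ + 2 * R₁ + 7 ≤ KB
  K5 : KB + (b + 1) * (R₁ + 2) + 1 ≤ K'
  K6 : -V₀ + 2 ≤ K'
  f0 : 0 < φ
  f1 : 8 * φ ≤ lm
  f2 : ∀ k < Ms, 64 * (r + 1) * φ ≤ δ k * Rr k * lm
  e0 : 0 < e'
  e1 : e' ≤ φ / 16
  e2 : e' ≤ γ₁ * lm
  e3 : ∀ k < Ms, 256 * e' ≤ δ k * Rr k * lm
  g0 : 0 < ε
  g1 : 256 * ε ≤ e'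
  w2 : b / (((Nf * T) ^ n * Nw : ℕ) : ℝ) ≤ e' / 32
  d0 : 0 ≤ el
  d1 : 0 ≤ dl
  d2 : dl ≤ b * Real.log 2
  d3 : dl ≤ γ₁
  d4 : el * (2 * ((K₀ + 2 * R₁ + 5) / lm + τ 0)) ≤ γ₁

/-- The windows of a place in the new unit. -/
theorem jfV_sc (r : ℕ) {lam : ℝ} (hlam : 0 < lam) (y vv X : ℝ) (i : ℕ) :
    y + lam * jfV r vv (X / lam) i = jfV r (y + lam * vv) X i := by
  unfold jfV aX
  split_ifs
  · rfl
  · field_simp
    ring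

/-- The windows in the new unit. -/
theorem win_mv {N' : ℕ} {V' : ℕ → ℝ} {lam y v : ℝ} (hlam : 0 < lam)
    (h : ∃ j < N', V' j = y + lam * v) : ∃ j < N', (fun k => (V' k - y) / lam) j = v := by
  obtain ⟨j, hj, e⟩ := h
  refine ⟨j, hj, ?_⟩
  show (V' j - y) / lam = v
  rw [e]
  field_simp
  ring

/-- The labels in the new unit. -/
theorem LabR.mv {r D : ℕ} {S : PCl (r + 2)} {c : ℕ → Fin (r + 2)} {L : ℕ → ℝ → ℝ → ℝ}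
    {e₀ μ q t : ℝ} {N' : ℕ} {V' : ℕ → ℝ} (h : LabR r D S c L e₀ μ q t N' V') {lam y : ℝ}
    (hlam : 0 < lam) :
    LabR r D S c L e₀ μ (lam * q) (t + y * q) N' (fun k => (V' k - y) / lam) := by
  intro k hk
  have e : t + y * q + (V' k - y) / lam * (lam * q) = t + V' k * q := by
    field_simp
    ring
  dsimp only
  rw [e]
  exact h k hk

/-- Division by a number at most one. -/
theorem le_dvl {lam x : ℝ} (hlam : 0 < lam) (h1 : lam ≤ 1) (hx : 0 ≤ x) : x ≤ x / lam := by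
  rw [le_div_iff₀ hlam]
  exact mul_le_of_le_one_right hx h1

/-- **The points of a sub-box.** -/
theorem bx_lin {R₁ : ℝ} {Nf T n s : ℕ} (hN : 0 < Nf) (hT : 0 < T) (hs : s < n) (l x : ℕ) :
    bxv R₁ ((Nf * T) ^ n) (l + x * (Nf * T) ^ (n - s - 1)) =
      bxv R₁ ((Nf * T) ^ n) l + x * (1 / (((Nf * T : ℕ) : ℝ) ^ s * T) / Nf) := by
  have hN' : (Nf : ℝ) ≠ 0 := by exact_mod_cast hN.ne'
  have hT' : (T : ℝ) ≠ 0 := by exact_mod_cast hT.ne'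
  have e1 : (((Nf * T : ℕ) : ℝ)) ^ n = ((Nf * T : ℕ) : ℝ) ^ (n - s - 1) *
      (((Nf * T : ℕ) : ℝ) ^ s * (Nf * T)) := by
    rw [show n = (n - s - 1) + (s + 1) by omega, pow_add, pow_succ]
    have : n - s - 1 + (s + 1) - s - 1 = n - s - 1 := by omega
    rw [this]
    push_cast
    ring
  unfold bxv
  push_cast
  push_cast at e1
  rw [e1]
  have hM : ((Nf : ℝ) * T) ≠ 0 := mul_ne_zero hN' hT'
  have h1 : ((Nf : ℝ) * T) ^ (n - s - 1) ≠ 0 := pow_ne_zero _ hM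
  have h2 : ((Nf : ℝ) * T) ^ s ≠ 0 := pow_ne_zero _ hM
  field_simp
  ring

/-- A sub-box is in the box. -/
theorem bx_le {M n s k x : ℕ} (hM : 0 < M) (hs : s < n) (hk : k < M ^ s) (hx : x ≤ M) :
    k * M ^ (n - s) + x * M ^ (n - s - 1) ≤ M ^ n := by
  have e1 : M ^ (n - s) = M * M ^ (n - s - 1) := by
    rw [← pow_succ']
    congr 1
    omega
  have e2 : M ^ n = M ^ s * M ^ (n - s) := by
    rw [← pow_add]
    congr 1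
    omega
  calc k * M ^ (n - s) + x * M ^ (n - s - 1) ≤ k * M ^ (n - s) + M * M ^ (n - s - 1) := by
        exact Nat.add_le_add_left (Nat.mul_le_mul_right _ hx) _
    _ = (k + 1) * M ^ (n - s) := by rw [e1]; ring
    _ ≤ M ^ s * M ^ (n - s) := Nat.mul_le_mul_right _ hk
    _ = M ^ n := e2.symm

/-- The points of the box. -/
theorem bxv_mem {R₁ : ℝ} {Λ x : ℕ} (hΛ : 0 < Λ) (hx : x ≤ Λ) :
    -(R₁ + 2) ≤ bxv R₁ Λ x ∧ bxv R₁ Λ x ≤ -(R₁ + 1) := by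
  have hΛ' : (0 : ℝ) < Λ := by exact_mod_cast hΛ
  have hx' : (x : ℝ) ≤ Λ := by exact_mod_cast hx
  unfold bxv
  have h1 : (x : ℝ) / Λ ≤ 1 := by rw [div_le_one hΛ']; exact hx'
  have h2 : 0 ≤ (x : ℝ) / Λ := by positivity
  exact ⟨by linarith, by linarith⟩

theorem bxv_fine {R₁ : ℝ} {Λ Nw x : ℕ} (hN : 0 < Nw) : bxv R₁ (Λ * Nw) (x * Nw) = bxv R₁ Λ x := by
  have hN' : (Nw : ℝ) ≠ 0 := by exact_mod_cast hN.ne'
  unfold bxv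
  push_cast
  rw [mul_div_mul_right _ _ hN']

end Pool.PN18
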