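import Pool.Agent.H99.D2.Fze
import Pool.Agent.H80.PN.Jnn
import Pool.Agent.H18.PN.Stgt
import Pool.Agent.H28.RV.Rcd

/-!
# The natural jets of the label `d J F`, and a contradiction with an alive jet

`NzD`: the family of the natural labels of a window over the label `d J F`. `nat_fd`: the jets of the
label `d J F` with the digits natural at `w`. `alv_con`: few bits in a subclass against many.
-/

set_option autoImplicit false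

namespace Pool.PN18

open Finset Real MvPolynomial
open Pool.Agent.H49.Ent Pool.Agent.H32.Dense Pool.STK Pool.KA Pool.KSAT Pool.K2S Pool.PB Pool.GEN
open Pool.S6C Pool.RCD Pool.LA91 Pool.OWN68 Pool.AJW Pool.AJX Pool.CHT Pool.PKG
open Pool.ALT (Fml NzQ NzF NzL NzO nzG floorw wz wz_slam sbu sbu_deg sbu_dep DpI DpI.sub)
open Pool.CR99 (NzE)
open Pool.FLN19 (AlvQ)

/-- **The natural labels of a window over the label** `d J F`, as a family of pairs. -/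
def NzD {m : ℕ} (Ψ₀ : Fml m) (d : ∀ (J : ℕ) (F : Fam m J), LbD F) (c : ℕ → Fin m) (r D : ℕ)
    (vn w pa₁ pa₂ ea ua pa : ℝ) : Fm2 m :=
  fun J F A V _ z z' _ G₂ _ => Ψ₀ J F A (d J F).V (d J F).z (d J F).z' (d J F).G ∧
    ∃ (Y₁ Y₂ : Type) (Q₁ : ℕ) (y₁ : PtT F → Y₁) (y₁' : LnT F → Y₁)
      (B₁ : Y₁ → MvPolynomial (Option (Fin m)) ℝ) (Q₂ : ℕ) (y₂ : PtT F → Y₂)
      (y₂' : LnT F → Y₂) (B₂ : Y₂ → MvPolynomial (Option (Fin m)) ℝ)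
      (fa : V → (d J F).V × (Y₁ × Y₂)),
      NzL c r (c (r + 1)) D D D vn w pa₁ pa₂ ea ua pa F A z z' G₂ (d J F).z' (d J F).G Q₁
        y₁ y₁' B₁ Q₂ y₂ y₂' B₂ fa

theorem nzd_dcp {m : ℕ} {Ψ₀ : Fml m} {d : ∀ (J : ℕ) (F : Fam m J), LbD F} {c : ℕ → Fin m}
    {r D : ℕ} {vn w pa₁ pa₂ ea ua pa e E₀ R₀ P₀ P₀' : ℝ}
    (hΨ : ∀ (J : ℕ) (F : Fam m J) (A : F.Ω → Prop) (V : Type) (z : PtT F → V) (z' : LnT F → V)
      (G : V → MvPolynomial (Option (Fin m)) ℝ), Ψ₀ J F A V z z' G →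
      LbOK F ((range (r + 1)).image c) (c (r + 1)) D ⌊E₀ * J⌋₊ J ⌊vn * J⌋₊ ⌊R₀ * J⌋₊
        ⌊P₀' * J⌋₊ A z z' G) (hP : P₀ - e ≤ P₀') (hvn : vn ≤ w) (hv : w ≤ 1) :
    DcpD (NzD Ψ₀ d c r D vn w pa₁ pa₂ ea ua pa) d
      ((range r).image c) ((range (r + 1)).image c) (c (r + 1)) (D * max 1 D) vn w E₀ R₀ P₀ e := by
  rintro J F A V C z z' G₁ G₂ cc ⟨a1, Y₁, Y₂, Q₁, y₁, y₁', B₁, Q₂, y₂, y₂', B₂, fa, a2⟩
  have hJ0 : (0 : ℝ) ≤ J := Nat.cast_nonneg J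
  have hl := hΨ J F A _ _ _ _ a1
  obtain ⟨f1, f2⟩ := floorw hvn hv J
  refine ⟨hl.mono (Finset.Subset.refl _) ?_ le_rfl le_rfl
      (Nat.floor_le_floor (mul_le_mul_of_nonneg_right hP hJ0)),
    fun y => sbu (c r) (B₂ (fa y).2.2) (B₁ (fa y).2.1 - (d J F).G (fa y).1),
    fun y => ?_, fun y => ?_, fun ω hω => ?_⟩
  · calc D = D * 1 := (mul_one D).symm
      _ ≤ D * max 1 D := Nat.mul_le_mul_left D (le_max_left 1 D)
  · refine sbu_deg (c r) (a2.l2.deg _) ?_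
    exact (totalDegree_sub _ _).trans (max_le (a2.l1.deg _) (hl.deg _))
  · exact sbu_dep (DpI.sub (a2.l1.dep _) (hl.dep _)) (a2.l2.dep _)
  · dsimp only
    rw [a2.pol]
    unfold nzG
    rw [a2.cod, wz_slam (d J F).z' f1 f2]

/-- **The natural jets of the label** `d J F`: its jets with the digits natural at `w`. -/
theorem nat_fd {m r D K : ℕ} {S : PCl m} {C₀ : ℝ} (htm : TmC S C₀) (hr : 1 ≤ r) {c : ℕ → Fin m}
    {sn : ℕ → ℝ → ℝ} {G : Set ℝ} {v vn w X φ lam kf e₁ : ℝ} {v₀ : ℕ → ℝ} {U₀ : Type}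
    {Q : Qt m U₀} (H : JfN r sn G v w X φ lam kf v₀ K) (hch : ChG S c (r + 1) sn G)
    (hA : JetA S (fun J F => ptr F J) (vg w) (fun _ F => F.T) Q c 0 r v (fun i => sn i v)
      (nX r sn v X) e₁) {e : ℝ} (he0 : 0 < e) (he2 : 2 * e ≤ e₁) (he3 : 2 * e ≤ φ / 8)
    -- the base labels and the natural labels at `w`
    {Ψ₀ : Fml m} {d : ∀ (J : ℕ) (F : Fam m J), LbD F} {En Rn Pn Pn' : ℝ}
    (hΨl : ∀ (J : ℕ) (F : Fam m J) (A : F.Ω → Prop) (V : Type) (z : PtT F → V)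
      (z' : LnT F → V) (G : V → MvPolynomial (Option (Fin m)) ℝ), Ψ₀ J F A V z z' G →
      LbOK F ((range (r + 1)).image c) (c (r + 1)) D ⌊En * J⌋₊ J ⌊vn * J⌋₊ ⌊Rn * J⌋₊
        ⌊Pn' * J⌋₊ A z z' G) (hPn : Pn - e ≤ Pn') (hvn : vn ≤ w) {n : ℕ}
    {wv pa₁ pa₂ ea ua pa : ℕ → ℝ}
    (hex : Bas S (fun J F A => ∃ (V : Type) (z : PtT F → V) (z' : LnT F → V)
      (G : V → MvPolynomial (Option (Fin m)) ℝ),
      Sgl (NzE Ψ₀ c r (c (r + 1)) D vn n wv pa₁ pa₂ ea ua pa) d J F A V z z' G))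
    {k : ℕ} (hk : k < n) (hw : wv k = w)
    {j : ℕ} {pt h : ℝ} (hh : 0 < h) (hpt : pt - e ≤ pa k) (hP0 : 2 * e ≤ min Pn pt)
    (h1 : pt + 3 * φ + (w - v) ≤ min Pn pt + X) (heh : e ≤ h / 32) :
    F1 S (fun J F => ptr F J) (vg w) (fun _ F => F.T) Q (qD m d (c (r + 1)) j vn (pt - j * w))
      e h := by
  obtain ⟨uw, rw, hrw, hcw⟩ := hch.ch w H.wG
  have hw0 : 0 ≤ w := hcw.w0
  have hw1 : w < 1 := hcw.u0
  have hh4 : 0 < h / 4 := by positivity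
  have heh1 : e ≤ h / 4 / 8 := by linarith
  have hk0 : c 0 ∈ (range r).image c := mem_image_of_mem _ (mem_range.2 hr)
  have hex' : Bas S (fun J F A => ∃ (V C : Type) (z : PtT F → V) (z' : LnT F → V)
      (G₁ G₂ : V → MvPolynomial (Option (Fin m)) ℝ) (cc : LnT F → C),
      NzD Ψ₀ d c r D vn w (pa₁ k) (pa₂ k) (ea k) (ua k) (pa k) J F A V C z z' G₁ G₂ cc) := by
    refine Bas.mono 0 hex ?_
    rintro J - F A ⟨V, z, z', G, h⟩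
    have h2 := h.at
    obtain ⟨Va, Y₁, Y₂, za, za', Ga, Q₁, y₁, y₁', B₁, Q₂, y₂, y₂', B₂, fa, h3⟩ := h2.2 k hk
    rw [hw] at h3
    exact ⟨Va, Unit, za, za', Ga, Ga, fun _ => (), h2.1, Y₁, Y₂, Q₁, y₁, y₁', B₁, Q₂, y₂, y₂', B₂,
      fa, h3⟩
  have hlb : ∀ (J : ℕ) (F : Fam m J) (A : F.Ω → Prop) (V C : Type) (z : PtT F → V) (z' : LnT F → V)
      (G₁ G₂ : V → MvPolynomial (Option (Fin m)) ℝ) (cc : LnT F → C),
      NzD Ψ₀ d c r D vn w (pa₁ k) (pa₂ k) (ea k) (ua k) (pa k) J F A V C z z' G₁ G₂ cc →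
      LbOK F ((range (r + 1)).image c) (c (r + 1)) (max D D * max 1 D) ⌊ea k * J⌋₊ J ⌊w * J⌋₊
        ⌊ua k * J⌋₊ ⌊(pt - e) * J⌋₊ A z z' G₂ := by
    rintro J F A V C z z' G₁ G₂ cc ⟨-, Y₁, Y₂, Q₁, y₁, y₁', B₁, Q₂, y₂, y₂', B₂, fa, a2⟩
    exact a2.lb.mono (Finset.Subset.refl _) le_rfl le_rfl le_rfl
      (Nat.floor_le_floor (mul_le_mul_of_nonneg_right hpt (Nat.cast_nonneg J)))
  have hG : Fw2 S (fun J F => ptr F J) w (fun _ F => F.T) Q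
      (NzD Ψ₀ d c r D vn w (pa₁ k) (pa₂ k) (ea k) (ua k) (pa k)) (τ := fun _ _ _ _ => ℤ)
      (fun J F _ _ z' _ G₂ _ ω => ⌊(2 : ℝ) ^ ((pt - j * w) * J) * ojet F (c (r + 1)) j
        (G₂ (z' (slam F ⌊w * J⌋₊ ω))) ω⌋) e (h / 4) := by
    have hs := fw2_natX (f := fun J F => ptr F J) (y := fun _ F => F.T) (Qu := Q) (a := w)
      (Ψ := (NzD Ψ₀ d c r D vn w (pa₁ k) (pa₂ k) (ea k) (ua k) (pa k)).swap)
      (I := (range (r + 1)).image c)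
      (κ := c (r + 1)) (K := max D D * max 1 D) (j := j) (w := w) (p := pt) (e := e)
      (δ := h / 4) (Er := ea k) (Rr := ua k) htm hw0 hw1 hh4 heh1
      (fun J F A V C z z' G₁ G₂ cc hN => hlb J F A V C z z' G₂ G₁ cc hN)
    intro K₀
    refine Bas.mono 0 (hs K₀) ?_
    rintro J - F A HH V C z z' G₁ G₂ cc hN u₀ hu₀
    exact HH V C z z' G₂ G₁ cc hN u₀ hu₀
  have hF := H.selfw htm hch hA hk0 (j := j) (P := min Pn pt) (N := pt - j * w) (e := 2 * e)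
    (h := h / 4) (by
      have e1 : pt - j * w + j * w + 3 * φ + (w - v) = pt + 3 * φ + (w - v) := by ring
      rw [e1]
      exact h1) (by linarith) he2 he3 hh4
  have key := fd_of_fw (K := max D D * max 1 D) htm hk0 he0 le_rfl hP0 (min_le_left _ _)
    (min_le_right _ _) hh4 hF hlb (nzd_dcp hΨl hPn hvn hw1.le) hex' hG
  exact key.mono le_rfl (by linarith)

section

variable {m : ℕ} {S : PCl m} {al : ℝ} {g₀ : ℝ → ℝ} {P : List (Fin m) × Fin m → ℝ → ℝ → ℝ}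
    {θ : ℝ} {P₂ : ℕ → List (Fin m) × Fin m → ℝ → ℝ → ℝ} {θ₂ Eb e₂ : ℕ → ℝ}
    {c : ℕ → Fin m} {Pt : ℝ → ℝ → ℝ} {rt : ℝ → ℝ} {h K₀ g : ℝ} {L T : ℕ → ℝ → ℝ → ℝ}
    {Sl : ℕ → ℝ} {κ : ℕ → Kg} {G : Set ℝ} {S₀ N : ℕ} {A V : ℕ → ℝ} {S₂ N' : ℕ} {V' : ℕ → ℝ}
    {K' ε q t : ℝ}

/-- **Few bits in a subclass against many.** -/
theorem alv_con {r : ℕ} (hne : S.Ne)
    (Rc : RecG S al g₀ P θ P₂ θ₂ Eb e₂ c Pt rt h K₀ g L T Sl κ G S₀ N A V S₂ N' V' K' ε q t)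
    (hch : ChG S c (r + 1) (fun l x => L l x x) G) (htG : t ∈ G) {X Tn φ : ℝ} (hTn : 0 < Tn)
    (hφ : 0 < φ) (hφ8 : φ ≤ 1 / 8) (hX : Tn + 3 ≤ X) (hK : 3 ^ r * X + 3 ≤ K') {pf : ℕ → ℝ}
    (hpf : ∀ l < r, L l t t - φ * q ≤ pf l ∧ pf l ≤ L l t t) {Nt Nv : ℕ → ℕ → ℝ}
    (h1 : ∀ l < r, ∀ j ≤ 1, Nt l j ≤ Nv l j)
    (h2 : ∀ l < r, ∀ j ≤ 1, L l t t + (aX r X l - Tn - 1) * q ≤ Nv l j + (j : ℕ) * t)
    (h3 : ∀ l < r, ∀ j ≤ 1, Nt l j + (j : ℕ) * t ≤ L l t t + (aX r X l + 1) * q)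
    {pr M : ℝ} (hpr : pr ≤ L r t t) {e e₀ η s : ℝ} (he : 0 < e) (heφ : e ≤ φ * q / 8)
    (he₀ : 0 < e₀) (hηs : η < s)
    (H : F1 S (fun J F => ptr F J) (vg t) (fun _ F => F.T)
      (qJets m c 0 r 1 (fun _ _ => t) (fun l _ => pf l) Nt)
      (qJet m ((range r).image c) (c r) 1 t pr M) e η)
    (HA : AlvQ S t (fun (_ : ℕ) (F : Fam m _) => F.T)
      (qJets m c 0 r 1 (fun _ _ => t) (fun l _ => pf l) Nv)
      (qJet m ((range r).image c) (c r) 1 t pr M) e₀ s) : False := by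
  obtain ⟨ut, rt', hrt, hct⟩ := hch.ch t htG
  have hx1 : Exs S (qJets m c 0 r 1 (fun _ _ => t) (fun l _ => pf l) Nv) :=
    exs_qjets fun i x y j' _ => exs_jet (hrt i (by omega))
      (att_le hct.u0.le (hpf i y).2 (hct.att i x (by omega)))
  have hx2 : Exs S (qJet m ((range r).image c) (c r) 1 t pr M) :=
    exs_jet (hrt r (Nat.lt_succ_self r))
      (att_le hct.u0.le hpr (hct.att r (Nat.zero_le _) (Nat.lt_succ_self r)))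
  have key := f1_tr Rc hch htG hTn hφ hφ8 hX hK hpf h1 h2 h3 he heφ
    (show 0 < (s - η) / 2 by linarith) H
  obtain ⟨e', he', he1, he2⟩ : ∃ e' : ℝ, 0 < e' ∧ e' ≤ e ∧ e' ≤ e₀ :=
    ⟨min e e₀, lt_min he he₀, min_le_left _ _, min_le_right _ _⟩
  obtain ⟨K₁, M₁, hb1⟩ := hx1 e' he'
  obtain ⟨K₂, M₂, hb2⟩ := hx2 e' he'
  obtain ⟨τ, hτ, J₁, hb⟩ := ((hb1.and hb2).and ((key (max K₁ K₂)).and (HA (max K₁ K₂))))
  obtain ⟨J, hJ, F, A, hSt⟩ := hne τ hτ (max J₁ 1)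
  obtain ⟨⟨⟨u, hu, -⟩, u', hu', -⟩, g1, g2⟩ := hb J ((le_max_left _ _).trans hJ) F A hSt
  have hu1 := (qJets m c 0 r 1 (fun _ _ => t) (fun l _ => pf l) Nv).mono (le_max_left K₁ K₂)
    he1 hu
  have hu2 := (qJets m c 0 r 1 (fun _ _ => t) (fun l _ => pf l) Nv).mono (le_max_left K₁ K₂)
    he2 hu
  have hu3 := (qJet m ((range r).image c) (c r) 1 t pr M).mono (le_max_right K₁ K₂) he1 hu'
  have hu4 := (qJet m ((range r).image c) (c r) 1 t pr M).mono (le_max_right K₁ K₂) he2 hu'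
  obtain ⟨V, z, hz, g3⟩ := g1 u u' hu1 hu3
  have g4 := g2 u u' hu2 hu4 V z hz
  have hJ0 : (1 : ℝ) ≤ J := by exact_mod_cast (le_max_right _ _).trans hJ
  have h5 : (η + (s - η) / 2) * J < s * J :=
    mul_lt_mul_of_pos_right (by linarith) (by linarith)
  linarith

end

end Pool.PN18
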