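import Pool.Agent.H99.D2.Vis

/-!
# The closed constant slope: events

`ChA`: the data: three windows `o₀` (target), `o₃` (ball), `od` (deep), and a label `Ht` of the window
`o₀` whose derivative in the direction `u = c r` is near the ones of the charts at the samples.
`cst_ev`: if the velocity of `u` is alive at the deep window, then there is a closed constant which is
near the derivatives of the charts of `N` on the boxes of `o₀` and `o₃`.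
-/

set_option autoImplicit false

namespace Pool.CR99

open Finset Real MvPolynomial
open Pool.Agent.H49.Ent Pool.Agent.H32.Dense Pool.STK Pool.KA Pool.KSAT Pool.K2S Pool.PB Pool.S6C
open Pool.GEN Pool.CHT Pool.CHX Pool.ISO Pool.D2R Pool.D2G30 Pool.V1E
open Pool.FLF (Fam.sub)
open Pool.PB.Trl (rt rt_mem t_rt)

/-- The path of the slope of a label. -/
noncomputable def spt {m J : ℕ} {F : Fam m J} (c : ℕ → Fin m) (r su sn o : ℕ)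
    (Q : LnT F → MvPolynomial (Option (Fin m)) ℝ) (s : LnT F) : Polynomial ℝ :=
  Polynomial.C (2 ^ sn / 2 ^ su) * MvPolynomial.aeval (lc o s) (pderiv (some (c r)) (Q s))

theorem deg_spt {m J : ℕ} {F : Fam m J} {c : ℕ → Fin m} {r D : ℕ} (su sn o : ℕ)
    {Q : LnT F → MvPolynomial (Option (Fin m)) ℝ} (h : ∀ s, (Q s).totalDegree ≤ D) (s : LnT F) :
    (spt c r su sn o Q s).natDegree ≤ D := by
  unfold spt
  refine (Polynomial.natDegree_C_mul_le _ _).trans ?_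
  have h3 := natDegree_aeval_mul (pderiv (some (c r)) (Q s)) (lc o s) (E := 1)
    (fun k => natDegree_lc o s k) (D := D) ((pd_deg _ _).trans (h s))
  rwa [mul_one] at h3

theorem eval_spt {m J : ℕ} {F : Fam m J} {c : ℕ → Fin m} {r su sn o : ℕ} (hJ : o ≤ J)
    {Q : LnT F → MvPolynomial (Option (Fin m)) ℝ} (ω : F.Ω) :
    (spt c r su sn o Q (slam F o ω)).eval (rt F o ω) = 2 ^ sn / 2 ^ su *
      eval (bt F ω) (pderiv (some (c r)) (Q (slam F o ω))) := by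
  unfold spt
  rw [Polynomial.eval_mul, Polynomial.eval_C, aeval_lc, ptw_rt F hJ]

/-- **The data.** -/
structure ChA {m J : ℕ} (F : Fam m J) (c : ℕ → Fin m) (r D Dr M₀ Md x n e h L hi su sn : ℕ)
    (κ : ℝ) (o₀ o₃ od : ℕ) (g₀ g₃ gd : ℕ → ℕ) (B : F.Ω → Prop)
    (G₀ G₃ Gd : PtT F → ℕ → MvPolynomial (Option (Fin m)) ℝ)
    (H₀ H₃ Hd : LnT F → ℕ → MvPolynomial (Option (Fin m)) ℝ)
    (Ht : LnT F → MvPolynomial (Option (Fin m)) ℝ) : Prop where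
  hc : Set.InjOn c (Set.Iio (r + 2))
  o03 : o₀ ≤ o₃
  o0d : o₀ ≤ od
  o3J : o₃ ≤ J
  odJ : od ≤ J
  Dr1 : D ≤ Dr
  ch0 : ChOK F c (r + 2) (fun _ => D) o₀ o₀ e g₀ B G₀ H₀
  cl0 : Clsd F (r + 2) o₀ B G₀ H₀
  rel0 : RelvF F c (r + 1) o₀ o₀ g₀ Dr h κ B G₀
  ch3 : ChOK F c (r + 2) (fun _ => D) o₃ o₃ e g₃ B G₃ H₃
  cl3 : Clsd F (r + 2) o₃ B G₃ H₃
  rel3 : RelvF F c (r + 1) o₃ o₃ g₃ Dr h κ B G₃
  chd : ChOK F c (r + 2) (fun _ => D) od od e gd B Gd Hd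
  cld : Clsd F (r + 2) od B Gd Hd
  ownd : ∀ ω, B ω → ∀ l < r + 2, ∀ τ ∈ Set.Icc (0 : ℝ) 1,
    |(dv od (fun s _ => Hd s l) (c l) (slam F od ω)).eval τ| ≤ 2 ^ n / 2 ^ gd l
  dH : ∀ s, (Ht s).totalDegree ≤ D
  w0 : ∀ ω, B ω → |eval (bt F ω) (pderiv (some (c r)) (Ht (slam F o₀ ω))) -
    eval (bt F ω) (pderiv (some (c r)) (H₀ (slam F o₀ ω) (r + 1)))| ≤ 2 ^ (su + x) / 2 ^ sn
  w3 : ∀ ω, B ω → |eval (bt F ω) (pderiv (some (c r)) (Ht (slam F o₀ ω))) -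
    eval (bt F ω) (pderiv (some (c r)) (H₃ (slam F o₃ ω) (r + 1)))| ≤
      2 ^ (su + x) / 2 ^ (sn + M₀)
  wd : ∀ ω, B ω → |eval (bt F ω) (pderiv (some (c r)) (Ht (slam F o₀ ω))) -
    eval (bt F ω) (pderiv (some (c r)) (Hd (slam F od ω) (r + 1)))| ≤
      2 ^ (su + x) / 2 ^ (sn + Md)
  nL : ∀ l < r + 1, nlp gd l (r + 1) ≤ L
  nv : e + L + gd r + sn + Md ≤ J + su + x

theorem mul_bd {su sn x M : ℕ} {a : ℝ} (h : |a| ≤ 2 ^ (su + x) / 2 ^ (sn + M)) :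
    |2 ^ sn / 2 ^ su * a| ≤ 2 ^ x / 2 ^ M := by
  rw [abs_mul, abs_of_pos (show (0 : ℝ) < 2 ^ sn / 2 ^ su by positivity)]
  refine (mul_le_mul_of_nonneg_left h (by positivity)).trans (le_of_eq ?_)
  rw [pow_add, pow_add]
  field_simp

theorem mul_bd0 {su sn x : ℕ} {a : ℝ} (h : |a| ≤ 2 ^ (su + x) / 2 ^ sn) :
    |2 ^ sn / 2 ^ su * a| ≤ 2 ^ x := by
  rw [abs_mul, abs_of_pos (show (0 : ℝ) < 2 ^ sn / 2 ^ su by positivity)]
  refine (mul_le_mul_of_nonneg_left h (by positivity)).trans (le_of_eq ?_)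
  rw [pow_add]
  field_simp

/-- **The closed constant.** -/
theorem cst_ev (m D r : ℕ) (hD : 1 ≤ D) : ∃ C : ℕ, 1 ≤ C ∧ ∀ {J : ℕ} {F : Fam m J}
    {c : ℕ → Fin m} {Dr M₀ Md MB x n e h L hi su sn : ℕ} {κ : ℝ} {o₀ o₃ od : ℕ}
    {g₀ g₃ gd : ℕ → ℕ} {B : F.Ω → Prop}
    {G₀ G₃ Gd : PtT F → ℕ → MvPolynomial (Option (Fin m)) ℝ}
    {H₀ H₃ Hd : LnT F → ℕ → MvPolynomial (Option (Fin m)) ℝ}
    {Ht : LnT F → MvPolynomial (Option (Fin m)) ℝ} {ζ : Type} {Z : F.Ω → ζ},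
    ChA F c r D Dr M₀ Md x n e h L hi su sn κ o₀ o₃ od g₀ g₃ gd B G₀ G₃ Gd H₀ H₃ Hd Ht →
    KOk F c r od hi B Hd Z → (∀ i < r + 2, e + gd i + C * (n + 1) ≤ hi) →
    (∀ i < r + 2, e + gd i + C ≤ J) → 0 < Pe F.p B → κ ≤ 1 / 32 →
    ∀ (β θ : ℝ) (M : ℕ), 0 < β → β ≤ 1 → 0 ≤ θ →
    (∀ E : F.Ω → Prop, Sub E B → 1 / 2 * Pe F.p B ≤ Pe F.p E → Real.log (2 * D + 1) <
      CH (Pool.Agent.H49.Ent.cond F.p E True)
        (fun ω => ⌊2 ^ gd r / 2 ^ od * F.d ω (c r) / β⌋) Z) →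
    (∀ (A : F.Ω → Prop) (hA : 0 < Pe F.p A), Sub A B → 1 / 4 * Pe F.p B ≤ Pe F.p A →
      (Fam.sub F A hA).Tm θ) →
    C * (θ + 1) ≤ ((J : ℝ) - o₀) * Real.log 2 → C * (θ + 1) ≤ ((J : ℝ) - od) * Real.log 2 →
    Real.exp (C * (θ + 1)) * (2 ^ (od - o₀) * (2 ^ x / 2 ^ Md + 2 ^ sn / 2 ^ su *
      ((1 / β) ^ (2 * D * D) * (2 ^ (C * (n + 1)) * (2 ^ gd r / 2 ^ gd (r + 1)))))) +
      2 ^ (C * (x + 1)) / 2 ^ Md ≤ 1 / (4 * 2 ^ M) → su + MB ≤ g₃ r + M + x →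
    su + MB ≤ g₃ r + M₀ + x →
    ∃ (B' : F.Ω → Prop) (κL : LnT F → ℝ) (κG : PtT F → ℝ), Sub B' B ∧
      Pe F.p B / 64 ≤ Pe F.p B' ∧
      CfC F c r M o₀ o₃ g₀ g₃ (2 ^ su / 2 ^ sn) (2 ^ (h + 2 * x + 2) * (2 ^ su / 2 ^ sn))
        (2 ^ (h + 2 * x + 2) * (2 ^ g₃ r / 2 ^ (sn + MB))) B' G₀ G₃ (spt c r su sn o₀ Ht)
        κL κG := by
  classical
  obtain ⟨C₁, hC₁, hk1⟩ := k1_ev D r
  obtain ⟨C₂, hC₂, hvel⟩ := k1_vel D
  obtain ⟨C₃, hC₃, hpath⟩ := vel_path m D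
  obtain ⟨C₄, hC₄, hcst⟩ := cf_const m D
  obtain ⟨C₅, hC₅, hvis⟩ := cab_vis D r
  obtain ⟨C₆, hC₆⟩ : ∃ C₆ : ℕ, C₆ = ⌈C₂⌉₊ + ⌈C₃⌉₊ := ⟨_, rfl⟩
  have hC26 : C₂ ≤ C₆ := by
    rw [hC₆]
    push_cast
    have h1 := Nat.le_ceil C₂
    have h2 : (0 : ℝ) ≤ ⌈C₃⌉₊ := Nat.cast_nonneg _
    linarith
  have hC36 : C₃ ≤ C₆ := by
    rw [hC₆]
    push_cast
    have h1 := Nat.le_ceil C₃
    have h2 : (0 : ℝ) ≤ ⌈C₂⌉₊ := Nat.cast_nonneg _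
    linarith
  obtain ⟨C₇, hC₇⟩ := pow_unbounded_of_one_lt C₂ (one_lt_two (α := ℝ))
  refine ⟨C₁ + C₄ + C₅ + C₆ + C₇, by omega, ?_⟩
  intro J F c Dr M₀ Md MB x n e h L hi su sn κ o₀ o₃ od g₀ g₃ gd B G₀ G₃ Gd H₀ H₃ Hd Ht ζ Z W hZ
    hhi hgJ hB hκ β θ M hβ hβ1 hθ hal hTm hJ0 hJd hsum hM hM'
  obtain ⟨C, hC⟩ : ∃ C, C = C₁ + C₄ + C₅ + C₆ + C₇ := ⟨_, rfl⟩
  rw [← hC] at hhi hgJ hJ0 hJd hsum
  have hθ1 : 0 ≤ θ + 1 := by linarith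
  have o0J : o₀ ≤ J := W.o03.trans W.o3J
  have hCR : ∀ {a : ℕ}, a ≤ C → (a : ℝ) * (θ + 1) ≤ C * (θ + 1) := fun h =>
    mul_le_mul_of_nonneg_right (by exact_mod_cast h) hθ1
  -- the slice
  obtain ⟨A₁, a1, a2, a3⟩ := hk1 (c₀ := 1 / 2) (n := n) (hi := hi) W.hc W.odJ W.chd W.cld W.ownd hZ
    (fun i hi => by
      have h1 := hhi i hi
      have h2 : C₁ * (n + 1) ≤ C * (n + 1) := Nat.mul_le_mul_right _ (by omega)
      omega) hβ hβ1 (by norm_num) hB hal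
  obtain ⟨Y, hY⟩ : ∃ Y : ℝ, Y = (1 / β) ^ (2 * D * D) *
    (2 ^ (C₁ * (n + 1)) * (2 ^ gd r / 2 ^ gd (r + 1))) := ⟨_, rfl⟩
  have hY0 : 0 ≤ Y := by rw [hY]; positivity
  have hA₁ : 0 < Pe F.p A₁ := lt_of_lt_of_le (by linarith) a2
  have hsu : (0 : ℝ) < 2 ^ sn / 2 ^ su := by positivity
  have hv : ∀ ω, A₁ ω → |(Polynomial.derivative (spt c r su sn od (fun s => Hd s (r + 1))
      (slam F od ω))).eval (rt F od ω)| ≤ 2 ^ sn / 2 ^ su * (C₂ * Y) := by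
    intro ω hω
    have h1 := hvel (F := F) (w := od) (ω := ω)
      (Q := pderiv (some (c r)) (Gd (ptr F J ω) (r + 1))) (S := Y)
      ((pd_deg _ _).trans (W.chd.degG _ _)) (fun τ hτ τ' hτ' => by
        have h2 := a3 ω hω τ hτ τ' hτ' 0 (by rw [abs_zero]; positivity)
        rw [add_zero, Function.update_eq_self, ← hY] at h2
        exact h2) (rt F od ω) (rt_mem F od ω)
    unfold spt
    beta_reduce
    rw [Polynomial.derivative_C_mul, Polynomial.eval_mul, Polynomial.eval_C, abs_mul,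
      abs_of_pos hsu, ← W.cld ω (a1 ω hω) (r + 1) (by omega)]
    exact mul_le_mul_of_nonneg_left h1 hsu.le
  -- the velocity of the path
  obtain ⟨A₂, b1, b2, b3⟩ := hpath hA₁ (spt c r su sn o₀ Ht)
    (spt c r su sn od (fun s => Hd s (r + 1))) (2 ^ x / 2 ^ Md) (2 ^ sn / 2 ^ su * (C₂ * Y)) θ
    W.o0d W.odJ (deg_spt su sn o₀ W.dH) (deg_spt su sn od (fun s => W.chd.degH s _))
    (by positivity) hθ (hTm A₁ hA₁ a1 (by linarith)) (by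
      refine le_trans ?_ hJd
      exact (mul_le_mul_of_nonneg_right hC36 hθ1).trans (hCR (by omega))) (fun ω hω => by
      rw [eval_spt o0J, eval_spt W.odJ, ← mul_sub]
      exact mul_bd (W.wd ω (a1 ω hω))) hv
  have hA₂B : Sub A₂ B := fun ω hω => a1 ω (b1 ω hω)
  have hA₂p : Pe F.p B / 4 ≤ Pe F.p A₂ := by linarith
  have hA₂ : 0 < Pe F.p A₂ := lt_of_lt_of_le (by linarith) hA₂p
  obtain ⟨S₀, hS₀⟩ : ∃ S₀ : ℝ, S₀ = 2 ^ (od - o₀) * (Real.exp (C₃ * (θ + 1)) * (2 ^ x / 2 ^ Md) +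
    2 ^ sn / 2 ^ su * (C₂ * Y)) := ⟨_, rfl⟩
  have hS0 : 0 < S₀ := by
    rw [hS₀]
    have h1 : 0 < Real.exp (C₃ * (θ + 1)) * (2 ^ x / 2 ^ Md) :=
      mul_pos (Real.exp_pos _) (by positivity)
    have h2 : (0 : ℝ) ≤ 2 ^ sn / 2 ^ su * (C₂ * Y) := by
      have : 0 ≤ C₂ := by linarith
      positivity
    positivity
  -- the constant
  obtain ⟨S₁, hS₁⟩ : ∃ S₁ : ℝ, S₁ = 2 ^ (C₅ * (x + 1)) / 2 ^ Md := ⟨_, rfl⟩
  have hS₁0 : 0 ≤ S₁ := by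
    rw [hS₁]
    positivity
  have hS₁C : S₁ ≤ 2 ^ (C * (x + 1)) / 2 ^ Md := by
    rw [hS₁]
    exact div_le_div_of_nonneg_right (pow_le_pow_right₀ (by norm_num)
      (Nat.mul_le_mul_right _ (by omega))) (by positivity)
  have hv0 : ∀ ω, B ω → |(spt c r su sn o₀ Ht (slam F o₀ ω)).eval (rt F o₀ ω) -
      2 ^ sn / 2 ^ su * eval (bt F ω) (pderiv (some (c r)) (H₀ (slam F o₀ ω) (r + 1)))| ≤
      2 ^ x := by
    intro ω hω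
    rw [eval_spt o0J, ← mul_sub]
    exact mul_bd0 (W.w0 ω hω)
  have hv3 : ∀ ω, B ω → |(spt c r su sn o₀ Ht (slam F o₀ ω)).eval (rt F o₀ ω) -
      2 ^ sn / 2 ^ su * eval (bt F ω) (pderiv (some (c r)) (H₃ (slam F o₃ ω) (r + 1)))| ≤
      2 ^ x / 2 ^ M₀ := by
    intro ω hω
    rw [eval_spt o0J, ← mul_sub]
    exact mul_bd (W.w3 ω hω)
  have hvd : ∀ ω, B ω → |(spt c r su sn o₀ Ht (slam F o₀ ω)).eval (rt F o₀ ω) -
      2 ^ sn / 2 ^ su * eval (bt F ω) (pderiv (some (c r)) (Hd (slam F od ω) (r + 1)))| ≤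
      2 ^ x / 2 ^ Md := by
    intro ω hω
    rw [eval_spt o0J, ← mul_sub]
    exact mul_bd (W.wd ω hω)
  have hvs : ∀ ω ν, A₂ ω → A₂ ν → ptr F J ω = ptr F J ν →
      |(spt c r su sn o₀ Ht (slam F o₀ ω)).eval (rt F o₀ ω) -
        (spt c r su sn o₀ Ht (slam F o₀ ν)).eval (rt F o₀ ν)| ≤ S₁ := by
    intro ω ν hω hν hpt
    rw [hS₁]
    exact hvis (o₁ := o₀) (cP := spt c r su sn o₀ Ht) (M₀ := Md) (x := x) (su := su)
      (sn := sn) W.hc W.chd W.cld (fun i hi => by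
        have := hgJ i hi
        omega) W.nL W.nv hvd ω ν (hA₂B ω hω) (hA₂B ν hν) hpt
  have hS0le : Real.exp (C₄ * (θ + 1)) * S₀ ≤ Real.exp (C * (θ + 1)) * (2 ^ (od - o₀) *
      (2 ^ x / 2 ^ Md + 2 ^ sn / 2 ^ su * ((1 / β) ^ (2 * D * D) * (2 ^ (C * (n + 1)) *
        (2 ^ gd r / 2 ^ gd (r + 1)))))) := by
    have e0 : (0 : ℝ) ≤ 2 ^ x / 2 ^ Md := by positivity
    have e1 : Real.exp (C₄ * (θ + 1)) * Real.exp (C₃ * (θ + 1)) ≤ Real.exp (C * (θ + 1)) := by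
      rw [← Real.exp_add]
      refine Real.exp_le_exp.2 ?_
      rw [← add_mul]
      refine mul_le_mul_of_nonneg_right ?_ hθ1
      have h1 : ((C₄ + C₆ : ℕ) : ℝ) ≤ C := by exact_mod_cast (by omega : C₄ + C₆ ≤ C)
      push_cast at h1
      linarith
    have e2 : Real.exp (C₄ * (θ + 1)) ≤ Real.exp (C * (θ + 1)) :=
      Real.exp_le_exp.2 (hCR (by omega))
    have e3 : C₂ * Y ≤ (1 / β) ^ (2 * D * D) * (2 ^ (C * (n + 1)) *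
        (2 ^ gd r / 2 ^ gd (r + 1))) := by
      rw [hY]
      have k1 : C₂ * 2 ^ (C₁ * (n + 1)) ≤ (2 : ℝ) ^ (C * (n + 1)) := by
        calc C₂ * 2 ^ (C₁ * (n + 1)) ≤ 2 ^ C₇ * 2 ^ (C₁ * (n + 1)) :=
              mul_le_mul_of_nonneg_right hC₇.le (by positivity)
          _ = 2 ^ (C₇ + C₁ * (n + 1)) := by rw [pow_add]
          _ ≤ _ := pow_le_pow_right₀ (by norm_num) (by
              have k2 : C₇ ≤ C₇ * (n + 1) := Nat.le_mul_of_pos_right _ (by omega)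
              calc C₇ + C₁ * (n + 1) ≤ C₇ * (n + 1) + C₁ * (n + 1) := by omega
                _ = (C₇ + C₁) * (n + 1) := by ring
                _ ≤ _ := Nat.mul_le_mul_right _ (by omega))
      calc C₂ * ((1 / β) ^ (2 * D * D) * (2 ^ (C₁ * (n + 1)) * (2 ^ gd r / 2 ^ gd (r + 1)))) =
          (1 / β) ^ (2 * D * D) * ((C₂ * 2 ^ (C₁ * (n + 1))) * (2 ^ gd r / 2 ^ gd (r + 1))) := by
            ring
        _ ≤ _ := by gcongr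
    rw [hS₀]
    calc Real.exp (C₄ * (θ + 1)) * (2 ^ (od - o₀) * (Real.exp (C₃ * (θ + 1)) *
          (2 ^ x / 2 ^ Md) + 2 ^ sn / 2 ^ su * (C₂ * Y))) =
          2 ^ (od - o₀) * ((Real.exp (C₄ * (θ + 1)) * Real.exp (C₃ * (θ + 1))) *
            (2 ^ x / 2 ^ Md) + Real.exp (C₄ * (θ + 1)) * (2 ^ sn / 2 ^ su * (C₂ * Y))) := by ring
      _ ≤ 2 ^ (od - o₀) * (Real.exp (C * (θ + 1)) * (2 ^ x / 2 ^ Md) +
            Real.exp (C * (θ + 1)) * (2 ^ sn / 2 ^ su * ((1 / β) ^ (2 * D * D) *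
              (2 ^ (C * (n + 1)) * (2 ^ gd r / 2 ^ gd (r + 1)))))) := by
          refine mul_le_mul_of_nonneg_left (add_le_add (mul_le_mul_of_nonneg_right e1 e0) ?_)
            (by positivity)
          refine mul_le_mul e2 (mul_le_mul_of_nonneg_left e3 hsu.le) ?_ (Real.exp_pos _).le
          have : 0 ≤ C₂ := by linarith
          positivity
      _ = _ := by ring
  have hfs : Real.exp (C₄ * (θ + 1)) * S₀ + S₁ ≤ 1 / (4 * 2 ^ M) :=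
    (add_le_add hS0le hS₁C).trans hsum
  obtain ⟨B', κL, κG, d1, d2, d3⟩ := hcst (D := D) (Dr := Dr) (M₀ := M₀) (MB := MB) (x := x)
    (h := h) (su := su) (sn := sn) (κ := κ) (g₁ := g₀) (g₂ := g₃) W.o03 W.o3J W.Dr1 W.ch0.degG
    W.ch0.degH W.ch0.depG W.ch0.depH
    W.ch3.degG W.ch3.degH W.ch3.depG W.ch3.depH W.cl0 W.cl3 W.rel0 W.rel3
    (deg_spt su sn o₀ W.dH) hv0 hv3 M hA₂ hA₂B (by nlinarith [hB.le])
    S₀ S₁ θ hvs hS0 hS₁0 hθ (hTm A₂ hA₂ hA₂B (by linarith)) ((hCR (by omega)).trans hJ0)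
    (fun ω hω => by
      rw [hS₀]
      exact b3 ω hω) hfs hM hM'
  exact ⟨B', κL, κG, fun ω hω => hA₂B ω (d1 ω hω), by linarith, d3⟩

end Pool.CR99
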