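import Pool.Agent.H99.D2.Hev
import Pool.Agent.H76.PR.Prl

/-!
# The slope on the slice of a line: absolute form

`k1_osc`: if there are lines over the same charts with near frames and separated velocities of
`u = c r`, then the derivative of the chart of `N = c (r + 1)` in the direction `u` is constant on the
slice of the line, up to natural errors. `k1_ev`: the same on a large part of an event, if the velocity
of `u` is alive.
-/

set_option autoImplicit false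

namespace Pool.CR99

open Finset Real MvPolynomial
open Pool.Agent.H49.Ent Pool.Agent.H32.Dense Pool.STK Pool.KA Pool.KSAT Pool.K2S Pool.PB Pool.S6C
open Pool.GEN Pool.CHT Pool.CHX Pool.ISO Pool.D2R Pool.D2G30 Pool.V1E
open Pool.FLF (Fam.sub)
open Pool.PB.Trl (rt rt_mem t_rt)

/-- The derivative in the direction `y` of the restriction. -/
theorem pd_fb2' {m : ℕ} {ζ : Type} (a : ℕ) (s : ((Fin m → ℝ) × (Fin m → ℝ)) × ζ × ℕ) (k : Fin m)
    (U : ℝ) (Q : MvPolynomial (Option (Fin m)) ℝ) (τ y : ℝ) :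
    eval ![τ, y] (pderiv 1 (fb2 a s k U Q)) =
      U * eval (pt2 a s k τ (U * y)) (pderiv (some k) Q) := by
  classical
  unfold fb2
  rw [pd_bind, map_sum, Finset.sum_eq_single (some k)]
  · have h1 : pderiv (1 : Fin 2) (pl2 a s k U (some k)) = C U := by
      unfold pl2
      rw [if_pos rfl]
      simp [pderiv_X]
    rw [h1, map_mul, eval_C]
    have h2 : eval ![τ, y] (bind₁ (pl2 a s k U) (pderiv (some k) Q)) =
        eval (pt2 a s k τ (U * y)) (pderiv (some k) Q) := eval_fb2 a s k U _ τ y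
    rw [h2, mul_comm]
  · intro o _ ho
    have h1 : pderiv (1 : Fin 2) (pl2 a s k U o) = 0 := by
      unfold pl2
      rw [if_neg ho]
      simp [pderiv_X]
    rw [h1, mul_zero, map_zero]
  · intro h
    exact absurd (Finset.mem_univ _) h

/-- The number of monomials. -/
theorem card_supp {g : MvPolynomial (Fin 2) ℝ} {D : ℕ} (hg : g.totalDegree ≤ D) :
    g.support.card ≤ (D + 1) * (D + 1) := by
  classical
  have h1 : ∀ d ∈ g.support, d 0 < D + 1 ∧ d 1 < D + 1 := by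
    intro d hd
    have h2 := (le_totalDegree hd).trans hg
    have h3 : d 0 + d 1 ≤ D := by
      rw [← deg_two, Finsupp.degree_eq_sum]
      rw [Finsupp.sum_fintype _ _ (fun _ => rfl)] at h2
      exact h2
    omega
  calc g.support.card ≤ (range (D + 1) ×ˢ range (D + 1)).card := by
        refine Finset.card_le_card_of_injOn (fun d => (d 0, d 1)) (fun d hd => ?_) ?_
        · have := h1 d hd
          simp only [Finset.coe_product, Set.mem_prod, Finset.mem_coe, mem_range]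
          exact this
        · intro d _ d' _ h
          simp only [Prod.mk.injEq] at h
          ext i
          refine Fin.cases h.1 (fun j => ?_) i
          have : j = 0 := Subsingleton.elim _ _
          subst this
          exact h.2
    _ = (D + 1) * (D + 1) := by rw [Finset.card_product, card_range]

/-- **The derivative in the second variable is nearly constant.** -/
theorem osc_two (D : ℕ) : ∀ (f : MvPolynomial (Fin 2) ℝ) (b R : ℝ), f.totalDegree ≤ D →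
    1 ≤ R → 0 ≤ b → (∀ d : Fin 2 →₀ ℕ, 2 ≤ d.degree → |coeff d f| ≤ b) → ∀ τ y τ' : ℝ, |τ| ≤ 1 →
    |τ'| ≤ 1 → |y| ≤ R → |eval ![τ, y] (pderiv 1 f) - eval ![τ', 0] (pderiv 1 f)| ≤
      2 * ((D + 1) * (D + 1) * (D + 1)) * R ^ D * b := by
  classical
  intro f b R hf hR hb hcoef τ y τ' hτ hτ' hy
  obtain ⟨g, hg⟩ : ∃ g, g = pderiv (1 : Fin 2) f := ⟨_, rfl⟩
  have hgd : g.totalDegree ≤ D := by
    rw [hg]
    exact totalDegree_pdσ hf _
  have hgc : ∀ d : Fin 2 →₀ ℕ, 1 ≤ d.degree → |coeff d g| ≤ (D + 1) * b := by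
    intro d hd
    by_cases hs : d ∈ g.support
    · rw [hg, coeff_pderiv, abs_mul]
      have h1 : 2 ≤ (d + Finsupp.single 1 1).degree := by
        rw [deg_two] at hd ⊢
        simp
        omega
      have h2 := hcoef _ h1
      have h3 : d 0 + d 1 ≤ D := by
        have h4 := (le_totalDegree hs).trans hgd
        rw [← deg_two, Finsupp.degree_eq_sum]
        rw [Finsupp.sum_fintype _ _ (fun _ => rfl)] at h4
        exact h4
      have h5 : |((d 1 : ℕ) : ℝ) + 1| ≤ D + 1 := by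
        rw [abs_of_nonneg (by positivity)]
        have : ((d 1 : ℕ) : ℝ) ≤ D := by exact_mod_cast (by omega : d 1 ≤ D)
        linarith
      rw [mul_comm]
      exact mul_le_mul h5 h2 (abs_nonneg _) (by positivity)
    · rw [notMem_support_iff.mp hs, abs_zero]
      positivity
  have key : ∀ a z : ℝ, |a| ≤ 1 → |z| ≤ R → |eval ![a, z] g - coeff 0 g| ≤
      (D + 1) * (D + 1) * (D + 1) * R ^ D * b := by
    intro a z ha hz
    rw [eval_eq']
    have e1 : ∑ d ∈ g.support, coeff d g * ∏ i, ![a, z] i ^ d i =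
        ∑ d ∈ g.support, coeff d g * (a ^ d 0 * z ^ d 1) := by
      refine Finset.sum_congr rfl fun d _ => ?_
      rw [Fin.prod_univ_two]
      simp
    rw [e1]
    have e2 : ∑ d ∈ g.support, coeff d g * (a ^ d 0 * z ^ d 1) - coeff 0 g =
        ∑ d ∈ g.support.erase 0, coeff d g * (a ^ d 0 * z ^ d 1) := by
      by_cases h0 : (0 : Fin 2 →₀ ℕ) ∈ g.support
      · rw [← Finset.add_sum_erase _ _ h0]
        simp
      · rw [Finset.erase_eq_of_notMem h0, notMem_support_iff.mp h0, sub_zero]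
    rw [e2]
    refine (Finset.abs_sum_le_sum_abs _ _).trans ?_
    have h1 : ∀ d ∈ g.support.erase 0, |coeff d g * (a ^ d 0 * z ^ d 1)| ≤
        (D + 1) * b * R ^ D := by
      intro d hd
      rw [Finset.mem_erase] at hd
      have h2 : 1 ≤ d.degree := by
        rw [Nat.one_le_iff_ne_zero]
        intro h
        exact hd.1 (by rwa [Finsupp.degree_eq_zero_iff] at h)
      have h3 : d 0 + d 1 ≤ D := by
        have h4 := (le_totalDegree hd.2).trans hgd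
        rw [← deg_two, Finsupp.degree_eq_sum]
        rw [Finsupp.sum_fintype _ _ (fun _ => rfl)] at h4
        exact h4
      rw [abs_mul, abs_mul, abs_pow, abs_pow]
      have h5 : |a| ^ d 0 ≤ 1 := pow_le_one₀ (abs_nonneg _) ha
      have h6 : |z| ^ d 1 ≤ R ^ D := (pow_le_pow_left₀ (abs_nonneg _) hz _).trans
        (pow_le_pow_right₀ hR (by omega))
      have h7 : |a| ^ d 0 * |z| ^ d 1 ≤ 1 * R ^ D :=
        mul_le_mul h5 h6 (pow_nonneg (abs_nonneg _) _) zero_le_one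
      rw [one_mul] at h7
      exact mul_le_mul (hgc d h2) h7 (by positivity) (by positivity)
    refine (Finset.sum_le_sum h1).trans ?_
    rw [Finset.sum_const, nsmul_eq_mul]
    have h8 : ((g.support.erase 0).card : ℝ) ≤ ((D + 1) * (D + 1) : ℝ) := by
      have h9 := (Finset.card_le_card (Finset.erase_subset (0 : Fin 2 →₀ ℕ) g.support)).trans
        (card_supp hgd)
      exact_mod_cast h9
    have h10 : (0 : ℝ) ≤ (D + 1) * b * R ^ D := by positivity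
    calc ((g.support.erase 0).card : ℝ) * ((D + 1) * b * R ^ D) ≤
        ((D + 1) * (D + 1)) * ((D + 1) * b * R ^ D) := mul_le_mul_of_nonneg_right h8 h10
      _ = _ := by ring
  have h1 := key τ y hτ hy
  have h2 := key τ' 0 hτ' (by rw [abs_zero]; linarith)
  rw [← hg]
  rw [abs_le] at h1 h2 ⊢
  constructor <;> linarith [h1.1, h1.2, h2.1, h2.2]

/-- The point of the plane. -/
theorem pt2_upd {m J : ℕ} {F : Fam m J} (a : ℕ) (ω : F.Ω) (k : Fin m) (τ z : ℝ) :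
    pt2 a (slam F a ω) k τ z = Function.update (ptw F a ω τ) (some k)
      (ptw F a ω τ (some k) + z) := by
  funext o
  by_cases h : o = some k
  · subst h
    rw [Function.update_self]
    unfold pt2
    rw [if_pos rfl]
    rfl
  · rw [Function.update_of_ne h]
    unfold pt2
    rw [if_neg h, add_zero]
    rfl

/-- **The slope is constant on the slice**, at one line. -/
theorem k1_pt (D r : ℕ) : ∃ C : ℕ, 1 ≤ C ∧ ∀ {m J : ℕ} {F : Fam m J} {c : ℕ → Fin m}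
    {P : ℕ → MvPolynomial (Option (Fin m)) ℝ} {g : ℕ → ℕ} {w e n hi : ℕ} {ω : F.Ω}
    {ν : ℕ → F.Ω} {β : ℝ}, Set.InjOn c (Set.Iio (r + 2)) → w ≤ J →
    (∀ l, (P l).totalDegree ≤ D) → (∀ l, DepC c l (P l)) →
    (∀ i < r + 2, ∀ b, NBx c P g w (F.t ω) i b → ∀ l < i,
      |eval b (pderiv (some (c l)) (P i))| ≤ 2 ^ (e + nlp g l i)) →
    (∀ l < r + 2, ∀ τ ∈ Set.Icc (0 : ℝ) 1,
      |ptw F w ω τ (some (c l)) - eval (ptw F w ω τ) (P l)| ≤ 2 ^ n / 2 ^ g l) →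
    (∀ j ≤ D, ∀ l < r + 2, ∀ τ ∈ Set.Icc (0 : ℝ) 1,
      |ptw F w (ν j) τ (some (c l)) - eval (ptw F w (ν j) τ) (P l)| ≤ 2 ^ n / 2 ^ g l) →
    (∀ j ≤ D, (slam F w (ν j)).2.2 = (slam F w ω).2.2) →
    (∀ j ≤ D, ∀ l < r, ∀ τ ∈ Set.Icc (0 : ℝ) 1,
      |ptw F w (ν j) τ (some (c l)) - ptw F w ω τ (some (c l))| ≤ 1 / 2 ^ hi) →
    (∀ i < r + 2, e + g i + C * (n + 1) ≤ hi) → 0 < β → β ≤ 1 →
    (∀ i ≤ D, ∀ j ≤ D, i ≠ j →
      β ≤ |2 ^ g r / 2 ^ w * F.d (ν i) (c r) - 2 ^ g r / 2 ^ w * F.d (ν j) (c r)|) →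
    ∀ τ ∈ Set.Icc (0 : ℝ) 1, ∀ τ' ∈ Set.Icc (0 : ℝ) 1, ∀ y : ℝ, |y| ≤ 2 ^ (n + 2) / 2 ^ g r →
      |eval (Function.update (ptw F w ω τ) (some (c r)) (ptw F w ω τ (some (c r)) + y))
        (pderiv (some (c r)) (P (r + 1))) -
        eval (ptw F w ω τ') (pderiv (some (c r)) (P (r + 1)))| ≤
        (1 / β) ^ (2 * D * D) * (2 ^ (C * (n + 1)) * (2 ^ g r / 2 ^ g (r + 1))) := by
  classical
  obtain ⟨C₁, hC₁, hcell⟩ := Pool.PRQ76.dil_cell (r + 2) D
  obtain ⟨Cg, hCg, hgeo⟩ := geo D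
  obtain ⟨C₀, hC₀⟩ := pow_unbounded_of_one_lt (2 * ((D + 1) * (D + 1) * (D + 1)) * Cg : ℝ)
    (one_lt_two (α := ℝ))
  refine ⟨C₁ + C₀ + 2 * D + 6 * D * D + 1, by omega, ?_⟩
  intro m J F c P g w e n hi ω ν β hc hw hdeg hdep hlip hown hownν htn hnear hhi hβ hβ1 hsep τ hτ
    τ' hτ' y hy
  have hhi' : ∀ i < r + 2, e + g i + 0 + C₁ * (n + 1) ≤ hi := by
    intro i hi'
    have h1 := hhi i hi'
    have h2 : C₁ * (n + 1) ≤ (C₁ + C₀ + 2 * D + 6 * D * D + 1) * (n + 1) :=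
      Nat.mul_le_mul_right _ (by omega)
    omega
  have hg : (0 : ℝ) < 2 ^ g r := by positivity
  have h2w : (0 : ℝ) < 2 ^ w := by positivity
  have hn1 : (1 : ℝ) ≤ 2 ^ n := one_le_pow₀ (by norm_num)
  have hne : ∀ l < r, c l ≠ c r := fun l hl h => by
    have := hc (Set.mem_Iio.2 (show l < r + 2 by omega))
      (Set.mem_Iio.2 (show r < r + 2 by omega)) h
    omega
  have hnone : ∀ j ≤ D, ∀ τ : ℝ, ptw F w (ν j) τ none = ptw F w ω τ none := by
    intro j hj τ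
    unfold ptw
    simp only [lc, Polynomial.eval_add, Polynomial.eval_mul, Polynomial.eval_C, Polynomial.eval_X]
    rw [htn j hj]
  have hsome : ∀ o : F.Ω, ∀ (τ : ℝ) (k : Fin m), ptw F w o τ (some k) =
      F.x o k + (τ - rt F w o) / 2 ^ w * F.d o k :=
    fun o τ k => Pool.PRQ76.lc_at F hw o k τ
  have htime : ∀ τ ∈ Set.Icc (0 : ℝ) 1, |ptw F w ω τ none - F.t ω| ≤ 1 / 2 ^ w :=
    fun τ hτ => ptw_tm hw ω hτ
  -- the difference in the direction `u`
  have hdu : ∀ j ≤ D, ∀ τ ∈ Set.Icc (0 : ℝ) 1,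
      |ptw F w (ν j) τ (some (c r)) - ptw F w ω τ (some (c r))| ≤ 2 ^ (n + 2) / 2 ^ g r := by
    intro j hj τ hτ
    have h0 := (hcell (P := P) (g := g) (a := w) (e := e) (n := n) (hi := hi) (t := F.t ω)
      (x := ptw F w ω τ) hc hdeg hdep (htime τ hτ) (fun l hl => hown l hl τ hτ) hlip hhi' r
      (by omega) (ptw F w (ν j) τ) (hnone j hj τ) (fun l hl => hnear j hj l hl τ hτ)).2 (by omega)
    rw [add_zero] at h0
    have h1 := hown r (by omega) τ hτ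
    have h2 := hownν j hj r (by omega) τ hτ
    have e1 : (2 : ℝ) ^ (n + 2) / 2 ^ g r = 4 * (2 ^ n / 2 ^ g r) := by rw [pow_add]; ring
    have h9 : (0 : ℝ) ≤ 2 ^ n / 2 ^ g r := by positivity
    have hn4 : (1 : ℝ) / 4 / 2 ^ g r ≤ 2 ^ n / 2 ^ g r := by
      rw [div_div, div_le_div_iff₀ (by positivity) (by positivity)]
      nlinarith
    rw [e1]
    rw [abs_le] at h0 h1 h2 ⊢
    constructor <;> linarith [h0.1, h0.2, h1.1, h1.2, h2.1, h2.2]
  obtain ⟨α, hα⟩ : ∃ α : ℕ → ℝ, α = fun j => 2 ^ g r *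
      ((F.x (ν j) (c r) - rt F w (ν j) / 2 ^ w * F.d (ν j) (c r)) -
        (F.x ω (c r) - rt F w ω / 2 ^ w * F.d ω (c r))) := ⟨_, rfl⟩
  obtain ⟨κ, hκ⟩ : ∃ κ : ℕ → ℝ, κ = fun j => 2 ^ g r / 2 ^ w * F.d (ν j) (c r) -
      2 ^ g r / 2 ^ w * F.d ω (c r) := ⟨_, rfl⟩
  have hln : ∀ j, ∀ τ : ℝ, α j + κ j * τ = 2 ^ g r *
      (ptw F w (ν j) τ (some (c r)) - ptw F w ω τ (some (c r))) := by
    intro j τ
    rw [hα, hκ, hsome, hsome]
    field_simp
    ring
  have hlb : ∀ j ≤ D, ∀ τ ∈ Set.Icc (0 : ℝ) 1, |α j + κ j * τ| ≤ 2 ^ (n + 2) := by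
    intro j hj τ hτ
    rw [hln, abs_mul, abs_of_pos hg]
    calc 2 ^ g r * _ ≤ 2 ^ g r * (2 ^ (n + 2) / 2 ^ g r) :=
          mul_le_mul_of_nonneg_left (hdu j hj τ hτ) hg.le
      _ = 2 ^ (n + 2) := by field_simp
  have hpw : (2 : ℝ) ^ (n + 3) = 2 * 2 ^ (n + 2) := by rw [pow_succ]; ring
  have hp0 : (0 : ℝ) < 2 ^ (n + 2) := by positivity
  obtain ⟨K, hK⟩ : ∃ K : ℝ, K = 2 ^ (n + 3) := ⟨_, rfl⟩
  have hK1 : 1 ≤ K := by
    rw [hK]
    exact one_le_pow₀ (by norm_num)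
  have hαK : ∀ j ≤ D, |α j| ≤ K := by
    intro j hj
    have h1 := hlb j hj 0 ⟨le_rfl, zero_le_one⟩
    rw [mul_zero, add_zero] at h1
    rw [hK, hpw]
    linarith
  have hκK : ∀ j ≤ D, |κ j| ≤ K := by
    intro j hj
    have h0 := hlb j hj 0 ⟨le_rfl, zero_le_one⟩
    have h1 := hlb j hj 1 ⟨zero_le_one, le_rfl⟩
    rw [mul_zero, add_zero] at h0
    rw [mul_one] at h1
    have e1 : κ j = (α j + κ j) - α j := by ring
    rw [e1, hK, hpw]
    refine (abs_sub _ _).trans ?_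
    linarith
  obtain ⟨E, hE⟩ : ∃ E : ℝ, E = 2 ^ (n + 1) / 2 ^ g (r + 1) := ⟨_, rfl⟩
  have hE0 : 0 ≤ E := by rw [hE]; positivity
  obtain ⟨f, hf⟩ : ∃ f, f = fb2 w (slam F w ω) (c r) (1 / 2 ^ g r) (P (r + 1)) := ⟨_, rfl⟩
  have hfd : f.totalDegree ≤ D := by
    rw [hf]
    exact (deg_fb2 _ _ _ _ _).trans (hdeg _)
  have hcf := hgeo f hfd K β E α κ hK1 hβ hβ1 hE0 hαK hκK (fun i hi j hj hij => by
    have h1 := hsep i hi j hj hij
    have e1 : κ i - κ j = 2 ^ g r / 2 ^ w * F.d (ν i) (c r) -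
        2 ^ g r / 2 ^ w * F.d (ν j) (c r) := by
      rw [hκ]
      ring
    rw [e1]
    exact h1) (by
    intro j hj
    refine ⟨F.x (ν j) (c (r + 1)) - rt F w (ν j) / 2 ^ w * F.d (ν j) (c (r + 1)),
      1 / 2 ^ w * F.d (ν j) (c (r + 1)), fun τ hτ => ?_⟩
    have e0 : 1 / 2 ^ g r * (α j + κ j * τ) =
        ptw F w (ν j) τ (some (c r)) - ptw F w ω τ (some (c r)) := by
      rw [hln]
      field_simp
    rw [hf, eval_fb2, e0, pt2_upd]
    have e1 : ptw F w ω τ (some (c r)) + (ptw F w (ν j) τ (some (c r)) -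
        ptw F w ω τ (some (c r))) = ptw F w (ν j) τ (some (c r)) := by ring
    rw [e1]
    obtain ⟨z, hz⟩ : ∃ z, z = Function.update (ptw F w ω τ) (some (c r))
      (ptw F w (ν j) τ (some (c r))) := ⟨_, rfl⟩
    rw [← hz]
    have hzn : z none = ptw F w (ν j) τ none := by
      rw [hz, Function.update_of_ne (by simp), hnone j hj]
    have hzl : ∀ l < r + 1, |z (some (c l)) - ptw F w (ν j) τ (some (c l))| ≤ 1 / 2 ^ hi := by
      intro l hl
      rcases Nat.lt_or_ge l r with h | h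
      · rw [hz, Function.update_of_ne (fun h' => hne l h (Option.some_injective _ h')),
          abs_sub_comm]
        exact hnear j hj l h τ hτ
      · have : l = r := by omega
        subst this
        rw [hz, Function.update_self, sub_self, abs_zero]
        positivity
    have h0 := (hcell (P := P) (g := g) (a := w) (e := e) (n := n) (hi := hi) (t := F.t ω)
      (x := ptw F w (ν j) τ) hc hdeg hdep (by rw [hnone j hj]; exact htime τ hτ)
      (fun l hl => hownν j hj l hl τ hτ) hlip hhi' (r + 1)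
      (by omega) z hzn hzl).2 (by omega)
    rw [add_zero] at h0
    have h1 := hownν j hj (r + 1) (by omega) τ hτ
    have e2 : ptw F w (ν j) τ (some (c (r + 1))) =
        F.x (ν j) (c (r + 1)) - rt F w (ν j) / 2 ^ w * F.d (ν j) (c (r + 1)) +
          1 / 2 ^ w * F.d (ν j) (c (r + 1)) * τ := by
      rw [hsome]
      ring
    rw [e2] at h1
    obtain ⟨U, hU⟩ : ∃ U : ℝ, U = 1 / 2 ^ g (r + 1) := ⟨_, rfl⟩
    have hU0 : 0 < U := by rw [hU]; positivity
    have e4 : (2 : ℝ) ^ n / 2 ^ g (r + 1) = 2 ^ n * U := by rw [hU]; ring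
    have e5 : (1 : ℝ) / 4 / 2 ^ g (r + 1) = 1 / 4 * U := by rw [hU]; ring
    have e6 : (2 : ℝ) ^ (n + 1) / 2 ^ g (r + 1) = 2 * 2 ^ n * U := by
      rw [hU, pow_succ]
      ring
    rw [e4] at h1
    rw [e5] at h0
    rw [hE, e6]
    have h3 : U ≤ 2 ^ n * U := le_mul_of_one_le_left hU0.le hn1
    rw [abs_le] at h0 h1 ⊢
    constructor <;> linarith [h0.1, h0.2, h1.1, h1.2])
  obtain ⟨b, hb⟩ : ∃ b : ℝ, b = Cg * (K / β) ^ (2 * D * D) * E := ⟨_, rfl⟩
  have hb0 : 0 ≤ b := by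
    rw [hb]
    positivity
  rw [← hb] at hcf
  have h1 := osc_two D f b (2 ^ (n + 2)) hfd (one_le_pow₀ (by norm_num)) hb0 (fun d hd => hcf d hd)
    τ (2 ^ g r * y) τ' (by rw [abs_of_nonneg hτ.1]; exact hτ.2)
    (by rw [abs_of_nonneg hτ'.1]; exact hτ'.2) (by
      rw [abs_mul, abs_of_pos hg]
      calc 2 ^ g r * |y| ≤ 2 ^ g r * (2 ^ (n + 2) / 2 ^ g r) :=
            mul_le_mul_of_nonneg_left hy hg.le
        _ = 2 ^ (n + 2) := by field_simp)
  rw [hf, pd_fb2', pd_fb2', mul_zero] at h1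
  have e1 : 1 / 2 ^ g r * (2 ^ g r * y) = y := by field_simp
  have e2 : pt2 w (slam F w ω) (c r) τ' 0 = ptw F w ω τ' := by
    rw [pt2_upd, add_zero, Function.update_eq_self]
  rw [e1, e2, pt2_upd, ← mul_sub, abs_mul, abs_of_pos (show (0 : ℝ) < 1 / 2 ^ g r by
    positivity)] at h1
  obtain ⟨Y, hY⟩ : ∃ Y : ℝ, Y = |eval (Function.update (ptw F w ω τ) (some (c r))
      (ptw F w ω τ (some (c r)) + y)) (pderiv (some (c r)) (P (r + 1))) -
        eval (ptw F w ω τ') (pderiv (some (c r)) (P (r + 1)))| := ⟨_, rfl⟩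
  rw [← hY] at h1 ⊢
  have h2 : Y = 2 ^ g r * (1 / 2 ^ g r * Y) := by field_simp
  rw [h2]
  refine (mul_le_mul_of_nonneg_left h1 hg.le).trans ?_
  have e3 : (K / β) ^ (2 * D * D) = (1 / β) ^ (2 * D * D) * 2 ^ ((n + 3) * (2 * D * D)) := by
    rw [div_eq_mul_one_div, mul_pow, hK, ← pow_mul, mul_comm]
  have e4 : ((2 : ℝ) ^ (n + 2)) ^ D = 2 ^ ((n + 2) * D) := by rw [← pow_mul]
  rw [hb, e3, e4, hE]
  have e5 : (2 : ℝ) ^ g r * (2 * ((D + 1) * (D + 1) * (D + 1)) * 2 ^ ((n + 2) * D) *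
      (Cg * ((1 / β) ^ (2 * D * D) * 2 ^ ((n + 3) * (2 * D * D))) *
        (2 ^ (n + 1) / 2 ^ g (r + 1)))) =
      (1 / β) ^ (2 * D * D) * ((2 * ((D + 1) * (D + 1) * (D + 1)) * Cg) *
        2 ^ ((n + 2) * D + (n + 3) * (2 * D * D) + (n + 1)) * (2 ^ g r / 2 ^ g (r + 1))) := by
    rw [pow_add, pow_add]
    ring
  rw [e5]
  refine mul_le_mul_of_nonneg_left (mul_le_mul_of_nonneg_right ?_ (by positivity)) (by positivity)
  calc (2 * ((D + 1) * (D + 1) * (D + 1)) * Cg : ℝ) *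
      2 ^ ((n + 2) * D + (n + 3) * (2 * D * D) + (n + 1)) ≤
      2 ^ C₀ * 2 ^ ((n + 2) * D + (n + 3) * (2 * D * D) + (n + 1)) :=
        mul_le_mul_of_nonneg_right hC₀.le (by positivity)
    _ = 2 ^ (C₀ + ((n + 2) * D + (n + 3) * (2 * D * D) + (n + 1))) := (pow_add _ _ _).symm
    _ ≤ _ := pow_le_pow_right₀ (by norm_num) (by
        have k1 : (n + 2) * D ≤ 2 * D * (n + 1) := by nlinarith
        have k2 : (n + 3) * (2 * D * D) ≤ 6 * D * D * (n + 1) := by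
          have : n + 3 ≤ 3 * (n + 1) := by omega
          calc (n + 3) * (2 * D * D) ≤ 3 * (n + 1) * (2 * D * D) := Nat.mul_le_mul_right _ this
            _ = _ := by ring
        have k3 : C₀ ≤ C₀ * (n + 1) := Nat.le_mul_of_pos_right _ (by omega)
        calc C₀ + ((n + 2) * D + (n + 3) * (2 * D * D) + (n + 1)) ≤
            C₀ * (n + 1) + (2 * D * (n + 1) + 6 * D * D * (n + 1) + (n + 1)) := by omega
          _ = (C₀ + 2 * D + 6 * D * D + 1) * (n + 1) := by ring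
          _ ≤ _ := Nat.mul_le_mul_right _ (by omega))

/-- **The code** `Z` of the absolute form: the time index, the charts, the frame to `hi` digits. -/
structure KOk {m J : ℕ} (F : Fam m J) (c : ℕ → Fin m) (r w hi : ℕ) (A : F.Ω → Prop)
    (H : LnT F → ℕ → MvPolynomial (Option (Fin m)) ℝ) {ζ : Type} (Z : F.Ω → ζ) : Prop where
  tm : ∀ ω ν, A ω → A ν → Z ω = Z ν → (slam F w ν).2.2 = (slam F w ω).2.2
  ch : ∀ ω ν, A ω → A ν → Z ω = Z ν → ∀ l < r + 2, H (slam F w ν) l = H (slam F w ω) l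
  fr : ∀ ω ν, A ω → A ν → Z ω = Z ν → ∀ l < r, ∀ τ ∈ Set.Icc (0 : ℝ) 1,
    |ptw F w ν τ (some (c l)) - ptw F w ω τ (some (c l))| ≤ 1 / 2 ^ hi

/-- The code from the exact time and the digits of the frame. -/
theorem kok_of {m J : ℕ} {F : Fam m J} {c : ℕ → Fin m} {r w hi : ℕ} (hw : w ≤ J)
    {A : F.Ω → Prop} {H : LnT F → ℕ → MvPolynomial (Option (Fin m)) ℝ} {ζ : Type} {Z : F.Ω → ζ}
    (h1 : ∀ ω ν, A ω → A ν → Z ω = Z ν → F.T ν = F.T ω)
    (h2 : ∀ ω ν, A ω → A ν → Z ω = Z ν → ∀ l < r + 2, H (slam F w ν) l = H (slam F w ω) l)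
    (h3 : ∀ ω ν, A ω → A ν → Z ω = Z ν → ∀ l < r, |F.x ν (c l) - F.x ω (c l)| ≤ 1 / 2 ^ (hi + 1) ∧
      |F.d ν (c l) - F.d ω (c l)| ≤ 1 / 2 ^ (hi + 1)) : KOk F c r w hi A H Z where
  tm := fun ω ν hω hν e => by
    show F.T ν / 2 ^ (J - w) = F.T ω / 2 ^ (J - w)
    rw [h1 ω ν hω hν e]
  ch := h2
  fr := fun ω ν hω hν e l hl τ hτ => by
    have h2w : (0 : ℝ) < 2 ^ w := by positivity
    have hsome : ∀ (o : F.Ω) (k : Fin m), ptw F w o τ (some k) =
        F.x o k + (τ - rt F w o) / 2 ^ w * F.d o k := fun o k => Pool.PRQ76.lc_at F hw o k τ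
    have hrt : rt F w ν = rt F w ω := by
      unfold rt
      rw [h1 ω ν hω hν e]
    obtain ⟨k1, k2⟩ := h3 ω ν hω hν e l hl
    rw [hsome, hsome, hrt]
    have e1 : (F.x ν (c l) + (τ - rt F w ω) / 2 ^ w * F.d ν (c l)) -
        (F.x ω (c l) + (τ - rt F w ω) / 2 ^ w * F.d ω (c l)) =
        (F.x ν (c l) - F.x ω (c l)) +
          (τ - rt F w ω) / 2 ^ w * (F.d ν (c l) - F.d ω (c l)) := by ring
    have e2 : (1 : ℝ) / 2 ^ hi = 1 / 2 ^ (hi + 1) + 1 / 2 ^ (hi + 1) := by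
      rw [pow_succ]
      field_simp
      norm_num
    have h3 : |(τ - rt F w ω) / 2 ^ w| ≤ 1 := by
      rw [abs_div, abs_of_pos h2w, div_le_one h2w]
      have h4 : |τ - rt F w ω| ≤ 1 := by
        rw [abs_le]
        have := rt_mem F w ω
        constructor <;> linarith [this.1, this.2, hτ.1, hτ.2]
      exact h4.trans (one_le_pow₀ (by norm_num))
    rw [e1, e2]
    refine (abs_add_le _ _).trans (add_le_add k1 ?_)
    rw [abs_mul]
    calc _ ≤ 1 * (1 / 2 ^ (hi + 1)) := mul_le_mul h3 k2 (abs_nonneg _) zero_le_one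
      _ = _ := one_mul _

/-- **The slope is constant on the slice**, on a large part of an event, if the velocity of `u = c r` is
alive given the code `Z`. -/
theorem k1_ev (D r : ℕ) : ∃ C : ℕ, 1 ≤ C ∧ ∀ {m J : ℕ} {F : Fam m J} {c : ℕ → Fin m}
    {w e n hi : ℕ} {g : ℕ → ℕ} {β c₀ : ℝ} {A : F.Ω → Prop}
    {G : PtT F → ℕ → MvPolynomial (Option (Fin m)) ℝ}
    {H : LnT F → ℕ → MvPolynomial (Option (Fin m)) ℝ} {ζ : Type} {Z : F.Ω → ζ},
    Set.InjOn c (Set.Iio (r + 2)) → w ≤ J → ChOK F c (r + 2) (fun _ => D) w w e g A G H →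
    Clsd F (r + 2) w A G H →
    (∀ ω, A ω → ∀ l < r + 2, ∀ τ ∈ Set.Icc (0 : ℝ) 1,
      |(dv w (fun s _ => H s l) (c l) (slam F w ω)).eval τ| ≤ 2 ^ n / 2 ^ g l) →
    KOk F c r w hi A H Z → (∀ i < r + 2, e + g i + C * (n + 1) ≤ hi) →
    0 < β → β ≤ 1 → 0 < c₀ → 0 < Pe F.p A →
    (∀ E : F.Ω → Prop, Sub E A → c₀ * Pe F.p A ≤ Pe F.p E → Real.log (2 * D + 1) <
      CH (Pool.Agent.H49.Ent.cond F.p E True)
        (fun ω => ⌊2 ^ g r / 2 ^ w * F.d ω (c r) / β⌋) Z) →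
    ∃ B : F.Ω → Prop, Sub B A ∧ (1 - c₀) * Pe F.p A ≤ Pe F.p B ∧ ∀ ω, B ω →
      ∀ τ ∈ Set.Icc (0 : ℝ) 1, ∀ τ' ∈ Set.Icc (0 : ℝ) 1, ∀ y : ℝ, |y| ≤ 2 ^ (n + 2) / 2 ^ g r →
        |eval (Function.update (ptw F w ω τ) (some (c r)) (ptw F w ω τ (some (c r)) + y))
          (pderiv (some (c r)) (G (ptr F J ω) (r + 1))) -
          eval (ptw F w ω τ') (pderiv (some (c r)) (G (ptr F J ω) (r + 1)))| ≤
          (1 / β) ^ (2 * D * D) * (2 ^ (C * (n + 1)) * (2 ^ g r / 2 ^ g (r + 1))) := by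
  classical
  obtain ⟨C, hC, hk1⟩ := k1_pt D r
  refine ⟨C, hC, ?_⟩
  intro m J F c w e n hi g β c₀ A G H ζ Z hc hw hch hcl hown hZ hhi hβ hβ1 hc₀ hA hal
  obtain ⟨B, hBA, hPB, hB⟩ := fib_ev F.isLaw Z (fun ω => 2 ^ g r / 2 ^ w * F.d ω (c r)) hβ D hc₀
    hA hal
  refine ⟨B, hBA, hPB, fun ω hω => ?_⟩
  obtain ⟨ν, hν, hsep⟩ := hB ω hω
  have hAω := hBA ω hω
  have hGν : ∀ j ≤ D, ∀ l < r + 2, G (ptr F J (ν j)) l = G (ptr F J ω) l := by
    intro j hj l hl
    rw [hcl (ν j) (hν j hj).1 l hl, hcl ω hAω l hl]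
    exact hZ.ch ω (ν j) hAω (hν j hj).1 (hν j hj).2.symm l hl
  have hown' : ∀ o, A o → ∀ l < r + 2, ∀ τ ∈ Set.Icc (0 : ℝ) 1,
      |ptw F w o τ (some (c l)) - eval (ptw F w o τ) (G (ptr F J o) l)| ≤ 2 ^ n / 2 ^ g l := by
    intro o ho l hl τ hτ
    have h1 := hown o ho l hl τ hτ
    rw [dv_ptw o (fun s => H s l), ← hcl o ho l hl] at h1
    exact h1
  exact hk1 (P := G (ptr F J ω)) hc hw (hch.degG _) (hch.depG _)
    (fun i hi b hb l hl => hch.lip ω hAω i hi b hb l hl) (hown' ω hAω)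
    (fun j hj l hl τ hτ => by
      rw [← hGν j hj l hl]
      exact hown' (ν j) (hν j hj).1 l hl τ hτ)
    (fun j hj => hZ.tm ω (ν j) hAω (hν j hj).1 (hν j hj).2.symm)
    (fun j hj => hZ.fr ω (ν j) hAω (hν j hj).1 (hν j hj).2.symm) hhi hβ hβ1 hsep

/-- **The velocity of the slope** from the slice. -/
theorem k1_vel (D : ℕ) : ∃ C : ℝ, 1 ≤ C ∧ ∀ {m J : ℕ} {F : Fam m J} {w : ℕ} {ω : F.Ω}
    {Q : MvPolynomial (Option (Fin m)) ℝ} {S : ℝ}, Q.totalDegree ≤ D →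
    (∀ τ ∈ Set.Icc (0 : ℝ) 1, ∀ τ' ∈ Set.Icc (0 : ℝ) 1,
      |eval (ptw F w ω τ) Q - eval (ptw F w ω τ') Q| ≤ S) →
    ∀ τ ∈ Set.Icc (0 : ℝ) 1,
      |(Polynomial.derivative (MvPolynomial.aeval (lc w (slam F w ω)) Q)).eval τ| ≤ C * S := by
  classical
  obtain ⟨C, hC, hder⟩ := Pool.D2R.der_one D
  refine ⟨C, hC, ?_⟩
  intro m J F w ω Q S hQ h τ hτ
  have hd : (MvPolynomial.aeval (lc w (slam F w ω)) Q - Polynomial.C
      (eval (ptw F w ω 0) Q)).natDegree ≤ D := by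
    refine (Polynomial.natDegree_sub_le _ _).trans (max_le ?_ ?_)
    · have h3 := natDegree_aeval_mul Q (lc w (slam F w ω)) (E := 1)
        (fun o => natDegree_lc w (slam F w ω) o) (D := D) hQ
      rwa [mul_one] at h3
    · rw [Polynomial.natDegree_C]
      exact Nat.zero_le _
  have h1 := hder _ S hd (fun t ht => by
    rw [Polynomial.eval_sub, Polynomial.eval_C, aeval_lc]
    exact h t ht 0 ⟨le_rfl, zero_le_one⟩) τ (by
      rw [abs_of_nonneg hτ.1]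
      exact hτ.2)
  rwa [Polynomial.derivative_sub, Polynomial.derivative_C, sub_zero] at h1

end Pool.CR99
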