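import Pool.Agent.H99.D2.Ref

/-!
# The supply of the closed slope over a thin place

`BlX.sel`: a part of the windows. `blSup_uni`: the supply `BlSup` with `R₁ = 0` over a place `r` thin or of
slope one, for a last slope `b < a + 1`. `cbF_thin_lt`: `CbF` for the thin kind and `a < b < a + 1`.
-/

set_option autoImplicit false

namespace Pool.CR99

open Finset Real MvPolynomial
open Pool.Agent.H49.Ent Pool.Agent.H32.Dense Pool.STK Pool.KA Pool.KSAT Pool.K2S Pool.PB Pool.GEN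
open Pool.S6C Pool.RCD Pool.LA91 Pool.OWN68 Pool.AJW Pool.AJX Pool.CHT Pool.PKG Pool.ALT Pool.PN18
open Pool.D2R Pool.D2G30 Pool.V1E

/-- A part of the windows, weaker numbers. -/
theorem BlX.sel {m : ℕ} {S : PCl m} {c : ℕ → Fin m} {r K K' K₁ K₁' : ℕ} {w P P' : ℝ} {n n' : ℕ}
    {v v' p₁ p₁' x₀ x₀' : ℕ → ℝ} {κ κ' : ℝ} (h : BlX S c r K K₁ w P n v p₁ x₀ κ) (hK : K ≤ K')
    (hK₁ : K₁ ≤ K₁') (hP : P' ≤ P) (f : ℕ → ℕ) (hn : ∀ k < n', f k < n)
    (hv : ∀ k < n', v' k = v (f k)) (hp : ∀ k < n', p₁' k ≤ p₁ (f k))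
    (hx : ∀ k < n', x₀ (f k) ≤ x₀' k) (hκ : κ ≤ κ') :
    BlX S c r K' K₁' w P' n' v' p₁' x₀' κ' := by
  refine Bas.mono 0 h ?_
  rintro J - F A ⟨B, b1, b2, V, z, z', G, Q, l1, l2, l3⟩
  have hJ0 : (0 : ℝ) ≤ J := Nat.cast_nonneg J
  refine ⟨B, b1, b2.trans (mul_le_mul_of_nonneg_right hκ (Pe_nonneg F.isLaw B)), V, z, z', G, Q,
    l1.mono (Finset.Subset.refl _) hK le_rfl, (mul_le_mul_of_nonneg_right hP hJ0).trans l2,
    fun k hk => ?_⟩
  obtain ⟨V₁, z₁, z₁', G₁, P₁, h1, h2, h3⟩ := l3 (f k) (hn k hk)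
  rw [hv k hk]
  refine ⟨V₁, z₁, z₁', G₁, P₁, h1.mono (Finset.Subset.refl _) hK₁ le_rfl,
    (mul_le_mul_of_nonneg_right (hp k hk) hJ0).trans h2, fun ω hω => (h3 ω hω).trans ?_⟩
  exact Real.rpow_le_rpow_of_exponent_le (by norm_num) (mul_le_mul_of_nonneg_right (hx k hk) hJ0)

/-- **The supply of the closed slope** over a place thin or of slope one, for a last slope `b < a + 1`. -/
theorem blSup_uni {m r : ℕ} (hr : r + 1 < m) {h : ℝ} {Sl : ℕ → ℝ} {κ : ℕ → Kg}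
    (hκu : κ r = .one ∨ κ r = .thin) (hκN : κ (r + 1) = .stp ∨ κ (r + 1) = .sta)
    (ha : 1 ≤ Sl r) (hab : Sl r ≤ Sl (r + 1)) (hb : Sl (r + 1) < Sl r + 1) {Λ : Type} (lam₀ : Λ)
    (Z : PropZ m Λ) : BlSup m r h Sl κ (CuQ : PropG m Unit) Z 0 := by
  intro al hal K₀ hK₀ del hdel S₀ hS₀ R₀ hR₀
  obtain ⟨a, haE⟩ : ∃ a, Sl r = a := ⟨_, rfl⟩
  obtain ⟨b, hbE⟩ : ∃ b, Sl (r + 1) = b := ⟨_, rfl⟩
  rw [haE] at ha hab hb
  rw [hbE] at hab hb
  obtain ⟨γ, hγ⟩ : ∃ γ, γ = 1 - (b - a) := ⟨_, rfl⟩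
  have hγ0 : 0 < γ := by linarith only [hγ, hb]
  have hγ1 : γ ≤ 1 := by linarith only [hγ, hab]
  obtain ⟨E, hE⟩ : ∃ E, E = (R₀ + 1) / γ := ⟨_, rfl⟩
  have hEγ : γ * E = R₀ + 1 := by rw [hE]; field_simp
  have hE0 : 0 < E := by rw [hE]; positivity
  have hER : R₀ + 1 ≤ E := by
    have := mul_le_mul_of_nonneg_right hγ1 hE0.le
    linarith only [this, hEγ]
  obtain ⟨a', ha'⟩ : ∃ a', a' = max 1 ((b - 1) * E) := ⟨_, rfl⟩
  have ha1 : 1 ≤ a' := by rw [ha']; exact le_max_left _ _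
  have ha2 : (b - 1) * E ≤ a' := by rw [ha']; exact le_max_right _ _
  refine ⟨-R₀, le_rfl, a' + E, 3, fun _ => a', fun k => if k = 0 then -E else if k = 1 then -R₀
    else 0, by linarith only [ha1, hE0], fun k hk => ?_, fun S₂ hS₂ => ?_⟩
  · dsimp only
    split_ifs
    · exact ⟨by linarith only [ha1], by linarith only [ha1, hE0], by linarith only [hE0]⟩
    · exact ⟨by linarith only [ha1, hER], by linarith only [ha1, hR₀], by linarith only [hE0]⟩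
    · exact ⟨by linarith only [ha1, hE0], by linarith only [ha1], by linarith only [hE0]⟩
  obtain ⟨D, hD, H⟩ := blx_uni m r S₂ (hS₀.trans hS₂)
  refine ⟨max (bmd D) D, fun dd hdd => ⟨1, 0, one_pos, fun φ hφ0 hφ kf hkf ρ hρ => ?_⟩⟩
  have hρ' : 0 < min ρ 1 := lt_min hρ one_pos
  obtain ⟨ε₀, hε₀, H⟩ := H (α := a) (b := b) (ρ := min ρ 1) (a := a') (Ve := -E) (V₀ := -R₀)
    (Vm := 0) (μ := (b - a) * E) hρ' (min_le_right _ _) (by linarith only [hER])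
    (by linarith only [hR₀]) (by linarith only [ha1]) (by
      have e1 : (b - 1) * (0 - -E) = (b - 1) * E := by ring
      rw [e1]
      linarith only [ha2, hE0]) (by
      have e1 : (b - a) * (0 - -E) = (b - a) * E := by ring
      rw [e1]) (mul_nonneg (by linarith only [hab]) hE0.le) (by
      have e1 : (b - a) * E = E - γ * E := by rw [hγ]; ring
      rw [e1, hEγ]
      linarith only [])
  refine ⟨lam₀, a' + E + 1, 0, fun _ => 0, fun j hj => absurd hj (Nat.not_lt_zero j),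
    fun K' hK' => ⟨ε₀, hε₀, fun ε hε hεε S g₀ P θ P₂ θ₂ Eb e₂ c Pt rt L T G g hG hg hder hZ =>
    ⟨fun _ => (), 0, fun _ => 0, fun _ => 0, fun j hj => absurd hj (Nat.not_lt_zero j),
    fun k₀ hk₀ => ⟨1, one_pos, fun q t x hq hx N A V N' V' R hp hv pf pr Nf hpf hpr1 hpr2 hNf =>
    Or.inr ⟨S, R.ne, fun τ J F A h => h, ?_⟩⟩⟩⟩⟩
  have hw : ∀ x : ℝ, x = -E ∨ x = -R₀ ∨ x = 0 → ∃ j < N, A j = a' ∧ V j = x := by
    rintro x (rfl | rfl | rfl)
    · obtain ⟨j, h1, h2, h3⟩ := hp 0 (by norm_num)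
      exact ⟨j, h1, h2, h3⟩
    · obtain ⟨j, h1, h2, h3⟩ := hp 1 (by norm_num)
      exact ⟨j, h1, h2, h3⟩
    · obtain ⟨j, h1, h2, h3⟩ := hp 2 (by norm_num)
      exact ⟨j, h1, h2, h3⟩
  obtain ⟨κ', hκ', hX⟩ := H R hr hε.le hεε haE hbE hκu hκN (by linarith only [hK', ha1])
    (by linarith only [hK', hE0]) (by linarith only [hK', hE0, ha1])
    (W := fun k => if k = 0 then -R₀ else 0) (n := 1) rfl (fun k hk => by
      show -E ≤ (if k = 0 then -R₀ else 0 : ℝ) ∧ (if k = 0 then -R₀ else 0 : ℝ) ≤ 0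
      split_ifs
      · exact ⟨by linarith only [hER], by linarith only [hR₀]⟩
      · exact ⟨by linarith only [hE0], le_rfl⟩) (fun k hk => by
      show ∃ j < N, A j = a' ∧ V j = (if k = 0 then -R₀ else 0 : ℝ)
      split_ifs
      · exact hw _ (Or.inr (Or.inl rfl))
      · exact hw _ (Or.inr (Or.inr rfl))) (hw _ (Or.inl rfl))
  have hq := R.q0
  have hρq : min ρ 1 * q ≤ ρ * q := mul_le_mul_of_nonneg_right (min_le_left _ _) hq.le
  have e0 : t + (if 1 = 0 then -R₀ else 0 : ℝ) * q = t - 0 * q := by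
    rw [if_neg one_ne_zero]
    ring
  refine ⟨κ', hκ', hX.sel (le_max_left _ _) (le_max_right _ _) ?_ (fun _ => 1)
    (fun k _ => by norm_num) (fun k _ => ?_) (fun k _ => ?_) (fun k _ => ?_) le_rfl⟩
  · linarith only [hρq]
  · exact e0.symm
  · show L (r + 1) (t - 0 * q) (t - 0 * q) - ρ * q ≤ L (r + 1)
      (t + (if 1 = 0 then -R₀ else 0 : ℝ) * q) (t + (if 1 = 0 then -R₀ else 0 : ℝ) * q) -
        min ρ 1 * q
    rw [e0]
    linarith only [hρq]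
  · show L r (t + (if 1 = 0 then -R₀ else 0 : ℝ) * q) (t + (if 1 = 0 then -R₀ else 0 : ℝ) * q) -
      L (r + 1) (t + (if 1 = 0 then -R₀ else 0 : ℝ) * q)
        (t + (if 1 = 0 then -R₀ else 0 : ℝ) * q) + min ρ 1 * q ≤
      L r (t - 0 * q) (t - 0 * q) - L (r + 1) (t - 0 * q) (t - 0 * q) + ρ * q
    rw [e0]
    linarith only [hρq]

end Pool.CR99

namespace Pool.ASM

open Finset Real
open Pool.GEN Pool.PKG Pool.SW Pool.ALT Pool.PN18 Pool.CR99
open Pool.LA91 (FaQ sumQ HerQ her_sum her_fa aePG_fa aePG_sum)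

/-- **No resonance** of slopes `a ≤ b < a + 1`, `a ≠ b`. -/
theorem nores_lt {a b : ℝ} (hab : a < b) (hb : b < a + 1) : NoRes a b := by
  intro i hi1 hi2 j hj1 hj2 hij
  have hi0 : (0 : ℝ) < i := by exact_mod_cast hi1
  have ha0 : 0 ≤ a := by
    by_contra h1
    rw [Nat.floor_of_nonpos (not_le.1 h1).le] at hi2
    omega
  have hia : (i : ℝ) ≤ a := (Nat.cast_le.2 hi2).trans (Nat.floor_le ha0)
  have h1 : (i : ℝ) * a < j * a := by
    rw [← hij]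
    exact mul_lt_mul_of_pos_left hab hi0
  have ha1 : 0 < a := hi0.trans_le hia
  have h2 : (i : ℝ) < j := lt_of_mul_lt_mul_right h1 ha1.le
  have h3 : i + 1 ≤ j := by exact_mod_cast h2
  have h4 : (i : ℝ) + 1 ≤ j := by exact_mod_cast h3
  have h5 : ((i : ℝ) + 1) * a ≤ i * b := by
    rw [hij]
    exact mul_le_mul_of_nonneg_right h4 ha1.le
  have h6 : (i : ℝ) * b < i * (a + 1) := mul_lt_mul_of_pos_left hb hi0
  linarith only [h5, h6, hia]

/-- The supply for a thin place 2 and a last slope `b < a + 1`. -/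
theorem supF_thin : SupF .thin (fun Sl => Sl 2 < Sl 3 ∧ Sl 3 < Sl 2 + 1) (fun _ => 0) :=
  ⟨Unit, inferInstance, CuQ, aePG_cu 4, her_cu 4, fun h _ _ Sl hS ⟨h1, h2⟩ => ⟨le_rfl,
    blSup_uni (r := 2) (by norm_num) (Or.inr rfl) (Or.inl rfl) (hS.thin rfl).le h1.le h2
      (⟨1, one_pos⟩, 0) _⟩⟩

/-- **The first jet of a thin place 2** at the windows of full rate, for `a < b < a + 1`. -/
theorem cbF_thin_lt : CbF .thin (fun Sl => Sl 2 < Sl 3 ∧ Sl 3 < Sl 2 + 1) := by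
  obtain ⟨ι, h1, Q, h2, h3, H⟩ := cbF_sup (k := .thin) (Or.inr (Or.inl rfl)) supF_thin
  exact ⟨ι, h1, Q, h2, h3, fun h hh hh1 Sl hS hΦ => H h hh hh1 Sl hS
    ⟨hΦ.1.le, nores_lt hΦ.1 hΦ.2, hΦ⟩⟩

end Pool.ASM
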