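import Pool.Agent.H99.D2.Cev
import Pool.Agent.H73.D2.Tml

/-!
# The closed polynomial of the end from the closed constant

`CfC.nwc`: `NwC` for `P = U κ u`.
-/

set_option autoImplicit false

namespace Pool.CR99

open Finset Real MvPolynomial
open Pool.Agent.H49.Ent Pool.Agent.H32.Dense Pool.STK Pool.KA Pool.KSAT Pool.K2S Pool.PB Pool.S6C
open Pool.GEN Pool.CHT Pool.CHX Pool.ISO Pool.D2R Pool.D2G30 Pool.V1E
open Pool.FLF (Fam.sub)
open Pool.PB.Trl (rt rt_mem t_rt)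

theorem num_e' {a b c d : ℕ} (h : a + b ≤ c + d) : (2 : ℝ) ^ a / 2 ^ c ≤ 2 ^ d / 2 ^ b := num_e h

/-- The monomial `κ u`. -/
noncomputable def mu1 {m : ℕ} (c : ℕ → Fin m) (r : ℕ) (κ : ℝ) : MvPolynomial (Option (Fin m)) ℝ :=
  C κ * X (some (c r))

theorem eval_mu1 {m : ℕ} (c : ℕ → Fin m) (r : ℕ) (κ : ℝ) (b : Option (Fin m) → ℝ) :
    eval b (mu1 c r κ) = κ * b (some (c r)) := by
  unfold mu1
  rw [map_mul, eval_C, eval_X]

theorem deg_mu1 {m : ℕ} (c : ℕ → Fin m) (r : ℕ) (κ : ℝ) : (mu1 c r κ).totalDegree ≤ 1 := by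
  unfold mu1
  refine (totalDegree_mul _ _).trans ?_
  rw [totalDegree_C, totalDegree_X]

theorem dep_mu1 {m : ℕ} (c : ℕ → Fin m) (r : ℕ) (κ : ℝ) : DepC c (r + 1) (mu1 c r κ) := by
  intro b b' _ h
  rw [eval_mu1, eval_mu1, h r (Nat.lt_succ_self r)]

theorem pd_mu1 {m : ℕ} (c : ℕ → Fin m) (r : ℕ) (κ : ℝ) (b : Option (Fin m) → ℝ) :
    eval b (pderiv (some (c r)) (mu1 c r κ)) = κ := by
  unfold mu1
  rw [pderiv_C_mul, pderiv_X_self, mul_one, eval_C]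

/-- **`NwC`** from the closed constant. -/
theorem CfC.nwc {m J : ℕ} {F : Fam m J} {c : ℕ → Fin m} {r M Dw MB Q h x x' su sn : ℕ}
    {o : ℕ → ℕ} {g₀ : ℕ → ℕ → ℕ} {B : F.Ω → Prop}
    {G : ℕ → PtT F → ℕ → MvPolynomial (Option (Fin m)) ℝ}
    {Ht : LnT F → MvPolynomial (Option (Fin m)) ℝ} {κL : LnT F → ℝ} {κG : PtT F → ℝ}
    (hJ : o 1 ≤ J)
    (W : CfC F c r M (o 1) (o 2) (g₀ 1) (g₀ 2) (2 ^ su / 2 ^ sn)
      (2 ^ (h + 2 * x + 2) * (2 ^ su / 2 ^ sn))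
      (2 ^ (h + 2 * x + 2) * (2 ^ g₀ 2 r / 2 ^ (sn + MB))) B (G 1) (G 2)
      (spt c r su sn (o 1) Ht) κL κG)
    (hD : 1 ≤ Dw) (hx : h + 2 * x + 2 ≤ x') (hM : 1 + (MB - Q) ≤ x' + M) :
    NwC F c r Dw MB Q x' su sn o g₀ B G Ht (fun s => mu1 c r (2 ^ su / 2 ^ sn * κL s))
      (fun y => mu1 c r (2 ^ su / 2 ^ sn * κG y)) where
  dCL := fun s => (deg_mu1 c r _).trans hD
  dCp := fun y => (deg_mu1 c r _).trans hD
  pCL := fun s => dep_mu1 c r _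
  pCp := fun y => dep_mu1 c r _
  clC := fun ω hω => by rw [W.clo ω hω]
  hC1 := fun ω hω b hb => by
    rw [pd_mu1]
    refine (W.box1 ω hω b hb).trans ?_
    have e1 : (2 : ℝ) ^ (h + 2 * x + 2) * (2 ^ su / 2 ^ sn) = 2 ^ (su + (h + 2 * x + 2)) / 2 ^ sn := by
      rw [pow_add 2 su]
      ring
    rw [e1]
    exact div_le_div_of_nonneg_right (pow_le_pow_right₀ (by norm_num) (by omega)) (by positivity)
  hC2 := fun ω hω b hb => by
    rw [pd_mu1]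
    refine (W.box2 ω hω b hb).trans ?_
    have e1 : (2 : ℝ) ^ (h + 2 * x + 2) * (2 ^ g₀ 2 r / 2 ^ (sn + MB)) =
        2 ^ (g₀ 2 r + (h + 2 * x + 2)) / 2 ^ (sn + MB) := by
      rw [pow_add 2 (g₀ 2 r)]
      ring
    rw [e1]
    exact div_le_div_of_nonneg_right (pow_le_pow_right₀ (by norm_num) (by omega)) (by positivity)
  hCt := fun ω hω => by
    rw [pd_mu1]
    have h1 := W.own ω hω (rt F (o 1) ω) (rt_mem F (o 1) ω)
    rw [eval_spt hJ] at h1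
    have hU : (0 : ℝ) < 2 ^ su / 2 ^ sn := by positivity
    rw [W.clo ω hω]
    obtain ⟨a, ha⟩ : ∃ a, a = eval (bt F ω) (pderiv (some (c r)) (Ht (slam F (o 1) ω))) := ⟨_, rfl⟩
    rw [← ha] at h1 ⊢
    have e1 : a - 2 ^ su / 2 ^ sn * κL (slam F (o 1) ω) =
        2 ^ su / 2 ^ sn * (2 ^ sn / 2 ^ su * a - κL (slam F (o 1) ω)) := by
      field_simp
    rw [e1, abs_mul, abs_of_pos hU]
    refine (mul_le_mul_of_nonneg_left h1 hU.le).trans ?_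
    have e2 : (2 : ℝ) ^ su / 2 ^ sn * (2 / 2 ^ M) = 2 ^ (su + 1) / 2 ^ (sn + M) := by
      rw [pow_add, pow_add, pow_one]
      field_simp
    rw [e2]
    exact num_e' (by omega)

end Pool.CR99
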