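import Pool.Agent.H60.ALT.Rec
import Pool.Agent.H27.TOP.Uni
import Pool.Agent.H99.D2.Nwf

/-!
# The family of the blind labels

`BlF`: closed labels of the window `w` whose derivative in the direction `c r` is near the ones of some
labels of the windows `v k`, at the samples. `blf_blB`: then they are near the ones of all labels of
the windows `v k` (`BlB` of helper60).
-/

set_option autoImplicit false

namespace Pool.CR99

open Finset Real MvPolynomial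
open Pool.Agent.H49.Ent Pool.Agent.H32.Dense Pool.STK Pool.KA Pool.KSAT Pool.K2S Pool.PB Pool.S6C
open Pool.GEN Pool.CHT Pool.CHX Pool.ISO Pool.D2R Pool.D2G30 Pool.V1E
open Pool.FLF (Fam.sub)
open Pool.PB.Trl (rt rt_mem t_rt)
open Pool.GRD (LbP)
open Pool.BFL (Pb)
open Pool.ALT (BlC BlB sbu sbu_eval sbu_deg sbu_dep DpI Upg)

variable {m : ℕ}

/-- **The family of the blind labels**: closed labels of the window `w` whose derivative in the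
direction `c r` is near the ones of some labels of the windows `v k`, `k < n`, at the samples. -/
def BlF (c : ℕ → Fin m) (r K K₁ : ℕ) (e₀ ρ₀ π₀ w : ℝ) (n : ℕ) (v p₁ x₀ : ℕ → ℝ) :
    ∀ (J : ℕ) (F : Fam m J), (F.Ω → Prop) → ∀ V : Type, (PtT F → V) → (LnT F → V) →
      (V → MvPolynomial (Option (Fin m)) ℝ) → Prop :=
  fun J F A _ z z' G =>
    LbOK F ((range (r + 1)).image c) (c (r + 1)) K ⌊e₀ * J⌋₊ J ⌊w * J⌋₊ ⌊ρ₀ * J⌋₊ ⌊π₀ * J⌋₊ A
      z z' G ∧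
    ∀ k < n, ∃ (V₁ : Type) (z₁ : PtT F → V₁) (z₁' : LnT F → V₁)
      (G₁ : V₁ → MvPolynomial (Option (Fin m)) ℝ) (P₁ : ℕ),
      LbP F ((range (r + 1)).image c) (c (r + 1)) K₁ J ⌊v k * J⌋₊ P₁ A z₁ z₁' G₁ ∧
      p₁ k * J ≤ P₁ ∧
      ∀ ω, A ω → |eval (bt F ω) (pderiv (some (c r)) (G₁ (z₁' (slam F ⌊v k * J⌋₊ ω)) -
        G (z' (slam F ⌊w * J⌋₊ ω))))| ≤ 2 ^ (x₀ k * J)

theorem BlF.hs {c : ℕ → Fin m} {r K K₁ : ℕ} {e₀ ρ₀ π₀ w : ℝ} {n : ℕ} {v p₁ x₀ : ℕ → ℝ} (J : ℕ)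
    (F : Fam m J) (A B : F.Ω → Prop) (V : Type) (z : PtT F → V) (z' : LnT F → V)
    (G : V → MvPolynomial (Option (Fin m)) ℝ) (hB : Sub B A)
    (h : BlF c r K K₁ e₀ ρ₀ π₀ w n v p₁ x₀ J F A V z z' G) :
    BlF c r K K₁ e₀ ρ₀ π₀ w n v p₁ x₀ J F B V z z' G :=
  ⟨h.1.sub hB, fun k hk => by
    obtain ⟨V₁, z₁, z₁', G₁, P₁, h1, h2, h3⟩ := h.2 k hk
    exact ⟨V₁, z₁, z₁', G₁, P₁, h1.sub hB, h2, fun ω hω => h3 ω (hB ω hω)⟩⟩

theorem BlF.hl {c : ℕ → Fin m} {r K K₁ : ℕ} {e₀ ρ₀ π₀ w : ℝ} {n : ℕ} {v p₁ x₀ : ℕ → ℝ} (J : ℕ)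
    (F : Fam m J) (A : F.Ω → Prop) (V : Type) (z : PtT F → V) (z' : LnT F → V)
    (G : V → MvPolynomial (Option (Fin m)) ℝ)
    (h : BlF c r K K₁ e₀ ρ₀ π₀ w n v p₁ x₀ J F A V z z' G) :
    LbOK F ((range (r + 1)).image c) (c (r + 1)) K ⌊e₀ * J⌋₊ J ⌊w * J⌋₊ ⌊ρ₀ * J⌋₊ ⌊π₀ * J⌋₊ A
      z z' G := h.1

theorem rp_exp (x : ℝ) (J : ℕ) : (2 : ℝ) ^ (x * J) = Real.exp (x * Real.log 2 * J) := by
  rw [Real.rpow_def_of_pos (by norm_num)]
  congr 1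
  ring

/-- **Two labels of one window have the same derivatives**, off a small probability. -/
theorem two_lab {S : PCl m} {C₀ : ℝ} (hC₀ : 0 ≤ C₀) (htm : TmC S C₀) {I : Finset (Fin m)}
    {κ : Fin m} (o : Option (Fin m)) {v u : ℝ} (hvu : v ≤ u) (hu0 : 0 ≤ u) (hu : u < 1)
    (hful : Pool.TOP.Ful S I v u) (K : ℕ) {η p x : ℝ} (hη : 0 < η) (hx : u - p < x) :
    Bas S (fun J F A => ∀ (P₁ P₂ : ℕ) (V₁ V₂ : Type) (z₁ : PtT F → V₁) (z₁' : LnT F → V₁)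
      (G₁ : V₁ → MvPolynomial (Option (Fin m)) ℝ) (z₂ : PtT F → V₂) (z₂' : LnT F → V₂)
      (G₂ : V₂ → MvPolynomial (Option (Fin m)) ℝ),
      LbP F I κ K J ⌊v * J⌋₊ P₁ A z₁ z₁' G₁ → LbP F I κ K J ⌊v * J⌋₊ P₂ A z₂ z₂' G₂ →
      p * J ≤ P₁ → p * J ≤ P₂ →
      ∃ B : F.Ω → Prop, Sub B A ∧ (1 - η) * Pe F.p A ≤ Pe F.p B ∧ ∀ ω, B ω →
        |eval (bt F ω) (pderiv o (G₁ (z₁' (slam F ⌊v * J⌋₊ ω)) -
          G₂ (z₂' (slam F ⌊v * J⌋₊ ω))))| ≤ 2 ^ (x * J)) := by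
  classical
  obtain ⟨C, hC, hmk⟩ := Pool.GRD.dir_markov (m := m) K
  have hl2 : 0 < Real.log 2 := Real.log_pos one_lt_two
  obtain ⟨h, hh⟩ : ∃ h : ℝ, h = (x - (u - p)) * Real.log 2 / 2 := ⟨_, rfl⟩
  have hh0 : 0 < h := by
    rw [hh]
    have : 0 < x - (u - p) := by linarith
    positivity
  obtain ⟨η', hη'⟩ : ∃ η' : ℝ, η' = min η 1 := ⟨_, rfl⟩
  have hη0 : 0 < η' := by rw [hη']; exact lt_min hη one_pos
  have hη1 : η' ≤ 1 := by rw [hη']; exact min_le_right _ _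
  have hηη : η' ≤ η := by rw [hη']; exact min_le_left _ _
  obtain ⟨J₁, hJ₁⟩ := exists_nat_ge (Real.log (4 * C) / h)
  refine Bas.mono J₁ ((Pool.TOP.uni_cls hC₀ htm I hvu hu0 hu hful K hh0 hη0 hη1).and
    (Pool.GRW.tmc_bas htm one_pos)) ?_
  rintro J hJ F A ⟨H, hA, -⟩ P₁ P₂ V₁ V₂ z₁ z₁' G₁ z₂ z₂' G₂ h₁ h₂ hP₁ hP₂
  have hJ0 : (0 : ℝ) ≤ J := Nat.cast_nonneg J
  have hJ1 : Real.log (4 * C) ≤ h * J := by
    have e1 : (J₁ : ℝ) ≤ J := by exact_mod_cast hJ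
    have e2 := hJ₁.trans e1
    rw [div_le_iff₀ hh0] at e2
    linarith
  obtain ⟨B, b1, b2, b3⟩ := H (V₁ × V₂) (fun y => (z₁ y, z₂ y)) (fun s => (z₁' s, z₂' s))
    (fun x => G₁ x.1 - G₂ x.2) (fun _ => 1 / 2 ^ P₁ + 1 / 2 ^ P₂)
    (fun x => (MvPolynomial.totalDegree_sub _ _).trans (max_le (h₁.deg _) (h₂.deg _)))
    (fun x b b' hb hb' => by
      rw [map_sub, map_sub, h₁.dep _ b b' hb hb', h₂.dep _ b b' hb hb'])
    (fun ω hω => by rw [h₁.cls ω hω, h₂.cls ω hω]) (fun _ => by positivity) (fun ω hω => by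
      simp only
      rw [map_sub]
      have k1 := h₁.pos ω hω
      have k2 := h₂.pos ω hω
      have e1 : MvPolynomial.eval (bt F ω) (G₁ (z₁' (slam F ⌊v * J⌋₊ ω))) -
          MvPolynomial.eval (bt F ω) (G₂ (z₂' (slam F ⌊v * J⌋₊ ω))) =
          (F.x ω κ - MvPolynomial.eval (bt F ω) (G₂ (z₂' (slam F ⌊v * J⌋₊ ω)))) -
          (F.x ω κ - MvPolynomial.eval (bt F ω) (G₁ (z₁' (slam F ⌊v * J⌋₊ ω)))) := by ring
      rw [e1]
      refine (abs_sub _ _).trans ?_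
      linarith)
  refine ⟨B, b1, le_trans (mul_le_mul_of_nonneg_right (by linarith) hA.le) b2, fun ω hω => ?_⟩
  have hδ : (0 : ℝ) < 1 / 2 ^ ⌊u * J⌋₊ := by positivity
  have k1 := hmk (G₁ (z₁' (slam F ⌊v * J⌋₊ ω)) - G₂ (z₂' (slam F ⌊v * J⌋₊ ω))) (bt F ω) o
    (1 / 2 ^ ⌊u * J⌋₊) (Real.exp (h * J) * (1 / 2 ^ P₁ + 1 / 2 ^ P₂))
    ((MvPolynomial.totalDegree_sub _ _).trans (max_le (h₁.deg _) (h₂.deg _))) hδ
    fun s hs => b3 ω hω _ fun o' => by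
      by_cases ho : o' = o
      · subst ho
        rw [Function.update_self, add_sub_cancel_left]
        linarith
      · rw [Function.update_of_ne ho, sub_self, abs_zero]
        positivity
  refine k1.trans ?_
  have e1 : C * (Real.exp (h * J) * (1 / 2 ^ P₁ + 1 / 2 ^ P₂)) / (1 / 2 ^ ⌊u * J⌋₊) =
      C * Real.exp (h * J) * 2 ^ ⌊u * J⌋₊ * (1 / 2 ^ P₁ + 1 / 2 ^ P₂) := by
    field_simp
  have hp : ∀ P : ℕ, p * J ≤ P → (1 : ℝ) / 2 ^ P ≤ Real.exp (-(p * Real.log 2 * J)) := by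
    intro P hP
    have e2 : (1 : ℝ) / 2 ^ P = Real.exp (-(P * Real.log 2)) := by
      rw [Real.exp_neg, mul_comm, Real.exp_mul, Real.exp_log (by norm_num), Real.rpow_natCast,
        one_div]
    rw [e2]
    refine Real.exp_le_exp.2 (neg_le_neg ?_)
    have := mul_le_mul_of_nonneg_right hP hl2.le
    linarith
  have hu2 : (2 : ℝ) ^ ⌊u * J⌋₊ ≤ Real.exp (u * Real.log 2 * J) := by
    have e2 : (2 : ℝ) ^ ⌊u * J⌋₊ = Real.exp (⌊u * J⌋₊ * Real.log 2) := by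
      rw [mul_comm (⌊u * J⌋₊ : ℝ) (Real.log 2), Real.exp_mul, Real.exp_log (by norm_num),
        Real.rpow_natCast]
    rw [e2]
    refine Real.exp_le_exp.2 ?_
    have := mul_le_mul_of_nonneg_right (Nat.floor_le (mul_nonneg hu0 hJ0)) hl2.le
    linarith
  have hC4 : (2 * C : ℝ) ≤ Real.exp (h * J) := by
    have h4 : 0 < 4 * C := by linarith
    calc 2 * C ≤ 4 * C := by linarith
      _ = Real.exp (Real.log (4 * C)) := (Real.exp_log h4).symm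
      _ ≤ _ := Real.exp_le_exp.2 hJ1
  rw [e1, rp_exp]
  have e3 : Real.exp (x * Real.log 2 * J) = Real.exp (h * J) * Real.exp (h * J) *
      Real.exp (u * Real.log 2 * J) * Real.exp (-(p * Real.log 2 * J)) := by
    rw [← Real.exp_add, ← Real.exp_add, ← Real.exp_add]
    congr 1
    rw [hh]
    ring
  rw [e3]
  calc C * Real.exp (h * J) * 2 ^ ⌊u * J⌋₊ * (1 / 2 ^ P₁ + 1 / 2 ^ P₂) ≤
      C * Real.exp (h * J) * Real.exp (u * Real.log 2 * J) *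
        (Real.exp (-(p * Real.log 2 * J)) + Real.exp (-(p * Real.log 2 * J))) := by
        have h5 := hp P₁ hP₁
        have h6 := hp P₂ hP₂
        have h7 : 0 ≤ C * Real.exp (h * J) := by positivity
        exact mul_le_mul (mul_le_mul_of_nonneg_left hu2 h7) (add_le_add h5 h6) (by positivity)
          (by positivity)
    _ = (2 * C) * (Real.exp (h * J) * Real.exp (u * Real.log 2 * J) *
        Real.exp (-(p * Real.log 2 * J))) := by ring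
    _ ≤ Real.exp (h * J) * (Real.exp (h * J) * Real.exp (u * Real.log 2 * J) *
        Real.exp (-(p * Real.log 2 * J))) := mul_le_mul_of_nonneg_right hC4 (by positivity)
    _ = _ := by ring

/-- **The labels of the family `BlF` are near all labels of the windows `v k`.** -/
theorem blf_blB {S : PCl m} {C₀ : ℝ} (hC₀ : 0 ≤ C₀) (htm : TmC S C₀) {c : ℕ → Fin m}
    {r K K₁ K₂ Ku : ℕ} {e₀ ρ₀ π₀ w : ℝ} {n : ℕ} {v p₁ x₀ : ℕ → ℝ} {k : ℕ} (hk : k < n) {u : ℝ}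
    (hvu : v k ≤ u) (hu0 : 0 ≤ u) (hu : u < 1)
    (hful : Pool.TOP.Ful S ((range (r + 1)).image c) (v k) u) {p p₂ x : ℝ} (hp : 0 ≤ p)
    (hx₀ : x₀ k < x) (hx₁ : u - p₁ k < x) (hx₂ : u - p < x) :
    BlB S c r (c (r + 1)) w (v k) K₂ Ku p p₂ x (BlF c r K K₁ e₀ ρ₀ π₀ w n v p₁ x₀) := by
  intro η χ hη hχ
  obtain ⟨x', hx'⟩ : ∃ x' : ℝ, x' = max (x₀ k) ((max (u - p₁ k) (u - p) + x) / 2) := ⟨_, rfl⟩
  have hx'x : x' < x := by
    rw [hx']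
    refine max_lt hx₀ ?_
    have := max_lt hx₁ hx₂
    linarith
  have hx0' : x₀ k ≤ x' := by rw [hx']; exact le_max_left _ _
  have hx1' : u - min (p₁ k) p < x' := by
    rw [hx']
    refine lt_of_lt_of_le ?_ (le_max_right _ _)
    have h1 : u - min (p₁ k) p = max (u - p₁ k) (u - p) := by
      rcases le_total (p₁ k) p with h | h
      · rw [min_eq_left h, max_eq_left (by linarith)]
      · rw [min_eq_right h, max_eq_right (by linarith)]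
    rw [h1]
    have := max_lt hx₁ hx₂
    linarith
  obtain ⟨J₁, hJ₁⟩ := exists_nat_ge (1 / (x - x'))
  refine Bas.mono J₁ ((two_lab hC₀ htm (κ := c (r + 1)) (some (c r)) hvu hu0 hu hful (max K₁ K₂)
    (η := η) (p := min (p₁ k) p) (x := x') hη hx1').and (Pool.GRW.tmc_bas htm one_pos)) ?_
  rintro J hJ F A ⟨H, hA, -⟩ V z z' G hΨ P₁ V₁ z₁ z₁' G₁ hG₁ hP₁ P₂ V₂ z₂ z₂' H₂ hH hP₂
  have hJ0 : (0 : ℝ) ≤ J := Nat.cast_nonneg J
  obtain ⟨V₃, z₃, z₃', G₃, P₃, h1, h2, h3⟩ := hΨ.2 k hk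
  obtain ⟨B, b1, b2, b3⟩ := H P₁ P₃ V₁ V₃ z₁ z₁' G₁ z₃ z₃' G₃
    (hG₁.mono (Finset.Subset.refl _) (le_max_right _ _) le_rfl)
    (h1.mono (Finset.Subset.refl _) (le_max_left _ _) le_rfl) (by
      have e1 : min (p₁ k) p * J ≤ p * J := mul_le_mul_of_nonneg_right (min_le_right _ _) hJ0
      have e2 : (p + χ) * J = p * J + χ * J := by ring
      have e3 : 0 ≤ χ * J := by positivity
      linarith) (le_trans (mul_le_mul_of_nonneg_right (min_le_left _ _) hJ0) h2)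
  obtain ⟨q', hq'⟩ : ∃ q' : F.Ω → ℝ, q' = Pool.Agent.H49.Ent.cond F.p A True := ⟨_, rfl⟩
  have hq'l : IsLaw q' := by
    rw [hq']
    exact isLaw_cond F.isLaw hA
  -- off `B`
  have hB : Pb q' (fun ω => ¬ B ω) ≤ η := by
    classical
    rw [hq', show Pb (Pool.Agent.H49.Ent.cond F.p A True) (fun ω => ¬ B ω) =
      Pe (Pool.Agent.H49.Ent.cond F.p A True) (fun ω => ¬ B ω) by rw [Pe_eq]; rfl, Pe_cond,
      div_le_iff₀ hA]
    have h5 : Pe F.p (fun ω => A ω ∧ ¬ B ω) + Pe F.p B ≤ Pe F.p A := by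
      rw [Pe_eq, Pe_eq, Pe_eq, ← Finset.sum_add_distrib]
      refine Finset.sum_le_sum fun ω _ => ?_
      have h6 := F.isLaw.nonneg ω
      by_cases g1 : A ω <;> by_cases g2 : B ω
      · simp [g1, g2]
      · simp [g1, g2]
      · exact absurd (b1 ω g2) g1
      · simp [g1, g2]
    linarith
  rw [← hq']
  refine le_trans (Pool.GRD.Pb_mono_pos hq'l.nonneg fun ω hω0 hω => ?_) hB
  intro hBω
  have hAω := b1 ω hBω
  have h4 := b3 ω hBω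
  have h5 := h3 ω hAω
  have h6 : |eval (bt F ω) (pderiv (some (c r)) (G₁ (z₁' (slam F ⌊v k * J⌋₊ ω)) -
      G (z' (slam F ⌊w * J⌋₊ ω))))| ≤ 2 ^ (x' * J) + 2 ^ (x' * J) := by
    have e1 : G₁ (z₁' (slam F ⌊v k * J⌋₊ ω)) - G (z' (slam F ⌊w * J⌋₊ ω)) =
        (G₁ (z₁' (slam F ⌊v k * J⌋₊ ω)) - G₃ (z₃' (slam F ⌊v k * J⌋₊ ω))) +
        (G₃ (z₃' (slam F ⌊v k * J⌋₊ ω)) - G (z' (slam F ⌊w * J⌋₊ ω))) := by ring
    rw [e1, map_add, map_add]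
    refine (abs_add_le _ _).trans (add_le_add h4 (h5.trans ?_))
    exact Real.rpow_le_rpow_of_exponent_le (by norm_num)
      (mul_le_mul_of_nonneg_right hx0' hJ0)
  have h7 : (2 : ℝ) ^ (x' * J) + 2 ^ (x' * J) ≤ 2 ^ (x * J) := by
    have e1 : (2 : ℝ) ^ (x' * J) + 2 ^ (x' * J) = 2 ^ (x' * J + 1) := by
      rw [Real.rpow_add (by norm_num), Real.rpow_one]
      ring
    rw [e1]
    refine Real.rpow_le_rpow_of_exponent_le (by norm_num) ?_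
    have e2 : (J₁ : ℝ) ≤ J := by exact_mod_cast hJ
    have e3 := hJ₁.trans e2
    rw [div_le_iff₀ (by linarith)] at e3
    linarith
  exact absurd hω (not_lt.2 (h6.trans h7))

end Pool.CR99
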