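import Pool.Agent.H99.D2.Chh

/-!
# The closed coefficient from an abstract closed path

`ChP`: as `ChD`, but the own path `cP` of the coefficient is abstract: any polynomial in the relative
time of the window `o₁`, a function of the line of this window, which is near the derivative of the
charts of `N` in the direction `u = c r` at the sample. `CfP`: the output. `cf_path`: a closed and
visible affine function of the frame.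
-/

set_option autoImplicit false

namespace Pool.CR99

open Finset Real MvPolynomial
open Pool.Agent.H49.Ent Pool.Agent.H32.Dense Pool.STK Pool.KA Pool.KSAT Pool.K2S Pool.PB Pool.S6C
open Pool.GEN Pool.CHT Pool.CHX Pool.ISO Pool.D2R Pool.D2G30 Pool.V1E
open Pool.FLF (Fam.sub)
open Pool.PB.Trl (rt rt_mem t_rt)

/-- **The data.** -/
structure ChP {m J : ℕ} (F : Fam m J) (c : ℕ → Fin m) (r D Dr K M₀ x x₀ e h q₀ su sn : ℕ)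
    (κ : ℝ) (o₀ o₁ o₂ : ℕ) (g₀ g₁ g₂ : ℕ → ℕ) (B : F.Ω → Prop)
    (G₀ G₁ G₂ : PtT F → ℕ → MvPolynomial (Option (Fin m)) ℝ)
    (H₀ H₁ H₂ : LnT F → ℕ → MvPolynomial (Option (Fin m)) ℝ)
    (cP : LnT F → Polynomial ℝ) : Prop where
  hc : Set.InjOn c (Set.Iio (r + 2))
  o01 : o₀ ≤ o₁
  o12 : o₁ ≤ o₂
  oJ : o₂ ≤ J
  ch0 : ChOK F c (r + 2) (fun _ => D) o₀ o₀ e g₀ B G₀ H₀
  cl0 : Clsd F (r + 2) o₀ B G₀ H₀
  ch1 : ChOK F c (r + 2) (fun _ => D) o₁ o₁ e g₁ B G₁ H₁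
  cl1 : Clsd F (r + 2) o₁ B G₁ H₁
  rel1 : RelvF F c (r + 1) o₁ o₁ g₁ Dr h κ B G₁
  ch2 : ChOK F c (r + 2) (fun _ => D) o₂ o₂ e g₂ B G₂ H₂
  cl2 : Clsd F (r + 2) o₂ B G₂ H₂
  rel2 : RelvF F c (r + 1) o₂ o₂ g₂ Dr h κ B G₂
  deg : ∀ s, (cP s).natDegree ≤ K
  bl : ∀ ω, B ω → ∀ b, NBx c (G₂ (ptr F J ω)) g₂ o₂ (F.t ω) (r + 1) b →
    |eval b (Gno (c (r + 1)) J J (fun y => G₀ y (r + 1)) (ptr F J ω)) -
      eval b (G₂ (ptr F J ω) (r + 1))| ≤ 2 ^ x / 2 ^ q₀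
  v1 : ∀ ω, B ω → |(cP (slam F o₁ ω)).eval (rt F o₁ ω) - 2 ^ sn / 2 ^ su *
    (eval (bt F ω) (pderiv (some (c r)) (H₁ (slam F o₁ ω) (r + 1))) -
      eval (bt F ω) (pderiv (some (c r)) (H₀ (slam F o₀ ω) (r + 1))))| ≤ 2 ^ x
  v2 : ∀ ω, B ω → |(cP (slam F o₁ ω)).eval (rt F o₁ ω) - 2 ^ sn / 2 ^ su *
    (eval (bt F ω) (pderiv (some (c r)) (H₂ (slam F o₂ ω) (r + 1))) -
      eval (bt F ω) (pderiv (some (c r)) (H₀ (slam F o₀ ω) (r + 1))))| ≤ 2 ^ x / 2 ^ M₀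
  Dr1 : D ≤ Dr
  a0 : g₂ r + sn ≤ su + q₀ + x₀

/-- **The output.** -/
structure CfP {m J : ℕ} (F : Fam m J) (c : ℕ → Fin m) (r D M : ℕ) (su sn o₁ o₂ : ℕ)
    (g₁ g₂ : ℕ → ℕ) (K₁ K₂ : ℝ) (B : F.Ω → Prop)
    (G₀ G₁ G₂ : PtT F → ℕ → MvPolynomial (Option (Fin m)) ℝ) (cP : LnT F → Polynomial ℝ)
    (CL : LnT F → MvPolynomial (Option (Fin m)) ℝ)
    (CG : PtT F → MvPolynomial (Option (Fin m)) ℝ) : Prop where
  dL : ∀ s, (CL s).totalDegree ≤ D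
  dG : ∀ y, (CG y).totalDegree ≤ D
  pL : ∀ s, DepC c r (CL s)
  pG : ∀ y, DepC c r (CG y)
  clo : ∀ ω, B ω → CG (ptr F J ω) = CL (slam F o₁ ω)
  own : ∀ ω, B ω → ∀ τ ∈ Set.Icc (0 : ℝ) 1,
    |(cP (slam F o₁ ω)).eval τ - eval (ptw F o₁ ω τ) (CL (slam F o₁ ω))| ≤ 2 / 2 ^ M
  box1 : ∀ ω, B ω → ∀ b, NBx c (G₁ (ptr F J ω)) g₁ o₁ (F.t ω) (r + 1) b →
    |eval b (pderiv (some (c r)) (G₁ (ptr F J ω) (r + 1))) -
      eval b (pderiv (some (c r)) (G₀ (ptr F J ω) (r + 1))) -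
      2 ^ su / 2 ^ sn * eval b (CG (ptr F J ω))| ≤ K₁
  box2 : ∀ ω, B ω → ∀ b, NBx c (G₂ (ptr F J ω)) g₂ o₂ (F.t ω) (r + 1) b →
    |eval b (pderiv (some (c r)) (G₂ (ptr F J ω) (r + 1))) -
      eval b (pderiv (some (c r)) (G₀ (ptr F J ω) (r + 1))) -
      2 ^ su / 2 ^ sn * eval b (CG (ptr F J ω))| ≤ K₂

/-- **The box from the sample.** -/
theorem cf_boxP {m J : ℕ} {F : Fam m J} {c : ℕ → Fin m} {r D Dr h : ℕ} {κ : ℝ}
    {su sn o₀ o₁ o₂ : ℕ} {g₂ : ℕ → ℕ} {B B₁ : F.Ω → Prop}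
    {G₀ G₂ : PtT F → ℕ → MvPolynomial (Option (Fin m)) ℝ}
    {H₀ H₂ : LnT F → ℕ → MvPolynomial (Option (Fin m)) ℝ}
    {CL : LnT F → MvPolynomial (Option (Fin m)) ℝ}
    {CG : PtT F → MvPolynomial (Option (Fin m)) ℝ} {K : ℝ} (h01 : o₀ ≤ o₁) (h12 : o₁ ≤ o₂)
    (h2J : o₂ ≤ J) (hD : D ≤ Dr) (hdG₀ : ∀ y l, (G₀ y l).totalDegree ≤ D)
    (hdG₂ : ∀ y l, (G₂ y l).totalDegree ≤ D) (hdH₀ : ∀ s l, (H₀ s l).totalDegree ≤ D)
    (hdH₂ : ∀ s l, (H₂ s l).totalDegree ≤ D) (hpG₀ : ∀ y l, DepC c l (G₀ y l))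
    (hpG₂ : ∀ y l, DepC c l (G₂ y l)) (hpH₀ : ∀ s l, DepC c l (H₀ s l))
    (hpH₂ : ∀ s l, DepC c l (H₂ s l)) (hCL : ∀ s, (CL s).totalDegree ≤ D ∧ DepC c r (CL s))
    (hCG : ∀ y, (CG y).totalDegree ≤ D ∧ DepC c r (CG y)) (hcl0 : Clsd F (r + 2) o₀ B G₀ H₀)
    (hcl2 : Clsd F (r + 2) o₂ B G₂ H₂) (hrel : RelvF F c (r + 1) o₂ o₂ g₂ Dr h κ B G₂)
    (hB₁ : Sub B₁ B) (hκ : κ * Pe F.p B ≤ Pe F.p B₁)
    (hcl : ∀ ω, B₁ ω → CG (ptr F J ω) = CL (slam F o₁ ω))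
    (hn : ∀ ω, B₁ ω → |eval (bt F ω) (pderiv (some (c r)) (H₂ (slam F o₂ ω) (r + 1))) -
      eval (bt F ω) (pderiv (some (c r)) (H₀ (slam F o₀ ω) (r + 1))) -
      2 ^ su / 2 ^ sn * eval (bt F ω) (CL (slam F o₁ ω))| ≤ K) (hK0 : 0 < K) :
    ∃ B₂ : F.Ω → Prop, Sub B₂ B₁ ∧ Pe F.p B₁ / 2 ≤ Pe F.p B₂ ∧ ∀ ω, B₂ ω →
      ∀ b, NBx c (G₂ (ptr F J ω)) g₂ o₂ (F.t ω) (r + 1) b →
      |eval b (pderiv (some (c r)) (G₂ (ptr F J ω) (r + 1))) -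
        eval b (pderiv (some (c r)) (G₀ (ptr F J ω) (r + 1))) -
        2 ^ su / 2 ^ sn * eval b (CG (ptr F J ω))| ≤ 2 ^ h * K := by
  classical
  obtain ⟨Dx, hDx⟩ : ∃ Dx : PtT F → MvPolynomial (Option (Fin m)) ℝ, Dx = fun y =>
      pderiv (some (c r)) (G₂ y (r + 1)) - pderiv (some (c r)) (G₀ y (r + 1)) -
        MvPolynomial.C (2 ^ su / 2 ^ sn) * CG y := ⟨_, rfl⟩
  obtain ⟨Dl, hDl⟩ : ∃ Dl : LnT F → MvPolynomial (Option (Fin m)) ℝ, Dl = fun s =>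
      pderiv (some (c r)) (H₂ s (r + 1)) - pderiv (some (c r)) (H₀ (co (o₂ - o₀) s) (r + 1)) -
        MvPolynomial.C (2 ^ su / 2 ^ sn) * CL (co (o₂ - o₁) s) := ⟨_, rfl⟩
  have hdeg : ∀ P P' Q : MvPolynomial (Option (Fin m)) ℝ, P.totalDegree ≤ D →
      P'.totalDegree ≤ D → Q.totalDegree ≤ D → (pderiv (some (c r)) P -
        pderiv (some (c r)) P' - MvPolynomial.C (2 ^ su / 2 ^ sn) * Q).totalDegree ≤ Dr := by
    intro P P' Q h1 h2 h3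
    refine le_trans ?_ hD
    refine (totalDegree_sub _ _).trans (max_le ((totalDegree_sub _ _).trans (max_le
      ((pd_deg _ _).trans h1) ((pd_deg _ _).trans h2))) ?_)
    refine (totalDegree_mul _ _).trans ?_
    rw [totalDegree_C, zero_add]
    exact h3
  have hdep : ∀ P P' Q : MvPolynomial (Option (Fin m)) ℝ, DepC c (r + 1) P →
      DepC c (r + 1) P' → DepC c r Q → DepC c (r + 1) (pderiv (some (c r)) P -
        pderiv (some (c r)) P' - MvPolynomial.C (2 ^ su / 2 ^ sn) * Q) := by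
    intro P P' Q h1 h2 h3 b b' h4 h5
    rw [map_sub, map_sub, map_mul, map_sub, map_sub, map_mul,
      depC_pderiv h1 _ b b' h4 h5, depC_pderiv h2 _ b b' h4 h5,
      h3 b b' h4 fun l hl => h5 l (by omega), eval_C, eval_C]
  have heq : ∀ ω, B₁ ω → ∀ b, eval b (Dx (ptr F J ω)) = eval b (Dl (slam F o₂ ω)) := by
    intro ω hω b
    rw [hDx, hDl]
    beta_reduce
    rw [co_slam F h12 h2J, co_slam F (h01.trans h12) h2J, hcl ω hω,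
      hcl0 ω (hB₁ ω hω) (r + 1) (by omega), hcl2 ω (hB₁ ω hω) (r + 1) (by omega)]
  have hpt : ∀ ω, B₁ ω → |eval (bt F ω) (Dx (ptr F J ω))| ≤ K := by
    intro ω hω
    refine le_trans (le_of_eq ?_) (hn ω hω)
    rw [hDx]
    beta_reduce
    rw [hcl ω hω, hcl0 ω (hB₁ ω hω) (r + 1) (by omega), hcl2 ω (hB₁ ω hω) (r + 1) (by omega),
      map_sub, map_sub, map_mul, eval_C]
  obtain ⟨B₂, d1, d2, d3⟩ := hrel B₁ hB₁ hκ Dx Dl K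
    (fun y => by
      rw [hDx]
      exact hdeg _ _ _ (hdG₂ y _) (hdG₀ y _) (hCG y).1)
    (fun s => by
      rw [hDl]
      exact hdeg _ _ _ (hdH₂ s _) (hdH₀ _ _) (hCL _).1)
    (fun y => by
      rw [hDx]
      exact hdep _ _ _ (hpG₂ y _) (hpG₀ y _) (hCG y).2)
    (fun s => by
      rw [hDl]
      exact hdep _ _ _ (hpH₂ s _) (hpH₀ _ _) (hCL _).2) hK0 hpt
    (fun ω hω b _ => by
      rw [heq ω hω b, sub_self, abs_zero]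
      exact hK0.le)
  refine ⟨B₂, d1, d2, fun ω hω b hb => ?_⟩
  have h1 := d3 ω hω b hb
  rw [hDx] at h1
  beta_reduce at h1
  rw [map_sub, map_sub, map_mul, eval_C] at h1
  exact h1

/-- **The value is visible.** -/
theorem cp_vis (D r : ℕ) : ∃ C : ℕ, ∀ {m J : ℕ} {F : Fam m J} {c : ℕ → Fin m}
    {Dr K M₀ x x₀ e h q₀ su sn : ℕ} {κ : ℝ} {o₀ o₁ o₂ : ℕ} {g₀ g₁ g₂ : ℕ → ℕ} {B : F.Ω → Prop}
    {G₀ G₁ G₂ : PtT F → ℕ → MvPolynomial (Option (Fin m)) ℝ}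
    {H₀ H₁ H₂ : LnT F → ℕ → MvPolynomial (Option (Fin m)) ℝ} {cP : LnT F → Polynomial ℝ},
    ChP F c r D Dr K M₀ x x₀ e h q₀ su sn κ o₀ o₁ o₂ g₀ g₁ g₂ B G₀ G₁ G₂ H₀ H₁ H₂ cP →
    (∀ l < r + 1, e + g₂ l + (M₀ + x₀) + C ≤ J) → ∀ ω ν, B ω → B ν →
      ptr F J ω = ptr F J ν →
      |(cP (slam F o₁ ω)).eval (rt F o₁ ω) - (cP (slam F o₁ ν)).eval (rt F o₁ ν)| ≤
        2 ^ (C * (x + 1)) / 2 ^ M₀ := by
  obtain ⟨C₁, hcell⟩ := pd_cell D r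
  refine ⟨C₁ + 2, ?_⟩
  intro m J F c Dr K M₀ x x₀ e h q₀ su sn κ o₀ o₁ o₂ g₀ g₁ g₂ B G₀ G₁ G₂ H₀ H₁ H₂ cP W hJ ω ν hω
    hν hpt
  have hc1 : Set.InjOn c (Set.Iio (r + 1)) := W.hc.mono fun x hx => by
    rw [Set.mem_Iio] at hx ⊢
    omega
  obtain ⟨R, hR⟩ : ∃ R : PtT F → MvPolynomial (Option (Fin m)) ℝ, R = fun y =>
      Gno (c (r + 1)) J J (fun y => G₀ y (r + 1)) y - G₂ y (r + 1) := ⟨_, rfl⟩
  have hRd : ∀ y, (R y).totalDegree ≤ D := fun y => by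
    rw [hR]
    exact (totalDegree_sub _ _).trans (max_le (deg_Gno _ _ _ (W.ch0.degG y _)) (W.ch2.degG y _))
  have hRp : ∀ y, DepC c (r + 1) (R y) := fun y b b' h1 h2 => by
    rw [hR, map_sub, map_sub, W.ch2.depG y _ b b' h1 h2,
      depC_Gno _ _ _ (W.ch0.depG y _) b b' h1 h2]
  have hRe : ∀ (y : PtT F) (b : Option (Fin m) → ℝ), eval b (pderiv (some (c r)) (R y)) =
      eval b (pderiv (some (c r)) (G₀ y (r + 1))) -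
        eval b (pderiv (some (c r)) (G₂ y (r + 1))) := by
    intro y b
    rw [hR, map_sub, map_sub, pd_Gno]
  -- the visible number
  obtain ⟨Z, hZ⟩ : ∃ Z : F.Ω → ℝ, Z = fun ω => 2 ^ sn / 2 ^ su *
      -eval (bt F ω) (pderiv (some (c r)) (R (ptr F J ω))) := ⟨_, rfl⟩
  have hov : ∀ ω, B ω → |(cP (slam F o₁ ω)).eval (rt F o₁ ω) - Z ω| ≤ 2 ^ x / 2 ^ M₀ := by
    intro ω hω
    have h1 := W.v2 ω hω
    rw [← W.cl0 ω hω (r + 1) (by omega), ← W.cl2 ω hω (r + 1) (by omega)] at h1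
    refine le_trans (le_of_eq ?_) h1
    rw [hZ]
    beta_reduce
    rw [hRe]
    congr 1
    ring
  have hs : |Z ω - Z ν| ≤ 2 ^ (C₁ + x) / 2 ^ M₀ := by
    have h1 := hcell (v := M₀ + x₀) (M := 2 ^ x / 2 ^ q₀) hc1
      (W.ch2.mono (r' := r + 1) (by omega) (fun _ => le_rfl) le_rfl le_rfl) (fun l hl => by
      have := hJ l hl
      omega) (hRp (ptr F J ω)) (hRd _) (by positivity) ω ν hω hpt (fun b hb => by
        rw [hR, map_sub]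
        exact W.bl ω hω b hb)
    have e1 : Z ω - Z ν = 2 ^ sn / 2 ^ su *
        (eval (bt F ν) (pderiv (some (c r)) (R (ptr F J ω))) -
          eval (bt F ω) (pderiv (some (c r)) (R (ptr F J ω)))) := by
      rw [hZ]
      beta_reduce
      rw [← hpt]
      ring
    rw [e1, abs_mul, abs_of_pos (show (0 : ℝ) < 2 ^ sn / 2 ^ su by positivity)]
    refine (mul_le_mul_of_nonneg_left h1 (by positivity)).trans ?_
    have h2 : (2 : ℝ) ^ (g₂ r + sn) / 2 ^ (su + q₀) ≤ 2 ^ x₀ / 2 ^ 0 :=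
      num_e (by have := W.a0; omega)
    rw [pow_zero, div_one] at h2
    calc 2 ^ sn / 2 ^ su * (2 ^ C₁ * (2 ^ x / 2 ^ q₀) * 2 ^ g₂ r / 2 ^ (M₀ + x₀)) =
          2 ^ (C₁ + x) / 2 ^ (M₀ + x₀) * (2 ^ (g₂ r + sn) / 2 ^ (su + q₀)) := by
          rw [pow_add 2 (g₂ r), pow_add 2 su, pow_add 2 C₁]
          field_simp
      _ ≤ 2 ^ (C₁ + x) / 2 ^ (M₀ + x₀) * 2 ^ x₀ := mul_le_mul_of_nonneg_left h2 (by positivity)
      _ = _ := by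
          rw [pow_add 2 M₀]
          field_simp
  have h1 := hov ω hω
  have h2 := hov ν hν
  have e1 : (cP (slam F o₁ ω)).eval (rt F o₁ ω) - (cP (slam F o₁ ν)).eval (rt F o₁ ν) =
      ((cP (slam F o₁ ω)).eval (rt F o₁ ω) - Z ω) + (Z ω - Z ν) -
      ((cP (slam F o₁ ν)).eval (rt F o₁ ν) - Z ν) := by ring
  rw [e1]
  refine (abs_sub _ _).trans ((add_le_add ((abs_add_le _ _).trans (add_le_add h1 hs)) h2).trans ?_)
  have hM : (0 : ℝ) < 2 ^ M₀ := by positivity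
  rw [← add_div, ← add_div]
  refine div_le_div_of_nonneg_right ?_ hM.le
  have k1 : (2 : ℝ) ^ x ≤ 2 ^ (C₁ + x) := pow_le_pow_right₀ (by norm_num) (by omega)
  calc (2 : ℝ) ^ x + 2 ^ (C₁ + x) + 2 ^ x ≤ 2 ^ (C₁ + x + 2) := by
        rw [pow_add 2 (C₁ + x) 2]
        linarith [show (0 : ℝ) < 2 ^ (C₁ + x) by positivity]
    _ ≤ _ := pow_le_pow_right₀ (by norm_num) (by nlinarith)

/-- **The closed coefficient from a closed path.** -/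
theorem cf_path (m D K r : ℕ) (hD : 1 ≤ D) : ∃ C : ℕ, 1 ≤ C ∧ ∀ {J : ℕ} {F : Fam m J}
    {c : ℕ → Fin m} {Dr M₀ MB x x₀ e h q₀ su sn : ℕ} {κ : ℝ} {o₀ o₁ o₂ : ℕ}
    {g₀ g₁ g₂ : ℕ → ℕ} {B : F.Ω → Prop}
    {G₀ G₁ G₂ : PtT F → ℕ → MvPolynomial (Option (Fin m)) ℝ}
    {H₀ H₁ H₂ : LnT F → ℕ → MvPolynomial (Option (Fin m)) ℝ} {cP : LnT F → Polynomial ℝ},
    ChP F c r D Dr K M₀ x x₀ e h q₀ su sn κ o₀ o₁ o₂ g₀ g₁ g₂ B G₀ G₁ G₂ H₀ H₁ H₂ cP →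
    ∀ (v M : ℕ) (gu : ℕ → ℕ) {A : F.Ω → Prop} (hA : 0 < Pe F.p A),
    Sub A B → κ * Pe F.p B ≤ Pe F.p A / 8 →
    (∀ l < r + 1, e + g₂ l + (M₀ + x₀) + C ≤ J) → (∀ l < r, gu l ≤ g₀ l) →
    (∀ l < r, e + g₀ l + v + C ≤ J) → ∀ {ζ : Type} (ZL : LnT F → ζ) (ZG : PtT F → ζ)
    (Γ : ζ → Fin (r + 1) → ℝ) (S₀ G θ : ℝ), 0 < S₀ → 0 ≤ θ → (Fam.sub F A hA).Tm θ →
    C * (θ + 1) ≤ ((J : ℝ) - o₁) * Real.log 2 →
    (∀ ω, A ω → ZL (slam F o₁ ω) = ZG (ptr F J ω)) → (∀ z j, |Γ z j| ≤ G) →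
    (∀ ω, A ω → |(Polynomial.derivative (cP (slam F o₁ ω))).eval (rt F o₁ ω) -
      ∑ j, Γ (ZL (slam F o₁ ω)) j * (Polynomial.derivative
        (pth c o₁ gu (hco F o₀ o₁ H₀) (slam F o₁ ω) j)).eval (rt F o₁ ω)| ≤ S₀) →
    Real.exp (C * (θ + 1)) * S₀ + 2 ^ (C * (x + 1)) / 2 ^ M₀ + (r + 1 : ℕ) * G * (1 / 2 ^ v) ≤
      1 / (4 * 2 ^ M) → su + MB ≤ g₂ r + M + x →
    ∃ (B' : F.Ω → Prop) (CL : LnT F → MvPolynomial (Option (Fin m)) ℝ)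
      (CG : PtT F → MvPolynomial (Option (Fin m)) ℝ), Sub B' A ∧ Pe F.p A / 16 ≤ Pe F.p B' ∧
      CfP F c r D M su sn o₁ o₂ g₁ g₂ (2 ^ (h + 2 * x + 2) * (2 ^ su / 2 ^ sn))
        (2 ^ (h + 2 * x + 2) * (2 ^ g₂ r / 2 ^ (sn + MB))) B' G₀ G₁ G₂ cP CL CG := by
  classical
  obtain ⟨C₀, hC₀, hlin⟩ := chart_lin m r D K hD
  obtain ⟨C₁, hvis⟩ := cp_vis D r
  obtain ⟨C₂, hht⟩ := ht_cell D r
  obtain ⟨C₃, hC₃⟩ : ∃ C₃ : ℕ, C₃ = ⌈C₀⌉₊ := ⟨_, rfl⟩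
  have hC3 : C₀ ≤ C₃ := by rw [hC₃]; exact Nat.le_ceil _
  refine ⟨C₁ + C₂ + C₃ + 1, by omega, ?_⟩
  intro J F c Dr M₀ MB x x₀ e h q₀ su sn κ o₀ o₁ o₂ g₀ g₁ g₂ B G₀ G₁ G₂ H₀ H₁ H₂ cP W v M gu A hA
    hAB hκ hJT hgu hJ0 ζ ZL ZG Γ S₀ G θ hS₀ hθ hTm hJo hZ hΓ hder hsum hM
  have h1J : o₁ ≤ J := W.o12.trans W.oJ
  have hc0 : Set.InjOn c (Set.Iio r) := W.hc.mono fun x hx => by
    rw [Set.mem_Iio] at hx ⊢
    omega
  obtain ⟨C, hC⟩ : ∃ C, C = C₁ + C₂ + C₃ + 1 := ⟨_, rfl⟩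
  rw [← hC] at hJT hJ0 hJo hsum
  have hC0 : C₀ ≤ C := hC3.trans (by
    have : C₃ ≤ C := by omega
    exact_mod_cast this)
  have hθ1 : 0 ≤ θ + 1 := by linarith
  have hco : ∀ ω l, hco F o₀ o₁ H₀ (slam F o₁ ω) l = H₀ (slam F o₀ ω) l := by
    intro ω l
    unfold Pool.CR99.hco
    rw [co_slam F W.o01 h1J]
  -- the visible functions
  obtain ⟨cy, hcy⟩ := vis_of A (fun ω => (cP (slam F o₁ ω)).eval (rt F o₁ ω))
  obtain ⟨py, hpy⟩ := vis_of (β := Fin (r + 1) → ℝ) A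
    (fun ω j => (pth c o₁ gu (Pool.CR99.hco F o₀ o₁ H₀) (slam F o₁ ω) j).eval (rt F o₁ ω))
  have hc' : ∀ ω, A ω → |(cP (slam F o₁ ω)).eval (rt F o₁ ω) - cy (ptr F J ω)| ≤
      2 ^ (C * (x + 1)) / 2 ^ M₀ := by
    intro ω hω
    obtain ⟨ν, h1, h2, h3⟩ := hcy ω hω
    rw [h3]
    refine (hvis W (fun l hl => by
      have := hJT l hl
      omega) ω ν (hAB ω hω) (hAB ν h1) h2).trans ?_
    refine div_le_div_of_nonneg_right (pow_le_pow_right₀ (by norm_num) ?_) (by positivity)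
    exact Nat.mul_le_mul_right _ (by omega)
  have hp' : ∀ ω, A ω → ∀ j, |(pth c o₁ gu (Pool.CR99.hco F o₀ o₁ H₀) (slam F o₁ ω) j).eval
      (rt F o₁ ω) - py (ptr F J ω) j| ≤ 1 / 2 ^ v := by
    intro ω hω j
    obtain ⟨ν, h1, h2, h3⟩ := hpy ω hω
    rw [h3]
    refine Fin.cases ?_ (fun i => ?_) j
    · show |(Polynomial.X : Polynomial ℝ).eval _ - (Polynomial.X : Polynomial ℝ).eval _| ≤ _
      rw [Polynomial.eval_X, Polynomial.eval_X, rt_cell h2, sub_self, abs_zero]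
      positivity
    · show |(Polynomial.C (2 ^ gu i) * dv o₁ (fun s _ => Pool.CR99.hco F o₀ o₁ H₀ s i) (c i)
        (slam F o₁ ω) : Polynomial ℝ).eval _ - (Polynomial.C (2 ^ gu i) *
          dv o₁ (fun s _ => Pool.CR99.hco F o₀ o₁ H₀ s i) (c i) (slam F o₁ ν) :
            Polynomial ℝ).eval _| ≤ _
      have h4 := hht (v := v) (A := B) (G := G₀) (H := H₀) hc0
        (W.ch0.mono (r' := r) (by omega) (fun _ => le_rfl) le_rfl le_rfl) (fun l hl => by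
        have := hJ0 l hl
        omega) ω ν (hAB ω hω) h2 i i.2
      rw [Polynomial.eval_mul, Polynomial.eval_mul, Polynomial.eval_C, Polynomial.eval_C,
        eval_dv F h1J (fun s _ => Pool.CR99.hco F o₀ o₁ H₀ s i) ω (c i),
        eval_dv F h1J (fun s _ => Pool.CR99.hco F o₀ o₁ H₀ s i) ν (c i),
        ← mul_sub, abs_mul, abs_of_pos (show (0 : ℝ) < 2 ^ gu i by positivity), abs_sub_comm,
        hco, hco, ← W.cl0 ω (hAB ω hω) i (by omega), ← W.cl0 ν (hAB ν h1) i (by omega), ← h2]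
      calc 2 ^ gu i * |F.x ν (c i) - eval (bt F ν) (G₀ (ptr F J ω) i) -
            (F.x ω (c i) - eval (bt F ω) (G₀ (ptr F J ω) i))| ≤
            2 ^ g₀ i * (1 / 2 ^ v / 2 ^ g₀ i) := mul_le_mul
              (pow_le_pow_right₀ (by norm_num) (hgu i i.2)) h4 (abs_nonneg _) (by positivity)
        _ = 1 / 2 ^ v := by field_simp
  obtain ⟨B₁, κL, κG, CL, CG, b1, b2, hCLe, hCGe, hCLd, hCGd, hcl, hown, -⟩ := hlin J F A hA o₁ c gu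
    G₀ (Pool.CR99.hco F o₀ o₁ H₀) ZL ZG Γ cP cy py S₀
    (2 ^ (C * (x + 1)) / 2 ^ M₀) (1 / 2 ^ v) G θ M
    h1J W.deg (fun s l => W.ch0.degH _ l)
    (fun s l => W.ch0.depH _ l) W.ch0.degG W.ch0.depG
    (fun ω hω l hl => by
      rw [hco]
      exact W.cl0 ω (hAB ω hω) l (by omega)) hS₀ hθ hTm
    ((mul_le_mul_of_nonneg_right hC0 hθ1).trans hJo) hZ hΓ hc' hp' hder (by
      refine le_trans ?_ hsum
      have h1 : Real.exp (C₀ * (θ + 1)) ≤ Real.exp (C * (θ + 1)) :=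
        Real.exp_le_exp.2 (mul_le_mul_of_nonneg_right hC0 hθ1)
      have h2 := mul_le_mul_of_nonneg_right h1 hS₀.le
      linarith)
  have hB₁ : Sub B₁ B := fun ω hω => hAB ω (b1 ω hω)
  have hwo : ∀ ω, B₁ ω → |(cP (slam F o₁ ω)).eval (rt F o₁ ω) -
      eval (bt F ω) (CL (slam F o₁ ω))| ≤ 2 / 2 ^ M := by
    intro ω hω
    have h1 := (hown ω hω (rt F o₁ ω) (rt_mem F o₁ ω)).1
    rwa [ptw_rt F h1J] at h1
  have hsu : (0 : ℝ) < 2 ^ su / 2 ^ sn := by positivity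
  have hM1 : (1 : ℝ) ≤ 2 ^ M := one_le_pow₀ (by norm_num)
  have hM0 : (0 : ℝ) < 2 ^ M := by positivity
  have hx1 : (1 : ℝ) ≤ 2 ^ x := one_le_pow₀ (by norm_num)
  have e3 : (2 : ℝ) ^ (2 * x + 2) = 4 * (2 ^ x * 2 ^ x) := by
    rw [pow_add, two_mul, pow_add]
    norm_num
    ring
  have hxx : (2 : ℝ) ^ x ≤ 2 ^ x * 2 ^ x := le_mul_of_one_le_left (by positivity) hx1
  have hxx1 : (1 : ℝ) ≤ 2 ^ x * 2 ^ x := hx1.trans hxx
  -- the closeness at one window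
  have hcomb : ∀ (a a₀ k q E₁ E₂ : ℝ), |q - 2 ^ sn / 2 ^ su * (a - a₀)| ≤ E₁ → |q - k| ≤ E₂ →
      |a - a₀ - 2 ^ su / 2 ^ sn * k| ≤ 2 ^ su / 2 ^ sn * (E₁ + E₂) := by
    intro a a₀ k q E₁ E₂ h1 h2
    have e1 : a - a₀ - 2 ^ su / 2 ^ sn * k = 2 ^ su / 2 ^ sn *
        (-(q - 2 ^ sn / 2 ^ su * (a - a₀)) + (q - k)) := by
      field_simp
      ring
    rw [e1, abs_mul, abs_of_pos hsu]
    refine mul_le_mul_of_nonneg_left ((abs_add_le _ _).trans ?_) hsu.le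
    rw [abs_neg]
    exact add_le_add h1 h2
  have hMM : (2 : ℝ) ^ x / 2 ^ M₀ ≤ 1 / 2 ^ M := by
    have hG0 : (0 : ℝ) ≤ (r + 1 : ℕ) * G * (1 / 2 ^ v) := by
      have hne : Nonempty F.Ω := by
        by_contra hcon
        rw [not_nonempty_iff] at hcon
        have := F.isLaw.sum_one
        rw [Finset.univ_eq_empty, Finset.sum_empty] at this
        exact zero_ne_one this
      have hG : 0 ≤ G := (abs_nonneg _).trans (hΓ (ZL (slam F o₁ (Classical.choice hne))) 0)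
      positivity
    have hS : 0 ≤ Real.exp (C * (θ + 1)) * S₀ := mul_nonneg (Real.exp_pos _).le hS₀.le
    have h1 : (2 : ℝ) ^ (C * (x + 1)) / 2 ^ M₀ ≤ 1 / (4 * 2 ^ M) := by linarith
    have h2 : (2 : ℝ) ^ x ≤ 2 ^ (C * (x + 1)) :=
      pow_le_pow_right₀ (by norm_num) (by nlinarith)
    have h3 : (1 : ℝ) / (4 * 2 ^ M) ≤ 1 / 2 ^ M := one_div_le_one_div_of_le hM0 (by linarith)
    exact (div_le_div_of_nonneg_right h2 (by positivity)).trans (h1.trans h3)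
  -- the first window
  obtain ⟨K₁, hK₁⟩ : ∃ K : ℝ, K = 2 ^ (2 * x + 2) * (2 ^ su / 2 ^ sn) := ⟨_, rfl⟩
  obtain ⟨B₂, c1, c2, c3⟩ := cf_boxP (F := F) (K := K₁) (su := su) (sn := sn) W.o01
    le_rfl h1J W.Dr1 W.ch0.degG W.ch1.degG W.ch0.degH W.ch1.degH W.ch0.depG W.ch1.depG W.ch0.depH
    W.ch1.depH hCLd hCGd W.cl0 W.cl1 W.rel1 hB₁ (by linarith [Pe_nonneg F.isLaw A]) hcl
    (fun ω hω => by
      refine (hcomb _ _ _ _ _ _ (W.v1 ω (hB₁ ω hω)) (hwo ω hω)).trans ?_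
      have h6 : (2 : ℝ) / 2 ^ M ≤ 2 := by
        rw [div_le_iff₀ hM0]
        linarith
      have h7 : (2 : ℝ) ^ x + 2 / 2 ^ M ≤ 4 * (2 ^ x * 2 ^ x) := by nlinarith
      rw [hK₁, e3, mul_comm (4 * ((2 : ℝ) ^ x * 2 ^ x))]
      exact mul_le_mul_of_nonneg_left h7 hsu.le) (by rw [hK₁]; positivity)
  have hB₂ : Sub B₂ B := fun ω hω => hB₁ ω (c1 ω hω)
  -- the second window
  obtain ⟨K₂, hK₂⟩ : ∃ K : ℝ, K = 2 ^ (2 * x + 2) * (2 ^ g₂ r / 2 ^ (sn + MB)) := ⟨_, rfl⟩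
  obtain ⟨B₃, d1, d2, d3⟩ := cf_boxP (F := F) (K := K₂) (su := su) (sn := sn) W.o01
    W.o12 W.oJ W.Dr1 W.ch0.degG W.ch2.degG W.ch0.degH W.ch2.degH W.ch0.depG W.ch2.depG W.ch0.depH
    W.ch2.depH hCLd hCGd W.cl0 W.cl2 W.rel2 hB₂ (by linarith [Pe_nonneg F.isLaw A])
    (fun ω hω => hcl ω (c1 ω hω)) (fun ω hω => by
      refine (hcomb _ _ _ _ _ _ (W.v2 ω (hB₂ ω hω)) (hwo ω (c1 ω hω))).trans ?_
      obtain ⟨Y, hY⟩ : ∃ Y : ℝ, Y = 2 ^ g₂ r / 2 ^ (sn + MB) := ⟨_, rfl⟩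
      have hY0 : 0 < Y := by rw [hY]; positivity
      have h4 : (2 : ℝ) ^ su / 2 ^ (sn + M) ≤ 2 ^ (g₂ r + x) / 2 ^ (sn + MB) :=
        num_e (by omega)
      have e2 : (2 : ℝ) ^ (g₂ r + x) / 2 ^ (sn + MB) = 2 ^ x * Y := by
        rw [hY, pow_add]
        ring
      rw [e2] at h4
      have h5 : (2 : ℝ) ^ su / 2 ^ sn * (2 ^ x / 2 ^ M₀ + 2 / 2 ^ M) ≤ 3 * (2 ^ x * Y) := by
        have h6 : (2 : ℝ) ^ x / 2 ^ M₀ + 2 / 2 ^ M ≤ 3 * (1 / 2 ^ M) := by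
          have : (2 : ℝ) / 2 ^ M = 2 * (1 / 2 ^ M) := by ring
          rw [this]
          linarith
        refine (mul_le_mul_of_nonneg_left h6 hsu.le).trans ?_
        have e4 : (2 : ℝ) ^ su / 2 ^ sn * (3 * (1 / 2 ^ M)) = 3 * (2 ^ su / 2 ^ (sn + M)) := by
          rw [pow_add]
          field_simp
        rw [e4]
        exact mul_le_mul_of_nonneg_left h4 (by norm_num)
      have h7 : 2 ^ x * Y ≤ 2 ^ x * (2 ^ x * Y) := by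
        have := mul_le_mul_of_nonneg_right hx1 (show (0 : ℝ) ≤ 2 ^ x * Y by positivity)
        linarith
      have h8 : 0 < 2 ^ x * (2 ^ x * Y) := by positivity
      rw [hK₂, ← hY, e3]
      nlinarith) (by rw [hK₂]; positivity)
  refine ⟨B₃, CL, CG, fun ω hω => b1 ω (c1 ω (d1 ω hω)), by linarith, ?_⟩
  refine { dL := fun s => (hCLd s).1, dG := fun y => (hCGd y).1, pL := fun s => (hCLd s).2,
           pG := fun y => (hCGd y).2, clo := fun ω hω => hcl ω (c1 ω (d1 ω hω)),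
           own := fun ω hω τ hτ => (hown ω (c1 ω (d1 ω hω)) τ hτ).1, box1 := ?_, box2 := ?_ }
  · intro ω hω b hb
    refine (c3 ω (d1 ω hω) b hb).trans (le_of_eq ?_)
    rw [hK₁, ← mul_assoc, ← pow_add, show h + (2 * x + 2) = h + 2 * x + 2 by ring]
  · intro ω hω b hb
    refine (d3 ω hω b hb).trans (le_of_eq ?_)
    rw [hK₂, ← mul_assoc, ← pow_add, show h + (2 * x + 2) = h + 2 * x + 2 by ring]

end Pool.CR99
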