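import Pool.Agent.H99.D2.Geo
import Pool.Agent.H99.D2.Chi
import Pool.Agent.H57.AVG.Hi

/-!
# The slope along a straight line, from many straight lines in one ball

`fb2`: a polynomial on the plane through a line in the direction of one coordinate. `hes_one`: if the
restriction is affine on many lines of the plane, then the derivative in the direction of the
coordinate has a small velocity along the line. `hes_cpy`: the same for lines of the family over the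
same charts.
-/

set_option autoImplicit false

namespace Pool.CR99

open Finset Real MvPolynomial
open Pool.Agent.H49.Ent Pool.Agent.H32.Dense Pool.STK Pool.KA Pool.KSAT Pool.K2S Pool.PB Pool.S6C
open Pool.GEN Pool.CHT Pool.CHX Pool.ISO Pool.D2R Pool.D2G30 Pool.V1E
open Pool.FLF (Fam.sub)
open Pool.PB.Trl (rt rt_mem t_rt)

variable {m J : ℕ}

/-! ### The plane -/

/-- The plane through the line `s` in the direction of the coordinate `k`. -/
noncomputable def pl2 {ζ : Type} (a : ℕ) (s : ((Fin m → ℝ) × (Fin m → ℝ)) × ζ × ℕ) (k : Fin m)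
    (U : ℝ) (o : Option (Fin m)) : MvPolynomial (Fin 2) ℝ :=
  C ((lc a s o).coeff 0) + C ((lc a s o).coeff 1) * X 0 + if o = some k then C U * X 1 else 0

/-- The restriction to the plane. -/
noncomputable def fb2 {ζ : Type} (a : ℕ) (s : ((Fin m → ℝ) × (Fin m → ℝ)) × ζ × ℕ) (k : Fin m)
    (U : ℝ) (Q : MvPolynomial (Option (Fin m)) ℝ) : MvPolynomial (Fin 2) ℝ := bind₁ (pl2 a s k U) Q

/-- The points of the plane. -/
noncomputable def pt2 {ζ : Type} (a : ℕ) (s : ((Fin m → ℝ) × (Fin m → ℝ)) × ζ × ℕ) (k : Fin m)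
    (τ z : ℝ) (o : Option (Fin m)) : ℝ := (lc a s o).eval τ + if o = some k then z else 0

theorem eval_pl2 {ζ : Type} (a : ℕ) (s : ((Fin m → ℝ) × (Fin m → ℝ)) × ζ × ℕ) (k : Fin m)
    (U τ y : ℝ) (o : Option (Fin m)) :
    eval ![τ, y] (pl2 a s k U o) = pt2 a s k τ (U * y) o := by
  unfold pl2 pt2
  have h1 := Polynomial.eq_X_add_C_of_natDegree_le_one (natDegree_lc a s o)
  have h2 : (lc a s o).eval τ = (lc a s o).coeff 0 + (lc a s o).coeff 1 * τ := by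
    conv_lhs => rw [h1]
    simp only [Polynomial.eval_add, Polynomial.eval_mul, Polynomial.eval_C, Polynomial.eval_X]
    ring
  rw [h2]
  by_cases h : o = some k
  · rw [if_pos h, if_pos h]
    simp
  · rw [if_neg h, if_neg h]
    simp

theorem eval_fb2 {ζ : Type} (a : ℕ) (s : ((Fin m → ℝ) × (Fin m → ℝ)) × ζ × ℕ) (k : Fin m)
    (U : ℝ) (Q : MvPolynomial (Option (Fin m)) ℝ) (τ y : ℝ) :
    eval ![τ, y] (fb2 a s k U Q) = eval (pt2 a s k τ (U * y)) Q := by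
  unfold fb2
  have h : eval ![τ, y] (bind₁ (pl2 a s k U) Q) =
      eval (fun o => eval ![τ, y] (pl2 a s k U o)) Q := by
    rw [← MvPolynomial.coe_aeval_eq_eval, ← MvPolynomial.coe_aeval_eq_eval]
    exact MvPolynomial.aeval_bind₁ _ _ _
  rw [h]
  congr 1
  congr 1
  funext o
  exact eval_pl2 a s k U τ y o

theorem deg_bind_one {σ τ : Type} (f : σ → MvPolynomial τ ℝ)
    (hf : ∀ i, (f i).totalDegree ≤ 1) (G : MvPolynomial σ ℝ) :
    (bind₁ f G).totalDegree ≤ G.totalDegree := by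
  classical
  conv_lhs => rw [G.as_sum, map_sum]
  refine (totalDegree_finsetSum _ _).trans (Finset.sup_le fun s hs => ?_)
  rw [bind₁_monomial]
  refine (totalDegree_mul _ _).trans ?_
  rw [totalDegree_C, zero_add]
  refine (totalDegree_finsetProd _ _).trans ?_
  refine le_trans ?_ (le_totalDegree hs)
  rw [Finsupp.sum]
  refine Finset.sum_le_sum fun i _ => ?_
  refine (totalDegree_pow _ _).trans ?_
  calc s i * (f i).totalDegree ≤ s i * 1 := Nat.mul_le_mul_left _ (hf i)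
    _ = s i := mul_one _

theorem deg_fb2 {ζ : Type} (a : ℕ) (s : ((Fin m → ℝ) × (Fin m → ℝ)) × ζ × ℕ) (k : Fin m)
    (U : ℝ) (Q : MvPolynomial (Option (Fin m)) ℝ) :
    (fb2 a s k U Q).totalDegree ≤ Q.totalDegree := by
  refine deg_bind_one _ (fun o => ?_) Q
  have hC : ∀ (x : ℝ) (j : Fin 2), (C x * X j : MvPolynomial (Fin 2) ℝ).totalDegree ≤ 1 := by
    intro x j
    refine (totalDegree_mul _ _).trans ?_
    rw [totalDegree_C, totalDegree_X]
  unfold pl2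
  refine (totalDegree_add _ _).trans (max_le ((totalDegree_add _ _).trans (max_le ?_ (hC _ _))) ?_)
  · rw [totalDegree_C]
    exact Nat.zero_le _
  · split_ifs
    · exact hC _ _
    · rw [totalDegree_zero]
      exact Nat.zero_le _

theorem pd_bind {σ τ : Type} [Fintype σ] (f : σ → MvPolynomial τ ℝ)
    (Q : MvPolynomial σ ℝ) (c : τ) :
    pderiv c (bind₁ f Q) = ∑ l, bind₁ f (pderiv l Q) * pderiv c (f l) := by
  classical
  induction Q using MvPolynomial.induction_on with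
  | C a =>
    rw [bind₁_C_right, pderiv_C]
    refine (Finset.sum_eq_zero fun l _ => ?_).symm
    rw [pderiv_C, map_zero, zero_mul]
  | add p q hp hq =>
    rw [map_add, map_add, hp, hq, ← Finset.sum_add_distrib]
    refine Finset.sum_congr rfl fun l _ => ?_
    rw [map_add, map_add, add_mul]
  | mul_X p i hp =>
    rw [map_mul, bind₁_X_right, pderiv_mul, hp, Finset.sum_mul]
    have e : ∀ l, bind₁ f (pderiv l (p * X i)) * pderiv c (f l) =
        bind₁ f (pderiv l p) * pderiv c (f l) * f i +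
          bind₁ f p * (if l = i then pderiv c (f l) else 0) := by
      intro l
      rw [pderiv_mul, pderiv_X, map_add, map_mul, map_mul, bind₁_X_right]
      by_cases h : l = i
      · subst h
        rw [Pi.single_eq_same, map_one, if_pos rfl]
        ring
      · rw [Pi.single_eq_of_ne (Ne.symm h), map_zero, if_neg h]
        ring
    rw [Finset.sum_congr rfl fun l _ => e l, Finset.sum_add_distrib, ← Finset.mul_sum,
      Finset.sum_ite_eq' univ i fun l => pderiv c (f l), if_pos (Finset.mem_univ i)]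

/-- The derivative in the direction `y` of the restriction. -/
theorem pd_fb2 {ζ : Type} (a : ℕ) (s : ((Fin m → ℝ) × (Fin m → ℝ)) × ζ × ℕ) (k : Fin m)
    (U : ℝ) (Q : MvPolynomial (Option (Fin m)) ℝ) (τ : ℝ) :
    eval ![τ, 0] (pderiv 1 (fb2 a s k U Q)) =
      U * (MvPolynomial.aeval (lc a s) (pderiv (some k) Q)).eval τ := by
  classical
  unfold fb2
  rw [pd_bind, map_sum, Finset.sum_eq_single (some k)]
  · have h1 : pderiv (1 : Fin 2) (pl2 a s k U (some k)) = C U := by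
      unfold pl2
      rw [if_pos rfl]
      simp [pderiv_X]
    rw [h1, map_mul, eval_C]
    have h2 : eval ![τ, 0] (bind₁ (pl2 a s k U) (pderiv (some k) Q)) =
        eval (pt2 a s k τ (U * 0)) (pderiv (some k) Q) := eval_fb2 a s k U _ τ 0
    rw [h2, Pool.KBX.eval_aeval_poly, mul_comm]
    congr 2
    congr 1
    funext o
    unfold pt2
    rw [mul_zero]
    split_ifs <;> rw [add_zero]
  · intro o _ ho
    have h1 : pderiv (1 : Fin 2) (pl2 a s k U o) = 0 := by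
      unfold pl2
      rw [if_neg ho]
      simp [pderiv_X]
    rw [h1, mul_zero, map_zero]
  · intro h
    exact absurd (Finset.mem_univ _) h

/-- The coefficients on the line `y = 0`. -/
theorem coeff_lin0 (g : MvPolynomial (Fin 2) ℝ) (n : ℕ) :
    (lin2 0 0 g).coeff n = coeff (Finsupp.single 0 n) g := by
  classical
  have hz : (Polynomial.C (0 : ℝ) + Polynomial.C 0 * Polynomial.X : Polynomial ℝ) = 0 := by simp
  rw [lin2_eq, Polynomial.finsetSum_coeff]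
  simp only [hz]
  by_cases h : Finsupp.single 0 n ∈ g.support
  · rw [Finset.sum_eq_single (Finsupp.single 0 n)]
    · simp [Polynomial.coeff_C_mul]
    · intro d hd hne
      rw [Polynomial.coeff_C_mul]
      rcases Nat.eq_zero_or_pos (d 1) with h1 | h1
      · have h2 : d 0 ≠ n := by
          intro h2
          apply hne
          ext i
          refine Fin.cases ?_ (fun j => ?_) i
          · simpa using h2
          · have : j = 0 := Subsingleton.elim _ _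
            subst this
            simpa using h1
        rw [h1, pow_zero, mul_one, Polynomial.coeff_X_pow, if_neg (Ne.symm h2), mul_zero]
      · rw [zero_pow (by omega), mul_zero, Polynomial.coeff_zero, mul_zero]
    · intro h'
      exact absurd h h'
  · rw [notMem_support_iff.mp h]
    refine Finset.sum_eq_zero fun d hd => ?_
    rw [Polynomial.coeff_C_mul]
    rcases Nat.eq_zero_or_pos (d 1) with h1 | h1
    · have h2 : d 0 ≠ n := by
        intro h2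
        apply h
        have : d = Finsupp.single 0 n := by
          ext i
          refine Fin.cases ?_ (fun j => ?_) i
          · simpa using h2
          · have : j = 0 := Subsingleton.elim _ _
            subst this
            simpa using h1
        rwa [this] at hd
      rw [h1, pow_zero, mul_one, Polynomial.coeff_X_pow, if_neg (Ne.symm h2), mul_zero]
    · rw [zero_pow (by omega), mul_zero, Polynomial.coeff_zero, mul_zero]

/-- The derivative from the higher coefficients. -/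
theorem der_hi {P : Polynomial ℝ} {d : ℕ} {b : ℝ} (hd : P.natDegree ≤ d)
    (hb : ∀ n, 1 ≤ n → |P.coeff n| ≤ b) {p : ℝ} (hp : |p| ≤ 1) :
    |P.derivative.eval p| ≤ (d + 1) * ((d + 1) * b) := by
  have hb0 : 0 ≤ b := (abs_nonneg _).trans (hb 1 le_rfl)
  rw [Polynomial.eval_eq_sum_range' (n := d + 1)
    (lt_of_le_of_lt (Polynomial.natDegree_derivative_le P) (by omega))]
  refine (Finset.abs_sum_le_sum_abs _ _).trans ?_
  have h : ∀ i ∈ range (d + 1), |P.derivative.coeff i * p ^ i| ≤ (d + 1) * b := by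
    intro i hi
    rw [mem_range] at hi
    rw [Polynomial.coeff_derivative, abs_mul, abs_mul, abs_pow]
    have h1 : |p| ^ i ≤ 1 := pow_le_one₀ (abs_nonneg _) hp
    have h2 : |(i : ℝ) + 1| ≤ d + 1 := by
      rw [abs_of_nonneg (by positivity)]
      have : (i : ℝ) ≤ d := by exact_mod_cast Nat.lt_succ_iff.mp hi
      linarith
    have h3 := hb (i + 1) (by omega)
    calc |P.coeff (i + 1)| * |(i : ℝ) + 1| * |p| ^ i ≤ b * (d + 1) * 1 := by
          gcongr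
      _ = (d + 1) * b := by ring
  refine (Finset.sum_le_sum h).trans (le_of_eq ?_)
  rw [Finset.sum_const, card_range, nsmul_eq_mul]
  push_cast
  ring

/-- **The velocity of the slope along a straight line**, from many straight lines in the plane. -/
theorem hes_one (D : ℕ) : ∃ C : ℝ, 1 ≤ C ∧ ∀ {m : ℕ} {ζ : Type} (a : ℕ)
    (s : ((Fin m → ℝ) × (Fin m → ℝ)) × ζ × ℕ) (k : Fin m) (Q : MvPolynomial (Option (Fin m)) ℝ)
    (g : ℕ), Q.totalDegree ≤ D → ∀ (K β E : ℝ) (α κ : ℕ → ℝ), 1 ≤ K → 0 < β → β ≤ 1 → 0 ≤ E →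
    (∀ i ≤ D, |α i| ≤ K) → (∀ i ≤ D, |κ i| ≤ K) →
    (∀ i ≤ D, ∀ j ≤ D, i ≠ j → β ≤ |κ i - κ j|) →
    (∀ i ≤ D, ∃ A B : ℝ, ∀ τ ∈ Set.Icc (0 : ℝ) 1,
      |eval (pt2 a s k τ ((α i + κ i * τ) / 2 ^ g)) Q - eval (pt2 a s k τ 0) Q - A - B * τ| ≤
        E) →
    ∀ τ ∈ Set.Icc (0 : ℝ) 1,
      |(Polynomial.derivative (MvPolynomial.aeval (lc a s) (pderiv (some k) Q))).eval τ| ≤
        C * (K / β) ^ (2 * D * D) * E * 2 ^ g := by
  classical
  obtain ⟨C, hC, hgeo⟩ := geo D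
  have hD1 : (1 : ℝ) ≤ D + 1 := by
    have : (0 : ℝ) ≤ D := Nat.cast_nonneg D
    linarith
  refine ⟨(D + 1) * ((D + 1) * C), one_le_mul_of_one_le_of_one_le hD1
    (one_le_mul_of_one_le_of_one_le hD1 hC), ?_⟩
  intro m ζ a s k Q g hQ K β E α κ hK hβ hβ1 hE hα hκ hsep hl τ hτ
  obtain ⟨f, hf⟩ : ∃ f, f = fb2 a s k (1 / 2 ^ g) Q - fb2 a s k 0 Q := ⟨_, rfl⟩
  have hfd : f.totalDegree ≤ D := by
    rw [hf]
    exact (totalDegree_sub _ _).trans (max_le ((deg_fb2 a s k _ Q).trans hQ)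
      ((deg_fb2 a s k _ Q).trans hQ))
  have h1 := hgeo f hfd K β E α κ hK hβ hβ1 hE hα hκ hsep (by
    intro i hi
    obtain ⟨A, B, hAB⟩ := hl i hi
    refine ⟨A, B, fun τ hτ => ?_⟩
    have h2 := hAB τ hτ
    rw [hf, map_sub, eval_fb2, eval_fb2]
    have e1 : 1 / 2 ^ g * (α i + κ i * τ) = (α i + κ i * τ) / 2 ^ g := by ring
    have e2 : 0 * (α i + κ i * τ) = 0 := by ring
    rw [e1, e2]
    exact h2)
  obtain ⟨P, hP⟩ : ∃ P, P = MvPolynomial.aeval (lc a s) (pderiv (some k) Q) := ⟨_, rfl⟩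
  have hPl : lin2 0 0 (pderiv 1 f) = Polynomial.C (1 / 2 ^ g) * P := by
    refine Polynomial.funext fun x => ?_
    rw [eval_lin2, Polynomial.eval_mul, Polynomial.eval_C, hP]
    have e1 : (0 : ℝ) + 0 * x = 0 := by ring
    rw [e1, hf, map_sub, map_sub, pd_fb2 a s k (1 / 2 ^ g) Q x, pd_fb2 a s k 0 Q x, zero_mul,
      sub_zero]
  have hb : ∀ n, 1 ≤ n → |(lin2 0 0 (pderiv 1 f)).coeff n| ≤
      C * (K / β) ^ (2 * D * D) * E := by
    intro n hn
    rw [coeff_lin0, coeff_pderiv]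
    have h3 := h1 (Finsupp.single 0 n + Finsupp.single 1 1) (by
      rw [deg_two]
      simp
      omega)
    simpa using h3
  have hnd : (lin2 0 0 (pderiv 1 f)).natDegree ≤ D := by
    rw [hPl, hP]
    refine (Polynomial.natDegree_C_mul_le _ _).trans ?_
    have h3 := natDegree_aeval_mul (pderiv (some k) Q) (lc a s) (E := 1)
      (fun o => natDegree_lc a s o) (D := D) ((pd_deg _ _).trans hQ)
    rwa [mul_one] at h3
  have h2 := der_hi hnd hb (show |τ| ≤ 1 by rw [abs_of_nonneg hτ.1]; exact hτ.2)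
  rw [hPl, Polynomial.derivative_C_mul, Polynomial.eval_mul, Polynomial.eval_C, abs_mul,
    abs_of_pos (show (0 : ℝ) < 1 / 2 ^ g by positivity)] at h2
  rw [← hP]
  have hg : (0 : ℝ) < 2 ^ g := by positivity
  have h4 : |(Polynomial.derivative P).eval τ| =
      2 ^ g * (1 / 2 ^ g * |(Polynomial.derivative P).eval τ|) := by
    field_simp
  rw [h4]
  refine (mul_le_mul_of_nonneg_left h2 hg.le).trans (le_of_eq ?_)
  ring

/-! ### Lines of the family over the same charts -/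

/-- The times of the window. -/
theorem ptw_tm {F : Fam m J} {a : ℕ} (ha : a ≤ J) (ω : F.Ω) {τ : ℝ} (hτ : τ ∈ Set.Icc (0 : ℝ) 1) :
    |ptw F a ω τ none - F.t ω| ≤ 1 / 2 ^ a := by
  have h1 := congrFun (ptw_rt F ha ω) none
  have e1 : bt F ω none = F.t ω := rfl
  rw [e1] at h1
  rw [← h1]
  have e2 : ∀ x : ℝ, ptw F a ω x none = ((slam F a ω).2.2 : ℝ) / 2 ^ a + 1 / 2 ^ a * x := by
    intro x
    unfold ptw
    simp only [lc, Polynomial.eval_add, Polynomial.eval_mul, Polynomial.eval_C, Polynomial.eval_X]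
  rw [e2, e2, add_sub_add_left_eq_sub, ← mul_sub, abs_mul, abs_of_pos (show (0 : ℝ) < 1 / 2 ^ a by
    positivity)]
  have h2 := rt_mem F a ω
  have h3 : |τ - rt F a ω| ≤ 1 := by
    rw [abs_le]
    constructor <;> linarith [hτ.1, hτ.2, h2.1, h2.2]
  calc 1 / 2 ^ a * |τ - rt F a ω| ≤ 1 / 2 ^ a * 1 := mul_le_mul_of_nonneg_left h3 (by positivity)
    _ = 1 / 2 ^ a := mul_one _

/-- The own path. -/
theorem dv_ptw {F : Fam m J} {a : ℕ} (ω : F.Ω) (H : LnT F → MvPolynomial (Option (Fin m)) ℝ)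
    (k : Fin m) (τ : ℝ) : (dv a (fun s _ => H s) k (slam F a ω)).eval τ =
      ptw F a ω τ (some k) - eval (ptw F a ω τ) (H (slam F a ω)) := by
  unfold dv
  rw [Polynomial.eval_sub, aeval_lc]
  rfl

/-- The corrected polynomial is the old one up to a constant. -/
theorem gno_const {ζ : Type} (k : Fin m) (J r : ℕ)
    (G : (Fin m → ℤ) × (ℕ × ζ) → MvPolynomial (Option (Fin m)) ℝ)
    (y : (Fin m → ℤ) × (ℕ × ζ)) : ∃ γ : ℝ, ∀ b, eval b (Gno k J r G y) = eval b (G y) + γ :=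
  ⟨(y.1 k : ℝ) / 2 ^ r - eval (bho J r y) (G y), fun b => by
    unfold Gno
    rw [map_add, eval_C]⟩

/-- The derivatives of the corrected polynomial. -/
theorem pd_gno {ζ : Type} (k : Fin m) (J r : ℕ)
    (G : (Fin m → ℤ) × (ℕ × ζ) → MvPolynomial (Option (Fin m)) ℝ)
    (y : (Fin m → ℤ) × (ℕ × ζ)) (o : Option (Fin m)) :
    pderiv o (Gno k J r G y) = pderiv o (G y) := by
  unfold Gno
  rw [map_add, pderiv_C, add_zero]

/-- **The velocity of the slope**, from many lines of the family over the same charts. -/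
theorem hes_cpy (D r : ℕ) : ∃ C : ℕ, ∀ {m J : ℕ} {F : Fam m J} {c : ℕ → Fin m}
    {o₀ o₂ x v v₂ q₀ qu : ℕ} {g₂ : ℕ → ℕ}
    {G₀ G₂ : PtT F → ℕ → MvPolynomial (Option (Fin m)) ℝ}
    {H₀ H₂ : LnT F → ℕ → MvPolynomial (Option (Fin m)) ℝ} {ω : F.Ω} {ν : ℕ → F.Ω},
    Set.InjOn c (Set.Iio (r + 2)) → o₀ ≤ o₂ → o₂ ≤ J →
    (∀ y l, (G₀ y l).totalDegree ≤ D) → (∀ y l, (G₂ y l).totalDegree ≤ D) →
    (∀ y l, DepC c l (G₀ y l)) → (∀ y l, DepC c l (G₂ y l)) →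
    (∀ l < r + 2, H₀ (slam F o₀ ω) l = G₀ (ptr F J ω) l) →
    (∀ l < r + 2, H₂ (slam F o₂ ω) l = G₂ (ptr F J ω) l) →
    (∀ i ≤ D, ∀ l < r + 2, H₀ (slam F o₀ (ν i)) l = G₀ (ptr F J ω) l) →
    (∀ i ≤ D, ∀ l < r + 2, H₂ (slam F o₂ (ν i)) l = G₂ (ptr F J ω) l) →
    (∀ i ≤ D, (slam F o₂ (ν i)).2.2 = (slam F o₂ ω).2.2) →
    (∀ l < r + 2, ∀ τ ∈ Set.Icc (0 : ℝ) 1,
      |(dv o₂ (fun s _ => H₂ s l) (c l) (slam F o₂ ω)).eval τ| ≤ 2 ^ x / 2 ^ g₂ l) →
    (∀ i ≤ D, ∀ l < r + 2, ∀ τ ∈ Set.Icc (0 : ℝ) 1,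
      |(dv o₂ (fun s _ => H₂ s l) (c l) (slam F o₂ (ν i))).eval τ| ≤ 2 ^ x / 2 ^ g₂ l) →
    (∀ i ≤ D, ∀ l < r, ∀ τ ∈ Set.Icc (0 : ℝ) 1,
      |(dv o₂ (fun s _ => H₂ s l) (c l) (slam F o₂ (ν i))).eval τ -
        (dv o₂ (fun s _ => H₂ s l) (c l) (slam F o₂ ω)).eval τ| ≤ 1 / 2 ^ (g₂ l + v)) →
    ∀ (K β : ℝ) (α κ : ℕ → ℝ), 1 ≤ K → 0 < β → β ≤ 1 → (∀ i ≤ D, |α i| ≤ K) →
    (∀ i ≤ D, |κ i| ≤ K) → (∀ i ≤ D, ∀ j ≤ D, i ≠ j → β ≤ |κ i - κ j|) →
    (∀ i ≤ D, ∀ τ ∈ Set.Icc (0 : ℝ) 1,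
      |(dv o₂ (fun s _ => hco F o₀ o₂ H₀ s r) (c r) (slam F o₂ (ν i))).eval τ -
        (dv o₂ (fun s _ => hco F o₀ o₂ H₀ s r) (c r) (slam F o₂ ω)).eval τ -
        (α i + κ i * τ) / 2 ^ g₂ r| ≤ 1 / 2 ^ (g₂ r + v)) →
    (∀ i ≤ D, ∃ A B : ℝ, ∀ τ ∈ Set.Icc (0 : ℝ) 1,
      |(dv o₂ (fun s _ => hco F o₀ o₂ H₀ s (r + 1)) (c (r + 1)) (slam F o₂ (ν i))).eval τ -
        (dv o₂ (fun s _ => hco F o₀ o₂ H₀ s (r + 1)) (c (r + 1)) (slam F o₂ ω)).eval τ -
        A - B * τ| ≤ 2 ^ x / 2 ^ g₂ (r + 1)) →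
    (∀ b, NBx c (G₂ (ptr F J ω)) g₂ o₂ (F.t ω) r b →
      |eval b (Gno (c r) J J (fun y => G₀ y r) (ptr F J ω)) - eval b (G₂ (ptr F J ω) r)| ≤
        2 ^ x / 2 ^ qu) →
    (∀ b, NBx c (G₂ (ptr F J ω)) g₂ o₂ (F.t ω) (r + 1) b →
      |eval b (Gno (c (r + 1)) J J (fun y => G₀ y (r + 1)) (ptr F J ω)) -
        eval b (G₂ (ptr F J ω) (r + 1))| ≤ 2 ^ x / 2 ^ q₀) →
    g₂ r + v₂ ≤ qu + v → v₂ ≤ v → g₂ (r + 1) ≤ q₀ + v₂ →
    ∀ τ ∈ Set.Icc (0 : ℝ) 1, |(Polynomial.derivative (MvPolynomial.aeval (lc o₂ (slam F o₂ ω))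
      (pderiv (some (c r)) (G₂ (ptr F J ω) (r + 1) - G₀ (ptr F J ω) (r + 1))))).eval τ| ≤
        (K / β) ^ (2 * D * D) * (2 ^ (C * (x + 1)) * (2 ^ g₂ r / 2 ^ g₂ (r + 1))) := by
  classical
  obtain ⟨C₁, hC₁, hone⟩ := hes_one D
  obtain ⟨c₀, D₁, hD₁, hlip⟩ := Pool.AVG57.nbx_lipd (r + 2) (fun _ => D)
  obtain ⟨C₂, hC₂⟩ := pow_unbounded_of_one_lt C₁ (one_lt_two (α := ℝ))
  refine ⟨C₂ + c₀ * (1 + D₁) + (D₁ + 2) * (D₁ + 2) + 8, ?_⟩
  intro m J F c o₀ o₂ x v v₂ q₀ qu g₂ G₀ G₂ H₀ H₂ ω ν hc h02 h2J dG₀ dG₂ pG₀ pG₂ e0 e2 e0ν e2ν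
    htn hown hownν hV K β α κ hK hβ hβ1 hα hκ hsep hu hN hblu hbl n1 n2 n3 τ₀ hτ₀
  have hcr : Set.InjOn c (Set.Iio r) := hc.mono fun y hy => by
    rw [Set.mem_Iio] at hy ⊢
    omega
  have hcr1 : Set.InjOn c (Set.Iio (r + 1)) := hc.mono fun y hy => by
    rw [Set.mem_Iio] at hy ⊢
    omega
  have hne : ∀ l < r, c l ≠ c r := fun l hl he => by
    have := hc (Set.mem_Iio.2 (show l < r + 2 by omega)) (Set.mem_Iio.2 (by omega)) he
    omega
  obtain ⟨Qn, hQn⟩ : ∃ Qn, Qn = G₂ (ptr F J ω) (r + 1) -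
    Gno (c (r + 1)) J J (fun y => G₀ y (r + 1)) (ptr F J ω) := ⟨_, rfl⟩
  obtain ⟨Qu, hQu⟩ : ∃ Qu, Qu = G₂ (ptr F J ω) r -
    Gno (c r) J J (fun y => G₀ y r) (ptr F J ω) := ⟨_, rfl⟩
  have dQn : Qn.totalDegree ≤ D := by
    rw [hQn]
    exact (totalDegree_sub _ _).trans (max_le (dG₂ _ _) (deg_Gno _ _ _ (dG₀ _ _)))
  have dQu : Qu.totalDegree ≤ D := by
    rw [hQu]
    exact (totalDegree_sub _ _).trans (max_le (dG₂ _ _) (deg_Gno _ _ _ (dG₀ _ _)))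
  have pQn : DepC c (r + 1) Qn := fun b b' h1 h2 => by
    rw [hQn, map_sub, map_sub, pG₂ _ _ b b' h1 h2, depC_Gno _ _ _ (pG₀ _ _) b b' h1 h2]
  have pQu : DepC c r Qu := fun b b' h1 h2 => by
    rw [hQu, map_sub, map_sub, pG₂ _ _ b b' h1 h2, depC_Gno _ _ _ (pG₀ _ _) b b' h1 h2]
  obtain ⟨γn, hγn⟩ := gno_const (c (r + 1)) J J (fun y => G₀ y (r + 1)) (ptr F J ω)
  obtain ⟨γu, hγu⟩ := gno_const (c r) J J (fun y => G₀ y r) (ptr F J ω)
  -- the paths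
  have d2 : ∀ o : F.Ω, (∀ l < r + 2, H₂ (slam F o₂ o) l = G₂ (ptr F J ω) l) → ∀ l < r + 2,
      ∀ τ : ℝ, (dv o₂ (fun s _ => H₂ s l) (c l) (slam F o₂ o)).eval τ =
        ptw F o₂ o τ (some (c l)) - eval (ptw F o₂ o τ) (G₂ (ptr F J ω) l) := by
    intro o ho l hl τ
    rw [dv_ptw o (fun s => H₂ s l), ho l hl]
  have d0 : ∀ o : F.Ω, (∀ l < r + 2, H₀ (slam F o₀ o) l = G₀ (ptr F J ω) l) → ∀ l < r + 2,
      ∀ τ : ℝ, (dv o₂ (fun s _ => hco F o₀ o₂ H₀ s l) (c l) (slam F o₂ o)).eval τ =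
        ptw F o₂ o τ (some (c l)) - eval (ptw F o₂ o τ) (G₀ (ptr F J ω) l) := by
    intro o ho l hl τ
    rw [dv_ptw o (fun s => hco F o₀ o₂ H₀ s l)]
    unfold hco
    rw [co_slam F h02 h2J, ho l hl]
  have hnone : ∀ i ≤ D, ∀ τ : ℝ, ptw F o₂ (ν i) τ none = ptw F o₂ ω τ none := by
    intro i hi τ
    unfold ptw
    simp only [lc, Polynomial.eval_add, Polynomial.eval_mul, Polynomial.eval_C, Polynomial.eval_X]
    rw [htn i hi]
  have htime : ∀ i ≤ D, ∀ τ ∈ Set.Icc (0 : ℝ) 1, |ptw F o₂ (ν i) τ none - F.t ω| ≤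
      1 / 2 ^ o₂ := by
    intro i hi τ hτ
    rw [hnone i hi τ]
    exact ptw_tm h2J ω hτ
  obtain ⟨n, hn⟩ : ∃ n, n = c₀ + x * (D₁ + 1) + 1 := ⟨_, rfl⟩
  -- the heights of `u`
  have hQus : ∀ i ≤ D, ∀ τ ∈ Set.Icc (0 : ℝ) 1,
      |eval (ptw F o₂ ω τ) Qu - eval (ptw F o₂ (ν i) τ) Qu| ≤
        2 ^ (c₀ + x * D₁) * (2 ^ x / 2 ^ qu) * (1 / 2 ^ v) := by
    intro i hi τ hτ
    refine hlip (c := c) (i := r) (G := G₂ (ptr F J ω)) (Q := Qu) (g := g₂) (a := o₂)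
      (t := F.t ω) (M := 2 ^ x / 2 ^ qu) (ρ := 1 / 2 ^ v) x (by omega) hcr (fun l => dG₂ _ l)
      (fun l => pG₂ _ l) pQu dQu (by positivity) (by positivity) ?_ ?_
      (ptw F o₂ (ν i) τ) (ptw F o₂ ω τ) (hnone i hi τ) (htime i hi τ hτ) ?_ ?_
    · rw [div_le_one (by positivity)]
      exact one_le_pow₀ (by norm_num)
    · intro b hb
      rw [hQu, map_sub, abs_sub_comm]
      exact hblu b hb
    · intro l hl
      rw [← d2 (ν i) (e2ν i hi) l (by omega) τ]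
      exact hownν i hi l (by omega) τ hτ
    · intro l hl
      rw [← d2 (ν i) (e2ν i hi) l (by omega) τ, ← d2 ω e2 l (by omega) τ, abs_sub_comm]
      refine (hV i hi l hl τ hτ).trans ?_
      have e3 : (1 : ℝ) / 2 ^ v * (2 ^ x / 2 ^ g₂ l) = 2 ^ x * (1 / 2 ^ (g₂ l + v)) := by
        rw [pow_add]
        field_simp
      rw [e3]
      exact le_mul_of_one_le_left (by positivity) (one_le_pow₀ (by norm_num))
  have hkey : ∀ i ≤ D, ∀ τ ∈ Set.Icc (0 : ℝ) 1,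
      |eval (pt2 o₂ (slam F o₂ ω) (c r) τ ((α i + κ i * τ) / 2 ^ g₂ r)) Qn -
        eval (ptw F o₂ (ν i) τ) Qn| ≤ 2 ^ (c₀ + n * D₁) * (2 ^ x / 2 ^ q₀) * (1 / 2 ^ v₂) := by
    intro i hi τ hτ
    have hpl : ∀ l < r, pt2 o₂ (slam F o₂ ω) (c r) τ ((α i + κ i * τ) / 2 ^ g₂ r)
        (some (c l)) = ptw F o₂ ω τ (some (c l)) := by
      intro l hl
      unfold pt2
      rw [if_neg (fun h => hne l hl (Option.some_injective _ h)), add_zero]
      rfl
    have hpn : pt2 o₂ (slam F o₂ ω) (c r) τ ((α i + κ i * τ) / 2 ^ g₂ r) none =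
        ptw F o₂ ω τ none := by
      unfold pt2
      rw [if_neg (by simp), add_zero]
      rfl
    have hpG : ∀ l ≤ r, eval (pt2 o₂ (slam F o₂ ω) (c r) τ ((α i + κ i * τ) / 2 ^ g₂ r))
        (G₂ (ptr F J ω) l) = eval (ptw F o₂ ω τ) (G₂ (ptr F J ω) l) := fun l hl =>
      pG₂ _ l _ _ hpn fun j hj => hpl j (by omega)
    refine hlip (c := c) (i := r + 1) (G := G₂ (ptr F J ω)) (Q := Qn) (g := g₂) (a := o₂)
      (t := F.t ω) (M := 2 ^ x / 2 ^ q₀) (ρ := 1 / 2 ^ v₂) n (by omega) hcr1 (fun l => dG₂ _ l)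
      (fun l => pG₂ _ l) pQn dQn (by positivity) (by positivity) ?_ ?_
      (ptw F o₂ (ν i) τ) _ ((hnone i hi τ).trans hpn.symm) (htime i hi τ hτ) ?_ ?_
    · rw [div_le_one (by positivity)]
      exact one_le_pow₀ (by norm_num)
    · intro b hb
      rw [hQn, map_sub, abs_sub_comm]
      exact hbl b hb
    · intro l hl
      rw [← d2 (ν i) (e2ν i hi) l (by omega) τ]
      refine (hownν i hi l (by omega) τ hτ).trans ?_
      refine div_le_div_of_nonneg_right (pow_le_pow_right₀ (by norm_num) ?_) (by positivity)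
      rw [hn]
      nlinarith
    · intro l hl
      rw [← d2 (ν i) (e2ν i hi) l (by omega) τ, hpG l (by omega)]
      rcases Nat.lt_or_ge l r with h | h
      · rw [hpl l h, ← d2 ω e2 l (by omega) τ, abs_sub_comm]
        refine (hV i hi l h τ hτ).trans ?_
        have e3 : (1 : ℝ) / 2 ^ v₂ * (2 ^ n / 2 ^ g₂ l) = 2 ^ n * (1 / 2 ^ (g₂ l + v₂)) := by
          rw [pow_add]
          field_simp
        rw [e3]
        have e4 : (1 : ℝ) / 2 ^ (g₂ l + v) ≤ 1 / 2 ^ (g₂ l + v₂) :=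
          one_div_le_one_div_of_le (by positivity) (pow_le_pow_right₀ (by norm_num) (by omega))
        exact e4.trans (le_mul_of_one_le_left (by positivity) (one_le_pow₀ (by norm_num)))
      · have hlr : l = r := by omega
        subst hlr
        have e5 : pt2 o₂ (slam F o₂ ω) (c l) τ ((α i + κ i * τ) / 2 ^ g₂ l) (some (c l)) =
            ptw F o₂ ω τ (some (c l)) + (α i + κ i * τ) / 2 ^ g₂ l := by
          unfold pt2
          rw [if_pos rfl]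
          rfl
        have h1 := hu i hi τ hτ
        rw [d0 (ν i) (e0ν i hi) l (by omega) τ, d0 ω e0 l (by omega) τ] at h1
        have h2 := hQus i hi τ hτ
        have e6 : ∀ b, eval b Qu = eval b (G₂ (ptr F J ω) l) -
            (eval b (G₀ (ptr F J ω) l) + γu) := fun b => by
          rw [hQu, map_sub, hγu]
        rw [e6, e6] at h2
        rw [e5, d2 (ν i) (e2ν i hi) l (by omega) τ]
        have e7 : ptw F o₂ ω τ (some (c l)) + (α i + κ i * τ) / 2 ^ g₂ l -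
            eval (ptw F o₂ ω τ) (G₂ (ptr F J ω) l) - (ptw F o₂ (ν i) τ (some (c l)) -
              eval (ptw F o₂ (ν i) τ) (G₂ (ptr F J ω) l)) =
            -((ptw F o₂ (ν i) τ (some (c l)) - eval (ptw F o₂ (ν i) τ) (G₀ (ptr F J ω) l)) -
              (ptw F o₂ ω τ (some (c l)) - eval (ptw F o₂ ω τ) (G₀ (ptr F J ω) l)) -
              (α i + κ i * τ) / 2 ^ g₂ l) -
            ((eval (ptw F o₂ ω τ) (G₂ (ptr F J ω) l) -
              (eval (ptw F o₂ ω τ) (G₀ (ptr F J ω) l) + γu)) -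
              (eval (ptw F o₂ (ν i) τ) (G₂ (ptr F J ω) l) -
              (eval (ptw F o₂ (ν i) τ) (G₀ (ptr F J ω) l) + γu))) := by ring
        rw [e7]
        refine (abs_sub _ _).trans ?_
        rw [abs_neg]
        refine (add_le_add h1 h2).trans ?_
        have k1 : (1 : ℝ) / 2 ^ (g₂ l + v) ≤ 1 / 2 ^ (g₂ l + v₂) :=
          one_div_le_one_div_of_le (by positivity) (pow_le_pow_right₀ (by norm_num) (by omega))
        have k2 : (1 : ℝ) / 2 ^ (qu + v) ≤ 1 / 2 ^ (g₂ l + v₂) :=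
          one_div_le_one_div_of_le (by positivity) (pow_le_pow_right₀ (by norm_num) (by omega))
        have k3 : (2 : ℝ) ^ (c₀ + x * D₁) * (2 ^ x / 2 ^ qu) * (1 / 2 ^ v) =
            2 ^ (c₀ + x * (D₁ + 1)) * (1 / 2 ^ (qu + v)) := by
          rw [show c₀ + x * (D₁ + 1) = c₀ + x * D₁ + x by ring, pow_add 2 (c₀ + x * D₁),
            pow_add 2 qu]
          field_simp
        have k4 : (1 : ℝ) / 2 ^ v₂ * (2 ^ n / 2 ^ g₂ l) =
            2 * 2 ^ (c₀ + x * (D₁ + 1)) * (1 / 2 ^ (g₂ l + v₂)) := by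
          rw [hn, pow_succ, pow_add 2 (g₂ l)]
          field_simp
        rw [k3, k4]
        have k5 : (1 : ℝ) ≤ 2 ^ (c₀ + x * (D₁ + 1)) := one_le_pow₀ (by norm_num)
        have k6 : (0 : ℝ) < 1 / 2 ^ (g₂ l + v₂) := by positivity
        have k7 := mul_le_mul_of_nonneg_left k2 (by positivity :
          (0 : ℝ) ≤ 2 ^ (c₀ + x * (D₁ + 1)))
        nlinarith
  -- the lines of the plane
  obtain ⟨E, hE⟩ : ∃ E : ℝ, E = 2 ^ (c₀ + n * D₁) * (2 ^ x / 2 ^ q₀) * (1 / 2 ^ v₂) +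
      3 * (2 ^ x / 2 ^ g₂ (r + 1)) := ⟨_, rfl⟩
  have hE0 : 0 ≤ E := by
    rw [hE]
    positivity
  have hev : ∀ o : F.Ω, (∀ l < r + 2, H₀ (slam F o₀ o) l = G₀ (ptr F J ω) l) →
      (∀ l < r + 2, H₂ (slam F o₂ o) l = G₂ (ptr F J ω) l) → ∀ τ, eval (ptw F o₂ o τ) Qn =
      (dv o₂ (fun s _ => hco F o₀ o₂ H₀ s (r + 1)) (c (r + 1)) (slam F o₂ o)).eval τ -
      (dv o₂ (fun s _ => H₂ s (r + 1)) (c (r + 1)) (slam F o₂ o)).eval τ - γn := by
    intro o h0 h2 τ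
    rw [hQn, map_sub, hγn, d0 o h0 (r + 1) (by omega) τ, d2 o h2 (r + 1) (by omega) τ]
    ring
  have hpt0 : ∀ τ, pt2 o₂ (slam F o₂ ω) (c r) τ 0 = ptw F o₂ ω τ := by
    intro τ
    funext o
    unfold pt2
    split_ifs <;> rw [add_zero] <;> rfl
  have hfin := hone o₂ (slam F o₂ ω) (c r) Qn (g₂ r) dQn K β E α κ hK hβ hβ1 hE0 hα hκ hsep (by
    intro i hi
    obtain ⟨A, B, hAB⟩ := hN i hi
    refine ⟨A, B, fun τ hτ => ?_⟩
    have h1 := hkey i hi τ hτ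
    have h2 := hAB τ hτ
    have h3 := hown (r + 1) (by omega) τ hτ
    have h4 := hownν i hi (r + 1) (by omega) τ hτ
    rw [hev (ν i) (e0ν i hi) (e2ν i hi)] at h1
    rw [hpt0, hev ω e0 e2, hE]
    obtain ⟨y, hy⟩ : ∃ y, y = eval (pt2 o₂ (slam F o₂ ω) (c r) τ ((α i + κ i * τ) / 2 ^ g₂ r)) Qn :=
      ⟨_, rfl⟩
    obtain ⟨a0, ha0⟩ : ∃ a, a = (dv o₂ (fun s _ => hco F o₀ o₂ H₀ s (r + 1)) (c (r + 1))
      (slam F o₂ (ν i))).eval τ := ⟨_, rfl⟩
    obtain ⟨b0, hb0⟩ : ∃ a, a = (dv o₂ (fun s _ => hco F o₀ o₂ H₀ s (r + 1)) (c (r + 1))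
      (slam F o₂ ω)).eval τ := ⟨_, rfl⟩
    obtain ⟨a2, ha2⟩ : ∃ a, a = (dv o₂ (fun s _ => H₂ s (r + 1)) (c (r + 1))
      (slam F o₂ (ν i))).eval τ := ⟨_, rfl⟩
    obtain ⟨b2, hb2⟩ : ∃ a, a = (dv o₂ (fun s _ => H₂ s (r + 1)) (c (r + 1))
      (slam F o₂ ω)).eval τ := ⟨_, rfl⟩
    rw [← hy, ← ha0, ← ha2] at h1
    rw [← ha0, ← hb0] at h2
    rw [← hb2] at h3
    rw [← ha2] at h4
    rw [← hy, ← hb0, ← hb2]
    rw [abs_le] at h1 h2 h3 h4 ⊢
    constructor <;> linarith [h1.1, h1.2, h2.1, h2.2, h3.1, h3.2, h4.1, h4.2]) τ₀ hτ₀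
  have hpd : pderiv (some (c r)) Qn =
      pderiv (some (c r)) (G₂ (ptr F J ω) (r + 1) - G₀ (ptr F J ω) (r + 1)) := by
    rw [hQn, map_sub, map_sub, pd_gno]
  rw [hpd] at hfin
  refine hfin.trans ?_
  have hq : (1 : ℝ) / 2 ^ (q₀ + v₂) ≤ 1 / 2 ^ g₂ (r + 1) :=
    one_div_le_one_div_of_le (by positivity) (pow_le_pow_right₀ (by norm_num) n3)
  obtain ⟨N, hNe⟩ : ∃ N, N = c₀ + n * D₁ + x + 2 := ⟨_, rfl⟩
  have hEb : E ≤ 2 ^ N * (1 / 2 ^ g₂ (r + 1)) := by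
    have k1 : (2 : ℝ) ^ (c₀ + n * D₁) * (2 ^ x / 2 ^ q₀) * (1 / 2 ^ v₂) =
        2 ^ (c₀ + n * D₁ + x) * (1 / 2 ^ (q₀ + v₂)) := by
      rw [pow_add 2 (c₀ + n * D₁), pow_add 2 q₀]
      field_simp
    have k2 : (2 : ℝ) ^ x ≤ 2 ^ (c₀ + n * D₁ + x) := pow_le_pow_right₀ (by norm_num) (by omega)
    have k3 : (2 : ℝ) ^ N = 4 * 2 ^ (c₀ + n * D₁ + x) := by
      rw [hNe, pow_add 2 (c₀ + n * D₁ + x)]
      ring
    rw [hE, k1, k3]
    have k4 : (0 : ℝ) < 1 / 2 ^ g₂ (r + 1) := by positivity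
    have k5 := mul_le_mul_of_nonneg_left hq (by positivity :
      (0 : ℝ) ≤ 2 ^ (c₀ + n * D₁ + x))
    have k6 : (2 : ℝ) ^ x / 2 ^ g₂ (r + 1) = 2 ^ x * (1 / 2 ^ g₂ (r + 1)) := by ring
    rw [k6]
    nlinarith
  have hKβ : 0 ≤ (K / β) ^ (2 * D * D) := by positivity
  have hCN : C₁ * 2 ^ N ≤ (2 : ℝ) ^ ((C₂ + c₀ * (1 + D₁) + (D₁ + 2) * (D₁ + 2) + 8) * (x + 1)) := by
    have k1 : C₂ + N ≤ (C₂ + c₀ * (1 + D₁) + (D₁ + 2) * (D₁ + 2) + 8) * (x + 1) := by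
      rw [hNe, hn]
      nlinarith [Nat.zero_le (c₀ * D₁ * x), Nat.zero_le (C₂ * x), Nat.zero_le (c₀ * x),
        Nat.zero_le (D₁ * x), Nat.zero_le (D₁ * D₁)]
    calc C₁ * 2 ^ N ≤ 2 ^ C₂ * 2 ^ N := mul_le_mul_of_nonneg_right hC₂.le (by positivity)
      _ = 2 ^ (C₂ + N) := by rw [pow_add]
      _ ≤ _ := pow_le_pow_right₀ (by norm_num) k1
  calc C₁ * (K / β) ^ (2 * D * D) * E * 2 ^ g₂ r ≤
        C₁ * (K / β) ^ (2 * D * D) * (2 ^ N * (1 / 2 ^ g₂ (r + 1))) * 2 ^ g₂ r := by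
        gcongr
    _ = (K / β) ^ (2 * D * D) * ((C₁ * 2 ^ N) * (2 ^ g₂ r / 2 ^ g₂ (r + 1))) := by ring
    _ ≤ _ := by gcongr

end Pool.CR99
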