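import Pool.Agent.H99.D2.Ble

/-!
# The velocity of the path of the slopes, in a class

`AlvS`: the velocity of `u = c r` is alive over the exact base. `vls_deep`: `VlS` from a deep window,
`vls_scl`: by scaling from an earlier window.
-/

set_option autoImplicit false

namespace Pool.CR99

open Finset Real MvPolynomial
open Pool.Agent.H49.Ent Pool.Agent.H32.Dense Pool.STK Pool.KA Pool.KSAT Pool.K2S Pool.PB Pool.S6C
open Pool.GEN Pool.CHT Pool.CHX Pool.ISO Pool.D2R Pool.D2G30 Pool.V1E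
open Pool.FLF (Fam.sub)
open Pool.PB.Trl (rt rt_mem t_rt)

variable {m : ℕ}

/-- **The velocity of `c r` is alive**, given the closed codes of the window `w`, the time and `hi J`
digits of the positions and velocities of the base. -/
def AlvS (S : PCl m) (c : ℕ → Fin m) (r : ℕ) (w hi lvl ν : ℝ) : Prop :=
  Bas S (fun J F A => ∀ (V : Type) (z : PtT F → V) (z' : LnT F → V),
    (∀ ω, A ω → z (ptr F J ω) = z' (slam F ⌊w * J⌋₊ ω)) →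
    ν * J ≤ CH (Pool.Agent.H49.Ent.cond F.p A True) (fun ω => F.D ⌊lvl * J⌋₊ ω (c r))
      (fun ω => (z' (slam F ⌊w * J⌋₊ ω), F.T ω, (fun l : Fin r => F.X ⌊hi * J⌋₊ ω (c l)),
        fun l : Fin r => F.D ⌊hi * J⌋₊ ω (c l))))

theorem fl_near {g : ℕ} {x y : ℝ} (h : ⌊2 ^ g * x⌋ = ⌊2 ^ g * y⌋) : |x - y| ≤ 1 / 2 ^ g := by
  have h2 : (0 : ℝ) < 2 ^ g := by positivity
  have h3 := Int.floor_le (2 ^ g * x)
  have h4 := Int.lt_floor_add_one (2 ^ g * x)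
  have h5 := Int.floor_le (2 ^ g * y)
  have h6 := Int.lt_floor_add_one (2 ^ g * y)
  rw [h] at h3 h4
  have e : |x - y| * 2 ^ g = |(x - y) * 2 ^ g| := by rw [abs_mul, abs_of_pos h2]
  rw [le_div_iff₀ h2, e, abs_le]
  constructor <;> nlinarith

/-- **The code of the slices.** -/
theorem kok_alv {J : ℕ} {F : Fam m J} {c : ℕ → Fin m} {r w hi : ℕ} (hw : w ≤ J)
    {A : F.Ω → Prop} {H : LnT F → ℕ → MvPolynomial (Option (Fin m)) ℝ} :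
    KOk F c r w hi A H (fun ω => ((fun l : Fin (r + 2) => H (slam F w ω) l), F.T ω,
      (fun l : Fin r => F.X (hi + 1) ω (c l)), fun l : Fin r => F.D (hi + 1) ω (c l))) := by
  refine kok_of hw (fun ω ν _ _ h => ?_) (fun ω ν _ _ h l hl => ?_) (fun ω ν _ _ h l hl => ?_)
  · exact (congrArg (fun q => q.2.1) h).symm
  · have h1 := congrArg Prod.fst h
    exact (congrFun h1 ⟨l, hl⟩).symm
  · have h1 := congrFun (congrArg (fun q => q.2.2.1) h) ⟨l, hl⟩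
    have h2 := congrFun (congrArg (fun q => q.2.2.2) h) ⟨l, hl⟩
    exact ⟨fl_near h1.symm, fl_near h2.symm⟩

section

variable {c : ℕ → Fin m} {r D Dr N N₂ : ℕ} {R : ℕ → Prop} {C a Eb ε₀ η₀ : ℝ}
  {Pt : ℝ → ℝ → ℝ} {o : ℕ → ℝ} {lv be : ℕ → ℕ → ℝ} {b : ℕ → ℕ → ℝ}

/-- The windows, in a class. -/
def WgS (S : PCl m) (c : ℕ → Fin m) (r D Dr N N₂ : ℕ) (R : ℕ → Prop) (C a Eb ε₀ η₀ : ℝ)
    (Pt : ℝ → ℝ → ℝ) (o : ℕ → ℝ) (lv be b : ℕ → ℕ → ℝ) (K₁ : ℝ) : Prop :=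
  ∀ κ : ℝ, 0 < κ → Bas S (fun J F A =>
    ∃ (B : F.Ω → Prop) (z gc gT g₀ : ℕ → ℕ → ℕ)
      (G : ℕ → PtT F → ℕ → MvPolynomial (Option (Fin m)) ℝ)
      (H : ℕ → LnT F → ℕ → MvPolynomial (Option (Fin m)) ℝ)
      (T : ℕ → PtT F → ℕ → MvPolynomial (Option (Fin m)) ℝ)
      (TH : ℕ → LnT F → ℕ → MvPolynomial (Option (Fin m)) ℝ)
      (Gt : ℕ → PtT F → MvPolynomial (Option (Fin m)) ℝ)
      (Ht : ℕ → LnT F → MvPolynomial (Option (Fin m)) ℝ), Sub B A ∧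
      Pe F.p A ≤ K₁ * Pe F.p B ∧
      WG c (r + 1) D Dr N N₂ R C a Eb ε₀ η₀ Pt o lv be F b κ z B gc gT g₀ G H T TH Gt Ht)

end

/-- **The velocity on one event**, exponents. -/
theorem vli_ev (m D r : ℕ) : ∃ C₁ : ℕ, 1 ≤ C₁ ∧ ∀ {c : ℕ → Fin m} {Dr N N₂ : ℕ} {R : ℕ → Prop}
    {C a Eb ε₀ η₀ : ℝ} {Pt : ℝ → ℝ → ℝ} {o : ℕ → ℝ} {lv be : ℕ → ℕ → ℝ} {J : ℕ} {F : Fam m J}
    {b : ℕ → ℕ → ℝ} {κ : ℝ} {z : ℕ → ℕ → ℕ} {B : F.Ω → Prop} {gc gT g₀ : ℕ → ℕ → ℕ}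
    {G : ℕ → PtT F → ℕ → MvPolynomial (Option (Fin m)) ℝ}
    {H : ℕ → LnT F → ℕ → MvPolynomial (Option (Fin m)) ℝ}
    {T : ℕ → PtT F → ℕ → MvPolynomial (Option (Fin m)) ℝ}
    {TH : ℕ → LnT F → ℕ → MvPolynomial (Option (Fin m)) ℝ}
    {Gt : ℕ → PtT F → MvPolynomial (Option (Fin m)) ℝ}
    {Ht : ℕ → LnT F → MvPolynomial (Option (Fin m)) ℝ},
    WG c (r + 1) D Dr N N₂ R C a Eb ε₀ η₀ Pt o lv be F b κ z B gc gT g₀ G H T TH Gt Ht →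
    Set.InjOn c (Set.Iio (r + 2)) → 0 ≤ η₀ →
    ∀ {i d : ℕ} {ζ μ hi lvl θ : ℝ}, i ≤ N → d ≤ N → o i ≤ o d → ⌊o d * J⌋₊ ≤ J →
    (∀ ω, B ω → |eval (bt F ω) (pderiv (some (c r)) (Ht i (slam F ⌊o i * J⌋₊ ω))) -
      eval (bt F ω) (pderiv (some (c r)) (H d (slam F ⌊o d * J⌋₊ ω) (r + 1)))| ≤
      (2 : ℝ) ^ ((lv d r - lv d (r + 1) + ζ + 6 * (C * η₀)) * J)) → 0 < Pe F.p B → 0 ≤ θ →
    C₁ * (θ + 1) ≤ ((J : ℝ) - ⌊o d * J⌋₊) * Real.log 2 →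
    C₁ * (θ + 1) ≤ C * (η₀ * J) * Real.log 2 → C₁ ≤ C * (η₀ * J) →
    0 ≤ lv 0 r → 0 ≤ lv 0 (r + 1) → 0 ≤ ζ → 0 ≤ hi → 0 ≤ lvl →
    (∀ l ≤ r + 1, Eb + lv d l + C₁ * (C * η₀) ≤ hi) → lv d r - o d + C * η₀ ≤ lvl →
    ((lv 0 (r + 1) - lv 0 r) - (lv d (r + 1) - lv d r)) + (o d - o i) + ζ +
      C₁ * (C * η₀) + 2 * D * D * (lvl - (lv d r - o d)) + μ ≤ 0 →
    (∀ (E : F.Ω → Prop), Sub E B → 1 / 2 * Pe F.p B ≤ Pe F.p E → Real.log (2 * D + 1) <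
      CH (Pool.Agent.H49.Ent.cond F.p E True) (fun ω => F.D ⌊lvl * J⌋₊ ω (c r))
      (fun ω => ((fun l : Fin (r + 2) => H d (slam F ⌊o d * J⌋₊ ω) l), F.T ω,
        (fun l : Fin r => F.X ⌊hi * J⌋₊ ω (c l)), fun l : Fin r => F.D ⌊hi * J⌋₊ ω (c l)))) →
    (∀ (A : F.Ω → Prop) (hA : 0 < Pe F.p A), Sub A B → 1 / 4 * Pe F.p B ≤ Pe F.p A →
      (Fam.sub F A hA).Tm θ) →
    ∃ A₂ : F.Ω → Prop, Sub A₂ B ∧ Pe F.p B / 4 ≤ Pe F.p A₂ ∧ ∀ ω, A₂ ω →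
      |(Polynomial.derivative (spt c r ⌊lv 0 r * J⌋₊ ⌊lv 0 (r + 1) * J⌋₊ ⌊o i * J⌋₊ (Ht i)
        (slam F ⌊o i * J⌋₊ ω))).eval (rt F ⌊o i * J⌋₊ ω)| ≤ (2 : ℝ) ^ (-(μ * J)) := by
  classical
  obtain ⟨C₂, hC₂, hvel⟩ := vel_ev m D r
  refine ⟨4 * C₂ + 4 * (D * D) + 20, by omega, ?_⟩
  intro c Dr N N₂ R C a Eb ε₀ η₀ Pt o lv be J F b κ z B gc gT g₀ G H T TH Gt Ht W hc hη i d ζ μ hi
    lvl θ hiN hdN hid hdJ hnear hB hθ hJ1 hJ2 hCJ hl0 hl1 hζ hhi0 hlvl0 hhi hlvl hμ hal hTm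
  have hJ0 : (0 : ℝ) ≤ J := Nat.cast_nonneg J
  have h2 : (0 : ℝ) < 2 := by norm_num
  have hl2 : 0 < Real.log 2 := Real.log_pos one_lt_two
  have hC1 : 1 ≤ C := W.win.C1
  have c2 : (1 : ℝ) ≤ C₂ := by exact_mod_cast hC₂
  push_cast at hJ1 hJ2 hCJ hhi hμ
  have hDD : (0 : ℝ) ≤ (D : ℝ) * D := by positivity
  have hηJ : 0 ≤ η₀ * J := mul_nonneg hη hJ0
  obtain ⟨X, hX⟩ : ∃ X : ℝ, X = C * (η₀ * J) := ⟨_, rfl⟩
  have hηX : η₀ * J ≤ X := by rw [hX]; exact le_mul_of_one_le_left hηJ hC1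
  have hX0 : 0 ≤ X := hηJ.trans hηX
  rw [← hX] at hJ2 hCJ
  have hX1 : 20 ≤ X := by linarith
  have hθ1 : 0 ≤ θ + 1 := by linarith
  obtain ⟨Zt, hZt⟩ : ∃ Z : ℝ, Z = ζ * J := ⟨_, rfl⟩
  have hZ0 : 0 ≤ Zt := by rw [hZt]; exact mul_nonneg hζ hJ0
  obtain ⟨su, hsu⟩ : ∃ su, su = ⌊lv 0 r * J⌋₊ := ⟨_, rfl⟩
  obtain ⟨sn, hsn⟩ : ∃ sn, sn = ⌊lv 0 (r + 1) * J⌋₊ := ⟨_, rfl⟩
  have su1 : (su : ℝ) ≤ lv 0 r * J := by rw [hsu]; exact Nat.floor_le (mul_nonneg hl0 hJ0)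
  have su2 : lv 0 r * J < su + 1 := by rw [hsu]; exact Nat.lt_floor_add_one _
  have sn1 : (sn : ℝ) ≤ lv 0 (r + 1) * J := by
    rw [hsn]; exact Nat.floor_le (mul_nonneg hl1 hJ0)
  have sn2 : lv 0 (r + 1) * J < sn + 1 := by rw [hsn]; exact Nat.lt_floor_add_one _
  obtain ⟨ho0, hoa⟩ := W.win.ho d hdN
  obtain ⟨hoi0, hoia⟩ := W.win.ho i hiN
  have od1 : (⌊o d * J⌋₊ : ℝ) ≤ o d * J := Nat.floor_le (mul_nonneg ho0 hJ0)
  have oi2 : o i * J < ⌊o i * J⌋₊ + 1 := Nat.lt_floor_add_one _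
  have od2 : o d * J < ⌊o d * J⌋₊ + 1 := Nat.lt_floor_add_one _
  have hid' : ⌊o i * J⌋₊ ≤ ⌊o d * J⌋₊ :=
    Nat.floor_le_floor (mul_le_mul_of_nonneg_right hid hJ0)
  have hbd := W.win.evs d hdN
  have hbi := W.win.evs i hiN
  obtain ⟨-, -, a1, a2, -, -⟩ := W.win.g_num hdN (l := r) (by omega)
  obtain ⟨-, -, b1, b2, -, -⟩ := W.win.g_num hdN (l := r + 1) le_rfl
  obtain ⟨K, hK⟩ : ∃ K, K = ⌊lvl * J⌋₊ := ⟨_, rfl⟩
  have K1 : (K : ℝ) ≤ lvl * J := by rw [hK]; exact Nat.floor_le (mul_nonneg hlvl0 hJ0)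
  have K2 : lvl * J < K + 1 := by rw [hK]; exact Nat.lt_floor_add_one _
  have hlvlJ : lv d r * J - o d * J + X ≤ lvl * J := by
    have := mul_le_mul_of_nonneg_right hlvl hJ0
    refine le_trans (le_of_eq ?_) this
    rw [hX]; ring
  have hgK : g₀ d r ≤ ⌊o d * J⌋₊ + K := by
    have : (g₀ d r : ℝ) ≤ ((⌊o d * J⌋₊ + K : ℕ) : ℝ) := by
      push_cast
      linarith
    exact_mod_cast this
  -- the numbers of the code
  have e1 : (⌊(Eb + (fun _ : ℕ => η₀) d + (fun _ : ℕ => η₀) d) * J⌋₊ : ℝ) ≤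
      Eb * J + 2 * (η₀ * J) := by
    refine (Nat.floor_le ?_).trans (le_of_eq (by ring))
    have : 0 ≤ (Eb + η₀ + η₀) * (J : ℝ) := mul_nonneg (by linarith [W.win.Eb0]) hJ0
    exact this
  obtain ⟨n, hn⟩ : ∃ n, n = ⌊C * (η₀ * J)⌋₊ + 1 := ⟨_, rfl⟩
  have n1 : (n : ℝ) ≤ X + 1 := by
    rw [hn, Nat.cast_add, Nat.cast_one, hX]
    have := Nat.floor_le (show 0 ≤ C * (η₀ * J) by rw [← hX]; exact hX0)
    linarith
  have hhiJ : ∀ l ≤ r + 1, Eb * J + lv d l * J + (4 * C₂ + 4 * (D * D) + 20) * X ≤ hi * J :=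
    fun l hl => by
      have := mul_le_mul_of_nonneg_right (hhi l hl) hJ0
      refine le_trans (le_of_eq ?_) this
      rw [hX]; ring
  have hDX : (0 : ℝ) ≤ 4 * ((D : ℝ) * D) * X := by positivity
  have hCX : X ≤ C₂ * X := le_mul_of_one_le_left hX0 c2
  have hhi1 : 1 ≤ ⌊hi * J⌋₊ := by
    refine Nat.le_floor ?_
    have q1 := hhiJ (r + 1) le_rfl
    have q2 : 0 ≤ Eb * (J : ℝ) := mul_nonneg W.win.Eb0 hJ0
    have q3 : (0 : ℝ) ≤ lv d (r + 1) * J := (Nat.cast_nonneg _).trans b2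
    push_cast
    nlinarith
  obtain ⟨h', hh'⟩ : ∃ h', ⌊hi * J⌋₊ = h' + 1 := ⟨⌊hi * J⌋₊ - 1, by omega⟩
  have hh2 : hi * J < ⌊hi * J⌋₊ + 1 := Nat.lt_floor_add_one _
  -- the closeness
  obtain ⟨S, hS⟩ : ∃ S : ℝ, S = (2 : ℝ) ^ ((lv d r - lv d (r + 1) + ζ + 6 * (C * η₀)) * J +
    (lv 0 (r + 1) * J - lv 0 r * J) + 1) := ⟨_, rfl⟩
  have hS0 : 0 < S := by rw [hS]; positivity
  obtain ⟨β, hβ⟩ : ∃ β : ℝ, β = 2 ^ g₀ d r / 2 ^ (⌊o d * J⌋₊ + K) := ⟨_, rfl⟩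
  have hβ0 : 0 < β := by rw [hβ]; positivity
  have hβ1 : β ≤ 1 := by
    rw [hβ, div_le_one (by positivity)]
    exact pow_le_pow_right₀ (by norm_num) hgK
  have hfun : (fun ω => ⌊2 ^ g₀ d r / 2 ^ ⌊o d * J⌋₊ * F.d ω (c r) / β⌋) =
      fun ω => F.D ⌊lvl * J⌋₊ ω (c r) := by
    funext ω
    show _ = ⌊(2 : ℝ) ^ ⌊lvl * J⌋₊ * F.d ω (c r)⌋
    congr 1
    rw [← hK, hβ, pow_add]
    field_simp
  obtain ⟨A₂, k1, k2, k3⟩ := hvel (J := J) (F := F) (c := c) (n := n) (su := su) (sn := sn)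
    (o₀ := ⌊o i * J⌋₊) (od := ⌊o d * J⌋₊) (hi := h') (Ht := Ht i) (S := S) hc hid' hdJ hbd.ball
    hbd.cls (fun ω hω l hl τ hτ => by
      rw [hn]
      exact W.own d (hdN.trans W.nn) ω hω l (by omega) τ hτ) hbi.dH (fun ω hω => by
      refine (hnear ω hω).trans ?_
      rw [hS, ← Real.rpow_natCast 2 su, ← Real.rpow_natCast 2 sn, ← Real.rpow_sub h2,
        ← Real.rpow_add h2]
      exact Real.rpow_le_rpow_of_exponent_le (by norm_num) (by linarith)) hS0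
    (kok_alv hdJ) (fun l hl => by
      have q1 := hhiJ l (by omega)
      have q2 : (g₀ d l : ℝ) ≤ lv d l * J := (W.win.g_num hdN (l := l) (by omega)).2.2.2.1
      have q3 : ((⌊(Eb + (fun _ : ℕ => η₀) d + (fun _ : ℕ => η₀) d) * J⌋₊ + g₀ d l +
          C₂ * (n + 1) + 1 : ℕ) : ℝ) ≤ ((h' + 1 : ℕ) : ℝ) := by
        rw [← hh']
        push_cast
        have q4 : (C₂ : ℝ) * (n + 1) ≤ C₂ * (X + 2) :=
          mul_le_mul_of_nonneg_left (by linarith) (by linarith)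
        have q5 : (C₂ : ℝ) * (X + 2) = C₂ * X + 2 * C₂ := by ring
        nlinarith
      have q6 : ⌊(Eb + (fun _ : ℕ => η₀) d + (fun _ : ℕ => η₀) d) * J⌋₊ + g₀ d l +
          C₂ * (n + 1) + 1 ≤ h' + 1 := by exact_mod_cast q3
      beta_reduce at q6 ⊢
      omega) hB β θ hβ0 hβ1 hθ (fun E hE hPE => by
      rw [hfun, ← hh']
      exact hal E hE hPE) hTm (le_trans (mul_le_mul_of_nonneg_right (by linarith) hθ1) hJ1)
  refine ⟨A₂, k1, k2, fun ω hω => ?_⟩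
  rw [← hsu, ← hsn]
  refine (k3 ω hω).trans ?_
  have hμJ : (lv 0 (r + 1) * J - lv 0 r * J - (lv d (r + 1) * J - lv d r * J)) +
      (o d * J - o i * J) + Zt + (4 * C₂ + 4 * (D * D) + 20) * X +
      2 * D * D * (lvl * J - (lv d r * J - o d * J)) + μ * J ≤ 0 := by
    have := mul_le_mul_of_nonneg_right hμ hJ0
    rw [zero_mul] at this
    refine le_trans (le_of_eq ?_) this
    rw [hX, hZt]; ring
  have ts : Real.exp (C₂ * (θ + 1)) ≤ (2 : ℝ) ^ X := by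
    rw [Real.rpow_def_of_pos h2]
    refine Real.exp_le_exp.2 (le_trans ?_ (le_of_eq (mul_comm _ _)))
    exact le_trans (mul_le_mul_of_nonneg_right (by linarith) hθ1) hJ2
  have hsub : ((⌊o d * J⌋₊ - ⌊o i * J⌋₊ : ℕ) : ℝ) ≤ o d * J - o i * J + 1 := by
    rw [Nat.cast_sub hid']
    linarith
  have t1 : (2 : ℝ) ^ (⌊o d * J⌋₊ - ⌊o i * J⌋₊) * (Real.exp (C₂ * (θ + 1)) * S) ≤
      (2 : ℝ) ^ (-(μ * J) - 1) := by
    calc (2 : ℝ) ^ (⌊o d * J⌋₊ - ⌊o i * J⌋₊) * (Real.exp (C₂ * (θ + 1)) * S) ≤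
        (2 : ℝ) ^ (⌊o d * J⌋₊ - ⌊o i * J⌋₊) * ((2 : ℝ) ^ X * S) := by gcongr
      _ = (2 : ℝ) ^ (((⌊o d * J⌋₊ - ⌊o i * J⌋₊ : ℕ) : ℝ) + (X +
          ((lv d r - lv d (r + 1) + ζ + 6 * (C * η₀)) * J +
          (lv 0 (r + 1) * J - lv 0 r * J) + 1))) := by
        rw [Real.rpow_add h2, Real.rpow_add h2 X, Real.rpow_natCast, hS]
      _ ≤ _ := by
        refine Real.rpow_le_rpow_of_exponent_le (by norm_num) ?_
        have q1 : (lv d r - lv d (r + 1) + ζ + 6 * (C * η₀)) * (J : ℝ) =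
            lv d r * J - lv d (r + 1) * J + Zt + 6 * X := by rw [hX, hZt]; ring
        have q2 : (0 : ℝ) ≤ 2 * D * D * (lvl * J - (lv d r * J - o d * J)) := by
          have : (0 : ℝ) ≤ lvl * J - (lv d r * J - o d * J) := by linarith
          positivity
        rw [q1]
        nlinarith
  have t2 : (2 : ℝ) ^ (⌊o d * J⌋₊ - ⌊o i * J⌋₊) * (2 ^ sn / 2 ^ su * ((1 / β) ^ (2 * D * D) *
      (2 ^ (C₂ * (n + 1)) * (2 ^ g₀ d r / 2 ^ g₀ d (r + 1))))) ≤ (2 : ℝ) ^ (-(μ * J) - 1) := by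
    have q0 : 1 / β = (2 : ℝ) ^ (((⌊o d * J⌋₊ + K : ℕ) : ℝ) - g₀ d r) := by
      rw [hβ, one_div_div, Real.rpow_sub h2, Real.rpow_natCast, Real.rpow_natCast]
    have q1 : (1 / β) ^ (2 * D * D) = (2 : ℝ) ^ ((((⌊o d * J⌋₊ + K : ℕ) : ℝ) - g₀ d r) *
        ((2 * D * D : ℕ) : ℝ)) := by
      rw [q0, ← Real.rpow_natCast, ← Real.rpow_mul h2.le]
    have q2 : (2 : ℝ) ^ (⌊o d * J⌋₊ - ⌊o i * J⌋₊) * (2 ^ sn / 2 ^ su * ((1 / β) ^ (2 * D * D) *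
        (2 ^ (C₂ * (n + 1)) * (2 ^ g₀ d r / 2 ^ g₀ d (r + 1))))) =
        (2 : ℝ) ^ (((⌊o d * J⌋₊ - ⌊o i * J⌋₊ : ℕ) : ℝ) + (((sn : ℝ) - su) +
          ((((⌊o d * J⌋₊ + K : ℕ) : ℝ) - g₀ d r) * ((2 * D * D : ℕ) : ℝ) +
          (((C₂ * (n + 1) : ℕ) : ℝ) + ((g₀ d r : ℝ) - g₀ d (r + 1)))))) := by
      rw [q1, Real.rpow_add h2, Real.rpow_add h2, Real.rpow_add h2, Real.rpow_add h2,
        Real.rpow_sub h2 (sn : ℝ), Real.rpow_sub h2 (g₀ d r : ℝ), Real.rpow_natCast,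
        Real.rpow_natCast, Real.rpow_natCast, Real.rpow_natCast, Real.rpow_natCast,
        Real.rpow_natCast]
    rw [q2]
    refine Real.rpow_le_rpow_of_exponent_le (by norm_num) ?_
    have q4 : (C₂ : ℝ) * (n + 1) ≤ C₂ * (X + 2) :=
      mul_le_mul_of_nonneg_left (by linarith) (by linarith)
    have q5 : (C₂ : ℝ) * (X + 2) = C₂ * X + 2 * C₂ := by ring
    have q6 : (((⌊o d * J⌋₊ + K : ℕ) : ℝ) - g₀ d r) * ((2 * D * D : ℕ) : ℝ) ≤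
        (lvl * J - (lv d r * J - o d * J) + X) * (2 * D * D) := by
      push_cast
      refine mul_le_mul_of_nonneg_right ?_ (by positivity)
      linarith
    have q7 : (lvl * J - (lv d r * J - o d * J) + X) * (2 * D * D) =
        2 * D * D * (lvl * J - (lv d r * J - o d * J)) + 2 * ((D : ℝ) * D) * X := by ring
    push_cast at q6 ⊢
    nlinarith
  have t3 : (2 : ℝ) ^ (-(μ * J)) = (2 : ℝ) ^ (-(μ * J) - 1) + (2 : ℝ) ^ (-(μ * J) - 1) := by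
    rw [← two_mul, Real.rpow_sub_one h2.ne']
    field_simp
  rw [t3, mul_add]
  exact add_le_add t1 t2

end Pool.CR99
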