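import Pool.Agent.H99.D2.Blc

/-!
# The blind labels in a class

`BlX`: on a part of every event there is a closed label of the window `w` whose derivative in the direction
`u = c r` is near the ones of the labels of the windows `v k`. `blf_of`: then `BlF`. `VlS`: the path of the
slopes of the row label has a small velocity. `blx_wg`: `BlX` from `VlS`.
-/

set_option autoImplicit false

namespace Pool.CR99

open Finset Real MvPolynomial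
open Pool.Agent.H49.Ent Pool.Agent.H32.Dense Pool.STK Pool.KA Pool.KSAT Pool.K2S Pool.PB Pool.S6C
open Pool.GEN Pool.CHT Pool.CHX Pool.ISO Pool.D2R Pool.D2G30 Pool.V1E
open Pool.FLF (Fam.sub)
open Pool.PB.Trl (rt rt_mem t_rt)
open Pool.GRD (LbP)
open Pool.BFL (Pb)
open Pool.ALT (BlC BlB sbu sbu_eval sbu_deg sbu_dep DpI Upg)

variable {m : ℕ}

/-- **A closed slope, in a class.** -/
def BlX (S : PCl m) (c : ℕ → Fin m) (r K K₁ : ℕ) (w P : ℝ) (n : ℕ) (v p₁ x₀ : ℕ → ℝ)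
    (κ : ℝ) : Prop :=
  Bas S (fun J F A => ∃ B : F.Ω → Prop, Sub B A ∧ Pe F.p A ≤ κ * Pe F.p B ∧
    ∃ (V : Type) (z : PtT F → V) (z' : LnT F → V) (G : V → MvPolynomial (Option (Fin m)) ℝ)
      (P' : ℕ), LbP F ((range (r + 1)).image c) (c (r + 1)) K J ⌊w * J⌋₊ P' B z z' G ∧
      P * J ≤ P' ∧
      ∀ k < n, ∃ (V₁ : Type) (z₁ : PtT F → V₁) (z₁' : LnT F → V₁)
        (G₁ : V₁ → MvPolynomial (Option (Fin m)) ℝ) (P₁ : ℕ),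
        LbP F ((range (r + 1)).image c) (c (r + 1)) K₁ J ⌊v k * J⌋₊ P₁ B z₁ z₁' G₁ ∧
        p₁ k * J ≤ P₁ ∧
        ∀ ω, B ω → |eval (bt F ω) (pderiv (some (c r)) (G₁ (z₁' (slam F ⌊v k * J⌋₊ ω)) -
          G (z' (slam F ⌊w * J⌋₊ ω))))| ≤ 2 ^ (x₀ k * J))

/-- **The family `BlF` exists on a part of every event.** -/
theorem blf_of {S : PCl m} {C₀ : ℝ} (htm : TmC S C₀) {c : ℕ → Fin m} {r K K₁ : ℕ}
    {w P : ℝ} {n : ℕ} {v p₁ x₀ : ℕ → ℝ} {κ : ℝ} (h : BlX S c r K K₁ w P n v p₁ x₀ κ)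
    (hκ : 0 < κ) {u p e σ : ℝ}
    (hup : Upg S ((range (r + 1)).image c) (c (r + 1)) K w u p e) (hσ : 0 < σ)
    (hpP : p + σ ≤ P) :
    Bas S (fun J F A => ∃ B : F.Ω → Prop, Sub B A ∧ Pe F.p A ≤ 4 * κ * Pe F.p B ∧
      ∃ (V : Type) (z : PtT F → V) (z' : LnT F → V) (G : V → MvPolynomial (Option (Fin m)) ℝ),
        BlF c r K K₁ e u p w n v p₁ x₀ J F B V z z' G) := by
  refine Bas.mono 0 (Bas.and h (Pool.GRW.bas_part (hup.up htm hσ) hκ)) ?_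
  rintro J - F A ⟨⟨B, b1, b2, V, z, z', G, P', l1, l2, l3⟩, hu⟩
  have hJ0 : (0 : ℝ) ≤ J := Nat.cast_nonneg J
  obtain ⟨B', c1, c2, c3⟩ := hu B b1 b2 P' V z z' G l1
    ((mul_le_mul_of_nonneg_right hpP hJ0).trans l2)
  refine ⟨B', fun ω hω => b1 ω (c1 ω hω), ?_, V, z, z', G, c3, fun k hk => ?_⟩
  · have := mul_le_mul_of_nonneg_left c2 hκ.le
    linarith
  · obtain ⟨V₁, z₁, z₁', G₁, P₁, h1, h2, h3⟩ := l3 k hk
    exact ⟨V₁, z₁, z₁', G₁, P₁, h1.sub c1, h2, fun ω hω => h3 ω (c1 ω hω)⟩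

/-- The labels of a closed chart. -/
theorem lbp_ball {J : ℕ} {F : Fam m J} {c : ℕ → Fin m} {r D a w e : ℕ} {g : ℕ → ℕ}
    {B : F.Ω → Prop} {G : PtT F → ℕ → MvPolynomial (Option (Fin m)) ℝ}
    {H : LnT F → ℕ → MvPolynomial (Option (Fin m)) ℝ}
    (hch : ChOK F c (r + 2) (fun _ => D) a w e g B G H) (hcl : Clsd F (r + 2) w B G H) :
    ∃ (V₁ : Type) (z₁ : PtT F → V₁) (z₁' : LnT F → V₁)
      (G₁ : V₁ → MvPolynomial (Option (Fin m)) ℝ),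
      LbP F ((range (r + 1)).image c) (c (r + 1)) D J w (g (r + 1)) B z₁ z₁' G₁ ∧
      ∀ s, G₁ (z₁' s) = H s (r + 1) := by
  refine ⟨{v : MvPolynomial (Option (Fin m)) ℝ // v.totalDegree ≤ D ∧ DepC c (r + 1) v},
    fun y => ⟨G y (r + 1), hch.degG y _, hch.depG y _⟩,
    fun s => ⟨H s (r + 1), hch.degH s _, hch.depH s _⟩, Subtype.val,
    ⟨fun v => v.2.1, fun v => depC_dpI v.2.2, fun ω hω => Subtype.ext (hcl ω hω _ (by omega)),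
      fun ω hω => ?_⟩, fun s => rfl⟩
  have h1 := hch.pos ω hω (r + 1) (by omega)
  rw [hcl ω hω (r + 1) (by omega)] at h1
  exact h1

/-- **The path of the slopes of the row label has a small velocity.** -/
def VlS (S : PCl m) (c : ℕ → Fin m) (r D Dr N N₂ : ℕ) (R : ℕ → Prop) (C a Eb ε₀ η₀ : ℝ)
    (Pt : ℝ → ℝ → ℝ) (o : ℕ → ℝ) (lv be b : ℕ → ℕ → ℝ) (K₁ K₂ μ : ℝ) : Prop :=
  ∀ κ : ℝ, 0 < κ → Bas S (fun J F A =>
    ∃ (B B₁ : F.Ω → Prop) (z gc gT g₀ : ℕ → ℕ → ℕ)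
      (G : ℕ → PtT F → ℕ → MvPolynomial (Option (Fin m)) ℝ)
      (H : ℕ → LnT F → ℕ → MvPolynomial (Option (Fin m)) ℝ)
      (T : ℕ → PtT F → ℕ → MvPolynomial (Option (Fin m)) ℝ)
      (TH : ℕ → LnT F → ℕ → MvPolynomial (Option (Fin m)) ℝ)
      (Gt : ℕ → PtT F → MvPolynomial (Option (Fin m)) ℝ)
      (Ht : ℕ → LnT F → MvPolynomial (Option (Fin m)) ℝ), Sub B A ∧
      Pe F.p A ≤ K₁ * Pe F.p B ∧
      WG c (r + 1) D Dr N N₂ R C a Eb ε₀ η₀ Pt o lv be F b κ z B gc gT g₀ G H T TH Gt Ht ∧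
      Sub B₁ B ∧ Pe F.p B ≤ K₂ * Pe F.p B₁ ∧
      ∀ ω, B₁ ω → |(Polynomial.derivative (spt c r ⌊lv 0 r * J⌋₊ ⌊lv 0 (r + 1) * J⌋₊
        ⌊o 0 * J⌋₊ (Ht 0) (slam F ⌊o 0 * J⌋₊ ω))).eval (rt F ⌊o 0 * J⌋₊ ω)| ≤
          (2 : ℝ) ^ (-(μ * J)))

/-- **The closed slope from the velocity of the path of the slopes.** -/
theorem blx_wg (m D r : ℕ) : ∃ C₁ : ℕ, 1 ≤ C₁ ∧ ∀ {S : PCl m} {C₀ : ℝ} {c : ℕ → Fin m}
    {Dr N N₂ : ℕ} {R : ℕ → Prop} {C a Eb ε₀ η₀ : ℝ} {Pt : ℝ → ℝ → ℝ} {o : ℕ → ℝ}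
    {lv be b : ℕ → ℕ → ℝ} {K₁ K₂ μ : ℝ}, TmC S C₀ → Set.InjOn c (Set.Iio (r + 2)) → R r →
    D ≤ Dr → 0 < K₁ → 0 < K₂ → 0 < η₀ → 1 ≤ C →
    VlS S c r D Dr N N₂ R C a Eb ε₀ η₀ Pt o lv be b K₁ K₂ μ →
    ∀ (n d : ℕ) (ζ M₁ Λ P : ℝ) (x₀ : ℕ → ℝ), 0 ≤ ζ → 0 ≤ M₁ → 0 ≤ Λ → 0 ≤ P →
    (∀ k < n, k ≤ N) → d ≤ N → a ≤ 1 → o 0 < 1 → o 0 ≤ o d → (∀ k < n, o 0 ≤ o k) →
    (∀ k ≤ N, lv k (r + 1) + (a - o k) ≤ Pt a (o 0) + ζ) →
    (∀ k ≤ N, ζ + 4 * (C * η₀) ≤ lv k (r + 1)) → 0 ≤ lv 0 r →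
    (∀ l ≤ r + 1, lv d l ≤ lv d (r + 1) + Λ) →
    Eb + Λ + lv d (r + 1) + C₁ * (C * η₀) ≤ 1 →
    M₁ + C₁ * (ζ + C * η₀) ≤ (lv d (r + 1) - lv d r) - (lv 0 (r + 1) - lv 0 r) →
    M₁ + 2 * (C * η₀) ≤ μ →
    (∀ k < n, lv k r - lv k (r + 1) + ζ + 7 * (C * η₀) ≤ x₀ k) →
    (∀ k < n, lv 0 r - lv 0 (r + 1) - M₁ + C * η₀ ≤ x₀ k) →
    P + 2 * ζ + 24 * (C * η₀) ≤ lv 0 (r + 1) →
    BlX S c r (bdg D) D (o 0) P n o (fun k => lv k (r + 1) - η₀) x₀ (16 * (K₂ * K₁)) := by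
  classical
  obtain ⟨C₁, hC₁, hev⟩ := blf_ev m D r
  refine ⟨C₁, hC₁, ?_⟩
  intro S C₀ c Dr N N₂ R C a Eb ε₀ η₀ Pt o lv be b K₁ K₂ μ htm hc hR hDr hK₁ hK₂ hη hC hV n d ζ M₁
    Λ P x₀ hζ hM₁ hΛ hP hn hd ha1 ho1 h0d h0k hrow hpos hl0 hlv hsum hmd hμ hx1 hx2 hPn
  have hl2 : 0 < Real.log 2 := Real.log_pos one_lt_two
  have h2 : (0 : ℝ) < 2 := by norm_num
  have c1 : (1 : ℝ) ≤ C₁ := by exact_mod_cast hC₁
  have hc1 : Set.InjOn c (Set.Iio (r + 1)) := hc.mono fun y hy => by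
    rw [Set.mem_Iio] at hy ⊢
    omega
  have hCη : 0 < C * η₀ := mul_pos (by linarith) hη
  -- the time deficit
  obtain ⟨ψ, hψ⟩ : ∃ ψ : ℝ, ψ = min η₀ (1 - o 0) * Real.log 2 / (2 * C₁) := ⟨_, rfl⟩
  have hmin : 0 < min η₀ (1 - o 0) := lt_min hη (by linarith)
  have hψ0 : 0 < ψ := by
    rw [hψ]
    have : (0 : ℝ) < 2 * C₁ := by linarith
    positivity
  have hψC : C₁ * ψ = min η₀ (1 - o 0) * Real.log 2 / 2 := by
    rw [hψ]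
    have : (C₁ : ℝ) ≠ 0 := by positivity
    field_simp
  obtain ⟨J₁, hJ₁⟩ := exists_nat_ge (2 * C₁ / (min η₀ (1 - o 0) * Real.log 2))
  obtain ⟨J₂, hJ₂⟩ := exists_nat_ge (((C₁ : ℝ) + 10) / (C * η₀))
  have hκ : (0 : ℝ) < 1 / (8 * K₂) := by positivity
  refine Bas.mono (max J₁ J₂) (Bas.and (hV (1 / (8 * K₂)) hκ)
    (Pool.GRW.bas_part (Pool.GRW.tms_bas htm hψ0) (mul_pos hK₂ hK₁))) ?_
  rintro J hJ F A ⟨⟨B, B₁, z, gc, gT, g₀, G, H, T, TH, Gt, Ht, b1, b2, W, b3, b4, hder⟩, htB⟩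
  have hJ0 : (0 : ℝ) ≤ J := Nat.cast_nonneg J
  have j1 : (C₁ : ℝ) ≤ min η₀ (1 - o 0) * Real.log 2 / 2 * J := by
    have e1 : (J₁ : ℝ) ≤ J := by exact_mod_cast (le_max_left _ _).trans hJ
    have e2 := hJ₁.trans e1
    rw [div_le_iff₀ (by positivity)] at e2
    linarith
  have j2 : (C₁ : ℝ) + 10 ≤ C * (η₀ * J) := by
    have e1 : (J₂ : ℝ) ≤ J := by exact_mod_cast (le_max_right _ _).trans hJ
    have e2 := hJ₂.trans e1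
    rw [div_le_iff₀ hCη] at e2
    linarith
  have hPB₁ : Pe F.p A ≤ K₂ * K₁ * Pe F.p B₁ := by
    have := mul_le_mul_of_nonneg_left b4 hK₁.le
    linarith
  obtain ⟨hB₁, hTm⟩ := htB B₁ (fun ω hω => b1 ω (b3 ω hω)) hPB₁
  obtain ⟨X, hX⟩ : ∃ X : ℝ, X = C * (η₀ * J) := ⟨_, rfl⟩
  obtain ⟨Zt, hZt⟩ : ∃ Z : ℝ, Z = ζ * J := ⟨_, rfl⟩
  have hηJ : 0 ≤ η₀ * J := mul_nonneg hη.le hJ0
  have hηX : η₀ * J ≤ X := by rw [hX]; exact le_mul_of_one_le_left hηJ hC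
  have hX0 : 0 ≤ X := hηJ.trans hηX
  have hZ0 : 0 ≤ Zt := by rw [hZt]; exact mul_nonneg hζ hJ0
  rw [← hX] at j2
  obtain ⟨ho00, ho0a⟩ := W.win.ho 0 (Nat.zero_le N)
  have hokJ : ∀ k ≤ N, ⌊o k * J⌋₊ ≤ J := fun k hk => by
    obtain ⟨q1, q2⟩ := W.win.ho k hk
    refine Nat.floor_le_of_le ?_
    have := mul_le_mul_of_nonneg_right (q2.trans ha1) hJ0
    linarith
  have h0J := hokJ 0 (Nat.zero_le N)
  have f0 : (⌊o 0 * J⌋₊ : ℝ) ≤ o 0 * J := Nat.floor_le (mul_nonneg ho00 hJ0)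
  have hJX : (1 : ℝ) ≤ C * (η₀ * J) := by rw [← hX]; linarith
  have hnear : ∀ k ≤ N, o 0 ≤ o k → ∀ ω, B ω →
      |eval (bt F ω) (pderiv (some (c r)) (Ht 0 (slam F ⌊o 0 * J⌋₊ ω))) -
        eval (bt F ω) (pderiv (some (c r)) (H k (slam F ⌊o k * J⌋₊ ω) (r + 1)))| ≤
        (2 : ℝ) ^ ((lv k r - lv k (r + 1) + ζ + 6 * (C * η₀)) * J) := fun k hk h0 =>
    wg_near W hc1 hR (Nat.zero_le N) hk h0 (hokJ k hk) hζ hη.le hJX (hrow k hk) (hpos k hk)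
  have hmin1 : min η₀ (1 - o 0) ≤ η₀ := min_le_left _ _
  have hmin2 : min η₀ (1 - o 0) ≤ 1 - o 0 := min_le_right _ _
  have htt : (C₁ : ℝ) * (ψ * J + 1) ≤ min η₀ (1 - o 0) * Real.log 2 * J := by
    have : (C₁ : ℝ) * (ψ * J + 1) = C₁ * ψ * J + C₁ := by ring
    rw [this, hψC]
    linarith
  have hlv1 : 0 ≤ lv 0 (r + 1) := by
    have := hpos 0 (Nat.zero_le N)
    linarith
  obtain ⟨B', κL, κG, k1, k2, k3⟩ := hev W hc hDr hη.le (d := d) (ζ := ζ) (M₁ := M₁) (Λ := Λ)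
    (μ := μ) (θ := ψ * J) hB₁ b3 (by
      have h8 : 1 / (8 * K₂) * Pe F.p B ≤ 1 / (8 * K₂) * (K₂ * Pe F.p B₁) :=
        mul_le_mul_of_nonneg_left b4 hκ.le
      refine h8.trans (le_of_eq ?_)
      field_simp) hTm (mul_nonneg hψ0.le hJ0) hζ hM₁ hΛ hd h0J (hokJ d hd)
    (htt.trans (by
      have := mul_le_mul_of_nonneg_right (mul_le_mul_of_nonneg_right hmin1 hl2.le) hJ0
      linarith))
    (htt.trans (by
      have e1 := mul_le_mul_of_nonneg_right (mul_le_mul_of_nonneg_right hmin2 hl2.le) hJ0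
      have e2 : (⌊o 0 * J⌋₊ : ℝ) * Real.log 2 ≤ o 0 * J * Real.log 2 :=
        mul_le_mul_of_nonneg_right f0 hl2.le
      linarith))
    (by rw [← hX]; linarith) hl0 hlv1 hlv hsum hmd hμ
    (fun k hk => by
      rcases Finset.mem_insert.1 hk with h | h
      · rw [h]
        exact hnear 0 (Nat.zero_le N) le_rfl
      · rw [Finset.mem_singleton.1 h]
        exact hnear d hd h0d) hder
  have hB'B : Sub B' B := fun ω hω => b3 ω (k1 ω hω)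
  have hb0 := W.win.evs 0 (Nat.zero_le N)
  -- the numbers
  obtain ⟨su, hsu⟩ : ∃ su, su = ⌊lv 0 r * J⌋₊ := ⟨_, rfl⟩
  obtain ⟨sn, hsn⟩ : ∃ sn, sn = ⌊lv 0 (r + 1) * J⌋₊ := ⟨_, rfl⟩
  obtain ⟨x, hx⟩ : ∃ x, x = ⌊(ζ + 8 * (C * η₀)) * J⌋₊ := ⟨_, rfl⟩
  rw [← hsu, ← hsn, ← hx] at k3
  have su1 : (su : ℝ) ≤ lv 0 r * J := by rw [hsu]; exact Nat.floor_le (mul_nonneg hl0 hJ0)
  have su2 : lv 0 r * J < su + 1 := by rw [hsu]; exact Nat.lt_floor_add_one _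
  have sn1 : (sn : ℝ) ≤ lv 0 (r + 1) * J := by
    rw [hsn]; exact Nat.floor_le (mul_nonneg hlv1 hJ0)
  have sn2 : lv 0 (r + 1) * J < sn + 1 := by rw [hsn]; exact Nat.lt_floor_add_one _
  have ex : (ζ + 8 * (C * η₀)) * (J : ℝ) = Zt + 8 * X := by rw [hX, hZt]; ring
  have x1 : (x : ℝ) ≤ Zt + 8 * X := by
    rw [hx, ← ex]
    exact Nat.floor_le (by rw [ex]; linarith)
  have hηf : (⌊η₀ * J⌋₊ : ℝ) ≤ η₀ * J := Nat.floor_le hηJ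
  obtain ⟨-, -, a1, a2, -, -⟩ := W.win.g_num (Nat.zero_le N) (l := r) (by omega)
  obtain ⟨-, -, a3, a4, -, -⟩ := W.win.g_num (Nat.zero_le N) (l := r + 1) le_rfl
  have hPJ : 0 ≤ P * J := mul_nonneg hP hJ0
  have p2 : ((⌈P * J⌉₊ : ℕ) : ℝ) < P * J + 1 := Nat.ceil_lt_add_one hPJ
  have hPJ' : P * J + 2 * Zt + 24 * X ≤ lv 0 (r + 1) * J := by
    have := mul_le_mul_of_nonneg_right hPn hJ0
    refine le_trans (le_of_eq ?_) this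
    rw [hX, hZt]
    ring
  obtain ⟨zz, zz', hl, hlC⟩ := blg_lbp (F := F) (c := c) (r := r) (D := D) (P := ⌈P * J⌉₊)
    (K₁ := 2 ^ (⌊η₀ * J⌋₊ + 2 * x + 2) * (2 ^ su / 2 ^ sn))
    (CL := fun s => MvPolynomial.C (2 ^ su / 2 ^ sn * κL s))
    (Cp := fun y => MvPolynomial.C (2 ^ su / 2 ^ sn * κG y))
    (hb0.ball.sub hB'B) (fun ω hω => hb0.cls ω (hB'B ω hω))
    (fun s => by rw [totalDegree_C]; exact Nat.zero_le _)
    (fun y => by rw [totalDegree_C]; exact Nat.zero_le _)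
    (fun s b b' _ _ => by rw [eval_C, eval_C]) (fun y b b' _ _ => by rw [eval_C, eval_C])
    (fun ω hω => by beta_reduce; rw [k3.clo ω hω])
    (fun ω hω b hb => by
      beta_reduce
      rw [eval_C]
      exact k3.box1 ω hω b hb) hc1 (by
      have e9 : (1 : ℝ) / 2 ^ ⌈P * J⌉₊ =
          (2 : ℝ) ^ (-(⌈P * J⌉₊ : ℝ) - 1) + (2 : ℝ) ^ (-(⌈P * J⌉₊ : ℝ) - 1) := by
        rw [← two_mul, Real.rpow_sub_one h2.ne', Real.rpow_neg h2.le, Real.rpow_natCast]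
        field_simp
      rw [e9]
      refine add_le_add ?_ ?_
      · have : (1 : ℝ) / 2 ^ g₀ 0 (r + 1) = (2 : ℝ) ^ (-(g₀ 0 (r + 1) : ℝ)) := by
          rw [Real.rpow_neg h2.le, Real.rpow_natCast, one_div]
        rw [this]
        exact Real.rpow_le_rpow_of_exponent_le (by norm_num) (by linarith)
      · have : (2 : ℝ) ^ (⌊η₀ * J⌋₊ + 2 * x + 2) * (2 ^ su / 2 ^ sn) * (1 / 2 ^ g₀ 0 r) =
            (2 : ℝ) ^ (((⌊η₀ * J⌋₊ + 2 * x + 2 : ℕ) : ℝ) + ((su : ℝ) - sn) - g₀ 0 r) := by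
          rw [Real.rpow_sub h2, Real.rpow_add h2, Real.rpow_sub h2, Real.rpow_natCast,
            Real.rpow_natCast, Real.rpow_natCast, Real.rpow_natCast]
          ring
        rw [this]
        refine Real.rpow_le_rpow_of_exponent_le (by norm_num) ?_
        push_cast
        linarith)
  refine ⟨B', fun ω hω => b1 ω (hB'B ω hω), ?_, BlV m c r D, zz, zz', blG, ⌈P * J⌉₊, hl,
    Nat.le_ceil _, fun k hk => ?_⟩
  · have := mul_le_mul_of_nonneg_left k2 (mul_pos hK₂ hK₁).le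
    linarith
  · have hkN := hn k hk
    have hbk := W.win.evs k hkN
    obtain ⟨V₁, z₁, z₁', G₁, l1, l2⟩ := lbp_ball (hbk.ball.sub hB'B)
      (fun ω hω => hbk.cls ω (hB'B ω hω))
    refine ⟨V₁, z₁, z₁', G₁, g₀ k (r + 1), l1, ?_, fun ω hω => ?_⟩
    · obtain ⟨-, -, q1, -, -, -⟩ := W.win.g_num hkN (l := r + 1) le_rfl
      have e1 : (lv k (r + 1) - η₀) * (J : ℝ) = lv k (r + 1) * J - η₀ * J := by ring
      beta_reduce
      rw [e1]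
      exact q1
    · rw [map_sub, map_sub, l2, blg_dir hc1, hlC]
      beta_reduce
      rw [eval_C]
      have h3 := hnear k hkN (h0k k hk) ω (hB'B ω hω)
      have h4 := k3.own ω hω (rt F ⌊o 0 * J⌋₊ ω) (rt_mem F _ ω)
      rw [eval_spt h0J] at h4
      obtain ⟨α, hα⟩ : ∃ α, α = eval (bt F ω)
        (pderiv (some (c r)) (Ht 0 (slam F ⌊o 0 * J⌋₊ ω))) := ⟨_, rfl⟩
      obtain ⟨β, hβ⟩ : ∃ β, β = eval (bt F ω)
        (pderiv (some (c r)) (H k (slam F ⌊o k * J⌋₊ ω) (r + 1))) := ⟨_, rfl⟩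
      rw [← hα] at h3 h4
      rw [← hβ] at h3 ⊢
      have hU : (0 : ℝ) < 2 ^ su / 2 ^ sn := by positivity
      have h5 : |α - 2 ^ su / 2 ^ sn * κL (slam F ⌊o 0 * J⌋₊ ω)| ≤
          2 ^ su / 2 ^ sn * (2 / 2 ^ ⌊M₁ * J⌋₊) := by
        have e1 : α - 2 ^ su / 2 ^ sn * κL (slam F ⌊o 0 * J⌋₊ ω) =
            2 ^ su / 2 ^ sn * (2 ^ sn / 2 ^ su * α - κL (slam F ⌊o 0 * J⌋₊ ω)) := by
          field_simp
        rw [e1, abs_mul, abs_of_pos hU]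
        exact mul_le_mul_of_nonneg_left h4 hU.le
      have h6 : (2 : ℝ) ^ ((lv k r - lv k (r + 1) + ζ + 6 * (C * η₀)) * J) ≤
          (2 : ℝ) ^ (x₀ k * J - 1) := by
        refine Real.rpow_le_rpow_of_exponent_le (by norm_num) ?_
        have e1 := mul_le_mul_of_nonneg_right (hx1 k hk) hJ0
        have e2 : (lv k r - lv k (r + 1) + ζ + 7 * (C * η₀)) * (J : ℝ) =
            (lv k r - lv k (r + 1) + ζ + 6 * (C * η₀)) * J + X := by rw [hX]; ring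
        linarith
      have h7 : 2 ^ su / 2 ^ sn * (2 / 2 ^ ⌊M₁ * J⌋₊) ≤ (2 : ℝ) ^ (x₀ k * J - 1) := by
        have e3 : (2 : ℝ) ^ su / 2 ^ sn * (2 / 2 ^ ⌊M₁ * J⌋₊) =
            (2 : ℝ) ^ ((su : ℝ) - sn + (1 - (⌊M₁ * J⌋₊ : ℝ))) := by
          rw [Real.rpow_add h2, Real.rpow_sub h2, Real.rpow_sub h2, Real.rpow_natCast,
            Real.rpow_natCast, Real.rpow_natCast, Real.rpow_one]
        rw [e3]
        refine Real.rpow_le_rpow_of_exponent_le (by norm_num) ?_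
        have e1 := mul_le_mul_of_nonneg_right (hx2 k hk) hJ0
        have e2 : (lv 0 r - lv 0 (r + 1) - M₁ + C * η₀) * (J : ℝ) =
            lv 0 r * J - lv 0 (r + 1) * J - M₁ * J + X := by rw [hX]; ring
        have e4 : M₁ * J < ⌊M₁ * J⌋₊ + 1 := Nat.lt_floor_add_one _
        linarith
      have h8 : (2 : ℝ) ^ (x₀ k * J) = (2 : ℝ) ^ (x₀ k * J - 1) + (2 : ℝ) ^ (x₀ k * J - 1) := by
        rw [← two_mul, Real.rpow_sub_one h2.ne']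
        field_simp
      rw [h8]
      have h9 : β - 2 ^ su / 2 ^ sn * κL (slam F ⌊o 0 * J⌋₊ ω) =
          -(α - β) + (α - 2 ^ su / 2 ^ sn * κL (slam F ⌊o 0 * J⌋₊ ω)) := by ring
      rw [h9]
      refine (abs_add_le _ _).trans (add_le_add ?_ (h5.trans h7))
      rw [abs_neg]
      exact h3.trans h6

end Pool.CR99
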