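import Pool.Agent.H99.D2.Unc
import Pool.Agent.H76.CNC.Bll

/-!
# The closed label from a closed slope, on one event

`lab_ev`: a closed polynomial whose derivative in the direction `u = c r` is near the ones of the charts of
`N = c (r + 1)` at the samples gives a closed label. `lab_cst`: from a closed number (`Clo`).
-/

set_option autoImplicit false

namespace Pool.CR99

open Finset Real MvPolynomial
open Pool.Agent.H49.Ent Pool.Agent.H32.Dense Pool.STK Pool.KA Pool.KSAT Pool.K2S Pool.PB Pool.S6C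
open Pool.GEN Pool.CHT Pool.CHX Pool.ISO Pool.D2R Pool.D2G30 Pool.V1E
open Pool.FLF (Fam.sub)
open Pool.PB.Trl (rt rt_mem t_rt)
open Pool.GRD (LbP)
open Pool.CNC76 (Clo)

/-- **The closed label** from a closed polynomial with the right slopes at the samples. -/
theorem lab_ev {m J : ℕ} {F : Fam m J} {c : ℕ → Fin m} {r D Dr h e n P ow : ℕ} {κ K : ℝ}
    {gw : ℕ → ℕ} {o : ℕ → ℕ} {g : ℕ → ℕ → ℕ} {X : ℕ → ℝ} {B B₁ : F.Ω → Prop}
    {Gw : PtT F → ℕ → MvPolynomial (Option (Fin m)) ℝ}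
    {Hw : LnT F → ℕ → MvPolynomial (Option (Fin m)) ℝ}
    {G : ℕ → PtT F → ℕ → MvPolynomial (Option (Fin m)) ℝ}
    {H : ℕ → LnT F → ℕ → MvPolynomial (Option (Fin m)) ℝ}
    {ML : LnT F → MvPolynomial (Option (Fin m)) ℝ} {Mp : PtT F → MvPolynomial (Option (Fin m)) ℝ}
    (hD : D ≤ Dr) (hc : Set.InjOn c (Set.Iio (r + 1)))
    (hch : ChOK F c (r + 2) (fun _ => D) ow ow e gw B Gw Hw)
    (hcl : Clsd F (r + 2) ow B Gw Hw)
    (hrel : RelvF F c (r + 1) ow ow gw Dr h κ B Gw)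
    (hfam : ∀ k < n, ∃ e' : ℕ, ChOK F c (r + 2) (fun _ => D) (o k) (o k) e' (g k) B (G k) (H k) ∧
      Clsd F (r + 2) (o k) B (G k) (H k))
    (hdL : ∀ s, (ML s).totalDegree ≤ D) (hdp : ∀ y, (Mp y).totalDegree ≤ D)
    (hpL : ∀ s, DepC c (r + 1) (ML s)) (hpp : ∀ y, DepC c (r + 1) (Mp y))
    (hB₁ : Sub B₁ B) (hκ : κ * Pe F.p B ≤ Pe F.p B₁)
    (hclo : ∀ ω, B₁ ω → Mp (ptr F J ω) = ML (slam F ow ω))
    (hnw : ∀ ω, B₁ ω → |eval (bt F ω) (pderiv (some (c r)) (Hw (slam F ow ω) (r + 1))) -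
      eval (bt F ω) (pderiv (some (c r)) (ML (slam F ow ω)))| ≤ K) (hK : 0 < K)
    (hn : ∀ k < n, ∀ ω, B₁ ω →
      |eval (bt F ω) (pderiv (some (c r)) (H k (slam F (o k) ω) (r + 1))) -
      eval (bt F ω) (pderiv (some (c r)) (ML (slam F ow ω)))| ≤ X k)
    (hP : 1 / 2 ^ gw (r + 1) + 2 ^ h * K * (1 / 2 ^ gw r) ≤ 1 / (2 : ℝ) ^ P) :
    ∃ B₂ : F.Ω → Prop, Sub B₂ B₁ ∧ Pe F.p B₁ / 2 ≤ Pe F.p B₂ ∧
      ∃ (V : Type) (z : PtT F → V) (z' : LnT F → V) (G' : V → MvPolynomial (Option (Fin m)) ℝ),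
        LbP F ((range (r + 1)).image c) (c (r + 1)) (bmd D) J ow P B₂ z z' G' ∧
        ∀ k < n, ∃ (V₁ : Type) (z₁ : PtT F → V₁) (z₁' : LnT F → V₁)
          (G₁ : V₁ → MvPolynomial (Option (Fin m)) ℝ),
          LbP F ((range (r + 1)).image c) (c (r + 1)) D J (o k) (g k (r + 1)) B₂ z₁ z₁' G₁ ∧
          ∀ ω, B₂ ω → |eval (bt F ω) (pderiv (some (c r)) (G₁ (z₁' (slam F (o k) ω)) -
            G' (z' (slam F ow ω))))| ≤ X k := by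
  classical
  obtain ⟨B₂, d1, d2, d3⟩ := pol_box (K := K) hD hch.degG hch.degH hch.depG hch.depH hcl hrel hdL hdp
    hpL hpp hB₁ hκ hclo hnw hK
  have hB₂ : Sub B₂ B := fun ω hω => hB₁ ω (d1 ω hω)
  obtain ⟨zz, zz', hl, hlC⟩ := bmg_lbp (F := F) (c := c) (r := r) (D := D) (P := P)
    (K₁ := 2 ^ h * K) (hch.sub hB₂) (fun ω hω => hcl ω (hB₂ ω hω)) hdL hdp hpL hpp
    (fun ω hω => hclo ω (d1 ω hω)) d3 hc hP
  refine ⟨B₂, d1, d2, BmV m c r D, zz, zz', bmG, hl, fun k hk => ?_⟩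
  obtain ⟨e', f1, f2⟩ := hfam k hk
  obtain ⟨V₁, z₁, z₁', G₁, l1, l2⟩ := lbp_ball (f1.sub hB₂) (fun ω hω => f2 ω (hB₂ ω hω))
  refine ⟨V₁, z₁, z₁', G₁, l1, fun ω hω => ?_⟩
  rw [map_sub, map_sub, l2, bmg_dir hc, hlC]
  exact hn k hk ω (d1 ω hω)

/-- The codes of a closed function. -/
theorem clo_fun {m J : ℕ} {F : Fam m J} {B : F.Ω → Prop} {w : ℕ} {K₀ : F.Ω → ℝ}
    (h : Clo B (ptr F J) (slam F w) K₀) : ∃ (κL : LnT F → ℝ) (κG : PtT F → ℝ),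
      (∀ ω, B ω → κG (ptr F J ω) = K₀ ω) ∧ ∀ ω, B ω → κL (slam F w ω) = K₀ ω := by
  classical
  refine ⟨fun s => if h : ∃ ν, B ν ∧ s = slam F w ν then K₀ h.choose else 0,
    fun y => if h : ∃ ν, B ν ∧ y = ptr F J ν then K₀ h.choose else 0, fun ω hω => ?_, fun ω hω => ?_⟩
  · have h1 : ∃ ν, B ν ∧ ptr F J ω = ptr F J ν := ⟨ω, hω, rfl⟩
    beta_reduce
    rw [dif_pos h1]
    exact h.1 _ _ h1.choose_spec.1 hω h1.choose_spec.2.symm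
  · have h1 : ∃ ν, B ν ∧ slam F w ω = slam F w ν := ⟨ω, hω, rfl⟩
    beta_reduce
    rw [dif_pos h1]
    exact h.2 _ _ h1.choose_spec.1 hω h1.choose_spec.2.symm

/-- **The closed label from a closed number** near the slopes of the charts at the samples. -/
theorem lab_cst {m J : ℕ} {F : Fam m J} {c : ℕ → Fin m} {r D Dr h e n P ow : ℕ} {κ K : ℝ}
    {gw : ℕ → ℕ} {o : ℕ → ℕ} {g : ℕ → ℕ → ℕ} {X : ℕ → ℝ} {B B₁ : F.Ω → Prop}
    {Gw : PtT F → ℕ → MvPolynomial (Option (Fin m)) ℝ}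
    {Hw : LnT F → ℕ → MvPolynomial (Option (Fin m)) ℝ}
    {G : ℕ → PtT F → ℕ → MvPolynomial (Option (Fin m)) ℝ}
    {H : ℕ → LnT F → ℕ → MvPolynomial (Option (Fin m)) ℝ} {K₀ : F.Ω → ℝ}
    (hD1 : 1 ≤ D) (hD : D ≤ Dr) (hc : Set.InjOn c (Set.Iio (r + 1)))
    (hch : ChOK F c (r + 2) (fun _ => D) ow ow e gw B Gw Hw)
    (hcl : Clsd F (r + 2) ow B Gw Hw)
    (hrel : RelvF F c (r + 1) ow ow gw Dr h κ B Gw)
    (hfam : ∀ k < n, ∃ e' : ℕ, ChOK F c (r + 2) (fun _ => D) (o k) (o k) e' (g k) B (G k) (H k) ∧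
      Clsd F (r + 2) (o k) B (G k) (H k))
    (hB₁ : Sub B₁ B) (hκ : κ * Pe F.p B ≤ Pe F.p B₁)
    (hclo : Clo B₁ (ptr F J) (slam F ow) K₀)
    (hnw : ∀ ω, B₁ ω → |eval (bt F ω) (pderiv (some (c r)) (Hw (slam F ow ω) (r + 1))) - K₀ ω| ≤ K)
    (hK : 0 < K)
    (hn : ∀ k < n, ∀ ω, B₁ ω →
      |eval (bt F ω) (pderiv (some (c r)) (H k (slam F (o k) ω) (r + 1))) - K₀ ω| ≤ X k)
    (hP : 1 / 2 ^ gw (r + 1) + 2 ^ h * K * (1 / 2 ^ gw r) ≤ 1 / (2 : ℝ) ^ P) :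
    ∃ B₂ : F.Ω → Prop, Sub B₂ B₁ ∧ Pe F.p B₁ / 2 ≤ Pe F.p B₂ ∧
      ∃ (V : Type) (z : PtT F → V) (z' : LnT F → V) (G' : V → MvPolynomial (Option (Fin m)) ℝ),
        LbP F ((range (r + 1)).image c) (c (r + 1)) (bmd D) J ow P B₂ z z' G' ∧
        ∀ k < n, ∃ (V₁ : Type) (z₁ : PtT F → V₁) (z₁' : LnT F → V₁)
          (G₁ : V₁ → MvPolynomial (Option (Fin m)) ℝ),
          LbP F ((range (r + 1)).image c) (c (r + 1)) D J (o k) (g k (r + 1)) B₂ z₁ z₁' G₁ ∧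
          ∀ ω, B₂ ω → |eval (bt F ω) (pderiv (some (c r)) (G₁ (z₁' (slam F (o k) ω)) -
            G' (z' (slam F ow ω))))| ≤ X k := by
  obtain ⟨κL, κG, h1, h2⟩ := clo_fun hclo
  refine lab_ev (ML := fun s => mu1 c r (κL s)) (Mp := fun y => mu1 c r (κG y)) hD hc hch hcl hrel
    hfam (fun s => (deg_mu1 c r _).trans hD1) (fun y => (deg_mu1 c r _).trans hD1)
    (fun s => dep_mu1 c r _) (fun y => dep_mu1 c r _) hB₁ hκ (fun ω hω => by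
      beta_reduce
      rw [h1 ω hω, h2 ω hω]) (fun ω hω => by
      beta_reduce
      rw [pd_mu1, h2 ω hω]
      exact hnw ω hω) hK (fun k hk ω hω => by
      beta_reduce
      rw [pd_mu1, h2 ω hω]
      exact hn k hk ω hω) hP

end Pool.CR99
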