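import Pool.Agent.H99.D2.Blh
import Pool.Agent.H3.D2G.RecN

/-!
# The closed slope at the windows of a record

`wgs_rec`: the windows with rows of a record, as data of a class. `blx_deep`, `blx_scl`: the closed slope
`BlX` from the aliveness of the velocity of `u = c r` at one window.
-/

set_option autoImplicit false

namespace Pool.CR99

open Finset Real MvPolynomial
open Pool.Agent.H49.Ent Pool.Agent.H32.Dense Pool.STK Pool.KA Pool.KSAT Pool.K2S Pool.PB Pool.S6C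
open Pool.GEN Pool.CHT Pool.CHX Pool.ISO Pool.D2R Pool.D2G30 Pool.V1E Pool.PKG
open Pool.LBT (ThrOf)
open Pool.LEV (Law)

/-- The windows with rows of a record. -/
theorem wgs_rec (m r S₂ : ℕ) (hS₂ : 1 ≤ S₂) : ∃ D : ℕ, 1 ≤ D ∧ ∀ Dr : ℕ, D ≤ Dr →
    ∃ C : ℝ, 1 ≤ C ∧ ∀ {S : PCl m} {al : ℝ} {g₀ : ℝ → ℝ}
    {P : List (Fin m) × Fin m → ℝ → ℝ → ℝ} {θ : ℝ}
    {P₂ : ℕ → List (Fin m) × Fin m → ℝ → ℝ → ℝ} {θ₂ Eb e₂ : ℕ → ℝ} {c : ℕ → Fin m}
    {Pt : ℝ → ℝ → ℝ} {rr : ℝ → ℝ} {h K₀ g : ℝ} {L T : ℕ → ℝ → ℝ → ℝ} {Sl : ℕ → ℝ}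
    {κ : ℕ → Kg} {G : Set ℝ} {S₀ N : ℕ} {A V : ℕ → ℝ} {N' : ℕ} {V' : ℕ → ℝ} {K ε q t : ℝ},
    RecG S al g₀ P θ P₂ θ₂ Eb e₂ c Pt rr h K₀ g L T Sl κ G S₀ N A V S₂ N' V' K ε q t →
    r + 1 < m → 0 ≤ ε → ∀ {a η : ℝ} {W : ℕ → ℝ} {n : ℕ},
    (∀ k ≤ n, ∃ j < N, A j = a ∧ V j = W k) → (∀ k ≤ n, -K + 1 ≤ W k ∧ W k + 1 ≤ a) → a ≤ K →
    0 < η → 3 * C * ε < η → 4 * (C * η) ≤ 1 →
    ∃ (K₁ : ℝ) (b : ℕ → ℕ → ℝ), 0 < K₁ ∧
      WgS S c r D Dr n n (fun l => κ l = .one ∨ κ l = .thin) C (t + a * q) (Eb (r + 1))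
        (3 * ε * q) (η * q) (L (r + 1)) (fun k => t + W k * q)
        (fun k l => lvN P c (r + 1) (L (r + 1)) l (t + W k * q) (t + W k * q))
        (fun k l => bet P c l (t + a * q) (t + W k * q)) b K₁ := by
  obtain ⟨D, hD, hw⟩ := wg_con m (r + 1) S₂ (by omega) hS₂
  refine ⟨D, hD, fun Dr hDr => ?_⟩
  obtain ⟨C, hC, hw⟩ := hw Dr hDr
  refine ⟨C, hC, ?_⟩
  intro S al g₀ P θ P₂ θ₂ Eb e₂ c Pt rr h K₀ g L T Sl κ G S₀ N A V N' V' K ε q t Rc hr hε a η W n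
    hW hWb haK hη hεη hCη
  have hq := Rc.q0
  have ht0 := Rc.t0
  have ht1 := Rc.t1
  have Tg := Rc.tg (r + 1) (by omega) hr
  have hlv : ∀ l ≤ r + 1, ∀ x y : ℝ, lvN P c (r + 1) (L (r + 1)) l x y = L l x y :=
    fun l hl x y => by rw [← Rc.lv_at hr hl]
  have hC0 : 0 < C := by linarith
  have hCηq : 4 * (C * (η * q)) ≤ q := by
    have := mul_le_mul_of_nonneg_right hCη hq.le
    linarith
  have hηC : η * q ≤ C * (η * q) := le_mul_of_one_le_left (by positivity) hC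
  have hηq : 0 < η * q := by positivity
  have hWq : ∀ k ≤ n, -(K * q) + q ≤ W k * q ∧ W k * q + q ≤ a * q := fun k hk => by
    have h1 := mul_le_mul_of_nonneg_right (hWb k hk).1 hq.le
    have h2 := mul_le_mul_of_nonneg_right (hWb k hk).2 hq.le
    constructor <;> linarith
  have haq : a * q ≤ K * q := mul_le_mul_of_nonneg_right haK hq.le
  have hWx : ∀ k ≤ n, |t + W k * q - t| ≤ K * q := fun k hk => by
    obtain ⟨h1, h2⟩ := hWq k hk
    rw [abs_le]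
    constructor <;> linarith
  have hax : ∀ k ≤ n, |t + a * q - t| ≤ K * q := fun k hk => by
    obtain ⟨h1, h2⟩ := hWq k hk
    rw [abs_le]
    constructor <;> linarith
  obtain ⟨K₁, b, hK₁, hb⟩ := hw (S := S) (P := P) (θ := θ) (c := c) (Pt := L (r + 1))
    (R := fun l => κ l = .one ∨ κ l = .thin) (a := t + a * q) (Eb := Eb (r + 1))
    (ε₀ := 3 * ε * q) (η₀ := η * q) (o := fun k => t + W k * q) n n le_rfl Rc.thr Rc.th0 Rc.tmh
    (Rc.inj.mono fun x hx => by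
      rw [Set.mem_Iio] at hx ⊢
      omega) (Rc.lawL _ hr) Tg.Eb0.le (fun k hk => by
      obtain ⟨j, hj, hA, hV⟩ := hW k hk
      have h1 := Rc.winD (i := r + 1) (by omega) hr hj (by rw [hV]; linarith [(hWb k hk).1])
        (by rw [hA, hV]; linarith [(hWb k hk).2]) (by rw [hA]; exact haK) (ε' := 3 * ε * q) le_rfl
        hε (Rg := fun l => κ l = .one ∨ κ l = .thin) (fun l _ h => h)
      rw [hA, hV] at h1
      exact h1) (fun k h1 h2 => absurd h2 (by omega)) (by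
      have := mul_lt_mul_of_pos_right hεη hq
      linarith) (fun k hk => by
      obtain ⟨h1, h2⟩ := hWq k hk
      have h3 : 0 ≤ t + W k * q := by linarith
      have h4 := Rc.low_at hr (a := t + a * q) (w := t + W k * q) h3 (by linarith) (by linarith)
      have h5 := Rc.low_at hr (a := t + W k * q) (w := t + W k * q) h3 le_rfl (by linarith)
      rw [hlv _ le_rfl]
      refine ⟨by linarith, by linarith, by linarith⟩) (fun k hk => by
      obtain ⟨h1, h2⟩ := hWq k hk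
      linarith) (by linarith) (fun k hk l hl => by
      obtain ⟨h1, h2⟩ := hWq k hk
      have h3 := Tg.room l hl _ (hWx k hk)
      rw [hlv l hl]
      linarith) (fun k hk l hl => by
      obtain ⟨h1, h2⟩ := hWq k hk
      have h3 := Tg.room l hl.le _ (hax k hk)
      rw [Rc.lv_lt (l := l) (by omega)] at h3
      have h4 : bet P c l (t + a * q) (t + W k * q) ≤ bet P c l (t + a * q) (t + a * q) :=
        (Rc.thr.law _).mono_w _ _ _ (by linarith) (by linarith) le_rfl (by linarith)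
      linarith)
  exact ⟨K₁, b, hK₁, hb⟩

/-- Weaker numbers. -/
theorem BlX.mono {m : ℕ} {S : PCl m} {c : ℕ → Fin m} {r K K₁ : ℕ} {w P P' : ℝ} {n n' : ℕ}
    {v v' p₁ p₁' x₀ x₀' : ℕ → ℝ} {κ κ' : ℝ} (h : BlX S c r K K₁ w P n v p₁ x₀ κ) (hP : P' ≤ P)
    (hn : n' ≤ n) (hv : ∀ k < n', v' k = v k) (hp : ∀ k < n', p₁' k ≤ p₁ k)
    (hx : ∀ k < n', x₀ k ≤ x₀' k) (hκ : κ ≤ κ') : BlX S c r K K₁ w P' n' v' p₁' x₀' κ' := by
  refine Bas.mono 0 h ?_
  rintro J - F A ⟨B, b1, b2, V, z, z', G, Q, l1, l2, l3⟩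
  have hJ0 : (0 : ℝ) ≤ J := Nat.cast_nonneg J
  refine ⟨B, b1, b2.trans (mul_le_mul_of_nonneg_right hκ (Pe_nonneg F.isLaw B)), V, z, z', G, Q,
    l1, (mul_le_mul_of_nonneg_right hP hJ0).trans l2, fun k hk => ?_⟩
  obtain ⟨V₁, z₁, z₁', G₁, P₁, h1, h2, h3⟩ := l3 k (hk.trans_le hn)
  rw [hv k hk]
  refine ⟨V₁, z₁, z₁', G₁, P₁, h1, (mul_le_mul_of_nonneg_right (hp k hk) hJ0).trans h2,
    fun ω hω => (h3 ω hω).trans ?_⟩
  exact Real.rpow_le_rpow_of_exponent_le (by norm_num) (mul_le_mul_of_nonneg_right (hx k hk) hJ0)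

/-- **The level of the rows** of a steep or static coordinate at a base window. -/
theorem RecG.row_ge {m : ℕ} {S : PCl m} {al : ℝ} {g₀ : ℝ → ℝ}
    {P : List (Fin m) × Fin m → ℝ → ℝ → ℝ} {θ : ℝ}
    {P₂ : ℕ → List (Fin m) × Fin m → ℝ → ℝ → ℝ} {θ₂ Eb e₂ : ℕ → ℝ} {c : ℕ → Fin m}
    {Pt : ℝ → ℝ → ℝ} {rr : ℝ → ℝ} {h K₀ g : ℝ} {L T : ℕ → ℝ → ℝ → ℝ} {Sl : ℕ → ℝ}
    {κ : ℕ → Kg} {G : Set ℝ} {S₀ N : ℕ} {A V : ℕ → ℝ} {S₂ N' : ℕ} {V' : ℕ → ℝ} {K ε q t : ℝ}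
    (Rc : RecG S al g₀ P θ P₂ θ₂ Eb e₂ c Pt rr h K₀ g L T Sl κ G S₀ N A V S₂ N' V' K ε q t)
    {i : ℕ} (hi : i < m) (hκ : κ i = .stp ∨ κ i = .sta) (hε : 0 ≤ ε) {a w₀ w : ℝ}
    (hj : ∃ j < N, A j = a ∧ V j = w₀) (hw₀ : -K ≤ w₀) (hw : -K ≤ w) (hw₀a : w₀ ≤ a) (hwa : w ≤ a)
    (haK : a ≤ K) (hb : (Sl i - 1) * (w - w₀) ≤ a - w₀) :
    L i (t + w * q) (t + w * q) + (t + a * q - (t + w * q)) ≤
      L i (t + a * q) (t + w₀ * q) + 4 * ε * q := by
  have hq := Rc.q0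
  have hεq : 0 ≤ ε * q := mul_nonneg hε hq.le
  have m1 : -(K * q) ≤ w₀ * q := by
    have := mul_le_mul_of_nonneg_right hw₀ hq.le
    linarith
  have m2 : -(K * q) ≤ w * q := by
    have := mul_le_mul_of_nonneg_right hw hq.le
    linarith
  have m3 : w * q ≤ a * q := mul_le_mul_of_nonneg_right hwa hq.le
  have m5 : w₀ * q ≤ a * q := mul_le_mul_of_nonneg_right hw₀a hq.le
  have m4 : a * q ≤ K * q := mul_le_mul_of_nonneg_right haK hq.le
  have bx : ∀ y : ℝ, -(K * q) ≤ y * q → y * q ≤ a * q → |t + y * q - t| ≤ K * q :=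
    fun y h1 h2 => by
    rw [abs_le]
    constructor <;> linarith
  have d1 := abs_le.1 (Rc.dL i hi _ (bx w m2 m3))
  have e1 : t + w * q - t = w * q := by ring
  rw [e1] at d1
  have hk := Rc.kd i hi
  rcases hκ with h1 | h1
  · rw [h1] at hk
    have k1 := hk.2 (t + a * q) (t + w₀ * q) (by linarith) (by linarith) (by linarith)
    obtain ⟨j, hj, hA, hV⟩ := hj
    have k2 := (Rc.TL j hj i hi).1
    rw [hA, hV] at k2
    have k3 := abs_le.1 (Rc.dT i hi _ (bx w₀ m1 m5))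
    have e2 : t + w₀ * q - t = w₀ * q := by ring
    rw [e2] at k3
    have k4 := mul_le_mul_of_nonneg_right hb hq.le
    have k5 : (Sl i - 1) * (w - w₀) * q = Sl i * (w * q) - Sl i * (w₀ * q) - w * q + w₀ * q := by
      ring
    have k6 : (a - w₀) * q = a * q - w₀ * q := by ring
    linarith [k3.1, d1.2]
  · rw [h1] at hk
    have k1 := hk.2 (t + a * q) (t + w₀ * q) (by linarith) (by linarith) (by linarith)
    have k3 := abs_le.1 (Rc.dL i hi _ (bx a (m2.trans m3) le_rfl))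
    have e2 : t + a * q - t = a * q := by ring
    rw [e2] at k3
    have k4 : a * q - w * q ≤ Sl i * (a * q - w * q) :=
      le_mul_of_one_le_left (by linarith) (by linarith [hk.1])
    have k5 : Sl i * (a * q - w * q) = Sl i * (a * q) - Sl i * (w * q) := by ring
    linarith [k3.1, d1.2]

/-- **The closed slope at the windows of a record**, from the aliveness at a deep window. -/
theorem blx_deep (m r S₂ : ℕ) (hS₂ : 1 ≤ S₂) : ∃ D : ℕ, 1 ≤ D ∧
    ∀ {α b ρ a V₀ Vm Vd : ℝ}, 0 < ρ → ρ ≤ 1 → α ≤ b → V₀ ≤ Vm → Vm ≤ Vd → Vd + 1 ≤ a →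
    (b - 1) * (Vd - V₀) ≤ a - V₀ → 1 ≤ b →
    (b - α) * (Vm - V₀) < (b - α - 1) * (Vd - V₀) →
    ∃ θ₀ : ℝ, 0 < θ₀ ∧ ∀ θ : ℝ, 0 < θ → θ ≤ θ₀ → ∃ ε₀ : ℝ, 0 < ε₀ ∧
    ∀ {S : PCl m} {al : ℝ} {g₀ : ℝ → ℝ}
    {P : List (Fin m) × Fin m → ℝ → ℝ → ℝ} {ϑ : ℝ}
    {P₂ : ℕ → List (Fin m) × Fin m → ℝ → ℝ → ℝ} {θ₂ Eb e₂ : ℕ → ℝ} {c : ℕ → Fin m}
    {Pt : ℝ → ℝ → ℝ} {rr : ℝ → ℝ} {h K₀ g : ℝ} {L T : ℕ → ℝ → ℝ → ℝ} {Sl : ℕ → ℝ}
    {κ : ℕ → Kg} {G : Set ℝ} {S₀ N : ℕ} {A V : ℕ → ℝ} {N' : ℕ} {V' : ℕ → ℝ} {K ε q t : ℝ},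
    RecG S al g₀ P ϑ P₂ θ₂ Eb e₂ c Pt rr h K₀ g L T Sl κ G S₀ N A V S₂ N' V' K ε q t →
    r + 1 < m → 0 ≤ ε → ε ≤ ε₀ → Sl r = α → Sl (r + 1) = b → κ r = .one ∨ κ r = .thin →
    κ (r + 1) = .stp ∨ κ (r + 1) = .sta → -K + 1 ≤ V₀ → a ≤ K → 1 ≤ K →
    ∀ {W : ℕ → ℝ} {n : ℕ}, W 0 = V₀ → (∀ k ≤ n, V₀ ≤ W k ∧ W k ≤ Vm) →
    (∀ k ≤ n, ∃ j < N, A j = a ∧ V j = W k) → (∃ j < N, A j = a ∧ V j = Vd) →
    ∀ {hi lvl ν : ℝ}, 0 < ν → AlvS S c r (t + Vd * q) hi lvl ν →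
    (∀ l ≤ r + 1, Eb (r + 1) + L l (t + Vd * q) (t + Vd * q) + q ≤ hi) →
    L r (t + Vd * q) (t + Vd * q) - (t + Vd * q) + θ / 2 * q ≤ lvl →
    lvl ≤ L r (t + Vd * q) (t + Vd * q) - (t + Vd * q) + θ * q →
    ∃ κ' : ℝ, 0 < κ' ∧ BlX S c r (bdg D) D (t + V₀ * q)
      (L (r + 1) (t + V₀ * q) (t + V₀ * q) - ρ * q) (n + 1) (fun k => t + W k * q)
      (fun k => L (r + 1) (t + W k * q) (t + W k * q) - ρ * q)
      (fun k => L r (t + W k * q) (t + W k * q) - L (r + 1) (t + W k * q) (t + W k * q) + ρ * q)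
      κ' := by
  obtain ⟨D, hD, hw⟩ := wgs_rec m r S₂ hS₂
  obtain ⟨C, hC, hw⟩ := hw D le_rfl
  obtain ⟨C₁, hC₁, hbx⟩ := blx_wg m D r
  obtain ⟨C₂, hC₂, hvl⟩ := vls_deep m D r
  refine ⟨D, hD, ?_⟩
  intro α b ρ a V₀ Vm Vd hρ hρ1 hαb hV0m hVmd hVda hrow hb1 hgap
  have c1 : (1 : ℝ) ≤ C₁ := by exact_mod_cast hC₁
  have c2 : (1 : ℝ) ≤ C₂ := by exact_mod_cast hC₂
  have d1 : (1 : ℝ) ≤ D := by exact_mod_cast hD
  obtain ⟨γ, hγ⟩ : ∃ γ : ℝ, γ = min ρ ((b - α - 1) * (Vd - V₀) - (b - α) * (Vm - V₀)) := ⟨_, rfl⟩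
  have hγ0 : 0 < γ := by
    rw [hγ]
    exact lt_min hρ (by linarith)
  have hγρ : γ ≤ ρ := by rw [hγ]; exact min_le_left _ _
  have hγg : γ ≤ (b - α - 1) * (Vd - V₀) - (b - α) * (Vm - V₀) := by
    rw [hγ]; exact min_le_right _ _
  refine ⟨γ / (8 * D * D), by positivity, fun θ hθ hθ₀ => ?_⟩
  rw [le_div_iff₀ (by positivity)] at hθ₀
  obtain ⟨η, hη⟩ : ∃ η : ℝ, η = min γ (min θ 1) / (64 * (C₁ + C₂) * C) := ⟨_, rfl⟩
  have hη0 : 0 < η := by rw [hη]; positivity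
  have hCp : 0 < C := by linarith
  have hη1 : 64 * (C₁ + C₂) * (C * η) = min γ (min θ 1) := by
    rw [hη]
    field_simp
  have m1 : min γ (min θ 1) ≤ γ := min_le_left _ _
  have m2 : min γ (min θ 1) ≤ θ := (min_le_right _ _).trans (min_le_left _ _)
  have m3 : min γ (min θ 1) ≤ 1 := (min_le_right _ _).trans (min_le_right _ _)
  rw [← hη1] at m1 m2 m3
  have hCη0 : 0 < C * η := by positivity
  have x1 : C * η ≤ C₁ * (C * η) := le_mul_of_one_le_left hCη0.le c1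
  have x2 : C * η ≤ C₂ * (C * η) := le_mul_of_one_le_left hCη0.le c2
  have x3 : 64 * (C₁ + C₂) * (C * η) = 64 * (C₁ * (C * η)) + 64 * (C₂ * (C * η)) := by ring
  rw [x3] at m1 m2 m3
  refine ⟨min (η / (6 * C)) (γ / (64 * (C₁ + C₂))), by positivity, ?_⟩
  intro S al g₀ P ϑ P₂ θ₂ Eb e₂ c Pt rr h K₀ g L T Sl κ G S₀ N A V N' V' K ε q t Rc hr hε hε₀ hα
    hb hκu hκN hKV haK hK1 W n hW0 hWV hWj hdj hi lvl ν hν hal hhi hl1 hl2
  have hq := Rc.q0
  have ht0 := Rc.t0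
  have ht1 := Rc.t1
  have Tg := Rc.tg (r + 1) (by omega) hr
  have hε1 := hε₀.trans (min_le_left _ _)
  have hε2 := hε₀.trans (min_le_right _ _)
  rw [le_div_iff₀ (by positivity)] at hε1 hε2
  have hεC : 3 * C * ε < η := by
    have : 0 < η / 2 := by positivity
    linarith
  have y1 : ε ≤ C₁ * ε := le_mul_of_one_le_left hε c1
  have y3 : ε * (64 * (C₁ + C₂)) = 64 * (C₁ * ε) + 64 * (C₂ * ε) := by ring
  have y2 : ε ≤ C₂ * ε := le_mul_of_one_le_left hε c2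
  rw [y3] at hε2
  -- the windows
  obtain ⟨W', hW'⟩ : ∃ W' : ℕ → ℝ, W' = fun k => if k ≤ n then W k else Vd := ⟨_, rfl⟩
  have hW'1 : ∀ k ≤ n, W' k = W k := fun k hk => by rw [hW']; exact if_pos hk
  have hW'2 : W' (n + 1) = Vd := by rw [hW']; exact if_neg (by omega)
  have hW'0 : W' 0 = V₀ := by rw [hW'1 0 (by omega), hW0]
  have hWb : ∀ k ≤ n + 1, V₀ ≤ W' k ∧ W' k ≤ Vd := fun k hk => by
    rcases Nat.lt_or_ge n k with h1 | h1
    · have : k = n + 1 := by omega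
      rw [this, hW'2]
      constructor <;> linarith
    · rw [hW'1 k h1]
      exact ⟨(hWV k h1).1, (hWV k h1).2.trans hVmd⟩
  have hWj' : ∀ k ≤ n + 1, ∃ j < N, A j = a ∧ V j = W' k := fun k hk => by
    rcases Nat.lt_or_ge n k with h1 | h1
    · have : k = n + 1 := by omega
      rw [this, hW'2]
      exact hdj
    · rw [hW'1 k h1]
      exact hWj k h1
  obtain ⟨K₁, bb, hK₁, hwg⟩ := hw Rc hr hε (a := a) (η := η) (W := W') (n := n + 1) hWj'
    (fun k hk => by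
      obtain ⟨h1, h2⟩ := hWb k hk
      constructor <;> linarith) haK hη0 hεC (by linarith)
  have hlv : ∀ l ≤ r + 1, ∀ x y : ℝ, lvN P c (r + 1) (L (r + 1)) l x y = L l x y :=
    fun l hl x y => by rw [← Rc.lv_at hr hl]
  -- products
  have hηq : 0 < η * q := by positivity
  have e0 : 0 < C * (η * q) := by positivity
  have q1 : 64 * (C₁ * (C * (η * q))) + 64 * (C₂ * (C * (η * q))) ≤ γ * q := by
    have := mul_le_mul_of_nonneg_right m1 hq.le
    linarith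
  have q2 : 64 * (C₁ * (C * (η * q))) + 64 * (C₂ * (C * (η * q))) ≤ θ * q := by
    have := mul_le_mul_of_nonneg_right m2 hq.le
    linarith
  have q3 : 64 * (C₁ * (C * (η * q))) + 64 * (C₂ * (C * (η * q))) ≤ q := by
    have := mul_le_mul_of_nonneg_right m3 hq.le
    linarith
  have q4 : C * (η * q) ≤ C₁ * (C * (η * q)) := le_mul_of_one_le_left e0.le c1
  have q5 : C * (η * q) ≤ C₂ * (C * (η * q)) := le_mul_of_one_le_left e0.le c2
  have q6 : 64 * (C₁ * (ε * q)) + 64 * (C₂ * (ε * q)) ≤ γ * q := by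
    have := mul_le_mul_of_nonneg_right hε2 hq.le
    linarith
  have hεq : 0 ≤ ε * q := mul_nonneg hε hq.le
  have q7 : ε * q ≤ C₁ * (ε * q) := le_mul_of_one_le_left hεq c1
  have q8 : ε * q ≤ C₂ * (ε * q) := le_mul_of_one_le_left hεq c2
  have hγq : 0 < γ * q := by positivity
  have hγρq : γ * q ≤ ρ * q := mul_le_mul_of_nonneg_right hγρ hq.le
  have hρq1 : ρ * q ≤ q := by
    have := mul_le_mul_of_nonneg_right hρ1 hq.le
    linarith
  have hKq : q ≤ K * q := by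
    have := mul_le_mul_of_nonneg_right hK1 hq.le
    linarith
  have haKq : a * q ≤ K * q := mul_le_mul_of_nonneg_right haK hq.le
  have hVKq : -(K * q) + q ≤ V₀ * q := by
    have := mul_le_mul_of_nonneg_right hKV hq.le
    linarith
  have hWq : ∀ k ≤ n + 1, V₀ * q ≤ W' k * q ∧ W' k * q ≤ Vd * q := fun k hk =>
    ⟨mul_le_mul_of_nonneg_right (hWb k hk).1 hq.le, mul_le_mul_of_nonneg_right (hWb k hk).2 hq.le⟩
  have hdaq : Vd * q + q ≤ a * q := by
    have := mul_le_mul_of_nonneg_right hVda hq.le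
    linarith
  have hbx' : ∀ k ≤ n + 1, |t + W' k * q - t| ≤ K * q := fun k hk => by
    obtain ⟨h1, h2⟩ := hWq k hk
    rw [abs_le]
    constructor <;> linarith
  have hlow : ∀ l ≤ r + 1, ∀ k ≤ n + 1, t + W' k * q ≤ L l (t + W' k * q) (t + W' k * q) :=
    fun l hl k hk => by
    obtain ⟨h1, h2⟩ := hWq k hk
    exact Rc.low_at (i := l) (by omega) (by linarith) le_rfl (by linarith)
  have hdN : ∀ k ≤ n + 1, |L (r + 1) (t + W' k * q) (t + W' k * q) - L (r + 1) t t -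
      b * (W' k * q)| ≤ ε * q := fun k hk => by
    have := Rc.dL (r + 1) hr _ (hbx' k hk)
    rw [hb] at this
    rwa [show t + W' k * q - t = W' k * q by ring] at this
  have hdU : ∀ k ≤ n + 1, |L r (t + W' k * q) (t + W' k * q) - L r t t -
      α * (W' k * q)| ≤ ε * q := fun k hk => by
    have := Rc.dL r (by omega) _ (hbx' k hk)
    rw [hα] at this
    rwa [show t + W' k * q - t = W' k * q by ring] at this
  have hrow' : ∀ k ≤ n + 1, L (r + 1) (t + W' k * q) (t + W' k * q) +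
      (t + a * q - (t + W' k * q)) ≤ L (r + 1) (t + a * q) (t + V₀ * q) + 4 * ε * q := by
    intro k hk
    obtain ⟨h1, h2⟩ := hWb k hk
    refine RecG.row_ge Rc hr hκN hε (by
      obtain ⟨j, hj⟩ := hWj' 0 (by omega)
      rw [hW'0] at hj
      exact ⟨j, hj⟩) (by linarith) (by linarith) (by linarith) (by linarith) haK ?_
    rw [hb]
    exact (mul_le_mul_of_nonneg_left (by linarith) (by linarith)).trans hrow
  have hroomd : ∀ l ≤ r + 1, L l (t + Vd * q) (t + Vd * q) + Eb (r + 1) + 3 * K * q < 1 :=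
    fun l hl => Tg.room l hl _ (by
      have := hbx' (n + 1) le_rfl
      rwa [hW'2] at this)
  have d0N := abs_le.1 (hdN 0 (by omega))
  have d0U := abs_le.1 (hdU 0 (by omega))
  have ddN := abs_le.1 (hdN (n + 1) le_rfl)
  have ddU := abs_le.1 (hdU (n + 1) le_rfl)
  rw [hW'0] at d0N d0U
  rw [hW'2] at ddN ddU
  have hgq : γ * q ≤ b * (Vd * q) - b * (V₀ * q) - (α * (Vd * q) - α * (V₀ * q)) -
      (Vd * q - V₀ * q) - (b - α) * (Vm - V₀) * q := by
    have := mul_le_mul_of_nonneg_right hγg hq.le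
    linarith
  have hM0 : 0 ≤ (b - α) * (Vm - V₀) * q :=
    mul_nonneg (mul_nonneg (by linarith) (by linarith)) hq.le
  have hinj : Set.InjOn c (Set.Iio (r + 2)) := Rc.inj.mono fun x hx => by
    rw [Set.mem_Iio] at hx ⊢
    omega
  have hθD : 2 * D * D * (lvl - (L r (t + Vd * q) (t + Vd * q) - (t + Vd * q))) ≤ γ * q / 4 := by
    have h1 : 2 * D * D * (lvl - (L r (t + Vd * q) (t + Vd * q) - (t + Vd * q))) ≤
        2 * D * D * (θ * q) := mul_le_mul_of_nonneg_left (by linarith) (by positivity)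
    have h2 := mul_le_mul_of_nonneg_right hθ₀ hq.le
    linarith
  have hhi0 : 0 ≤ hi := by
    have h1 := hhi r (by omega)
    have h2 := hlow r (by omega) (n + 1) le_rfl
    rw [hW'2] at h2
    have h3 := Tg.Eb0
    obtain ⟨h4, h5⟩ := hWq (n + 1) le_rfl
    rw [hW'2] at h4 h5
    linarith
  have hlvl0 : 0 ≤ lvl := by
    have h2 := hlow r (by omega) (n + 1) le_rfl
    rw [hW'2] at h2
    have h3 : 0 < θ / 2 * q := by positivity
    linarith
  obtain ⟨h00, h0d⟩ := hWq (n + 1) le_rfl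
  rw [hW'2] at h00 h0d
  have hvls := hvl (S := S) (c := c) Rc.tmc hinj (R := fun l => κ l = .one ∨ κ l = .thin)
    hκu hK₁ hηq hC (by linarith) hwg (d := n + 1) (ζ := 4 * ε * q)
    (μ := (b - α) * (Vm - V₀) * q + 2 * (C * (η * q))) (hi := hi) (lvl := lvl) (ν := ν)
    le_rfl (by simp only [hW'0, hW'2]; linarith) (by simp only [hW'2]; linarith)
    (by positivity) (by
      simp only [hlv _ le_rfl, hW'2, hW'0]
      have := hrow' (n + 1) le_rfl
      rw [hW'2] at this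
      exact this) (by
      simp only [hlv _ le_rfl, hW'2]
      have := hlow (r + 1) le_rfl (n + 1) le_rfl
      rw [hW'2] at this
      linarith) (by simp only [hW'2]; exact hal) hν (by
      simp only [hlv r (by omega)]
      have := hlow r (by omega) 0 (by omega)
      rw [hW'0] at this ⊢
      linarith) (by
      simp only [hlv _ le_rfl]
      have := hlow (r + 1) le_rfl 0 (by omega)
      rw [hW'0] at this ⊢
      linarith) hhi0 hlvl0 (fun l hl => by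
      simp only [hlv l hl, hW'2]
      have := hhi l hl
      linarith) (by
      simp only [hlv r (by omega), hW'2]
      linarith) (by
      simp only [hlv r (by omega), hlv _ le_rfl, hW'2, hW'0]
      linarith [d0N.1, d0N.2, d0U.1, d0U.2, ddN.1, ddN.2, ddU.1, ddU.2])
  obtain ⟨Λ, hΛ⟩ : ∃ Λ : ℝ, Λ = 1 - Eb (r + 1) - L (r + 1) (t + Vd * q) (t + Vd * q) -
    C₁ * (C * (η * q)) := ⟨_, rfl⟩
  have hBX := hbx (S := S) (c := c) Rc.tmc hinj (R := fun l => κ l = .one ∨ κ l = .thin)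
    hκu le_rfl hK₁ (by norm_num : (0 : ℝ) < 4) hηq hC hvls (n + 1) (n + 1) (4 * ε * q)
    ((b - α) * (Vm - V₀) * q) Λ (L (r + 1) (t + V₀ * q) (t + V₀ * q) - ρ * q)
    (fun k => L r (t + W' k * q) (t + W' k * q) - L (r + 1) (t + W' k * q) (t + W' k * q) + ρ * q)
    (by positivity) hM0 (by
      rw [hΛ]
      have := hroomd (r + 1) le_rfl
      linarith) (by
      have := hlow (r + 1) le_rfl 0 (by omega)
      rw [hW'0] at this
      linarith) (fun k hk => hk.le) le_rfl (by linarith) (by simp only [hW'0]; linarith)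
    (by simp only [hW'0, hW'2]; linarith) (fun k hk => by
      obtain ⟨h1, h2⟩ := hWq k hk.le
      simp only [hW'0]
      linarith) (fun k hk => by
      simp only [hlv _ le_rfl, hW'0]
      exact hrow' k hk) (fun k hk => by
      simp only [hlv _ le_rfl]
      obtain ⟨h1, h2⟩ := hWq k hk
      have := hlow (r + 1) le_rfl k hk
      linarith) (by
      simp only [hlv r (by omega)]
      have := hlow r (by omega) 0 (by omega)
      rw [hW'0] at this ⊢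
      linarith) (fun l hl => by
      simp only [hlv l hl, hlv _ le_rfl, hW'2]
      have := hroomd l hl
      linarith) (by
      simp only [hlv _ le_rfl, hW'2]
      linarith) (by
      simp only [hlv r (by omega), hlv _ le_rfl, hW'2, hW'0]
      have h1 : C₁ * (4 * ε * q + C * (η * q)) = 4 * (C₁ * (ε * q)) + C₁ * (C * (η * q)) := by ring
      rw [h1]
      linarith [d0N.1, d0N.2, d0U.1, d0U.2, ddN.1, ddN.2, ddU.1, ddU.2]) le_rfl (fun k hk => by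
      simp only [hlv r (by omega), hlv _ le_rfl]
      linarith) (fun k hk => by
      simp only [hlv r (by omega), hlv _ le_rfl, hW'0]
      obtain ⟨h1, h2⟩ := hWV k (by omega)
      have k1 := abs_le.1 (hdN k hk.le)
      have k2 := abs_le.1 (hdU k hk.le)
      rw [hW'1 k (by omega)] at k1 k2 ⊢
      have k3 : (b - α) * (W k - V₀) * q ≤ (b - α) * (Vm - V₀) * q :=
        mul_le_mul_of_nonneg_right (mul_le_mul_of_nonneg_left (by linarith) (by linarith)) hq.le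
      linarith [d0N.1, d0N.2, d0U.1, d0U.2, k1.1, k1.2, k2.1, k2.2]) (by
      simp only [hlv _ le_rfl, hW'0]
      linarith)
  simp only [hW'0] at hBX
  refine ⟨_, ?_, hBX.mono le_rfl le_rfl (fun k hk => by rw [hW'1 k (by omega)]) (fun k hk => ?_)
    (fun k hk => ?_) le_rfl⟩
  · positivity
  · simp only [hlv _ le_rfl, hW'1 k (show k ≤ n by omega)]
    have : η * q ≤ C * (η * q) := le_mul_of_one_le_left hηq.le hC
    linarith
  · simp only [hW'1 k (show k ≤ n by omega)]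
    exact le_rfl

end Pool.CR99
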