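import Pool.Agent.H99.D2.Rnc

/-!
# Both rows of a pair with natural labels

`rows_nz`: the rows `Rw2` of a family of pairs over a nested chain whose last label is natural at all
windows of `G`, over one label of `Ψ₀`; any slopes.
-/

set_option autoImplicit false

namespace Pool.CR99

open Finset Real MvPolynomial
open Pool.Agent.H49.Ent Pool.Agent.H32.Dense Pool.STK Pool.KA Pool.KSAT Pool.K2S Pool.PB Pool.GEN
open Pool.S6C Pool.RCD Pool.LA91 Pool.OWN68 Pool.CHT Pool.AJX Pool.PN18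
open Pool.ALT (AltAt ful_few Fml NzQ NzF NzL NzO nzq_few DpI)
open Pool.RW37

variable {m : ℕ}

/-- **Both rows of a pair with natural labels.** -/
theorem rows_nz {S : PCl m} {C₀ : ℝ} (htm : TmC S C₀)
    (hpos : ∀ (τ : ℝ) (J : ℕ) (F : Fam m J) (A : F.Ω → Prop), S.St τ J F A → 0 < Pe F.p A)
    {Ψ : Fm2 m} {Φ : FmX m} {c : ℕ → Fin m} {r K K1 D k : ℕ} (hr1 : 1 ≤ r) {sn : ℕ → ℝ → ℝ}
    {G : Set ℝ} {n f Sl E rd : ℕ → ℝ} {v Q lam ρ ρ₀ φ Λ h h' δ₁ g₀ e : ℝ}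
    (hΦ : FmL Φ c 0 (r + 2) K e E v rd (fun l => sn l v)) (hΨ : PsF Ψ Φ c 0 r K v lam n)
    -- the natural labels
    {Ψ₀ : Fml m} {vn p₁ p₂ eN uN pN : ℝ}
    (hΨd : ∀ (J : ℕ) (F : Fam m J) (A : F.Ω → Prop) (V : Type) (z : PtT F → V) (z' : LnT F → V)
      (G : V → MvPolynomial (Option (Fin m)) ℝ), Ψ₀ J F A V z z' G →
      (∀ y, (G y).totalDegree ≤ D) ∧ (∀ y, DpI ((range (r + 1)).image c) (G y)) ∧
      ∀ ω, A ω → z (ptr F J ω) = z' (slam F ⌊vn * J⌋₊ ω)) (hvn : vn ≤ v)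
    (hnat : ∀ w ∈ G, v ≤ w → w ≤ v + Q → ∃ pa₁ pa₂ ea ua pa : ℝ,
      sn (r + 1) w - φ ≤ pa ∧ ∀ (J : ℕ) (F : Fam m J) (A : F.Ω → Prop) (V : Type)
      (z : PtT F → V) (z' : LnT F → V) (g : V → ℕ → MvPolynomial (Option (Fin m)) ℝ),
      Φ J F A V z z' g → NzQ Ψ₀ c r (c (r + 1)) D D D D vn v p₁ p₂ eN uN pN w pa₁ pa₂ ea ua pa
        J F A V z z' (fun y => g y (r + 1))) (hpN : sn (r + 1) v - φ ≤ pN)
    (hch : ∀ w ∈ G, ∃ (u₁ : ℝ) (rd : ℕ → ℝ), (∀ i, 0 ≤ i → i ≤ r → 0 ≤ rd i) ∧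
      Chn S c 0 (r + 1) w w u₁ (fun l => sn l w) rd)
    (hv0 : 0 ≤ v) (hvG : v ∈ G) (hQ : 0 ≤ Q)
    (hgap : ∀ x, v ≤ x → x ≤ v + Q → ∃ w ∈ G, |w - x| ≤ ρ₀) (hρ₀ : 0 < ρ₀) (hρ : 0 < ρ)
    (hφ : 0 ≤ φ) (hφρ : φ ≤ ρ) (hU : v + lam < 1)
    (hsl : ∀ l ≤ r + 1, 0 ≤ Sl l ∧ Sl l ≤ Λ ∧
      ∀ w, v ≤ w → w ≤ v + Q → |sn l w - sn l v - Sl l * (w - v)| ≤ φ)
    (hb : 0 < Sl (r + 1)) (hp : ρ + 2 * φ ≤ sn (r + 1) v)
    (hn : ∀ l < r, n l = sn l v + f l)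
    (hf : ∀ l < r, ∀ l' < l, f l + Λ * Q + 2 * φ + ρ ≤ f l')
    (hf2 : ∀ l < r, 2 * (Λ * Q) + 4 * φ + 2 * ρ ≤ f l)
    (hUf : ∀ l < r, f l + φ + Q ≤ lam) (hUX : Λ * Q + 2 * φ + Q + ρ ≤ lam)
    (hg₀ : 0 < g₀) (hE : ∀ i ≤ r + 1, 0 ≤ E i ∧ E i ≤ 1)
    (hrd : ∀ i ≤ r + 1, 0 ≤ rd i ∧ rd i + g₀ ≤ 1)
    (hnE : ∀ i < r, n i + E i + g₀ ≤ 1) (huE : sn r v + Sl r * Q + E r + g₀ ≤ 1)
    (hNE : sn (r + 1) v + Sl (r + 1) * Q + E (r + 1) + g₀ ≤ 1)
    (hraw : ∀ Q', 0 ≤ Q' → Q' ≤ Sl (r + 1) * Q →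
      RawN S ((range (r + 1)).image c) (c (r + 1)) (sn (r + 1) v) Q' h δ₁)
    (hδ₁ : 0 ≤ δ₁) (h1 : h ≤ 1)
    {e1 rho1 pi1 x0 ph e2 dl : ℝ}
    (hFN : AltAt S ((range (r + 1)).image c) ((range r).image c) (c (r + 1)) K1 e1 rho1 pi1
      (sn (r + 1)) x0 ph e2 k) (he2 : 0 ≤ e2)
    (hbox1 : x0 - (1 / 2) ^ k ≤ v) (hbox2 : v + Q ≤ x0 + (1 / 2) ^ k)
    (hdl : 0 ≤ dl) (hdlb : dl ≤ Sl (r + 1) * Real.log 2)
    (hph : Sl (r + 1) * Real.log 2 - dl ≤ ph)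
    (hK : K ≤ K1) (hE1 : E (r + 1) + min (ρ / 8) (g₀ / 2) ≤ e1)
    (hrho : rd (r + 1) + min (ρ / 8) (g₀ / 2) ≤ rho1)
    (hpi : pi1 ≤ sn (r + 1) v - min (ρ / 8) (g₀ / 2))
    (he : 0 < e) (hle : e ≤ min (ρ / 8) (g₀ / 2)) (hh' : h' ≤ h * Sl (r + 1)) {δ : ℝ}
    (hδ : (δ₁ + (r + 1) * ρ) + (2 * φ + 2 * (Sl (r + 1) * ρ₀)) +
      (3 * φ + ρ + Sl r * (2 * ρ₀)) + e2 * (1 / 2) ^ k + dl * Q < δ) (N₀ : ℕ) :
    Rw2 S Ψ (c r) (c (r + 1)) v (sn r v) (sn (r + 1) v) (Sl r) (Sl (r + 1)) Q h' δ N₀ ∧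
    Rw2 S Ψ.swap (c (r + 1)) (c r) v (sn (r + 1) v) (sn r v) (Sl (r + 1)) (Sl r) Q h' δ N₀ := by
  have hl2 : 0 < Real.log 2 := Real.log_pos one_lt_two
  have hl21 : Real.log 2 ≤ 1 := by
    have := Real.log_two_lt_d9
    linarith only [this]
  have hb0 : 0 ≤ Sl (r + 1) := hb.le
  have ha0 : 0 ≤ Sl r := (hsl r (by omega)).1
  have hΛ0 : 0 ≤ Λ := hb0.trans (hsl (r + 1) le_rfl).2.1
  have hΛQ : 0 ≤ Λ * Q := mul_nonneg hΛ0 hQ
  have h2k : (0 : ℝ) < (1 / 2) ^ k := by positivity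
  have hrr : (0 : ℝ) ≤ r := Nat.cast_nonneg r
  have hek : 0 ≤ e2 * (1 / 2) ^ k := by positivity
  have hdQ : 0 ≤ dl * Q := mul_nonneg hdl hQ
  obtain ⟨γ, hγ⟩ : ∃ γ : ℝ, γ = δ - ((δ₁ + (r + 1) * ρ) + (2 * φ + 2 * (Sl (r + 1) * ρ₀)) +
    (3 * φ + ρ + Sl r * (2 * ρ₀)) + e2 * (1 / 2) ^ k + dl * Q) := ⟨_, rfl⟩
  have hγ0 : 0 < γ := by linarith only [hγ, hδ]
  obtain ⟨σ₂, hσ₂⟩ : ∃ σ₂ : ℝ, σ₂ = 2 * φ + 2 * (Sl (r + 1) * ρ₀) := ⟨_, rfl⟩
  obtain ⟨σ₁, hσ₁⟩ : ∃ σ₁ : ℝ, σ₁ = 3 * φ + ρ + Sl r * (2 * ρ₀) := ⟨_, rfl⟩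
  have hσ20 : 0 ≤ σ₂ := by rw [hσ₂]; positivity
  have hσ10 : 0 ≤ σ₁ := by rw [hσ₁]; positivity
  have hσ2l : σ₂ * Real.log 2 ≤ σ₂ := mul_le_of_le_one_right hσ20 hl21
  have hσ1l : σ₁ * Real.log 2 ≤ σ₁ := mul_le_of_le_one_right hσ10 hl21
  rw [← hσ₂, ← hσ₁] at hγ
  obtain ⟨d₂, hd₂⟩ : ∃ d₂ : ℝ, d₂ = (δ₁ + (r + 1) * ρ) + σ₂ + γ / 4 := ⟨_, rfl⟩
  obtain ⟨d₁, hd₁⟩ : ∃ d₁ : ℝ, d₁ = d₂ + σ₁ + e2 * (1 / 2) ^ k + dl * Q + γ / 4 := ⟨_, rfl⟩
  have hrρ : 0 ≤ ((r : ℝ) + 1) * ρ := by positivity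
  have hd20 : 0 ≤ d₂ := by rw [hd₂]; positivity
  have hv1 : v ≤ 1 := by
    linarith only [hU, hUX, hΛQ, hφ, hρ, hQ]
  have hU1 : v + lam ≤ 1 := hU.le
  -- the row of the second coordinate
  have hN : ∀ x y : ℝ, 0 ≤ x → x ≤ y → y ≤ Q → RowNf S Φ c 0 r v (v + lam) n
      (sn r v + Sl r * y) (sn (r + 1) v + Sl (r + 1) * x) (sn (r + 1) v + Sl (r + 1) * y)
      ((1 - h) * (Sl (r + 1) * (y - x)) * Real.log 2 + d₂) := by
    intro x y hx hxy hy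
    have hy0 : 0 ≤ y := hx.trans hxy
    have hbxy : 0 ≤ Sl (r + 1) * (y - x) := mul_nonneg hb0 (by linarith only [hxy])
    have hh0 : 0 ≤ (1 - h) * (Sl (r + 1) * (y - x)) * Real.log 2 :=
      mul_nonneg (mul_nonneg (by linarith only [h1]) hbxy) hl2.le
    -- the window
    obtain ⟨o, hoG, ho1, ho2, ho3⟩ : ∃ o ∈ G, v ≤ o ∧ o ≤ v + y ∧ v + y ≤ o + 2 * ρ₀ := by
      rcases le_or_gt ρ₀ y with h1 | h1
      · obtain ⟨w, hw, h2⟩ := hgap (v + y - ρ₀) (by linarith) (by linarith)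
        have h3 := abs_le.1 h2
        rcases le_or_gt v w with h4 | h4
        · exact ⟨w, hw, h4, by linarith [h3.2], by linarith [h3.1]⟩
        · exact ⟨v, hvG, le_rfl, by linarith, by linarith [h3.1]⟩
      · exact ⟨v, hvG, le_rfl, by linarith, by linarith⟩
    have hoQ : o ≤ v + Q := by linarith only [ho2, hy]
    obtain ⟨q, hq⟩ : ∃ q : ℝ, q = Sl (r + 1) * (o - v) - 2 * φ := ⟨_, rfl⟩
    have k1 : Sl (r + 1) * (o - v) ≤ Sl (r + 1) * y :=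
      mul_le_mul_of_nonneg_left (by linarith only [ho2]) hb0
    have k2 : Sl (r + 1) * y ≤ Sl (r + 1) * (o - v) + 2 * (Sl (r + 1) * ρ₀) := by
      have := mul_le_mul_of_nonneg_left (show y ≤ o - v + 2 * ρ₀ by linarith only [ho3]) hb0
      linarith only [this]
    have k3 : Sl (r + 1) * y ≤ Sl (r + 1) * Q := mul_le_mul_of_nonneg_left hy hb0
    have k4 : 0 ≤ Sl (r + 1) * x := mul_nonneg hb0 hx
    have e1 : Sl (r + 1) * (y - x) = Sl (r + 1) * y - Sl (r + 1) * x := by ring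
    have k5 : Sl (r + 1) * Q ≤ Λ * Q := mul_le_mul_of_nonneg_right (hsl (r + 1) le_rfl).2.1 hQ
    rcases le_or_gt (Sl (r + 1) * x) q with hxq | hxq
    · -- the list
      obtain ⟨M, wb, b0, bM, hbb, hst⟩ := gseq (G := G) (h := 2 * ρ₀ + 1) hvG (by linarith) 1 o
        hoG ho1 (by
          have : o ≤ 1 := by linarith only [hoQ, hU1, hUX, hΛQ, hφ, hρ]
          push_cast
          linarith only [this, hv0, hρ₀]) (fun y' hy1 hy2 => hgap y' hy1 (by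
            linarith only [hy2, hoQ]))
      have hHN := htn_r (r₀ := 0) (r := r) (sn := sn)
        (n := Function.update n r (sn r v + Sl r * y)) (U := v + lam) (ρ := ρ) (φ := φ) (X := Q)
        (Lam := Λ) (Sl := Sl) (f := f) b0 bM (fun j hj => (hbb j hj).2) hv0
        (by linarith only [hoQ, hU, hUX, hΛQ, hφ, hρ]) (by
          linarith only [hoQ, hUX, hΛQ, hφ, hρ]) hU1 hρ (by linarith only [hoQ])
        (fun l _ h1 j hj => (hsl l (by omega)).2.2 (wb j) (hbb j hj).2.1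
          ((hbb j hj).2.2.trans hoQ)) (fun l _ h1 => ⟨(hsl l (by omega)).1,
          (hsl l (by omega)).2.1⟩) hΛ0 (fun l _ hl => by
          rw [Function.update_of_ne (by omega)]
          exact hn l hl) (fun l _ hl => by
          have := hf2 l hl
          linarith only [this, hφ, hρ]) (fun l _ hl => by
          have := hUf l hl
          linarith only [this, hoQ]) (fun l _ hl l' _ hl' => hf l hl l' hl') (by
          linarith only [hUX, hoQ, hρ])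
      obtain ⟨pa₁, pa₂, ea, ua, pa, hpa, hNQ⟩ := hnat o hoG ho1 hoQ
      obtain ⟨u₁, rw, -, hco⟩ := hch o hoG
      have g1 := abs_le.1 ((hsl (r + 1) le_rfl).2.2 o ho1 hoQ)
      have g2 := abs_le.1 ((hsl r (by omega)).2.2 o ho1 hoQ)
      have k6 : Sl r * (o - v) ≤ Sl r * y :=
        mul_le_mul_of_nonneg_left (by linarith only [ho2]) ha0
      have k7 : Sl r * y ≤ Sl r * Q := mul_le_mul_of_nonneg_left hy ha0
      refine rowNf_nz htm hpos hr1 he hle hΦ hΨd hNQ hHN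
        (chl_of (Nat.zero_le r) fun j hj => hch (wb j) (hbb j hj).1) hU hco hvn hg₀ hE hrd
        (fun i hi => ?_) (q := q) (h := h) (δ₁ := δ₁) (pm := sn (r + 1) v - 2 * φ) ?_ ?_
        (hraw q (k4.trans hxq) (by linarith only [hq, k1, k3, hφ])) hδ₁ h1 k4 hxq ?_ ?_ ?_ ?_ ?_
        ?_ (fun l hl => ?_) ?_ ?_
      · rcases Nat.lt_or_ge i r with h4 | h4
        · rw [Function.update_of_ne (by omega)]
          exact hnE i h4
        · obtain rfl : i = r := by omega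
          rw [Function.update_self]
          linarith only [huE, k7]
      · linarith only [hNE, hq, k1, k3, hφ]
      · linarith only [hp, hρ, hφ]
      · linarith only [g2.2, k6, hφρ]
      · linarith only [hpa, g1.1, hq]
      · linarith only [hpN, hφ]
      · have : 0 ≤ Sl (r + 1) * (o - v) := mul_nonneg hb0 (by linarith only [ho1])
        linarith only [hpa, g1.1, this]
      · linarith only [hp]
      · linarith only [hq, k1, k3, k5, hUX, hoQ, hφ]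
      · have g3 := abs_le.1 ((hsl l (by omega)).2.2 o ho1 hoQ)
        have g4 : Sl l * (o - v) ≤ Λ * Q :=
          mul_le_mul (hsl l (by omega)).2.1 (by linarith only [hoQ]) (by linarith only [ho1]) hΛ0
        rw [hn l hl]
        linarith only [hf2 l hl, g3.2, g4, hq, k1, k3, k5, hφ]
      · linarith only [hq, k1, hφ]
      · -- the bound
        have g5 : (1 - h) * (q - Sl (r + 1) * x) * Real.log 2 ≤
            (1 - h) * (Sl (r + 1) * (y - x)) * Real.log 2 := by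
          refine mul_le_mul_of_nonneg_right (mul_le_mul_of_nonneg_left ?_
            (by linarith only [h1])) hl2.le
          linarith only [hq, k1, e1, hφ]
        have g6 : (sn (r + 1) v + Sl (r + 1) * y - (sn (r + 1) v + q)) * Real.log 2 ≤
            σ₂ * Real.log 2 := by
          refine mul_le_mul_of_nonneg_right ?_ hl2.le
          linarith only [hq, k2, hσ₂]
        linarith only [g5, g6, hσ2l, hd₂, hγ0]
    · refine rowNf_triv htm (by linarith only [e1, hbxy]) ?_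
      have g6 : (sn (r + 1) v + Sl (r + 1) * y - (sn (r + 1) v + Sl (r + 1) * x)) *
          Real.log 2 ≤ σ₂ * Real.log 2 := by
        refine mul_le_mul_of_nonneg_right ?_ hl2.le
        linarith only [hq, k2, hσ₂, hxq]
      linarith only [g6, hσ2l, hd₂, hγ0, hh0, hδ₁, hrρ]
  -- the grid
  have hgr : ∀ i j : ℕ, i ≤ j → j ≤ N₀ → 0 ≤ Q - Q * j / N₀ ∧
      Q - Q * j / N₀ ≤ Q - Q * i / N₀ ∧ Q - Q * i / N₀ ≤ Q := by
    intro i j hij hj
    have k1 : (i : ℝ) ≤ j := by exact_mod_cast hij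
    have k2 : (j : ℝ) ≤ N₀ := by exact_mod_cast hj
    have k3 : (0 : ℝ) ≤ N₀ := Nat.cast_nonneg _
    have k4 : Q * j / N₀ ≤ Q := by
      rcases Nat.eq_zero_or_pos N₀ with h0 | h0
      · rw [h0, Nat.cast_zero, div_zero]
        exact hQ
      · have : (0 : ℝ) < N₀ := by exact_mod_cast h0
        rw [div_le_iff₀ this]
        exact mul_le_mul_of_nonneg_left k2 hQ
    have k5 : Q * i / N₀ ≤ Q * j / N₀ :=
      div_le_div_of_nonneg_right (mul_le_mul_of_nonneg_left k1 hQ) k3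
    have k6 : 0 ≤ Q * i / N₀ := by positivity
    exact ⟨by linarith only [k4], by linarith only [k5], by linarith only [k6]⟩
  constructor
  · refine rw2_Uf htm hv0 hv1 hΦ hΨ (d := d₁) (by linarith only [hd₁, hd₂, hγ, hγ0]) ?_
    intro i j hij hj x hx
    obtain ⟨k1, k2, k3⟩ := hgr i j hij hj
    rw [← hx] at k1 k2
    obtain ⟨y, hy⟩ : ∃ y : ℝ, y = Q - Q * i / N₀ := ⟨_, rfl⟩
    rw [← hy] at k2 k3 ⊢
    have hyx : 0 ≤ y - x := by linarith only [k2]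
    refine rowUf_gap htm hpos (Nat.zero_le r) (G := G) (Lam := Λ) (Sl := Sl) (f := f)
      (ρ₀ := ρ₀) (φ := φ) (ρ := ρ) (dl := dl) he hle hΦ (hN x y k1 k2 k3)
      (add_nonneg (mul_nonneg (mul_nonneg (by linarith only [h1])
        (mul_nonneg hb0 hyx)) hl2.le) hd20)
      hFN he2 (fun w hw1 hw2 => (hsl (r + 1) le_rfl).2.2 w hw1 (by linarith only [hw2, k3]))
      hbox1 (by linarith only [hbox2, k3]) hdl hdlb hph hK hE1 hrho hpi hch hvG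
      (fun w hw1 hw2 => hgap w hw1 (by linarith only [hw2, k3]))
      (fun l _ hl w _ hw1 hw2 => (hsl l (by omega)).2.2 w hw1 (by linarith only [hw2, k3]))
      (fun l _ hl => ⟨(hsl l (by omega)).1, (hsl l (by omega)).2.1⟩) rfl
      (fun l _ hl => hn l hl) (fun l _ hl => ?_) (fun l _ hl => ?_) (fun l _ hl l' _ hl' => ?_)
      ?_ hU.le ?_ hv0 hρ k1 k2 hb (min_le_left _ _) hg₀ (min_le_right _ _)
      (fun i _ hi => hE i (by omega)) (fun i _ hi => hrd i (by omega))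
      (fun i _ hi => hnE i hi) ?_
    · have k4 := hf2 l hl
      have k5 : Λ * y ≤ Λ * Q := mul_le_mul_of_nonneg_left k3 hΛ0
      linarith only [k4, k5, hφ, hρ]
    · have k4 := hUf l hl
      linarith only [k4, k3]
    · have k4 := hf l hl l' hl'
      have k5 : Λ * y ≤ Λ * Q := mul_le_mul_of_nonneg_left k3 hΛ0
      linarith only [k4, k5]
    · have k5 : Λ * y ≤ Λ * Q := mul_le_mul_of_nonneg_left k3 hΛ0
      linarith only [hUX, k5, k3, hρ]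
    · linarith only [hUX, hΛQ, k3, hρ, hφ]
    · have k6 : dl * (y - x) ≤ dl * Q := mul_le_mul_of_nonneg_left (by linarith only [k1, k3]) hdl
      rw [← hσ₁]
      have e3 : (1 - h) * (Sl (r + 1) * (y - x)) * Real.log 2 =
          Sl (r + 1) * (y - x) * Real.log 2 - h * Sl (r + 1) * (y - x) * Real.log 2 := by ring
      have e4 : (Sl r - h') * (y - x) * Real.log 2 =
          Sl r * (y - x) * Real.log 2 - h' * (y - x) * Real.log 2 := by ring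
      have e5 : h' * (y - x) * Real.log 2 ≤ h * Sl (r + 1) * (y - x) * Real.log 2 :=
        mul_le_mul_of_nonneg_right (mul_le_mul_of_nonneg_right hh' hyx) hl2.le
      rw [e3, e4]
      linarith only [k6, hσ1l, hd₁, hγ0, e5]
  · refine rw2_Nf htm hv0 hv1 hΦ hΨ (d := d₂) (by
      linarith only [hd₂, hγ, hγ0, hσ10, hek, hdQ]) ?_
    intro i j hij hj x hx
    obtain ⟨k1, k2, k3⟩ := hgr i j hij hj
    rw [← hx] at k1 k2
    have h5 := hN x (Q - Q * i / N₀) k1 k2 k3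
    have hyx : 0 ≤ Q - Q * i / N₀ - x := by linarith only [k2]
    refine Bas.mono 0 h5 ?_
    intro J _ F A h6 V z z' g hg
    refine (h6 V z z' g hg).trans (mul_le_mul_of_nonneg_right ?_ (Nat.cast_nonneg J))
    have e5 : h' * (Q - Q * i / N₀ - x) * Real.log 2 ≤
        h * Sl (r + 1) * (Q - Q * i / N₀ - x) * Real.log 2 :=
      mul_le_mul_of_nonneg_right (mul_le_mul_of_nonneg_right hh' hyx) hl2.le
    linarith only [e5]

end Pool.CR99
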