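import Pool.Agent.H99.D2.Rne
import Pool.Agent.H99.D2.Rnd
import Pool.Agent.H18.PN.Pyr
import Pool.Agent.H78.PSQ2.Pec

/-!
# Jointly nonfull pairs of any radius at a record of full rate

`pairye_rec`: the record part of `PairYE` at windows of full rate, if the last slope is at least the slope
before and a closed slope over the place `r` is supplied: closed at `t + V₀ q`, natural at `t - R₁ q`.
-/

set_option autoImplicit false

namespace Pool.CR99

open Finset Real MvPolynomial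
open Pool.Agent.H49.Ent Pool.Agent.H32.Dense Pool.STK Pool.KA Pool.KSAT Pool.K2S Pool.PB Pool.GEN
open Pool.S6C Pool.RCD Pool.LA91 Pool.OWN68 Pool.AJW Pool.AJX Pool.CHT Pool.PKG Pool.ALT Pool.PN18
open Pool.V0F (LbU)

/-- **Jointly nonfull pairs of any radius at a record of full rate.** -/
theorem pairye_rec {r D Dg : ℕ} (hr : 1 ≤ r) {S : PCl (r + 2)} {al : ℝ} {g₀ : ℝ → ℝ}
    {P : List (Fin (r + 2)) × Fin (r + 2) → ℝ → ℝ → ℝ}
    {θ : ℝ} {P₂ : ℕ → List (Fin (r + 2)) × Fin (r + 2) → ℝ → ℝ → ℝ} {θ₂ Eb e₂ : ℕ → ℝ}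
    {c : ℕ → Fin (r + 2)} {Pt : ℝ → ℝ → ℝ} {rt : ℝ → ℝ} {h K₀ g : ℝ} {L T : ℕ → ℝ → ℝ → ℝ}
    {Sl : ℕ → ℝ} {κ : ℕ → Kg} {G : Set ℝ} {S₀ N : ℕ} {A V : ℕ → ℝ} {S₂ N' : ℕ} {V' : ℕ → ℝ}
    {K' ε q t : ℝ} {S₁ : PCl (r + 2)} (hne₁ : S₁.Ne)
    (hs₁ : ∀ (τ : ℝ) (J : ℕ) (F : Fam (r + 2) J) (A : F.Ω → Prop), S₁.St τ J F A → S.St τ J F A)
    (R : RecG S₁ al g₀ P θ P₂ θ₂ Eb e₂ c Pt rt h K₀ g L T Sl κ G S₀ N A V S₂ N' V' K' ε q t)
    (hκ : ∀ l < r, κ l = .one) {a b ra τ R₁ : ℝ} (haE : Sl r = a) (hbE : Sl (r + 1) = b)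
    (ha : 1 < a) (hab : a ≤ b) (hraE : pzR a R₁ = ra) (hτE : pzU a R₁ = τ)
    (hR₁ : 0 ≤ R₁) (hh0 : 0 ≤ h) (hh1 : h ≤ 1) (hε : 0 < ε) (hK₀ : 0 < K₀)
    (hcu₀ : ∀ w ∈ G, ∃ rd : ℕ → ℝ, (∀ l < r + 1, 0 ≤ rd l) ∧
      Chn S c 0 (r + 1) w w (L r w w) (fun l => L l w w) rd) {e₀ ρ₀ π₀ μ : ℝ} (hμ : 0 < μ)
    (hρ₀ : ρ₀ + μ ≤ 1) (halt₀ : ∀ w ∈ G, |w - g| ≤ μ → AltC S c r L e₀ ρ₀ π₀ μ w)
    (hnear : ∀ x : ℝ, |x| ≤ K' → |t + x * q - g| ≤ μ)
    (hlab : ∀ k < N', (∃ E : ℝ, E + μ ≤ e₀ ∧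
      AlW S₁ c r (c (r + 1)) D (t + V' k * q) (L (r + 1) (t + V' k * q) (t + V' k * q))
        (L r (t + V' k * q) (t + V' k * q)) E 0 (L r (t + V' k * q) (t + V' k * q))) ∧
      ∀ e : ℝ, 0 < e → Bas S₁ (fun J F A => ∃ (V₁ : Type) (z : PtT F → V₁) (z' : LnT F → V₁)
        (g : V₁ → ℕ → MvPolynomial (Option (Fin (r + 2))) ℝ),
        LbX F c 0 (r + 1) D e (fun i => max 0 (L r (t + V' k * q) (t + V' k * q) -
          L i (t + V' k * q) (t + V' k * q))) (t + V' k * q)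
          (fun _ => L r (t + V' k * q) (t + V' k * q))
          (fun l => L l (t + V' k * q) (t + V' k * q)) A z z' g))
    {el dl : ℝ} {k₀ : ℕ} (hel : 0 ≤ el) (hdl : 0 ≤ dl) (hdlb : dl ≤ b * Real.log 2)
    (hful : ∀ S' : PCl (r + 2), S'.Ne → SubC S' S → ∀ w₀ : ℝ, 0 < w₀ → w₀ < g →
      AltE S' ((range (r + 1)).image c) (c (r + 1)) (max D D * max 1 D) e₀ ρ₀ π₀ w₀ →
      ∃ φ : ℝ, b * Real.log 2 - dl ≤ φ ∧ ∀ k ≥ k₀, AltAt S ((range (r + 1)).image c)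
        ((range r).image c) (c (r + 1)) (max D D * max 1 D) e₀ ρ₀ π₀ (fun w => L (r + 1) w w) g
        φ el k) (hk₀ : (K₀ + τ) * q ≤ (1 / 2) ^ k₀)
    -- the closed slope
    {V₀ ρ κ' : ℝ} (hV₀ : V₀ + pzD ra b ≤ -τ) (hV₀in : ∃ j < N', V' j = V₀)
    (hV₀K : -V₀ + 2 ≤ K')
    (hDg : Dg ≤ D) (hκ' : 0 < κ') (hX : BlX S₁ c r Dg Dg (t + V₀ * q)
      (L (r + 1) (t + V₀ * q) (t + V₀ * q) - ρ * q) 1 (fun _ => t - R₁ * q)
      (fun _ => L (r + 1) (t - R₁ * q) (t - R₁ * q) - ρ * q)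
      (fun _ => L r (t - R₁ * q) (t - R₁ * q) - L (r + 1) (t - R₁ * q) (t - R₁ * q) + ρ * q) κ')
    -- the windows
    {M : ℕ} {W : ℕ → ℝ} (hW0 : W 0 = -τ) (hW1 : W (M + 1) = -R₁) (hWm : ∀ k, W k ≤ W (k + 1))
    {ms : ℝ} (hms0 : 0 < ms) (hWs : ∀ k, W (k + 1) - W k ≤ ms)
    (hWy : ∀ y, -τ ≤ y → y ≤ -R₁ → ∃ k ≤ M + 1, |W k - y| ≤ ms)
    (hWin : ∀ k ≤ M + 1, ∃ j < N', V' j = W k) (hWx : ∃ j < N', V' j = -(K₀ + 1))
    (hWt : ∃ j < N', V' j = 0)
    {X φ kf ℓ e' : ℝ} (hWj : ∀ k ≤ r, ∃ j < N', V' j = jfV r (-τ) X k)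
    -- the numbers
    (hX1 : 2 * (6 * τ) ≤ X) (hX2 : 2 * (b * ra) + 2 ≤ X)
    (hX3 : 32 * (r + 1) * φ ≤ X) (hkf1 : 3 ^ r * X ≤ kf)
    (hkf2 : b * ra + 2 * (r + 1) * φ + 1 ≤ kf) (hℓ1 : kf + τ ≤ ℓ)
    (hℓ2 : 3 ^ r * X + ra + 1 ≤ ℓ) (hℓ3 : b * ra + ra + 1 ≤ ℓ) (hK1 : ℓ + 1 ≤ K')
    (hK2 : τ + 3 ^ r * X ≤ K') (hK3 : b * τ + b * ra + 2 ≤ K')
    (hK5 : τ + K₀ + 2 ≤ K')
    (hφ0 : 0 < φ) (hφ1 : φ ≤ 1 / 8) (hεφ : 2 * ε ≤ φ) (he' : 0 < e') (he1 : e' ≤ φ / 8)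
    (he2 : e' ≤ 1 / 64) (hεe : 128 * ε ≤ e') (hρe : ρ ≤ e' / 32)
    (hbτ : 2 * e' ≤ b * (τ - R₁ - ra)) (hams : b * ms ≤ e' / 32)
    (hqμ : (2 * (b * ra) + 4) * q ≤ μ / 4) {pf : ℕ → ℝ} {Nf : ℕ → ℕ → ℝ}
    (hpf : ∀ l < r, L l t t - φ * q ≤ pf l)
    (hNf : ∀ l < r, ∀ j ≤ 1, Nf l j = L l t t + kf * q - (j : ℕ) * t) {δ : ℝ} (hδ0 : 0 < δ)
    (hδ1 : (8 * r + 49) * e' ≤ δ * ra / 4) (hδ2 : el * (2 * (K₀ + τ)) ≤ δ * ra / 4)
    (hδ3 : dl ≤ δ / 4) (N₀ : ℕ) :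
    ∃ S' : PCl (r + 2), S'.Ne ∧
      (∀ (τ : ℝ) (J : ℕ) (F : Fam (r + 2) J) (A : F.Ω → Prop), S'.St τ J F A → S.St τ J F A) ∧
      ∃ (Ψ : Fm2 (r + 2)) (I₂ : Finset (Fin (r + 2))) (e E₂ r₂ p₂ m₁ ρ : ℝ) (E rd : ℕ → ℝ)
        (vn Pn En Rn : ℝ) (K₁ : ℕ), 0 < e ∧ e ≤ e' * q ∧ 3 ^ r * X * q < m₁ ∧ ρ < 1 ∧
        (∀ i ≤ r, 0 ≤ E i ∧ L i (t + -τ * q) (t + -τ * q) + E i + m₁ ≤ 1 ∧
          0 ≤ rd i ∧ rd i ≤ ρ) ∧
        t + -τ * q - (-V₀ - τ) * q ≤ vn ∧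
        PairE S' Ψ c r (max D D * max 1 D) I₂ (c (r + 1)) a b ra (h * a) δ
          (ℓ * q) N₀ (t + -τ * q) t q
          (fun i => L i (t + -τ * q) (t + -τ * q))
          (nX r (fun l x => L l x x) (t + -τ * q) (X * q)) (fun x => L (r + 1) x x)
          pf Nf e E₂ r₂ p₂ E rd vn Pn En Rn K₁ := by
  have hq := R.q0
  have ht0 := R.t0
  have ht1 := R.t1
  have htm := R.tmc
  have hpos := R.pos
  have htn := abs_le.1 R.near
  have hcu₁ : ∀ w ∈ G, ∃ rd : ℕ → ℝ, (∀ l < r + 1, 0 ≤ rd l) ∧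
      Chn S₁ c 0 (r + 1) w w (L r w w) (fun l => L l w w) rd := fun w hw => by
    obtain ⟨rd, h1, h2⟩ := hcu₀ w hw
    exact ⟨rd, h1, h2.sub hs₁⟩
  have halt₁ : ∀ w ∈ G, |w - g| ≤ μ → AltC S₁ c r L e₀ ρ₀ π₀ μ w := fun w hw hw' =>
    altC_sub hs₁ (halt₀ w hw hw')
  have ha0 : 0 < a := by linarith only [ha]
  have hb0 : 0 < b := by linarith only [ha0, hab]
  have hra0 : 0 < ra := by rw [← hraE]; exact pzR_pos ha hR₁
  have hτa : ra + R₁ < τ := by rw [← hraE, ← hτE]; exact pzU_gt ha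
  have hτ0 : 0 < τ := by linarith only [hra0, hτa, hR₁]
  have hfl : 0 < (⌊b⌋₊ : ℝ) + 1 - b := by
    have := Nat.lt_floor_add_one b
    linarith only [this]
  have hbra : 0 < b * ra := mul_pos hb0 hra0
  have hD0 : 0 < pzD ra b := by
    unfold pzD
    have h1 : 0 < ra * b + 4 := by
      have := mul_pos hra0 hb0
      linarith only [this]
    positivity
  have hr0 : (0 : ℝ) ≤ r := Nat.cast_nonneg r
  have hwin : ∀ x : ℝ, (∃ j < N', V' j = x) → t + x * q ∈ G := fun x hx => by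
    obtain ⟨j, hj, e⟩ := hx
    rw [← e]
    exact R.memG.2 j hj
  have halc : ∀ x : ℝ, (∃ j < N', V' j = x) → AlC S₁ c r D L e₀ μ (t + x * q) := fun x hx => by
    obtain ⟨j, hj, e⟩ := hx
    rw [← e]
    exact (hlab j hj).1
  have he : 0 < e' * q := mul_pos he' hq
  have hεq : 0 < ε * q := mul_pos hε hq
  have hφq : 0 < φ * q := mul_pos hφ0 hq
  have hK50 : 0 < K' := by linarith only [hK5, hτ0, hK₀]
  have hK5q : (τ + K₀ + 2) * q ≤ K' * q := mul_le_mul_of_nonneg_right hK5 hq.le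
  have hτq : 0 < τ * q := mul_pos hτ0 hq
  have hK₀q : 0 < K₀ * q := mul_pos hK₀ hq
  have hKq : 0 < K' * q := mul_pos hK50 hq
  have hraq : 0 < ra * q := mul_pos hra0 hq
  have hbraq : 0 < b * ra * q := mul_pos hbra hq
  have hmono : ∀ j k : ℕ, j ≤ k → W j ≤ W k := by
    intro j k hjk
    induction k, hjk using Nat.le_induction with
    | base => exact le_rfl
    | succ k _ ih => exact ih.trans (hWm k)
  have hWb : ∀ k ≤ M + 1, -τ ≤ W k ∧ W k ≤ 0 := fun k hk => by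
    rw [← hW0]
    have h1 := hmono k (M + 1) hk
    rw [hW1] at h1
    exact ⟨hmono 0 k (Nat.zero_le _), by linarith only [h1, hR₁]⟩
  have hWK : ∀ k ≤ M + 1, |W k| ≤ K' := fun k hk => by
    obtain ⟨h1, h2⟩ := hWb k hk
    rw [abs_of_nonpos h2]
    linarith only [h1, hK5, hK₀]
  have hWG : ∀ k ≤ M + 1, t + W k * q ∈ G := fun k hk => hwin _ (hWin k hk)
  have hvG : t + -τ * q ∈ G := by
    rw [← hW0]
    exact hWG _ (by omega)
  have htG : t ∈ G := by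
    have h1 := hwin _ hWt
    rwa [zero_mul, add_zero] at h1
  have hvK : |-τ| ≤ K' := by
    rw [← hW0]
    exact hWK _ (by omega)
  have hV₀K' : |V₀| ≤ K' := by
    rw [abs_of_nonpos (by linarith only [hV₀, hD0, hτ0])]
    linarith only [hV₀K]
  have hDK : D ≤ max D D * max 1 D := by
    calc D = D * 1 := (mul_one D).symm
      _ ≤ D * max 1 D := Nat.mul_le_mul_left D (le_max_left 1 D)
      _ = max D D * max 1 D := by rw [max_self]
  -- the labels at an earlier window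
  have hxK : |-(K₀ + 1)| ≤ K' := by
    rw [abs_neg, abs_of_pos (by linarith only [hK₀])]
    linarith only [hK5, hτ0]
  obtain ⟨ph, hph, hAt⟩ := hful S₁ hne₁ hs₁ (t + -(K₀ + 1) * q)
    (by linarith only [ht0, hK5q, hτq, hq]) (by linarith only [htn.2, hq]) (by
      obtain ⟨rk, E', b1, b2, b3, b4, b5, b6, b7, b8, b9, b10⟩ := halt₁ _ (hwin _ hWx)
        (hnear _ hxK)
      exact (halc _ hWx).lb b6 hDK hμ le_rfl (by linarith only [b7]))
  -- the scale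
  obtain ⟨k, hk, hk1, hk2⟩ := pow_near (mul_pos (by linarith only [hK₀, hτ0] :
    0 < K₀ + τ) hq) hk₀
  -- the natural labels
  have hbms : b * ms * q ≤ e' / 32 * q := mul_le_mul_of_nonneg_right hams hq.le
  have h4q : 4 * q ≤ μ / 4 := by
    have : 4 * q ≤ (2 * (b * ra) + 4) * q := by
      linarith only [hbraq]
    exact this.trans hqμ
  have he2q : e' * q ≤ 1 / 64 * q := mul_le_mul_of_nonneg_right he2 hq.le
  have hεeq : 128 * ε * q ≤ e' * q := mul_le_mul_of_nonneg_right hεe hq.le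
  have hV₀q : (-V₀ + 2) * q ≤ K' * q := mul_le_mul_of_nonneg_right hV₀K hq.le
  have hR₁q : 0 ≤ R₁ * q := mul_nonneg hR₁ hq.le
  have hWe : t + W (M + 1) * q = t - R₁ * q := by
    rw [hW1]
    ring
  rw [← hWe] at hX
  obtain ⟨S', c1, c2, R', p₁, p₂, pa₁, pa₂, c4⟩ := nzg_cls R hcu₁ hμ hρ₀ halt₁ hnear
    (M := M) (fun k _ => hWm k) hWK hWG (by rw [haE, hbE]; exact hab)
    (ms := b * ms) (e := e' * q) (by rw [hbE]; exact hb0.le) (fun k _ => by
      rw [hbE]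
      exact mul_le_mul_of_nonneg_left (hWs k) hb0.le) he (by linarith only [he2q, hq])
    (by linarith only [hbms, hεeq, he]) (by linarith only [he2q, h4q, hq]) (V₀ := V₀)
    (by rw [hW0]; linarith only [hV₀, hD0]) hV₀K' (hwin _ hV₀in)
    (by linarith only [ht0, hV₀q, hq]) (by
      rw [hWe]
      linarith only [ht1, hKq, hR₁q]) (halc _ hV₀in)
    (fun k hk => halc _ (hWin k hk)) hDg hκ' (by
      have := mul_le_mul_of_nonneg_right hρe hq.le
      linarith only [this]) hX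
  rw [hWe, hW0] at c4
  obtain ⟨Ψb, hΨb⟩ : ∃ Ψb : Fml (r + 2), Ψb = BlF c r D D e₀
          (L r (t + V₀ * q) (t + V₀ * q) + μ / 2)
          (L (r + 1) (t + V₀ * q) (t + V₀ * q) - e' * q / 16) (t + V₀ * q) 1
          (fun _ => t - R₁ * q)
          (fun _ => L (r + 1) (t - R₁ * q) (t - R₁ * q) - ρ * q)
          (fun _ => L r (t - R₁ * q) (t - R₁ * q) -
            L (r + 1) (t - R₁ * q) (t - R₁ * q) + ρ * q) := ⟨_, rfl⟩
  rw [← hΨb] at c4
  obtain ⟨Ψ₀, hΨ₀⟩ : ∃ Ψ₀ : Fml (r + 2), Ψ₀ = NzE Ψb c r (c (r + 1)) D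
          (t + V₀ * q) (M + 2) (fun k => t + W k * q) pa₁ pa₂ (fun _ => e₀ - μ / 2)
          (fun k => L r (t + W k * q) (t + W k * q) + μ / 4)
          (fun k => L (r + 1) (t + W k * q) (t + W k * q) - e' * q / 2) := ⟨_, rfl⟩
  rw [← hΨ₀] at c4
  -- the base labels
  have hΨs : ∀ (J : ℕ) (F : Fam (r + 2) J) (A B : F.Ω → Prop) (V : Type)
      (z : PtT F → V) (z' : LnT F → V) (G : V → MvPolynomial (Option (Fin (r + 2))) ℝ), Sub B A →
      Ψ₀ J F A V z z' G → Ψ₀ J F B V z z' G := by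
    rw [hΨ₀, hΨb]
    exact fun J F A B V z z' G hB hG => NzE.hs BlF.hs J F A B V z z' G hB hG
  have hΨl : ∀ (J : ℕ) (F : Fam (r + 2) J) (A : F.Ω → Prop) (V : Type) (z : PtT F → V)
      (z' : LnT F → V) (G : V → MvPolynomial (Option (Fin (r + 2))) ℝ), Ψ₀ J F A V z z' G →
      LbOK F ((range (r + 1)).image c) (c (r + 1)) D ⌊e₀ * J⌋₊ J ⌊(t + V₀ * q) * J⌋₊
        ⌊(L r (t + V₀ * q) (t + V₀ * q) + μ / 2) * J⌋₊
        ⌊(L (r + 1) (t + V₀ * q) (t + V₀ * q) - e' * q / 16) * J⌋₊ A z z' G := by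
    rw [hΨ₀, hΨb]
    intro J F A V z z' G hG
    exact hG.1.1
  have hlv : ∀ e : ℝ, 0 < e → Bas S' (fun J F A => ∃ (V₁ : Type) (z : PtT F → V₁)
      (z' : LnT F → V₁) (g : V₁ → ℕ → MvPolynomial (Option (Fin (r + 2))) ℝ),
      LbX F c 0 (r + 1) D e (fun i => max 0 (L r (t + -τ * q) (t + -τ * q) -
        L i (t + -τ * q) (t + -τ * q))) (t + -τ * q)
        (fun _ => L r (t + -τ * q) (t + -τ * q))
        (fun l => L l (t + -τ * q) (t + -τ * q)) A z z' g) := fun e he => by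
    obtain ⟨j, hj, hj'⟩ := hWin 0 (by omega)
    have h1 := (hlab j hj).2 e he
    rw [hj', hW0] at h1
    exact Bas.sub c2 h1
  have hcu' : ∀ w ∈ G, ∃ rd : ℕ → ℝ, (∀ l < r + 1, 0 ≤ rd l) ∧
      Chn S' c 0 (r + 1) w w (L r w w) (fun l => L l w w) rd := fun w hw => by
    obtain ⟨rd, h1, h2⟩ := hcu₁ w hw
    exact ⟨rd, h1, h2.sub c2⟩
  have hFN := ((hAt k hk).sub hs₁).sub c2
  have htm' := R'.tmc
  have hpos' := R'.pos
  -- the slopes on the box
  have h0K : |(0 : ℝ)| ≤ K' := by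
    rw [abs_zero]
    exact hK50.le
  have e0 : t + 0 * q = t := by rw [zero_mul, add_zero]
  have hdv := fun l (hl : l < r + 2) => R.dL2 (l := l) hl hvK h0K
  rw [e0] at hdv
  have hCv := halt₁ _ hvG (hnear _ hvK)
  have hbox : ∀ w : ℝ, t + -τ * q ≤ w → w ≤ t → |w - t| ≤ K' * q := fun w h1 h2 => by
    rw [abs_le]
    exact ⟨by linarith only [h1, hK5q, hK₀q, hq], by linarith only [h2, hKq]⟩
  have hdw : ∀ l < r + 2, ∀ w : ℝ, t + -τ * q ≤ w → w ≤ t →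
      |L l w w - L l (t + -τ * q) (t + -τ * q) - Sl l * (w - (t + -τ * q))| ≤ 2 * (ε * q) := by
    intro l hl w h1 h2
    have h3 := abs_le.1 (R.dL l hl w (hbox w h1 h2))
    have h4 := abs_le.1 (R.dL l hl (t + -τ * q) (hbox _ le_rfl (by linarith only [hτq])))
    have e1 : Sl l * (w - t) = Sl l * (w - (t + -τ * q)) + Sl l * (t + -τ * q - t) := by ring
    rw [e1] at h3
    rw [abs_le]
    exact ⟨by linarith only [h3.1, h4.2], by linarith only [h3.2, h4.1]⟩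
  have hWj' : ∀ k ≤ r, t + jfV r (-τ) X k * q ∈ G := fun k hk => hwin _ (hWj k hk)
  have hWk : ∀ k ≤ M + 1, t + -τ * q ≤ t + W k * q ∧ |t + W k * q - g| ≤ μ := fun k hk => by
    refine ⟨?_, hnear _ (hWK k hk)⟩
    have := mul_le_mul_of_nonneg_right (hWb k hk).1 hq.le
    linarith only [this]
  have hnear' : |t + -τ * q - g| ≤ μ := hnear _ hvK
  obtain ⟨v, hv⟩ : ∃ v, v = t + -τ * q := ⟨_, rfl⟩
  have hv' : v = t - τ * q := by rw [hv]; ring
  have hroom : ∀ j ≤ r + 1, L j v v + 3 * K' * q < 1 := by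
    intro j hj
    have W := R.tg (r + 1) (by omega) (by omega)
    have h1 := W.room j hj v (by rw [hv]; exact hbox _ le_rfl (by
      linarith only [hτq]))
    have h2 := W.Eb0
    linarith only [h1, h2]
  rw [← hv] at hdv hCv hdw c4 hlv hvG hWk hnear' ⊢
  obtain ⟨rk, E', b1, b2, b3, b4, b5, b6, b7, b8, b9, b10⟩ := hCv
  have hK1q : (ℓ + 1) * q ≤ K' * q := mul_le_mul_of_nonneg_right hK1 hq.le
  have hK2q : (τ + 3 ^ r * X) * q ≤ K' * q := mul_le_mul_of_nonneg_right hK2 hq.le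
  have hK3q : (b * τ + b * ra + 2) * q ≤ K' * q := mul_le_mul_of_nonneg_right hK3 hq.le
  have hX0 : 0 < X := by linarith only [hX2, hbra]
  have hXq0 : 0 < X * q := mul_pos hX0 hq
  have hvt : v ≤ t := by linarith only [hv', hτq]
  have hv0 : 0 ≤ v := by linarith only [hv', ht0, hK5q, hK₀q, hq]
  have hvq : q ≤ v := by linarith only [hv', ht0, hK5q, hK₀q, hq]
  have ht1' : t ≤ 1 := by linarith only [ht1, hKq]
  have hv1 : v ≤ 1 := hvt.trans ht1'
  have hdN := abs_le.1 (hdv (r + 1) (by omega))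
  rw [hbE] at hdN
  have eN1 : b * ((-τ - 0) * q) = -(b * τ * q) := by ring
  rw [eN1] at hdN
  have hL0 : ∀ i ≤ r + 1, 0 ≤ L i v v := fun i hi =>
    hv0.trans (R.low_at (by omega) hv0 le_rfl hv1)
  have hE0 : ∀ i ≤ r, 0 ≤ eP r L (e₀ - μ / 2) v i ∧
      L i v v + eP r L (e₀ - μ / 2) v i + 3 * K' * q ≤ 1 := by
    intro i hi
    rw [eP_lt L _ _ hi]
    refine ⟨le_max_left _ _, ?_⟩
    have h1 := hroom i (by omega)
    have h2 := hroom r (by omega)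
    rcases max_choice 0 (L r v v - L i v v) with h3 | h3
    · rw [h3]
      linarith only [h1]
    · rw [h3]
      linarith only [h2]
  have hf : ∀ l, aX r (X * q) l ≤ 3 ^ r * X * q := fun l => by
    unfold aX
    have h1 : (3 : ℝ) ^ (r - 1 - l) ≤ 3 ^ r := pow_le_pow_right₀ (by norm_num) (by omega)
    have h2 := mul_le_mul_of_nonneg_right h1 (mul_pos hX0 hq).le
    linarith only [h2]
  have hf2 : ∀ l, X * q ≤ aX r (X * q) l := fun l => aX_ge (mul_pos hX0 hq).le l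
  have hf3 : ∀ l < r, ∀ l' < l, 3 * aX r (X * q) l ≤ aX r (X * q) l' := fun l hl l' hl' => by
    unfold aX
    have h1 : (3 : ℝ) ^ (r - 1 - l + 1) ≤ 3 ^ (r - 1 - l') :=
      pow_le_pow_right₀ (by norm_num) (by omega)
    rw [pow_succ] at h1
    have h2 := mul_le_mul_of_nonneg_right h1 (mul_pos hX0 hq).le
    linarith only [h2]
  have hXq : (2 * (b * ra) + 2) * q ≤ X * q := mul_le_mul_of_nonneg_right hX2 hq.le
  have hℓ2q : (3 ^ r * X + ra + 1) * q ≤ ℓ * q := mul_le_mul_of_nonneg_right hℓ2 hq.le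
  have hℓ3q : (b * ra + ra + 1) * q ≤ ℓ * q := mul_le_mul_of_nonneg_right hℓ3 hq.le
  have hvn : t + V₀ * q + pzD ra b * q ≤ v := by
    have := mul_le_mul_of_nonneg_right hV₀ hq.le
    linarith only [this, hv']
  have hvnv : t + V₀ * q ≤ v := by
    have := mul_nonneg hD0.le hq.le
    linarith only [hvn, this]
  have hVv : ra * q + R₁ * q + v ≤ t := by
    have := mul_le_mul_of_nonneg_right hτa.le hq.le
    linarith only [this, hv']
  -- the grid windows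
  obtain ⟨G', hG'⟩ : ∃ G' : Set ℝ, G' = {w | ∃ k ≤ M + 1, w = t + W k * q} := ⟨_, rfl⟩
  have hGm : ∀ w, w ∈ G' ↔ ∃ k ≤ M + 1, w = t + W k * q := fun w => by rw [hG']; rfl
  have hvG' : v ∈ G' := (hGm v).2 ⟨0, Nat.zero_le _, by rw [hW0, hv]⟩
  -- the family
  obtain ⟨Φ, hΦE⟩ : ∃ Φ : FmX (r + 2), Φ = fun J F A V z z' g =>
      LbX F c 0 (r + 2) (max D D * max 1 D) (e' * q) (eP r L (e₀ - μ / 2) v) v
        (fun _ => L r v v + μ / 4) (fun i => L i v v) A z z' g ∧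
      NzQ Ψ₀ c r (c (r + 1)) D D D D (t + V₀ * q) v p₁ p₂ (e₀ - μ / 2) (L r v v + μ / 4)
        (L (r + 1) v v - e' * q / 2) (t - R₁ * q) (pa₁ (M + 1)) (pa₂ (M + 1)) (e₀ - μ / 2)
        (L r (t - R₁ * q) (t - R₁ * q) + μ / 4)
        (L (r + 1) (t - R₁ * q) (t - R₁ * q) - e' * q / 2) J F A V z z' (fun y => g y (r + 1)) :=
    ⟨_, rfl⟩
  have hrows := rows_nz htm' hpos' (Ψ := PsQ Ψ₀ c r D (max D D * max 1 D) (t + V₀ * q) v
      (t - R₁ * q) p₁ p₂ (e₀ - μ / 2) (L r v v + μ / 4) (L (r + 1) v v - e' * q / 2)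
      (pa₁ (M + 1)) (pa₂ (M + 1)) (e₀ - μ / 2)
      (L r (t - R₁ * q) (t - R₁ * q) + μ / 4)
      (L (r + 1) (t - R₁ * q) (t - R₁ * q) - e' * q / 2) (ℓ * q) (e' * q)
      (eP r L (e₀ - μ / 2) v) (fun _ => L r v v + μ / 4) (fun i => L i v v)
      (nX r (fun l x => L l x x) v (X * q))) (Φ := Φ)
    (c := c) (r := r) (K := max D D * max 1 D) (K1 := max D D * max 1 D) (D := D) (k := k)
    hr (sn := fun l x => L l x x) (G := G') (n := nX r (fun l x => L l x x) v (X * q))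
    (f := aX r (X * q)) (Sl := Sl) (E := eP r L (e₀ - μ / 2) v)
    (rd := fun _ => L r v v + μ / 4) (v := v) (Q := ra * q) (lam := ℓ * q) (ρ := 8 * (e' * q))
    (ρ₀ := ms * q) (φ := e' * q) (Λ := b) (h := h) (h' := h * a) (δ₁ := 2 * ε * q) (g₀ := q)
    (e := e' * q)
    (by
      rw [hΦE]
      rintro J F A V z z' g hg
      exact hg.1)
    (by
      rw [hΦE]
      rintro J F A V C z z' G₁ G₂ cc ⟨g', h1, h2, h3, h4, h5, h6⟩
      exact ⟨g', ⟨h1, h3 ▸ h4⟩, h2, h3, h5⟩)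
    (Ψ₀ := Ψb) (vn := t + V₀ * q) (p₁ := p₁) (p₂ := p₂) (eN := e₀ - μ / 2)
    (uN := L r v v + μ / 4) (pN := L (r + 1) v v - e' * q / 2)
    (by rw [hΨb]; exact BlF.hd le_rfl) hvnv ?_ ?_ ?_ hv0 hvG' hraq.le ?_ (mul_pos hms0 hq)
    (by linarith only [he]) he.le (by linarith only [he]) ?_ ?_ (by rw [hbE]; exact hb0) ?_
    (fun l _ => rfl) ?_ ?_ ?_ ?_ hq ?_ ?_ ?_ ?_ ?_ ?_ (by linarith only [hεq]) hh1 hFN hel
    (by linarith only [hk1, hv', htn.1]) (by linarith only [hk1, hVv, htn.2, hR₁q, hK₀q, hτq])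
    hdl (by rw [hbE]; exact hdlb) (by rw [hbE]; exact hph) le_rfl ?_ ?_ ?_ he ?_ ?_
    (δ := δ * (ra * q)) ?_ N₀
  rotate_left
  · -- the natural labels
    intro w hw _ _
    obtain ⟨k', hk', rfl⟩ := (hGm w).1 hw
    refine ⟨pa₁ k', pa₂ k', e₀ - μ / 2, L r (t + W k' * q) (t + W k' * q) + μ / 4,
      L (r + 1) (t + W k' * q) (t + W k' * q) - e' * q / 2, ?_, ?_⟩
    · show L (r + 1) (t + W k' * q) (t + W k' * q) - e' * q ≤
        L (r + 1) (t + W k' * q) (t + W k' * q) - e' * q / 2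
      linarith only [he]
    · rw [hΦE, hΨ₀]
      rintro J F A V z z' g ⟨-, hg⟩
      exact nzqE_nzq (n := M + 2) hg (show k' < M + 2 by omega)
  · show L (r + 1) v v - e' * q ≤ L (r + 1) v v - e' * q / 2
    linarith only [he]
  · -- the chains
    intro w hw
    obtain ⟨k', hk', rfl⟩ := (hGm w).1 hw
    obtain ⟨rd, h1, h2⟩ := hcu' _ (hWG k' hk')
    exact ⟨_, rd, fun i _ hi => h1 i (by omega), h2⟩
  · -- the gaps
    intro x hx1 hx2
    obtain ⟨k', w1, w2⟩ := hWy ((x - t) / q) (by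
      rw [le_div_iff₀ hq]
      linarith only [hx1, hv']) (by
      rw [div_le_iff₀ hq]
      linarith only [hx2, hVv])
    refine ⟨t + W k' * q, (hGm _).2 ⟨k', w1, rfl⟩, ?_⟩
    have e1 : t + W k' * q - x = (W k' - (x - t) / q) * q := by
      field_simp
      ring
    rw [e1, abs_mul, abs_of_pos hq]
    exact mul_le_mul_of_nonneg_right w2 hq.le
  · linarith only [hK1q, ht1, hvt, hq]
  · -- the slopes
    intro l hl
    have h1 : 0 ≤ Sl l ∧ Sl l ≤ b := by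
      rcases Nat.lt_trichotomy l r with h1 | h1 | h1
      · have h2 := R.kd l (by omega)
        rw [hκ l h1] at h2
        have h3 : Sl l = 1 := h2
        rw [h3]
        exact ⟨zero_le_one, by linarith only [ha, hab]⟩
      · rw [h1, haE]
        exact ⟨ha0.le, hab⟩
      · have h2 : l = r + 1 := by omega
        rw [h2, hbE]
        exact ⟨hb0.le, le_rfl⟩
    refine ⟨h1.1, h1.2, fun w hw1 hw2 => (hdw l (by omega) w hw1 ?_).trans ?_⟩
    · linarith only [hw2, hVv, hR₁q]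
    · linarith only [hεeq, hεq]
  · show 8 * (e' * q) + 2 * (e' * q) ≤ L (r + 1) v v
    have h1 : v ≤ L (r + 1) v v := R.low_at (by omega) hv0 le_rfl hv1
    linarith only [h1, hvq, he2q, hq]
  · intro l hl l' hl'
    have h1 := hf3 l hl l' hl'
    have h2 := hf2 l
    have e1 : b * (ra * q) = b * ra * q := by ring
    rw [e1]
    linarith only [h1, h2, hXq, he2q, hbraq, hq]
  · intro l hl
    have h2 := hf2 l
    have e1 : b * (ra * q) = b * ra * q := by ring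
    rw [e1]
    linarith only [h2, hXq, he2q, hbraq, hq]
  · intro l hl
    have h1 := hf l
    linarith only [h1, hℓ2q, he2q, hq]
  · have e1 : b * (ra * q) = b * ra * q := by ring
    rw [e1]
    linarith only [hℓ3q, he2q, hq]
  · -- the exponents
    intro i hi
    rcases Nat.lt_or_ge i (r + 1) with h1 | h1
    · have h2 := hE0 i (by omega)
      have h3 := hL0 i (by omega)
      exact ⟨h2.1, by linarith only [h2.2, h3, hKq]⟩
    · have h2 : i = r + 1 := by omega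
      rw [h2, eP_last]
      have h3 := hL0 (r + 1) le_rfl
      exact ⟨by linarith only [b3, b4, hμ], by linarith only [b8, h3, hμ]⟩
  · intro i hi
    show 0 ≤ L r v v + μ / 4 ∧ L r v v + μ / 4 + q ≤ 1
    have h3 := hL0 r (by omega)
    exact ⟨by linarith only [h3, hμ], by linarith only [b6, hρ₀, hμ, h4q, hq]⟩
  · intro i hi
    have h1 := (hE0 i (by omega)).2
    have h2 := hf i
    show L i v v + aX r (X * q) i + eP r L (e₀ - μ / 2) v i + q ≤ 1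
    linarith only [h1, h2, hK2q, hτq, hq, hK5q, hK₀q]
  · have h1 := hroom r (by omega)
    rw [haE, eP_lt L _ _ le_rfl, sub_self, max_self]
    show L r v v + a * (ra * q) + 0 + q ≤ 1
    have e1 : a * (ra * q) ≤ b * ra * q := by
      have := mul_le_mul_of_nonneg_right hab hraq.le
      linarith only [this]
    linarith only [h1, hK3q, e1, hKq, hq, mul_pos (mul_pos hb0 hτ0) hq]
  · rw [hbE, eP_last]
    show L (r + 1) v v + b * (ra * q) + (e₀ - μ / 2) + q ≤ 1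
    have e1 : b * (ra * q) = b * ra * q := by ring
    rw [e1]
    linarith only [b8, hqμ, hbraq, hq, hμ]
  · -- the raw rows
    intro Q' hQ1 hQ2
    rw [hbE] at hQ2
    have e1 : b * (ra * q) = b * ra * q := by ring
    rw [e1] at hQ2
    have hbτq : b * ra * q ≤ b * τ * q := by
      have h1 : ra ≤ τ := by linarith only [hτa, hR₁]
      exact mul_le_mul_of_nonneg_right (mul_le_mul_of_nonneg_left h1 hb0.le) hq.le
    have hbτ0 : ε * q * 2 ≤ b * τ * q := by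
      have h1 : τ - R₁ - ra ≤ τ := by linarith only [hR₁, hra0]
      have h2 := mul_le_mul_of_nonneg_right (hbτ.trans (mul_le_mul_of_nonneg_left h1 hb0.le)) hq.le
      linarith only [h2, hεeq, hεq]
    have h1 := R'.raw (by omega) hε (x := L (r + 1) t t - L (r + 1) v v) (y := Q')
      ?_ hQ1 ?_ ?_ ?_
    · have e2 : L (r + 1) t t - (L (r + 1) t t - L (r + 1) v v) = L (r + 1) v v := by ring
      change RawN S' ((range (r + 1)).image c) (c (r + 1))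
        (L (r + 1) t t - (L (r + 1) t t - L (r + 1) v v)) Q' h (2 * ε * q) at h1
      rw [e2] at h1
      exact h1
    · linarith only [hdN.2, hbτq, hεeq, he2q, hbraq, hεq, hbτ0]
    · linarith only [hdN.1, hK3q, hbraq, hεeq, he2q, hq]
    · linarith only [hQ2, hK3q, mul_pos (mul_pos hb0 hτ0) hq, hq]
    · have := hL0 (r + 1) le_rfl
      show L (r + 1) t t - L (r + 1) v v ≤ L (r + 1) t t
      linarith only [this]
  · rw [eP_last]
    have h1 := min_le_right (8 * (e' * q) / 8) (q / 2)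
    linarith only [h1, h4q, hμ, hq]
  · have h1 := min_le_right (8 * (e' * q) / 8) (q / 2)
    show L r v v + μ / 4 + min (8 * (e' * q) / 8) (q / 2) ≤ ρ₀
    linarith only [h1, h4q, hμ, b6, hq]
  · have h1 := min_le_right (8 * (e' * q) / 8) (q / 2)
    show π₀ ≤ L (r + 1) v v - min (8 * (e' * q) / 8) (q / 2)
    linarith only [h1, h4q, hμ, b7, hq]
  · refine le_min (le_of_eq ?_) (by linarith only [he2q, hq])
    ring
  · rw [hbE]
    exact mul_le_mul_of_nonneg_left hab hh0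
  · -- the errors
    have h1 := mul_le_mul_of_nonneg_right hδ1 hq.le
    have h2 := mul_le_mul_of_nonneg_right hδ2 hq.le
    have h3 := mul_le_mul_of_nonneg_right hδ3 (mul_pos hra0 hq).le
    have h4 := mul_le_mul_of_nonneg_left hk2 hel
    have h6 : 0 < δ * ra * q := mul_pos (mul_pos hδ0 hra0) hq
    have h7 : a * ms * q ≤ b * ms * q :=
      mul_le_mul_of_nonneg_right (mul_le_mul_of_nonneg_right hab hms0.le) hq.le
    rw [haE, hbE]
    linarith only [h1, h2, h3, h4, h6, h7, hbms, hεeq, hεq, he]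
  -- the context and the value
  have hnatp := hlv (e' * q) he
  have hbnat : L (r + 1) v v + b * (ra * q) ≤
      L (r + 1) (t - R₁ * q) (t - R₁ * q) - e' * q / 2 := by
    have hR₁v : v ≤ t - R₁ * q := by linarith only [hVv, hraq]
    have h1 := abs_le.1 (hdw (r + 1) (by omega) (t - R₁ * q) hR₁v (by linarith only [hR₁q]))
    rw [hbE] at h1
    have e1 : b * (t - R₁ * q - v) = b * (τ - R₁ - ra) * q + b * (ra * q) := by
      rw [hv']
      ring
    rw [e1] at h1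
    have h2 := mul_le_mul_of_nonneg_right hbτ hq.le
    linarith only [h1.1, h2, hεeq, hεq, he]
  have PE := Pool.PSQ78.paire_core (D := D) hr R' hκ (a := a) (b := b) (ρ := ra) (τ := τ)
    (ta := t - R₁ * q) hra0 hb0 hτ0 (by rw [← hv]; linarith only [hVv, hraq])
    (by linarith only [hR₁q]) hcu' hΨs hΨl (Pn := L (r + 1) (t + V₀ * q) (t + V₀ * q))
    (e := e' * q) (E := eP r L (e₀ - μ / 2) v) (rd := fun _ => L r v v + μ / 4)
    (K := max D D * max 1 D) (h' := h * a) (N₀ := N₀) (X := X) (φ := φ) (kf := kf) (ℓ := ℓ)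
    (pf := pf) (Nf := Nf) (δ := δ) (by rw [← hv]; exact c4) ?_ le_rfl ?_ ?_ ?_ ?_ ?_ ?_ ?_ ?_ ?_
    (by rw [← hv]; exact hvn) hD0.le htG hWj' hX1 hX3 hkf1 hkf2 hℓ1 hK1 hK2
    (by linarith only [hK5, hK₀]) hφ0 hφ1 hεφ he (by
      have := mul_le_mul_of_nonneg_right he1 hq.le
      linarith only [this]) (by linarith only [he2q]) hpf hNf hδ0
    (by rw [← hv]; rw [haE, hbE] at hrows; exact hrows.1)
    (by rw [← hv]; rw [haE, hbE] at hrows; exact hrows.2)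
  · rw [← hv] at PE
    have hL0r : 0 ≤ L r v v := hL0 r (by omega)
    refine ⟨S', c1, fun τ J F A h => hs₁ τ J F A (c2 τ J F A h), _, _, e' * q, _, _, _, 3 * K' * q,
      L r v v + μ / 4, _, _, t + V₀ * q, _, _, _, _, he, le_rfl, ?_, ?_, fun i hi => ⟨?_, ?_, ?_, ?_⟩,
      ?_, PE⟩
    · linarith only [hK2q, hτq, hKq]
    · linarith only [b6, hρ₀, hμ]
    · exact (hE0 i hi).1
    · exact (hE0 i hi).2
    · linarith only [hL0r, hμ]
    · exact le_rfl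
    · rw [hv']
      linarith only []
  · -- the labels of the chain
    rw [← hv]
    refine Bas.mono 0 hnatp ?_
    rintro J - F A ⟨V₁, z, z', g', h1⟩
    have hJ0 : (0 : ℝ) ≤ J := Nat.cast_nonneg J
    refine ⟨V₁, z, z', g', fun i hi1 hi2 => ?_⟩
    refine (h1 i hi1 hi2).mono (Finset.Subset.refl _) hDK (Nat.floor_le_floor
      (mul_le_mul_of_nonneg_right ?_ hJ0)) (Nat.floor_le_floor
      (mul_le_mul_of_nonneg_right ?_ hJ0)) le_rfl
    · rw [eP_lt L _ _ (by omega)]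
    · show L r v v + e' * q ≤ L r v v + μ / 4 + e' * q
      linarith only [hμ]
  · rw [eP_last]
    linarith only [he]
  · show L r v v + μ / 4 ≤ L r v v + μ / 4 + e' * q
    linarith only [he]
  · rw [← hv]
    linarith only [he]
  · rw [← hv]
    exact hbnat
  · intro i hi
    have h2 := hE0 i hi.le
    have h3 := hL0 i (by omega)
    linarith only [h2.2, h3, hKq]
  · intro i hi
    show 0 ≤ L r v v + μ / 4
    linarith only [hL0 r (by omega), hμ]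
  · linarith only [he]
  · linarith only [hq]
  · linarith only [ht0, hV₀q, hq]

end Pool.CR99
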