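import Pool.Agent.H99.D2.Bla
import Pool.Agent.H76.PR.Prl

/-!
# The blind label from the closed slope

`blG`: the label `G (t, V₀, H) + C (u - H)`, `C` a closed polynomial over `V₀`. `blg_lbp`: it is a closed
label, `blg_dir`: its derivative in the direction `u = c r` is `C`.
-/

set_option autoImplicit false

namespace Pool.CR99

open Finset Real MvPolynomial
open Pool.Agent.H49.Ent Pool.Agent.H32.Dense Pool.STK Pool.KA Pool.KSAT Pool.K2S Pool.PB Pool.S6C
open Pool.GEN Pool.CHT Pool.CHX Pool.ISO Pool.D2R Pool.D2G30 Pool.V1E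
open Pool.FLF (Fam.sub)
open Pool.PB.Trl (rt rt_mem t_rt)
open Pool.GRD (LbP)
open Pool.BFL (Pb)
open Pool.ALT (BlC BlB sbu sbu_eval sbu_deg sbu_dep DpI Upg)

variable {m : ℕ}

/-- The codes of the blind label: the charts of `c r` and `c (r + 1)` and the closed slope. -/
abbrev BlV (m : ℕ) (c : ℕ → Fin m) (r D : ℕ) : Type :=
  {v : (MvPolynomial (Option (Fin m)) ℝ × MvPolynomial (Option (Fin m)) ℝ) ×
      MvPolynomial (Option (Fin m)) ℝ //
    (v.1.1.totalDegree ≤ D ∧ v.1.2.totalDegree ≤ D ∧ v.2.totalDegree ≤ D) ∧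
      DepC c r v.1.1 ∧ DepC c (r + 1) v.1.2 ∧ DepC c r v.2}

/-- **The blind label.** -/
noncomputable def blG {c : ℕ → Fin m} {r D : ℕ} (v : BlV m c r D) :
    MvPolynomial (Option (Fin m)) ℝ :=
  sbu (c r) v.1.1.1 v.1.1.2 + v.1.2 * (MvPolynomial.X (some (c r)) - v.1.1.1)

theorem depC_dpI {c : ℕ → Fin m} {i : ℕ} {G : MvPolynomial (Option (Fin m)) ℝ} (h : DepC c i G) :
    DpI ((range i).image c) G := fun b b' h0 hb =>
  h b b' h0 fun l hl => hb _ (mem_image_of_mem _ (mem_range.2 hl))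

theorem dpI_depC {c : ℕ → Fin m} {i : ℕ} {G : MvPolynomial (Option (Fin m)) ℝ}
    (h : DpI ((range i).image c) G) : DepC c i G := fun b b' h0 hb => by
  refine h b b' h0 fun j hj => ?_
  obtain ⟨l, hl, rfl⟩ := mem_image.1 hj
  exact hb l (mem_range.1 hl)

/-- The degree of the blind label. -/
def bdg (D : ℕ) : ℕ := D * max 1 D + (D + max 1 D)

theorem blG_deg {c : ℕ → Fin m} {r D : ℕ} (v : BlV m c r D) : (blG v).totalDegree ≤ bdg D := by
  obtain ⟨⟨⟨H, G⟩, Q⟩, ⟨h1, h2, h5⟩, h3, h4, h6⟩ := v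
  unfold blG bdg
  refine (totalDegree_add _ _).trans (max_le ((sbu_deg _ h1 h2).trans (Nat.le_add_right _ _)) ?_)
  refine (totalDegree_mul _ _).trans (le_trans (Nat.add_le_add h5 ?_) (Nat.le_add_left _ _))
  refine (totalDegree_sub _ _).trans (max_le ((totalDegree_X _).le.trans (le_max_left _ _)) ?_)
  exact h1.trans (le_max_right _ _)

theorem blG_dep {c : ℕ → Fin m} {r D : ℕ} (v : BlV m c r D) :
    DpI ((range (r + 1)).image c) (blG v) := by
  obtain ⟨⟨⟨H, G⟩, Q⟩, ⟨h1, h2, h5⟩, h3, h4, h6⟩ := v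
  intro b b' h0 hb
  have e1 : DpI ((range r).image c) (sbu (c r) H G) := sbu_dep (depC_dpI h4) (depC_dpI h3)
  have hb' : ∀ i ∈ (range r).image c, b (some i) = b' (some i) := fun i hi => by
    obtain ⟨l, hl, rfl⟩ := mem_image.1 hi
    exact hb _ (mem_image_of_mem _ (mem_range.2 (by have := mem_range.1 hl; omega)))
  unfold blG
  simp only [map_add, map_mul, map_sub, eval_X]
  rw [e1 b b' h0 hb', depC_dpI h3 b b' h0 hb', depC_dpI h6 b b' h0 hb',
    hb (c r) (mem_image_of_mem _ (mem_range.2 (Nat.lt_succ_self r)))]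

/-- The derivative of the blind label. -/
theorem blg_dir {c : ℕ → Fin m} {r D : ℕ} (hc : Set.InjOn c (Set.Iio (r + 1)))
    (v : BlV m c r D) (b : Option (Fin m) → ℝ) :
    eval b (pderiv (some (c r)) (blG v)) = eval b v.1.2 := by
  obtain ⟨⟨⟨H, G⟩, Q⟩, ⟨h1, h2, h5⟩, h3, h4, h6⟩ := v
  have e1 : DpI ((range r).image c) (sbu (c r) H G) := sbu_dep (depC_dpI h4) (depC_dpI h3)
  unfold blG
  simp only
  rw [map_add, Derivation.leibniz, map_sub, pderiv_X_self]
  simp only [smul_eq_mul, map_add, map_mul, map_sub, eval_X, map_one]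
  rw [Pool.ALT.dpI_pd hc e1 b, Pool.ALT.dpI_pd hc (depC_dpI h3) b,
    Pool.ALT.dpI_pd hc (depC_dpI h6) b]
  ring

/-- **The blind label is a closed label.** -/
theorem blg_lbp {J : ℕ} {F : Fam m J} {c : ℕ → Fin m} {r D a w e P : ℕ} {g : ℕ → ℕ}
    {B : F.Ω → Prop} {G : PtT F → ℕ → MvPolynomial (Option (Fin m)) ℝ}
    {H : LnT F → ℕ → MvPolynomial (Option (Fin m)) ℝ} {K₁ : ℝ}
    {CL : LnT F → MvPolynomial (Option (Fin m)) ℝ} {Cp : PtT F → MvPolynomial (Option (Fin m)) ℝ}
    (hch : ChOK F c (r + 2) (fun _ => D) a w e g B G H) (hcl : Clsd F (r + 2) w B G H)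
    (hdL : ∀ s, (CL s).totalDegree ≤ D) (hdp : ∀ y, (Cp y).totalDegree ≤ D)
    (hpL : ∀ s, DepC c r (CL s)) (hpp : ∀ y, DepC c r (Cp y))
    (hclo : ∀ ω, B ω → Cp (ptr F J ω) = CL (slam F w ω))
    (hbox : ∀ ω, B ω → ∀ b, NBx c (G (ptr F J ω)) g a (F.t ω) (r + 1) b →
      |eval b (pderiv (some (c r)) (G (ptr F J ω) (r + 1))) - eval b (Cp (ptr F J ω))| ≤ K₁)
    (hc : Set.InjOn c (Set.Iio (r + 1)))
    (hP : 1 / 2 ^ g (r + 1) + K₁ * (1 / 2 ^ g r) ≤ 1 / (2 : ℝ) ^ P) :
    ∃ (z : PtT F → BlV m c r D) (z' : LnT F → BlV m c r D),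
      LbP F ((range (r + 1)).image c) (c (r + 1)) (bdg D) J w P B z z' blG ∧
      ∀ s, (z' s).1.2 = CL s := by
  classical
  refine ⟨fun y => ⟨((G y r, G y (r + 1)), Cp y), ⟨hch.degG y r, hch.degG y (r + 1), hdp y⟩,
    hch.depG y r, hch.depG y (r + 1), hpp y⟩,
    fun s => ⟨((H s r, H s (r + 1)), CL s), ⟨hch.degH s r, hch.degH s (r + 1), hdL s⟩,
      hch.depH s r, hch.depH s (r + 1), hpL s⟩, ⟨blG_deg, blG_dep, fun ω hω => ?_,
    fun ω hω => ?_⟩, fun s => rfl⟩
  · refine Subtype.ext ?_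
    simp only [Prod.mk.injEq]
    exact ⟨⟨hcl ω hω r (by omega), hcl ω hω (r + 1) (by omega)⟩, hclo ω hω⟩
  · have hbt : ∀ i, bt F ω (some i) = F.x ω i := fun i => rfl
    obtain ⟨h, hh⟩ : ∃ h : ℝ, h = eval (bt F ω) (G (ptr F J ω) r) := ⟨_, rfl⟩
    have hr := hch.pos ω hω r (by omega)
    have hr1 := hch.pos ω hω (r + 1) (by omega)
    rw [← hh] at hr
    have e1 : eval (bt F ω) (blG (⟨((H (slam F w ω) r, H (slam F w ω) (r + 1)),
        CL (slam F w ω)), ⟨hch.degH _ r, hch.degH _ (r + 1), hdL _⟩, hch.depH _ r,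
        hch.depH _ (r + 1), hpL _⟩ : BlV m c r D)) =
        eval (Function.update (bt F ω) (some (c r)) h) (G (ptr F J ω) (r + 1)) +
        eval (bt F ω) (Cp (ptr F J ω)) * (F.x ω (c r) - h) := by
      unfold blG
      simp only [map_add, map_mul, map_sub, eval_X]
      rw [sbu_eval, ← hcl ω hω r (by omega), ← hcl ω hω (r + 1) (by omega), ← hclo ω hω, ← hh]
      rfl
    rw [e1]
    obtain ⟨θ, hθ, hmv⟩ := Pool.PRQ76.mv_one (G (ptr F J ω) (r + 1)) (c r) (bt F ω)
      (Function.update (bt F ω) (some (c r)) h) (fun o ho => by rw [Function.update_of_ne ho])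
    rw [Function.update_self] at hmv
    obtain ⟨b, hb⟩ : ∃ b : Option (Fin m) → ℝ, b = fun o =>
      Function.update (bt F ω) (some (c r)) h o +
        θ * (bt F ω o - Function.update (bt F ω) (some (c r)) h o) := ⟨_, rfl⟩
    rw [← hb] at hmv
    have hbo : ∀ o, o ≠ some (c r) → b o = bt F ω o := by
      intro o ho
      rw [hb]
      beta_reduce
      rw [Function.update_of_ne ho]
      ring
    have hbr : b (some (c r)) = h + θ * (F.x ω (c r) - h) := by
      rw [hb]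
      beta_reduce
      rw [Function.update_self]
      rfl
    have hinj : ∀ l, l < r → (some (c l) : Option (Fin m)) ≠ some (c r) := fun l hl he => by
      have h3 := hc (Set.mem_Iio.2 (show l < r + 1 by omega)) (Set.mem_Iio.2 (Nat.lt_succ_self r))
        (Option.some.inj he)
      omega
    have hdp : ∀ l, l ≤ r → eval b (G (ptr F J ω) l) = eval (bt F ω) (G (ptr F J ω) l) := by
      intro l hl
      refine hch.depG _ l _ _ (hbo _ (by simp)) fun l' hl' => hbo _ (hinj l' (by omega))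
    have hCb : eval b (Cp (ptr F J ω)) = eval (bt F ω) (Cp (ptr F J ω)) :=
      hpp _ _ _ (hbo _ (by simp)) fun l' hl' => hbo _ (hinj l' hl')
    have hbx := hbox ω hω b (by
      refine ⟨?_, fun l hl => ?_⟩
      · rw [hbo _ (by simp), show bt F ω none = F.t ω from rfl, sub_self, abs_zero]
        positivity
      · rw [hdp l (by omega)]
        rcases Nat.lt_or_ge l r with h4 | h4
        · rw [hbo _ (hinj l h4)]
          exact hch.pos ω hω l (by omega)
        · have : l = r := by omega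
          subst this
          rw [hbr, ← hh, add_sub_cancel_left, abs_mul, abs_of_nonneg hθ.1]
          exact (mul_le_of_le_one_left (abs_nonneg _) hθ.2).trans hr)
    rw [hCb] at hbx
    have e2 : F.x ω (c (r + 1)) - (eval (Function.update (bt F ω) (some (c r)) h)
        (G (ptr F J ω) (r + 1)) + eval (bt F ω) (Cp (ptr F J ω)) * (F.x ω (c r) - h)) =
        (F.x ω (c (r + 1)) - eval (bt F ω) (G (ptr F J ω) (r + 1))) +
        (eval b (pderiv (some (c r)) (G (ptr F J ω) (r + 1))) - eval (bt F ω) (Cp (ptr F J ω))) *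
          (F.x ω (c r) - h) := by
      have e3 : eval (Function.update (bt F ω) (some (c r)) h) (G (ptr F J ω) (r + 1)) =
          eval (bt F ω) (G (ptr F J ω) (r + 1)) -
          eval b (pderiv (some (c r)) (G (ptr F J ω) (r + 1))) * (F.x ω (c r) - h) := by
        rw [← hbt, ← hmv]
        ring
      rw [e3]
      ring
    rw [e2]
    refine (abs_add_le _ _).trans (le_trans (add_le_add hr1 ?_) hP)
    rw [abs_mul]
    exact mul_le_mul hbx hr (abs_nonneg _) ((abs_nonneg _).trans hbx)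

end Pool.CR99
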