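import Pool.Agent.H99.D2.Blb

/-!
# The closed constant from windows with rows, on one event

`wg_near`: the derivative of the row label against the one of the charts, at the samples. `blf_ev`: the
closed constant. `blf_lab`: the blind label.
-/

set_option autoImplicit false

namespace Pool.CR99

open Finset Real MvPolynomial
open Pool.Agent.H49.Ent Pool.Agent.H32.Dense Pool.STK Pool.KA Pool.KSAT Pool.K2S Pool.PB Pool.S6C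
open Pool.GEN Pool.CHT Pool.CHX Pool.ISO Pool.D2R Pool.D2G30 Pool.V1E
open Pool.FLF (Fam.sub)
open Pool.PB.Trl (rt rt_mem t_rt)
open Pool.GRD (LbP)
open Pool.BFL (Pb)
open Pool.ALT (BlC BlB sbu sbu_eval sbu_deg sbu_dep DpI Upg)

theorem pw3 {a b c : ℕ} {y : ℝ} (h : (a : ℝ) + c ≤ y + b) :
    (2 : ℝ) ^ a / 2 ^ b * 2 ^ c ≤ (2 : ℝ) ^ y := by
  have h2 : (0 : ℝ) < 2 := by norm_num
  rw [← Real.rpow_natCast, ← Real.rpow_natCast, ← Real.rpow_natCast, ← Real.rpow_sub h2,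
    ← Real.rpow_add h2]
  exact Real.rpow_le_rpow_of_exponent_le (by norm_num) (by linarith)

theorem pw3' {a b : ℕ} {y z : ℝ} (h : (a : ℝ) + y ≤ z + b) :
    (2 : ℝ) ^ a / 2 ^ b * (2 : ℝ) ^ y ≤ (2 : ℝ) ^ z := by
  have h2 : (0 : ℝ) < 2 := by norm_num
  rw [← Real.rpow_natCast, ← Real.rpow_natCast, ← Real.rpow_sub h2, ← Real.rpow_add h2]
  exact Real.rpow_le_rpow_of_exponent_le (by norm_num) (by linarith)

theorem pwd {a b : ℕ} {y : ℝ} (h : y + b ≤ a) : (2 : ℝ) ^ y ≤ 2 ^ a / 2 ^ b := by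
  have h2 : (0 : ℝ) < 2 := by norm_num
  rw [← Real.rpow_natCast, ← Real.rpow_natCast, ← Real.rpow_sub h2]
  exact Real.rpow_le_rpow_of_exponent_le (by norm_num) (by linarith)

section ev

variable {m : ℕ} {c : ℕ → Fin m} {r D Dr N N₂ : ℕ} {R : ℕ → Prop} {C a Eb ε₀ η₀ : ℝ}
  {Pt : ℝ → ℝ → ℝ} {o : ℕ → ℝ} {lv be : ℕ → ℕ → ℝ} {J : ℕ} {F : Fam m J} {b : ℕ → ℕ → ℝ} {κ : ℝ}
  {z : ℕ → ℕ → ℕ} {B : F.Ω → Prop} {gc gT g₀ : ℕ → ℕ → ℕ}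
  {G : ℕ → PtT F → ℕ → MvPolynomial (Option (Fin m)) ℝ}
  {H : ℕ → LnT F → ℕ → MvPolynomial (Option (Fin m)) ℝ}
  {T : ℕ → PtT F → ℕ → MvPolynomial (Option (Fin m)) ℝ}
  {TH : ℕ → LnT F → ℕ → MvPolynomial (Option (Fin m)) ℝ}
  {Gt : ℕ → PtT F → MvPolynomial (Option (Fin m)) ℝ}
  {Ht : ℕ → LnT F → MvPolynomial (Option (Fin m)) ℝ}

/-- **The row label against the charts**, at the samples. -/
theorem wg_near
    (W : WG c (r + 1) D Dr N N₂ R C a Eb ε₀ η₀ Pt o lv be F b κ z B gc gT g₀ G H T TH Gt Ht)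
    (hc : Set.InjOn c (Set.Iio (r + 1))) (hR : R r) {i k : ℕ} (hi : i ≤ N) (hk : k ≤ N)
    (h0k : o i ≤ o k)
    (hkJ : ⌊o k * J⌋₊ ≤ J) {ζ : ℝ} (hζ : 0 ≤ ζ) (hη : 0 ≤ η₀) (hJ : 1 ≤ C * (η₀ * J))
    (hq : lv k (r + 1) + (a - o k) ≤ Pt a (o i) + ζ)
    (hpos : ζ + 4 * (C * η₀) ≤ lv k (r + 1)) :
    ∀ ω, B ω → |eval (bt F ω) (pderiv (some (c r)) (Ht i (slam F ⌊o i * J⌋₊ ω))) -
      eval (bt F ω) (pderiv (some (c r)) (H k (slam F ⌊o k * J⌋₊ ω) (r + 1)))| ≤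
      (2 : ℝ) ^ ((lv k r - lv k (r + 1) + ζ + 6 * (C * η₀)) * J) := by
  intro ω hω
  have hJ0 : (0 : ℝ) ≤ J := Nat.cast_nonneg J
  have hC1 : 1 ≤ C := W.win.C1
  obtain ⟨hok0, hoka⟩ := W.win.ho k hk
  have ha0 : 0 ≤ a := hok0.trans hoka
  have hfl : ⌊o k * J⌋₊ ≤ ⌊a * J⌋₊ :=
    Nat.floor_le_floor (mul_le_mul_of_nonneg_right hoka hJ0)
  obtain ⟨-, -, -, -, n5, -⟩ := W.win.g_num hk (l := r + 1) le_rfl
  obtain ⟨-, t2⟩ := (W.win.t_num hk (l := r) (Nat.lt_succ_self r)).1 hR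
  have f1 : (⌊a * J⌋₊ : ℝ) ≤ a * J := Nat.floor_le (mul_nonneg ha0 hJ0)
  have f2 : o k * J < ⌊o k * J⌋₊ + 1 := Nat.lt_floor_add_one _
  have f3 : (⌊o k * J⌋₊ : ℝ) ≤ ⌊a * J⌋₊ := by exact_mod_cast hfl
  obtain ⟨y, hy⟩ : ∃ y : ℝ, y = lv k (r + 1) * J + ((⌊a * J⌋₊ : ℝ) - ⌊o k * J⌋₊) -
      (ζ * J + 4 * (C * (η₀ * J))) := ⟨_, rfl⟩
  have hy0 : 0 ≤ y := by
    rw [hy]
    have := mul_le_mul_of_nonneg_right hpos hJ0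
    have e : (ζ + 4 * (C * η₀)) * (J : ℝ) = ζ * J + 4 * (C * (η₀ * J)) := by ring
    rw [e] at this
    linarith
  have q1 : (⌊y⌋₊ : ℝ) ≤ y := Nat.floor_le hy0
  have q2 : y < ⌊y⌋₊ + 1 := Nat.lt_floor_add_one _
  have hηJ : 0 ≤ η₀ * J := mul_nonneg hη hJ0
  have hCη : η₀ * J ≤ C * (η₀ * J) := le_mul_of_one_le_left hηJ hC1
  have hζJ : 0 ≤ ζ * J := mul_nonneg hζ hJ0
  have hqJ := mul_le_mul_of_nonneg_right hq hJ0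
  have e3 : (lv k (r + 1) + (a - o k)) * (J : ℝ) = lv k (r + 1) * J + (a * J - o k * J) := by
    ring
  have e4 : (Pt a (o i) + ζ) * (J : ℝ) = Pt a (o i) * J + ζ * J := by ring
  rw [e3, e4] at hqJ
  have e1 : (⌊y⌋₊ : ℝ) + C * (η₀ * J) ≤ (Pt a (o i) - 2 * (C * η₀)) * J := by
    have e2 : (Pt a (o i) - 2 * (C * η₀)) * (J : ℝ) = Pt a (o i) * J - 2 * (C * (η₀ * J)) := by
      ring
    rw [e2]
    linarith
  have e5 : (⌊y⌋₊ : ℝ) + C * (η₀ * J) ≤ gc k (r + 1) := by linarith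
  have h1 := (W.win.row i hi k hk h0k ⌊y⌋₊ e1 e5).win ω hω
    (rt F ⌊o k * J⌋₊ ω) (rt_mem F _ ω) (eu (c r))
  rw [ptw_rt F hkJ, nrm_eu hc ((W.win.evs k hk).thin.depH _), dd_eu, map_sub, map_sub,
    pd_Hno] at h1
  refine h1.trans ?_
  have hU : (⌊C * (η₀ * J)⌋₊ : ℝ) ≤ C * (η₀ * J) :=
    Nat.floor_le (hηJ.trans hCη)
  refine (pw3 (y := (lv k r - lv k (r + 1) + ζ + 6 * (C * η₀)) * J) ?_)
  have e6 : (lv k r - lv k (r + 1) + ζ + 6 * (C * η₀)) * (J : ℝ) =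
      lv k r * J - lv k (r + 1) * J + ζ * J + 6 * (C * (η₀ * J)) := by ring
  rw [e6]
  have hU' : (⌊C * ((fun _ : ℕ => η₀) k * J)⌋₊ : ℝ) ≤ C * (η₀ * J) := hU
  linarith

/-- **The closed constant**, on one event. -/
theorem blf_ev (m D r : ℕ) : ∃ C₁ : ℕ, 1 ≤ C₁ ∧ ∀ {c : ℕ → Fin m} {Dr N N₂ : ℕ} {R : ℕ → Prop}
    {C a Eb ε₀ η₀ : ℝ} {Pt : ℝ → ℝ → ℝ} {o : ℕ → ℝ} {lv be : ℕ → ℕ → ℝ} {J : ℕ} {F : Fam m J}
    {b : ℕ → ℕ → ℝ} {κ : ℝ} {z : ℕ → ℕ → ℕ} {B : F.Ω → Prop} {gc gT g₀ : ℕ → ℕ → ℕ}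
    {G : ℕ → PtT F → ℕ → MvPolynomial (Option (Fin m)) ℝ}
    {H : ℕ → LnT F → ℕ → MvPolynomial (Option (Fin m)) ℝ}
    {T : ℕ → PtT F → ℕ → MvPolynomial (Option (Fin m)) ℝ}
    {TH : ℕ → LnT F → ℕ → MvPolynomial (Option (Fin m)) ℝ}
    {Gt : ℕ → PtT F → MvPolynomial (Option (Fin m)) ℝ}
    {Ht : ℕ → LnT F → MvPolynomial (Option (Fin m)) ℝ},
    WG c (r + 1) D Dr N N₂ R C a Eb ε₀ η₀ Pt o lv be F b κ z B gc gT g₀ G H T TH Gt Ht →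
    Set.InjOn c (Set.Iio (r + 2)) → D ≤ Dr → 0 ≤ η₀ →
    ∀ {d : ℕ} {ζ M₁ Λ μ θ : ℝ} {A : F.Ω → Prop} (hA : 0 < Pe F.p A), Sub A B →
    κ * Pe F.p B ≤ Pe F.p A / 8 → (Fam.sub F A hA).Tm θ → 0 ≤ θ → 0 ≤ ζ → 0 ≤ M₁ → 0 ≤ Λ →
    d ≤ N → ⌊o 0 * J⌋₊ ≤ J → ⌊o d * J⌋₊ ≤ J →
    C₁ * (θ + 1) ≤ η₀ * J * Real.log 2 → C₁ * (θ + 1) ≤ ((J : ℝ) - ⌊o 0 * J⌋₊) * Real.log 2 →
    C₁ ≤ C * (η₀ * J) → 0 ≤ lv 0 r → 0 ≤ lv 0 (r + 1) →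
    (∀ l ≤ r + 1, lv d l ≤ lv d (r + 1) + Λ) →
    Eb + Λ + lv d (r + 1) + C₁ * (C * η₀) ≤ 1 →
    M₁ + C₁ * (ζ + C * η₀) ≤ (lv d (r + 1) - lv d r) - (lv 0 (r + 1) - lv 0 r) →
    M₁ + 2 * (C * η₀) ≤ μ →
    (∀ k ∈ ({0, d} : Finset ℕ), ∀ ω, B ω →
      |eval (bt F ω) (pderiv (some (c r)) (Ht 0 (slam F ⌊o 0 * J⌋₊ ω))) -
        eval (bt F ω) (pderiv (some (c r)) (H k (slam F ⌊o k * J⌋₊ ω) (r + 1)))| ≤
        (2 : ℝ) ^ ((lv k r - lv k (r + 1) + ζ + 6 * (C * η₀)) * J)) →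
    (∀ ω, A ω → |(Polynomial.derivative (spt c r ⌊lv 0 r * J⌋₊ ⌊lv 0 (r + 1) * J⌋₊ ⌊o 0 * J⌋₊ (Ht 0)
      (slam F ⌊o 0 * J⌋₊ ω))).eval (rt F ⌊o 0 * J⌋₊ ω)| ≤ (2 : ℝ) ^ (-(μ * J))) →
    ∃ (B' : F.Ω → Prop) (κL : LnT F → ℝ) (κG : PtT F → ℝ), Sub B' A ∧
      Pe F.p A / 16 ≤ Pe F.p B' ∧
      CfC F c r ⌊M₁ * J⌋₊ ⌊o 0 * J⌋₊ ⌊o 0 * J⌋₊ (g₀ 0) (g₀ 0)
        (2 ^ ⌊lv 0 r * J⌋₊ / 2 ^ ⌊lv 0 (r + 1) * J⌋₊)
        (2 ^ (⌊η₀ * J⌋₊ + 2 * ⌊(ζ + 8 * (C * η₀)) * J⌋₊ + 2) *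
          (2 ^ ⌊lv 0 r * J⌋₊ / 2 ^ ⌊lv 0 (r + 1) * J⌋₊))
        (2 ^ (⌊η₀ * J⌋₊ + 2 * ⌊(ζ + 8 * (C * η₀)) * J⌋₊ + 2) *
          (2 ^ g₀ 0 r / 2 ^ (⌊lv 0 (r + 1) * J⌋₊ + 0)))
        B' (G 0) (G 0) (spt c r ⌊lv 0 r * J⌋₊ ⌊lv 0 (r + 1) * J⌋₊ ⌊o 0 * J⌋₊ (Ht 0)) κL κG := by
  classical
  obtain ⟨C₄, hC₄, hcst⟩ := cf_const m D
  obtain ⟨C₅, hC₅, hvis⟩ := cab_vis D r
  refine ⟨C₄ + 10 * C₅ + 10, by omega, ?_⟩
  intro c Dr N N₂ R C a Eb ε₀ η₀ Pt o lv be J F b κ z B gc gT g₀ G H T TH Gt Ht W hc hDr hη d ζ M₁ Λ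
    μ θ A hA hAB hκ hTm hθ hζ hM₁ hΛ hd h0J hdJ ht1 ht2 hCJ hl0 hl1 hlv hsum hmd hμ hnear hder
  have hJ0 : (0 : ℝ) ≤ J := Nat.cast_nonneg J
  have hC1 : 1 ≤ C := W.win.C1
  have hl2 : 0 < Real.log 2 := Real.log_pos one_lt_two
  have h2 : (0 : ℝ) < 2 := by norm_num
  push_cast at ht1 ht2 hCJ hsum hmd
  have c4 : (1 : ℝ) ≤ C₄ := by exact_mod_cast hC₄
  have c5 : (1 : ℝ) ≤ C₅ := by exact_mod_cast hC₅
  have hηJ : 0 ≤ η₀ * J := mul_nonneg hη hJ0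
  have hCη : η₀ * J ≤ C * (η₀ * J) := le_mul_of_one_le_left hηJ hC1
  have hζJ : 0 ≤ ζ * J := mul_nonneg hζ hJ0
  obtain ⟨X, hX⟩ : ∃ X : ℝ, X = C * (η₀ * J) := ⟨_, rfl⟩
  obtain ⟨Zt, hZt⟩ : ∃ Z : ℝ, Z = ζ * J := ⟨_, rfl⟩
  have hX0 : 0 ≤ X := by rw [hX]; exact hηJ.trans hCη
  have hX4 : (C₄ : ℝ) + 10 * C₅ + 10 ≤ X := by rw [hX]; exact hCJ
  rw [← hX] at hCη hCJ
  rw [← hZt] at hζJ
  have hθ1 : 0 ≤ θ + 1 := by linarith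
  -- the numbers
  obtain ⟨su, hsu⟩ : ∃ su, su = ⌊lv 0 r * J⌋₊ := ⟨_, rfl⟩
  obtain ⟨sn, hsn⟩ : ∃ sn, sn = ⌊lv 0 (r + 1) * J⌋₊ := ⟨_, rfl⟩
  obtain ⟨x, hx⟩ : ∃ x, x = ⌊(ζ + 8 * (C * η₀)) * J⌋₊ := ⟨_, rfl⟩
  obtain ⟨md, hmd'⟩ : ∃ md : ℝ, md = ((lv d (r + 1) - lv d r) - (lv 0 (r + 1) - lv 0 r)) * J :=
    ⟨_, rfl⟩
  have su1 : (su : ℝ) ≤ lv 0 r * J := by rw [hsu]; exact Nat.floor_le (mul_nonneg hl0 hJ0)
  have su2 : lv 0 r * J < su + 1 := by rw [hsu]; exact Nat.lt_floor_add_one _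
  have sn1 : (sn : ℝ) ≤ lv 0 (r + 1) * J := by
    rw [hsn]; exact Nat.floor_le (mul_nonneg hl1 hJ0)
  have sn2 : lv 0 (r + 1) * J < sn + 1 := by rw [hsn]; exact Nat.lt_floor_add_one _
  have ex : (ζ + 8 * (C * η₀)) * (J : ℝ) = Zt + 8 * X := by rw [hX, hZt]; ring
  have x1 : (x : ℝ) ≤ Zt + 8 * X := by
    rw [hx, ← ex]
    exact Nat.floor_le (by rw [ex]; linarith)
  have x2 : Zt + 8 * X < x + 1 := by rw [hx, ← ex]; exact Nat.lt_floor_add_one _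
  have hM₁J : 0 ≤ M₁ * J := mul_nonneg hM₁ hJ0
  have m1 : (⌊M₁ * J⌋₊ : ℝ) ≤ M₁ * J := Nat.floor_le hM₁J
  have hmdJ : M₁ * J + (C₄ + 10 * C₅ + 10) * (Zt + X) ≤ md := by
    have h1 := mul_le_mul_of_nonneg_right hmd hJ0
    rw [← hmd'] at h1
    refine le_trans (le_of_eq ?_) h1
    rw [hX, hZt]
    ring
  have hZX : 0 ≤ Zt + X := by linarith
  have hmd0 : 0 ≤ md := by
    have : 0 ≤ (C₄ + 10 * C₅ + 10 : ℝ) * (Zt + X) := by positivity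
    linarith
  have md1 : (⌊md⌋₊ : ℝ) ≤ md := Nat.floor_le hmd0
  have md2 : md < ⌊md⌋₊ + 1 := Nat.lt_floor_add_one _
  have ek : ∀ k : ℕ, (lv k r - lv k (r + 1) + ζ + 6 * (C * η₀)) * (J : ℝ) =
      lv k r * J - lv k (r + 1) * J + Zt + 6 * X := fun k => by rw [hX, hZt]; ring
  -- the ball of the window `0` and `d`
  obtain ⟨-, -, a1, a2, -, -⟩ := W.win.g_num (Nat.zero_le N) (l := r) (by omega)
  obtain ⟨-, -, b1, b2, -, -⟩ := W.win.g_num hd (l := r + 1) le_rfl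
  have hdl : ∀ l ≤ r + 1, (g₀ d l : ℝ) ≤ lv d (r + 1) * J + Λ * J := fun l hl => by
    obtain ⟨-, -, -, h1, -, -⟩ := W.win.g_num hd (l := l) hl
    refine h1.trans ?_
    have := mul_le_mul_of_nonneg_right (hlv l hl) hJ0
    linarith
  have hdr : (g₀ d r : ℝ) ≤ lv d r * J := (W.win.g_num hd (l := r) (by omega)).2.2.2.1
  have hEb : 0 ≤ Eb := W.win.Eb0
  have hΛJ : 0 ≤ Λ * J := mul_nonneg hΛ hJ0
  have hsumJ : Eb * J + Λ * J + lv d (r + 1) * J + (C₄ + 10 * C₅ + 10) * X ≤ J := by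
    have h1 := mul_le_mul_of_nonneg_right hsum hJ0
    rw [one_mul] at h1
    refine le_trans (le_of_eq ?_) h1
    rw [hX]
    ring
  have e1 : (⌊(Eb + (fun _ : ℕ => η₀) d + (fun _ : ℕ => η₀) d) * J⌋₊ : ℝ) ≤
      Eb * J + 2 * (η₀ * J) := by
    refine (Nat.floor_le ?_).trans (le_of_eq (by ring))
    have : 0 ≤ (Eb + η₀ + η₀) * (J : ℝ) := mul_nonneg (by linarith) hJ0
    exact this
  have hX10 : 10 * X ≤ (C₄ + 10 * C₅ + 10) * X :=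
    mul_le_mul_of_nonneg_right (by linarith) hX0
  have hbd := (W.win.evs d hd)
  have hb0 := (W.win.evs 0 (Nat.zero_le N))
  obtain ⟨L, hL⟩ : ∃ L, L = ⌊Λ * J + η₀ * J⌋₊ := ⟨_, rfl⟩
  have L1 : (L : ℝ) ≤ Λ * J + η₀ * J := by rw [hL]; exact Nat.floor_le (by linarith)
  -- visibility
  have hv := hvis (F := F) (c := c) (o₁ := ⌊o 0 * J⌋₊) (o₂ := ⌊o d * J⌋₊)
    (L := L) (x := x) (M₀ := ⌊md⌋₊) (su := su) (sn := sn)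
    (g₂ := g₀ d) (A := B) (cP := spt c r su sn ⌊o 0 * J⌋₊ (Ht 0)) hc hbd.ball hbd.cls
    (fun i hi => by
      have h1 := hdl i (by omega)
      have h3 : ((⌊(Eb + (fun _ : ℕ => η₀) d + (fun _ : ℕ => η₀) d) * J⌋₊ + g₀ d i + C₅ : ℕ) : ℝ) ≤
          (J : ℕ) := by
        push_cast
        linarith
      exact_mod_cast h3)
    (fun l hl => by
      rw [hL]
      refine Nat.le_floor ?_
      unfold nlp
      rcases Nat.lt_or_ge ((Finset.Icc l (r + 1)).sup (g₀ d)) (g₀ d (r + 1)) with h3 | h3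
      · rw [Nat.sub_eq_zero_of_le h3.le, Nat.cast_zero]
        linarith
      · rw [Nat.cast_sub h3]
        obtain ⟨j, hj, hje⟩ := Finset.exists_mem_eq_sup (Finset.Icc l (r + 1))
          ⟨r + 1, Finset.mem_Icc.2 ⟨by omega, le_rfl⟩⟩ (g₀ d)
        rw [hje]
        have := hdl j (Finset.mem_Icc.1 hj).2
        linarith)
    (by
      have h3 : ((⌊(Eb + (fun _ : ℕ => η₀) d + (fun _ : ℕ => η₀) d) * J⌋₊ + L + g₀ d r + sn +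
          ⌊md⌋₊ : ℕ) : ℝ) ≤ ((J + su + x : ℕ) : ℝ) := by
        push_cast
        have e9 : md = lv d (r + 1) * J - lv d r * J - lv 0 (r + 1) * J + lv 0 r * J := by
          rw [hmd']; ring
        linarith
      exact_mod_cast h3)
    (fun ω hω => by
      rw [eval_spt h0J, ← mul_sub, abs_mul, abs_of_pos (show (0 : ℝ) < 2 ^ sn / 2 ^ su by
        positivity)]
      refine (mul_le_mul_of_nonneg_left (hnear d (by simp) ω hω) (by positivity)).trans ?_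
      rw [ek d]
      refine (pw3' (z := (x : ℝ) - ⌊md⌋₊) ?_).trans (pwd (by linarith))
      have e9 : md = lv d (r + 1) * J - lv d r * J - lv 0 (r + 1) * J + lv 0 r * J := by
        rw [hmd']; ring
      linarith)
  -- the constant
  obtain ⟨S₁, hS₁⟩ : ∃ S₁ : ℝ, S₁ = 2 ^ (C₅ * (x + 1)) / 2 ^ ⌊md⌋₊ := ⟨_, rfl⟩
  have hv0 : ∀ ω, B ω → |(spt c r su sn ⌊o 0 * J⌋₊ (Ht 0) (slam F ⌊o 0 * J⌋₊ ω)).eval
      (rt F ⌊o 0 * J⌋₊ ω) - 2 ^ sn / 2 ^ su *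
      eval (bt F ω) (pderiv (some (c r)) (H 0 (slam F ⌊o 0 * J⌋₊ ω) (r + 1)))| ≤ 2 ^ x := by
    intro ω hω
    rw [eval_spt h0J, ← mul_sub, abs_mul, abs_of_pos (show (0 : ℝ) < 2 ^ sn / 2 ^ su by
      positivity)]
    refine (mul_le_mul_of_nonneg_left (hnear 0 (by simp) ω hω) (by positivity)).trans ?_
    rw [ek 0, ← Real.rpow_natCast 2 x]
    refine pw3' ?_
    linarith
  have hCR : ∀ {n : ℝ}, n ≤ C₄ + 10 * C₅ + 10 → n * (θ + 1) ≤ (C₄ + 10 * C₅ + 10) * (θ + 1) :=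
    fun h => mul_le_mul_of_nonneg_right h hθ1
  obtain ⟨B', κL, κG, k1, k2, k3⟩ := hcst (F := F) (c := c) (r := r) (D := D) (Dr := Dr) (M₀ := 0)
    (MB := 0) (x := x) (h := ⌊(fun _ : ℕ => η₀) 0 * J⌋₊) (su := su) (sn := sn) (κ := κ)
    (o₁ := ⌊o 0 * J⌋₊) (o₂ := ⌊o 0 * J⌋₊) (g₁ := g₀ 0) (g₂ := g₀ 0) (B := B) (G₁ := G 0)
    (G₂ := G 0) (H₁ := H 0) (H₂ := H 0) (cP := spt c r su sn ⌊o 0 * J⌋₊ (Ht 0)) le_rfl h0J hDr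
    (fun y l => hb0.ball.degG y l) (fun s l => hb0.ball.degH s l)
    (fun y l => hb0.ball.depG y l) (fun s l => hb0.ball.depH s l)
    (fun y l => hb0.ball.degG y l) (fun s l => hb0.ball.degH s l)
    (fun y l => hb0.ball.depG y l) (fun s l => hb0.ball.depH s l)
    hb0.cls hb0.cls hb0.relb hb0.relb (deg_spt su sn _ hb0.dH) hv0
    (by simpa using hv0) ⌊M₁ * J⌋₊ hA hAB hκ ((2 : ℝ) ^ (-(μ * J))) S₁ θ
    (fun ω ν hω hν hpt => by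
      rw [hS₁]
      exact hv ω ν (hAB ω hω) (hAB ν hν) hpt) (by positivity) (by rw [hS₁]; positivity) hθ hTm
    ((hCR (by linarith)).trans ht2) (fun ω hω => by
      rw [hsu, hsn]
      exact hder ω hω) (by
      have hM0 : (0 : ℝ) < 2 ^ ⌊M₁ * J⌋₊ := by positivity
      have t1 : Real.exp (C₄ * (θ + 1)) ≤ (2 : ℝ) ^ (η₀ * J) := by
        rw [Real.rpow_def_of_pos h2]
        refine Real.exp_le_exp.2 (((hCR (by linarith)).trans ht1).trans (le_of_eq (by ring)))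
      have hμJ : M₁ * J + 2 * X ≤ μ * J := by
        have := mul_le_mul_of_nonneg_right hμ hJ0
        refine le_trans (le_of_eq ?_) this
        rw [hX]
        ring
      have t2 : (2 : ℝ) ^ (η₀ * J) * (2 : ℝ) ^ (-(μ * J)) ≤ 1 / (8 * 2 ^ ⌊M₁ * J⌋₊) := by
        rw [← Real.rpow_add h2]
        have e9 : (1 : ℝ) / (8 * 2 ^ ⌊M₁ * J⌋₊) = (2 : ℝ) ^ (-((3 : ℝ) + ⌊M₁ * J⌋₊)) := by
          rw [Real.rpow_neg h2.le, Real.rpow_add h2, Real.rpow_natCast]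
          norm_num
        rw [e9]
        exact Real.rpow_le_rpow_of_exponent_le (by norm_num) (by linarith)
      have t3 : S₁ ≤ 1 / (8 * 2 ^ ⌊M₁ * J⌋₊) := by
        have e9 : (1 : ℝ) / (8 * 2 ^ ⌊M₁ * J⌋₊) = (2 : ℝ) ^ (-((3 : ℝ) + ⌊M₁ * J⌋₊)) := by
          rw [Real.rpow_neg h2.le, Real.rpow_add h2, Real.rpow_natCast]
          norm_num
        rw [e9, hS₁, ← Real.rpow_natCast, ← Real.rpow_natCast, ← Real.rpow_sub h2]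
        refine Real.rpow_le_rpow_of_exponent_le (by norm_num) ?_
        push_cast
        have e10 : (C₅ : ℝ) * (x + 1) ≤ C₅ * (Zt + 8 * X + 1) :=
          mul_le_mul_of_nonneg_left (by linarith) (by linarith)
        have e11 : (C₅ : ℝ) * (Zt + 8 * X + 1) = C₅ * (Zt + X) + 7 * (C₅ * X) + C₅ := by ring
        have e12 : (C₄ + 10 * C₅ + 10) * (Zt + X) = C₅ * (Zt + X) + 9 * (C₅ * (Zt + X)) +
          (C₄ + 10) * (Zt + X) := by ring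
        have e13 : (C₅ : ℝ) * X ≤ C₅ * (Zt + X) :=
          mul_le_mul_of_nonneg_left (by linarith) (by linarith)
        have e14 : X ≤ (C₄ + 10) * (Zt + X) := by nlinarith
        have e15 : 0 ≤ (C₅ : ℝ) * (Zt + X) := by positivity
        linarith
      have t4 := mul_le_mul_of_nonneg_right t1 (show (0 : ℝ) ≤ (2 : ℝ) ^ (-(μ * J)) by
        positivity)
      have e9 : (1 : ℝ) / (4 * 2 ^ ⌊M₁ * J⌋₊) =
          1 / (8 * 2 ^ ⌊M₁ * J⌋₊) + 1 / (8 * 2 ^ ⌊M₁ * J⌋₊) := by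
        field_simp
        norm_num
      rw [e9]
      linarith) (by
      have h3 : ((su + 0 : ℕ) : ℝ) ≤ ((g₀ 0 r + ⌊M₁ * J⌋₊ + x : ℕ) : ℝ) := by
        push_cast
        have : (0 : ℝ) ≤ (⌊M₁ * J⌋₊ : ℝ) := Nat.cast_nonneg _
        linarith
      exact_mod_cast h3) (by
      have h3 : ((su + 0 : ℕ) : ℝ) ≤ ((g₀ 0 r + 0 + x : ℕ) : ℝ) := by
        push_cast
        linarith
      exact_mod_cast h3)
  rw [← hsu, ← hsn, ← hx]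
  exact ⟨B', κL, κG, k1, k2, k3⟩

end ev

end Pool.CR99
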