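import Pool.Agent.H99.D2.Bld

/-!
# The velocity of the path of the slopes of the row label

`vel_ev`: from the aliveness of the velocity of `u = c r` at a deep window. `vel_ev2`: by scaling, from an
earlier window.
-/

set_option autoImplicit false

namespace Pool.CR99

open Finset Real MvPolynomial
open Pool.Agent.H49.Ent Pool.Agent.H32.Dense Pool.STK Pool.KA Pool.KSAT Pool.K2S Pool.PB Pool.S6C
open Pool.GEN Pool.CHT Pool.CHX Pool.ISO Pool.D2R Pool.D2G30 Pool.V1E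
open Pool.FLF (Fam.sub)
open Pool.PB.Trl (rt rt_mem t_rt)

theorem mul_bdS {su sn : ℕ} {a S : ℝ} (h : |a| ≤ 2 ^ su / 2 ^ sn * S) :
    |2 ^ sn / 2 ^ su * a| ≤ S := by
  rw [abs_mul, abs_of_pos (show (0 : ℝ) < 2 ^ sn / 2 ^ su by positivity)]
  refine (mul_le_mul_of_nonneg_left h (by positivity)).trans (le_of_eq ?_)
  field_simp

/-- **The velocity of the path of the slopes**, from a deep window. -/
theorem vel_ev (m D r : ℕ) : ∃ C : ℕ, 1 ≤ C ∧ ∀ {J : ℕ} {F : Fam m J}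
    {c : ℕ → Fin m} {n e hi su sn : ℕ} {o₀ od : ℕ} {gd : ℕ → ℕ} {B : F.Ω → Prop}
    {Gd : PtT F → ℕ → MvPolynomial (Option (Fin m)) ℝ}
    {Hd : LnT F → ℕ → MvPolynomial (Option (Fin m)) ℝ}
    {Ht : LnT F → MvPolynomial (Option (Fin m)) ℝ} {S : ℝ} {ζ : Type} {Z : F.Ω → ζ},
    Set.InjOn c (Set.Iio (r + 2)) → o₀ ≤ od → od ≤ J →
    ChOK F c (r + 2) (fun _ => D) od od e gd B Gd Hd → Clsd F (r + 2) od B Gd Hd →
    (∀ ω, B ω → ∀ l < r + 2, ∀ τ ∈ Set.Icc (0 : ℝ) 1,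
      |(dv od (fun s _ => Hd s l) (c l) (slam F od ω)).eval τ| ≤ 2 ^ n / 2 ^ gd l) →
    (∀ s, (Ht s).totalDegree ≤ D) →
    (∀ ω, B ω → |eval (bt F ω) (pderiv (some (c r)) (Ht (slam F o₀ ω))) -
      eval (bt F ω) (pderiv (some (c r)) (Hd (slam F od ω) (r + 1)))| ≤
        2 ^ su / 2 ^ sn * S) → 0 < S →
    KOk F c r od hi B Hd Z → (∀ i < r + 2, e + gd i + C * (n + 1) ≤ hi) → 0 < Pe F.p B →
    ∀ (β θ : ℝ), 0 < β → β ≤ 1 → 0 ≤ θ →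
    (∀ E : F.Ω → Prop, Sub E B → 1 / 2 * Pe F.p B ≤ Pe F.p E → Real.log (2 * D + 1) <
      CH (Pool.Agent.H49.Ent.cond F.p E True)
        (fun ω => ⌊2 ^ gd r / 2 ^ od * F.d ω (c r) / β⌋) Z) →
    (∀ (A : F.Ω → Prop) (hA : 0 < Pe F.p A), Sub A B → 1 / 4 * Pe F.p B ≤ Pe F.p A →
      (Fam.sub F A hA).Tm θ) → C * (θ + 1) ≤ ((J : ℝ) - od) * Real.log 2 →
    ∃ A₂ : F.Ω → Prop, Sub A₂ B ∧ Pe F.p B / 4 ≤ Pe F.p A₂ ∧ ∀ ω, A₂ ω →
      |(Polynomial.derivative (spt c r su sn o₀ Ht (slam F o₀ ω))).eval (rt F o₀ ω)| ≤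
        2 ^ (od - o₀) * (Real.exp (C * (θ + 1)) * S + 2 ^ sn / 2 ^ su *
          ((1 / β) ^ (2 * D * D) * (2 ^ (C * (n + 1)) * (2 ^ gd r / 2 ^ gd (r + 1))))) := by
  classical
  obtain ⟨C₁, hC₁, hk1⟩ := k1_ev D r
  obtain ⟨C₂, hC₂, hvel⟩ := k1_vel D
  obtain ⟨C₃, hC₃, hpath⟩ := vel_path m D
  obtain ⟨C₇, hC₇⟩ := pow_unbounded_of_one_lt C₂ (one_lt_two (α := ℝ))
  obtain ⟨C₆, hC₆⟩ : ∃ C₆ : ℕ, C₆ = ⌈C₃⌉₊ := ⟨_, rfl⟩
  have hC36 : C₃ ≤ C₆ := by rw [hC₆]; exact Nat.le_ceil C₃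
  refine ⟨C₁ + C₆ + C₇, by omega, ?_⟩
  intro J F c n e hi su sn o₀ od gd B Gd Hd Ht S ζ Z hc h0d hdJ hch hcl hown hdH hwd hS hZ hhi hB
    β θ hβ hβ1 hθ hal hTm hJd
  obtain ⟨C, hC⟩ : ∃ C, C = C₁ + C₆ + C₇ := ⟨_, rfl⟩
  rw [← hC] at hhi hJd
  have hθ1 : 0 ≤ θ + 1 := by linarith
  have o0J : o₀ ≤ J := h0d.trans hdJ
  have hC6C : (C₆ : ℝ) ≤ C := by exact_mod_cast (by omega : C₆ ≤ C)
  -- the slice
  obtain ⟨A₁, a1, a2, a3⟩ := hk1 (c₀ := 1 / 2) (n := n) (hi := hi) hc hdJ hch hcl hown hZ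
    (fun i hi => by
      have h1 := hhi i hi
      have h2 : C₁ * (n + 1) ≤ C * (n + 1) := Nat.mul_le_mul_right _ (by omega)
      omega) hβ hβ1 (by norm_num) hB hal
  obtain ⟨Y, hY⟩ : ∃ Y : ℝ, Y = (1 / β) ^ (2 * D * D) *
    (2 ^ (C₁ * (n + 1)) * (2 ^ gd r / 2 ^ gd (r + 1))) := ⟨_, rfl⟩
  have hY0 : 0 ≤ Y := by rw [hY]; positivity
  have hA₁ : 0 < Pe F.p A₁ := lt_of_lt_of_le (by linarith) a2
  have hsu : (0 : ℝ) < 2 ^ sn / 2 ^ su := by positivity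
  have hv : ∀ ω, A₁ ω → |(Polynomial.derivative (spt c r su sn od (fun s => Hd s (r + 1))
      (slam F od ω))).eval (rt F od ω)| ≤ 2 ^ sn / 2 ^ su * (C₂ * Y) := by
    intro ω hω
    have h1 := hvel (F := F) (w := od) (ω := ω)
      (Q := pderiv (some (c r)) (Gd (ptr F J ω) (r + 1))) (S := Y)
      ((pd_deg _ _).trans (hch.degG _ _)) (fun τ hτ τ' hτ' => by
        have h2 := a3 ω hω τ hτ τ' hτ' 0 (by rw [abs_zero]; positivity)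
        rw [add_zero, Function.update_eq_self, ← hY] at h2
        exact h2) (rt F od ω) (rt_mem F od ω)
    unfold spt
    beta_reduce
    rw [Polynomial.derivative_C_mul, Polynomial.eval_mul, Polynomial.eval_C, abs_mul,
      abs_of_pos hsu, ← hcl ω (a1 ω hω) (r + 1) (by omega)]
    exact mul_le_mul_of_nonneg_left h1 hsu.le
  -- the velocity of the path
  obtain ⟨A₂, b1, b2, b3⟩ := hpath hA₁ (spt c r su sn o₀ Ht)
    (spt c r su sn od (fun s => Hd s (r + 1))) S (2 ^ sn / 2 ^ su * (C₂ * Y)) θ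
    h0d hdJ (deg_spt su sn o₀ hdH) (deg_spt su sn od (fun s => hch.degH s _))
    hS hθ (hTm A₁ hA₁ a1 (by linarith)) (by
      refine le_trans ?_ hJd
      exact mul_le_mul_of_nonneg_right (hC36.trans hC6C) hθ1) (fun ω hω => by
      rw [eval_spt o0J, eval_spt hdJ, ← mul_sub]
      exact mul_bdS (hwd ω (a1 ω hω))) hv
  refine ⟨A₂, fun ω hω => a1 ω (b1 ω hω), by linarith, fun ω hω => (b3 ω hω).trans ?_⟩
  have e2 : Real.exp (C₃ * (θ + 1)) ≤ Real.exp (C * (θ + 1)) :=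
    Real.exp_le_exp.2 (mul_le_mul_of_nonneg_right (hC36.trans hC6C) hθ1)
  have e3 : C₂ * Y ≤ (1 / β) ^ (2 * D * D) * (2 ^ (C * (n + 1)) *
      (2 ^ gd r / 2 ^ gd (r + 1))) := by
    rw [hY]
    have k1 : C₂ * 2 ^ (C₁ * (n + 1)) ≤ (2 : ℝ) ^ (C * (n + 1)) := by
      calc C₂ * 2 ^ (C₁ * (n + 1)) ≤ 2 ^ C₇ * 2 ^ (C₁ * (n + 1)) :=
            mul_le_mul_of_nonneg_right hC₇.le (by positivity)
        _ = 2 ^ (C₇ + C₁ * (n + 1)) := by rw [pow_add]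
        _ ≤ _ := pow_le_pow_right₀ (by norm_num) (by
            have k2 : C₇ ≤ C₇ * (n + 1) := Nat.le_mul_of_pos_right _ (by omega)
            calc C₇ + C₁ * (n + 1) ≤ C₇ * (n + 1) + C₁ * (n + 1) := by omega
              _ = (C₇ + C₁) * (n + 1) := by ring
              _ ≤ _ := Nat.mul_le_mul_right _ (by omega))
    calc C₂ * ((1 / β) ^ (2 * D * D) * (2 ^ (C₁ * (n + 1)) * (2 ^ gd r / 2 ^ gd (r + 1)))) =
        (1 / β) ^ (2 * D * D) * ((C₂ * 2 ^ (C₁ * (n + 1))) * (2 ^ gd r / 2 ^ gd (r + 1))) := by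
          ring
      _ ≤ _ := by gcongr
  rw [← hC]
  exact mul_le_mul_of_nonneg_left (add_le_add (mul_le_mul_of_nonneg_right e2 hS.le)
    (mul_le_mul_of_nonneg_left e3 hsu.le)) (by positivity)

/-- **The velocity by scaling**: two labels, of the windows `oe ≤ o₀`. -/
theorem vel_ev2 (m D : ℕ) : ∃ C : ℕ, 1 ≤ C ∧ ∀ {J : ℕ} {F : Fam m J}
    {c : ℕ → Fin m} {r su sn : ℕ} {oe o₀ od : ℕ} {S : ℝ} {A : F.Ω → Prop} (hA : 0 < Pe F.p A)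
    {Hd : LnT F → ℕ → MvPolynomial (Option (Fin m)) ℝ}
    {He Ht : LnT F → MvPolynomial (Option (Fin m)) ℝ},
    oe ≤ o₀ → o₀ ≤ od → od ≤ J → (∀ s, (He s).totalDegree ≤ D) →
    (∀ s, (Ht s).totalDegree ≤ D) →
    (∀ ω, A ω → |eval (bt F ω) (pderiv (some (c r)) (He (slam F oe ω))) -
      eval (bt F ω) (pderiv (some (c r)) (Hd (slam F od ω) (r + 1)))| ≤
        2 ^ su / 2 ^ sn * S) →
    (∀ ω, A ω → |eval (bt F ω) (pderiv (some (c r)) (Ht (slam F o₀ ω))) -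
      eval (bt F ω) (pderiv (some (c r)) (Hd (slam F od ω) (r + 1)))| ≤
        2 ^ su / 2 ^ sn * S) →
    ∀ (E θ : ℝ), 0 < S → 0 ≤ θ → (Fam.sub F A hA).Tm θ →
    C * (θ + 1) ≤ ((J : ℝ) - o₀) * Real.log 2 →
    (∀ ω, A ω → |(Polynomial.derivative (spt c r su sn oe He (slam F oe ω))).eval
      (rt F oe ω)| ≤ E) →
    ∃ B : F.Ω → Prop, Sub B A ∧ Pe F.p A / 2 ≤ Pe F.p B ∧ ∀ ω, B ω →
      |(Polynomial.derivative (spt c r su sn o₀ Ht (slam F o₀ ω))).eval (rt F o₀ ω)| ≤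
        Real.exp (C * (θ + 1)) * (2 * S) + E / 2 ^ (o₀ - oe) := by
  classical
  obtain ⟨C₃, hC₃, hpath⟩ := vel_path m D
  refine ⟨⌈C₃⌉₊, Nat.one_le_ceil_iff.2 (by linarith), ?_⟩
  intro J F c r su sn oe o₀ od S A hA Hd He Ht he0 h0d hdJ dE dT hwe hwt E θ hS hθ hTm hJ hE
  have o0J : o₀ ≤ J := h0d.trans hdJ
  have oeJ : oe ≤ J := he0.trans o0J
  have hC36 : C₃ ≤ ⌈C₃⌉₊ := Nat.le_ceil C₃
  have hθ1 : 0 ≤ θ + 1 := by linarith
  obtain ⟨B, b1, b2, b3⟩ := hpath hA (spt c r su sn o₀ Ht)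
    (res (o₀ - oe) (spt c r su sn oe He)) (2 * S) (E / 2 ^ (o₀ - oe)) θ
    le_rfl o0J (deg_spt su sn o₀ dT) (deg_res (deg_spt su sn oe dE)) (by positivity) hθ hTm
    ((mul_le_mul_of_nonneg_right hC36 hθ1).trans hJ) (fun ω hω => by
      rw [eval_res he0 o0J, eval_spt o0J, eval_spt oeJ]
      have h1 := mul_bdS (hwe ω hω)
      have h2 := mul_bdS (hwt ω hω)
      rw [mul_sub] at h1 h2
      obtain ⟨p, hp⟩ : ∃ p, p = 2 ^ sn / 2 ^ su *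
        eval (bt F ω) (pderiv (some (c r)) (Hd (slam F od ω) (r + 1))) := ⟨_, rfl⟩
      rw [← hp] at h1 h2
      rw [abs_le] at h1 h2 ⊢
      constructor <;> linarith [h1.1, h1.2, h2.1, h2.2]) (fun ω hω => by
      rw [der_res he0 o0J, abs_mul, abs_of_pos (show (0 : ℝ) < 1 / 2 ^ (o₀ - oe) by
        positivity), one_div_mul_eq_div]
      exact div_le_div_of_nonneg_right (hE ω hω) (by positivity))
  refine ⟨B, b1, b2, fun ω hω => (b3 ω hω).trans ?_⟩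
  rw [Nat.sub_self, pow_zero, one_mul]
  have e2 : Real.exp (C₃ * (θ + 1)) ≤ Real.exp ((⌈C₃⌉₊ : ℝ) * (θ + 1)) :=
    Real.exp_le_exp.2 (mul_le_mul_of_nonneg_right hC36 hθ1)
  have e3 := mul_le_mul_of_nonneg_right e2 (show (0 : ℝ) ≤ 2 * S by positivity)
  linarith

end Pool.CR99
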