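import Pool.Agent.H99.D2.Blf

/-!
# The velocity of the path of the slopes, class theorems

`vls_deep`: `VlS` from the aliveness at a deep window. `vls_scl`: by scaling from an earlier window.
-/

set_option autoImplicit false

namespace Pool.CR99

open Finset Real MvPolynomial
open Pool.Agent.H49.Ent Pool.Agent.H32.Dense Pool.STK Pool.KA Pool.KSAT Pool.K2S Pool.PB Pool.S6C
open Pool.GEN Pool.CHT Pool.CHX Pool.ISO Pool.D2R Pool.D2G30 Pool.V1E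
open Pool.FLF (Fam.sub)
open Pool.PB.Trl (rt rt_mem t_rt)

variable {m : ℕ}

/-- The time for one window. -/
theorem tm_num {C₁ : ℕ} {η₀ w : ℝ} (hC₁ : 1 ≤ C₁) (hη : 0 < η₀) (hw : w < 1) :
    ∃ ψ : ℝ, 0 < ψ ∧ ∃ J₀ : ℕ, ∀ J : ℕ, J₀ ≤ J →
      (C₁ : ℝ) * (ψ * J + 1) ≤ η₀ * J * Real.log 2 ∧
      (C₁ : ℝ) * (ψ * J + 1) ≤ (1 - w) * J * Real.log 2 := by
  have hl2 : 0 < Real.log 2 := Real.log_pos one_lt_two
  have c1 : (1 : ℝ) ≤ C₁ := by exact_mod_cast hC₁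
  have hmin : 0 < min η₀ (1 - w) := lt_min hη (by linarith)
  refine ⟨min η₀ (1 - w) * Real.log 2 / (2 * C₁), by positivity, ?_⟩
  obtain ⟨J₁, hJ₁⟩ := exists_nat_ge (2 * C₁ / (min η₀ (1 - w) * Real.log 2))
  refine ⟨J₁, fun J hJ => ?_⟩
  have e1 : (J₁ : ℝ) ≤ J := by exact_mod_cast hJ
  have e2 := hJ₁.trans e1
  rw [div_le_iff₀ (by positivity)] at e2
  have hJ0 : (0 : ℝ) ≤ J := Nat.cast_nonneg J
  have e3 : (C₁ : ℝ) * (min η₀ (1 - w) * Real.log 2 / (2 * C₁) * J + 1) =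
      min η₀ (1 - w) * Real.log 2 / 2 * J + C₁ := by
    have : (C₁ : ℝ) ≠ 0 := by positivity
    field_simp
  rw [e3]
  have m1 : min η₀ (1 - w) * (J * Real.log 2) ≤ η₀ * (J * Real.log 2) :=
    mul_le_mul_of_nonneg_right (min_le_left _ _) (mul_nonneg hJ0 hl2.le)
  have m2 : min η₀ (1 - w) * (J * Real.log 2) ≤ (1 - w) * (J * Real.log 2) :=
    mul_le_mul_of_nonneg_right (min_le_right _ _) (mul_nonneg hJ0 hl2.le)
  constructor <;> nlinarith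

/-- **`VlS` from the aliveness at a deep window.** -/
theorem vls_deep (m D r : ℕ) : ∃ C₁ : ℕ, 1 ≤ C₁ ∧ ∀ {S : PCl m} {C₀ : ℝ} {c : ℕ → Fin m}
    {Dr N N₂ : ℕ} {R : ℕ → Prop} {C a Eb ε₀ η₀ : ℝ} {Pt : ℝ → ℝ → ℝ} {o : ℕ → ℝ}
    {lv be b : ℕ → ℕ → ℝ} {K₁ : ℝ}, TmC S C₀ → Set.InjOn c (Set.Iio (r + 2)) → R r →
    0 < K₁ → 0 < η₀ → 1 ≤ C → a ≤ 1 →
    WgS S c r D Dr N N₂ R C a Eb ε₀ η₀ Pt o lv be b K₁ →
    ∀ {d : ℕ} {ζ μ hi lvl ν : ℝ}, d ≤ N → o 0 ≤ o d → o d < 1 → 0 ≤ ζ →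
    lv d (r + 1) + (a - o d) ≤ Pt a (o 0) + ζ → ζ + 4 * (C * η₀) ≤ lv d (r + 1) →
    AlvS S c r (o d) hi lvl ν → 0 < ν → 0 ≤ lv 0 r → 0 ≤ lv 0 (r + 1) → 0 ≤ hi → 0 ≤ lvl →
    (∀ l ≤ r + 1, Eb + lv d l + C₁ * (C * η₀) ≤ hi) → lv d r - o d + C * η₀ ≤ lvl →
    ((lv 0 (r + 1) - lv 0 r) - (lv d (r + 1) - lv d r)) + (o d - o 0) + ζ +
      C₁ * (C * η₀) + 2 * D * D * (lvl - (lv d r - o d)) + μ ≤ 0 →
    VlS S c r D Dr N N₂ R C a Eb ε₀ η₀ Pt o lv be b K₁ 4 μ := by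
  classical
  obtain ⟨C₁, hC₁, hev⟩ := vli_ev m D r
  refine ⟨C₁, hC₁, ?_⟩
  intro S C₀ c Dr N N₂ R C a Eb ε₀ η₀ Pt o lv be b K₁ htm hc hR hK₁ hη hC ha1 hW d ζ μ hi lvl ν
    hd h0d hd1 hζ hrow hpos halv hν hl0 hl1 hhi0 hlvl0 hhi hlvl hμ κ hκ
  have hc1 : Set.InjOn c (Set.Iio (r + 1)) := hc.mono fun y hy => by
    rw [Set.mem_Iio] at hy ⊢
    omega
  have hCη : 0 < C * η₀ := mul_pos (by linarith) hη
  have hηC : η₀ ≤ C * η₀ := le_mul_of_one_le_left hη.le hC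
  have hl2 : 0 < Real.log 2 := Real.log_pos one_lt_two
  obtain ⟨ψ, hψ, J₁, hJ₁⟩ := tm_num hC₁ hη hd1
  obtain ⟨J₂, hJ₂⟩ := exists_nat_ge (((C₁ : ℝ) + 10) / (C * η₀))
  obtain ⟨J₃, hJ₃⟩ := exists_nat_ge ((Real.log (2 * D + 1) + 1) / ν)
  refine Bas.mono (max J₁ (max J₂ J₃)) (Bas.and (hW κ hκ) (Bas.and
    (Pool.GRW.bas_part (Pool.GRW.tms_bas htm hψ) (show (0 : ℝ) < 4 * K₁ by linarith))
    (Pool.GRW.bas_part halv (show (0 : ℝ) < 2 * K₁ by linarith)))) ?_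
  rintro J hJ F A ⟨⟨B, z, gc, gT, g₀, G, H, T, TH, Gt, Ht, b1, b2, W⟩, htB, hal⟩
  have hJ0 : (0 : ℝ) ≤ J := Nat.cast_nonneg J
  obtain ⟨t1, t2⟩ := hJ₁ J ((le_max_left _ _).trans hJ)
  have j2 : (C₁ : ℝ) + 10 ≤ C * (η₀ * J) := by
    have e1 : (J₂ : ℝ) ≤ J := by
      exact_mod_cast (le_max_left _ _).trans ((le_max_right _ _).trans hJ)
    have e2 := hJ₂.trans e1
    rw [div_le_iff₀ hCη] at e2
    linarith
  have j3 : Real.log (2 * D + 1) < ν * J := by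
    have e1 : (J₃ : ℝ) ≤ J := by
      exact_mod_cast (le_max_right _ _).trans ((le_max_right _ _).trans hJ)
    have e2 := hJ₃.trans e1
    rw [div_le_iff₀ hν] at e2
    linarith
  have hc10 : (0 : ℝ) ≤ C₁ := Nat.cast_nonneg _
  have hokJ : ∀ k ≤ N, ⌊o k * J⌋₊ ≤ J := fun k hk => by
    obtain ⟨q1, q2⟩ := W.win.ho k hk
    refine Nat.floor_le_of_le ?_
    have := mul_le_mul_of_nonneg_right (q2.trans ha1) hJ0
    linarith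
  obtain ⟨hod0, -⟩ := W.win.ho d hd
  have f0 : (⌊o d * J⌋₊ : ℝ) ≤ o d * J := Nat.floor_le (mul_nonneg hod0 hJ0)
  have hpos' : ∀ E : F.Ω → Prop, Sub E A → Pe F.p A ≤ 4 * K₁ * Pe F.p E → 0 < Pe F.p E :=
    fun E h1 h2 => (htB E h1 h2).1
  have hB : 0 < Pe F.p B := hpos' B b1 (b2.trans (mul_le_mul_of_nonneg_right (by linarith)
    (Pe_nonneg F.isLaw B)))
  have hηJ : η₀ * J ≤ C * (η₀ * J) := le_mul_of_one_le_left (mul_nonneg hη.le hJ0) hC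
  obtain ⟨A₂, k1, k2, k3⟩ := hev W hc hη.le (i := 0) (d := d) (ζ := ζ) (μ := μ) (hi := hi)
    (lvl := lvl) (θ := ψ * J) (Nat.zero_le N) hd h0d (hokJ d hd)
    (wg_near W hc1 hR (Nat.zero_le N) hd h0d (hokJ d hd) hζ hη.le (by linarith) hrow hpos) hB
    (mul_nonneg hψ.le hJ0) (t2.trans (by
      have e2 : (⌊o d * J⌋₊ : ℝ) * Real.log 2 ≤ o d * J * Real.log 2 :=
        mul_le_mul_of_nonneg_right f0 hl2.le
      linarith)) (t1.trans (mul_le_mul_of_nonneg_right hηJ hl2.le)) (by linarith) hl0 hl1 hζ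
    hhi0 hlvl0 hhi hlvl hμ (fun E hE hPE => by
      have h1 := hal E (fun ω hω => b1 ω (hE ω hω)) (by
        have := mul_le_mul_of_nonneg_left hPE hK₁.le
        linarith) (Fin (r + 2) → MvPolynomial (Option (Fin m)) ℝ) (fun y l => G d y l)
        (fun s l => H d s l) (fun ω hω => funext fun l =>
          (W.win.evs d hd).cls ω (hE ω hω) l l.2)
      exact lt_of_lt_of_le j3 h1) (fun E hE hEB hPE => by
      obtain ⟨q1, q2⟩ := htB E (fun ω hω => b1 ω (hEB ω hω)) (by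
        have := mul_le_mul_of_nonneg_left hPE hK₁.le
        linarith)
      exact q2)
  exact ⟨B, A₂, z, gc, gT, g₀, G, H, T, TH, Gt, Ht, b1, b2, W, k1, by linarith, k3⟩

/-- **`VlS` by scaling**, from the aliveness at an earlier window. -/
theorem vls_scl (m D r : ℕ) : ∃ C₁ : ℕ, 1 ≤ C₁ ∧ ∀ {S : PCl m} {C₀ : ℝ} {c : ℕ → Fin m}
    {Dr N N₂ : ℕ} {R : ℕ → Prop} {C a Eb ε₀ η₀ : ℝ} {Pt : ℝ → ℝ → ℝ} {o : ℕ → ℝ}
    {lv be b : ℕ → ℕ → ℝ} {K₁ : ℝ}, TmC S C₀ → Set.InjOn c (Set.Iio (r + 2)) → R r →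
    0 < K₁ → 0 < η₀ → 1 ≤ C → a ≤ 1 →
    WgS S c r D Dr N N₂ R C a Eb ε₀ η₀ Pt o lv be b K₁ →
    ∀ {e d : ℕ} {ζ μ μe hi lvl ν : ℝ}, e ≤ N → d ≤ N → o e ≤ o 0 → o 0 ≤ o d → o d < 1 → 0 ≤ ζ →
    (∀ k ∈ ({e, d} : Finset ℕ), lv k (r + 1) + (a - o k) ≤ Pt a (o e) + ζ ∧
      ζ + 4 * (C * η₀) ≤ lv k (r + 1)) →
    lv d (r + 1) + (a - o d) ≤ Pt a (o 0) + ζ →
    AlvS S c r (o e) hi lvl ν → 0 < ν → 0 ≤ lv 0 r → 0 ≤ lv 0 (r + 1) → 0 ≤ hi → 0 ≤ lvl →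
    (∀ l ≤ r + 1, Eb + lv e l + C₁ * (C * η₀) ≤ hi) → lv e r - o e + C * η₀ ≤ lvl →
    ((lv 0 (r + 1) - lv 0 r) - (lv e (r + 1) - lv e r)) + ζ +
      C₁ * (C * η₀) + 2 * D * D * (lvl - (lv e r - o e)) + μe ≤ 0 →
    μ + C₁ * (C * η₀) ≤ μe + (o 0 - o e) →
    μ + ζ + C₁ * (C * η₀) ≤ (lv d (r + 1) - lv d r) - (lv 0 (r + 1) - lv 0 r) →
    VlS S c r D Dr N N₂ R C a Eb ε₀ η₀ Pt o lv be b K₁ 8 μ := by
  classical
  obtain ⟨C₁, hC₁, hev⟩ := vli_ev m D r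
  obtain ⟨C₂, hC₂, hev2⟩ := vel_ev2 m D
  refine ⟨C₁ + C₂ + 10, by omega, ?_⟩
  intro S C₀ c Dr N N₂ R C a Eb ε₀ η₀ Pt o lv be b K₁ htm hc hR hK₁ hη hC ha1 hW e d ζ μ μe hi lvl
    ν he hd he0 h0d hd1 hζ hrow hrow0 halv hν hl0 hl1 hhi0 hlvl0 hhi hlvl hμe hμ1 hμ2 κ hκ
  have hc1 : Set.InjOn c (Set.Iio (r + 1)) := hc.mono fun y hy => by
    rw [Set.mem_Iio] at hy ⊢
    omega
  have hCη : 0 < C * η₀ := mul_pos (by linarith) hη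
  have hl2 : 0 < Real.log 2 := Real.log_pos one_lt_two
  have h2 : (0 : ℝ) < 2 := by norm_num
  have c1 : (1 : ℝ) ≤ C₁ := by exact_mod_cast hC₁
  have c2 : (1 : ℝ) ≤ C₂ := by exact_mod_cast hC₂
  have hed : o e ≤ o d := he0.trans h0d
  obtain ⟨ψ, hψ, J₁, hJ₁⟩ := tm_num (C₁ := C₁ + C₂ + 10) (by omega) hη hd1
  obtain ⟨J₂, hJ₂⟩ := exists_nat_ge (((C₁ : ℝ) + 20) / (C * η₀))
  obtain ⟨J₃, hJ₃⟩ := exists_nat_ge ((Real.log (2 * D + 1) + 1) / ν)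
  push_cast at hhi hμe hμ1 hμ2
  refine Bas.mono (max J₁ (max J₂ J₃)) (Bas.and (hW κ hκ) (Bas.and
    (Pool.GRW.bas_part (Pool.GRW.tms_bas htm hψ) (show (0 : ℝ) < 4 * K₁ by linarith))
    (Pool.GRW.bas_part halv (show (0 : ℝ) < 2 * K₁ by linarith)))) ?_
  rintro J hJ F A ⟨⟨B, z, gc, gT, g₀, G, H, T, TH, Gt, Ht, b1, b2, W⟩, htB, hal⟩
  have hJ0 : (0 : ℝ) ≤ J := Nat.cast_nonneg J
  obtain ⟨t1, t2⟩ := hJ₁ J ((le_max_left _ _).trans hJ)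
  push_cast at t1 t2
  have j2 : (C₁ : ℝ) + 20 ≤ C * (η₀ * J) := by
    have e1 : (J₂ : ℝ) ≤ J := by
      exact_mod_cast (le_max_left _ _).trans ((le_max_right _ _).trans hJ)
    have e2 := hJ₂.trans e1
    rw [div_le_iff₀ hCη] at e2
    linarith
  have j3 : Real.log (2 * D + 1) < ν * J := by
    have e1 : (J₃ : ℝ) ≤ J := by
      exact_mod_cast (le_max_right _ _).trans ((le_max_right _ _).trans hJ)
    have e2 := hJ₃.trans e1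
    rw [div_le_iff₀ hν] at e2
    linarith
  have hokJ : ∀ k ≤ N, ⌊o k * J⌋₊ ≤ J := fun k hk => by
    obtain ⟨q1, q2⟩ := W.win.ho k hk
    refine Nat.floor_le_of_le ?_
    have := mul_le_mul_of_nonneg_right (q2.trans ha1) hJ0
    linarith
  obtain ⟨hoe0, -⟩ := W.win.ho e he
  obtain ⟨ho00, -⟩ := W.win.ho 0 (Nat.zero_le N)
  have f0 : (⌊o e * J⌋₊ : ℝ) ≤ o e * J := Nat.floor_le (mul_nonneg hoe0 hJ0)
  have f1 : (⌊o 0 * J⌋₊ : ℝ) ≤ o 0 * J := Nat.floor_le (mul_nonneg ho00 hJ0)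
  have f2 : o 0 * J < ⌊o 0 * J⌋₊ + 1 := Nat.lt_floor_add_one _
  have hB : 0 < Pe F.p B := (htB B b1 (b2.trans (mul_le_mul_of_nonneg_right (by linarith)
    (Pe_nonneg F.isLaw B)))).1
  have hηJ0 : 0 ≤ η₀ * J := mul_nonneg hη.le hJ0
  have hηJ : η₀ * J ≤ C * (η₀ * J) := le_mul_of_one_le_left hηJ0 hC
  have hψJ : 0 ≤ ψ * J := mul_nonneg hψ.le hJ0
  obtain ⟨X, hX⟩ : ∃ X : ℝ, X = C * (η₀ * J) := ⟨_, rfl⟩
  obtain ⟨Zt, hZt⟩ : ∃ Z : ℝ, Z = ζ * J := ⟨_, rfl⟩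
  have hX0 : 0 ≤ X := by rw [hX]; exact hηJ0.trans hηJ
  have hZ0 : 0 ≤ Zt := by rw [hZt]; exact mul_nonneg hζ hJ0
  have htt : ∀ {n : ℝ}, n ≤ C₁ + C₂ + 10 → n * (ψ * J + 1) ≤ (C₁ + C₂ + 10) * (ψ * J + 1) :=
    fun h => mul_le_mul_of_nonneg_right h (by linarith)
  have hod0 : o e * J * Real.log 2 ≤ o d * J * Real.log 2 := mul_le_mul_of_nonneg_right
    (mul_le_mul_of_nonneg_right hed hJ0) hl2.le
  have ho0d : o 0 * J * Real.log 2 ≤ o d * J * Real.log 2 := mul_le_mul_of_nonneg_right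
    (mul_le_mul_of_nonneg_right h0d hJ0) hl2.le
  have hxX : 1 ≤ C * (η₀ * J) := by linarith
  -- the earlier window
  obtain ⟨A₂, k1, k2, k3⟩ := hev W hc hη.le (i := e) (d := e) (ζ := ζ) (μ := μe) (hi := hi)
    (lvl := lvl) (θ := ψ * J) he he le_rfl (hokJ e he)
    (wg_near W hc1 hR he he le_rfl (hokJ e he) hζ hη.le hxX (hrow e (by simp)).1
      (hrow e (by simp)).2) hB hψJ ((htt (by linarith)).trans (t2.trans (by
      have e2 : (⌊o e * J⌋₊ : ℝ) * Real.log 2 ≤ o e * J * Real.log 2 :=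
        mul_le_mul_of_nonneg_right f0 hl2.le
      linarith))) ((htt (by linarith)).trans (t1.trans
        (mul_le_mul_of_nonneg_right hηJ hl2.le))) (by linarith) hl0 hl1 hζ
    hhi0 hlvl0 (fun l hl => by
      have := hhi l hl
      nlinarith) hlvl (by nlinarith) (fun E hE hPE => by
      have h1 := hal E (fun ω hω => b1 ω (hE ω hω)) (by
        have := mul_le_mul_of_nonneg_left hPE hK₁.le
        linarith) (Fin (r + 2) → MvPolynomial (Option (Fin m)) ℝ) (fun y l => G e y l)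
        (fun s l => H e s l) (fun ω hω => funext fun l =>
          (W.win.evs e he).cls ω (hE ω hω) l l.2)
      exact lt_of_lt_of_le j3 h1) (fun E hE hEB hPE => by
      obtain ⟨q1, q2⟩ := htB E (fun ω hω => b1 ω (hEB ω hω)) (by
        have := mul_le_mul_of_nonneg_left hPE hK₁.le
        linarith)
      exact q2)
  -- the window `0`
  have hPA₂ : Pe F.p A ≤ 4 * K₁ * Pe F.p A₂ := by
    have := mul_le_mul_of_nonneg_left k2 hK₁.le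
    linarith
  obtain ⟨hA₂, hTm₂⟩ := htB A₂ (fun ω hω => b1 ω (k1 ω hω)) hPA₂
  obtain ⟨su, hsu⟩ : ∃ su, su = ⌊lv 0 r * J⌋₊ := ⟨_, rfl⟩
  obtain ⟨sn, hsn⟩ : ∃ sn, sn = ⌊lv 0 (r + 1) * J⌋₊ := ⟨_, rfl⟩
  have su2 : lv 0 r * J < su + 1 := by rw [hsu]; exact Nat.lt_floor_add_one _
  have sn1 : (sn : ℝ) ≤ lv 0 (r + 1) * J := by
    rw [hsn]; exact Nat.floor_le (mul_nonneg hl1 hJ0)
  obtain ⟨S', hS'⟩ : ∃ S' : ℝ, S' = (2 : ℝ) ^ ((lv d r - lv d (r + 1) + ζ + 6 * (C * η₀)) * J +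
    (lv 0 (r + 1) * J - lv 0 r * J) + 1) := ⟨_, rfl⟩
  have hS0 : 0 < S' := by rw [hS']; positivity
  have hnr : ∀ {α : ℝ}, |α| ≤ (2 : ℝ) ^ ((lv d r - lv d (r + 1) + ζ + 6 * (C * η₀)) * J) →
      |α| ≤ 2 ^ su / 2 ^ sn * S' := fun h => h.trans (by
    rw [hS', ← Real.rpow_natCast 2 su, ← Real.rpow_natCast 2 sn, ← Real.rpow_sub h2,
      ← Real.rpow_add h2]
    exact Real.rpow_le_rpow_of_exponent_le (by norm_num) (by linarith))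
  have he0' : ⌊o e * J⌋₊ ≤ ⌊o 0 * J⌋₊ :=
    Nat.floor_le_floor (mul_le_mul_of_nonneg_right he0 hJ0)
  have h0d' : ⌊o 0 * J⌋₊ ≤ ⌊o d * J⌋₊ :=
    Nat.floor_le_floor (mul_le_mul_of_nonneg_right h0d hJ0)
  obtain ⟨B₁, l1, l2, l3⟩ := hev2 hA₂ (c := c) (r := r) (su := su) (sn := sn)
    (oe := ⌊o e * J⌋₊) (o₀ := ⌊o 0 * J⌋₊) (od := ⌊o d * J⌋₊) (S := S') (Hd := H d) (He := Ht e)
    (Ht := Ht 0) he0' h0d' (hokJ d hd) (W.win.evs e he).dH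
    (W.win.evs 0 (Nat.zero_le N)).dH (fun ω hω => hnr (wg_near W hc1 hR he hd hed (hokJ d hd) hζ
      hη.le hxX (hrow d (by simp)).1 (hrow d (by simp)).2 ω (k1 ω hω)))
    (fun ω hω => hnr (wg_near W hc1 hR (Nat.zero_le N) hd h0d (hokJ d hd) hζ
      hη.le hxX hrow0 (hrow d (by simp)).2 ω (k1 ω hω))) ((2 : ℝ) ^ (-(μe * J))) (ψ * J) hS0 hψJ
    hTm₂ ((htt (by linarith)).trans (t2.trans (by
      have e2 : (⌊o 0 * J⌋₊ : ℝ) * Real.log 2 ≤ o 0 * J * Real.log 2 :=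
        mul_le_mul_of_nonneg_right f1 hl2.le
      linarith))) (fun ω hω => by
      rw [hsu, hsn]
      exact k3 ω hω)
  refine ⟨B, B₁, z, gc, gT, g₀, G, H, T, TH, Gt, Ht, b1, b2, W, fun ω hω => k1 ω (l1 ω hω),
    by linarith, fun ω hω => ?_⟩
  rw [← hsu, ← hsn]
  refine (l3 ω hω).trans ?_
  have ts : Real.exp (C₂ * (ψ * J + 1)) ≤ (2 : ℝ) ^ X := by
    rw [Real.rpow_def_of_pos h2]
    refine Real.exp_le_exp.2 (le_trans ?_ (le_of_eq (mul_comm _ _)))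
    rw [hX]
    exact (htt (by linarith)).trans (t1.trans (mul_le_mul_of_nonneg_right hηJ hl2.le))
  have m1 : μ * J + Zt + (C₁ + C₂ + 10) * X ≤ (lv d (r + 1) * J - lv d r * J) -
      (lv 0 (r + 1) * J - lv 0 r * J) := by
    have := mul_le_mul_of_nonneg_right hμ2 hJ0
    calc μ * J + Zt + (C₁ + C₂ + 10) * X = (μ + ζ + (C₁ + C₂ + 10) * (C * η₀)) * J := by
          rw [hX, hZt]; ring
      _ ≤ _ := this
      _ = _ := by ring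
  have m2 : μ * J + (C₁ + C₂ + 10) * X ≤ μe * J + (o 0 * J - o e * J) := by
    have := mul_le_mul_of_nonneg_right hμ1 hJ0
    calc μ * J + (C₁ + C₂ + 10) * X = (μ + (C₁ + C₂ + 10) * (C * η₀)) * J := by
          rw [hX]; ring
      _ ≤ _ := this
      _ = _ := by ring
  have hX10 : 20 ≤ X := by rw [hX]; linarith
  have hcX : 10 * X ≤ (C₁ + C₂ + 10) * X := mul_le_mul_of_nonneg_right (by linarith) hX0
  have t1' : Real.exp (C₂ * (ψ * J + 1)) * (2 * S') ≤ (2 : ℝ) ^ (-(μ * J) - 1) := by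
    calc Real.exp (C₂ * (ψ * J + 1)) * (2 * S') ≤ (2 : ℝ) ^ X * (2 * S') := by gcongr
      _ = (2 : ℝ) ^ (X + (1 + ((lv d r - lv d (r + 1) + ζ + 6 * (C * η₀)) * J +
          (lv 0 (r + 1) * J - lv 0 r * J) + 1))) := by
        rw [Real.rpow_add h2, Real.rpow_add h2 1, Real.rpow_one, hS']
      _ ≤ _ := by
        refine Real.rpow_le_rpow_of_exponent_le (by norm_num) ?_
        have q1 : (lv d r - lv d (r + 1) + ζ + 6 * (C * η₀)) * (J : ℝ) =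
            lv d r * J - lv d (r + 1) * J + Zt + 6 * X := by rw [hX, hZt]; ring
        rw [q1]
        linarith
  have t2' : (2 : ℝ) ^ (-(μe * J)) / 2 ^ (⌊o 0 * J⌋₊ - ⌊o e * J⌋₊) ≤
      (2 : ℝ) ^ (-(μ * J) - 1) := by
    rw [← Real.rpow_natCast, ← Real.rpow_sub h2]
    refine Real.rpow_le_rpow_of_exponent_le (by norm_num) ?_
    rw [Nat.cast_sub he0']
    linarith
  have t3' : (2 : ℝ) ^ (-(μ * J)) = (2 : ℝ) ^ (-(μ * J) - 1) + (2 : ℝ) ^ (-(μ * J) - 1) := by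
    rw [← two_mul, Real.rpow_sub_one h2.ne']
    field_simp
  rw [t3']
  exact add_le_add t1' t2'

end Pool.CR99
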