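import Pool.Agent.H23.D2.Gen
import Pool.Agent.H13.K2S.Cht

/-!
# A closed affine chart for a visible function

`cP`: the own path of a visible function `cy`, in the relative time of the window `w`; `pP`, `py`:
own paths and visible values of finitely many functions (the time and the heights of the base). If
on an event the velocity of `cP` is `∑ Γ j * (velocity of pP j)`, where `Γ` is a function of a
record `z` which is closed on the window and visible, then on a large part of the event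
`cP = κ + ∑ Γ j * pP j` on the whole window, and the number `κ` is closed and visible.
-/

set_option autoImplicit false

namespace Pool.CR99

open Finset Real
open Pool.Agent.H49.Ent Pool.Agent.H32.Dense Pool.STK Pool.KA Pool.KSAT Pool.K2S Pool.PB Pool.S6C
open Pool.GEN Pool.CHT Pool.CHX Pool.ISO Pool.D2R
open Pool.FLF (Fam.sub)
open Pool.PB.Trl (rt rt_mem t_rt)

/-- Two near reals have the same integer part after one of two shifts. -/
theorem floor_two {x y : ℝ} (h : |x - y| ≤ 1 / 4) : ⌊x⌋ = ⌊y⌋ ∨ ⌊x + 1 / 2⌋ = ⌊y + 1 / 2⌋ := by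
  have key : ∀ a b : ℝ, |a - b| ≤ 1 / 4 → ⌊a⌋ < ⌊b⌋ → ⌊a + 1 / 2⌋ = ⌊b + 1 / 2⌋ := by
    intro a b hab hlt
    have h1 : a < (⌊b⌋ : ℝ) := Int.floor_lt.1 hlt
    have h2 := Int.floor_le b
    have h3 := abs_le.1 hab
    have e1 : ⌊a + 1 / 2⌋ = ⌊b⌋ := by
      rw [Int.floor_eq_iff]
      constructor <;> linarith [h3.1, h3.2]
    have e2 : ⌊b + 1 / 2⌋ = ⌊b⌋ := by
      rw [Int.floor_eq_iff]
      constructor <;> linarith [h3.1, h3.2]
    rw [e1, e2]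
  rcases lt_trichotomy ⌊x⌋ ⌊y⌋ with h1 | h1 | h1
  · exact Or.inr (key x y h h1)
  · exact Or.inl h1
  · exact Or.inr (key y x (by rw [abs_sub_comm]; exact h) h1).symm

/-- The rounding. -/
noncomputable def sn (M : ℕ) (o x : ℝ) : ℝ := (⌊2 ^ M * x + o⌋ : ℝ) / 2 ^ M

theorem sn_near {M : ℕ} {o : ℝ} (h0 : 0 ≤ o) (h1 : o ≤ 1) (x : ℝ) : |x - sn M o x| ≤ 1 / 2 ^ M := by
  have hM : (0 : ℝ) < 2 ^ M := by positivity
  have a1 := Int.floor_le (2 ^ M * x + o)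
  have a2 := Int.lt_floor_add_one (2 ^ M * x + o)
  have e : x - sn M o x = (2 ^ M * x - (⌊2 ^ M * x + o⌋ : ℝ)) / 2 ^ M := by
    unfold sn
    field_simp
  rw [e, abs_div, abs_of_pos hM]
  refine div_le_div_of_nonneg_right ?_ hM.le
  rw [abs_le]
  constructor <;> linarith

/-- **Common rounding** of a closed and of a visible number. -/
theorem round_ev {Ω : Type} [Fintype Ω] {p : Ω → ℝ} (hp : IsLaw p) {A : Ω → Prop} (x y : Ω → ℝ)
    (M : ℕ) (h : ∀ ω, A ω → |x ω - y ω| ≤ 1 / (4 * 2 ^ M)) :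
    ∃ o : ℝ, 0 ≤ o ∧ o ≤ 1 ∧ ∃ B : Ω → Prop, Sub B A ∧ Pe p A / 2 ≤ Pe p B ∧
      ∀ ω, B ω → sn M o (x ω) = sn M o (y ω) := by
  have hM : (0 : ℝ) < 2 ^ M := by positivity
  have key : ∀ ω, A ω → (A ω ∧ ⌊2 ^ M * x ω⌋ = ⌊2 ^ M * y ω⌋) ∨
      (A ω ∧ ⌊2 ^ M * x ω + 1 / 2⌋ = ⌊2 ^ M * y ω + 1 / 2⌋) := by
    intro ω hω
    have h1 : |2 ^ M * x ω - 2 ^ M * y ω| ≤ 1 / 4 := by
      rw [← mul_sub, abs_mul, abs_of_pos hM]
      calc 2 ^ M * |x ω - y ω| ≤ 2 ^ M * (1 / (4 * 2 ^ M)) :=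
            mul_le_mul_of_nonneg_left (h ω hω) hM.le
        _ = 1 / 4 := by field_simp
    rcases floor_two h1 with h2 | h2
    · exact Or.inl ⟨hω, h2⟩
    · exact Or.inr ⟨hω, h2⟩
  have h1 := Pe_or hp key
  rcases le_total (Pe p fun ω => A ω ∧ ⌊2 ^ M * x ω⌋ = ⌊2 ^ M * y ω⌋)
      (Pe p fun ω => A ω ∧ ⌊2 ^ M * x ω + 1 / 2⌋ = ⌊2 ^ M * y ω + 1 / 2⌋) with h2 | h2
  · refine ⟨1 / 2, by norm_num, by norm_num,
      (fun ω => A ω ∧ ⌊2 ^ M * x ω + 1 / 2⌋ = ⌊2 ^ M * y ω + 1 / 2⌋), fun ω hω => hω.1,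
      by linarith, fun ω hω => ?_⟩
    unfold sn
    rw [hω.2]
  · refine ⟨0, le_rfl, zero_le_one, (fun ω => A ω ∧ ⌊2 ^ M * x ω⌋ = ⌊2 ^ M * y ω⌋),
      fun ω hω => hω.1, by linarith, fun ω hω => ?_⟩
    unfold sn
    rw [add_zero, add_zero, hω.2]

/-- The mean value inequality. -/
theorem pol_mvt (q : Polynomial ℝ) {S : ℝ}
    (h : ∀ τ ∈ Set.Icc (0 : ℝ) 1, |(Polynomial.derivative q).eval τ| ≤ S) :
    ∀ τ ∈ Set.Icc (0 : ℝ) 1, ∀ τ' ∈ Set.Icc (0 : ℝ) 1, |q.eval τ - q.eval τ'| ≤ S := by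
  intro τ hτ τ' hτ'
  have hS : 0 ≤ S := (abs_nonneg _).trans (h τ hτ)
  have h1 := Convex.norm_image_sub_le_of_norm_hasDerivWithin_le (f := fun x => q.eval x)
    (f' := fun x => (Polynomial.derivative q).eval x) (C := S) (s := Set.Icc (0 : ℝ) 1)
    (fun x _ => (q.hasDerivAt x).hasDerivWithinAt) (fun x hx => by
      rw [Real.norm_eq_abs]; exact h x hx) (convex_Icc 0 1) hτ' hτ
  rw [Real.norm_eq_abs, Real.norm_eq_abs] at h1
  refine h1.trans ?_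
  have h2 : |τ - τ'| ≤ 1 := by
    rw [abs_le]
    constructor <;> linarith [hτ.1, hτ.2, hτ'.1, hτ'.2]
  calc S * |τ - τ'| ≤ S * 1 := mul_le_mul_of_nonneg_left h2 hS
    _ = S := mul_one S

/-- **The closed affine chart of a visible function**, numbers. -/
theorem chart_val (m n K : ℕ) : ∃ C : ℝ, 1 ≤ C ∧ ∀ (J : ℕ) (F : Fam m J) (A : F.Ω → Prop)
    (hA : 0 < Pe F.p A) (w : ℕ) {ζ : Type} (ZL : LnT F → ζ) (ZG : PtT F → ζ) (Γ : ζ → Fin n → ℝ)
    (cP : LnT F → Polynomial ℝ) (pP : LnT F → Fin n → Polynomial ℝ) (cy : PtT F → ℝ)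
    (py : PtT F → Fin n → ℝ) (S₀ S₁ S₂ G θ : ℝ) (M : ℕ), w ≤ J → (∀ s, (cP s).natDegree ≤ K) →
    (∀ s j, (pP s j).natDegree ≤ K) → 0 < S₀ → 0 ≤ θ → (Fam.sub F A hA).Tm θ →
    C * (θ + 1) ≤ ((J : ℝ) - w) * Real.log 2 →
    (∀ ω, A ω → ZL (slam F w ω) = ZG (ptr F J ω)) → (∀ z j, |Γ z j| ≤ G) →
    (∀ ω, A ω → |(cP (slam F w ω)).eval (rt F w ω) - cy (ptr F J ω)| ≤ S₁) →
    (∀ ω, A ω → ∀ j, |(pP (slam F w ω) j).eval (rt F w ω) - py (ptr F J ω) j| ≤ S₂) →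
    (∀ ω, A ω → |(Polynomial.derivative (cP (slam F w ω))).eval (rt F w ω) -
      ∑ j, Γ (ZL (slam F w ω)) j *
        (Polynomial.derivative (pP (slam F w ω) j)).eval (rt F w ω)| ≤ S₀) →
    Real.exp (C * (θ + 1)) * S₀ + S₁ + n * G * S₂ ≤ 1 / (4 * 2 ^ M) →
    ∃ (B : F.Ω → Prop) (κL : LnT F → ℝ) (κG : PtT F → ℝ), Sub B A ∧ Pe F.p A / 4 ≤ Pe F.p B ∧
      (∀ ω, B ω → κL (slam F w ω) = κG (ptr F J ω)) ∧
      (∀ ω, B ω → ∀ τ ∈ Set.Icc (0 : ℝ) 1,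
        |(cP (slam F w ω)).eval τ - κL (slam F w ω) -
          ∑ j, Γ (ZL (slam F w ω)) j * (pP (slam F w ω) j).eval τ| ≤ 2 / 2 ^ M ∧
        |(Polynomial.derivative (cP (slam F w ω))).eval τ - ∑ j, Γ (ZL (slam F w ω)) j *
          (Polynomial.derivative (pP (slam F w ω) j)).eval τ| ≤
            Real.exp (C * (θ + 1)) * S₀) ∧
      (∀ ω, B ω → |cy (ptr F J ω) - κG (ptr F J ω) -
        ∑ j, Γ (ZG (ptr F J ω)) j * py (ptr F J ω) j| ≤ 2 / 2 ^ M) := by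
  classical
  obtain ⟨C, hC, hrem⟩ := rem_fam m K 1
  refine ⟨C, hC, ?_⟩
  intro J F A hA w ζ ZL ZG Γ cP pP cy py S₀ S₁ S₂ G θ M hw hcP hpP hS₀ hθ hTm hJ hZ hΓ hc hp hder
    hsum
  obtain ⟨q, hq⟩ : ∃ q : LnT F → Polynomial ℝ, q = fun s =>
      cP s - ∑ j, Polynomial.C (Γ (ZL s) j) * pP s j := ⟨_, rfl⟩
  have hqe : ∀ s τ, (q s).eval τ = (cP s).eval τ - ∑ j, Γ (ZL s) j * (pP s j).eval τ := by
    intro s τ
    rw [hq]
    simp only [Polynomial.eval_sub, Polynomial.eval_finsetSum, Polynomial.eval_mul,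
      Polynomial.eval_C]
  have hqd : ∀ s τ, (Polynomial.derivative (q s)).eval τ =
      (Polynomial.derivative (cP s)).eval τ -
        ∑ j, Γ (ZL s) j * (Polynomial.derivative (pP s j)).eval τ := by
    intro s τ
    rw [hq]
    simp only [Polynomial.derivative_sub, Polynomial.derivative_sum, Polynomial.derivative_C_mul,
      Polynomial.eval_sub, Polynomial.eval_finsetSum, Polynomial.eval_mul, Polynomial.eval_C]
  have hdeg : ∀ s, (Polynomial.derivative (q s)).natDegree ≤ K := by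
    intro s
    refine (Polynomial.natDegree_derivative_le _).trans ((Nat.sub_le _ _).trans ?_)
    rw [hq]
    refine (Polynomial.natDegree_sub_le _ _).trans (max_le (hcP s) ?_)
    refine Polynomial.natDegree_sum_le_of_forall_le _ _ fun j _ => ?_
    exact (Polynomial.natDegree_C_mul_le _ _).trans (hpP s j)
  obtain ⟨A₁, hA₁, hm₁, hb₁⟩ := hrem J F A hA w (fun _ s => Polynomial.derivative (q s))
    (fun _ => S₀) θ hw (fun _ _ s => hdeg s) (fun _ _ => hS₀) hθ hTm hJ (fun ω hω _ _ => by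
      rw [hqd]
      exact hder ω hω)
  have hE : 0 ≤ Real.exp (C * (θ + 1)) * S₀ := mul_nonneg (Real.exp_pos _).le hS₀.le
  have hmv : ∀ ω, A₁ ω → ∀ τ ∈ Set.Icc (0 : ℝ) 1, ∀ τ' ∈ Set.Icc (0 : ℝ) 1,
      |(q (slam F w ω)).eval τ - (q (slam F w ω)).eval τ'| ≤ Real.exp (C * (θ + 1)) * S₀ :=
    fun ω hω => pol_mvt _ fun τ hτ => hb₁ ω hω 0 one_pos τ hτ
  have hdif : ∀ ω, A₁ ω → |(q (slam F w ω)).eval 0 - (cy (ptr F J ω) -
      ∑ j, Γ (ZG (ptr F J ω)) j * py (ptr F J ω) j)| ≤ 1 / (4 * 2 ^ M) := by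
    intro ω hω
    have hωA := hA₁ ω hω
    refine le_trans ?_ hsum
    have h1 := hmv ω hω 0 ⟨le_rfl, zero_le_one⟩ (rt F w ω) (rt_mem F w ω)
    have h2 := hc ω hωA
    have h3 : |∑ j, Γ (ZG (ptr F J ω)) j * (pP (slam F w ω) j).eval (rt F w ω) -
        ∑ j, Γ (ZG (ptr F J ω)) j * py (ptr F J ω) j| ≤ n * G * S₂ := by
      rw [← Finset.sum_sub_distrib]
      refine (Finset.abs_sum_le_sum_abs _ _).trans ?_
      have h4 : ∀ j ∈ (Finset.univ : Finset (Fin n)),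
          |Γ (ZG (ptr F J ω)) j * (pP (slam F w ω) j).eval (rt F w ω) -
            Γ (ZG (ptr F J ω)) j * py (ptr F J ω) j| ≤ G * S₂ := by
        intro j _
        rw [← mul_sub, abs_mul]
        exact mul_le_mul (hΓ _ j) (hp ω hωA j) (abs_nonneg _)
          ((abs_nonneg _).trans (hΓ (ZG (ptr F J ω)) j))
      refine (Finset.sum_le_sum h4).trans (le_of_eq ?_)
      rw [Finset.sum_const, Finset.card_univ, Fintype.card_fin, nsmul_eq_mul, mul_assoc]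
    have e1 : (q (slam F w ω)).eval (rt F w ω) = (cP (slam F w ω)).eval (rt F w ω) -
        ∑ j, Γ (ZG (ptr F J ω)) j * (pP (slam F w ω) j).eval (rt F w ω) := by
      rw [hqe, hZ ω hωA]
    have e2 : (q (slam F w ω)).eval 0 - (cy (ptr F J ω) -
        ∑ j, Γ (ZG (ptr F J ω)) j * py (ptr F J ω) j) =
        ((q (slam F w ω)).eval 0 - (q (slam F w ω)).eval (rt F w ω)) +
        ((cP (slam F w ω)).eval (rt F w ω) - cy (ptr F J ω)) -
        (∑ j, Γ (ZG (ptr F J ω)) j * (pP (slam F w ω) j).eval (rt F w ω) -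
          ∑ j, Γ (ZG (ptr F J ω)) j * py (ptr F J ω) j) := by
      rw [e1]
      ring
    rw [e2]
    refine (abs_sub _ _).trans (add_le_add ((abs_add_le _ _).trans (add_le_add h1 h2)) h3)
  obtain ⟨o, ho0, ho1, B, hB, hmB, hBe⟩ := round_ev F.isLaw (A := A₁)
    (fun ω => (q (slam F w ω)).eval 0)
    (fun ω => cy (ptr F J ω) - ∑ j, Γ (ZG (ptr F J ω)) j * py (ptr F J ω) j) M hdif
  have hM : (0 : ℝ) < 2 ^ M := by positivity
  refine ⟨B, fun s => sn M o ((q s).eval 0),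
    fun y => sn M o (cy y - ∑ j, Γ (ZG y) j * py y j), fun ω hω => hA₁ ω (hB ω hω), by linarith,
    hBe, fun ω hω τ hτ => ⟨?_, ?_⟩, fun ω hω => ?_⟩
  · have hω₁ := hB ω hω
    have h1 := hmv ω hω₁ τ hτ 0 ⟨le_rfl, zero_le_one⟩
    have h2 := sn_near (M := M) ho0 ho1 ((q (slam F w ω)).eval 0)
    have e1 : (cP (slam F w ω)).eval τ - sn M o ((q (slam F w ω)).eval 0) -
        ∑ j, Γ (ZL (slam F w ω)) j * (pP (slam F w ω) j).eval τ =
        ((q (slam F w ω)).eval τ - (q (slam F w ω)).eval 0) +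
          ((q (slam F w ω)).eval 0 - sn M o ((q (slam F w ω)).eval 0)) := by
      rw [hqe (slam F w ω) τ]
      ring
    rw [e1]
    have hS₁ : 0 ≤ S₁ := (abs_nonneg _).trans (hc ω (hA₁ ω hω₁))
    have h3 : 0 ≤ (n : ℝ) * G * S₂ := by
      rcases Nat.eq_zero_or_pos n with h0 | h0
      · rw [h0]
        simp
      · have hG0 : 0 ≤ G := (abs_nonneg _).trans (hΓ (ZL (slam F w ω)) ⟨0, h0⟩)
        have hS₂ : 0 ≤ S₂ := (abs_nonneg _).trans (hp ω (hA₁ ω hω₁) ⟨0, h0⟩)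
        positivity
    have h4 : (1 : ℝ) / (4 * 2 ^ M) ≤ 1 / 2 ^ M :=
      one_div_le_one_div_of_le hM (by linarith)
    refine (abs_add_le _ _).trans ?_
    have e2 : (2 : ℝ) / 2 ^ M = 1 / 2 ^ M + 1 / 2 ^ M := by ring
    rw [e2]
    refine add_le_add ?_ h2
    linarith
  · have h1 := hb₁ ω (hB ω hω) 0 one_pos τ hτ
    rw [hqd] at h1
    exact h1
  · have h2 := sn_near (M := M) ho0 ho1 (cy (ptr F J ω) -
      ∑ j, Γ (ZG (ptr F J ω)) j * py (ptr F J ω) j)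
    have e1 : cy (ptr F J ω) - sn M o (cy (ptr F J ω) -
        ∑ j, Γ (ZG (ptr F J ω)) j * py (ptr F J ω) j) -
        ∑ j, Γ (ZG (ptr F J ω)) j * py (ptr F J ω) j =
        (cy (ptr F J ω) - ∑ j, Γ (ZG (ptr F J ω)) j * py (ptr F J ω) j) -
          sn M o (cy (ptr F J ω) - ∑ j, Γ (ZG (ptr F J ω)) j * py (ptr F J ω) j) := by ring
    rw [e1]
    refine h2.trans ?_
    exact div_le_div_of_nonneg_right (by norm_num) hM.le

end Pool.CR99
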