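import Pool.Agent.H99.D2.Chc

/-!
# The closed affine chart of a visible function, as a polynomial

`affC`: the affine function of the relative time and of the heights over a chain of charts.
`chart_lin`: a visible function `cy` with own path `cP`, whose velocity is a closed and visible
linear function of the velocities of the time and of the heights, has a closed and visible chart
`affC` on a large part of the event.
-/

set_option autoImplicit false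

namespace Pool.CR99

open Finset Real MvPolynomial
open Pool.Agent.H49.Ent Pool.Agent.H32.Dense Pool.STK Pool.KA Pool.KSAT Pool.K2S Pool.PB Pool.S6C
open Pool.GEN Pool.CHT Pool.CHX Pool.ISO Pool.D2R
open Pool.FLF (Fam.sub)
open Pool.PB.Trl (rt rt_mem t_rt)

variable {m J : ℕ}

/-- The affine function of the relative time of the window `w` with the number `n`, and of the
heights over the chain `ψ`, in the units `2 ^ (-g)`. -/
noncomputable def affC {d : ℕ} (c : ℕ → Fin m) (w : ℕ) (g : ℕ → ℕ) (κ : ℝ) (Γ : Fin (d + 1) → ℝ)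
    (n : ℕ) (ψ : ℕ → MvPolynomial (Option (Fin m)) ℝ) : MvPolynomial (Option (Fin m)) ℝ :=
  C κ + C (Γ 0) * (C (2 ^ w) * X none - C (n : ℝ)) +
    ∑ j : Fin d, C (Γ j.succ * 2 ^ g j) * (X (some (c j)) - ψ j)

theorem eval_affC {d : ℕ} (c : ℕ → Fin m) (w : ℕ) (g : ℕ → ℕ) (κ : ℝ) (Γ : Fin (d + 1) → ℝ)
    (n : ℕ) (ψ : ℕ → MvPolynomial (Option (Fin m)) ℝ) (b : Option (Fin m) → ℝ) :
    eval b (affC c w g κ Γ n ψ) = κ + Γ 0 * (2 ^ w * b none - n) +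
      ∑ j : Fin d, Γ j.succ * 2 ^ g j * (b (some (c j)) - eval b (ψ j)) := by
  unfold affC
  simp only [map_add, map_mul, map_sub, map_sum, eval_C, eval_X]

theorem deg_affC {d D : ℕ} (c : ℕ → Fin m) (w : ℕ) (g : ℕ → ℕ) (κ : ℝ) (Γ : Fin (d + 1) → ℝ)
    (n : ℕ) {ψ : ℕ → MvPolynomial (Option (Fin m)) ℝ} (hD : 1 ≤ D)
    (hψ : ∀ l, (ψ l).totalDegree ≤ D) : (affC c w g κ Γ n ψ).totalDegree ≤ D := by
  unfold affC
  have h1 : ∀ (a : ℝ) (P : MvPolynomial (Option (Fin m)) ℝ), P.totalDegree ≤ D →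
      (C a * P).totalDegree ≤ D := by
    intro a P hP
    refine (totalDegree_mul _ _).trans ?_
    rw [totalDegree_C, zero_add]
    exact hP
  refine (totalDegree_add _ _).trans (max_le ((totalDegree_add _ _).trans (max_le ?_ ?_)) ?_)
  · rw [totalDegree_C]
    exact Nat.zero_le _
  · refine h1 _ _ ((totalDegree_sub _ _).trans (max_le (h1 _ _ ?_) ?_))
    · rw [totalDegree_X]
      exact hD
    · rw [totalDegree_C]
      exact Nat.zero_le _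
  · refine totalDegree_finsetSum_le fun j _ => h1 _ _ ?_
    refine (totalDegree_sub _ _).trans (max_le ?_ (hψ _))
    rw [totalDegree_X]
    exact hD

theorem dep_affC {d : ℕ} (c : ℕ → Fin m) (w : ℕ) (g : ℕ → ℕ) (κ : ℝ) (Γ : Fin (d + 1) → ℝ)
    (n : ℕ) {ψ : ℕ → MvPolynomial (Option (Fin m)) ℝ} (hψ : ∀ l, DepC c l (ψ l)) :
    DepC c d (affC c w g κ Γ n ψ) := by
  intro b b' h1 h2
  rw [eval_affC, eval_affC, h1]
  congr 1
  refine Finset.sum_congr rfl fun j _ => ?_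
  rw [h2 j j.2, hψ j b b' h1 fun l hl => h2 l (hl.trans j.2)]

/-- The affine chart along the own line. -/
theorem affC_own {d : ℕ} (F : Fam m J) (c : ℕ → Fin m) {w : ℕ} (g : ℕ → ℕ) (κ : ℝ)
    (Γ : Fin (d + 1) → ℝ) (H : LnT F → ℕ → MvPolynomial (Option (Fin m)) ℝ) (ω : F.Ω) (τ : ℝ) :
    eval (ptw F w ω τ) (affC c w g κ Γ (slam F w ω).2.2 (H (slam F w ω))) = κ + Γ 0 * τ +
      ∑ j : Fin d, Γ j.succ *
        (2 ^ g j * (dv w (fun s _ => H s j) (c j) (slam F w ω)).eval τ) := by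
  rw [eval_affC]
  have hw0 : (0 : ℝ) < 2 ^ w := by positivity
  have e1 : (2 : ℝ) ^ w * ptw F w ω τ none - ((slam F w ω).2.2 : ℝ) = τ := by
    unfold ptw
    simp only [lc, Polynomial.eval_add, Polynomial.eval_mul, Polynomial.eval_C, Polynomial.eval_X]
    field_simp
    ring
  rw [e1]
  congr 1
  refine Finset.sum_congr rfl fun j _ => ?_
  have e2 : (dv w (fun s _ => H s j) (c j) (slam F w ω)).eval τ =
      ptw F w ω τ (some (c j)) - eval (ptw F w ω τ) (H (slam F w ω) j) := by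
    unfold dv
    rw [Polynomial.eval_sub, Pool.KBX.eval_aeval_poly]
    rfl
  rw [e2]
  ring

/-- The paths: the relative time and the own heights. -/
noncomputable def pth {d : ℕ} {F : Fam m J} (c : ℕ → Fin m) (w : ℕ) (g : ℕ → ℕ)
    (H : LnT F → ℕ → MvPolynomial (Option (Fin m)) ℝ) (s : LnT F) : Fin (d + 1) → Polynomial ℝ :=
  Fin.cons Polynomial.X fun j : Fin d =>
    Polynomial.C (2 ^ g j) * dv w (fun s _ => H s j) (c j) s

theorem deg_pth {d D : ℕ} {F : Fam m J} (c : ℕ → Fin m) (w : ℕ) (g : ℕ → ℕ)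
    {H : LnT F → ℕ → MvPolynomial (Option (Fin m)) ℝ} (hH : ∀ s l, (H s l).totalDegree ≤ D)
    (s : LnT F) (j : Fin (d + 1)) : (pth c w g H s j).natDegree ≤ D + 1 := by
  refine Fin.cases ?_ (fun i => ?_) j
  · show (Polynomial.X : Polynomial ℝ).natDegree ≤ D + 1
    exact Polynomial.natDegree_X_le.trans (by omega)
  · show (Polynomial.C (2 ^ g i) * dv w (fun s _ => H s i) (c i) s : Polynomial ℝ).natDegree ≤ D + 1
    exact (Polynomial.natDegree_C_mul_le _ _).trans (natDegree_dv w (fun s _ => hH s i) (c i) s)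

/-- **The closed affine chart of a visible function.** -/
theorem chart_lin (m d D K : ℕ) (hD : 1 ≤ D) : ∃ C : ℝ, 1 ≤ C ∧ ∀ (J : ℕ) (F : Fam m J)
    (A : F.Ω → Prop) (hA : 0 < Pe F.p A) (w : ℕ) {ζ : Type} (c : ℕ → Fin m) (g : ℕ → ℕ)
    (G₁ : PtT F → ℕ → MvPolynomial (Option (Fin m)) ℝ)
    (H₁ : LnT F → ℕ → MvPolynomial (Option (Fin m)) ℝ)
    (ZL : LnT F → ζ) (ZG : PtT F → ζ) (Γ : ζ → Fin (d + 1) → ℝ)
    (cP : LnT F → Polynomial ℝ) (cy : PtT F → ℝ) (py : PtT F → Fin (d + 1) → ℝ)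
    (S₀ S₁ S₂ G θ : ℝ) (M : ℕ), w ≤ J → (∀ s, (cP s).natDegree ≤ K) →
    (∀ s l, (H₁ s l).totalDegree ≤ D) → (∀ s l, DepC c l (H₁ s l)) →
    (∀ y l, (G₁ y l).totalDegree ≤ D) → (∀ y l, DepC c l (G₁ y l)) →
    (∀ ω, A ω → ∀ l < d, G₁ (ptr F J ω) l = H₁ (slam F w ω) l) →
    0 < S₀ → 0 ≤ θ → (Fam.sub F A hA).Tm θ → C * (θ + 1) ≤ ((J : ℝ) - w) * Real.log 2 →
    (∀ ω, A ω → ZL (slam F w ω) = ZG (ptr F J ω)) → (∀ z j, |Γ z j| ≤ G) →
    (∀ ω, A ω → |(cP (slam F w ω)).eval (rt F w ω) - cy (ptr F J ω)| ≤ S₁) →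
    (∀ ω, A ω → ∀ j, |(pth c w g H₁ (slam F w ω) j).eval (rt F w ω) - py (ptr F J ω) j| ≤ S₂) →
    (∀ ω, A ω → |(Polynomial.derivative (cP (slam F w ω))).eval (rt F w ω) -
      ∑ j, Γ (ZL (slam F w ω)) j *
        (Polynomial.derivative (pth c w g H₁ (slam F w ω) j)).eval (rt F w ω)| ≤ S₀) →
    Real.exp (C * (θ + 1)) * S₀ + S₁ + (d + 1 : ℕ) * G * S₂ ≤ 1 / (4 * 2 ^ M) →
    ∃ (B : F.Ω → Prop) (κL : LnT F → ℝ) (κG : PtT F → ℝ)
      (CL : LnT F → MvPolynomial (Option (Fin m)) ℝ)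
      (CG : PtT F → MvPolynomial (Option (Fin m)) ℝ), Sub B A ∧ Pe F.p A / 4 ≤ Pe F.p B ∧
      (∀ s, CL s = affC c w g (κL s) (Γ (ZL s)) s.2.2 (H₁ s)) ∧
      (∀ y, CG y = affC c w g (κG y) (Γ (ZG y)) (y.2.1 / 2 ^ (J - w)) (G₁ y)) ∧
      (∀ s, (CL s).totalDegree ≤ D ∧ DepC c d (CL s)) ∧
      (∀ y, (CG y).totalDegree ≤ D ∧ DepC c d (CG y)) ∧
      (∀ ω, B ω → CG (ptr F J ω) = CL (slam F w ω)) ∧
      (∀ ω, B ω → ∀ τ ∈ Set.Icc (0 : ℝ) 1,
        |(cP (slam F w ω)).eval τ - eval (ptw F w ω τ) (CL (slam F w ω))| ≤ 2 / 2 ^ M ∧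
        |(Polynomial.derivative (cP (slam F w ω))).eval τ - ∑ j, Γ (ZL (slam F w ω)) j *
          (Polynomial.derivative (pth c w g H₁ (slam F w ω) j)).eval τ| ≤
            Real.exp (C * (θ + 1)) * S₀) ∧
      (∀ ω, B ω → |cy (ptr F J ω) - eval (bt F ω) (CG (ptr F J ω))| ≤ 2 / 2 ^ M + S₁) := by
  obtain ⟨C, hC, hch⟩ := chart_val m (d + 1) (max K (D + 1))
  refine ⟨C, hC, ?_⟩
  intro J F A hA w ζ c g G₁ H₁ ZL ZG Γ cP cy py S₀ S₁ S₂ G θ M hw hcP hH₁ hdH hG₁ hdG hcl hS₀ hθ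
    hTm hJ hZ hΓ hc hp hder hsum
  obtain ⟨B, κL, κG, hB, hm, he, hpa, -⟩ := hch J F A hA w ZL ZG Γ cP (pth c w g H₁) cy py S₀ S₁
    S₂ G θ M hw (fun s => (hcP s).trans (le_max_left _ _))
    (fun s j => (deg_pth c w g hH₁ s j).trans (le_max_right _ _)) hS₀ hθ hTm hJ hZ hΓ hc hp hder
    hsum
  have hown : ∀ ω τ, eval (ptw F w ω τ) (affC c w g (κL (slam F w ω)) (Γ (ZL (slam F w ω)))
      (slam F w ω).2.2 (H₁ (slam F w ω))) = κL (slam F w ω) +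
        ∑ j, Γ (ZL (slam F w ω)) j * (pth c w g H₁ (slam F w ω) j).eval τ := by
    intro ω τ
    rw [affC_own, Fin.sum_univ_succ]
    simp only [pth, Fin.cons_zero, Fin.cons_succ, Polynomial.eval_X, Polynomial.eval_mul,
      Polynomial.eval_C]
    ring
  have heq : ∀ ω, B ω → affC c w g (κG (ptr F J ω)) (Γ (ZG (ptr F J ω)))
      ((ptr F J ω).2.1 / 2 ^ (J - w)) (G₁ (ptr F J ω)) =
      affC c w g (κL (slam F w ω)) (Γ (ZL (slam F w ω))) (slam F w ω).2.2 (H₁ (slam F w ω)) := by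
    intro ω hω
    have hωA := hB ω hω
    have e1 : (ptr F J ω).2.1 / 2 ^ (J - w) = (slam F w ω).2.2 := rfl
    rw [← he ω hω, ← hZ ω hωA, e1]
    unfold affC
    congr 1
    refine Finset.sum_congr rfl fun j _ => ?_
    rw [hcl ω hωA j j.2]
  have hbd : ∀ ω, B ω → ∀ τ ∈ Set.Icc (0 : ℝ) 1, |(cP (slam F w ω)).eval τ -
      eval (ptw F w ω τ) (affC c w g (κL (slam F w ω)) (Γ (ZL (slam F w ω)))
        (slam F w ω).2.2 (H₁ (slam F w ω)))| ≤ 2 / 2 ^ M := by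
    intro ω hω τ hτ
    rw [hown, ← sub_sub]
    exact (hpa ω hω τ hτ).1
  refine ⟨B, κL, κG, fun s => affC c w g (κL s) (Γ (ZL s)) s.2.2 (H₁ s),
    fun y => affC c w g (κG y) (Γ (ZG y)) (y.2.1 / 2 ^ (J - w)) (G₁ y), hB, hm, fun _ => rfl,
    fun _ => rfl, fun s => ⟨deg_affC c w g _ _ _ hD (hH₁ s), dep_affC c w g _ _ _ (hdH s)⟩,
    fun y => ⟨deg_affC c w g _ _ _ hD (hG₁ y), dep_affC c w g _ _ _ (hdG y)⟩, heq,
    fun ω hω τ hτ => ⟨hbd ω hω τ hτ, (hpa ω hω τ hτ).2⟩, fun ω hω => ?_⟩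
  have h1 := hbd ω hω (rt F w ω) (rt_mem F w ω)
  rw [ptw_rt F hw] at h1
  have h2 := hc ω (hB ω hω)
  show |cy (ptr F J ω) - eval (bt F ω) (affC c w g (κG (ptr F J ω)) (Γ (ZG (ptr F J ω)))
      ((ptr F J ω).2.1 / 2 ^ (J - w)) (G₁ (ptr F J ω)))| ≤ 2 / 2 ^ M + S₁
  rw [heq ω hω]
  rw [abs_sub_comm] at h2
  have e : cy (ptr F J ω) - eval (bt F ω) (affC c w g (κL (slam F w ω)) (Γ (ZL (slam F w ω)))
      (slam F w ω).2.2 (H₁ (slam F w ω))) = (cy (ptr F J ω) - (cP (slam F w ω)).eval (rt F w ω)) +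
      ((cP (slam F w ω)).eval (rt F w ω) - eval (bt F ω) (affC c w g (κL (slam F w ω))
        (Γ (ZL (slam F w ω))) (slam F w ω).2.2 (H₁ (slam F w ω)))) := by ring
  rw [e, add_comm (2 / 2 ^ M : ℝ)]
  exact (abs_add_le _ _).trans (add_le_add h2 h1)

end Pool.CR99
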