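import Pool.Agent.H99.D2.Chd
import Pool.Agent.H69.NE.Nvk

/-!
# Derivatives in the direction of the last coordinate

`eu`: the unit vector of a coordinate. `pd_last`: a polynomial which is small on a natural box has a
small derivative in the direction of the last coordinate, on the box of four times the sides.
`pd_own`: the same at the sample, and on the own line.
-/

set_option autoImplicit false

namespace Pool.CR99

open Finset Real MvPolynomial
open Pool.Agent.H49.Ent Pool.Agent.H32.Dense Pool.STK Pool.KA Pool.KSAT Pool.K2S Pool.PB Pool.S6C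
open Pool.GEN Pool.CHT Pool.CHX Pool.ISO Pool.D2R Pool.D2G30 Pool.V1E
open Pool.FLF (Fam.sub)
open Pool.PB.Trl (rt rt_mem t_rt)

variable {m J : ℕ}

/-- The unit vector of the coordinate `k`. -/
def eu (k : Fin m) : Option (Fin m) → ℝ := fun o => if o = some k then 1 else 0

theorem dd_eu (R : MvPolynomial (Option (Fin m)) ℝ) (x : Option (Fin m) → ℝ) (k : Fin m) :
    dd R x (eu k) = eval x (pderiv (some k) R) := by
  unfold dd eu
  rw [Finset.sum_eq_single (some k)]
  · rw [if_pos rfl, mul_one]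
  · intro o _ ho
    rw [if_neg ho, mul_zero]
  · intro h
    exact absurd (Finset.mem_univ _) h

/-- The natural norm of the unit vector of the last coordinate. -/
theorem nrm_eu {c : ℕ → Fin m} {r : ℕ} (hc : Set.InjOn c (Set.Iio (r + 1)))
    {ψ : ℕ → MvPolynomial (Option (Fin m)) ℝ} (hψ : ∀ l, DepC c l (ψ l)) (g : ℕ → ℕ) (a : ℕ)
    (x : Option (Fin m) → ℝ) : nrm c ψ g a (r + 1) x (eu (c r)) = 2 ^ g r := by
  have hne : ∀ l < r, c l ≠ c r := fun l hl he => by
    have := hc (Set.mem_Iio.2 (show l < r + 1 by omega)) (Set.mem_Iio.2 (Nat.lt_succ_self r)) he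
    omega
  have h0 : ∀ l ≤ r, dd (ψ l) x (eu (c r)) = 0 := by
    intro l hl
    rw [dd_eu]
    exact pd_zero (hψ l) (fun i hi => hne i (by omega)) x
  unfold nrm
  rw [Finset.sum_range_succ, Finset.sum_eq_zero, h0 r le_rfl]
  · have e1 : (eu (c r) : Option (Fin m) → ℝ) none = 0 := if_neg (by simp)
    have e2 : (eu (c r) : Option (Fin m) → ℝ) (some (c r)) = 1 := if_pos rfl
    rw [e1, e2, abs_zero, mul_zero, zero_add, zero_add, sub_zero, abs_one, mul_one]
  · intro l hl
    rw [Finset.mem_range] at hl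
    have e1 : (eu (c r) : Option (Fin m) → ℝ) (some (c l)) = 0 :=
      if_neg fun h => hne l hl (Option.some_injective _ h)
    rw [h0 l hl.le, e1, sub_zero, abs_zero, mul_zero]

theorem pd_Hno {ζ : Type} (k k' : Fin m)
    (H : ((Fin m → ℝ) × (Fin m → ℝ)) × ζ × ℕ → MvPolynomial (Option (Fin m)) ℝ)
    (s : ((Fin m → ℝ) × (Fin m → ℝ)) × ζ × ℕ) (b : Option (Fin m) → ℝ) :
    eval b (pderiv (some k') (Hno k H s)) = eval b (pderiv (some k') (H s)) := by
  obtain ⟨R, hR⟩ : ∃ R, R = C (s.1.1 k) + C (s.1.2 k) * X none - bind₁ (blq s) (H s) := ⟨_, rfl⟩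
  have e : Hno k H s = H s + R := by
    rw [hR]
    rfl
  have hd : DepC (fun _ => k) 0 R := by
    intro b b' h1 _
    have e1 : ∀ b : Option (Fin m) → ℝ, eval b R = eso k H s (b none) := by
      intro b
      have h2 := eval_Hno k H s b
      rw [e, map_add] at h2
      linarith
    rw [e1, e1, h1]
  have h0 := pd_zero hd (k := k') (fun l hl => absurd hl (Nat.not_lt_zero l)) b
  rw [e, map_add, map_add, h0, add_zero]

theorem pd_Gno {ζ : Type} (k k' : Fin m)
    (G : (Fin m → ℤ) × (ℕ × ζ) → MvPolynomial (Option (Fin m)) ℝ)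
    (y : (Fin m → ℤ) × (ℕ × ζ)) (b : Option (Fin m) → ℝ) :
    eval b (pderiv (some k') (Gno k J J G y)) = eval b (pderiv (some k') (G y)) := by
  unfold Gno
  rw [map_add, pderiv_C, add_zero]

/-- **The derivative in the direction of the last coordinate** on a natural box. -/
theorem pd_last (D r : ℕ) : ∃ C : ℕ, ∀ {m : ℕ} {c : ℕ → Fin m}
    {ψ : ℕ → MvPolynomial (Option (Fin m)) ℝ} {P : MvPolynomial (Option (Fin m)) ℝ}
    {g : ℕ → ℕ} {a : ℕ} {t M : ℝ}, Set.InjOn c (Set.Iio (r + 1)) →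
    (∀ l, (ψ l).totalDegree ≤ D) → (∀ l, DepC c l (ψ l)) → DepC c (r + 1) P →
    P.totalDegree ≤ D → 0 ≤ M → (∀ b, NBx c ψ g a t (r + 1) b → |eval b P| ≤ M) →
    ∀ b : Option (Fin m) → ℝ, |b none - t| ≤ 1 / 2 ^ a →
      (∀ l < r + 1, |b (some (c l)) - eval b (ψ l)| ≤ 4 / 2 ^ g l) →
      |eval b (pderiv (some (c r)) P)| ≤ 2 ^ C * M * 2 ^ g r := by
  obtain ⟨c₀, hdbl⟩ := nbx_dbl (r + 2) (fun _ => D)
  obtain ⟨C₁, hC₁, hder⟩ := der_one D
  obtain ⟨C₂, hC₂⟩ := pow_unbounded_of_one_lt C₁ (one_lt_two (α := ℝ))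
  refine ⟨c₀ + C₂, ?_⟩
  intro m c ψ P g a t M hc hψ hψd hP hPd hM hbox b hb0 hb
  have hne : ∀ l < r, c l ≠ c r := fun l hl he => by
    have := hc (Set.mem_Iio.2 (show l < r + 1 by omega)) (Set.mem_Iio.2 (Nat.lt_succ_self r)) he
    omega
  have hbig := hdbl (c := c) (i := r + 1) (G := ψ) (Q := P) (g := g) (a := a) (t := t) (M := M)
    (by omega) hc hψ hψd hP hPd hM hbox
  have hg0 : (0 : ℝ) < 2 ^ g r := by positivity
  obtain ⟨u₀, hu₀⟩ : ∃ u₀, u₀ = eval b (ψ r) := ⟨_, rfl⟩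
  obtain ⟨G, hG⟩ : ∃ G : Option (Fin m) → Polynomial ℝ, G = fun o =>
      if o = some (c r) then Polynomial.C (u₀ - 4 / 2 ^ g r) +
        Polynomial.C (8 / 2 ^ g r) * Polynomial.X else Polynomial.C (b o) := ⟨_, rfl⟩
  have hGe : ∀ (S : MvPolynomial (Option (Fin m)) ℝ) (w : ℝ),
      (MvPolynomial.aeval G S).eval w =
        eval (up (c r) b (u₀ - 4 / 2 ^ g r + 8 / 2 ^ g r * w)) S := by
    intro S w
    rw [Pool.D2G30.eval_aev]
    congr 1
    congr 1
    funext o
    rw [hG]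
    unfold up
    show Polynomial.eval w (if o = some (c r) then _ else _) = _
    split_ifs
    · simp only [Polynomial.eval_add, Polynomial.eval_mul, Polynomial.eval_C, Polynomial.eval_X]
    · rw [Polynomial.eval_C]
  have hdG : (MvPolynomial.aeval G P).natDegree ≤ D := by
    have h1 := natDegree_aeval_mul P G (E := 1) (fun o => by
      rw [hG]
      show (if o = some (c r) then _ else _ : Polynomial ℝ).natDegree ≤ 1
      split_ifs
      · refine (Polynomial.natDegree_add_le _ _).trans (max_le ?_ ?_)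
        · rw [Polynomial.natDegree_C]
          exact Nat.zero_le _
        · exact (Polynomial.natDegree_C_mul_le _ _).trans Polynomial.natDegree_X_le
      · rw [Polynomial.natDegree_C]
        exact Nat.zero_le _) hPd
    rwa [mul_one] at h1
  have hderG : ∀ w, (Polynomial.derivative (MvPolynomial.aeval G P)).eval w =
      eval (up (c r) b (u₀ - 4 / 2 ^ g r + 8 / 2 ^ g r * w)) (pderiv (some (c r)) P) *
        (8 / 2 ^ g r) := by
    intro w
    rw [der_aev, Polynomial.eval_finsetSum, Finset.sum_eq_single (some (c r))]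
    · rw [Polynomial.eval_mul, hGe, hG]
      simp
    · intro o _ ho
      rw [Polynomial.eval_mul, hG]
      simp [ho]
    · intro h'
      exact absurd (Finset.mem_univ _) h'
  have hval : ∀ w ∈ Set.Icc (0 : ℝ) 1, |(MvPolynomial.aeval G P).eval w| ≤ 2 ^ c₀ * M := by
    intro w hw
    rw [hGe]
    have hd : ∀ l ≤ r, eval (up (c r) b (u₀ - 4 / 2 ^ g r + 8 / 2 ^ g r * w)) (ψ l) =
        eval b (ψ l) := fun l hl => hψd l _ _ (up_none _ _ _) fun i hi =>
      up_ne (hne i (by omega)) _ _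
    refine hbig _ (by rw [up_none]; exact hb0) fun l hl => ?_
    rw [hd l (by omega)]
    rcases Nat.lt_or_ge l r with h | h
    · rw [up_ne (hne l h)]
      exact hb l hl
    · have : l = r := by omega
      subst this
      rw [up_self, ← hu₀]
      have e1 : u₀ - 4 / 2 ^ g l + 8 / 2 ^ g l * w - u₀ = (2 * w - 1) * (4 / 2 ^ g l) := by ring
      rw [e1, abs_mul, abs_of_nonneg (show (0 : ℝ) ≤ 4 / 2 ^ g l by positivity)]
      have h2 : |2 * w - 1| ≤ 1 := by
        rw [abs_le]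
        constructor <;> linarith [hw.1, hw.2]
      calc |2 * w - 1| * (4 / 2 ^ g l) ≤ 1 * (4 / 2 ^ g l) :=
            mul_le_mul_of_nonneg_right h2 (by positivity)
        _ = _ := one_mul _
  obtain ⟨w₀, hw₀⟩ : ∃ w₀ : ℝ, w₀ = (b (some (c r)) - u₀) * (2 ^ g r / 8) + 1 / 2 := ⟨_, rfl⟩
  have hbr := hb r (Nat.lt_succ_self r)
  rw [← hu₀] at hbr
  have hw1 : |w₀| ≤ 1 := by
    have h1 : |(b (some (c r)) - u₀) * (2 ^ g r / 8)| ≤ 1 / 2 := by
      rw [abs_mul, abs_of_pos (show (0 : ℝ) < 2 ^ g r / 8 by positivity)]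
      calc |b (some (c r)) - u₀| * (2 ^ g r / 8) ≤ 4 / 2 ^ g r * (2 ^ g r / 8) :=
            mul_le_mul_of_nonneg_right hbr (by positivity)
        _ = 1 / 2 := by
            field_simp
            norm_num
    rw [abs_le] at h1 ⊢
    rw [hw₀]
    constructor <;> linarith [h1.1, h1.2]
  have hup : up (c r) b (u₀ - 4 / 2 ^ g r + 8 / 2 ^ g r * w₀) = b := by
    refine up_eq ?_
    rw [hw₀]
    field_simp
    ring
  have h1 := hder (MvPolynomial.aeval G P) (2 ^ c₀ * M) hdG hval w₀ hw1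
  rw [hderG, hup, abs_mul, abs_of_pos (show (0 : ℝ) < 8 / 2 ^ g r by positivity)] at h1
  have h2 : |eval b (pderiv (some (c r)) P)| ≤ C₁ * (2 ^ c₀ * M) * (2 ^ g r / 8) := by
    calc |eval b (pderiv (some (c r)) P)| = |eval b (pderiv (some (c r)) P)| * (8 / 2 ^ g r) *
          (2 ^ g r / 8) := by field_simp
      _ ≤ C₁ * (2 ^ c₀ * M) * (2 ^ g r / 8) := mul_le_mul_of_nonneg_right h1 (by positivity)
  refine h2.trans ?_
  have hX : 0 ≤ 2 ^ c₀ * M := by positivity
  have h3 : C₁ * (2 ^ c₀ * M) ≤ 2 ^ (c₀ + C₂) * M := by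
    rw [pow_add]
    calc C₁ * (2 ^ c₀ * M) ≤ 2 ^ C₂ * (2 ^ c₀ * M) := mul_le_mul_of_nonneg_right hC₂.le hX
      _ = _ := by ring
  refine mul_le_mul h3 ?_ (by positivity) (by positivity)
  linarith

end Pool.CR99
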