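import Pool.Agent.H99.D2.Chg

/-!
# The closed coefficient, the chart

`CfO`: the output: a closed and visible affine function `CG` of the frame, near the derivative of
the label and of the charts of `N` in the direction `u`, against the chart of the first window.
`cf_chart`: it exists on a large part of the event, if the velocity of the own path is a closed and
visible linear function of the velocities of the time and of the heights of the frame.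
-/

set_option autoImplicit false

namespace Pool.CR99

open Finset Real MvPolynomial
open Pool.Agent.H49.Ent Pool.Agent.H32.Dense Pool.STK Pool.KA Pool.KSAT Pool.K2S Pool.PB Pool.S6C
open Pool.GEN Pool.CHT Pool.CHX Pool.ISO Pool.D2R Pool.D2G30 Pool.V1E
open Pool.FLF (Fam.sub)
open Pool.PB.Trl (rt rt_mem t_rt)

/-- **The output.** -/
structure CfO {m J : ℕ} (F : Fam m J) (c : ℕ → Fin m) (r D M : ℕ) (su sn o₀ o₁ o₂ : ℕ)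
    (g₁ g₂ : ℕ → ℕ) (K₁ K₂ : ℝ) (B : F.Ω → Prop)
    (G₀ G₁ G₂ : PtT F → ℕ → MvPolynomial (Option (Fin m)) ℝ)
    (H₀ : LnT F → ℕ → MvPolynomial (Option (Fin m)) ℝ)
    (Ht CL : LnT F → MvPolynomial (Option (Fin m)) ℝ)
    (CG : PtT F → MvPolynomial (Option (Fin m)) ℝ) : Prop where
  dL : ∀ s, (CL s).totalDegree ≤ D
  dG : ∀ y, (CG y).totalDegree ≤ D
  pL : ∀ s, DepC c r (CL s)
  pG : ∀ y, DepC c r (CG y)
  clo : ∀ ω, B ω → CG (ptr F J ω) = CL (slam F o₁ ω)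
  own : ∀ ω, B ω → ∀ τ ∈ Set.Icc (0 : ℝ) 1,
    |(cpt F c r su sn o₀ o₁ H₀ Ht (slam F o₁ ω)).eval τ -
      eval (ptw F o₁ ω τ) (CL (slam F o₁ ω))| ≤ 2 / 2 ^ M
  box1 : ∀ ω, B ω → ∀ b, NBx c (G₁ (ptr F J ω)) g₁ o₁ (F.t ω) (r + 1) b →
    |eval b (pderiv (some (c r)) (G₁ (ptr F J ω) (r + 1))) -
      eval b (pderiv (some (c r)) (G₀ (ptr F J ω) (r + 1))) -
      2 ^ su / 2 ^ sn * eval b (CG (ptr F J ω))| ≤ K₁
  box2 : ∀ ω, B ω → ∀ b, NBx c (G₂ (ptr F J ω)) g₂ o₂ (F.t ω) (r + 1) b →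
    |eval b (pderiv (some (c r)) (G₂ (ptr F J ω) (r + 1))) -
      eval b (pderiv (some (c r)) (G₀ (ptr F J ω) (r + 1))) -
      2 ^ su / 2 ^ sn * eval b (CG (ptr F J ω))| ≤ K₂

/-- **The box from the sample.** -/
theorem cf_box {m J : ℕ} {F : Fam m J} {c : ℕ → Fin m} {r D Dr M h : ℕ} {κ : ℝ}
    {su sn o₀ o₁ o₂ : ℕ} {g₂ : ℕ → ℕ} {B B₁ : F.Ω → Prop}
    {G₀ G₂ : PtT F → ℕ → MvPolynomial (Option (Fin m)) ℝ}
    {H₀ H₂ : LnT F → ℕ → MvPolynomial (Option (Fin m)) ℝ}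
    {Ht CL : LnT F → MvPolynomial (Option (Fin m)) ℝ}
    {CG : PtT F → MvPolynomial (Option (Fin m)) ℝ} {K Y : ℝ} (h01 : o₀ ≤ o₁) (h12 : o₁ ≤ o₂)
    (h2J : o₂ ≤ J) (hD : D ≤ Dr) (hdG₀ : ∀ y l, (G₀ y l).totalDegree ≤ D)
    (hdG₂ : ∀ y l, (G₂ y l).totalDegree ≤ D) (hdH₀ : ∀ s l, (H₀ s l).totalDegree ≤ D)
    (hdH₂ : ∀ s l, (H₂ s l).totalDegree ≤ D) (hpG₀ : ∀ y l, DepC c l (G₀ y l))
    (hpG₂ : ∀ y l, DepC c l (G₂ y l)) (hpH₀ : ∀ s l, DepC c l (H₀ s l))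
    (hpH₂ : ∀ s l, DepC c l (H₂ s l)) (hCL : ∀ s, (CL s).totalDegree ≤ D ∧ DepC c r (CL s))
    (hCG : ∀ y, (CG y).totalDegree ≤ D ∧ DepC c r (CG y)) (hcl0 : Clsd F (r + 2) o₀ B G₀ H₀)
    (hcl2 : Clsd F (r + 2) o₂ B G₂ H₂) (hrel : RelvF F c (r + 1) o₂ o₂ g₂ Dr h κ B G₂)
    (hB₁ : Sub B₁ B) (hκ : κ * Pe F.p B ≤ Pe F.p B₁)
    (hcl : ∀ ω, B₁ ω → CG (ptr F J ω) = CL (slam F o₁ ω))
    (hwo : ∀ ω, B₁ ω → |(cpt F c r su sn o₀ o₁ H₀ Ht (slam F o₁ ω)).eval (rt F o₁ ω) -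
      eval (bt F ω) (CL (slam F o₁ ω))| ≤ 2 / 2 ^ M)
    (hn : ∀ ω, B₁ ω → |eval (bt F ω) (pderiv (some (c r)) (Ht (slam F o₁ ω))) -
      eval (bt F ω) (pderiv (some (c r)) (H₂ (slam F o₂ ω) (r + 1)))| ≤ Y)
    (hK0 : 0 < K) (hK : Y + 2 ^ su / 2 ^ sn * (2 / 2 ^ M) ≤ K) :
    ∃ B₂ : F.Ω → Prop, Sub B₂ B₁ ∧ Pe F.p B₁ / 2 ≤ Pe F.p B₂ ∧ ∀ ω, B₂ ω →
      ∀ b, NBx c (G₂ (ptr F J ω)) g₂ o₂ (F.t ω) (r + 1) b →
      |eval b (pderiv (some (c r)) (G₂ (ptr F J ω) (r + 1))) -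
        eval b (pderiv (some (c r)) (G₀ (ptr F J ω) (r + 1))) -
        2 ^ su / 2 ^ sn * eval b (CG (ptr F J ω))| ≤ 2 ^ h * K := by
  classical
  have h1J : o₁ ≤ J := h12.trans h2J
  have hsu : (0 : ℝ) < 2 ^ su / 2 ^ sn := by positivity
  obtain ⟨Dx, hDx⟩ : ∃ Dx : PtT F → MvPolynomial (Option (Fin m)) ℝ, Dx = fun y =>
      pderiv (some (c r)) (G₂ y (r + 1)) - pderiv (some (c r)) (G₀ y (r + 1)) -
        MvPolynomial.C (2 ^ su / 2 ^ sn) * CG y := ⟨_, rfl⟩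
  obtain ⟨Dl, hDl⟩ : ∃ Dl : LnT F → MvPolynomial (Option (Fin m)) ℝ, Dl = fun s =>
      pderiv (some (c r)) (H₂ s (r + 1)) - pderiv (some (c r)) (H₀ (co (o₂ - o₀) s) (r + 1)) -
        MvPolynomial.C (2 ^ su / 2 ^ sn) * CL (co (o₂ - o₁) s) := ⟨_, rfl⟩
  have hdeg : ∀ P P' Q : MvPolynomial (Option (Fin m)) ℝ, P.totalDegree ≤ D →
      P'.totalDegree ≤ D → Q.totalDegree ≤ D → (pderiv (some (c r)) P -
        pderiv (some (c r)) P' - MvPolynomial.C (2 ^ su / 2 ^ sn) * Q).totalDegree ≤ Dr := by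
    intro P P' Q h1 h2 h3
    refine le_trans ?_ hD
    refine (totalDegree_sub _ _).trans (max_le ((totalDegree_sub _ _).trans (max_le
      ((pd_deg _ _).trans h1) ((pd_deg _ _).trans h2))) ?_)
    refine (totalDegree_mul _ _).trans ?_
    rw [totalDegree_C, zero_add]
    exact h3
  have hdep : ∀ P P' Q : MvPolynomial (Option (Fin m)) ℝ, DepC c (r + 1) P →
      DepC c (r + 1) P' → DepC c r Q → DepC c (r + 1) (pderiv (some (c r)) P -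
        pderiv (some (c r)) P' - MvPolynomial.C (2 ^ su / 2 ^ sn) * Q) := by
    intro P P' Q h1 h2 h3 b b' h4 h5
    rw [map_sub, map_sub, map_mul, map_sub, map_sub, map_mul,
      depC_pderiv h1 _ b b' h4 h5, depC_pderiv h2 _ b b' h4 h5,
      h3 b b' h4 fun l hl => h5 l (by omega), eval_C, eval_C]
  have heq : ∀ ω, B₁ ω → ∀ b, eval b (Dx (ptr F J ω)) = eval b (Dl (slam F o₂ ω)) := by
    intro ω hω b
    rw [hDx, hDl]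
    beta_reduce
    rw [co_slam F h12 h2J, co_slam F (h01.trans h12) h2J, hcl ω hω,
      hcl0 ω (hB₁ ω hω) (r + 1) (by omega), hcl2 ω (hB₁ ω hω) (r + 1) (by omega)]
  have hpt : ∀ ω, B₁ ω → |eval (bt F ω) (Dx (ptr F J ω))| ≤ K := by
    intro ω hω
    have h1 := hn ω hω
    have h2 := hwo ω hω
    rw [eval_cpt h01 h1J, ptw_rt F h1J] at h2
    obtain ⟨a, ha⟩ : ∃ a, a = eval (bt F ω) (pderiv (some (c r)) (Ht (slam F o₁ ω))) := ⟨_, rfl⟩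
    obtain ⟨a₁, ha₁⟩ : ∃ a₁, a₁ = eval (bt F ω) (pderiv (some (c r)) (H₀ (slam F o₀ ω) (r + 1))) :=
      ⟨_, rfl⟩
    obtain ⟨a₂, ha₂⟩ : ∃ a₂, a₂ = eval (bt F ω) (pderiv (some (c r)) (H₂ (slam F o₂ ω) (r + 1))) :=
      ⟨_, rfl⟩
    obtain ⟨k, hk⟩ : ∃ k, k = eval (bt F ω) (CL (slam F o₁ ω)) := ⟨_, rfl⟩
    rw [← ha, ← ha₂] at h1
    rw [← ha, ← ha₁, ← hk] at h2
    have e0 : eval (bt F ω) (Dx (ptr F J ω)) = a₂ - a₁ - 2 ^ su / 2 ^ sn * k := by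
      rw [hDx]
      beta_reduce
      rw [hcl ω hω, hcl0 ω (hB₁ ω hω) (r + 1) (by omega), hcl2 ω (hB₁ ω hω) (r + 1) (by omega),
        map_sub, map_sub, map_mul, eval_C, ha₁, ha₂, hk]
    have e1 : a₂ - a₁ - 2 ^ su / 2 ^ sn * k = -(a - a₂) +
        2 ^ su / 2 ^ sn * (2 ^ sn / 2 ^ su * (a - a₁) - k) := by
      field_simp
      ring
    rw [e0, e1]
    refine (abs_add_le _ _).trans ?_
    rw [abs_neg, abs_mul, abs_of_pos hsu]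
    exact (add_le_add h1 (mul_le_mul_of_nonneg_left h2 hsu.le)).trans hK
  obtain ⟨B₂, d1, d2, d3⟩ := hrel B₁ hB₁ hκ Dx Dl K
    (fun y => by
      rw [hDx]
      exact hdeg _ _ _ (hdG₂ y _) (hdG₀ y _) (hCG y).1)
    (fun s => by
      rw [hDl]
      exact hdeg _ _ _ (hdH₂ s _) (hdH₀ _ _) (hCL _).1)
    (fun y => by
      rw [hDx]
      exact hdep _ _ _ (hpG₂ y _) (hpG₀ y _) (hCG y).2)
    (fun s => by
      rw [hDl]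
      exact hdep _ _ _ (hpH₂ s _) (hpH₀ _ _) (hCL _).2) hK0 hpt
    (fun ω hω b _ => by
      rw [heq ω hω b, sub_self, abs_zero]
      exact hK0.le)
  refine ⟨B₂, d1, d2, fun ω hω b hb => ?_⟩
  have h1 := d3 ω hω b hb
  rw [hDx] at h1
  beta_reduce at h1
  rw [map_sub, map_sub, map_mul, eval_C] at h1
  exact h1

/-- **The closed coefficient.** -/
theorem cf_chart (m D r : ℕ) (hD : 1 ≤ D) : ∃ C : ℕ, 1 ≤ C ∧ ∀ {J : ℕ} {F : Fam m J}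
    {c : ℕ → Fin m} {Dr M₀ MB x x₀ e h p q₀ q₁ q₂ su sn : ℕ} {κ : ℝ} {o₀ o₁ o₂ ar : ℕ}
    {g₀ g₁ g₂ gT₁ gT₂ : ℕ → ℕ} {B : F.Ω → Prop}
    {G₀ G₁ G₂ T₁ : PtT F → ℕ → MvPolynomial (Option (Fin m)) ℝ}
    {H₀ H₁ H₂ TH₁ TH₂ : LnT F → ℕ → MvPolynomial (Option (Fin m)) ℝ}
    {Gt : PtT F → MvPolynomial (Option (Fin m)) ℝ} {Ht : LnT F → MvPolynomial (Option (Fin m)) ℝ},
    ChD F c r D Dr M₀ MB x x₀ e h p q₀ q₁ q₂ su sn κ o₀ o₁ o₂ ar g₀ g₁ g₂ gT₁ gT₂ B G₀ G₁ G₂ T₁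
      H₀ H₁ H₂ TH₁ TH₂ Gt Ht → ∀ (v M : ℕ) (gu : ℕ → ℕ) {A : F.Ω → Prop} (hA : 0 < Pe F.p A),
    Sub A B → κ * Pe F.p B ≤ Pe F.p A / 8 → (∀ l < r + 1, e + gT₁ l + M₀ + C ≤ J) →
    (∀ l < r + 1, e + g₁ l + (M₀ + x₀) + C ≤ J) → (∀ l < r, gu l ≤ g₀ l) →
    (∀ l < r, e + g₀ l + v + C ≤ J) → ∀ {ζ : Type} (ZL : LnT F → ζ) (ZG : PtT F → ζ)
    (Γ : ζ → Fin (r + 1) → ℝ) (S₀ G θ : ℝ), 0 < S₀ → 0 ≤ θ → (Fam.sub F A hA).Tm θ →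
    C * (θ + 1) ≤ ((J : ℝ) - o₁) * Real.log 2 →
    (∀ ω, A ω → ZL (slam F o₁ ω) = ZG (ptr F J ω)) → (∀ z j, |Γ z j| ≤ G) →
    (∀ ω, A ω → |(Polynomial.derivative (cpt F c r su sn o₀ o₁ H₀ Ht (slam F o₁ ω))).eval
        (rt F o₁ ω) - ∑ j, Γ (ZL (slam F o₁ ω)) j * (Polynomial.derivative
        (pth c o₁ gu (hco F o₀ o₁ H₀) (slam F o₁ ω) j)).eval (rt F o₁ ω)| ≤ S₀) →
    Real.exp (C * (θ + 1)) * S₀ + 2 ^ (C * (x + 1)) / 2 ^ M₀ + (r + 1 : ℕ) * G * (1 / 2 ^ v) ≤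
      1 / (4 * 2 ^ M) → su + MB ≤ g₂ r + M + x →
    ∃ (B' : F.Ω → Prop) (CL : LnT F → MvPolynomial (Option (Fin m)) ℝ)
      (CG : PtT F → MvPolynomial (Option (Fin m)) ℝ), Sub B' A ∧ Pe F.p A / 16 ≤ Pe F.p B' ∧
      CfO F c r D M su sn o₀ o₁ o₂ g₁ g₂ (2 ^ (h + 2 * x + 2) * (2 ^ su / 2 ^ sn))
        (2 ^ (h + 2 * x + 2) * (2 ^ g₂ r / 2 ^ (sn + MB))) B' G₀ G₁ G₂ H₀ Ht CL CG := by
  classical
  obtain ⟨C₀, hC₀, hlin⟩ := chart_lin m r D D hD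
  obtain ⟨C₁, hvis⟩ := cf_vis D r
  obtain ⟨C₂, hht⟩ := ht_cell D r
  obtain ⟨C₃, hC₃⟩ : ∃ C₃ : ℕ, C₃ = ⌈C₀⌉₊ := ⟨_, rfl⟩
  have hC3 : C₀ ≤ C₃ := by rw [hC₃]; exact Nat.le_ceil _
  refine ⟨C₁ + C₂ + C₃ + 1, by omega, ?_⟩
  intro J F c Dr M₀ MB x x₀ e h p q₀ q₁ q₂ su sn κ o₀ o₁ o₂ ar g₀ g₁ g₂ gT₁ gT₂ B G₀ G₁ G₂ T₁ H₀
    H₁ H₂ TH₁ TH₂ Gt Ht W v M gu A hA hAB hκ hJT hJ1 hgu hJ0 ζ ZL ZG Γ S₀ G θ hS₀ hθ hTm hJo hZ hΓ
    hder hsum hM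
  have h1J : o₁ ≤ J := W.o12.trans W.oJ
  have hc0 : Set.InjOn c (Set.Iio r) := W.hc.mono fun x hx => by
    rw [Set.mem_Iio] at hx ⊢
    omega
  obtain ⟨C, hC⟩ : ∃ C, C = C₁ + C₂ + C₃ + 1 := ⟨_, rfl⟩
  rw [← hC] at hJT hJ1 hJ0 hJo hsum
  have hC0 : C₀ ≤ C := hC3.trans (by
    have : C₃ ≤ C := by omega
    exact_mod_cast this)
  have hθ1 : 0 ≤ θ + 1 := by linarith
  have hco : ∀ ω l, hco F o₀ o₁ H₀ (slam F o₁ ω) l = H₀ (slam F o₀ ω) l := by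
    intro ω l
    unfold Pool.CR99.hco
    rw [co_slam F W.o01 h1J]
  -- the visible functions
  obtain ⟨cy, hcy⟩ := vis_of A
    (fun ω => (cpt F c r su sn o₀ o₁ H₀ Ht (slam F o₁ ω)).eval (rt F o₁ ω))
  obtain ⟨py, hpy⟩ := vis_of (β := Fin (r + 1) → ℝ) A
    (fun ω j => (pth c o₁ gu (Pool.CR99.hco F o₀ o₁ H₀) (slam F o₁ ω) j).eval (rt F o₁ ω))
  have hc' : ∀ ω, A ω → |(cpt F c r su sn o₀ o₁ H₀ Ht (slam F o₁ ω)).eval (rt F o₁ ω) -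
      cy (ptr F J ω)| ≤ 2 ^ (C * (x + 1)) / 2 ^ M₀ := by
    intro ω hω
    obtain ⟨ν, h1, h2, h3⟩ := hcy ω hω
    rw [h3]
    refine (hvis W (fun l hl => by
      have := hJT l hl
      omega) (fun l hl => by
      have := hJ1 l hl
      omega) ω ν (hAB ω hω) (hAB ν h1) h2).trans ?_
    refine div_le_div_of_nonneg_right (pow_le_pow_right₀ (by norm_num) ?_) (by positivity)
    exact Nat.mul_le_mul_right _ (by omega)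
  have hp' : ∀ ω, A ω → ∀ j, |(pth c o₁ gu (Pool.CR99.hco F o₀ o₁ H₀) (slam F o₁ ω) j).eval
      (rt F o₁ ω) - py (ptr F J ω) j| ≤ 1 / 2 ^ v := by
    intro ω hω j
    obtain ⟨ν, h1, h2, h3⟩ := hpy ω hω
    rw [h3]
    refine Fin.cases ?_ (fun i => ?_) j
    · show |(Polynomial.X : Polynomial ℝ).eval _ - (Polynomial.X : Polynomial ℝ).eval _| ≤ _
      rw [Polynomial.eval_X, Polynomial.eval_X, rt_cell h2, sub_self, abs_zero]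
      positivity
    · show |(Polynomial.C (2 ^ gu i) * dv o₁ (fun s _ => Pool.CR99.hco F o₀ o₁ H₀ s i) (c i)
        (slam F o₁ ω) : Polynomial ℝ).eval _ - (Polynomial.C (2 ^ gu i) *
          dv o₁ (fun s _ => Pool.CR99.hco F o₀ o₁ H₀ s i) (c i) (slam F o₁ ν) :
            Polynomial ℝ).eval _| ≤ _
      have h4 := hht (v := v) (A := B) (G := G₀) (H := H₀) hc0
        (W.ch0.mono (r' := r) (by omega) (fun _ => le_rfl) le_rfl le_rfl) (fun l hl => by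
        have := hJ0 l hl
        omega) ω ν (hAB ω hω) h2 i i.2
      rw [Polynomial.eval_mul, Polynomial.eval_mul, Polynomial.eval_C, Polynomial.eval_C,
        eval_dv F h1J (fun s _ => Pool.CR99.hco F o₀ o₁ H₀ s i) ω (c i),
        eval_dv F h1J (fun s _ => Pool.CR99.hco F o₀ o₁ H₀ s i) ν (c i),
        ← mul_sub, abs_mul, abs_of_pos (show (0 : ℝ) < 2 ^ gu i by positivity), abs_sub_comm,
        hco, hco, ← W.cl0 ω (hAB ω hω) i (by omega), ← W.cl0 ν (hAB ν h1) i (by omega), ← h2]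
      calc 2 ^ gu i * |F.x ν (c i) - eval (bt F ν) (G₀ (ptr F J ω) i) -
            (F.x ω (c i) - eval (bt F ω) (G₀ (ptr F J ω) i))| ≤
            2 ^ g₀ i * (1 / 2 ^ v / 2 ^ g₀ i) := mul_le_mul
              (pow_le_pow_right₀ (by norm_num) (hgu i i.2)) h4 (abs_nonneg _) (by positivity)
        _ = 1 / 2 ^ v := by field_simp
  obtain ⟨B₁, κL, κG, CL, CG, b1, b2, hCLe, hCGe, hCLd, hCGd, hcl, hown, -⟩ := hlin J F A hA o₁ c gu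
    G₀ (Pool.CR99.hco F o₀ o₁ H₀) ZL ZG Γ (cpt F c r su sn o₀ o₁ H₀ Ht) cy py S₀
    (2 ^ (C * (x + 1)) / 2 ^ M₀) (1 / 2 ^ v) G θ M
    h1J (deg_cpt su sn o₀ o₁ W.ch0.degH W.dH) (fun s l => W.ch0.degH _ l)
    (fun s l => W.ch0.depH _ l) W.ch0.degG W.ch0.depG
    (fun ω hω l hl => by
      rw [hco]
      exact W.cl0 ω (hAB ω hω) l (by omega)) hS₀ hθ hTm
    ((mul_le_mul_of_nonneg_right hC0 hθ1).trans hJo) hZ hΓ hc' hp' hder (by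
      refine le_trans ?_ hsum
      have h1 : Real.exp (C₀ * (θ + 1)) ≤ Real.exp (C * (θ + 1)) :=
        Real.exp_le_exp.2 (mul_le_mul_of_nonneg_right hC0 hθ1)
      have h2 := mul_le_mul_of_nonneg_right h1 hS₀.le
      linarith)
  have hB₁ : Sub B₁ B := fun ω hω => hAB ω (b1 ω hω)
  have hwo : ∀ ω, B₁ ω → |(cpt F c r su sn o₀ o₁ H₀ Ht (slam F o₁ ω)).eval (rt F o₁ ω) -
      eval (bt F ω) (CL (slam F o₁ ω))| ≤ 2 / 2 ^ M := by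
    intro ω hω
    have h1 := (hown ω hω (rt F o₁ ω) (rt_mem F o₁ ω)).1
    rwa [ptw_rt F h1J] at h1
  have hsu : (0 : ℝ) < 2 ^ su / 2 ^ sn := by positivity
  have hM1 : (1 : ℝ) ≤ 2 ^ M := one_le_pow₀ (by norm_num)
  have hM0 : (0 : ℝ) < 2 ^ M := by positivity
  have hx1 : (1 : ℝ) ≤ 2 ^ x := one_le_pow₀ (by norm_num)
  have e3 : (2 : ℝ) ^ (2 * x + 2) = 4 * (2 ^ x * 2 ^ x) := by
    rw [pow_add, two_mul, pow_add]
    norm_num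
    ring
  have hxx : (2 : ℝ) ^ x ≤ 2 ^ x * 2 ^ x := le_mul_of_one_le_left (by positivity) hx1
  have hxx1 : (1 : ℝ) ≤ 2 ^ x * 2 ^ x := hx1.trans hxx
  -- the first window
  obtain ⟨K₁, hK₁⟩ : ∃ K : ℝ, K = 2 ^ (2 * x + 2) * (2 ^ su / 2 ^ sn) := ⟨_, rfl⟩
  obtain ⟨B₂, c1, c2, c3⟩ := cf_box (F := F) (Ht := Ht) (K := K₁)
    (Y := 2 ^ x * 2 ^ gT₁ r / 2 ^ q₁) (M := M) (su := su) (sn := sn) W.o01
    le_rfl h1J W.Dr1 W.ch0.degG W.ch1.degG W.ch0.degH W.ch1.degH W.ch0.depG W.ch1.depG W.ch0.depH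
    W.ch1.depH hCLd hCGd W.cl0 W.cl1 W.rel1 hB₁ (by linarith [Pe_nonneg F.isLaw A]) hcl hwo
    (fun ω hω => W.n1 (hB₁ ω hω)) (by rw [hK₁]; positivity) (by
      have h4 : (2 : ℝ) ^ gT₁ r / 2 ^ q₁ ≤ 2 ^ (su + x) / 2 ^ sn :=
        num_e (by have := W.a2; omega)
      have h5 : (2 : ℝ) ^ x * 2 ^ gT₁ r / 2 ^ q₁ ≤ 2 ^ x * 2 ^ x * (2 ^ su / 2 ^ sn) := by
        rw [mul_div_assoc]
        refine (mul_le_mul_of_nonneg_left h4 (by positivity)).trans (le_of_eq ?_)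
        rw [pow_add]
        ring
      have h6 : (2 : ℝ) / 2 ^ M ≤ 2 := by
        rw [div_le_iff₀ hM0]
        linarith
      have h7 : (2 : ℝ) ^ su / 2 ^ sn * (2 / 2 ^ M) ≤ 2 ^ su / 2 ^ sn * 2 :=
        mul_le_mul_of_nonneg_left h6 hsu.le
      have h8 : (2 : ℝ) ^ su / 2 ^ sn * 1 ≤ 2 ^ su / 2 ^ sn * (2 ^ x * 2 ^ x) :=
        mul_le_mul_of_nonneg_left hxx1 hsu.le
      rw [hK₁, e3]
      nlinarith)
  have hB₂ : Sub B₂ B := fun ω hω => hB₁ ω (c1 ω hω)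
  -- the second window
  obtain ⟨K₂, hK₂⟩ : ∃ K : ℝ, K = 2 ^ (2 * x + 2) * (2 ^ g₂ r / 2 ^ (sn + MB)) := ⟨_, rfl⟩
  obtain ⟨B₃, d1, d2, d3⟩ := cf_box (F := F) (Ht := Ht) (K := K₂)
    (Y := 2 ^ x * 2 ^ gT₂ r / 2 ^ q₂) (M := M) (su := su) (sn := sn) W.o01
    W.o12 W.oJ W.Dr1 W.ch0.degG W.ch2.degG W.ch0.degH W.ch2.degH W.ch0.depG W.ch2.depG W.ch0.depH
    W.ch2.depH hCLd hCGd W.cl0 W.cl2 W.rel2 hB₂ (by linarith [Pe_nonneg F.isLaw A])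
    (fun ω hω => hcl ω (c1 ω hω)) (fun ω hω => hwo ω (c1 ω hω))
    (fun ω hω => W.n2 (hB₂ ω hω)) (by rw [hK₂]; positivity) (by
      obtain ⟨Y, hY⟩ : ∃ Y : ℝ, Y = 2 ^ g₂ r / 2 ^ (sn + MB) := ⟨_, rfl⟩
      have hY0 : 0 < Y := by rw [hY]; positivity
      have h3 : (2 : ℝ) ^ (gT₂ r) / 2 ^ q₂ ≤ 2 ^ (g₂ r + x) / 2 ^ (sn + MB) :=
        num_e (by have := W.b1; omega)
      have h4 : (2 : ℝ) ^ su / 2 ^ (sn + M) ≤ 2 ^ (g₂ r + x) / 2 ^ (sn + MB) :=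
        num_e (by omega)
      have e2 : (2 : ℝ) ^ (g₂ r + x) / 2 ^ (sn + MB) = 2 ^ x * Y := by
        rw [hY, pow_add]
        ring
      rw [e2] at h3 h4
      have h5 : 2 ^ x * 2 ^ gT₂ r / 2 ^ q₂ ≤ 2 ^ x * (2 ^ x * Y) := by
        rw [mul_div_assoc]
        exact mul_le_mul_of_nonneg_left h3 (by positivity)
      have h6 : 2 ^ su / 2 ^ sn * (2 / 2 ^ M) ≤ 2 * (2 ^ x * Y) := by
        calc 2 ^ su / 2 ^ sn * (2 / 2 ^ M) = 2 * (2 ^ su / 2 ^ (sn + M)) := by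
              rw [pow_add]
              field_simp
          _ ≤ _ := mul_le_mul_of_nonneg_left h4 (by norm_num)
      have h7 : 2 ^ x * Y ≤ 2 ^ x * (2 ^ x * Y) := by
        have := mul_le_mul_of_nonneg_right hx1 (show (0 : ℝ) ≤ 2 ^ x * Y by positivity)
        linarith
      rw [hK₂, ← hY, e3]
      nlinarith)
  refine ⟨B₃, CL, CG, fun ω hω => b1 ω (c1 ω (d1 ω hω)), by linarith, ?_⟩
  refine { dL := fun s => (hCLd s).1, dG := fun y => (hCGd y).1, pL := fun s => (hCLd s).2,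
           pG := fun y => (hCGd y).2, clo := fun ω hω => hcl ω (c1 ω (d1 ω hω)),
           own := fun ω hω τ hτ => (hown ω (c1 ω (d1 ω hω)) τ hτ).1, box1 := ?_, box2 := ?_ }
  · intro ω hω b hb
    refine (c3 ω (d1 ω hω) b hb).trans (le_of_eq ?_)
    rw [hK₁, ← mul_assoc, ← pow_add, show h + (2 * x + 2) = h + 2 * x + 2 by ring]
  · intro ω hω b hb
    refine (d3 ω hω b hb).trans (le_of_eq ?_)
    rw [hK₂, ← mul_assoc, ← pow_add, show h + (2 * x + 2) = h + 2 * x + 2 by ring]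

end Pool.CR99
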