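import Pool.Agent.H99.D2.Kon
import Pool.Agent.H99.D2.Chi

/-!
# The closed constant from a closed path with small velocity

`CfC`: the output: a closed constant `κ` which is near the derivatives of the charts of `N = c (r + 1)` in
the direction `u = c r`, on the boxes of two windows. `cf_const`: it exists if there is a closed path which
is near these derivatives at the samples, is visible and has a small velocity.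
-/

set_option autoImplicit false

namespace Pool.CR99

open Finset Real MvPolynomial
open Pool.Agent.H49.Ent Pool.Agent.H32.Dense Pool.STK Pool.KA Pool.KSAT Pool.K2S Pool.PB Pool.S6C
open Pool.GEN Pool.CHT Pool.CHX Pool.ISO Pool.D2R Pool.D2G30 Pool.V1E
open Pool.FLF (Fam.sub)
open Pool.PB.Trl (rt rt_mem t_rt)

/-- **The closed constant.** -/
structure CfC {m J : ℕ} (F : Fam m J) (c : ℕ → Fin m) (r M : ℕ) (o₁ o₂ : ℕ)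
    (g₁ g₂ : ℕ → ℕ) (U K₁ K₂ : ℝ) (B : F.Ω → Prop)
    (G₁ G₂ : PtT F → ℕ → MvPolynomial (Option (Fin m)) ℝ) (cP : LnT F → Polynomial ℝ)
    (κL : LnT F → ℝ) (κG : PtT F → ℝ) : Prop where
  clo : ∀ ω, B ω → κG (ptr F J ω) = κL (slam F o₁ ω)
  own : ∀ ω, B ω → ∀ τ ∈ Set.Icc (0 : ℝ) 1,
    |(cP (slam F o₁ ω)).eval τ - κL (slam F o₁ ω)| ≤ 2 / 2 ^ M
  box1 : ∀ ω, B ω → ∀ b, NBx c (G₁ (ptr F J ω)) g₁ o₁ (F.t ω) (r + 1) b →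
    |eval b (pderiv (some (c r)) (G₁ (ptr F J ω) (r + 1))) - U * κG (ptr F J ω)| ≤ K₁
  box2 : ∀ ω, B ω → ∀ b, NBx c (G₂ (ptr F J ω)) g₂ o₂ (F.t ω) (r + 1) b →
    |eval b (pderiv (some (c r)) (G₂ (ptr F J ω) (r + 1))) - U * κG (ptr F J ω)| ≤ K₂

/-- **The box from the sample**, for a constant. -/
theorem cst_box {m J : ℕ} {F : Fam m J} {c : ℕ → Fin m} {r D Dr h : ℕ} {κ : ℝ}
    {o₁ o₂ : ℕ} {g₂ : ℕ → ℕ} {U : ℝ} {B B₁ : F.Ω → Prop}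
    {G₂ : PtT F → ℕ → MvPolynomial (Option (Fin m)) ℝ}
    {H₂ : LnT F → ℕ → MvPolynomial (Option (Fin m)) ℝ} {κL : LnT F → ℝ} {κG : PtT F → ℝ}
    {K : ℝ} (h12 : o₁ ≤ o₂) (h2J : o₂ ≤ J) (hD : D ≤ Dr)
    (hdG₂ : ∀ y l, (G₂ y l).totalDegree ≤ D) (hdH₂ : ∀ s l, (H₂ s l).totalDegree ≤ D)
    (hpG₂ : ∀ y l, DepC c l (G₂ y l)) (hpH₂ : ∀ s l, DepC c l (H₂ s l))
    (hcl2 : Clsd F (r + 2) o₂ B G₂ H₂) (hrel : RelvF F c (r + 1) o₂ o₂ g₂ Dr h κ B G₂)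
    (hB₁ : Sub B₁ B) (hκ : κ * Pe F.p B ≤ Pe F.p B₁)
    (hcl : ∀ ω, B₁ ω → κG (ptr F J ω) = κL (slam F o₁ ω))
    (hn : ∀ ω, B₁ ω → |eval (bt F ω) (pderiv (some (c r)) (H₂ (slam F o₂ ω) (r + 1))) -
      U * κL (slam F o₁ ω)| ≤ K) (hK0 : 0 < K) :
    ∃ B₂ : F.Ω → Prop, Sub B₂ B₁ ∧ Pe F.p B₁ / 2 ≤ Pe F.p B₂ ∧ ∀ ω, B₂ ω →
      ∀ b, NBx c (G₂ (ptr F J ω)) g₂ o₂ (F.t ω) (r + 1) b →
      |eval b (pderiv (some (c r)) (G₂ (ptr F J ω) (r + 1))) - U * κG (ptr F J ω)| ≤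
        2 ^ h * K := by
  classical
  obtain ⟨Dx, hDx⟩ : ∃ Dx : PtT F → MvPolynomial (Option (Fin m)) ℝ, Dx = fun y =>
      pderiv (some (c r)) (G₂ y (r + 1)) - MvPolynomial.C (U * κG y) := ⟨_, rfl⟩
  obtain ⟨Dl, hDl⟩ : ∃ Dl : LnT F → MvPolynomial (Option (Fin m)) ℝ, Dl = fun s =>
      pderiv (some (c r)) (H₂ s (r + 1)) - MvPolynomial.C (U * κL (co (o₂ - o₁) s)) := ⟨_, rfl⟩
  have heq : ∀ ω, B₁ ω → ∀ b, eval b (Dx (ptr F J ω)) = eval b (Dl (slam F o₂ ω)) := by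
    intro ω hω b
    rw [hDx, hDl]
    beta_reduce
    rw [co_slam F h12 h2J, hcl ω hω, hcl2 ω (hB₁ ω hω) (r + 1) (by omega)]
  have hpt : ∀ ω, B₁ ω → |eval (bt F ω) (Dx (ptr F J ω))| ≤ K := by
    intro ω hω
    refine le_trans (le_of_eq ?_) (hn ω hω)
    rw [hDx]
    beta_reduce
    rw [hcl ω hω, hcl2 ω (hB₁ ω hω) (r + 1) (by omega), map_sub, eval_C]
  obtain ⟨B₂, d1, d2, d3⟩ := hrel B₁ hB₁ hκ Dx Dl K
    (fun y => by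
      rw [hDx]
      refine ((totalDegree_sub _ _).trans (max_le ((pd_deg _ _).trans (hdG₂ y _)) ?_)).trans hD
      rw [totalDegree_C]
      exact Nat.zero_le _)
    (fun s => by
      rw [hDl]
      refine ((totalDegree_sub _ _).trans (max_le ((pd_deg _ _).trans (hdH₂ s _)) ?_)).trans hD
      rw [totalDegree_C]
      exact Nat.zero_le _)
    (fun y b b' h4 h5 => by
      rw [hDx]
      beta_reduce
      rw [map_sub, map_sub, eval_C, eval_C, depC_pderiv (hpG₂ y _) _ b b' h4 h5])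
    (fun s b b' h4 h5 => by
      rw [hDl]
      beta_reduce
      rw [map_sub, map_sub, eval_C, eval_C, depC_pderiv (hpH₂ s _) _ b b' h4 h5])
    hK0 hpt (fun ω hω b _ => by
      rw [heq ω hω b, sub_self, abs_zero]
      exact hK0.le)
  refine ⟨B₂, d1, d2, fun ω hω b hb => ?_⟩
  refine le_trans (le_of_eq ?_) (d3 ω hω b hb)
  rw [hDx]
  beta_reduce
  rw [map_sub, eval_C]

/-- **The closed constant** from a closed, visible path with a small velocity. -/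
theorem cf_const (m K : ℕ) : ∃ C : ℕ, 1 ≤ C ∧ ∀ {J : ℕ} {F : Fam m J}
    {c : ℕ → Fin m} {r D Dr M₀ MB x h su sn : ℕ} {κ : ℝ} {o₁ o₂ : ℕ}
    {g₁ g₂ : ℕ → ℕ} {B : F.Ω → Prop} {G₁ G₂ : PtT F → ℕ → MvPolynomial (Option (Fin m)) ℝ}
    {H₁ H₂ : LnT F → ℕ → MvPolynomial (Option (Fin m)) ℝ} {cP : LnT F → Polynomial ℝ},
    o₁ ≤ o₂ → o₂ ≤ J → D ≤ Dr →
    (∀ y l, (G₁ y l).totalDegree ≤ D) → (∀ s l, (H₁ s l).totalDegree ≤ D) →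
    (∀ y l, DepC c l (G₁ y l)) → (∀ s l, DepC c l (H₁ s l)) →
    (∀ y l, (G₂ y l).totalDegree ≤ D) → (∀ s l, (H₂ s l).totalDegree ≤ D) →
    (∀ y l, DepC c l (G₂ y l)) → (∀ s l, DepC c l (H₂ s l)) →
    Clsd F (r + 2) o₁ B G₁ H₁ → Clsd F (r + 2) o₂ B G₂ H₂ →
    RelvF F c (r + 1) o₁ o₁ g₁ Dr h κ B G₁ → RelvF F c (r + 1) o₂ o₂ g₂ Dr h κ B G₂ →
    (∀ s, (cP s).natDegree ≤ K) →
    (∀ ω, B ω → |(cP (slam F o₁ ω)).eval (rt F o₁ ω) - 2 ^ sn / 2 ^ su *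
      eval (bt F ω) (pderiv (some (c r)) (H₁ (slam F o₁ ω) (r + 1)))| ≤ 2 ^ x) →
    (∀ ω, B ω → |(cP (slam F o₁ ω)).eval (rt F o₁ ω) - 2 ^ sn / 2 ^ su *
      eval (bt F ω) (pderiv (some (c r)) (H₂ (slam F o₂ ω) (r + 1)))| ≤ 2 ^ x / 2 ^ M₀) →
    ∀ (M : ℕ) {A : F.Ω → Prop} (hA : 0 < Pe F.p A),
    Sub A B → κ * Pe F.p B ≤ Pe F.p A / 8 →
    ∀ (S₀ S₁ θ : ℝ), (∀ ω ν, A ω → A ν → ptr F J ω = ptr F J ν →
      |(cP (slam F o₁ ω)).eval (rt F o₁ ω) - (cP (slam F o₁ ν)).eval (rt F o₁ ν)| ≤ S₁) →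
    0 < S₀ → 0 ≤ S₁ → 0 ≤ θ → (Fam.sub F A hA).Tm θ →
    C * (θ + 1) ≤ ((J : ℝ) - o₁) * Real.log 2 →
    (∀ ω, A ω → |(Polynomial.derivative (cP (slam F o₁ ω))).eval (rt F o₁ ω)| ≤ S₀) →
    Real.exp (C * (θ + 1)) * S₀ + S₁ ≤ 1 / (4 * 2 ^ M) →
    su + MB ≤ g₂ r + M + x → su + MB ≤ g₂ r + M₀ + x →
    ∃ (B' : F.Ω → Prop) (κL : LnT F → ℝ) (κG : PtT F → ℝ), Sub B' A ∧
      Pe F.p A / 16 ≤ Pe F.p B' ∧
      CfC F c r M o₁ o₂ g₁ g₂ (2 ^ su / 2 ^ sn) (2 ^ (h + 2 * x + 2) * (2 ^ su / 2 ^ sn))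
        (2 ^ (h + 2 * x + 2) * (2 ^ g₂ r / 2 ^ (sn + MB))) B' G₁ G₂ cP κL κG := by
  classical
  obtain ⟨C₀, hC₀, hval⟩ := chart_val m 0 K
  obtain ⟨C₃, hC₃⟩ : ∃ C₃ : ℕ, C₃ = ⌈C₀⌉₊ := ⟨_, rfl⟩
  have hC3 : C₀ ≤ C₃ := by rw [hC₃]; exact Nat.le_ceil _
  refine ⟨C₃ + 1, by omega, ?_⟩
  intro J F c r D Dr M₀ MB x h su sn κ o₁ o₂ g₁ g₂ B G₁ G₂ H₁ H₂ cP h12 h2J hDr dG₁ dH₁ pG₁ pH₁
    dG₂ dH₂ pG₂ pH₂ cl1 cl2 rel1 rel2 hdeg v1 v2 M A hA hAB hκ S₀ S₁ θ hvis hS₀ hS₁ hθ hTm hJo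
    hder hsum hM hM'
  have h1J : o₁ ≤ J := h12.trans h2J
  obtain ⟨C, hC⟩ : ∃ C, C = C₃ + 1 := ⟨_, rfl⟩
  rw [← hC] at hJo hsum
  have hC0 : C₀ ≤ C := hC3.trans (by
    have : C₃ ≤ C := by omega
    exact_mod_cast this)
  have hθ1 : 0 ≤ θ + 1 := by linarith
  obtain ⟨cy, hcy⟩ := vis_of A (fun ω => (cP (slam F o₁ ω)).eval (rt F o₁ ω))
  have hc' : ∀ ω, A ω → |(cP (slam F o₁ ω)).eval (rt F o₁ ω) - cy (ptr F J ω)| ≤ S₁ := by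
    intro ω hω
    obtain ⟨ν, h1, h2, h3⟩ := hcy ω hω
    rw [h3]
    exact hvis ω ν hω h1 h2
  obtain ⟨B₁, κL, κG, b1, b2, hclo, hown, -⟩ := hval J F A hA o₁ (ζ := Unit)
    (fun _ => ()) (fun _ => ()) (fun _ j => Fin.elim0 j) cP (fun _ j => Fin.elim0 j) cy
    (fun _ j => Fin.elim0 j) S₀ S₁ 0 0 θ M h1J hdeg
    (fun _ j => Fin.elim0 j) hS₀ hθ hTm ((mul_le_mul_of_nonneg_right hC0 hθ1).trans hJo)
    (fun _ _ => rfl) (fun _ j => Fin.elim0 j) hc' (fun _ _ j => Fin.elim0 j)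
    (fun ω hω => by
      rw [Finset.univ_eq_empty, Finset.sum_empty, sub_zero]
      exact hder ω hω) (by
      refine le_trans ?_ hsum
      have h1 : Real.exp (C₀ * (θ + 1)) ≤ Real.exp (C * (θ + 1)) :=
        Real.exp_le_exp.2 (mul_le_mul_of_nonneg_right hC0 hθ1)
      have h2 := mul_le_mul_of_nonneg_right h1 hS₀.le
      simp only [mul_zero, add_zero]
      linarith)
  have hown' : ∀ ω, B₁ ω → ∀ τ ∈ Set.Icc (0 : ℝ) 1,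
      |(cP (slam F o₁ ω)).eval τ - κL (slam F o₁ ω)| ≤ 2 / 2 ^ M := by
    intro ω hω τ hτ
    have h1 := (hown ω hω τ hτ).1
    rwa [Finset.univ_eq_empty, Finset.sum_empty, sub_zero] at h1
  have hB₁ : Sub B₁ B := fun ω hω => hAB ω (b1 ω hω)
  have hsu : (0 : ℝ) < 2 ^ su / 2 ^ sn := by positivity
  have hM1 : (1 : ℝ) ≤ 2 ^ M := one_le_pow₀ (by norm_num)
  have hM0 : (0 : ℝ) < 2 ^ M := by positivity
  have hx1 : (1 : ℝ) ≤ 2 ^ x := one_le_pow₀ (by norm_num)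
  have e3 : (2 : ℝ) ^ (2 * x + 2) = 4 * (2 ^ x * 2 ^ x) := by
    rw [pow_add, two_mul, pow_add]
    norm_num
    ring
  have hxx : (2 : ℝ) ^ x ≤ 2 ^ x * 2 ^ x := le_mul_of_one_le_left (by positivity) hx1
  have hxx1 : (1 : ℝ) ≤ 2 ^ x * 2 ^ x := hx1.trans hxx
  have hcomb : ∀ (a k q E₁ E₂ : ℝ), |q - 2 ^ sn / 2 ^ su * a| ≤ E₁ → |q - k| ≤ E₂ →
      |a - 2 ^ su / 2 ^ sn * k| ≤ 2 ^ su / 2 ^ sn * (E₁ + E₂) := by
    intro a k q E₁ E₂ h1 h2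
    have e1 : a - 2 ^ su / 2 ^ sn * k = 2 ^ su / 2 ^ sn *
        (-(q - 2 ^ sn / 2 ^ su * a) + (q - k)) := by
      field_simp
      ring
    rw [e1, abs_mul, abs_of_pos hsu]
    refine mul_le_mul_of_nonneg_left ((abs_add_le _ _).trans ?_) hsu.le
    rw [abs_neg]
    exact add_le_add h1 h2
  -- the first window
  obtain ⟨K₁, hK₁⟩ : ∃ K : ℝ, K = 2 ^ (2 * x + 2) * (2 ^ su / 2 ^ sn) := ⟨_, rfl⟩
  obtain ⟨B₂, c1, c2, c3⟩ := cst_box (F := F) (K := K₁) (U := 2 ^ su / 2 ^ sn)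
    le_rfl h1J hDr dG₁ dH₁ pG₁ pH₁ cl1 rel1 hB₁ (by linarith [Pe_nonneg F.isLaw A])
    (fun ω hω => (hclo ω hω).symm)
    (fun ω hω => by
      refine (hcomb _ _ _ _ _ (v1 ω (hB₁ ω hω)) (hown' ω hω _ (rt_mem F o₁ ω))).trans ?_
      have h6 : (2 : ℝ) / 2 ^ M ≤ 2 := by
        rw [div_le_iff₀ hM0]
        linarith
      have h7 : (2 : ℝ) ^ x + 2 / 2 ^ M ≤ 4 * (2 ^ x * 2 ^ x) := by nlinarith
      rw [hK₁, e3, mul_comm (4 * ((2 : ℝ) ^ x * 2 ^ x))]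
      exact mul_le_mul_of_nonneg_left h7 hsu.le) (by rw [hK₁]; positivity)
  have hB₂ : Sub B₂ B := fun ω hω => hB₁ ω (c1 ω hω)
  -- the second window
  obtain ⟨K₂, hK₂⟩ : ∃ K : ℝ, K = 2 ^ (2 * x + 2) * (2 ^ g₂ r / 2 ^ (sn + MB)) := ⟨_, rfl⟩
  obtain ⟨B₃, d1, d2, d3⟩ := cst_box (F := F) (K := K₂) (U := 2 ^ su / 2 ^ sn)
    h12 h2J hDr dG₂ dH₂ pG₂ pH₂ cl2 rel2 hB₂ (by linarith [Pe_nonneg F.isLaw A])
    (fun ω hω => (hclo ω (c1 ω hω)).symm) (fun ω hω => by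
      refine (hcomb _ _ _ _ _ (v2 ω (hB₂ ω hω)) (hown' ω (c1 ω hω) _ (rt_mem F o₁ ω))).trans ?_
      obtain ⟨Y, hY⟩ : ∃ Y : ℝ, Y = 2 ^ g₂ r / 2 ^ (sn + MB) := ⟨_, rfl⟩
      have hY0 : 0 < Y := by rw [hY]; positivity
      have h4 : (2 : ℝ) ^ su / 2 ^ (sn + M) ≤ 2 ^ (g₂ r + x) / 2 ^ (sn + MB) :=
        num_e (by omega)
      have h4' : (2 : ℝ) ^ su / 2 ^ (sn + M₀) ≤ 2 ^ (g₂ r + x) / 2 ^ (sn + MB) :=
        num_e (by omega)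
      have e2 : (2 : ℝ) ^ (g₂ r + x) / 2 ^ (sn + MB) = 2 ^ x * Y := by
        rw [hY, pow_add]
        ring
      rw [e2] at h4 h4'
      have h5 : (2 : ℝ) ^ su / 2 ^ sn * (2 ^ x / 2 ^ M₀ + 2 / 2 ^ M) ≤
          2 ^ x * (2 ^ x * Y) + 2 * (2 ^ x * Y) := by
        have e4 : (2 : ℝ) ^ su / 2 ^ sn * (2 ^ x / 2 ^ M₀ + 2 / 2 ^ M) =
            2 ^ x * (2 ^ su / 2 ^ (sn + M₀)) + 2 * (2 ^ su / 2 ^ (sn + M)) := by
          rw [pow_add, pow_add]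
          field_simp
        rw [e4]
        exact add_le_add (mul_le_mul_of_nonneg_left h4' (by positivity))
          (mul_le_mul_of_nonneg_left h4 (by norm_num))
      have h7 : 2 ^ x * Y ≤ 2 ^ x * (2 ^ x * Y) := by
        have := mul_le_mul_of_nonneg_right hx1 (show (0 : ℝ) ≤ 2 ^ x * Y by positivity)
        linarith
      have h8 : 0 < 2 ^ x * (2 ^ x * Y) := by positivity
      rw [hK₂, ← hY, e3]
      nlinarith) (by rw [hK₂]; positivity)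
  refine ⟨B₃, κL, κG, fun ω hω => b1 ω (c1 ω (d1 ω hω)), by linarith, ?_⟩
  refine { clo := fun ω hω => (hclo ω (c1 ω (d1 ω hω))).symm,
           own := fun ω hω => hown' ω (c1 ω (d1 ω hω)), box1 := ?_, box2 := ?_ }
  · intro ω hω b hb
    refine (c3 ω (d1 ω hω) b hb).trans (le_of_eq ?_)
    rw [hK₁, ← mul_assoc, ← pow_add, show h + (2 * x + 2) = h + 2 * x + 2 by ring]
  · intro ω hω b hb
    refine (d3 ω hω b hb).trans (le_of_eq ?_)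
    rw [hK₂, ← mul_assoc, ← pow_add, show h + (2 * x + 2) = h + 2 * x + 2 by ring]

end Pool.CR99
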