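import Pool.Agent.H99.D2.Rne
import Pool.Agent.H18.PN.Nrp
import Pool.Agent.H28.RV.Use
import Pool.Agent.H12.LPK.Ipr

/-!
# One label for each family

`LbD F`: the data of a label. `Sgl Ψ d`: the labels of `Ψ` with the data `d J F`. `frz`: in a subclass
there is a label of `Ψ` on all events, the same one on all events of a family. `jd`, `qD`: the jets of
the label `d J F`. `DcpD`: the second labels of a family of pairs are the label `d J F` plus a closed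
polynomial. `qE`: the near path at the window `y`. `Nla`, `Nlb`: no look-ahead given a quantity.
-/

set_option autoImplicit false

namespace Pool.PN18

open Finset Real MvPolynomial
open Pool.Agent.H49.Ent Pool.Agent.H32.Dense Pool.STK Pool.KA Pool.KSAT Pool.K2S Pool.PB Pool.GEN
open Pool.S6C Pool.RCD Pool.LA91 Pool.OWN68 Pool.AJW Pool.AJX Pool.CHT Pool.LP30
open Pool.GRD (LbP)
open Pool.ALT (Fml DpI)

/-- The data of a label of the family `F`. -/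
structure LbD {m J : ℕ} (F : Fam m J) : Type 1 where
  V : Type
  z : PtT F → V
  z' : LnT F → V
  G : V → MvPolynomial (Option (Fin m)) ℝ

/-- **The labels of `Ψ` with the data** `d J F`. -/
def Sgl {m : ℕ} (Ψ : Fml m) (d : ∀ (J : ℕ) (F : Fam m J), LbD F) : Fml m :=
  fun J F A V z z' G => Ψ J F A V z z' G ∧ (LbD.mk V z z' G : LbD F) = d J F

theorem Sgl.le {m : ℕ} {Ψ : Fml m} {d : ∀ (J : ℕ) (F : Fam m J), LbD F} {J : ℕ} {F : Fam m J}
    {A : F.Ω → Prop} {V : Type} {z : PtT F → V} {z' : LnT F → V}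
    {G : V → MvPolynomial (Option (Fin m)) ℝ} (h : Sgl Ψ d J F A V z z' G) :
    Ψ J F A V z z' G := h.1

theorem Sgl.hs {m : ℕ} {Ψ : Fml m} {d : ∀ (J : ℕ) (F : Fam m J), LbD F}
    (hΨs : ∀ (J : ℕ) (F : Fam m J) (A B : F.Ω → Prop) (V : Type)
      (z : PtT F → V) (z' : LnT F → V) (G : V → MvPolynomial (Option (Fin m)) ℝ), Sub B A →
      Ψ J F A V z z' G → Ψ J F B V z z' G) (J : ℕ) (F : Fam m J) (A B : F.Ω → Prop) (V : Type)
    (z : PtT F → V) (z' : LnT F → V) (G : V → MvPolynomial (Option (Fin m)) ℝ) (hB : Sub B A)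
    (h : Sgl Ψ d J F A V z z' G) : Sgl Ψ d J F B V z z' G :=
  ⟨hΨs J F A B V z z' G hB h.1, h.2⟩

/-- The label `d J F` is a label of `Ψ` on the event. -/
theorem Sgl.at {m : ℕ} {Ψ : Fml m} {d : ∀ (J : ℕ) (F : Fam m J), LbD F} {J : ℕ} {F : Fam m J}
    {A : F.Ω → Prop} {V : Type} {z : PtT F → V} {z' : LnT F → V}
    {G : V → MvPolynomial (Option (Fin m)) ℝ} (h : Sgl Ψ d J F A V z z' G) :
    Ψ J F A (d J F).V (d J F).z (d J F).z' (d J F).G := by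
  rw [← h.2]
  exact h.1

/-- **One label for each family**, in a subclass. -/
theorem frz {m : ℕ} {S : PCl m} (hS : S.Ne) {Ψ : Fml m}
    (hΨs : ∀ (J : ℕ) (F : Fam m J) (A B : F.Ω → Prop) (V : Type)
      (z : PtT F → V) (z' : LnT F → V) (G : V → MvPolynomial (Option (Fin m)) ℝ), Sub B A →
      Ψ J F A V z z' G → Ψ J F B V z z' G)
    (hex : Bas S (fun J F A => ∃ (V : Type) (z : PtT F → V) (z' : LnT F → V)
      (G : V → MvPolynomial (Option (Fin m)) ℝ), Ψ J F A V z z' G)) :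
    ∃ (S' : PCl m) (d : ∀ (J : ℕ) (F : Fam m J), LbD F), S'.Ne ∧
      (∀ (τ : ℝ) (J : ℕ) (F : Fam m J) (A : F.Ω → Prop), S'.St τ J F A → S.St τ J F A) ∧
      Bas S' (fun J F A => ∃ (V : Type) (z : PtT F → V) (z' : LnT F → V)
        (G : V → MvPolynomial (Option (Fin m)) ℝ), Sgl Ψ d J F A V z z' G) := by
  classical
  -- the good defects of a family
  obtain ⟨T, hT⟩ : ∃ T : ∀ (J : ℕ) (_ : Fam m J), Set ℝ, T = fun J F =>
    {τ | 0 ≤ τ ∧ ∃ A, S.St τ J F A} := ⟨_, rfl⟩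
  have hTb : ∀ (J : ℕ) (F : Fam m J), BddBelow (T J F) := fun J F => ⟨0, fun τ h => by
    rw [hT] at h
    exact h.1⟩
  have hA : ∀ (J : ℕ) (F : Fam m J), ∃ A : F.Ω → Prop, ∀ τ : ℝ, 0 ≤ τ → (∃ B, S.St τ J F B) →
      S.St (τ + 1 / ((J : ℝ) + 1)) J F A := by
    intro J F
    by_cases hne : (T J F).Nonempty
    · obtain ⟨x, hx, hx'⟩ := exists_lt_of_csInf_lt hne
        (show sInf (T J F) < sInf (T J F) + 1 / ((J : ℝ) + 1) by
          have : (0 : ℝ) < 1 / ((J : ℝ) + 1) := by positivity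
          linarith)
      have hx2 : x ∈ T J F := hx
      rw [hT] at hx2
      obtain ⟨-, A, hA⟩ := hx2
      refine ⟨A, fun τ h0 hB => S.mono ?_ hA⟩
      have h1 : sInf (T J F) ≤ τ := csInf_le (hTb J F) (by rw [hT]; exact ⟨h0, hB⟩)
      linarith
    · refine ⟨fun _ => True, fun τ h0 hB => absurd ⟨τ, ?_⟩ hne⟩
      rw [hT]
      exact ⟨h0, hB⟩
  choose A₀ hA₀ using hA
  have hd : ∀ (J : ℕ) (F : Fam m J), ∃ d : LbD F, (∃ (V : Type) (z : PtT F → V) (z' : LnT F → V)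
      (G : V → MvPolynomial (Option (Fin m)) ℝ), Ψ J F (A₀ J F) V z z' G) →
      Ψ J F (A₀ J F) d.V d.z d.z' d.G := by
    intro J F
    by_cases h : ∃ (V : Type) (z : PtT F → V) (z' : LnT F → V)
      (G : V → MvPolynomial (Option (Fin m)) ℝ), Ψ J F (A₀ J F) V z z' G
    · obtain ⟨V, z, z', G, hG⟩ := h
      exact ⟨⟨V, z, z', G⟩, fun _ => hG⟩
    · exact ⟨⟨Unit, fun _ => (), fun _ => (), fun _ => 0⟩, fun h' => absurd h' h⟩
  choose d hd using hd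
  refine ⟨{ St := fun τ J F B => S.St τ J F B ∧ Sub B (A₀ J F) ∧ S.St τ J F (A₀ J F)
            mono := fun h hB => ⟨S.mono h hB.1, hB.2.1, S.mono h hB.2.2⟩
            res := fun {τ τ' J F A B} h0 hA hB hP => ⟨S.res h0 hA.1 hB hP,
              fun ω hω => hA.2.1 ω (hB ω hω), S.mono (by linarith) hA.2.2⟩ }, d, ?_, ?_, ?_⟩
  · intro τ hτ J₁
    obtain ⟨J₂, hJ₂⟩ := exists_nat_ge (2 / τ)
    obtain ⟨J, hJ, F, A, hSt⟩ := hS (τ / 2) (half_pos hτ) (max J₁ J₂)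
    have h1 := hA₀ J F (τ / 2) (half_pos hτ).le ⟨A, hSt⟩
    have h2 : S.St τ J F (A₀ J F) := by
      refine S.mono ?_ h1
      have h3 : (J₂ : ℝ) ≤ J := by exact_mod_cast (le_max_right _ _).trans hJ
      have h4 : 2 / τ ≤ (J : ℝ) + 1 := by linarith
      have h5 : 1 / ((J : ℝ) + 1) ≤ τ / 2 := by
        rw [div_le_iff₀ hτ] at h4
        rw [div_le_iff₀ (by positivity)]
        linarith
      linarith
    exact ⟨J, (le_max_left _ _).trans hJ, F, A₀ J F, h2, fun ω h => h, h2⟩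
  · exact fun τ J F A h => h.1
  · obtain ⟨τ, hτ, J₁, hb⟩ := hex
    refine ⟨τ, hτ, J₁, fun J hJ F A hA => ?_⟩
    have h1 := hd J F (hb J hJ F (A₀ J F) hA.2.2)
    exact ⟨(d J F).V, (d J F).z, (d J F).z', (d J F).G,
      hΨs J F _ _ _ _ _ _ hA.2.1 h1, rfl⟩

/-- The jet of the label `D`, `N` digits. -/
noncomputable def jd {m J : ℕ} (F : Fam m J) (κ : Fin m) (j : ℕ) (w N : ℝ) (D : LbD F)
    (ω : F.Ω) : ℤ :=
  ⌊(2 : ℝ) ^ (N * J) * ojet F κ j (D.G (D.z' (slam F ⌊w * J⌋₊ ω))) ω⌋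

/-- **The jet of the labels** `d J F`. -/
noncomputable def qD (m : ℕ) (d : ∀ (J : ℕ) (F : Fam m J), LbD F) (κ : Fin m) (j : ℕ)
    (w N : ℝ) : Qt m ℤ where
  P K e J F A u := (cnt F.p u A : ℝ) ≤ Real.exp (K * J) ∧
    ∀ ω, A ω → u ω = jd F κ j w N (d J F) ω
  sub := by
    rintro K e J F A B u hB ⟨hc, hu⟩
    refine ⟨le_trans ?_ hc, fun ω hω => hu ω (hB ω hω)⟩
    exact_mod_cast cnt_mono F.p u hB
  mono := by
    rintro K K' e e' J F A u hK he ⟨hc, hu⟩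
    refine ⟨hc.trans (Real.exp_le_exp.2 ?_), hu⟩
    exact mul_le_mul_of_nonneg_right (by exact_mod_cast hK) (Nat.cast_nonneg J)

/-- **The second labels of the family are the label** `d J F` plus a closed polynomial over `I₁`. -/
def DcpD {m : ℕ} (Ψ : Fm2 m) (d : ∀ (J : ℕ) (F : Fam m J), LbD F) (I₁ I₂ : Finset (Fin m))
    (κ₂ : Fin m) (K₁ : ℕ) (vn v En Rn Pn e : ℝ) : Prop :=
  ∀ (J : ℕ) (F : Fam m J) (A : F.Ω → Prop) (V C : Type) (z : PtT F → V) (z' : LnT F → V)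
    (G₁ G₂ : V → MvPolynomial (Option (Fin m)) ℝ) (cc : LnT F → C), Ψ J F A V C z z' G₁ G₂ cc →
    LbOK F I₂ κ₂ K₁ ⌊En * J⌋₊ J ⌊vn * J⌋₊ ⌊Rn * J⌋₊ ⌊(Pn - e) * J⌋₊ A (d J F).z (d J F).z'
      (d J F).G ∧
    ∃ H : V → MvPolynomial (Option (Fin m)) ℝ, (∀ b, (H b).totalDegree ≤ K₁) ∧
      (∀ b, DpI I₁ (H b)) ∧ ∀ ω, A ω → G₂ (z' (slam F ⌊v * J⌋₊ ω)) =
        (d J F).G ((d J F).z' (slam F ⌊vn * J⌋₊ ω)) + H (z' (slam F ⌊v * J⌋₊ ω))

/-- **The near path** at the window `y`, over the labels of `y`; the digits are linear in `y`. -/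
noncomputable def qE (m : ℕ) (c : ℕ → Fin m) (r : ℕ) (sn : ℕ → ℝ → ℝ) (C : ℕ → ℝ) (y : ℝ) :
    Qt m (ℕ → ℕ → ℤ) :=
  qJets m c 0 r 1 (fun _ _ => y) (fun l _ => sn l y) (fun l j => C l + (1 - (j : ℕ)) * y)

/-- **No look-ahead** between the windows `x ≤ y` given `QE`, the digits of `y` given. -/
def Nla {m : ℕ} (S : PCl m) {U U₁ U₂ : Type} (QE : Qt m U) (Qo : Qt m U₁) (Qy : Qt m U₂)
    (x y κ : ℝ) : Prop :=
  ∃ k : ℝ, 0 < k ∧ ∃ e : ℝ, 0 < e ∧ ∀ K : ℕ, Bas S (fun J F A =>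
    ∀ (V : Type) (z : F.Ω → V) (V' : Type) (z' : F.Ω → V'),
    Mx (fun J F => ptr F J) (vg x) k F A z → Mx (fun J F => ptr F J) (vg y) k F A z' →
    ∀ u u₁ pa, Qo.P K e J F A u → Qy.P K e J F A u₁ → QE.P K e J F A pa →
    CH (Pool.Agent.H49.Ent.cond F.p A True) u (fun ω => (u₁ ω, (pa ω, (z ω, F.W ω)))) ≤
      CH (Pool.Agent.H49.Ent.cond F.p A True) u (fun ω => (pa ω, (z' ω, F.W ω))) + κ * J)

/-- **No look-ahead** between the windows `x ≤ y` given `QE`. -/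
def Nlb {m : ℕ} (S : PCl m) {U U₁ : Type} (QE : Qt m U) (Qo : Qt m U₁) (x y κ : ℝ) : Prop :=
  ∃ k : ℝ, 0 < k ∧ ∃ e : ℝ, 0 < e ∧ ∀ K : ℕ, Bas S (fun J F A =>
    ∀ (V : Type) (z : F.Ω → V) (V' : Type) (z' : F.Ω → V'),
    Mx (fun J F => ptr F J) (vg x) k F A z → Mx (fun J F => ptr F J) (vg y) k F A z' →
    ∀ u pa, Qo.P K e J F A u → QE.P K e J F A pa →
    CH (Pool.Agent.H49.Ent.cond F.p A True) u (fun ω => (pa ω, (z ω, F.W ω))) ≤
      CH (Pool.Agent.H49.Ent.cond F.p A True) u (fun ω => (pa ω, (z' ω, F.W ω))) + κ * J)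

end Pool.PN18
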