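import Pool.Agent.H99.D2.Fzd
import Pool.Agent.H18.PN.Stg9

/-!
# The jets of the labels `d J F` and a family of pairs

`fd_of_fw`: the jets of the labels `d J F` from those over the second labels of a family of pairs.
`fw_of_fd`: the converse. `fd_dig`: fewer digits. `exs_qD`: the jets exist. `fwn_of_jd`: the jets of the
second labels at two windows.
-/

set_option autoImplicit false

namespace Pool.PN18

open Finset Real MvPolynomial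
open Pool.Agent.H49.Ent Pool.Agent.H32.Dense Pool.STK Pool.KA Pool.KSAT Pool.K2S Pool.PB Pool.GEN
open Pool.S6C Pool.RCD Pool.LA91 Pool.OWN68 Pool.AJW Pool.AJX Pool.CHT
open Pool.GRD (LbP)
open Pool.ALT (Fml DpI)

/-- The label `d J F` is a label on all events. -/
def LbF {m : ℕ} (S : PCl m) (d : ∀ (J : ℕ) (F : Fam m J), LbD F) (I : Finset (Fin m)) (κ : Fin m)
    (D : ℕ) (E R v p : ℝ) : Prop :=
  Bas S (fun J F A => LbOK F I κ D ⌊E * J⌋₊ J ⌊v * J⌋₊ ⌊R * J⌋₊ ⌊p * J⌋₊ A (d J F).z (d J F).z'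
    (d J F).G)

section

variable {m : ℕ} {S : PCl m} {C₀ : ℝ} {α γ : ∀ J : ℕ, Fam m J → Type} {U₀ : Type}
  {f : ∀ (J : ℕ) (F : Fam m J), F.Ω → α J F} {y : ∀ (J : ℕ) (F : Fam m J), F.Ω → γ J F}
  {Qu : Qt m U₀} {a : ℝ} {Ψ : Fm2 m} {d : ∀ (J : ℕ) (F : Fam m J), LbD F}
  {I₁ I₂ : Finset (Fin m)} {k κ₂ : Fin m}

theorem cxj_dcpd {K : ℕ} {κ₁ κ₂' : Fin m} {v p₁ p₂ : ℝ} {i₁ i₂ : ℕ} {X₁ X₂ : ℕ → ℝ}
    {Mp : Cdp m} {K₁ : ℕ} {v₀ w E₀ R₀ P₀ e : ℝ}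
    (h : DcpD Ψ d I₁ I₂ κ₂ K₁ v₀ w E₀ R₀ P₀ e) :
    DcpD (CxJ Ψ K κ₁ κ₂' v p₁ p₂ i₁ i₂ X₁ X₂ Mp) d I₁ I₂ κ₂ K₁ v₀ w E₀ R₀ P₀ e := by
  rintro J F A V C z z' G₁ G₂ cc ⟨C₀, Y, c₀, y, y', h1, h2, h3, -⟩
  exact h J F A V C₀ z z' G₁ G₂ c₀ h1

/-- The labels `d J F` from a family of pairs. -/
theorem DcpD.lbf {K₁ : ℕ} {v₀ w E₀ R₀ P₀ e : ℝ} (h : DcpD Ψ d I₁ I₂ κ₂ K₁ v₀ w E₀ R₀ P₀ e)
    (hex : Bas S (fun J F A => ∃ (V C : Type) (z : PtT F → V) (z' : LnT F → V)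
      (G₁ G₂ : V → MvPolynomial (Option (Fin m)) ℝ) (cc : LnT F → C), Ψ J F A V C z z' G₁ G₂ cc)) :
    LbF S d I₂ κ₂ K₁ E₀ R₀ v₀ (P₀ - e) := by
  refine Bas.mono 0 hex ?_
  rintro J - F A ⟨V, C, z, z', G₁, G₂, cc, hΨ⟩
  exact (h J F A V C z z' G₁ G₂ cc hΨ).1

/-- **The jets of the labels** `d J F` exist. -/
theorem exs_qD {D : ℕ} {E R v p : ℝ} (hl : LbF S d I₂ κ₂ D E R v p) (j : ℕ) (N : ℝ) :
    Exs S (qD m d κ₂ j v N) := by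
  obtain ⟨M, J₁, hcnt⟩ := cnt_jetX m D j N E R v
  intro e he
  refine ⟨M, M, Bas.mono J₁ hl ?_⟩
  intro J hJ F A h
  exact ⟨jd F κ₂ j v N (d J F), ⟨hcnt J hJ F _ κ₂ _ A _ _ _ _ h, fun ω _ => rfl⟩,
    hcnt J hJ F _ κ₂ _ A _ _ _ _ h⟩

/-- **The jet of the label** `d J F` from the jets over the labels of a family of pairs. -/
theorem fd_of_fw (htm : TmC S C₀) (hk : k ∈ I₁) {K K₁ j : ℕ}
    {vn v E₂ r₂ p₂ En Rn Pn P N e e' η₂ η₃ δ : ℝ} (he : 0 < e) (hee : 2 * e ≤ e') (hP0 : e' ≤ P)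
    (hP : P ≤ Pn) (hP' : P ≤ p₂) (hδ : 0 < δ)
    (hF : F1 S f (vg a) y Qu (qJet m I₁ k j v P N) e' η₃)
    (hlb : ∀ (J : ℕ) (F : Fam m J) (A : F.Ω → Prop) (V C : Type) (z : PtT F → V) (z' : LnT F → V)
      (G₁ G₂ : V → MvPolynomial (Option (Fin m)) ℝ) (cc : LnT F → C),
      Ψ J F A V C z z' G₁ G₂ cc →
      LbOK F I₂ κ₂ K ⌊E₂ * J⌋₊ J ⌊v * J⌋₊ ⌊r₂ * J⌋₊ ⌊(p₂ - e) * J⌋₊ A z z' G₂)
    (hD : DcpD Ψ d I₁ I₂ κ₂ K₁ vn v En Rn Pn e)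
    (hex : Bas S (fun J F A => ∃ (V C : Type) (z : PtT F → V) (z' : LnT F → V)
      (G₁ G₂ : V → MvPolynomial (Option (Fin m)) ℝ) (cc : LnT F → C), Ψ J F A V C z z' G₁ G₂ cc))
    (hG : Fw2 S f a y Qu Ψ (τ := fun _ _ _ _ => ℤ)
      (fun J F _ _ z' _ G₂ _ ω => ⌊(2 : ℝ) ^ (N * J) * ojet F κ₂ j
        (G₂ (z' (slam F ⌊v * J⌋₊ ω))) ω⌋) e η₂) :
    F1 S f (vg a) y Qu (qD m d κ₂ j vn N) e (η₂ + (η₃ + δ)) := by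
  intro K₀
  refine Bas.mono 0 (((hG K₀).and (dif_key (κ₂ := κ₂) (I₂ := I₂) (K := K₁) (K' := K) (K₁ := K₁)
    (v := vn) (v' := v) (E := En) (E' := E₂) (R := Rn) (R' := r₂) htm hk he hee hP0 hP hP' hδ hF
    K₀)).and (hex.and (Pool.GRW.tmc_bas htm one_pos))) ?_
  rintro J - F A ⟨⟨HG, HD⟩, ⟨V, C, z, z', G₁, G₂, cc, hΨ⟩, hA, -⟩ u₀ u' hu₀ ⟨-, hu'⟩
  obtain ⟨h1, H, h2, h3, h4⟩ := hD J F A V C z z' G₁ G₂ cc hΨ
  have hl := hlb J F A V C z z' G₁ G₂ cc hΨ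
  have h0 := (isLaw_cond F.isLaw hA).nonneg
  obtain ⟨V₁, z₁, hz₁, g1⟩ := HG V C z z' G₁ G₂ cc hΨ u₀ hu₀
  obtain ⟨V₂, z₂, hz₂, g2⟩ := HD (d J F).V V V (d J F).z (d J F).z' (d J F).G z z' G₂ z z'
    (fun b => - H b) h1 hl hl.cls
    (fun b => by rw [totalDegree_neg]; exact h2 b)
    (fun b x x' h5 h6 => by rw [map_neg, map_neg, h3 b x x' h5 h6])
    (fun ω hω => by
      rw [h4 ω hω]
      ring) u₀ hu₀
  refine ⟨V₁ × V₂, fun ω => (z₁ ω, z₂ ω), hz₁.join hz₂, ?_⟩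
  obtain ⟨w, hw⟩ : ∃ w : F.Ω → ℤ, w = fun ω =>
    ⌊(2 : ℝ) ^ (N * J) * ojet F κ₂ j (G₂ (z' (slam F ⌊v * J⌋₊ ω))) ω⌋ := ⟨_, rfl⟩
  have k1 : CH (Pool.Agent.H49.Ent.cond F.p A True) w
      (fun ω => (u₀ ω, ((z₁ ω, z₂ ω), y J F ω))) ≤ η₂ * J := by
    rw [hw]
    refine le_trans (CH_mono_cond h0 fun ω ω' _ _ hh => ?_) g1
    simp only [Prod.mk.injEq] at hh ⊢
    exact ⟨hh.1, hh.2.1.1, hh.2.2⟩
  have k2 : CH (Pool.Agent.H49.Ent.cond F.p A True) u'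
      (fun ω => (w ω, (u₀ ω, ((z₁ ω, z₂ ω), y J F ω)))) ≤ (η₃ + δ) * J := by
    rw [hw]
    have g3 : CH (Pool.Agent.H49.Ent.cond F.p A True) (fun ω => ⌊(2 : ℝ) ^ (N * J) *
        ojet F κ₂ j ((d J F).G ((d J F).z' (slam F ⌊vn * J⌋₊ ω))) ω⌋)
        (fun ω => (⌊(2 : ℝ) ^ (N * J) * ojet F κ₂ j (G₂ (z' (slam F ⌊v * J⌋₊ ω))) ω⌋,
          (u₀ ω, ((z₁ ω, z₂ ω), y J F ω)))) ≤ (η₃ + δ) * J := by
      refine le_trans (CH_mono_cond h0 fun ω ω' _ _ hh => ?_) g2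
      simp only [Prod.mk.injEq] at hh ⊢
      exact ⟨hh.1, hh.2.1, hh.2.2.1.2, hh.2.2.2⟩
    refine le_trans (CH_mono_left h0 fun ω ω' hω hω' hh => ?_) g3
    rw [hu' ω (of_cond_pos hω), hu' ω' (of_cond_pos hω')]
    exact (Prod.ext_iff.mp hh).1
  have k3 := CH_le_add h0 u' w (fun ω => (u₀ ω, ((z₁ ω, z₂ ω), y J F ω)))
  have k4 : (η₂ + (η₃ + δ)) * J = η₂ * J + (η₃ + δ) * J := by ring
  rw [k4]
  linarith only [k1, k2, k3]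

/-- **The jets over the labels of a family of pairs** from that of the label `d J F`. -/
theorem fw_of_fd (htm : TmC S C₀) (hk : k ∈ I₁) {K K₁ j : ℕ}
    {vn v E₂ r₂ p₂ En Rn Pn P N e e' η₂ η₃ δ : ℝ} (he : 0 < e) (hee : 2 * e ≤ e') (hP0 : e' ≤ P)
    (hP : P ≤ Pn) (hP' : P ≤ p₂) (hδ : 0 < δ)
    (hF : F1 S f (vg a) y Qu (qJet m I₁ k j v P N) e' η₃)
    (hlb : ∀ (J : ℕ) (F : Fam m J) (A : F.Ω → Prop) (V C : Type) (z : PtT F → V) (z' : LnT F → V)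
      (G₁ G₂ : V → MvPolynomial (Option (Fin m)) ℝ) (cc : LnT F → C),
      Ψ J F A V C z z' G₁ G₂ cc →
      LbOK F I₂ κ₂ K ⌊E₂ * J⌋₊ J ⌊v * J⌋₊ ⌊r₂ * J⌋₊ ⌊(p₂ - e) * J⌋₊ A z z' G₂)
    (hD : DcpD Ψ d I₁ I₂ κ₂ K₁ vn v En Rn Pn e)
    (hG : F1 S f (vg a) y Qu (qD m d κ₂ j vn N) e η₂) :
    Fw2 S f a y Qu Ψ (τ := fun _ _ _ _ => ℤ)
      (fun J F _ _ z' _ G₂ _ ω => ⌊(2 : ℝ) ^ (N * J) * ojet F κ₂ j
        (G₂ (z' (slam F ⌊v * J⌋₊ ω))) ω⌋) e (η₂ + (η₃ + δ)) := by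
  obtain ⟨M, J₁, hcnt⟩ := cnt_jetX m K₁ j N En Rn vn
  intro K₀
  refine Bas.mono J₁ (((hG (K₀ + K₁ + M)).and (dif_key (κ₂ := κ₂) (I₂ := I₂) (K := K) (K' := K₁)
    (K₁ := K₁) (v := v) (v' := vn) (E := E₂) (E' := En) (R := r₂) (R' := Rn) htm hk he hee hP0 hP'
    hP hδ hF K₀)).and (Pool.GRW.tmc_bas htm one_pos)) ?_
  rintro J hJ F A ⟨⟨HG, HD⟩, hA, -⟩ V C z z' G₁ G₂ cc hΨ u₀ hu₀
  obtain ⟨h1, H, h2, h3, h4⟩ := hD J F A V C z z' G₁ G₂ cc hΨ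
  have hl := hlb J F A V C z z' G₁ G₂ cc hΨ
  have h0 := (isLaw_cond F.isLaw hA).nonneg
  obtain ⟨w, hw⟩ : ∃ w : F.Ω → ℤ, w = jd F κ₂ j vn N (d J F) := ⟨_, rfl⟩
  have hwP : (qD m d κ₂ j vn N).P (K₀ + K₁ + M) e J F A w := by
    refine ⟨?_, fun ω _ => by rw [hw]⟩
    rw [hw]
    refine (hcnt J hJ F _ κ₂ _ A _ _ _ _ h1).trans (Real.exp_le_exp.2
      (mul_le_mul_of_nonneg_right ?_ (Nat.cast_nonneg J)))
    exact_mod_cast (by omega : M ≤ K₀ + K₁ + M)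
  obtain ⟨V₁, z₁, hz₁, g1⟩ := HG u₀ w (Qu.mono (by omega) le_rfl hu₀) hwP
  obtain ⟨V₂, z₂, hz₂, g2⟩ := HD V (d J F).V V z z' G₂ (d J F).z (d J F).z' (d J F).G z z' H hl h1
    hl.cls h2 h3 h4 u₀ hu₀
  refine ⟨V₁ × V₂, fun ω => (z₁ ω, z₂ ω), hz₁.join hz₂, ?_⟩
  have k1 : CH (Pool.Agent.H49.Ent.cond F.p A True) w
      (fun ω => (u₀ ω, ((z₁ ω, z₂ ω), y J F ω))) ≤ η₂ * J := by
    refine le_trans (CH_mono_cond h0 fun ω ω' _ _ hh => ?_) g1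
    simp only [Prod.mk.injEq] at hh ⊢
    exact ⟨hh.1, hh.2.1.1, hh.2.2⟩
  have k2 : CH (Pool.Agent.H49.Ent.cond F.p A True)
      (fun ω => ⌊(2 : ℝ) ^ (N * J) * ojet F κ₂ j (G₂ (z' (slam F ⌊v * J⌋₊ ω))) ω⌋)
      (fun ω => (w ω, (u₀ ω, ((z₁ ω, z₂ ω), y J F ω)))) ≤ (η₃ + δ) * J := by
    rw [hw]
    refine le_trans (CH_mono_cond h0 fun ω ω' _ _ hh => ?_) g2
    simp only [Prod.mk.injEq] at hh ⊢
    exact ⟨hh.1, hh.2.1, hh.2.2.1.2, hh.2.2.2⟩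
  have k3 := CH_le_add h0
    (fun ω => ⌊(2 : ℝ) ^ (N * J) * ojet F κ₂ j (G₂ (z' (slam F ⌊v * J⌋₊ ω))) ω⌋) w
    (fun ω => (u₀ ω, ((z₁ ω, z₂ ω), y J F ω)))
  have k4 : (η₂ + (η₃ + δ)) * J = η₂ * J + (η₃ + δ) * J := by ring
  rw [k4]
  linarith only [k1, k2, k3]

/-- **Fewer digits of the jet of the label** `d J F`. -/
theorem fd_dig (htm : TmC S C₀) {I : Finset (Fin m)} {D j : ℕ} {E R p v N N' e η h : ℝ}
    (hl : LbF S d I k D E R v p) (hN : N' ≤ N) (hh : 0 < h)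
    (H : F1 S f (vg a) y Qu (qD m d k j v N) e η) :
    F1 S f (vg a) y Qu (qD m d k j v N') e (η + h) := by
  obtain ⟨M, J₁, hcnt⟩ := cnt_jetX m D j N E R v
  obtain ⟨L, hL⟩ : ∃ L : ℝ, L = Real.log (2 * ((⌈2 * (1 : ℝ)⌉₊ + 1 : ℕ) : ℝ) + 1) := ⟨_, rfl⟩
  obtain ⟨J₀, hJ₀⟩ := exists_nat_ge (L / h)
  intro K
  refine Bas.mono (max J₁ J₀) (((H (K + M)).and hl).and (Pool.GRW.tmc_bas htm one_pos)) ?_
  rintro J hJ F A ⟨⟨H, hlb⟩, hA, -⟩ u u' hu ⟨-, hu'⟩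
  have hJ0 : (0 : ℝ) ≤ J := Nat.cast_nonneg J
  have hJr : (J₀ : ℝ) ≤ J := by exact_mod_cast (le_max_right J₁ J₀).trans hJ
  have hLJ : L ≤ h * J := by
    have := hJ₀.trans hJr
    rw [div_le_iff₀ hh] at this
    linarith
  have hcl := isLaw_cond F.isLaw hA
  have h0 := hcl.nonneg
  obtain ⟨X, hX⟩ : ∃ X : F.Ω → ℝ, X = fun ω => ojet F k j
    ((d J F).G ((d J F).z' (slam F ⌊v * J⌋₊ ω))) ω := ⟨_, rfl⟩
  obtain ⟨w, hw⟩ : ∃ w : F.Ω → ℤ, w = fun ω => ⌊(2 : ℝ) ^ (N * J) * X ω⌋ := ⟨_, rfl⟩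
  have hNJ : N' * J ≤ N * J := mul_le_mul_of_nonneg_right hN hJ0
  have hvP : (qD m d k j v N).P (K + M) e J F A w := by
    refine ⟨?_, fun ω _ => by rw [hw, hX]; rfl⟩
    rw [hw, hX]
    refine (hcnt J ((le_max_left _ _).trans hJ) F _ k _ A _ _ _ _ hlb).trans (Real.exp_le_exp.2
      (mul_le_mul_of_nonneg_right ?_ hJ0))
    exact_mod_cast (by omega : M ≤ K + M)
  obtain ⟨V₁, z₁, hz₁, g1⟩ := H u w (Qu.mono (by omega) le_rfl hu) hvP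
  refine ⟨V₁, z₁, hz₁, ?_⟩
  have g2 := CH_le_add h0 u' w (fun ω => (u ω, (z₁ ω, y J F ω)))
  have g3 : CH (Pool.Agent.H49.Ent.cond F.p A True) u'
      (fun ω => (w ω, (u ω, (z₁ ω, y J F ω)))) ≤ L := by
    have g4 := CH_phi hcl (fun ω => (2 : ℝ) ^ (N' * J) * X ω)
      (fun ω => (w ω, (u ω, (z₁ ω, y J F ω))))
      (fun g => (2 : ℝ) ^ (N' * J - N * J) * (g.1 : ℝ)) (C := 1) (fun ω => by
        have e1 := Int.floor_le ((2 : ℝ) ^ (N * J) * X ω)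
        have e2 := Int.lt_floor_add_one ((2 : ℝ) ^ (N * J) * X ω)
        have e3 : (2 : ℝ) ^ (N' * J) = 2 ^ (N' * J - N * J) * 2 ^ (N * J) := by
          rw [← Real.rpow_add (by norm_num)]
          congr 1
          ring
        have e4 : (0 : ℝ) < 2 ^ (N' * J - N * J) := Real.rpow_pos_of_pos (by norm_num) _
        have e5 : (2 : ℝ) ^ (N' * J - N * J) ≤ 1 :=
          Real.rpow_le_one_of_one_le_of_nonpos (by norm_num) (by linarith)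
        rw [hw]
        dsimp only
        rw [e3, mul_assoc, ← mul_sub, abs_mul, abs_of_pos e4]
        have e6 : |(2 : ℝ) ^ (N * J) * X ω - (⌊(2 : ℝ) ^ (N * J) * X ω⌋ : ℝ)| ≤ 1 := by
          rw [abs_le]
          constructor <;> linarith
        calc (2 : ℝ) ^ (N' * J - N * J) * |(2 : ℝ) ^ (N * J) * X ω -
              (⌊(2 : ℝ) ^ (N * J) * X ω⌋ : ℝ)| ≤ 1 * 1 :=
              mul_le_mul e5 e6 (abs_nonneg _) zero_le_one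
          _ = 1 := one_mul 1)
    rw [← hL] at g4
    refine le_trans (CH_mono_left h0 fun ω ω' hω hω' hh => ?_) g4
    rw [hu' ω (of_cond_pos hω), hu' ω' (of_cond_pos hω')]
    have := (Prod.ext_iff.mp hh).1
    rw [hX] at this
    exact this
  have g5 : (η + h) * J = η * J + h * J := by ring
  rw [g5]
  linarith only [g1, g2, g3, hLJ]

end

section

variable {m : ℕ} {S : PCl m} {C₀ : ℝ} {c : ℕ → Fin m} {r : ℕ} {sn : ℕ → ℝ → ℝ} {G : Set ℝ}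
  {v w X φ lam kf e₁ X' φ' lam' kf' : ℝ} {v₀ v₀' pf : ℕ → ℝ} {Nf : ℕ → ℕ → ℝ} {K : ℕ} {U₀ : Type}
  {Q : Qt m U₀}

/-- **The jets of the second labels of a family of pairs** from the jet of the label `d J F`; the
near digits of two sizes. -/
theorem fwn_of_jd (H : JfN r sn G v w X' φ' lam' kf' v₀' K) (htm : TmC S C₀)
    (hch : ChG S c (r + 1) sn G) (hr : 1 ≤ r)
    (hA : JetA S (fun J F => ptr F J) (vg w) (fun _ F => F.T) Q c 0 r v (fun i => sn i v)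
      (nX r sn v X') e₁) {Ψ : Fm2 m} {n E rd : ℕ → ℝ} {I₂ : Finset (Fin m)} {κ₂ : Fin m}
    {e E₂ r₂ p₂ : ℝ} (hΨ : PsL Ψ c r K I₂ κ₂ v lam e E₂ r₂ p₂ E rd (fun i => sn i v) n)
    {vn En Rn Pn : ℝ} {K₁ : ℕ} {d : ∀ (J : ℕ) (F : Fam m J), LbD F}
    (hD : DcpD Ψ d ((range r).image c) I₂ κ₂ K₁ vn v En Rn Pn e)
    {j : ℕ} {N : ℝ} (hP0 : 2 * e ≤ min Pn p₂)
    (h3 : N + j * v + 3 * φ' ≤ min Pn p₂ + X') {η h : ℝ} (he0 : 0 < e)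
    (he1 : 2 * e ≤ e₁) (he : 2 * e ≤ φ' / 8) (hh : 0 < h)
    (hJ : F1 S (fun J F => ptr F J) (vg w) (fun _ F => F.T) Q (qD m d κ₂ j vn N) e η) :
    Fw2 S (fun J F => ptr F J) w (fun _ F => F.T) Q Ψ (τ := fun _ _ _ _ => ℤ)
      (fun J F _ _ z' _ G₂ _ ω => ⌊(2 : ℝ) ^ (N * J) * ojet F κ₂ j
        (G₂ (z' (slam F ⌊v * J⌋₊ ω))) ω⌋) e (η + h) := by
  have hk : c 0 ∈ (range r).image c := Finset.mem_image_of_mem c (Finset.mem_range.2 (by omega))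
  have h1 := H.selfv htm hch hA hk (j := j) (P := min Pn p₂) (N := N) h3
    (e := 2 * e) (h := h / 3) (by linarith) he1 he (by linarith)
  have h4 := fw_of_fd (κ₂ := κ₂) (I₂ := I₂) (N := N) (j := j) htm hk (e' := 2 * e)
    (K := K) (K₁ := K₁) (E₂ := E₂) (r₂ := r₂) (p₂ := p₂) he0 le_rfl hP0 (min_le_left _ _)
    (min_le_right _ _) (δ := h / 3) (by linarith) h1
    (fun J F A V C z z' G₁ G₂ cc h1 => (hΨ.1 J F A V C z z' G₁ G₂ cc h1).2) hD hJ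
  exact h4.mono (by linarith)

end

end Pool.PN18
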