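import Pool.Agent.H18.PN.Stg5

/-!
# Stages for pairs whose second path has the larger slope

`Ip2.swap`: the exchanged families. `pk_rb2s`: `pk_rb2` for `α₁ < α₂`. `stg_Xs`: `stg_X`
for `α₁ < α₂`.
-/

set_option autoImplicit false

namespace Pool.PN18

open Finset Real MvPolynomial
open Pool.Agent.H49.Ent Pool.Agent.H32.Dense Pool.STK Pool.KA Pool.KSAT Pool.K2S Pool.PB Pool.GEN
open Pool.S6C Pool.RCD Pool.LA91 Pool.OWN68 Pool.AJW Pool.AJX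
open Pool.GRD (LbP)
open Pool.ALT (Fml)
open Pool.LPK12 (Ip2 lpk_rb)

/-- **(I')** for the exchanged pairs. -/
theorem _root_.Pool.LPK12.Ip2.swap {m : ℕ} {S : PCl m} {C₀ : ℝ} (htm : TmC S C₀)
    {α γ : ∀ J : ℕ, Fam m J → Type}
    {f : ∀ (J : ℕ) (F : Fam m J), F.Ω → α J F} {a : ℝ}
    {y : ∀ (J : ℕ) (F : Fam m J), F.Ω → γ J F} {U₀ : Type} {Qu : Qt m U₀} {Ψ : Fm2 m}
    {κ₁ κ₂ : Fin m} {w n₁ n₂ : ℝ} {i₁ i₂ : ℕ} {e δ : ℝ}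
    (h : Ip2 S f a y Qu Ψ κ₁ κ₂ w n₁ n₂ i₁ i₂ e δ) :
    Ip2 S f a y Qu Ψ.swap κ₂ κ₁ w n₂ n₁ i₂ i₁ e δ := by
  intro K₀
  refine Bas.mono 0 ((h K₀).and (Pool.GRW.tmc_bas htm (ψ := 1) one_pos)) ?_
  rintro J - F A ⟨H, hA, -⟩ V C z z' G₁ G₂ c hΨ u₀ hu₀ V₁ z₁ hz₁
  have H1 := H V C z z' G₂ G₁ c hΨ u₀ hu₀ V₁ z₁ hz₁
  have hl : IsLaw (Pool.Agent.H49.Ent.cond F.p A True) := isLaw_cond F.isLaw hA
  have hsw : ∀ {U₁ U₂ W : Type} (x : F.Ω → U₁) (y : F.Ω → U₂) (w : F.Ω → W),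
      CH (Pool.Agent.H49.Ent.cond F.p A True) (fun ω => (x ω, y ω)) w ≤
        CH (Pool.Agent.H49.Ent.cond F.p A True) (fun ω => (y ω, x ω)) w := by
    intro U₁ U₂ W x y w
    refine CH_mono_left hl.nonneg fun ω ω' _ _ e => ?_
    simp only [Prod.mk.injEq] at e ⊢
    exact ⟨e.1.2, e.1.1⟩
  exact (hsw _ _ _).trans (H1.trans (add_le_add (hsw _ _ _) le_rfl))

/-- **The own paths of a jointly nonfull pair of labels**, at most one alive order on each path; the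
second path of the larger slope; (I') and the conclusion for the labels of a smaller family. -/
theorem pk_rb2s (K : ℕ) {Iu In : Finset ℕ} (hu : ∀ i ∈ Iu, 1 ≤ i ∧ i ≤ K + 2)
    (hn : ∀ j ∈ In, 1 ≤ j ∧ j ≤ K + 2) (hu1 : Iu.card ≤ 1) (hn1 : In.card ≤ 1) {α₁ α₂ : ℝ}
    (hα₁ : 0 < α₁) (hα : α₁ < α₂) {h : ℝ} (hh : 0 < h) (hh2 : h ≤ α₁) {ε : ℝ} (hε : 0 < ε) :
    ∃ δ : ℝ, 0 < δ ∧ ∃ N₀ : ℕ, 0 < N₀ ∧
    ∀ {m : ℕ} {S : PCl m} {C₀ : ℝ} (_ : TmC S C₀) {κ₁ κ₂ : Fin m} {w a p₁ p₂ q : ℝ} (_ : 0 ≤ w)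
    (_ : w ≤ a) (_ : a ≤ 1) (_ : 0 < q) (_ : w + 2 * (α₁ + α₂) * q ≤ 1)
    {U₀ : Type} {Qu : Qt m U₀} {α γ : ∀ J : ℕ, Fam m J → Type}
    {f : ∀ (J : ℕ) (F : Fam m J), F.Ω → α J F} {y : ∀ (J : ℕ) (F : Fam m J), F.Ω → γ J F}
    (_ : ∀ (J : ℕ) (F : Fam m J), ∃ φ : α J F → PtT F, ∀ ω, ptr F J ω = φ (f J F ω))
    (_ : ∀ (J : ℕ) (F : Fam m J), ∃ φ : γ J F → ℕ, ∀ ω, F.T ω = φ (y J F ω))
    {e : ℝ} (Ψ : Fm2 m)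
    (_ : ∀ (J : ℕ) (F : Fam m J) (A : F.Ω → Prop) (V C : Type) (z : PtT F → V) (z' : LnT F → V)
      (G₁ G₂ : V → MvPolynomial (Option (Fin m)) ℝ) (c : LnT F → C), Ψ J F A V C z z' G₁ G₂ c →
      (∀ v, (G₁ v).totalDegree ≤ K + 1) ∧ (∀ v, (G₂ v).totalDegree ≤ K + 1) ∧
      ∀ ω, A ω → z (ptr F J ω) = z' (slam F ⌊w * J⌋₊ ω))
    (_ : ∀ (J : ℕ) (F : Fam m J) (A B : F.Ω → Prop) (V C : Type) (z : PtT F → V)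
      (z' : LnT F → V) (G₁ G₂ : V → MvPolynomial (Option (Fin m)) ℝ) (c : LnT F → C), Sub B A →
      Ψ J F A V C z z' G₁ G₂ c → Ψ J F B V C z z' G₁ G₂ c) {Ψ' : Fm2 m}
    (_ : ∀ (J : ℕ) (F : Fam m J) (A : F.Ω → Prop) (V C : Type) (z : PtT F → V)
      (z' : LnT F → V) (G₁ G₂ : V → MvPolynomial (Option (Fin m)) ℝ) (c : LnT F → C),
      Ψ' J F A V C z z' G₁ G₂ c → Ψ J F A V C z z' G₁ G₂ c) {N₁ N₂ : ℕ → ℝ},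
    NwE (K + 2) Iu w p₁ α₁ q N₁ → NwE (K + 2) In w p₂ α₂ q N₂ →
    (∀ i₁ ∈ Iu, ∀ i₂ ∈ In, (i₁ : ℝ) * α₂ = i₂ * α₁ → Ip2 S f a y Qu Ψ' κ₁ κ₂ w
      (p₁ + α₁ * q - i₁ * w) (p₂ + α₂ * q - i₂ * w) i₁ i₂ e (δ * q)) →
    Fw2 S f a y Qu Ψ (τ := fun _ _ _ C => C) (fun J F _ _ _ _ _ c ω => c (vg w J F ω)) e (δ * q) →
    Rw2 S Ψ κ₁ κ₂ w p₁ p₂ α₁ α₂ q h (δ * q) N₀ →
    Rw2 S Ψ.swap κ₂ κ₁ w p₂ p₁ α₂ α₁ q h (δ * q) N₀ →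
    (∀ j ≤ K + 2, Fw2 S f a y Qu Ψ (τ := fun _ _ _ _ => ℤ)
      (fun J F _ _ z' G₁ _ _ ω => ⌊(2 : ℝ) ^ (N₁ j * J) * ojet F κ₁ j
        (G₁ (z' (slam F ⌊w * J⌋₊ ω))) ω⌋) e (δ * q)) →
    (∀ j ≤ K + 2, Fw2 S f a y Qu Ψ (τ := fun _ _ _ _ => ℤ)
      (fun J F _ _ z' _ G₂ _ ω => ⌊(2 : ℝ) ^ (N₂ j * J) * ojet F κ₂ j
        (G₂ (z' (slam F ⌊w * J⌋₊ ω))) ω⌋) e (δ * q)) →
    Fw2 S f a y Qu Ψ' (τ := fun _ F V C => (V × (F.ζ × ℕ)) × (C ×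
        ((Fin (K + 3) → ℤ) × (Fin (K + 3) → ℤ))))
      (fun J F _ _ z' G₁ G₂ c ω => ((z' (vg w J F ω), (vg w J F ω).2), (c (vg w J F ω),
        (fun j : Fin (K + 3) => ⌊jr F ⌊w * J⌋₊ (2 ^ ((p₁ + α₁ * q) * J)) κ₁ z' G₁ j
            (vg w J F ω)⌋,
          fun j : Fin (K + 3) => ⌊jr F ⌊w * J⌋₊ (2 ^ ((p₂ + α₂ * q) * J)) κ₂ z' G₂ j
            (vg w J F ω)⌋)))) e (ε * q) := by
  obtain ⟨δ, hδ, N₀, hN₀, H⟩ := pk_rb2 K hn hu hn1 hu1 hα₁ hα hh hh2 hε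
  refine ⟨δ, hδ, N₀, hN₀, ?_⟩
  intro m S C₀ htm κ₁ κ₂ w a p₁ p₂ q hw0 hwa ha hq hwq U₀ Qu α γ f y hf hy e Ψ hΨl hΨ Ψ' hle N₁
    N₂ hN1 hN2 hIp hc hr1 hr2 hj1 hj2
  have H1 := H htm (κ₁ := κ₂) (κ₂ := κ₁) (w := w) (a := a) (p₁ := p₂) (p₂ := p₁) (q := q) hw0 hwa ha
    hq (by rw [add_comm α₂ α₁]; exact hwq) hf hy (e := e) Ψ.swap
    (fun J F A V C z z' G₁ G₂ c h => by
      obtain ⟨h1, h2, h3⟩ := hΨl J F A V C z z' G₂ G₁ c h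
      exact ⟨h2, h1, h3⟩)
    (fun J F A B V C z z' G₁ G₂ c hB h => hΨ J F A B V C z z' G₂ G₁ c hB h)
    (Ψ' := Ψ'.swap) (fun J F A V C z z' G₁ G₂ c h => hle J F A V C z z' G₂ G₁ c h) hN2 hN1
    (fun i₂ hi₂ i₁ hi₁ e => (hIp i₁ hi₁ i₂ hi₂ e.symm).swap htm) hc.swap hr2 hr1
    (fun j hj => (hj2 j hj).swap) (fun j hj => (hj1 j hj).swap)
  intro K₀
  refine Bas.mono 0 ((H1 K₀).and (Pool.GRW.tmc_bas htm (ψ := 1) one_pos)) ?_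
  rintro J - F A ⟨H2, hA, -⟩ V C z z' G₁ G₂ c hΨ' u₀ hu₀
  obtain ⟨V₁, z₁, h1, h2⟩ := H2 V C z z' G₂ G₁ c hΨ' u₀ hu₀
  have hl : IsLaw (Pool.Agent.H49.Ent.cond F.p A True) := isLaw_cond F.isLaw hA
  refine ⟨V₁, z₁, h1, le_trans (CH_mono_left hl.nonneg fun ω ω' _ _ e => ?_) h2⟩
  simp only [Prod.mk.injEq] at e ⊢
  exact ⟨e.1.1, e.1.2.1, e.1.2.2.2, e.1.2.2.1⟩

/-- **A stage**: the own paths of a jointly nonfull pair, at most one alive order each, the second path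
of the larger slope. -/
theorem stg_Xs (K : ℕ) {Iu In : Finset ℕ} (hu : ∀ i ∈ Iu, 1 ≤ i ∧ i ≤ K + 2)
    (hn : ∀ j ∈ In, 1 ≤ j ∧ j ≤ K + 2) (hu1 : Iu.card ≤ 1) (hn1 : In.card ≤ 1) {α₁ α₂ : ℝ}
    (hα₁ : 0 < α₁) (hα : α₁ < α₂) {h : ℝ} (hh : 0 < h) (hh2 : h ≤ α₁) {ε : ℝ} (hε : 0 < ε) :
    ∃ δ : ℝ, 0 < δ ∧ ∃ N₀ : ℕ, 0 < N₀ ∧
    ∀ {m : ℕ} {S : PCl m} {C₀ : ℝ} (_ : TmC S C₀) {c : ℕ → Fin m} {r₀ r : ℕ} {κ₂ : Fin m}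
    {I₂ : Finset (Fin m)} {v w lam q ρ g₀ p₂ E₂ r₂ : ℝ} {E p s n lv rd : ℕ → ℝ} (_ : 0 < q)
    (_ : JetX S c r₀ r v w lam (α₁ * q) ρ g₀ E p s n lv rd K)
    (_ : v + 2 * (α₁ + α₂) * q ≤ 1)
    {U₀ : Type} {Qu : Qt m U₀} {α γ : ∀ J : ℕ, Fam m J → Type}
    {f : ∀ (J : ℕ) (F : Fam m J), F.Ω → α J F} {y : ∀ (J : ℕ) (F : Fam m J), F.Ω → γ J F}
    (_ : ∀ (J : ℕ) (F : Fam m J), ∃ φ : α J F → PtT F, ∀ ω, ptr F J ω = φ (f J F ω))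
    (_ : Kn ((range r₀).image c) (v + lam) lam y) {a e : ℝ} (_ : w ≤ a) (_ : a ≤ 1)
    (_ : 0 < e) (_ : e ≤ ρ / 8) (_ : e ≤ δ * q / 8)
    (_ : FwX S f (vg a) y Qu c r₀ (r + 1) K E v rd p (ctx c r₀ r K v lam n) e (δ * q))
    {Ψ Ψ' : Fm2 m},
    (∀ (J : ℕ) (F : Fam m J) (A : F.Ω → Prop) (V C : Type) (z : PtT F → V) (z' : LnT F → V)
      (G₁ G₂ : V → MvPolynomial (Option (Fin m)) ℝ) (cc : LnT F → C),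
      Ψ J F A V C z z' G₁ G₂ cc → (∃ g : V → ℕ → MvPolynomial (Option (Fin m)) ℝ,
        LbX F c r₀ (r + 1) K e E v rd p A z z' g ∧ G₁ = (fun v => g v r) ∧
        ∃ φ : C → (Fin m → ℤ × ℤ) × (ℕ → ℕ → ℤ), ∀ x,
          ctxN F c r₀ r ⌊v * J⌋₊ ⌊(v + lam) * J⌋₊ K z' g n x = φ (cc x)) ∧
      LbOK F I₂ κ₂ K ⌊E₂ * J⌋₊ J ⌊v * J⌋₊ ⌊r₂ * J⌋₊ ⌊(p₂ - e) * J⌋₊ A z z' G₂) →
    (∀ (J : ℕ) (F : Fam m J) (A B : F.Ω → Prop) (V C : Type) (z : PtT F → V)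
      (z' : LnT F → V) (G₁ G₂ : V → MvPolynomial (Option (Fin m)) ℝ) (c : LnT F → C), Sub B A →
      Ψ J F A V C z z' G₁ G₂ c → Ψ J F B V C z z' G₁ G₂ c) →
    (∀ (J : ℕ) (F : Fam m J) (A : F.Ω → Prop) (V C : Type) (z : PtT F → V)
      (z' : LnT F → V) (G₁ G₂ : V → MvPolynomial (Option (Fin m)) ℝ) (c : LnT F → C),
      Ψ' J F A V C z z' G₁ G₂ c → Ψ J F A V C z z' G₁ G₂ c) →
    (∀ i₁ ∈ Iu, ∀ i₂ ∈ In, (i₁ : ℝ) * α₂ = i₂ * α₁ → Ip2 S f a y Qu Ψ' (c r) κ₂ v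
      (p r + α₁ * q - i₁ * v) (p₂ + α₂ * q - i₂ * v) i₁ i₂ e (δ * q)) →
    Fw2 S f a y Qu Ψ (τ := fun _ _ _ C => C) (fun J F _ _ _ _ _ c ω => c (vg v J F ω)) e (δ * q) →
    Rw2 S Ψ (c r) κ₂ v (p r) p₂ α₁ α₂ q h (δ * q) N₀ →
    Rw2 S Ψ.swap κ₂ (c r) v p₂ (p r) α₂ α₁ q h (δ * q) N₀ →
    (∀ j ≤ K + 2, 1 ≤ j → j ∉ Iu → Fw2 S f a y Qu Ψ (τ := fun _ _ _ _ => ℤ)
      (fun J F _ _ z' G₁ _ _ ω => ⌊(2 : ℝ) ^ ((p r + α₁ * q - j * v) * J) * ojet F (c r) j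
        (G₁ (z' (slam F ⌊v * J⌋₊ ω))) ω⌋) e (δ * q)) →
    (∀ j ≤ K + 2, j ∉ In → Fw2 S f a y Qu Ψ (τ := fun _ _ _ _ => ℤ)
      (fun J F _ _ z' _ G₂ _ ω => ⌊(2 : ℝ) ^ ((p₂ + α₂ * q - j * v) * J) * ojet F κ₂ j
        (G₂ (z' (slam F ⌊v * J⌋₊ ω))) ω⌋) e (δ * q)) →
    Fw2 S f a y Qu Ψ' (τ := fun _ F V C => (V × (F.ζ × ℕ)) × (C ×
        ((Fin (K + 3) → ℤ) × (Fin (K + 3) → ℤ))))
      (fun J F _ _ z' G₁ G₂ cc ω => ((z' (vg v J F ω), (vg v J F ω).2), (cc (vg v J F ω),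
        (fun j : Fin (K + 3) => ⌊jr F ⌊v * J⌋₊ (2 ^ ((p r + α₁ * q) * J)) (c r) z' G₁ j
            (vg v J F ω)⌋,
          fun j : Fin (K + 3) => ⌊jr F ⌊v * J⌋₊ (2 ^ ((p₂ + α₂ * q) * J)) κ₂ z' G₂ j
            (vg v J F ω)⌋)))) e (ε * q) := by
  classical
  obtain ⟨δ₁, hδ₁, N₀, hN₀, H⟩ := pk_rb2s K hu hn hu1 hn1 hα₁ hα hh hh2 hε
  have hα₂ : 0 < α₂ := hα₁.trans hα
  refine ⟨δ₁ / 2, by positivity, N₀, hN₀, ?_⟩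
  intro m S C₀ htm c r₀ r κ₂ I₂ v w lam q ρ g₀ p₂ E₂ r₂ E p s n lv rd hq HW hvq U₀ Qu α γ f y hf
    hy a e hwa ha he h8e hδe hctx Ψ Ψ' hΨ hsub hle hIp hcc hr1 hr2 hj1 hj2
  have hρ := HW.ρ0
  have hv0 := HW.v0
  have hvw := HW.vw
  have hδq : 0 < δ₁ * q := by positivity
  have hv1 : v < 1 := by
    have h1 : 0 < 2 * (α₁ + α₂) * q := by positivity
    linarith only [h1, hvq]
  have hy0 : Kn0 ((range r₀).image c) (v + lam) y := by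
    intro J F
    obtain ⟨φ, hφ⟩ := hy J F
    exact ⟨fun x => ((φ x).1, (φ x).2.1), fun ω => by
      show ((φ (y J F ω)).1, (φ (y J F ω)).2.1) = _
      rw [hφ ω]⟩
  have hyT : ∀ (J : ℕ) (F : Fam m J), ∃ φ : γ J F → ℕ, ∀ ω, F.T ω = φ (y J F ω) := by
    intro J F
    obtain ⟨φ, hφ⟩ := hy J F
    exact ⟨fun x => (φ x).1, fun ω => (congrArg Prod.fst (hφ ω)).symm⟩
  have hlb1 : ∀ (J : ℕ) (F : Fam m J) (A : F.Ω → Prop) (V C : Type) (z : PtT F → V)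
      (z' : LnT F → V) (G₁ G₂ : V → MvPolynomial (Option (Fin m)) ℝ) (cc : LnT F → C),
      Ψ J F A V C z z' G₁ G₂ cc → LbOK F ((range r).image c) (c r) K ⌊(E r + e) * J⌋₊ J ⌊v * J⌋₊
        ⌊(rd r + e) * J⌋₊ ⌊(p r - e) * J⌋₊ A z z' G₁ := by
    intro J F A V C z z' G₁ G₂ cc h1
    obtain ⟨⟨g, hlb, rfl, -⟩, -⟩ := hΨ J F A V C z z' G₁ G₂ cc h1
    exact hlb r HW.hr (Nat.lt_succ_self r)
  have hlb2 : ∀ (J : ℕ) (F : Fam m J) (A : F.Ω → Prop) (V C : Type) (z : PtT F → V)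
      (z' : LnT F → V) (G₁ G₂ : V → MvPolynomial (Option (Fin m)) ℝ) (cc : LnT F → C),
      Ψ J F A V C z z' G₁ G₂ cc → LbOK F I₂ κ₂ K ⌊E₂ * J⌋₊ J ⌊v * J⌋₊
        ⌊r₂ * J⌋₊ ⌊(p₂ - e) * J⌋₊ A z z' G₂ :=
    fun J F A V C z z' G₁ G₂ cc h1 => (hΨ J F A V C z z' G₁ G₂ cc h1).2
  have h12 : δ₁ / 2 * q ≤ δ₁ * q := by linarith only [hδq]
  -- the value of the first label
  have hval := HW.valb htm hwa ha hf hy0 (e := e) he h8e hctx (δ₂ := δ₁ * q)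
    (by linarith only [hδq, hδe])
  have hval' : Fw2 S f a y Qu Ψ (τ := fun _ _ _ _ => ℤ)
      (fun J F _ _ z' G₁ _ _ ω => ⌊(2 : ℝ) ^ ((p r + α₁ * q) * J) * ojet F (c r) 0
        (G₁ (z' (slam F ⌊v * J⌋₊ ω))) ω⌋) e (δ₁ * q) := by
    intro K₀
    refine Bas.mono 0 (hval K₀) ?_
    rintro J - F A h1 V C z z' G₁ G₂ cc hΨ' u₀ hu₀
    obtain ⟨⟨g, hlb, rfl, -⟩, -⟩ := hΨ J F A V C z z' G₁ G₂ cc hΨ'
    exact h1 V z z' g hlb u₀ hu₀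
  obtain ⟨N₁, hN₁⟩ : ∃ N₁ : ℕ → ℝ, N₁ = fun j => if j ∈ Iu then p r - j * v else
    p r + α₁ * q - j * v := ⟨_, rfl⟩
  obtain ⟨N₂, hN₂⟩ : ∃ N₂ : ℕ → ℝ, N₂ = fun j => if j ∈ In then p₂ - j * v else
    p₂ + α₂ * q - j * v := ⟨_, rfl⟩
  refine H htm (κ₁ := c r) (κ₂ := κ₂) (w := v) (a := a) (p₁ := p r) (p₂ := p₂) (q := q) hv0
    (hvw.trans hwa) ha hq hvq (Qu := Qu) hf hyT (e := e) Ψ
    (fun J F A V C z z' G₁ G₂ cc h1 => ⟨fun v => ((hlb1 J F A V C z z' G₁ G₂ cc h1).deg v).trans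
      (by omega), fun v => ((hlb2 J F A V C z z' G₁ G₂ cc h1).deg v).trans (by omega),
      (hlb2 J F A V C z z' G₁ G₂ cc h1).cls⟩) hsub hle (N₁ := N₁) (N₂ := N₂)
    ⟨fun j hj => by rw [hN₁]; simp only [hj, if_true, le_refl],
      fun j _ hj => by rw [hN₁]; simp only [hj, if_false, le_refl]⟩
    ⟨fun j hj => by rw [hN₂]; simp only [hj, if_true, le_refl],
      fun j _ hj => by rw [hN₂]; simp only [hj, if_false, le_refl]⟩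
    (fun i₁ h1 i₂ h2 h3 => ?_) (hcc.mono h12) ?_ ?_ ?_ ?_
  · intro K₀
    refine Bas.mono 0 (hIp i₁ h1 i₂ h2 h3 K₀) ?_
    intro J _ F A H V C z z' G₁ G₂ cc hΨ' u₀ hu₀ V₁ z₁ hz₁
    refine (H V C z z' G₁ G₂ cc hΨ' u₀ hu₀ V₁ z₁ hz₁).trans ?_
    have h4 := mul_le_mul_of_nonneg_right h12 (Nat.cast_nonneg (α := ℝ) J)
    linarith only [h4]
  · intro i j hij hj
    refine Bas.mono 0 (hr1 i j hij hj) ?_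
    rintro J - F A h1 V C z z' G₁ G₂ cc hΨ'
    refine (h1 V C z z' G₁ G₂ cc hΨ').trans (mul_le_mul_of_nonneg_right ?_ (Nat.cast_nonneg J))
    linarith only [h12]
  · intro i j hij hj
    refine Bas.mono 0 (hr2 i j hij hj) ?_
    rintro J - F A h1 V C z z' G₁ G₂ cc hΨ'
    refine (h1 V C z z' G₁ G₂ cc hΨ').trans (mul_le_mul_of_nonneg_right ?_ (Nat.cast_nonneg J))
    linarith only [h12]
  · intro i hi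
    by_cases hiI : i ∈ Iu
    · have e1 : N₁ i = p r - i * v := by rw [hN₁]; simp only [hiI, if_true]
      rw [e1]
      exact fw2_natX htm hv0 hv1 hδq (by linarith only [hδe, hδq]) hlb1
    · rcases Nat.eq_zero_or_pos i with h0 | h0
      · subst h0
        have e1 : N₁ 0 = p r + α₁ * q := by
          rw [hN₁]
          simp only [hiI, if_false, Nat.cast_zero, zero_mul, sub_zero]
        rw [e1]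
        exact hval'
      · have e1 : N₁ i = p r + α₁ * q - i * v := by rw [hN₁]; simp only [hiI, if_false]
        rw [e1]
        exact (hj1 i hi h0 hiI).mono h12
  · intro i hi
    by_cases hiI : i ∈ In
    · have e1 : N₂ i = p₂ - i * v := by rw [hN₂]; simp only [hiI, if_true]
      rw [e1]
      exact (fw2_natX htm hv0 hv1 hδq (by linarith only [hδe, hδq]) (Ψ := Ψ.swap) (Er := E₂)
        (Rr := r₂) (fun J F A V C z z' G₁ G₂ cc h1 => hlb2 J F A V C z z' G₂ G₁ cc h1)).swap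
    · have e1 : N₂ i = p₂ + α₂ * q - i * v := by rw [hN₂]; simp only [hiI, if_false]
      rw [e1]
      exact (hj2 i hi hiI).mono h12

end Pool.PN18
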