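import Pool.Agent.H99.D2.Fzi
import Pool.Agent.H33.PN.Box

/-!
# The natural jets of the label `d J F` at a window between `v` and `w`

`JfN.selfx`: as `JfN.selfw` at a window `x` between `v` and `w`. `nat_fdx`: as `nat_fd`. `nat_few`: the
jets of the label `d J F` natural at `x`, given the near path at `y ≤ x`.
-/

set_option autoImplicit false

namespace Pool.PN18

open Finset Real MvPolynomial
open Pool.Agent.H49.Ent Pool.Agent.H32.Dense Pool.STK Pool.KA Pool.KSAT Pool.K2S Pool.PB Pool.GEN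
open Pool.S6C Pool.RCD Pool.LA91 Pool.OWN68 Pool.AJW Pool.AJX Pool.CHT Pool.PKG Pool.TWO28
open Pool.LP30 (paQ)
open Pool.ALT (Fml NzQ NzF NzL NzO nzG floorw wz wz_slam sbu sbu_deg sbu_dep DpI DpI.sub)
open Pool.CR99 (NzE)

/-- **The jets of a closed polynomial over the chain** at a window `x` between `v` and `w`. -/
theorem _root_.Pool.AJW.JfN.selfx {m : ℕ} {S : PCl m} {C₀ : ℝ} {c : ℕ → Fin m} {r : ℕ}
    {sn : ℕ → ℝ → ℝ} {G : Set ℝ} {v w x X φ lam kf e₁ : ℝ} {v₀ : ℕ → ℝ} {K : ℕ} {U₀ : Type}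
    {Q : Qt m U₀} (H : JfN r sn G v w X φ lam kf v₀ K) (htm : TmC S C₀)
    (hch : ChG S c (r + 1) sn G) (hxG : x ∈ G) (hvx : v ≤ x) (hxw : x ≤ w)
    (hfx : ∀ i < r, |sn i x - sn i v - (x - v)| ≤ φ)
    (hA : JetA S (fun J F => ptr F J) (vg x) (fun _ F => F.T) Q c 0 r v (fun i => sn i v)
      (nX r sn v X) e₁) {k : Fin m} (hk : k ∈ (range r).image c) {j : ℕ} {P N : ℝ}
    (h3 : N + j * x + 3 * φ + (x - v) ≤ P + X) {e h : ℝ} (he0 : 0 < e)
    (he1 : e ≤ e₁) (he : e ≤ φ / 8) (hh : 0 < h) :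
    F1 S (fun J F => ptr F J) (vg x) (fun _ F => F.T) Q
      (qJet m ((range r).image c) k j x P N) e h := by
  obtain ⟨uw, rw, hrw, hcw⟩ := hch.ch x hxG
  have hvw := H.vw
  have hφ := H.φ0
  have hX0 := H.X0
  have hlX := H.lamX
  have hφX := H.φX
  have hXK := H.XK
  have hrφ : 0 ≤ (r : ℝ) * φ := mul_nonneg (Nat.cast_nonneg r) hφ.le
  have hKD : 0 ≤ (K : ℝ) * (w - v) := mul_nonneg (Nat.cast_nonneg K) (by linarith)
  have hak : ∀ l < r, 3 * aX r X l ≤ kf := fun l hl => (aX_le hX0.le hl).trans H.kfX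
  have hfl : ∀ i < r, sn i v + (x - v) - φ ≤ sn i x ∧ sn i x ≤ sn i v + (x - v) + φ :=
    fun i hi => by
      have := abs_le.1 (hfx i hi)
      exact ⟨by linarith [this.1], by linarith [this.2]⟩
  have hmn : ∀ i < r, sn i v - φ ≤ min (sn i v) (sn i x) := fun i hi =>
    le_min (by linarith) (by linarith [(hfl i hi).1])
  have hV := F1.qjets' (v := v) (p := fun i => sn i v) (n := nX r sn v X) (r₀ := 0) (r := r)
    (c := c) htm (j := j) (half_pos hh) (fun η' hη' i x y j' _ =>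
      (hA η' hη' i x y j').mono he1 le_rfl)
  have key := self_F2 (w := x) (lv := fun l => aX r X l - (x - v) - 2 * φ) (n := nX r sn v X)
    (p := fun i => sn i v) htm (hcw.take (Nat.zero_le _) (Nat.le_succ r)) hk (j := j)
    (v := v) (lam := lam) (P := P) (N := N)
    (σ := φ) hvx (by linarith) H.l1.le hφ
    (fun i _ _ => by linarith [aX_ge hX0.le (r := r) i]) ?_ ?_ ?_ ?_ ?_ ptr_id (kn_T c _ _)
    (e := e) (η := h / 2) (h := h / 2) he (half_pos hh) he0 (H.exv hch j) hV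
  · refine key.mono le_rfl (by linarith)
  · intro l _ hl
    have h1 := (hfl l hl).2
    show sn l x + (aX r X l - (x - v) - 2 * φ) + φ ≤ nX r sn v X l
    unfold nX
    linarith
  · intro i _ hi
    have h1 := (hfl i hi).2
    have h2 := hmn i hi
    have h3 := hak i hi
    have h4 := aX_ge hX0.le (r := r) i
    have h5 := H.lamk
    show sn i x + (aX r X i - (x - v) - 2 * φ) + φ ≤ min (sn i v) (sn i x) + (v + lam - x)
    linarith
  · intro i _ hi l _ hl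
    have h1 := (hfl i hi).2
    have h2 := hmn i hi
    have h3 := aX_nest hX0.le hl hi
    have h4 := aX_ge hX0.le (r := r) i
    show sn i x + (aX r X i - (x - v) - 2 * φ) + φ ≤ min (sn i v) (sn i x) +
      (aX r X l - (x - v) - 2 * φ)
    linarith
  · linarith
  · intro l _ _
    linarith [aX_ge hX0.le (r := r) l]

/-- **The natural jets of the label** `d J F` at a window `x` between `v` and `w`. -/
theorem nat_fdx {m r D K : ℕ} {S : PCl m} {C₀ : ℝ} (htm : TmC S C₀) (hr : 1 ≤ r) {c : ℕ → Fin m}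
    {sn : ℕ → ℝ → ℝ} {G : Set ℝ} {v vn w x X φ lam kf e₁ : ℝ} {v₀ : ℕ → ℝ} {U₀ : Type}
    {Q : Qt m U₀} (H : JfN r sn G v w X φ lam kf v₀ K) (hch : ChG S c (r + 1) sn G)
    (hxG : x ∈ G) (hvx : v ≤ x) (hxw : x ≤ w) (hfx : ∀ i < r, |sn i x - sn i v - (x - v)| ≤ φ)
    (hA : JetA S (fun J F => ptr F J) (vg x) (fun _ F => F.T) Q c 0 r v (fun i => sn i v)
      (nX r sn v X) e₁) {e : ℝ} (he0 : 0 < e) (he2 : 2 * e ≤ e₁) (he3 : 2 * e ≤ φ / 8)
    -- the base labels and the natural labels at `x`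
    {Ψ₀ : Fml m} {d : ∀ (J : ℕ) (F : Fam m J), LbD F} {En Rn Pn Pn' : ℝ}
    (hΨl : ∀ (J : ℕ) (F : Fam m J) (A : F.Ω → Prop) (V : Type) (z : PtT F → V)
      (z' : LnT F → V) (G : V → MvPolynomial (Option (Fin m)) ℝ), Ψ₀ J F A V z z' G →
      LbOK F ((range (r + 1)).image c) (c (r + 1)) D ⌊En * J⌋₊ J ⌊vn * J⌋₊ ⌊Rn * J⌋₊
        ⌊Pn' * J⌋₊ A z z' G) (hPn : Pn - e ≤ Pn') (hvn : vn ≤ x) {n : ℕ}
    {wv pa₁ pa₂ ea ua pa : ℕ → ℝ}
    (hex : Bas S (fun J F A => ∃ (V : Type) (z : PtT F → V) (z' : LnT F → V)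
      (G : V → MvPolynomial (Option (Fin m)) ℝ),
      Sgl (NzE Ψ₀ c r (c (r + 1)) D vn n wv pa₁ pa₂ ea ua pa) d J F A V z z' G))
    {k : ℕ} (hk : k < n) (hw : wv k = x)
    {j : ℕ} {pt h : ℝ} (hh : 0 < h) (hpt : pt - e ≤ pa k) (hP0 : 2 * e ≤ min Pn pt)
    (h1 : pt + 3 * φ + (x - v) ≤ min Pn pt + X) (heh : e ≤ h / 32) :
    F1 S (fun J F => ptr F J) (vg x) (fun _ F => F.T) Q (qD m d (c (r + 1)) j vn (pt - j * x))
      e h := by
  obtain ⟨uw, rw, hrw, hcw⟩ := hch.ch x hxG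
  have hw0 : 0 ≤ x := hcw.w0
  have hw1 : x < 1 := hcw.u0
  have hh4 : 0 < h / 4 := by positivity
  have heh1 : e ≤ h / 4 / 8 := by linarith
  have hk0 : c 0 ∈ (range r).image c := mem_image_of_mem _ (mem_range.2 hr)
  have hex' : Bas S (fun J F A => ∃ (V C : Type) (z : PtT F → V) (z' : LnT F → V)
      (G₁ G₂ : V → MvPolynomial (Option (Fin m)) ℝ) (cc : LnT F → C),
      NzD Ψ₀ d c r D vn x (pa₁ k) (pa₂ k) (ea k) (ua k) (pa k) J F A V C z z' G₁ G₂ cc) := by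
    refine Bas.mono 0 hex ?_
    rintro J - F A ⟨V, z, z', G, h⟩
    have h2 := h.at
    obtain ⟨Va, Y₁, Y₂, za, za', Ga, Q₁, y₁, y₁', B₁, Q₂, y₂, y₂', B₂, fa, h3⟩ := h2.2 k hk
    rw [hw] at h3
    exact ⟨Va, Unit, za, za', Ga, Ga, fun _ => (), h2.1, Y₁, Y₂, Q₁, y₁, y₁', B₁, Q₂, y₂, y₂', B₂,
      fa, h3⟩
  have hlb : ∀ (J : ℕ) (F : Fam m J) (A : F.Ω → Prop) (V C : Type) (z : PtT F → V) (z' : LnT F → V)
      (G₁ G₂ : V → MvPolynomial (Option (Fin m)) ℝ) (cc : LnT F → C),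
      NzD Ψ₀ d c r D vn x (pa₁ k) (pa₂ k) (ea k) (ua k) (pa k) J F A V C z z' G₁ G₂ cc →
      LbOK F ((range (r + 1)).image c) (c (r + 1)) (max D D * max 1 D) ⌊ea k * J⌋₊ J ⌊x * J⌋₊
        ⌊ua k * J⌋₊ ⌊(pt - e) * J⌋₊ A z z' G₂ := by
    rintro J F A V C z z' G₁ G₂ cc ⟨-, Y₁, Y₂, Q₁, y₁, y₁', B₁, Q₂, y₂, y₂', B₂, fa, a2⟩
    exact a2.lb.mono (Finset.Subset.refl _) le_rfl le_rfl le_rfl
      (Nat.floor_le_floor (mul_le_mul_of_nonneg_right hpt (Nat.cast_nonneg J)))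
  have hG : Fw2 S (fun J F => ptr F J) x (fun _ F => F.T) Q
      (NzD Ψ₀ d c r D vn x (pa₁ k) (pa₂ k) (ea k) (ua k) (pa k)) (τ := fun _ _ _ _ => ℤ)
      (fun J F _ _ z' _ G₂ _ ω => ⌊(2 : ℝ) ^ ((pt - j * x) * J) * ojet F (c (r + 1)) j
        (G₂ (z' (slam F ⌊x * J⌋₊ ω))) ω⌋) e (h / 4) := by
    have hs := fw2_natX (f := fun J F => ptr F J) (y := fun _ F => F.T) (Qu := Q) (a := x)
      (Ψ := (NzD Ψ₀ d c r D vn x (pa₁ k) (pa₂ k) (ea k) (ua k) (pa k)).swap)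
      (I := (range (r + 1)).image c)
      (κ := c (r + 1)) (K := max D D * max 1 D) (j := j) (w := x) (p := pt) (e := e)
      (δ := h / 4) (Er := ea k) (Rr := ua k) htm hw0 hw1 hh4 heh1
      (fun J F A V C z z' G₁ G₂ cc hN => hlb J F A V C z z' G₂ G₁ cc hN)
    intro K₀
    refine Bas.mono 0 (hs K₀) ?_
    rintro J - F A HH V C z z' G₁ G₂ cc hN u₀ hu₀
    exact HH V C z z' G₂ G₁ cc hN u₀ hu₀
  have hF := H.selfx htm hch hxG hvx hxw hfx hA hk0 (j := j) (P := min Pn pt) (N := pt - j * x)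
    (e := 2 * e) (h := h / 4) (by
      have e1 : pt - j * x + j * x + 3 * φ + (x - v) = pt + 3 * φ + (x - v) := by ring
      rw [e1]
      exact h1) (by linarith) he2 he3 hh4
  have key := fd_of_fw (K := max D D * max 1 D) htm hk0 he0 le_rfl hP0 (min_le_left _ _)
    (min_le_right _ _) hh4 hF hlb (nzd_dcp hΨl hPn hvn hw1.le) hex' hG
  exact key.mono le_rfl (by linarith)

/-- **The natural jets of the label** `d J F`, the near path of an earlier window given. -/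
theorem nat_few {m r D K : ℕ} {S : PCl m} {C₀ : ℝ} (htm : TmC S C₀) (hr : 1 ≤ r) {c : ℕ → Fin m}
    {sn : ℕ → ℝ → ℝ} {G : Set ℝ} {v vn w x X φ lam kf : ℝ} {v₀ : ℕ → ℝ}
    (H : JfN r sn G v w X φ lam kf v₀ K) (hch : ChG S c (r + 1) sn G)
    (hxG : x ∈ G) (hvx : v ≤ x) (hxw : x ≤ w) (hfx : ∀ i < r, |sn i x - sn i v - (x - v)| ≤ φ)
    {nH nV : ℕ → ℝ} (hp : PaN r sn v X φ nH nV)
    -- the base labels and the natural labels at `x`
    {Ψ₀ : Fml m} {d : ∀ (J : ℕ) (F : Fam m J), LbD F} {En Rn Pn : ℝ}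
    (hΨl : ∀ (J : ℕ) (F : Fam m J) (A : F.Ω → Prop) (V : Type) (z : PtT F → V)
      (z' : LnT F → V) (G : V → MvPolynomial (Option (Fin m)) ℝ), Ψ₀ J F A V z z' G →
      LbOK F ((range (r + 1)).image c) (c (r + 1)) D ⌊En * J⌋₊ J ⌊vn * J⌋₊ ⌊Rn * J⌋₊
        ⌊Pn * J⌋₊ A z z' G) (hvn : vn ≤ x) {n : ℕ}
    {wv pa₁ pa₂ ea ua pa : ℕ → ℝ}
    (hex : Bas S (fun J F A => ∃ (V : Type) (z : PtT F → V) (z' : LnT F → V)
      (G : V → MvPolynomial (Option (Fin m)) ℝ),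
      Sgl (NzE Ψ₀ c r (c (r + 1)) D vn n wv pa₁ pa₂ ea ua pa) d J F A V z z' G))
    {k : ℕ} (hk : k < n) (hw : wv k = x)
    {j : ℕ} {pt : ℝ} (hpt : pt ≤ pa k) (hP0 : 0 < min Pn pt)
    (h1 : pt + 3 * φ + (x - v) ≤ min Pn pt + X) :
    Few S (fun J F => ptr F J) (vg x) (fun _ F => F.T) (paQ m c r v (fun l => sn l v) nH nV)
      (qD m d (c (r + 1)) j vn (pt - j * x)) := by
  obtain ⟨ux, rx, hrx, hcx⟩ := hch.ch x hxG
  have hφ := H.φ0
  have hA := jetA_pax H htm hch hp hvx hcx.u0.le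
  refine few_iff.2 fun h hh => ?_
  obtain ⟨e, he⟩ : ∃ e : ℝ, e = min (φ / 16) (min (h / 32) (min Pn pt / 2)) := ⟨_, rfl⟩
  have he0 : 0 < e := by
    rw [he]
    positivity
  have l1 : e ≤ φ / 16 := by
    rw [he]
    exact min_le_left _ _
  have l2 : e ≤ h / 32 := by
    rw [he]
    exact (min_le_right _ _).trans (min_le_left _ _)
  have l3 : e ≤ min Pn pt / 2 := by
    rw [he]
    exact (min_le_right _ _).trans (min_le_right _ _)
  exact ⟨e, he0, nat_fdx htm hr H hch hxG hvx hxw hfx hA he0 (by linarith) (by linarith) hΨl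
    (show Pn - e ≤ Pn by linarith) hvn hex hk hw hh (by linarith) (by linarith) h1 l2⟩

end Pool.PN18
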