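import Pool.Agent.H26.DIC.Pol
import Pool.Agent.H40.FR.Grid

/-!
# A polynomial which is affine on many lines

`geo`: a polynomial `f` in two variables of degree at most `D` which is affine up to `E` on `D + 1`
lines `y = α + κ τ` with separated slopes has small coefficients of the degrees `≥ 2`.
-/

set_option autoImplicit false

namespace Pool.CR99

open Finset Real MvPolynomial

/-- The restriction to the line `y = α + κ τ`. -/
noncomputable def lin2 (α κ : ℝ) (f : MvPolynomial (Fin 2) ℝ) : Polynomial ℝ :=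
  MvPolynomial.aeval ![Polynomial.X, Polynomial.C α + Polynomial.C κ * Polynomial.X] f

theorem eval_lin2 (α κ : ℝ) (f : MvPolynomial (Fin 2) ℝ) (τ : ℝ) :
    (lin2 α κ f).eval τ = eval ![τ, α + κ * τ] f := by
  unfold lin2
  have h : (MvPolynomial.aeval ![Polynomial.X, Polynomial.C α + Polynomial.C κ * Polynomial.X]
      f : Polynomial ℝ).eval τ = eval (fun i => ((![Polynomial.X, Polynomial.C α +
        Polynomial.C κ * Polynomial.X] : Fin 2 → Polynomial ℝ) i).eval τ) f := by
    rw [MvPolynomial.aeval_def, MvPolynomial.eval₂_eq', Polynomial.eval_finsetSum,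
      MvPolynomial.eval_eq']
    refine Finset.sum_congr rfl fun d _ => ?_
    rw [Polynomial.eval_mul, Polynomial.eval_prod]
    congr 1
    · exact Polynomial.eval_C
    · refine Finset.prod_congr rfl fun i _ => ?_
      rw [Polynomial.eval_pow]
  rw [h]
  congr 1
  congr 1
  funext i
  refine Fin.cases ?_ (fun j => ?_) i
  · simp
  · have : j = 0 := Subsingleton.elim _ _
    subst this
    simp

theorem lin2_sub (α κ : ℝ) (f g : MvPolynomial (Fin 2) ℝ) :
    lin2 α κ (f - g) = lin2 α κ f - lin2 α κ g := by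
  unfold lin2
  rw [map_sub]

/-- The expansion. -/
theorem lin2_eq (α κ : ℝ) (f : MvPolynomial (Fin 2) ℝ) : lin2 α κ f = ∑ d ∈ f.support,
    Polynomial.C (coeff d f) * (Polynomial.X ^ d 0 *
      (Polynomial.C α + Polynomial.C κ * Polynomial.X) ^ d 1) := by
  unfold lin2
  rw [MvPolynomial.aeval_def, MvPolynomial.eval₂_eq']
  refine Finset.sum_congr rfl fun d _ => ?_
  rw [Fin.prod_univ_two]
  rfl

theorem nd_line (α κ : ℝ) (i j : ℕ) : (Polynomial.X ^ i *
    (Polynomial.C α + Polynomial.C κ * Polynomial.X) ^ j : Polynomial ℝ).natDegree ≤ i + j := by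
  refine Polynomial.natDegree_mul_le.trans (add_le_add ?_ ?_)
  · exact Polynomial.natDegree_X_pow_le i
  · refine Polynomial.natDegree_pow_le.trans ?_
    calc j * (Polynomial.C α + Polynomial.C κ * Polynomial.X : Polynomial ℝ).natDegree ≤ j * 1 :=
          Nat.mul_le_mul_left _ (by
            rw [add_comm]
            exact Polynomial.natDegree_linear_le)
      _ = j := mul_one j

/-- The top coefficient of a power. -/
theorem top_pow (α κ : ℝ) (j : ℕ) :
    ((Polynomial.C α + Polynomial.C κ * Polynomial.X : Polynomial ℝ) ^ j).coeff j = κ ^ j := by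
  have h1 : (Polynomial.C α + Polynomial.C κ * Polynomial.X : Polynomial ℝ).natDegree ≤ 1 := by
    rw [add_comm]
    exact Polynomial.natDegree_linear_le
  have h2 := Polynomial.coeff_pow_of_natDegree_le (m := j) h1
  rw [mul_one] at h2
  rw [h2]
  simp

theorem coeff_line (α κ : ℝ) (i j : ℕ) : (Polynomial.X ^ i *
    (Polynomial.C α + Polynomial.C κ * Polynomial.X) ^ j : Polynomial ℝ).coeff (i + j) =
      κ ^ j := by
  rw [add_comm i j, Polynomial.coeff_X_pow_mul]
  exact top_pow α κ j

theorem deg_two (d : Fin 2 →₀ ℕ) : d.degree = d 0 + d 1 := by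
  rw [Finsupp.degree_eq_sum, Fin.sum_univ_two]

/-- **The top coefficient** on a line. -/
theorem lin2_top (α κ : ℝ) {f : MvPolynomial (Fin 2) ℝ} {n : ℕ} (hf : f.totalDegree ≤ n) :
    (lin2 α κ f).coeff n = eval ![1, κ] (homogeneousComponent n f) := by
  rw [lin2_eq, Polynomial.finsetSum_coeff, homogeneousComponent_apply, map_sum,
    Finset.sum_filter]
  refine Finset.sum_congr rfl fun d hd => ?_
  rw [Polynomial.coeff_C_mul]
  have h1 : d 0 + d 1 ≤ n := by
    have h2 := (MvPolynomial.le_totalDegree hd).trans hf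
    rw [← deg_two, Finsupp.degree_eq_sum]
    rwa [Finsupp.sum_fintype _ _ (fun _ => rfl)] at h2
  by_cases h : d.degree = n
  · rw [if_pos h, eval_monomial, Finsupp.prod_fintype _ _ (fun _ => pow_zero _), Fin.prod_univ_two]
    rw [deg_two] at h
    rw [← h, coeff_line]
    simp
  · rw [if_neg h]
    rw [deg_two] at h
    rw [Polynomial.coeff_eq_zero_of_natDegree_lt, mul_zero]
    exact lt_of_le_of_lt (nd_line α κ (d 0) (d 1)) (by omega)

theorem nd_lin2 (α κ : ℝ) {f : MvPolynomial (Fin 2) ℝ} {n : ℕ} (hf : f.totalDegree ≤ n) :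
    (lin2 α κ f).natDegree ≤ n := by
  rw [lin2_eq]
  refine Polynomial.natDegree_sum_le_of_forall_le _ _ fun d hd => ?_
  refine (Polynomial.natDegree_C_mul_le _ _).trans ((nd_line α κ _ _).trans ?_)
  have h2 := (MvPolynomial.le_totalDegree hd).trans hf
  rw [Finsupp.sum_fintype _ _ (fun _ => rfl), Fin.sum_univ_two] at h2
  exact h2

/-- The slopes as a variable. -/
noncomputable def slp2 (f : MvPolynomial (Fin 2) ℝ) : Polynomial ℝ :=
  MvPolynomial.aeval ![1, Polynomial.X] f

theorem slp2_eq (f : MvPolynomial (Fin 2) ℝ) : slp2 f = ∑ d ∈ f.support,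
    Polynomial.C (coeff d f) * Polynomial.X ^ d 1 := by
  unfold slp2
  rw [MvPolynomial.aeval_def, MvPolynomial.eval₂_eq']
  refine Finset.sum_congr rfl fun d _ => ?_
  rw [Fin.prod_univ_two]
  show Polynomial.C (coeff d f) * (1 ^ d 0 * Polynomial.X ^ d 1) = _
  rw [one_pow, one_mul]

theorem eval_slp2 (f : MvPolynomial (Fin 2) ℝ) (κ : ℝ) :
    (slp2 f).eval κ = eval ![1, κ] f := by
  rw [slp2_eq, Polynomial.eval_finsetSum, MvPolynomial.eval_eq']
  refine Finset.sum_congr rfl fun d _ => ?_
  rw [Fin.prod_univ_two]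
  simp

/-- The coefficients of a homogeneous polynomial. -/
theorem coeff_slp2 {f : MvPolynomial (Fin 2) ℝ} {n : ℕ} (hf : ∀ d ∈ f.support, d.degree = n)
    (d : Fin 2 →₀ ℕ) (hd : d ∈ f.support) : (slp2 f).coeff (d 1) = coeff d f := by
  rw [slp2_eq, Polynomial.finsetSum_coeff, Finset.sum_eq_single d]
  · rw [Polynomial.coeff_C_mul, Polynomial.coeff_X_pow, if_pos rfl, mul_one]
  · intro e he hne
    rw [Polynomial.coeff_C_mul, Polynomial.coeff_X_pow, if_neg, mul_zero]
    intro h1
    apply hne
    have h2 := hf d hd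
    have h3 := hf e he
    rw [deg_two] at h2 h3
    ext i
    refine Fin.cases ?_ (fun j => ?_) i
    · omega
    · have : j = 0 := Subsingleton.elim _ _
      subst this
      exact h1.symm
  · intro h
    exact absurd hd h

theorem nd_slp2 {f : MvPolynomial (Fin 2) ℝ} {n : ℕ} (hf : ∀ d ∈ f.support, d.degree = n) :
    (slp2 f).natDegree ≤ n := by
  rw [slp2_eq]
  refine Polynomial.natDegree_sum_le_of_forall_le _ _ fun d hd => ?_
  refine (Polynomial.natDegree_C_mul_le _ _).trans ((Polynomial.natDegree_X_pow_le _).trans ?_)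
  have h2 := hf d hd
  rw [deg_two] at h2
  omega

/-- The value of a homogeneous polynomial with small coefficients. -/
theorem val_hom {f : MvPolynomial (Fin 2) ℝ} {n : ℕ} (hf : ∀ d ∈ f.support, d.degree = n)
    {b K : ℝ} (hb : ∀ d, |coeff d f| ≤ b) (hK : 1 ≤ K) {x y : ℝ} (hx : |x| ≤ 1) (hy : |y| ≤ K) :
    |eval ![x, y] f| ≤ (n + 1) * (b * K ^ n) := by
  have hb0 : 0 ≤ b := (abs_nonneg _).trans (hb 0)
  rw [MvPolynomial.eval_eq']
  refine (Finset.abs_sum_le_sum_abs _ _).trans ?_
  have h1 : ∀ d ∈ f.support, |coeff d f * ∏ i, (![x, y] : Fin 2 → ℝ) i ^ d i| ≤ b * K ^ n := by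
    intro d hd
    have h2 := hf d hd
    rw [deg_two] at h2
    rw [abs_mul, Fin.prod_univ_two]
    show |coeff d f| * |x ^ d 0 * y ^ d 1| ≤ _
    rw [abs_mul, abs_pow, abs_pow]
    refine mul_le_mul (hb d) ?_ (by positivity) hb0
    calc |x| ^ d 0 * |y| ^ d 1 ≤ 1 * K ^ n := by
          refine mul_le_mul (pow_le_one₀ (abs_nonneg _) hx) ?_ (by positivity) zero_le_one
          exact (pow_le_pow_left₀ (abs_nonneg _) hy _).trans (pow_le_pow_right₀ hK (by omega))
      _ = K ^ n := one_mul _
  refine (Finset.sum_le_sum h1).trans ?_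
  rw [Finset.sum_const, nsmul_eq_mul]
  refine mul_le_mul_of_nonneg_right ?_ (by positivity)
  have h3 : f.support.card ≤ (Finset.range (n + 1)).card := by
    refine Finset.card_le_card_of_injOn (fun d => d 1) (fun d hd => ?_) (fun d hd e he h => ?_)
    · have h2 := hf d hd
      rw [deg_two] at h2
      simp only [Finset.coe_range, Set.mem_Iio]
      omega
    · have h2 := hf d hd
      have h3 := hf e he
      rw [deg_two] at h2 h3
      have h4 : d 1 = e 1 := h
      ext i
      refine Fin.cases ?_ (fun j => ?_) i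
      · omega
      · have : j = 0 := Subsingleton.elim _ _
        subst this
        exact h4
  rw [Finset.card_range] at h3
  exact_mod_cast h3

/-- **A polynomial which is affine on many lines.** -/
theorem geo (D : ℕ) : ∃ C : ℝ, 1 ≤ C ∧ ∀ (f : MvPolynomial (Fin 2) ℝ), f.totalDegree ≤ D →
    ∀ (K β E : ℝ) (α κ : ℕ → ℝ), 1 ≤ K → 0 < β → β ≤ 1 → 0 ≤ E → (∀ i ≤ D, |α i| ≤ K) →
    (∀ i ≤ D, |κ i| ≤ K) → (∀ i ≤ D, ∀ j ≤ D, i ≠ j → β ≤ |κ i - κ j|) →
    (∀ i ≤ D, ∃ A B : ℝ, ∀ τ ∈ Set.Icc (0 : ℝ) 1,
      |eval ![τ, α i + κ i * τ] f - A - B * τ| ≤ E) →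
    ∀ d : Fin 2 →₀ ℕ, 2 ≤ d.degree → |coeff d f| ≤ C * (K / β) ^ (2 * D * D) * E := by
  obtain ⟨C₁, hC₁, huc⟩ := Pool.Agent.H40.FR.unit_coef D
  obtain ⟨C₂, hC₂⟩ : ∃ C₂ : ℝ, C₂ = 8 ^ D * C₁ * (2 + (D + 1) * 2 ^ D) := ⟨_, rfl⟩
  have hC2 : 1 ≤ C₂ := by
    rw [hC₂]
    have h8 : (1 : ℝ) ≤ 8 ^ D := one_le_pow₀ (by norm_num)
    have h9 : (1 : ℝ) ≤ 2 + ((D : ℝ) + 1) * 2 ^ D := by
      have : (0 : ℝ) ≤ ((D : ℝ) + 1) * 2 ^ D := by positivity
      linarith
    calc (1 : ℝ) = 1 * 1 * 1 := by norm_num
      _ ≤ _ := by gcongr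
  refine ⟨C₂ ^ D, one_le_pow₀ hC2, ?_⟩
  intro f hf K β E α κ hK hβ hβ1 hE hα hκ hsep hline
  have hKβ : 1 ≤ K / β := by
    rw [le_div_iff₀ hβ]
    linarith
  obtain ⟨R, hR⟩ : ∃ R : ℝ, R = C₂ * (K / β) ^ (2 * D) := ⟨_, rfl⟩
  have hR1 : 1 ≤ R := by
    rw [hR]
    have h1 : 1 ≤ (K / β) ^ (2 * D) := one_le_pow₀ hKβ
    calc (1 : ℝ) = 1 * 1 := by norm_num
      _ ≤ _ := by gcongr
  have key : ∀ n ≤ D, ∀ f : MvPolynomial (Fin 2) ℝ, f.totalDegree ≤ n → ∀ E : ℝ, 0 ≤ E →
      (∀ i ≤ D, ∃ A B : ℝ, ∀ τ ∈ Set.Icc (0 : ℝ) 1,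
        |eval ![τ, α i + κ i * τ] f - A - B * τ| ≤ E) →
      ∀ d : Fin 2 →₀ ℕ, 2 ≤ d.degree → |coeff d f| ≤ R ^ n * E := by
    intro n
    induction n with
    | zero =>
      intro _ f hf E hE _ d hd
      have h0 : coeff d f = 0 := by
        apply coeff_eq_zero_of_totalDegree_lt
        rw [Finsupp.degree_eq_sum] at hd
        have : ∑ i ∈ d.support, d i = ∑ i, d i := Finset.sum_subset (Finset.subset_univ _)
          fun i _ hi => Finsupp.notMem_support_iff.mp hi
        omega
      rw [h0, abs_zero]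
      positivity
    | succ n ih =>
      intro hn f hf E hE hl d hd
      rcases Nat.eq_zero_or_pos n with h0 | h0
      · have h0 : coeff d f = 0 := by
          apply coeff_eq_zero_of_totalDegree_lt
          rw [Finsupp.degree_eq_sum] at hd
          have : ∑ i ∈ d.support, d i = ∑ i, d i := Finset.sum_subset (Finset.subset_univ _)
            fun i _ hi => Finsupp.notMem_support_iff.mp hi
          omega
        rw [h0, abs_zero]
        positivity
      obtain ⟨p, hp⟩ : ∃ p, p = homogeneousComponent (n + 1) f := ⟨_, rfl⟩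
      have hps : ∀ e ∈ p.support, e.degree = n + 1 := by
        intro e he
        rw [hp] at he
        have h1 : coeff e (homogeneousComponent (n + 1) f) ≠ 0 := mem_support_iff.mp he
        rw [coeff_homogeneousComponent] at h1
        by_contra h2
        exact h1 (if_neg h2)
      -- the top coefficients
      have htop : ∀ i ≤ D, |(slp2 p).eval (κ i)| ≤ C₁ * E := by
        intro i hi
        obtain ⟨A, B, hAB⟩ := hl i hi
        have h1 := huc (lin2 (α i) (κ i) f - Polynomial.C A - Polynomial.C B * Polynomial.X) E (by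
          refine (Polynomial.natDegree_sub_le _ _).trans (max_le
            ((Polynomial.natDegree_sub_le _ _).trans (max_le
              ((nd_lin2 _ _ hf).trans hn) ?_)) ?_)
          · rw [Polynomial.natDegree_C]
            exact Nat.zero_le _
          · refine (Polynomial.natDegree_C_mul_le _ _).trans (Polynomial.natDegree_X_le.trans ?_)
            omega) (fun τ hτ => by
          rw [Polynomial.eval_sub, Polynomial.eval_sub, Polynomial.eval_mul, Polynomial.eval_C,
            Polynomial.eval_C, Polynomial.eval_X, eval_lin2]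
          exact hAB τ hτ) (n + 1)
        rw [Polynomial.coeff_sub, Polynomial.coeff_sub, Polynomial.coeff_C,
          Polynomial.coeff_C_mul, Polynomial.coeff_X, if_neg (by omega), if_neg (by omega),
          mul_zero, sub_zero, sub_zero, lin2_top _ _ hf, ← hp, ← eval_slp2] at h1
        exact h1
      have hcf : ∀ e, |coeff e p| ≤ (8 * K / β) ^ D * (C₁ * E) := by
        intro e
        by_cases he : e ∈ p.support
        · rw [← coeff_slp2 hps e he]
          exact Pool.S6P.vander hK hβ hβ1 D (slp2 p) ((nd_slp2 hps).trans hn) κ hκ hsep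
            (C₁ * E) (by positivity) htop (e 1)
        · rw [notMem_support_iff.mp he, abs_zero]
          positivity
      have hb2 : (8 * K / β) ^ D * (C₁ * E) ≤ R ^ (n + 1) * E := by
        have e1 : (8 * K / β) ^ D = 8 ^ D * (K / β) ^ D := by
          rw [mul_div_assoc, mul_pow]
        have h1 : (K / β) ^ D ≤ (K / β) ^ (2 * D) := pow_le_pow_right₀ hKβ (by omega)
        have h2 : (8 : ℝ) ^ D * C₁ ≤ C₂ := by
          rw [hC₂]
          have : (1 : ℝ) ≤ 2 + ((D : ℝ) + 1) * 2 ^ D := by
            have : (0 : ℝ) ≤ ((D : ℝ) + 1) * 2 ^ D := by positivity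
            linarith
          have h3 : (0 : ℝ) ≤ 8 ^ D * C₁ := by positivity
          nlinarith
        have h4 : R ≤ R ^ (n + 1) := le_self_pow₀ hR1 (by omega)
        calc (8 * K / β) ^ D * (C₁ * E) = (8 ^ D * C₁) * (K / β) ^ D * E := by rw [e1]; ring
          _ ≤ C₂ * (K / β) ^ (2 * D) * E := by gcongr
          _ = R * E := by rw [hR]
          _ ≤ _ := mul_le_mul_of_nonneg_right h4 hE
      by_cases hdn : d.degree = n + 1
      · have e1 : coeff d f = coeff d p := by
          rw [hp, coeff_homogeneousComponent, if_pos hdn]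
        rw [e1]
        exact (hcf d).trans hb2
      · have e1 : coeff d f = coeff d (f - p) := by
          rw [coeff_sub, hp, coeff_homogeneousComponent, if_neg hdn, sub_zero]
        rw [e1]
        obtain ⟨E', hE'⟩ : ∃ E' : ℝ, E' = E + (n + 1 + 1 : ℕ) *
            ((8 * K / β) ^ D * (C₁ * E) * (2 * K) ^ (n + 1)) := ⟨_, rfl⟩
        have hE'0 : 0 ≤ E' := by
          rw [hE']
          positivity
        have hE'R : E' ≤ R * E := by
          have a1 : (8 * K / β) ^ D = 8 ^ D * (K / β) ^ D := by
            rw [mul_div_assoc, mul_pow]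
          have a2 : (2 * K) ^ (n + 1) ≤ 2 ^ D * K ^ D := by
            rw [← mul_pow]
            exact pow_le_pow_right₀ (by linarith) hn
          have a3 : K ^ D ≤ (K / β) ^ D := by
            refine pow_le_pow_left₀ (by linarith) ?_ D
            rw [le_div_iff₀ hβ]
            nlinarith
          have a4 : ((n + 1 + 1 : ℕ) : ℝ) ≤ D + 1 := by exact_mod_cast (by omega : n + 1 + 1 ≤ D + 1)
          have a5 : (1 : ℝ) ≤ (K / β) ^ (2 * D) := one_le_pow₀ hKβ
          have a6 : (K / β) ^ (2 * D) = (K / β) ^ D * (K / β) ^ D := by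
            rw [two_mul, pow_add]
          have a7 : (1 : ℝ) ≤ 8 ^ D * C₁ := by
            have h8 : (1 : ℝ) ≤ 8 ^ D := one_le_pow₀ (by norm_num)
            nlinarith
          rw [hE', hR, hC₂, a1]
          calc E + ((n + 1 + 1 : ℕ) : ℝ) * (8 ^ D * (K / β) ^ D * (C₁ * E) * (2 * K) ^ (n + 1)) ≤
                (8 ^ D * C₁) * (K / β) ^ (2 * D) * E + (D + 1) * (8 ^ D * (K / β) ^ D * (C₁ * E) *
                  (2 ^ D * (K / β) ^ D)) := by
                refine add_le_add ?_ ?_
                · have : (1 : ℝ) ≤ 8 ^ D * C₁ * (K / β) ^ (2 * D) := by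
                    calc (1 : ℝ) = 1 * 1 := by norm_num
                      _ ≤ _ := by gcongr
                  nlinarith
                · have b1 : (2 * K) ^ (n + 1) ≤ 2 ^ D * (K / β) ^ D := by
                    refine a2.trans ?_
                    gcongr
                  gcongr
            _ = 8 ^ D * C₁ * (1 + (D + 1) * 2 ^ D) * ((K / β) ^ D * (K / β) ^ D) * E := by
                rw [a6]
                ring
            _ ≤ 8 ^ D * C₁ * (2 + (D + 1) * 2 ^ D) * ((K / β) ^ D * (K / β) ^ D) * E := by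
                gcongr
                norm_num
            _ = _ := by rw [a6]
        have hgd : (f - p).totalDegree ≤ n := by
          refine Finset.sup_le fun e he => ?_
          have q1 := mem_support_iff.mp he
          rw [coeff_sub, hp, coeff_homogeneousComponent] at q1
          have q2 : e.degree ≠ n + 1 := fun h => q1 (by rw [if_pos h, sub_self])
          rw [if_neg q2, sub_zero] at q1
          have q3 := (MvPolynomial.le_totalDegree (mem_support_iff.mpr q1)).trans hf
          rw [Finsupp.sum_fintype _ _ (fun _ => rfl), Fin.sum_univ_two] at q3 ⊢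
          rw [deg_two] at q2
          omega
        have h1 := ih (by omega) (f - p) hgd E' hE'0 (by
          intro i hi
          obtain ⟨A, B, hAB⟩ := hl i hi
          refine ⟨A, B, fun τ hτ => ?_⟩
          have h2 := hAB τ hτ
          have hy : |α i + κ i * τ| ≤ 2 * K := by
            have h3 : |κ i * τ| ≤ K := by
              rw [abs_mul]
              calc |κ i| * |τ| ≤ K * 1 := by
                    refine mul_le_mul (hκ i hi) ?_ (abs_nonneg _) (by linarith)
                    rw [abs_of_nonneg hτ.1]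
                    exact hτ.2
                _ = K := mul_one K
            refine (abs_add_le _ _).trans ?_
            linarith [hα i hi]
          have h3 := val_hom hps hcf (show (1 : ℝ) ≤ 2 * K by linarith)
            (show |τ| ≤ 1 by rw [abs_of_nonneg hτ.1]; exact hτ.2) hy
          have e2 : eval ![τ, α i + κ i * τ] (f - p) - A - B * τ =
              (eval ![τ, α i + κ i * τ] f - A - B * τ) - eval ![τ, α i + κ i * τ] p := by
            rw [map_sub]
            ring
          rw [e2, hE']
          refine (abs_sub _ _).trans (add_le_add h2 (h3.trans (le_of_eq ?_)))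
          push_cast
          ring) d hd
        refine h1.trans ?_
        calc R ^ n * E' ≤ R ^ n * (R * E) := mul_le_mul_of_nonneg_left hE'R (by positivity)
          _ = R ^ (n + 1) * E := by ring
  intro d hd
  refine (key D le_rfl f hf E hE hline d hd).trans (le_of_eq ?_)
  rw [hR, mul_pow, ← pow_mul]

end Pool.CR99
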