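import Pool.Agent.H82.RES.Rec
import Pool.Agent.H37.PN.Rsn
import Pool.Agent.H99.D2.Ref
import Pool.Agent.H33.PN.Ste
import Pool.Agent.H28.RV.Rcs
import Pool.Agent.H73.D2.Tvk
import Pool.Agent.H99.D2.Thn

/-!
# The first jet of the place for all slopes `1 < a < b`

`f1uy_res`: the first jet of the place `r` is few bits at the windows of full rate and the scales where
`Y` fails, resonant slopes included, from a supply `BlSupY` of the closed slope. `f1ud_res`, `f1us_res`: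
the statements `F1UD`, `F1US`. `cbF_sup_all`, `f1TP_sta_ab`: for four coordinates.
-/

set_option autoImplicit false

namespace Pool.CR99

open Finset Real MvPolynomial
open Pool.Agent.H49.Ent Pool.Agent.H32.Dense Pool.STK Pool.KA Pool.KSAT Pool.K2S Pool.PB Pool.GEN
open Pool.S6C Pool.RCD Pool.LA91 Pool.OWN68 Pool.AJW Pool.AJX Pool.CHT Pool.PKG Pool.ALT Pool.PN18
open Pool.GRW Pool.RV28
open Pool.ASM (AdmN)

/-- **A finite list of windows.** -/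
theorem win_fin (s : Finset ℝ) : ∃ (N : ℕ) (V : ℕ → ℝ) (B : ℝ), 0 ≤ B ∧ (∀ j < N, |V j| ≤ B) ∧
    ∀ x ∈ s, ∃ j < N, V j = x := by
  classical
  induction s using Finset.induction_on with
  | empty => exact ⟨0, fun _ => 0, 0, le_rfl, fun j hj => absurd hj (Nat.not_lt_zero j),
      fun x hx => absurd hx (Finset.notMem_empty x)⟩
  | insert a s ha ih =>
    obtain ⟨N, V, B, hB, h1, h2⟩ := ih
    refine ⟨N + 1, fun j => if j < N then V j else a, max B |a|, le_max_of_le_left hB,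
      fun j hj => ?_, fun x hx => ?_⟩
    · dsimp only
      split_ifs with h3
      · exact (h1 j h3).trans (le_max_left _ _)
      · exact le_max_right _ _
    · rcases Finset.mem_insert.1 hx with rfl | hx
      · exact ⟨N, Nat.lt_succ_self N, if_neg (lt_irrefl N)⟩
      · obtain ⟨j, hj, e⟩ := h2 x hx
        exact ⟨j, hj.trans (Nat.lt_succ_self N), (if_pos hj).trans e⟩

/-- **The number of a real window**, in a subclass. -/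
theorem rnum_at {m : ℕ} {S : PCl m} {al : ℝ} {g₀ : ℝ → ℝ}
    {P : List (Fin m) × Fin m → ℝ → ℝ → ℝ} {θ : ℝ}
    {P₂ : ℕ → List (Fin m) × Fin m → ℝ → ℝ → ℝ} {θ₂ Eb e₂ : ℕ → ℝ}
    {c : ℕ → Fin m} {Pt : ℝ → ℝ → ℝ} {rt : ℝ → ℝ} {h K₀ g : ℝ} {L T : ℕ → ℝ → ℝ → ℝ}
    {Sl : ℕ → ℝ} {κ : ℕ → Kg} {G : Set ℝ} {S₀ N : ℕ} {A V : ℕ → ℝ} {S₂ N' : ℕ} {V' : ℕ → ℝ}
    {K' ε q t : ℝ}
    (R : RecG S al g₀ P θ P₂ θ₂ Eb e₂ c Pt rt h K₀ g L T Sl κ G S₀ N A V S₂ N' V' K' ε q t)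
    (w : ℝ) : ∃ S' : PCl m, S'.Ne ∧
      (∀ (τ : ℝ) (J : ℕ) (F : Fam m J) (A : F.Ω → Prop), S'.St τ J F A → S.St τ J F A) ∧
      ∃ η : ℝ, RNum S' (fun J F => ptr F J) (vg w) η := by
  have hM : Bas S (fun J F A => (cnt F.p (ptr F J) A : ℝ) ≤ Real.exp ((4 * m + 1) * J)) := by
    obtain ⟨s, d, e', K₀, N₁, hC⟩ := R.clx
    exact Bas.mono 0 hC.cnt fun J _ F A h => h J le_rfl
  obtain ⟨S', h1, h2, h3⟩ := ext_rec (S := S) R.ne R.pos (fun _ _ F => PtT F)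
    (fun _ _ F => LnT F) (fun _ J F => ptr F J) (fun _ => vg w) (fun _ => (4 * m + 1 : ℝ))
    (fun _ => hM)
  exact ⟨S', h1, h2, h3 0⟩

/-- **The supply of the closed slope** at the scales where `Y` fails (`BlSup`: `Y = AltF`). -/
def BlSupY (m r : ℕ) (h : ℝ) (Sl : ℕ → ℝ) (κ : ℕ → Kg) {ι Λ : Type} (Q : PropG m ι)
    (Z : PropZ m Λ) (R₁ : ℝ) (Y : PropY m) : Prop :=
  ∀ al : ℝ, 0 < al → ∀ K₀ : ℝ, 0 < K₀ → ∀ S₀ : ℕ, 1 ≤ S₀ → ∀ R₀ : ℝ, R₁ < R₀ →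
  ∃ V₀ : ℝ, V₀ ≤ -R₀ ∧
  ∃ (Kr : ℝ) (Nr : ℕ) (Ar Vr : ℕ → ℝ), 1 ≤ Kr ∧ (∀ k < Nr, -Kr ≤ Vr k ∧ Vr k ≤ Ar k ∧ Ar k ≤ Kr) ∧
  ∀ S₂ : ℕ, S₀ ≤ S₂ → ∃ Dg : ℕ, ∀ dd : ℝ, 0 < dd →
  ∃ φ₀ kf₀ : ℝ, 0 < φ₀ ∧ ∀ φ : ℝ, 0 < φ → φ ≤ φ₀ → ∀ kf : ℝ, kf₀ ≤ kf → ∀ ρ : ℝ, 0 < ρ →
  ∃ (lam : Λ) (K₁ : ℝ) (Nv : ℕ) (Vv : ℕ → ℝ), (∀ j < Nv, -K₁ ≤ Vv j ∧ Vv j ≤ K₁) ∧
  ∀ K' : ℝ, K₁ ≤ K' →
  ∃ ε₀ : ℝ, 0 < ε₀ ∧ ∀ ε : ℝ, 0 < ε → ε ≤ ε₀ →
  ∀ (S : PCl m) (g₀ : ℝ → ℝ) (P : List (Fin m) × Fin m → ℝ → ℝ → ℝ)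
    (θ : ℝ) (P₂ : ℕ → List (Fin m) × Fin m → ℝ → ℝ → ℝ) (θ₂ Eb e₂ : ℕ → ℝ) (c : ℕ → Fin m)
    (Pt : ℝ → ℝ → ℝ) (rt : ℝ → ℝ) (L T : ℕ → ℝ → ℝ → ℝ) (G : Set ℝ) (g : ℝ),
    IsClosed G → g ∈ G → (∀ l < m, HasDerivAt (fun x => L l x x) (Sl l) g) →
    Z lam S P θ c Pt rt L T κ G g →
    ∃ (p : ℕ → ι) (M : ℕ) (B₀ B₁ : ℕ → ℝ),
    (∀ j < M, B₀ j < B₁ j) ∧ ∀ k₀ : ℕ → ℕ, (∀ j < M, Q (p j) (k₀ j) S P θ c Pt rt L T κ G g) →
    ∃ q₁ : ℝ, 0 < q₁ ∧ ∀ (q t : ℝ) (x : ℕ → ℝ),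
      q < q₁ → (∀ j < M, x j ∈ G ∧ t + B₀ j * q ≤ x j ∧ x j ≤ t + B₁ j * q ∧
        Q (p j) (k₀ j) S P θ c Pt rt L T κ G (x j)) →
      ∀ (N : ℕ) (A V : ℕ → ℝ) (N' : ℕ) (V' : ℕ → ℝ),
      RecG S al g₀ P θ P₂ θ₂ Eb e₂ c Pt rt h K₀ g L T Sl κ G S₀ N A V S₂ N' V' K' ε q t →
      (∀ k < Nr, ∃ j < N, A j = Ar k ∧ V j = Vr k) → (∀ k < Nv, ∃ j < N', V' j = Vv k) →
      ∀ (pf : ℕ → ℝ) (pr : ℝ) (Nf : ℕ → ℕ → ℝ),
      (∀ l < r, L l t t - φ * q ≤ pf l ∧ pf l ≤ L l t t) →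
      L r t t - φ * q ≤ pr → pr ≤ L r t t →
      (∀ l < r, ∀ j ≤ 1, Nf l j = L l t t + kf * q - (j : ℕ) * t) →
      Y dd S c L q t pf pr Nf ∨
      ∃ S' : PCl m, S'.Ne ∧
        (∀ (τ : ℝ) (J : ℕ) (F : Fam m J) (A : F.Ω → Prop), S'.St τ J F A → S.St τ J F A) ∧
        ∃ κ' : ℝ, 0 < κ' ∧ BlX S' c r Dg Dg (t + V₀ * q)
          (L (r + 1) (t + V₀ * q) (t + V₀ * q) - ρ * q) 1 (fun _ => t - R₁ * q)
          (fun _ => L (r + 1) (t - R₁ * q) (t - R₁ * q) - ρ * q)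
          (fun _ => L r (t - R₁ * q) (t - R₁ * q) - L (r + 1) (t - R₁ * q) (t - R₁ * q) + ρ * q) κ'

/-- **The first jet of the place** at the windows of full rate and the scales where `Y` fails, for all
slopes `1 < a < b`, from the supply of the closed slope. -/
theorem f1uy_res {r : ℕ} (hr : 1 ≤ r) {h : ℝ} (hh : 0 < h) (hh1 : h ≤ 1) {Sl : ℕ → ℝ}
    {κ : ℕ → Kg} (hκ : ∀ l < r, κ l = .one) (ha : 1 < Sl r) (hab : Sl r < Sl (r + 1))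
    {ι : Type} {Q : PropG (r + 2) ι} {R₁ : ℝ} (hR₁ : 0 ≤ R₁) {Y : PropY (r + 2)}
    (hS : BlSupY (r + 2) r h Sl κ Q (ZfR r Sl) R₁ Y) :
    F1UY (r + 2) r h Sl κ
      (sumQ (sumQ (sumQ (AltR : PropG (r + 2) AltUI) (CuQ : PropG (r + 2) Unit)) Q)
        (VrU : PropG (r + 2) ℕ))
      (ZfR r Sl) (fun dd S c L q t pf pr Nf => ¬ Y dd S c L q t pf pr Nf) := by
  classical
  intro al hal K₀ hK₀ S₀ hS₀
  obtain ⟨a, haE⟩ : ∃ a, Sl r = a := ⟨_, rfl⟩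
  obtain ⟨b, hbE⟩ : ∃ b, Sl (r + 1) = b := ⟨_, rfl⟩
  have ha' : 1 < a := by rw [← haE]; exact ha
  have hab' : a < b := by rw [← haE, ← hbE]; exact hab
  have ha0 : 0 < a := by linarith only [ha']
  have hb0 : 0 < b := by linarith only [ha0, hab']
  have hlog : 0 < Real.log 2 := Real.log_pos (by norm_num)
  obtain ⟨V₀, hV₀, Kr, Nr, Ar, Vr, hKr, hAV, HS⟩ := hS al hal K₀ hK₀ S₀ hS₀ (R₁ + 3)
    (by linarith only)
  obtain ⟨D₁, hD1, HL⟩ := rec_lab r S₀ hS₀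
  refine ⟨Kr, Nr, Ar, Vr, hKr, hAV, fun S₂ hS₂ dd hdd => ?_⟩
  obtain ⟨Dg, HS⟩ := HS S₂ hS₂
  obtain ⟨D, hDE⟩ : ∃ D, D = max D₁ Dg := ⟨_, rfl⟩
  have hD₁ : D₁ ≤ D := by rw [hDE]; exact le_max_left _ _
  have hDg : Dg ≤ D := by rw [hDE]; exact le_max_right _ _
  -- the stages and the numbers
  obtain ⟨Ms, x, τ, HG⟩ := stgm_ex ha' hab' (max D D * max 1 D)
  obtain ⟨δ, γ₁, hδ, hγ₁, HR⟩ := res_rec (D := D) (Dg := Dg) hr ha' hab' hh hh1 HG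
    (dd := dd / 4) (c' := dd / 2) (by linarith only [hdd]) (by linarith only [hdd])
  obtain ⟨Tn, Nf, n, Nw, lm, ε₁, X, φn, kfn, ℓ, e', KB, el₀, dl₀, K'₀, ε₀n, hlm, hX0, he', hel₀,
    hdl₀, hε₀n, HN⟩ := resn_ex (r := r) ha' hab' hK₀ hR₁ hV₀ HG hδ hγ₁
  obtain ⟨φs, kfs, hφs, HS⟩ := HS dd hdd
  obtain ⟨φ, hφE⟩ : ∃ φ, φ = min φs 1 := ⟨_, rfl⟩
  have hφ0 : 0 < φ := by rw [hφE]; exact lt_min hφs one_pos
  have hφs' : φ ≤ φs := by rw [hφE]; exact min_le_left _ _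
  have hφ1 : φ ≤ 1 := by rw [hφE]; exact min_le_right _ _
  obtain ⟨kf, hkfE⟩ : ∃ kf, kf = max kfs (a + 4 * r + 3) := ⟨_, rfl⟩
  have hkfs : kfs ≤ kf := by rw [hkfE]; exact le_max_left _ _
  have hkfa : a + 4 * r + 3 ≤ kf := by rw [hkfE]; exact le_max_right _ _
  have hr0 : (0 : ℝ) ≤ r := Nat.cast_nonneg r
  obtain ⟨ls, K₁s, Nvs, Vvs, hVvs, HS⟩ := HS φ hφ0 hφs' kf hkfs (e' / 32) (by positivity)
  -- the slack
  obtain ⟨δs, hδsE⟩ : ∃ δs, δs = min (min (dl₀ / 2) (b * Real.log 2 / 2)) (ls.1 : ℝ) := ⟨_, rfl⟩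
  have hls0 := ls.1.2
  have hδs : 0 < δs := by
    rw [hδsE]
    exact lt_min (by positivity) hls0
  have hδs1 : δs ≤ dl₀ / 2 := by rw [hδsE]; exact (min_le_left _ _).trans (min_le_left _ _)
  have hδs3 : δs ≤ ls.1 := by rw [hδsE]; exact min_le_right _ _
  obtain ⟨el, hel0, hel⟩ := exists_rat_btwn (show 0 < min (dl₀ / 2) el₀ by positivity)
  have hel1 : (el : ℝ) ≤ dl₀ / 2 := hel.le.trans (min_le_left _ _)
  have hel3 : (el : ℝ) ≤ el₀ := hel.le.trans (min_le_right _ _)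
  have helq : (0 : ℚ) < el := by exact_mod_cast hel0
  -- the windows
  obtain ⟨Λ, hΛE⟩ : ∃ Λ : ℕ, Λ = (Nf * Tn) ^ n := ⟨_, rfl⟩
  obtain ⟨W, hW⟩ : ∃ W : Finset ℝ, W = {V₀, 0, -(K₀ + 2 * R₁ + 5)} ∪
    ((range (2 * (Λ * Nw) + 1)).image (fun k => bxv R₁ (Λ * Nw) k) ∪
    (((range (Λ + 1)) ×ˢ (range (r + 1))).image (fun p => jfV r (bxv R₁ Λ p.1) X p.2) ∪
    (range Nvs).image Vvs)) := ⟨_, rfl⟩
  obtain ⟨Nv, Vv, B, hB0, hVB, hVW⟩ := win_fin W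
  have w1 : V₀ ∈ W := by rw [hW]; simp
  have w2 : (0 : ℝ) ∈ W := by rw [hW]; simp
  have w3 : -(K₀ + 2 * R₁ + 5) ∈ W := by
    rw [hW]
    exact mem_union_left _ (by simp)
  have w4 : ∀ k ≤ 2 * (Λ * Nw), bxv R₁ (Λ * Nw) k ∈ W := fun k hk => by
    rw [hW]
    exact mem_union_right _ (mem_union_left _ (mem_image_of_mem _ (mem_range.2 (by omega))))
  have w5 : ∀ z ≤ Λ, ∀ k ≤ r, jfV r (bxv R₁ Λ z) X k ∈ W := fun z hz k hk => by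
    rw [hW]
    refine mem_union_right _ (mem_union_right _ (mem_union_left _ (mem_image.2
      ⟨(z, k), mem_product.2 ⟨mem_range.2 (by omega), mem_range.2 (by omega)⟩, rfl⟩)))
  have w6 : ∀ k < Nvs, Vvs k ∈ W := fun k hk => by
    rw [hW]
    exact mem_union_right _ (mem_union_right _ (mem_union_right _
      (mem_image_of_mem _ (mem_range.2 hk))))
  obtain ⟨K₂, hK₂⟩ : ∃ K₂, K₂ = B + |K₁s| + |K'₀| + 1 := ⟨_, rfl⟩
  have hK1s0 := abs_nonneg K₁s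
  have hK1s1 := le_abs_self K₁s
  have hK00 := abs_nonneg K'₀
  have hK01 := le_abs_self K'₀
  refine ⟨(⟨δs, hδs⟩, max (max D D * max 1 D) ls.2), kf, φ, by
    rw [haE]
    linarith only [hkfa, hr0], hφ0, K₂, Nv, Vv, fun j hj => ?_, fun K' hK' => ?_⟩
  · have h1 := abs_le.1 (hVB j hj)
    exact ⟨by linarith only [h1.1, hK₂, hK1s0, hK00], by linarith only [h1.2, hK₂, hK1s0, hK00]⟩
  have hK'0 : 0 < K' := by linarith only [hK', hK₂, hB0, hK1s0, hK00]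
  have hK1s' : K₁s ≤ K' := by linarith only [hK', hK₂, hB0, hK1s1, hK00]
  have hK0' : K'₀ ≤ K' := by linarith only [hK', hK₂, hB0, hK1s0, hK01]
  have hBK : B ≤ K' := by linarith only [hK', hK₂, hK1s0, hK00]
  obtain ⟨εs, hεs, HS⟩ := HS K' hK1s'
  refine ⟨min εs ε₀n, lt_min hεs hε₀n, fun ε hε hεε S g₀ P θ P₂ θ₂ Eb e₂ c
    Pt rt L T G g hG hg hder hZ => ?_⟩
  have hεn : ε ≤ ε₀n := hεε.trans (min_le_right _ _)
  obtain ⟨ps, Mq, B₀s, B₁s, hBs, HS⟩ := HS ε hε (hεε.trans (min_le_left _ _)) S g₀ P θ P₂ θ₂ Eb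
    e₂ c Pt rt L T G g hG hg hder (zfR_mono hZ hδs3 (le_max_right _ _))
  refine ⟨fun | 0 => Sum.inl (Sum.inl (Sum.inl ((range r, max D D * max 1 D), el)))
              | 1 => Sum.inl (Sum.inl (Sum.inr ()))
              | 2 => Sum.inr r
              | (j + 3) => Sum.inl (Sum.inr (ps j)), Mq + 3,
    fun | 0 => 0 | 1 => 0 | 2 => 0 | (j + 3) => B₀s j,
    fun | 0 => 1 | 1 => 1 | 2 => 1 | (j + 3) => B₁s j,
    fun j hj => ?_, fun k₀ hk₀ => ?_⟩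
  · match j with
    | 0 => exact one_pos
    | 1 => exact one_pos
    | 2 => exact one_pos
    | (j + 3) => exact hBs j (by omega)
  have hA : AltR ((range r, max D D * max 1 D), el) (k₀ 0) S P θ c Pt rt L T κ G g :=
    hk₀ 0 (by omega)
  have hC : CuQ () (k₀ 1) S P θ c Pt rt L T κ G g := hk₀ 1 (by omega)
  have hV : VrU r (k₀ 2) S P θ c Pt rt L T κ G g := hk₀ 2 (by omega)
  obtain ⟨qs, hqs, HS⟩ := HS (fun j => k₀ (j + 3)) (fun j hj => hk₀ (j + 3) (by omega))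
  have hchG : ChG S c (r + 1) (fun l x => L l x x) G := ⟨fun w hw => by
    obtain ⟨rd, h1, h2⟩ := hC w hw
    exact ⟨_, rd, h1, h2⟩⟩
  have hchr : ChG S c r (fun l x => L l x x) G := hV.ch r (by omega)
  have hat : ∀ w ∈ G, ∃ rk, 0 ≤ rk ∧ Att S ((range r).image c) (c r) w (L r w w) rk :=
    fun w hw => by
      obtain ⟨rd, h1, h2⟩ := hC w hw
      exact ⟨rd r, h1 r (by omega), h2.att r (Nat.zero_le _) (by omega)⟩
  have g1 : g < 1 := by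
    obtain ⟨rd, h1, h2⟩ := hC g hg
    exact h2.u0
  obtain ⟨φg, hφg0, hU⟩ := hV.rt (by omega) hκ
  have hdr := hder r (by omega)
  rw [haE] at hdr
  -- the time deficit and the positivity at the class
  by_cases hT : TmC S 6 ∧ ∀ (τ : ℝ) (J : ℕ) (F : Fam (r + 2) J) (A : F.Ω → Prop), S.St τ J F A →
      0 < Pe F.p A
  rotate_left
  · refine ⟨1, one_pos, fun q t x hq hx N A V N' V' R hp hv pf pr Nf hpf hpr1 hpr2 hNf hYn => ?_⟩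
    exact absurd ⟨R.tmc, R.pos⟩ hT
  obtain ⟨htm, hpos⟩ := hT
  by_cases hφg : φg < dd
  · -- the dead case
    obtain ⟨q₁, hq₁, H⟩ := hU.f1s htm hpos hchr hat g1 ha0.le hdr hφg hK₀.le hkfa hφ0.le hφ1
    refine ⟨q₁, hq₁, fun q t x hq hx N A V N' V' R hp hv pf pr Nf hpf hpr1 hpr2 hNf hYn =>
      ?_⟩
    obtain ⟨S', c1, c2, η, hη⟩ := rnum_at R t
    have htG : t ∈ G := by
      obtain ⟨j, hj, e⟩ := hVW 0 w2
      obtain ⟨j', hj', e'⟩ := hv j hj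
      have h1 := R.memG.2 j' hj'
      rwa [e', e, zero_mul, add_zero] at h1
    obtain ⟨e, he, hF⟩ := H q t R.q0 hq htG R.near S' c2 ⟨η, hη⟩ pf pr Nf
      (fun l hl => (hpf l hl).1) hpr1 hNf
    rw [haE]
    exact ⟨S', c1, c2, e, he, hF⟩
  -- the alive case
  obtain ⟨Rb, hRbE⟩ : ∃ Rb, Rb = K₀ + R₁ + 3 := ⟨_, rfl⟩
  have hRb : 0 < Rb := by linarith only [hRbE, hK₀, hR₁]
  obtain ⟨κ₀, hκ₀, εa, hεa, qa, hqa, HV⟩ := hU.alvs htm hpos hchr hat g1 ha0.le hdr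
    (c' := dd / 2) (R := Rb) (θ := lm) (by linarith only [hφg, hdd]) hRb hlm
  obtain ⟨ρb, hρb, HB⟩ := der_box hdr (show 0 < εa / Rb by positivity)
  obtain ⟨e₀, ρ₀, π₀, a1, a2, a3, a4⟩ := alt_ful helq hA hg (β := Sl (r + 1) * Real.log 2)
    (δ := δs) (D := max (max D D * max 1 D) ls.2) (le_max_left _ _)
    (fun i i1 i2 i3 i4 i5 i6 i7 i8 φ e k₀ he hrt =>
      hZ i ⟨i1, i2, i3, i4, i5, i6, i7⟩ i8 φ e k₀ he hrt)
  obtain ⟨μ, hμE⟩ : ∃ μ : ℝ, μ = (1 / 2) ^ (k₀ 0) := ⟨_, rfl⟩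
  have hμ : 0 < μ := by rw [hμE]; positivity
  rw [← hμE] at a2 a3
  have hKK : 0 < K₀ + K' := by linarith only [hK₀, hK'0]
  have hτ0 : (0 : ℝ) ≤ τ 0 := Nat.cast_nonneg _
  have hbτ : 0 ≤ b * τ 0 := by positivity
  have hXq : 0 < 3 ^ r * X + 1 := by positivity
  obtain ⟨q₁, hq₁E⟩ : ∃ q₁, q₁ = min (min qs qa) (min (min (μ / (K₀ + K'))
      (μ / 4 / (2 * (b * τ 0) + 4))) (min (μ / (K₀ + 2 * R₁ + 5 + τ 0))
      (min (ρb / Rb) (κ₀ / (3 ^ r * X + 1))))) := ⟨_, rfl⟩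
  have hq₁ : 0 < q₁ := by rw [hq₁E]; positivity
  refine ⟨q₁, hq₁, fun q t x hq hx N A V N' V' R hp hv pf pr Nf hpf hpr1 hpr2 hNf hYn => ?_⟩
  have hq0 := R.q0
  have hqs' : q < qs := hq.trans_le (by
    rw [hq₁E]
    exact (min_le_left _ _).trans (min_le_left _ _))
  have hqa' : q < qa := hq.trans_le (by
    rw [hq₁E]
    exact (min_le_left _ _).trans (min_le_right _ _))
  have hq1 : (K₀ + K') * q ≤ μ := by
    have h1 : q ≤ μ / (K₀ + K') := hq.le.trans (by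
      rw [hq₁E]
      exact (min_le_right _ _).trans ((min_le_left _ _).trans (min_le_left _ _)))
    rw [le_div_iff₀ hKK] at h1
    linarith only [h1]
  have hq2 : (2 * (b * τ 0) + 4) * q ≤ μ / 4 := by
    have h1 : q ≤ μ / 4 / (2 * (b * τ 0) + 4) := hq.le.trans (by
      rw [hq₁E]
      exact (min_le_right _ _).trans ((min_le_left _ _).trans (min_le_right _ _)))
    rw [le_div_iff₀ (by positivity)] at h1
    linarith only [h1]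
  have hq3 : (K₀ + 2 * R₁ + 5 + τ 0) * q ≤ (1 / 2) ^ (k₀ 0) := by
    rw [← hμE]
    have h1 : q ≤ μ / (K₀ + 2 * R₁ + 5 + τ 0) := hq.le.trans (by
      rw [hq₁E]
      exact (min_le_right _ _).trans ((min_le_right _ _).trans (min_le_left _ _)))
    rw [le_div_iff₀ (by positivity)] at h1
    linarith only [h1]
  have hq4 : Rb * q < ρb := by
    have h1 : q < ρb / Rb := hq.trans_le (by
      rw [hq₁E]
      exact (min_le_right _ _).trans ((min_le_right _ _).trans ((min_le_right _ _).trans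
        (min_le_left _ _))))
    rw [lt_div_iff₀ hRb] at h1
    linarith only [h1]
  have hq5 : (3 ^ r * X + 1) * q ≤ κ₀ := by
    have h1 : q ≤ κ₀ / (3 ^ r * X + 1) := hq.le.trans (by
      rw [hq₁E]
      exact (min_le_right _ _).trans ((min_le_right _ _).trans ((min_le_right _ _).trans
        (min_le_right _ _))))
    rw [le_div_iff₀ hXq] at h1
    linarith only [h1]
  have hnear : ∀ x : ℝ, |x| ≤ K' → |t + x * q - g| ≤ μ := fun x hx => by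
    have h1 := abs_le.1 R.near
    have h2 := abs_le.1 hx
    have h3 := mul_le_mul_of_nonneg_right h2.1 hq0.le
    have h4 := mul_le_mul_of_nonneg_right h2.2 hq0.le
    rw [abs_le]
    exact ⟨by linarith only [h1.1, h3, hq1], by linarith only [h1.2, h4, hq1]⟩
  -- the supply
  rcases HS q t (fun j => x (j + 3)) hqs' (fun j hj => hx (j + 3) (by omega)) N A V N' V' R hp
    (fun k hk => by
      obtain ⟨j, hj, e⟩ := hVW _ (w6 k hk)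
      obtain ⟨j', hj', e'⟩ := hv j hj
      exact ⟨j', hj', e'.trans e⟩) pf pr Nf hpf hpr1 hpr2 hNf with hY | hY
  · exact absurd hY hYn
  exfalso
  obtain ⟨S₃, hne₃, hs₃, κ', hκ', hX⟩ := hY
  have R₃ := (R.sub hne₃ hs₃).wins hv
  have hVK : ∀ k < Nv, |Vv k| ≤ K' := fun k hk => (hVB k hk).trans hBK
  obtain ⟨S₁, hne₁, hs₁, R₁', hlab⟩ := HL R₃ hK'0 hVK (fun w hw => by
      obtain ⟨rd, h1, h2⟩ := hC w hw
      exact ⟨rd, h1, h2.sub hs₃⟩) (e₀ := e₀) (ρ₀ := ρ₀) (π₀ := π₀) hμ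
    (fun k hk => altC_sub hs₃ (a3 _ (R₃.memG.2 k hk) (hnear _ (hVK k hk))))
  have hs₁' : ∀ (τ : ℝ) (J : ℕ) (F : Fam (r + 2) J) (A : F.Ω → Prop), S₁.St τ J F A →
      S.St τ J F A := fun τ J F A h1 => hs₃ τ J F A (hs₁ τ J F A h1)
  subst hΛE
  refine HR hne₁ hs₁' R₁' hκ haE hbE hC hμ a2 a3 hnear (fun k hk => ?_) (el := el)
    (dl := δs + el) (k₀ := k₀ 0) (fun S' h1 h2 w₀ h3 h4 h5 => ?_)
    (HN K' hK0' ε hε hεn el (δs + el) hel0.le hel3 (by linarith only [hδs, hel0])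
      (by linarith only [hδs1, hel1])) hq3 hq2 (ρ := e' / 32) (κ' := κ') hDg hκ' le_rfl
    (Bas.sub hs₁ hX) (hVW _ w1) (hVW _ w2) (hVW _ w3) (fun k hk => hVW _ (w4 k hk))
    (fun z hz k hk => hVW _ (w5 z hz k hk)) ?_
  · obtain ⟨⟨E, h1, h2⟩, h3⟩ := hlab k hk
    refine ⟨⟨E, h1, alw_deg h2 hD₁⟩, fun e he => Bas.mono 0 (h3 e he) ?_⟩
    rintro J - F A ⟨V₁, z, z', g', h4⟩
    exact ⟨V₁, z, z', g', fun i hi1 hi2 => (h4 i hi1 hi2).mono (Finset.Subset.refl _) hD₁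
      le_rfl le_rfl le_rfl⟩
  · obtain ⟨φ, h6, h7⟩ := a4 S' h1 h2 w₀ h3 h4 h5
    rw [hbE] at h6
    exact ⟨φ, by linarith only [h6], h7⟩
  -- alive
  intro S' hs' lam y t' hl1 hl2 hy1 hy2 ht' htG hη Nv' hNv'
  have hlam0 : 0 < lam := hlm.trans_le hl1
  have htn := abs_le.1 R.near
  have hlq : 0 < lam * q := mul_pos hlam0 hq0
  have hyq := mul_le_mul_of_nonneg_right hy1 hq0.le
  have hyq2 := mul_le_mul_of_nonneg_right hy2 hq0.le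
  have hR₁q : 0 ≤ R₁ * q := mul_nonneg hR₁ hq0.le
  have hK₀q : 0 < K₀ * q := mul_pos hK₀ hq0
  have hRbq : Rb * q = K₀ * q + R₁ * q + 3 * q := by rw [hRbE]; ring
  have k1 : g - Rb * q ≤ t' := by rw [ht']; linarith only [htn.1, hyq, hRbq, hq0]
  have k2 : t' + lam * q ≤ g + Rb * q := by
    rw [ht']
    linarith only [htn.2, hyq2, hRbq, hq0, hR₁q]
  have hlq1 : lm * q ≤ lam * q := mul_le_mul_of_nonneg_right hl1 hq0.le
  have hD := abs_le.1 (HB (Rb * q) (mul_pos hRb hq0) hq4 t' (t' + lam * q) k1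
    (by linarith only [hlq]) k2)
  have eR : εa / Rb * (Rb * q) = εa * q := by field_simp
  rw [eR] at hD
  have e1 : t' + lam * q - t' = lam * q := by ring
  rw [e1] at hD
  obtain ⟨e, he, hF⟩ := HV q t' t' (t' + lam * q) hq0 hqa' htG k1 le_rfl
    (by linarith only [hlq1]) k2 S' (fun τ J F A h => hs₁' τ J F A (hs' τ J F A h)) hη
    ((3 ^ r * X + 1) * q) (fun l => L l t' t') (L r t' t')
    (L r t' t' + (a - 1) * (lam * q) - t') Nv' hq5 (fun l _ => by linarith only [hq0])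
    (by linarith only [hq0]) (fun l hl j hj => hNv' l hl j hj) (by linarith only [hD.2])
  rw [e1] at hF
  exact ⟨e, he, hF⟩

/-- **The first jet of the place** at the windows of full rate, or no drop, for all slopes
`1 < a < b`, from the supply of the closed slope. -/
theorem f1ud_res {r : ℕ} (hr : 1 ≤ r) {h : ℝ} (hh : 0 < h) (hh1 : h ≤ 1) {Sl : ℕ → ℝ}
    {κ : ℕ → Kg} (hκ : ∀ l < r, κ l = .one) (ha : 1 < Sl r) (hab : Sl r < Sl (r + 1))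
    {ι : Type} {Q : PropG (r + 2) ι} {R₁ : ℝ} (hR₁ : 0 ≤ R₁)
    (hS : BlSup (r + 2) r h Sl κ Q (ZfR r Sl) R₁) :
    F1UD (r + 2) r h Sl κ
      (sumQ (sumQ (sumQ (AltR : PropG (r + 2) AltUI) (CuQ : PropG (r + 2) Unit)) Q)
        (VrU : PropG (r + 2) ℕ))
      (ZfR r Sl) := by
  intro al hal K₀ hK₀ del hdel S₀ hS₀
  have H := f1uy_res hr hh hh1 hκ ha hab hR₁ (Y := AltF (r + 2) r Sl del)
    (fun al hal K₀ hK₀ => hS al hal K₀ hK₀ del hdel)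
  obtain ⟨Kr, Nr, Ar, Vr, hKr, hAV, H⟩ := H al hal K₀ hK₀ S₀ hS₀
  refine ⟨Kr, Nr, Ar, Vr, hKr, hAV, fun S₂ hS₂ dd hdd => ?_⟩
  obtain ⟨lam, kf, φ, hkf, hφ, K₁, Nv, Vv, hVv, H⟩ := H S₂ hS₂ dd hdd
  refine ⟨lam, kf, φ, hkf, hφ, K₁, Nv, Vv, hVv, fun K' hK' => ?_⟩
  obtain ⟨ε₀, hε₀, H⟩ := H K' hK'
  refine ⟨ε₀, hε₀, fun ε hε hεε S g₀ P θ P₂ θ₂ Eb e₂ c Pt rt L T G g hG hg hder hZ => ?_⟩
  obtain ⟨p, M, B₀, B₁, hB, H⟩ := H ε hε hεε S g₀ P θ P₂ θ₂ Eb e₂ c Pt rt L T G g hG hg hder hZ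
  refine ⟨p, M, B₀, B₁, hB, fun k₀ hk₀ => ?_⟩
  obtain ⟨q₁, hq₁, H⟩ := H k₀ hk₀
  refine ⟨q₁, hq₁, fun q t x hq hx N A V N' V' R hp hv pf pr Nf hpf hpr1 hpr2 hNf => ?_⟩
  by_cases hY : AltF (r + 2) r Sl del dd S c L q t pf pr Nf
  · exact hY
  · exact Or.inl (H q t x hq hx N A V N' V' R hp hv pf pr Nf hpf hpr1 hpr2 hNf hY)

/-- **The first jet of the place** at the windows of full rate, for all slopes `1 < a < b`, from a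
supply of the closed slope at all scales where the first jet is not few bits. -/
theorem f1us_res {r : ℕ} (hr : 1 ≤ r) {h : ℝ} (hh : 0 < h) (hh1 : h ≤ 1) {Sl : ℕ → ℝ}
    {κ : ℕ → Kg} (hκ : ∀ l < r, κ l = .one) (ha : 1 < Sl r) (hab : Sl r < Sl (r + 1))
    {ι : Type} {Q : PropG (r + 2) ι} {R₁ : ℝ} (hR₁ : 0 ≤ R₁) {Y : PropY (r + 2)}
    (hY : ∀ dd S c L q t pf pr Nf, Y dd S c L q t pf pr Nf → ∃ S' : PCl (r + 2), S'.Ne ∧
      (∀ (τ : ℝ) (J : ℕ) (F : Fam (r + 2) J) (A : F.Ω → Prop), S'.St τ J F A → S.St τ J F A) ∧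
      ∃ e : ℝ, 0 < e ∧ F1 S' (fun J F => ptr F J) (vg t) (fun _ F => F.T)
        (qJets (r + 2) c 0 r 1 (fun _ _ => t) (fun l _ => pf l) Nf)
        (qJet (r + 2) ((range r).image c) (c r) 1 t pr (L r t t + (Sl r - 1) * q - t)) e (dd * q))
    (hS : BlSupY (r + 2) r h Sl κ Q (ZfR r Sl) R₁ Y) :
    F1US (r + 2) r h Sl κ
      (sumQ (sumQ (sumQ (AltR : PropG (r + 2) AltUI) (CuQ : PropG (r + 2) Unit)) Q)
        (VrU : PropG (r + 2) ℕ))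
      (ZfR r Sl) := by
  intro al hal K₀ hK₀ S₀ hS₀
  have H := f1uy_res hr hh hh1 hκ ha hab hR₁ hS
  obtain ⟨Kr, Nr, Ar, Vr, hKr, hAV, H⟩ := H al hal K₀ hK₀ S₀ hS₀
  refine ⟨Kr, Nr, Ar, Vr, hKr, hAV, fun S₂ hS₂ dd hdd => ?_⟩
  obtain ⟨lam, kf, φ, hkf, hφ, K₁, Nv, Vv, hVv, H⟩ := H S₂ hS₂ dd hdd
  refine ⟨lam, kf, φ, hkf, hφ, K₁, Nv, Vv, hVv, fun K' hK' => ?_⟩
  obtain ⟨ε₀, hε₀, H⟩ := H K' hK'
  refine ⟨ε₀, hε₀, fun ε hε hεε S g₀ P θ P₂ θ₂ Eb e₂ c Pt rt L T G g hG hg hder hZ => ?_⟩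
  obtain ⟨p, M, B₀, B₁, hB, H⟩ := H ε hε hεε S g₀ P θ P₂ θ₂ Eb e₂ c Pt rt L T G g hG hg hder hZ
  refine ⟨p, M, B₀, B₁, hB, fun k₀ hk₀ => ?_⟩
  obtain ⟨q₁, hq₁, H⟩ := H k₀ hk₀
  refine ⟨q₁, hq₁, fun q t x hq hx N A V N' V' R hp hv pf pr Nf hpf hpr1 hpr2 hNf => ?_⟩
  by_cases hYn : Y dd S c L q t pf pr Nf
  · exact hY _ _ _ _ _ _ _ _ _ hYn
  · exact H q t x hq hx N A V N' V' R hp hv pf pr Nf hpf hpr1 hpr2 hNf hYn

/-- **The supply of the closed slope** from the closed slope at all records. -/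
theorem blSupY_bxT {r : ℕ} {h : ℝ} {Sl : ℕ → ℝ} {κ : ℕ → Kg} {ι Λ : Type} {Q : PropG (r + 2) ι}
    {Z : PropZ (r + 2) Λ} (H : Pool.ALT.BxT r h Sl κ Q Z) (Y : PropY (r + 2)) :
    BlSupY (r + 2) r h Sl κ Q Z 0 Y := by
  intro al hal K₀ hK₀ S₀ hS₀ R₀ hR₀
  obtain ⟨y₁, hy₁, Kr, Nr, Ar, Vr, hKr, hAV, H⟩ := H al hal K₀ hK₀ S₀ hS₀ R₀ 1 (fun _ => 0)
  refine ⟨-y₁, by linarith, Kr, Nr, Ar, Vr, hKr, hAV, fun S₂ hS₂ => ?_⟩
  obtain ⟨Kx, K₁x, H⟩ := H S₂ hS₂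
  refine ⟨max Kx K₁x, fun dd hdd => ⟨1, 0, one_pos, fun φ hφ0 hφ kf hkf ρ hρ => ?_⟩⟩
  obtain ⟨lam, K₁, Nv, Vv, hVv, H⟩ := H (min ρ 1) (lt_min hρ one_pos) (min_le_right _ _)
  refine ⟨lam, K₁, Nv, Vv, hVv, fun K' hK' => ?_⟩
  obtain ⟨ε₀, hε₀, H⟩ := H K' hK'
  refine ⟨ε₀, hε₀, fun ε hε hεε S g₀ P θ P₂ θ₂ Eb e₂ c Pt rt L T G g hG hg hder hZ => ?_⟩
  obtain ⟨p, M, B₀, B₁, hB, H⟩ := H ε hε hεε S g₀ P θ P₂ θ₂ Eb e₂ c Pt rt L T G g hG hg hder hZ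
  refine ⟨p, M, B₀, B₁, hB, fun k₀ hk₀ => ?_⟩
  obtain ⟨q₁, hq₁, H⟩ := H k₀ hk₀
  refine ⟨q₁, hq₁, fun q t x hq hx N A V N' V' R hp hv pf pr Nf hpf hpr1 hpr2 hNf =>
    Or.inr ⟨S, R.ne, fun τ J F A h => h, ?_⟩⟩
  obtain ⟨κ', hκ', hX⟩ := H q t x hq hx N A V N' V' R hp hv
  have hρq : min ρ 1 * q ≤ ρ * q := mul_le_mul_of_nonneg_right (min_le_left _ _) R.q0.le
  have e0 : t + 0 * q = t - 0 * q := by ring
  refine ⟨κ', hκ', hX.sel (le_max_left _ _) (le_max_right _ _) ?_ (fun _ => 0)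
    (fun k _ => by norm_num) (fun k _ => ?_) (fun k _ => ?_) (fun k _ => ?_) le_rfl⟩
  · linarith only [hρq]
  · exact e0.symm
  · show L (r + 1) (t - 0 * q) (t - 0 * q) - ρ * q ≤ L (r + 1) (t + 0 * q) (t + 0 * q) -
      min ρ 1 * q
    rw [e0]
    linarith only [hρq]
  · show L r (t + 0 * q) (t + 0 * q) - L (r + 1) (t + 0 * q) (t + 0 * q) + min ρ 1 * q ≤
      L r (t - 0 * q) (t - 0 * q) - L (r + 1) (t - 0 * q) (t - 0 * q) + ρ * q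
    rw [e0]
    linarith only [hρq]

end Pool.CR99

namespace Pool.ASM

open Finset Real
open Pool.GEN Pool.PKG Pool.SW Pool.ALT Pool.PN18 Pool.CR99 Pool.RV28
open Pool.LA91 (FaQ sumQ HerQ her_sum her_fa aePG_fa aePG_sum)

/-- **The first jet of the place 2** at the windows of full rate, if the last slope is larger than
the slope of the place 2, resonant slopes included, from the supply of the closed slope. -/
theorem cbF_sup_all {k : Kg} (hk : k = .stp ∨ k = .thin ∨ k = .sta) {Φ : (ℕ → ℝ) → Prop}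
    {R₁ : (ℕ → ℝ) → ℝ} (H : SupF k Φ R₁) : CbF k (fun Sl => Sl 2 < Sl 3 ∧ Φ Sl) := by
  obtain ⟨ι, hc, Q, hA, hH, H⟩ := H
  refine ⟨((AltUI ⊕ Unit) ⊕ ι) ⊕ ℕ, inferInstance,
    sumQ (sumQ (sumQ (AltR : PropG 4 AltUI) (CuQ : PropG 4 Unit)) Q) (VrU : PropG 4 ℕ),
    aePG_sum (aePG_sum (aePG_sum (aePG_altR 4) (her_altR 4) (aePG_cu 4))
      (her_sum (her_altR 4) (her_cu 4)) hA) (her_sum (her_sum (her_altR 4) (her_cu 4)) hH)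
      (aePG_vu 4), her_sum (her_sum (her_sum (her_altR 4) (her_cu 4)) hH) (her_vu 4), ?_⟩
  rintro h hh hh1 Sl hS ⟨hab, hΦ⟩
  obtain ⟨hR, H⟩ := H h hh hh1 Sl hS hΦ
  have ha : 1 < Sl 2 := by
    rcases hk with hk | hk | hk
    · have := hS.stp hk
      linarith
    · exact hS.thin hk
    · have := hS.sta hk
      linarith
  exact f1ud_res (r := 2) (by norm_num) hh hh1 (fun l hl => by interval_cases l <;> rfl) ha
    hab hR H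

/-- **The first jet of the place 2**, without the alternative, from the closed slope at all
records. -/
theorem f1TP_bx {k : Kg} (hk : k = .stp ∨ k = .thin ∨ k = .sta) {Φ : (ℕ → ℝ) → Prop}
    (H : BxTP k Φ FulB) : F1TP k (fun Sl => Sl 2 < Sl 3 ∧ Φ Sl) FulB := by
  obtain ⟨ι, hc, Q, hA, hH, H⟩ := H
  refine ⟨((AltUI ⊕ Unit) ⊕ ι) ⊕ ℕ, inferInstance,
    sumQ (sumQ (sumQ (AltR : PropG 4 AltUI) (CuQ : PropG 4 Unit)) Q) (VrU : PropG 4 ℕ),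
    aePG_sum (aePG_sum (aePG_sum (aePG_altR 4) (her_altR 4) (aePG_cu 4))
      (her_sum (her_altR 4) (her_cu 4)) hA) (her_sum (her_sum (her_altR 4) (her_cu 4)) hH)
      (aePG_vu 4), her_sum (her_sum (her_sum (her_altR 4) (her_cu 4)) hH) (her_vu 4), ?_⟩
  rintro h hh hh1 Sl hS ⟨hab, hΦ⟩
  have H := H h hh hh1 Sl hS hΦ
  have ha : 1 < Sl 2 := by
    rcases hk with hk | hk | hk
    · have := hS.stp hk
      linarith
    · exact hS.thin hk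
    · have := hS.sta hk
      linarith
  exact f1us_res (r := 2) (by norm_num) hh hh1 (fun l hl => by interval_cases l <;> rfl) ha
    hab le_rfl (fun _ _ _ _ _ _ _ _ _ h => h.elim)
    (blSupY_bxT H (fun _ _ _ _ _ _ _ _ _ => False))

/-- **s3 of `kp4_parts6`** from the closed slope, the target static. -/
theorem f1TP_sta_ab (H : BxTP .sta (fun Sl => Sl 2 < Sl 3) FulB) :
    F1TP .sta (fun Sl => Sl 2 < Sl 3) FulB := by
  obtain ⟨ι, hι, Q, h1, h2, H⟩ := f1TP_bx (Or.inr (Or.inr rfl)) H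
  exact ⟨ι, hι, Q, h1, h2, fun h hh hh1 Sl hS hΦ => H h hh hh1 Sl hS ⟨hΦ, hΦ⟩⟩

end Pool.ASM
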