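import Pool.Agent.H99.D2.Rga

/-!
# The closed slope at the windows of a record

`blx_scl`: the closed slope `BlX`, by scaling, from the aliveness of the velocity of `u = c r` at an
earlier window.
-/

set_option autoImplicit false

namespace Pool.CR99

open Finset Real MvPolynomial
open Pool.Agent.H49.Ent Pool.Agent.H32.Dense Pool.STK Pool.KA Pool.KSAT Pool.K2S Pool.PB Pool.S6C
open Pool.GEN Pool.CHT Pool.CHX Pool.ISO Pool.D2R Pool.D2G30 Pool.V1E Pool.PKG
open Pool.LBT (ThrOf)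
open Pool.LEV (Law)

/-- **The closed slope at the windows of a record**, by scaling, from the
aliveness at an earlier window. -/
theorem blx_scl (m r S₂ : ℕ) (hS₂ : 1 ≤ S₂) : ∃ D : ℕ, 1 ≤ D ∧
    ∀ {α b ρ a V₀ Vm Vd Ve : ℝ}, 0 < ρ → ρ ≤ 1 → α < b → Ve ≤ V₀ → V₀ ≤ Vm → Vm < Vd →
    Vd + 1 ≤ a → (b - 1) * (Vd - Ve) ≤ a - Vd → 1 ≤ b →
    (b - α) * (Vm - V₀) < (1 - (b - α)) * (V₀ - Ve) →
    ∃ θ₀ : ℝ, 0 < θ₀ ∧ ∀ θ : ℝ, 0 < θ → θ ≤ θ₀ → ∃ ε₀ : ℝ, 0 < ε₀ ∧
    ∀ {S : PCl m} {al : ℝ} {g₀ : ℝ → ℝ}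
    {P : List (Fin m) × Fin m → ℝ → ℝ → ℝ} {ϑ : ℝ}
    {P₂ : ℕ → List (Fin m) × Fin m → ℝ → ℝ → ℝ} {θ₂ Eb e₂ : ℕ → ℝ} {c : ℕ → Fin m}
    {Pt : ℝ → ℝ → ℝ} {rr : ℝ → ℝ} {h K₀ g : ℝ} {L T : ℕ → ℝ → ℝ → ℝ} {Sl : ℕ → ℝ}
    {κ : ℕ → Kg} {G : Set ℝ} {S₀ N : ℕ} {A V : ℕ → ℝ} {N' : ℕ} {V' : ℕ → ℝ} {K ε q t : ℝ},
    RecG S al g₀ P ϑ P₂ θ₂ Eb e₂ c Pt rr h K₀ g L T Sl κ G S₀ N A V S₂ N' V' K ε q t →
    r + 1 < m → 0 ≤ ε → ε ≤ ε₀ → Sl r = α → Sl (r + 1) = b → κ r = .one ∨ κ r = .thin →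
    κ (r + 1) = .stp ∨ κ (r + 1) = .sta → -K + 1 ≤ Ve → a ≤ K → 1 ≤ K →
    ∀ {W : ℕ → ℝ} {n : ℕ}, W 0 = V₀ → (∀ k ≤ n, V₀ ≤ W k ∧ W k ≤ Vm) →
    (∀ k ≤ n, ∃ j < N, A j = a ∧ V j = W k) → (∃ j < N, A j = a ∧ V j = Vd) →
    (∃ j < N, A j = a ∧ V j = Ve) →
    ∀ {hi lvl ν : ℝ}, 0 < ν → AlvS S c r (t + Ve * q) hi lvl ν →
    (∀ l ≤ r + 1, Eb (r + 1) + L l (t + Ve * q) (t + Ve * q) + q ≤ hi) →
    L r (t + Ve * q) (t + Ve * q) - (t + Ve * q) + θ / 2 * q ≤ lvl →
    lvl ≤ L r (t + Ve * q) (t + Ve * q) - (t + Ve * q) + θ * q →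
    ∃ κ' : ℝ, 0 < κ' ∧ BlX S c r (bdg D) D (t + V₀ * q)
      (L (r + 1) (t + V₀ * q) (t + V₀ * q) - ρ * q) (n + 1) (fun k => t + W k * q)
      (fun k => L (r + 1) (t + W k * q) (t + W k * q) - ρ * q)
      (fun k => L r (t + W k * q) (t + W k * q) - L (r + 1) (t + W k * q) (t + W k * q) + ρ * q)
      κ' := by
  obtain ⟨D, hD, hw⟩ := wgs_rec m r S₂ hS₂
  obtain ⟨C, hC, hw⟩ := hw D le_rfl
  obtain ⟨C₁, hC₁, hbx⟩ := blx_wg m D r
  obtain ⟨C₂, hC₂, hvl⟩ := vls_scl m D r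
  refine ⟨D, hD, ?_⟩
  intro α b ρ a V₀ Vm Vd Ve hρ hρ1 hαb hVe0 hV0m hVmd hVda hrow hb1 hgap
  have c1 : (1 : ℝ) ≤ C₁ := by exact_mod_cast hC₁
  have c2 : (1 : ℝ) ≤ C₂ := by exact_mod_cast hC₂
  have d1 : (1 : ℝ) ≤ D := by exact_mod_cast hD
  obtain ⟨γ, hγ⟩ : ∃ γ : ℝ, γ = min ρ (min ((1 - (b - α)) * (V₀ - Ve) - (b - α) * (Vm - V₀))
    ((b - α) * (Vd - Vm))) := ⟨_, rfl⟩
  have hγ0 : 0 < γ := by
    rw [hγ]
    exact lt_min hρ (lt_min (by linarith) (mul_pos (by linarith) (by linarith)))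
  have hγρ : γ ≤ ρ := by rw [hγ]; exact min_le_left _ _
  have hγg : γ ≤ (1 - (b - α)) * (V₀ - Ve) - (b - α) * (Vm - V₀) := by
    rw [hγ]; exact (min_le_right _ _).trans (min_le_left _ _)
  have hγg2 : γ ≤ (b - α) * (Vd - Vm) := by
    rw [hγ]; exact (min_le_right _ _).trans (min_le_right _ _)
  refine ⟨γ / (8 * D * D), by positivity, fun θ hθ hθ₀ => ?_⟩
  rw [le_div_iff₀ (by positivity)] at hθ₀
  obtain ⟨η, hη⟩ : ∃ η : ℝ, η = min γ (min θ 1) / (64 * (C₁ + C₂) * C) := ⟨_, rfl⟩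
  have hη0 : 0 < η := by rw [hη]; positivity
  have hCp : 0 < C := by linarith
  have hη1 : 64 * (C₁ + C₂) * (C * η) = min γ (min θ 1) := by
    rw [hη]
    field_simp
  have m1 : min γ (min θ 1) ≤ γ := min_le_left _ _
  have m2 : min γ (min θ 1) ≤ θ := (min_le_right _ _).trans (min_le_left _ _)
  have m3 : min γ (min θ 1) ≤ 1 := (min_le_right _ _).trans (min_le_right _ _)
  rw [← hη1] at m1 m2 m3
  have hCη0 : 0 < C * η := by positivity
  have x1 : C * η ≤ C₁ * (C * η) := le_mul_of_one_le_left hCη0.le c1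
  have x2 : C * η ≤ C₂ * (C * η) := le_mul_of_one_le_left hCη0.le c2
  have x3 : 64 * (C₁ + C₂) * (C * η) = 64 * (C₁ * (C * η)) + 64 * (C₂ * (C * η)) := by ring
  rw [x3] at m1 m2 m3
  refine ⟨min (η / (6 * C)) (γ / (64 * (C₁ + C₂))), by positivity, ?_⟩
  intro S al g₀ P ϑ P₂ θ₂ Eb e₂ c Pt rr h K₀ g L T Sl κ G S₀ N A V N' V' K ε q t Rc hr hε hε₀ hα
    hb hκu hκN hKV haK hK1 W n hW0 hWV hWj hdj hej hi lvl ν hν hal hhi hl1 hl2
  have hq := Rc.q0
  have ht0 := Rc.t0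
  have ht1 := Rc.t1
  have Tg := Rc.tg (r + 1) (by omega) hr
  have hε1 := hε₀.trans (min_le_left _ _)
  have hε2 := hε₀.trans (min_le_right _ _)
  rw [le_div_iff₀ (by positivity)] at hε1 hε2
  have hεC : 3 * C * ε < η := by
    have : 0 < η / 2 := by positivity
    linarith
  have y1 : ε ≤ C₁ * ε := le_mul_of_one_le_left hε c1
  have y3 : ε * (64 * (C₁ + C₂)) = 64 * (C₁ * ε) + 64 * (C₂ * ε) := by ring
  have y2 : ε ≤ C₂ * ε := le_mul_of_one_le_left hε c2
  rw [y3] at hε2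
  -- the windows
  obtain ⟨W', hW'⟩ : ∃ W' : ℕ → ℝ, W' = fun k => if k ≤ n then W k else if k = n + 1 then
    Vd else Ve := ⟨_, rfl⟩
  have hW'1 : ∀ k ≤ n, W' k = W k := fun k hk => by rw [hW']; exact if_pos hk
  have hW'2 : W' (n + 1) = Vd := by
    rw [hW']
    show (if n + 1 ≤ n then W (n + 1) else if n + 1 = n + 1 then Vd else Ve) = Vd
    rw [if_neg (by omega), if_pos rfl]
  have hW'3 : W' (n + 2) = Ve := by
    rw [hW']
    show (if n + 2 ≤ n then W (n + 2) else if n + 2 = n + 1 then Vd else Ve) = Ve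
    rw [if_neg (by omega), if_neg (by omega)]
  have hW'0 : W' 0 = V₀ := by rw [hW'1 0 (by omega), hW0]
  have hWb : ∀ k ≤ n + 2, Ve ≤ W' k ∧ W' k ≤ Vd := fun k hk => by
    rcases Nat.lt_or_ge n k with h1 | h1
    · rcases (show k = n + 1 ∨ k = n + 2 by omega) with h2 | h2
      · rw [h2, hW'2]
        constructor <;> linarith
      · rw [h2, hW'3]
        constructor <;> linarith
    · rw [hW'1 k h1]
      exact ⟨hVe0.trans (hWV k h1).1, (hWV k h1).2.trans hVmd.le⟩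
  have hWj' : ∀ k ≤ n + 2, ∃ j < N, A j = a ∧ V j = W' k := fun k hk => by
    rcases Nat.lt_or_ge n k with h1 | h1
    · rcases (show k = n + 1 ∨ k = n + 2 by omega) with h2 | h2
      · rw [h2, hW'2]
        exact hdj
      · rw [h2, hW'3]
        exact hej
    · rw [hW'1 k h1]
      exact hWj k h1
  obtain ⟨K₁, bb, hK₁, hwg⟩ := hw Rc hr hε (a := a) (η := η) (W := W') (n := n + 2) hWj'
    (fun k hk => by
      obtain ⟨h1, h2⟩ := hWb k hk
      constructor <;> linarith) haK hη0 hεC (by linarith)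
  have hlv : ∀ l ≤ r + 1, ∀ x y : ℝ, lvN P c (r + 1) (L (r + 1)) l x y = L l x y :=
    fun l hl x y => by rw [← Rc.lv_at hr hl]
  -- products
  have hηq : 0 < η * q := by positivity
  have e0 : 0 < C * (η * q) := by positivity
  have q1 : 64 * (C₁ * (C * (η * q))) + 64 * (C₂ * (C * (η * q))) ≤ γ * q := by
    have := mul_le_mul_of_nonneg_right m1 hq.le
    linarith
  have q2 : 64 * (C₁ * (C * (η * q))) + 64 * (C₂ * (C * (η * q))) ≤ θ * q := by
    have := mul_le_mul_of_nonneg_right m2 hq.le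
    linarith
  have q3 : 64 * (C₁ * (C * (η * q))) + 64 * (C₂ * (C * (η * q))) ≤ q := by
    have := mul_le_mul_of_nonneg_right m3 hq.le
    linarith
  have q4 : C * (η * q) ≤ C₁ * (C * (η * q)) := le_mul_of_one_le_left e0.le c1
  have q5 : C * (η * q) ≤ C₂ * (C * (η * q)) := le_mul_of_one_le_left e0.le c2
  have q6 : 64 * (C₁ * (ε * q)) + 64 * (C₂ * (ε * q)) ≤ γ * q := by
    have := mul_le_mul_of_nonneg_right hε2 hq.le
    linarith
  have hεq : 0 ≤ ε * q := mul_nonneg hε hq.le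
  have q7 : ε * q ≤ C₁ * (ε * q) := le_mul_of_one_le_left hεq c1
  have q8 : ε * q ≤ C₂ * (ε * q) := le_mul_of_one_le_left hεq c2
  have hγq : 0 < γ * q := by positivity
  have hγρq : γ * q ≤ ρ * q := mul_le_mul_of_nonneg_right hγρ hq.le
  have hρq1 : ρ * q ≤ q := by
    have := mul_le_mul_of_nonneg_right hρ1 hq.le
    linarith
  have hKq : q ≤ K * q := by
    have := mul_le_mul_of_nonneg_right hK1 hq.le
    linarith
  have haKq : a * q ≤ K * q := mul_le_mul_of_nonneg_right haK hq.le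
  have hVKq : -(K * q) + q ≤ Ve * q := by
    have := mul_le_mul_of_nonneg_right hKV hq.le
    linarith
  have hVe0q : Ve * q ≤ V₀ * q := mul_le_mul_of_nonneg_right hVe0 hq.le
  have hWq : ∀ k ≤ n + 2, Ve * q ≤ W' k * q ∧ W' k * q ≤ Vd * q := fun k hk =>
    ⟨mul_le_mul_of_nonneg_right (hWb k hk).1 hq.le, mul_le_mul_of_nonneg_right (hWb k hk).2 hq.le⟩
  have hdaq : Vd * q + q ≤ a * q := by
    have := mul_le_mul_of_nonneg_right hVda hq.le
    linarith
  have hbx' : ∀ k ≤ n + 2, |t + W' k * q - t| ≤ K * q := fun k hk => by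
    obtain ⟨h1, h2⟩ := hWq k hk
    rw [abs_le]
    constructor <;> linarith
  have hlow : ∀ l ≤ r + 1, ∀ k ≤ n + 2, t + W' k * q ≤ L l (t + W' k * q) (t + W' k * q) :=
    fun l hl k hk => by
    obtain ⟨h1, h2⟩ := hWq k hk
    exact Rc.low_at (i := l) (by omega) (by linarith) le_rfl (by linarith)
  have hdN : ∀ k ≤ n + 2, |L (r + 1) (t + W' k * q) (t + W' k * q) - L (r + 1) t t -
      b * (W' k * q)| ≤ ε * q := fun k hk => by
    have := Rc.dL (r + 1) hr _ (hbx' k hk)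
    rw [hb] at this
    rwa [show t + W' k * q - t = W' k * q by ring] at this
  have hdU : ∀ k ≤ n + 2, |L r (t + W' k * q) (t + W' k * q) - L r t t -
      α * (W' k * q)| ≤ ε * q := fun k hk => by
    have := Rc.dL r (by omega) _ (hbx' k hk)
    rw [hα] at this
    rwa [show t + W' k * q - t = W' k * q by ring] at this
  have hrow' : ∀ i ≤ n + 2, ∀ k ≤ n + 2, L (r + 1) (t + W' k * q) (t + W' k * q) +
      (t + a * q - (t + W' k * q)) ≤ L (r + 1) (t + a * q) (t + W' i * q) + 4 * ε * q := by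
    intro i hi' k hk
    obtain ⟨h1, h2⟩ := hWb k hk
    obtain ⟨h3, h4⟩ := hWb i hi'
    refine RecG.row_ge Rc hr hκN hε (hWj' i hi') (by linarith) (by linarith) (by linarith)
      (by linarith) haK ?_
    rw [hb]
    have h5 : (b - 1) * (W' k - W' i) ≤ (b - 1) * (Vd - Ve) :=
      mul_le_mul_of_nonneg_left (by linarith) (by linarith)
    linarith
  have hroomd : ∀ l ≤ r + 1, L l (t + Vd * q) (t + Vd * q) + Eb (r + 1) + 3 * K * q < 1 :=
    fun l hl => Tg.room l hl _ (by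
      have := hbx' (n + 1) (by omega)
      rwa [hW'2] at this)
  have d0N := abs_le.1 (hdN 0 (by omega))
  have d0U := abs_le.1 (hdU 0 (by omega))
  have ddN := abs_le.1 (hdN (n + 1) (by omega))
  have ddU := abs_le.1 (hdU (n + 1) (by omega))
  have deN := abs_le.1 (hdN (n + 2) le_rfl)
  have deU := abs_le.1 (hdU (n + 2) le_rfl)
  rw [hW'0] at d0N d0U
  rw [hW'2] at ddN ddU
  rw [hW'3] at deN deU
  have hgq : γ * q ≤ (V₀ * q - Ve * q) - (b * (V₀ * q) - b * (Ve * q) - (α * (V₀ * q) -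
      α * (Ve * q))) - (b - α) * (Vm - V₀) * q := by
    have := mul_le_mul_of_nonneg_right hγg hq.le
    linarith
  have hgq2 : γ * q ≤ b * (Vd * q) - b * (V₀ * q) - (α * (Vd * q) - α * (V₀ * q)) -
      (b - α) * (Vm - V₀) * q := by
    have := mul_le_mul_of_nonneg_right hγg2 hq.le
    linarith
  have hM0 : 0 ≤ (b - α) * (Vm - V₀) * q :=
    mul_nonneg (mul_nonneg (by linarith) (by linarith)) hq.le
  have hinj : Set.InjOn c (Set.Iio (r + 2)) := Rc.inj.mono fun x hx => by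
    rw [Set.mem_Iio] at hx ⊢
    omega
  have hθD : 2 * D * D * (lvl - (L r (t + Ve * q) (t + Ve * q) - (t + Ve * q))) ≤ γ * q / 4 := by
    have h1 : 2 * D * D * (lvl - (L r (t + Ve * q) (t + Ve * q) - (t + Ve * q))) ≤
        2 * D * D * (θ * q) := mul_le_mul_of_nonneg_left (by linarith) (by positivity)
    have h2 := mul_le_mul_of_nonneg_right hθ₀ hq.le
    linarith
  have hhi0 : 0 ≤ hi := by
    have h1 := hhi r (by omega)
    have h2 := hlow r (by omega) (n + 2) le_rfl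
    rw [hW'3] at h2
    have h3 := Tg.Eb0
    linarith
  have hlvl0 : 0 ≤ lvl := by
    have h2 := hlow r (by omega) (n + 2) le_rfl
    rw [hW'3] at h2
    have h3 : 0 < θ / 2 * q := by positivity
    linarith
  have h0dq : V₀ * q ≤ Vd * q := mul_le_mul_of_nonneg_right (by linarith) hq.le
  obtain ⟨μe, hμe⟩ : ∃ μe : ℝ, μe = -(b * (V₀ * q) - b * (Ve * q) - (α * (V₀ * q) -
    α * (Ve * q))) - 8 * (ε * q) - C₂ * (C * (η * q)) - γ * q / 4 := ⟨_, rfl⟩
  have hvls := hvl (S := S) (c := c) Rc.tmc hinj (R := fun l => κ l = .one ∨ κ l = .thin)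
    hκu hK₁ hηq hC (by linarith) hwg (e := n + 2) (d := n + 1) (ζ := 4 * ε * q)
    (μ := (b - α) * (Vm - V₀) * q + 2 * (C * (η * q))) (μe := μe) (hi := hi) (lvl := lvl)
    (ν := ν) le_rfl (by omega) (by simp only [hW'0, hW'3]; linarith)
    (by simp only [hW'0, hW'2]; linarith) (by simp only [hW'2]; linarith)
    (by positivity) (fun k hk => by
      simp only [hlv _ le_rfl]
      have hk' : k ≤ n + 2 := by
        simp only [Finset.mem_insert, Finset.mem_singleton] at hk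
        omega
      have h1 := hrow' (n + 2) le_rfl k hk'
      have h2 := hlow (r + 1) le_rfl k hk'
      obtain ⟨h3, h4⟩ := hWq k hk'
      exact ⟨h1, by linarith⟩) (by
      simp only [hlv _ le_rfl]
      exact hrow' 0 (by omega) (n + 1) (by omega)) (by simp only [hW'3]; exact hal) hν (by
      simp only [hlv r (by omega)]
      have := hlow r (by omega) 0 (by omega)
      rw [hW'0] at this ⊢
      linarith) (by
      simp only [hlv _ le_rfl]
      have := hlow (r + 1) le_rfl 0 (by omega)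
      rw [hW'0] at this ⊢
      linarith) hhi0 hlvl0 (fun l hl => by
      simp only [hlv l hl, hW'3]
      have := hhi l hl
      linarith) (by
      simp only [hlv r (by omega), hW'3]
      linarith) (by
      simp only [hlv r (by omega), hlv _ le_rfl, hW'3, hW'0]
      linarith [d0N.1, d0N.2, d0U.1, d0U.2, deN.1, deN.2, deU.1, deU.2]) (by
      simp only [hW'3, hW'0]
      linarith) (by
      simp only [hlv r (by omega), hlv _ le_rfl, hW'2, hW'0]
      linarith [d0N.1, d0N.2, d0U.1, d0U.2, ddN.1, ddN.2, ddU.1, ddU.2])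
  obtain ⟨Λ, hΛ⟩ : ∃ Λ : ℝ, Λ = 1 - Eb (r + 1) - L (r + 1) (t + Vd * q) (t + Vd * q) -
    C₁ * (C * (η * q)) := ⟨_, rfl⟩
  have hBX := hbx (S := S) (c := c) Rc.tmc hinj (R := fun l => κ l = .one ∨ κ l = .thin)
    hκu le_rfl hK₁ (by norm_num : (0 : ℝ) < 8) hηq hC hvls (n + 1) (n + 1) (4 * ε * q)
    ((b - α) * (Vm - V₀) * q) Λ (L (r + 1) (t + V₀ * q) (t + V₀ * q) - ρ * q)
    (fun k => L r (t + W' k * q) (t + W' k * q) - L (r + 1) (t + W' k * q) (t + W' k * q) + ρ * q)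
    (by positivity) hM0 (by
      rw [hΛ]
      have := hroomd (r + 1) le_rfl
      linarith) (by
      have := hlow (r + 1) le_rfl 0 (by omega)
      rw [hW'0] at this
      linarith) (fun k hk => by omega) (by omega) (by linarith) (by simp only [hW'0]; linarith)
    (by simp only [hW'0, hW'2]; linarith) (fun k hk => by
      have h1 := mul_le_mul_of_nonneg_right (hWV k (by omega)).1 hq.le
      simp only [hW'0]
      rw [hW'1 k (by omega)]
      linarith) (fun k hk => by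
      simp only [hlv _ le_rfl]
      exact hrow' 0 (by omega) k hk) (fun k hk => by
      simp only [hlv _ le_rfl]
      obtain ⟨h1, h2⟩ := hWq k hk
      have := hlow (r + 1) le_rfl k hk
      linarith) (by
      simp only [hlv r (by omega)]
      have := hlow r (by omega) 0 (by omega)
      rw [hW'0] at this ⊢
      linarith) (fun l hl => by
      simp only [hlv l hl, hlv _ le_rfl, hW'2]
      have := hroomd l hl
      linarith) (by
      simp only [hlv _ le_rfl, hW'2]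
      linarith) (by
      simp only [hlv r (by omega), hlv _ le_rfl, hW'2, hW'0]
      have h1 : C₁ * (4 * ε * q + C * (η * q)) = 4 * (C₁ * (ε * q)) + C₁ * (C * (η * q)) := by ring
      rw [h1]
      linarith [d0N.1, d0N.2, d0U.1, d0U.2, ddN.1, ddN.2, ddU.1, ddU.2]) le_rfl (fun k hk => by
      simp only [hlv r (by omega), hlv _ le_rfl]
      linarith) (fun k hk => by
      simp only [hlv r (by omega), hlv _ le_rfl, hW'0]
      obtain ⟨h1, h2⟩ := hWV k (by omega)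
      have k1 := abs_le.1 (hdN k (by omega))
      have k2 := abs_le.1 (hdU k (by omega))
      rw [hW'1 k (by omega)] at k1 k2 ⊢
      have k3 : (b - α) * (W k - V₀) * q ≤ (b - α) * (Vm - V₀) * q :=
        mul_le_mul_of_nonneg_right (mul_le_mul_of_nonneg_left (by linarith) (by linarith)) hq.le
      linarith [d0N.1, d0N.2, d0U.1, d0U.2, k1.1, k1.2, k2.1, k2.2]) (by
      simp only [hlv _ le_rfl, hW'0]
      linarith)
  simp only [hW'0] at hBX
  refine ⟨_, ?_, hBX.mono le_rfl le_rfl (fun k hk => by rw [hW'1 k (by omega)]) (fun k hk => ?_)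
    (fun k hk => ?_) le_rfl⟩
  · positivity
  · simp only [hlv _ le_rfl, hW'1 k (show k ≤ n by omega)]
    have : η * q ≤ C * (η * q) := le_mul_of_one_le_left hηq.le hC
    linarith
  · simp only [hW'1 k (show k ≤ n by omega)]
    exact le_rfl

end Pool.CR99
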