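import Pool.Agent.H99.D2.Rna
import Pool.Agent.H18.PN.Rps
import Pool.Agent.H54.OWN.Nfc

/-!
# The rows of a pair for a family of labels of the chain

`RowNf`, `RowUf`: the rows `RowN`, `RowU` for the labels of a family `Φ` of labels of the chain.
`rowUf_of`, `rowUf_num`, `rowUf_gap`, `rw2_Nf`, `rw2_Uf`, `rowNf_triv`: the theorems of H37/RW2, H43/RW2
and H18/PN/Nug for them (the same proofs).
-/

set_option autoImplicit false

namespace Pool.CR99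

open Finset Real MvPolynomial
open Pool.Agent.H49.Ent Pool.Agent.H32.Dense Pool.STK Pool.KA Pool.KSAT Pool.K2S Pool.PB Pool.GEN
open Pool.S6C Pool.RCD Pool.LA91 Pool.OWN68 Pool.CHT Pool.AJX Pool.PN18
open Pool.GRD (LbP Pb_mono_pos)
open Pool.UNJ (ceI Tub)
open Pool.BFL (Pb)
open Pool.ALT (AltAt ful_few)
open Pool.RW37

variable {m : ℕ}

/-- A family of labels of a chain. -/
abbrev FmX (m : ℕ) : Type 1 := ∀ (J : ℕ) (F : Fam m J), (F.Ω → Prop) → ∀ V : Type,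
  (PtT F → V) → (LnT F → V) → (V → ℕ → MvPolynomial (Option (Fin m)) ℝ) → Prop

/-- **The row of `c (r + 1)`** for the labels of the family `Φ`, given the digits `bu` of `c r`. -/
def RowNf (S : PCl m) (Φ : FmX m) (c : ℕ → Fin m) (r₀ r : ℕ) (v U : ℝ) (n : ℕ → ℝ)
    (bu a b t : ℝ) : Prop :=
  Bas S (fun J F A => ∀ (V : Type) (z : PtT F → V) (z' : LnT F → V)
    (g : V → ℕ → MvPolynomial (Option (Fin m)) ℝ), Φ J F A V z z' g →
    CH (Pool.Agent.H49.Ent.cond F.p A True) (hd F c (r + 1) z' ⌊v * J⌋₊ g b)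
      (fun ω => (hd F c (r + 1) z' ⌊v * J⌋₊ g a ω, (hd F c r z' ⌊v * J⌋₊ g bu ω,
        cx F c r₀ r z' ⌊v * J⌋₊ g n U ω))) ≤ t * J)

/-- **The row of `c r`** for the labels of the family `Φ`, given the digits `b` of `c (r + 1)`. -/
def RowUf (S : PCl m) (Φ : FmX m) (c : ℕ → Fin m) (r₀ r : ℕ) (v U : ℝ) (n : ℕ → ℝ)
    (au bu b t : ℝ) : Prop :=
  Bas S (fun J F A => ∀ (V : Type) (z : PtT F → V) (z' : LnT F → V)
    (g : V → ℕ → MvPolynomial (Option (Fin m)) ℝ), Φ J F A V z z' g →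
    CH (Pool.Agent.H49.Ent.cond F.p A True) (hd F c r z' ⌊v * J⌋₊ g bu)
      (fun ω => (hd F c r z' ⌊v * J⌋₊ g au ω, (hd F c (r + 1) z' ⌊v * J⌋₊ g b ω,
        cx F c r₀ r z' ⌊v * J⌋₊ g n U ω))) ≤ t * J)

/-- **The pairs** are the labels of `c r` and `c (r + 1)` of one label of the family `Φ`. -/
def PsF (Ψ : Fm2 m) (Φ : FmX m) (c : ℕ → Fin m) (r₀ r K : ℕ) (v lam : ℝ) (n : ℕ → ℝ) : Prop :=
  ∀ (J : ℕ) (F : Fam m J) (A : F.Ω → Prop) (V C : Type) (z : PtT F → V) (z' : LnT F → V)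
    (G₁ G₂ : V → MvPolynomial (Option (Fin m)) ℝ) (cc : LnT F → C), Ψ J F A V C z z' G₁ G₂ cc →
    ∃ g : V → ℕ → MvPolynomial (Option (Fin m)) ℝ, Φ J F A V z z' g ∧
      G₁ = (fun y => g y r) ∧ G₂ = (fun y => g y (r + 1)) ∧
      ∃ φ : C → (Fin m → ℤ × ℤ) × (ℕ → ℕ → ℤ), ∀ x,
        ctxN F c r₀ r ⌊v * J⌋₊ ⌊(v + lam) * J⌋₊ K z' g n x = φ (cc x)

/-- The labels of the family are labels of the chain. -/
def FmL (Φ : FmX m) (c : ℕ → Fin m) (r₀ R K : ℕ) (e : ℝ) (E : ℕ → ℝ) (v : ℝ)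
    (rd p : ℕ → ℝ) : Prop :=
  ∀ (J : ℕ) (F : Fam m J) (A : F.Ω → Prop) (V : Type) (z : PtT F → V) (z' : LnT F → V)
    (g : V → ℕ → MvPolynomial (Option (Fin m)) ℝ), Φ J F A V z z' g →
    LbX F c r₀ R K e E v rd p A z z' g

/-- **The row of the first place.** -/
theorem rowUf_of {S : PCl m} {C₀ : ℝ} (htm : TmC S C₀) {c : ℕ → Fin m} {r₀ r K : ℕ}
    {E : ℕ → ℝ} {e₀ v U : ℝ} {rd p n : ℕ → ℝ} {au bu a b tz : ℝ}
    {Φ : FmX m} {e : ℝ} (he : 0 < e) (hle : e ≤ e₀) (hΦ : FmL Φ c r₀ (r + 2) K e E v rd p)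
    (hZ : RowNf S Φ c r₀ r v U n bu a b tz)
    {K₁ : ℕ} {e₁ ρ₁ π₁ u sa so d : ℝ}
    (hF : FulY S ((range (r + 1)).image c) ((range r).image c) (c (r + 1)) K₁ e₁ ρ₁ π₁ v u sa so d)
    (hvu : v ≤ u) (hu1 : u ≤ 1) (ha : a ≤ sa) (hb : so ≤ b)
    (hK : K ≤ K₁) (hE₁ : E (r + 1) + e₀ ≤ e₁) (hρ₁ : rd (r + 1) + e₀ ≤ ρ₁)
    (hπ₁ : π₁ ≤ p (r + 1) - e₀) {Nu e₃ δ₃ g₀ : ℝ} (hδ₃ : 0 ≤ δ₃) (hg₀ : 0 < g₀)
    (hu : r₀ ≤ r → F1 S (fun J F => ptr F J) (vg u)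
      (fun J F ω => (bI ((range r₀).image c) U J F ω, F.W ω))
      (qJets m c r₀ r 0 (fun _ _ => v) (fun l _ => p l) (fun l _ => n l))
      (qJet m ((range r).image c) (c r) 0 v (p r) Nu) e₃ δ₃) (hr : r₀ ≤ r) (he₃ : e₀ ≤ e₃)
    (heg : e₀ ≤ g₀ / 2) (hE : ∀ i, r₀ ≤ i → i ≤ r → 0 ≤ E i ∧ E i ≤ 1)
    (hrd : ∀ i, r₀ ≤ i → i ≤ r → 0 ≤ rd i ∧ rd i + g₀ ≤ 1)
    (hn : ∀ i, r₀ ≤ i → i < r → n i + E i + g₀ ≤ 1) (hU : U ≤ 1)
    (hab : a ≤ b) (haub : au ≤ bu) {t : ℝ}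
    (ht : (bu - au) * Real.log 2 + tz - d + δ₃ + max (au - Nu) 0 * Real.log 2 < t) :
    RowUf S Φ c r₀ r v U n au bu b t := by
  classical
  have hl2 : 0 < Real.log 2 := Real.log_pos one_lt_two
  have hlogm : 0 ≤ Real.log (m + 1) := Real.log_nonneg (by
    have : (0 : ℝ) ≤ m := Nat.cast_nonneg m
    linarith)
  have l5 : 0 ≤ Real.log 5 := Real.log_nonneg (by norm_num)
  have l9 : 0 ≤ Real.log 9 := Real.log_nonneg (by norm_num)
  obtain ⟨σ, hσ⟩ : ∃ σ : ℝ, σ = t - ((bu - au) * Real.log 2 + tz - d + δ₃ +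
    max (au - Nu) 0 * Real.log 2) := ⟨_, rfl⟩
  have hσ0 : 0 < σ := by rw [hσ]; linarith
  have hgap : 0 < g₀ / 2 * Real.log 2 := by positivity
  have he1 : 0 < e + 1 := by linarith
  obtain ⟨M₁, J₁, hc1⟩ := cnt_jets m K (e := e + 1) (w := v) he1 n (fun i => max (rd i) 0) r
    (fun i _ => le_max_right _ _)
  obtain ⟨M₂, J₂, hc2⟩ := cnt_jets m K (e := e + 1) (w := v) he1 (fun _ => Nu)
    (fun i => max (rd i) 0) (r + 1) (fun i _ => le_max_right _ _)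
  obtain ⟨J₃, hJ₃⟩ := exists_nat_ge (Real.log (m + 1) / (g₀ / 2 * Real.log 2) +
    (5 * Real.log 5 + r * Real.log 9) / σ)
  refine Bas.mono (max (max J₁ J₂) J₃) (((Bas.and hZ hF).and
    (((hu hr).mono (hle.trans he₃) le_rfl) (max (max K M₁) M₂))).and (bas_pos htm)) ?_
  rintro J hJ F A ⟨⟨⟨hZA, hFA⟩, hUA⟩, hpe⟩ V z z' g hG
  have hL := hΦ J F A V z z' g hG
  have hJ1 : J₁ ≤ J := (le_max_left _ _).trans ((le_max_left _ _).trans hJ)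
  have hJ2 : J₂ ≤ J := (le_max_right _ _).trans ((le_max_left _ _).trans hJ)
  have hJ3 : (J₃ : ℝ) ≤ J := by exact_mod_cast (le_max_right _ _).trans hJ
  have hJ0 : (0 : ℝ) ≤ J := Nat.cast_nonneg J
  have t1 : 0 ≤ Real.log (m + 1) / (g₀ / 2 * Real.log 2) := div_nonneg hlogm hgap.le
  have hr0 : (0 : ℝ) ≤ r := Nat.cast_nonneg r
  have t2 : 0 ≤ (5 * Real.log 5 + r * Real.log 9) / σ :=
    div_nonneg (add_nonneg (mul_nonneg (by norm_num) l5) (mul_nonneg hr0 l9)) hσ0.le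
  have f1 : Real.log (m + 1) ≤ g₀ / 2 * Real.log 2 * J := by
    have : Real.log (m + 1) / (g₀ / 2 * Real.log 2) ≤ J := by linarith
    rwa [div_le_iff₀ hgap, mul_comm] at this
  have f2 : 5 * Real.log 5 + r * Real.log 9 ≤ σ * J := by
    have h5 : (5 * Real.log 5 + r * Real.log 9) / σ ≤ J := by linarith
    have h6 := (div_le_iff₀ hσ0).1 h5
    linarith
  obtain ⟨q, hqd⟩ : ∃ q : F.Ω → ℝ, q = Pool.Agent.H49.Ent.cond F.p A True := ⟨_, rfl⟩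
  have hq : IsLaw q := by
    rw [hqd]
    exact isLaw_cond F.isLaw hpe
  have h0 := hq.nonneg
  have hqA : ∀ ω, 0 < q ω → A ω := fun ω hω => by
    rw [hqd] at hω
    exact of_cond_pos hω
  have hmx : ∀ i, r₀ ≤ i → i ≤ r → max (rd i) 0 = rd i := fun i hi0 hi =>
    max_eq_left (hrd i hi0 hi).1
  have hUJ : ⌊U * J⌋₊ ≤ J := floor_le hU J
  -- the height of `c r`, closed at `u`
  have hQ : (qJets m c r₀ r 0 (fun _ _ => v) (fun l _ => p l) (fun l _ => n l)).P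
        (max (max K M₁) M₂) e J F A
        (fun ω i' j' => if j' = 0 then hts F c r₀ r z' ⌊v * J⌋₊ g n ω i' else 0) := by
    refine (qJets m c r₀ r 0 _ _ _).mono (le_max_left _ _) le_rfl
      (qJets_htx (R := r + 2) (by omega) hL fun l hl0 hl => ?_)
    exact hc1 l (by omega) J hJ1 F _ _ _ A V z z' (fun y => g y l) (by
      rw [hmx l hl0 (by omega)]
      exact hL.wk hl0 (by omega) (hE l hl0 (by omega)).2)
  have hQ' : (qJet m ((range r).image c) (c r) 0 v (p r) Nu).P (max (max K M₁) M₂) e J F A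
      (hd F c r z' ⌊v * J⌋₊ g Nu) := by
    refine ⟨?_, V, z, z', fun y => g y r, ?_, fun ω _ => rfl⟩
    · have h2 := hc2 r (by omega) J hJ2 F _ _ _ A V z z' (fun y => g y r) (by
        rw [hmx r hr le_rfl]
        exact hL.wk hr (by omega) (hE r hr le_rfl).2)
      refine h2.trans (Real.exp_le_exp.2 (mul_le_mul_of_nonneg_right ?_ hJ0))
      exact_mod_cast le_max_right _ _
    · exact (LbP.of (hL r hr (by omega))).mono (Finset.Subset.refl _)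
        ((le_max_left _ _).trans (le_max_left _ _)) le_rfl
  obtain ⟨V₁, z₁, ⟨⟨φa, hφa⟩, ψa, hψa⟩, hH₁⟩ := hUA _ _ hQ hQ'
  rw [← hqd] at hH₁
  -- the label of `c (r + 1)`
  have hLN : LbOK F ((range (r + 1)).image c) (c (r + 1)) K₁ ⌊e₁ * J⌋₊ J ⌊v * J⌋₊ ⌊ρ₁ * J⌋₊
      ⌊π₁ * J⌋₊ A z z' (fun y => g y (r + 1)) :=
    (hL (r + 1) (by omega) (by omega)).mono (Finset.Subset.refl _) hK
      (Nat.floor_le_floor (mul_le_mul_of_nonneg_right (by linarith) hJ0))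
      (Nat.floor_le_floor (mul_le_mul_of_nonneg_right (by linarith) hJ0))
      (Nat.floor_le_floor (mul_le_mul_of_nonneg_right (by linarith) hJ0))
  -- the variables
  obtain ⟨ub, hub⟩ : ∃ X : F.Ω → ℤ, X = hd F c r z' ⌊v * J⌋₊ g bu := ⟨_, rfl⟩
  obtain ⟨ua, hua⟩ : ∃ X : F.Ω → ℤ, X = hd F c r z' ⌊v * J⌋₊ g au := ⟨_, rfl⟩
  obtain ⟨Hb, hHb⟩ : ∃ X : F.Ω → ℤ, X = hd F c (r + 1) z' ⌊v * J⌋₊ g b := ⟨_, rfl⟩
  obtain ⟨Ha, hHa⟩ : ∃ X : F.Ω → ℤ, X = hd F c (r + 1) z' ⌊v * J⌋₊ g a := ⟨_, rfl⟩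
  obtain ⟨Xo, hXo⟩ : ∃ X : F.Ω → ℤ, X = hd F c (r + 1) z' ⌊v * J⌋₊ g so := ⟨_, rfl⟩
  obtain ⟨Y, hY⟩ : ∃ Y : F.Ω → V × ((ℕ → ℤ) × ((Fin m → ℤ) × (ℕ × F.ζ))),
    Y = cx F c r₀ r z' ⌊v * J⌋₊ g n U := ⟨_, rfl⟩
  have hZ' := hZA V z z' g hG
  rw [← hqd, ← hHb, ← hHa, ← hub, ← hY] at hZ'
  rw [← hqd]
  -- exchange
  have g1 : CH q ub (fun ω => (ua ω, (Hb ω, Y ω))) =
      CH q ub (fun ω => (Hb ω, (ua ω, Y ω))) := by
    refine CH_congr h0 (fun _ _ _ _ e => (Prod.ext_iff.mp e).1)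
      (fun _ _ _ _ e => (Prod.ext_iff.mp e).1) (fun ω ω' _ _ e => ?_) fun ω ω' _ _ e => ?_
    · simp only [Prod.mk.injEq] at e ⊢
      exact ⟨e.2.1, e.1, e.2.2⟩
    · simp only [Prod.mk.injEq] at e ⊢
      exact ⟨e.2.1, e.1, e.2.2⟩
  have g2 := CH_exch h0 Hb ub (fun ω => (ua ω, Y ω))
  have g3 : CH q ub (fun ω => (ua ω, Y ω)) ≤ (bu - au) * J * Real.log 2 + Real.log 5 := by
    rw [hub, hua]
    have := fl_few hq (fun ω => hgt F (c r) z' ⌊v * J⌋₊ (fun y => g y r) ω) (a := au) (b := bu)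
      hJ0 Y
    rwa [max_eq_left (by linarith : (0 : ℝ) ≤ bu - au)] at this
  have g4 := CH_le_add h0 Hb Ha (fun ω => (ub ω, (ua ω, Y ω)))
  have g5 : CH q Ha (fun ω => (ub ω, (ua ω, Y ω))) ≤ CH q Ha (fun ω => (ua ω, Y ω)) :=
    CH_mono_cond h0 fun ω ω' _ _ e => (Prod.ext_iff.mp e).2
  have g6 : CH q Hb (fun ω => (Ha ω, (ub ω, (ua ω, Y ω)))) ≤ tz * J := by
    refine (CH_mono_cond h0 fun ω ω' _ _ e => ?_).trans hZ'
    simp only [Prod.mk.injEq] at e ⊢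
    exact ⟨e.1, e.2.1, e.2.2.2⟩
  have g7 := CH_exch h0 Hb Ha (fun ω => (ua ω, Y ω))
  have g8 : CH q Ha (fun ω => (Hb ω, (ua ω, Y ω))) ≤ Real.log 5 := by
    rw [hHa, hHb]
    have := fl_few hq (fun ω => hgt F (c (r + 1)) z' ⌊v * J⌋₊ (fun y => g y (r + 1)) ω)
      (a := b) (b := a) hJ0 (fun ω => (ua ω, Y ω))
    rwa [max_eq_right (by linarith : a - b ≤ 0), zero_mul, zero_mul, zero_add] at this
  have g9 := CH_le_add h0 Xo Hb (fun ω => (Ha ω, (ua ω, Y ω)))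
  have g10 : CH q Xo (fun ω => (Hb ω, (Ha ω, (ua ω, Y ω)))) ≤ Real.log 5 := by
    rw [hXo, hHb]
    have := fl_few hq (fun ω => hgt F (c (r + 1)) z' ⌊v * J⌋₊ (fun y => g y (r + 1)) ω)
      (a := b) (b := so) hJ0 (fun ω => (Ha ω, (ua ω, Y ω)))
    rwa [max_eq_right (by linarith : so - b ≤ 0), zero_mul, zero_mul, zero_add] at this
  -- the digits are full
  obtain ⟨R, hR⟩ : ∃ R : F.Ω → ℤ × ((V × V₁) × ((Fin m → ℤ) × (ℕ × F.ζ))), R = fun ω =>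
      (⌊(2 : ℝ) ^ (sa * J) * hgt F (c (r + 1)) z' ⌊v * J⌋₊ (fun y => g y (r + 1)) ω⌋,
        ((z' (slam F ⌊v * J⌋₊ ω), ψa (slam F ⌊u * J⌋₊ ω)),
          (ceI ((range r).image c) (fun _ => J) (F.x ω), F.W ω))) := ⟨_, rfl⟩
  have hRe : ∀ ω ω', R ω = R ω' →
      ⌊(2 : ℝ) ^ (sa * J) * hgt F (c (r + 1)) z' ⌊v * J⌋₊ (fun y => g y (r + 1)) ω⌋ =
      ⌊(2 : ℝ) ^ (sa * J) * hgt F (c (r + 1)) z' ⌊v * J⌋₊ (fun y => g y (r + 1)) ω'⌋ ∧
      z' (slam F ⌊v * J⌋₊ ω) = z' (slam F ⌊v * J⌋₊ ω') ∧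
      ψa (slam F ⌊u * J⌋₊ ω) = ψa (slam F ⌊u * J⌋₊ ω') ∧
      ceI ((range r).image c) (fun _ => J) (F.x ω) =
        ceI ((range r).image c) (fun _ => J) (F.x ω') ∧ F.W ω = F.W ω' := by
    intro ω ω' ee
    rw [hR] at ee
    simp only [Prod.mk.injEq] at ee
    exact ⟨ee.1, ee.2.1.1, ee.2.1.2, ee.2.2.1, ee.2.2.2⟩
  have g11 : CH q (fun ω => (Ha ω, (ua ω, Y ω))) R ≤
      δ₃ * J + max (au - Nu) 0 * J * Real.log 2 + (2 * Real.log 5 + r * Real.log 9) := by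
    have k1 : CH q Ha R ≤ Real.log 5 := by
      have k2 := fl_few hq (fun ω => hgt F (c (r + 1)) z' ⌊v * J⌋₊ (fun y => g y (r + 1)) ω)
        (a := sa) (b := a) hJ0 R
      rw [max_eq_right (by linarith : a - sa ≤ 0), zero_mul, zero_mul, zero_add] at k2
      refine (CH_mono_cond h0 fun ω ω' _ _ ee => ?_).trans (by rw [hHa]; exact k2)
      exact Prod.ext (hRe ω ω' ee).1 ee
    have k3 : CH q Y R ≤ r * Real.log 9 := by
      have k4 := hts_ex (m := m) (J := J) (A := A) hg₀ hL he (hle.trans heg)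
        (fun i a b => (hE i a b.le).1) (fun i a b => (hrd i a b.le).2) hn f1 hq hqA R
        fun ω ω' ee => by
          obtain ⟨-, e2, -, e4, e5⟩ := hRe ω ω' ee
          exact ⟨e2, e4, (Prod.ext_iff.mp e5).1⟩
      refine (CH_mono_left h0 fun ω ω' _ _ ee => ?_).trans k4
      have e1 := Prod.ext_iff.mp ee
      obtain ⟨-, e2, -, e4, e5⟩ := hRe ω ω' e1.2
      rw [hY]
      have e6 : bI ((range r₀).image c) U J F ω = bI ((range r₀).image c) U J F ω' :=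
        ceI_tup hUJ fun l hl => tup_ceI e4 (hl.trans_le hr)
      exact Prod.ext e2 (Prod.ext e1.1 (Prod.ext e6 e5))
    have k5 : CH q ua (fun ω => (Y ω, R ω)) ≤
        δ₃ * J + (max (au - Nu) 0 * J * Real.log 2 + Real.log 5) := by
      have k6 := CH_le_add h0 ua (hd F c r z' ⌊v * J⌋₊ g Nu) (fun ω => (Y ω, R ω))
      have k7 : CH q (hd F c r z' ⌊v * J⌋₊ g Nu) (fun ω => (Y ω, R ω)) ≤ δ₃ * J := by
        refine (CH_mono_cond h0 fun ω ω' hω hω' ee => ?_).trans hH₁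
        have e1 := Prod.ext_iff.mp ee
        obtain ⟨-, e2, e3, e4, e5⟩ := hRe ω ω' e1.2
        have e6 := e1.1
        rw [hY] at e6
        have e7 := Prod.ext_iff.mp e6
        have e8 := Prod.ext_iff.mp e7.2
        refine Prod.ext (funext fun i' => funext fun j' => ?_) (Prod.ext ?_ e8.2)
        · by_cases hj : j' = 0
          · simp only [if_pos hj]
            exact congrFun e8.1 i'
          · simp only [if_neg hj]
        · show z₁ ω = z₁ ω'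
          rw [hψa ω (hqA ω hω), hψa ω' (hqA ω' hω')]
          exact e3
      have k8 := fl_few hq (fun ω => hgt F (c r) z' ⌊v * J⌋₊ (fun y => g y r) ω)
        (a := Nu) (b := au) hJ0 (fun ω => (Y ω, R ω))
      have k9 : CH q ua (fun ω => (hd F c r z' ⌊v * J⌋₊ g Nu ω, (Y ω, R ω))) ≤
          max (au - Nu) 0 * J * Real.log 2 + Real.log 5 := by
        rw [hua]
        exact k8
      linarith
    have k10 : CH q (fun ω => (Ha ω, (ua ω, Y ω))) R ≤ CH q Ha R + CH q (fun ω => (ua ω, Y ω)) R :=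
      CH_subadd h0 _ _ _
    have k11 := CH_chain h0 ua Y R
    linarith
  rw [hR] at g11
  have g12 := hFA V z z' (fun y => g y (r + 1)) hLN V₁ φa ψa (fun ω hω => by
    rw [← hφa ω hω]
    exact hψa ω hω) _ (fun ω => (Ha ω, (ua ω, Y ω)))
    (δ₃ * J + max (au - Nu) 0 * J * Real.log 2 + (2 * Real.log 5 + r * Real.log 9)) (by
      rw [← hqd]
      exact g11)
  rw [← hqd] at g12
  have g13 : CH q (fun ω => ⌊(2 : ℝ) ^ (so * J) *
      hgt F (c (r + 1)) z' ⌊v * J⌋₊ (fun y => g y (r + 1)) ω⌋) (fun ω => (Ha ω, (ua ω, Y ω))) =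
      CH q Xo (fun ω => (Ha ω, (ua ω, Y ω))) := by
    rw [hXo]
    rfl
  rw [g13] at g12
  have g14 : t * J = ((bu - au) * Real.log 2 + tz - d + δ₃ +
    max (au - Nu) 0 * Real.log 2) * J + σ * J := by
    rw [hσ]
    ring
  rw [← hub, ← hua, ← hHb, ← hY, g1, g14]
  linarith [g2, g3, g4, g5, g6, g7, g8, g9, g10, g12, f2]

/-- **The row of the first place**, in numbers: from `RowN` at the same digits. -/
theorem rowUf_num {S : PCl m} {C₀ : ℝ} (htm : TmC S C₀)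
    (hpos : ∀ (τ : ℝ) (J : ℕ) (F : Fam m J) (A : F.Ω → Prop), S.St τ J F A → 0 < Pe F.p A)
    {c : ℕ → Fin m} {r₀ r K K1 k M : ℕ} (hr : r₀ ≤ r) {E rd n : ℕ → ℝ} {sn : ℕ → ℝ → ℝ}
    {wb : ℕ → ℝ} {e₀ v o U ρ ρ₀ φ x X alu alN tz g₀ dl : ℝ}
    {Φ : FmX m} {e : ℝ} (he : 0 < e) (hle : e ≤ e₀)
    (hΦ : FmL Φ c r₀ (r + 2) K e E v rd (fun l => sn l v))
    (hZ : RowNf S Φ c r₀ r v U n (sn r v + alu * X)
      (sn (r + 1) v + alN * x) (sn (r + 1) v + alN * X) tz) (htz : 0 ≤ tz)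
    {e1 rho1 pi1 x0 ph e2 : ℝ} {s : ℝ → ℝ}
    (hFN : AltAt S ((range (r + 1)).image c) ((range r).image c) (c (r + 1)) K1 e1 rho1 pi1
      s x0 ph e2 k) (he2 : 0 ≤ e2)
    (hs : ∀ y : ℚ, v ≤ y → (y : ℝ) ≤ v + X → |s y - sn (r + 1) v - alN * (y - v)| ≤ φ)
    (hbox1 : x0 - (1 / 2) ^ k ≤ v) (hbox2 : v + X ≤ x0 + (1 / 2) ^ k)
    (hdl : 0 ≤ dl) (hdlb : dl ≤ alN * Real.log 2) (hph : alN * Real.log 2 - dl ≤ ph)
    (hK : K ≤ K1) (hE1 : E (r + 1) + e₀ ≤ e1)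
    (hrho : rd (r + 1) + e₀ ≤ rho1) (hpi : pi1 ≤ sn (r + 1) v - e₀)
    (hN : HtN r₀ r M wb sn n (fun i => sn i o - ρ) v o U ρ) (hc : ChL S c r₀ r M wb sn)
    (hslo : |sn r o - sn r v - alu * (o - v)| ≤ φ) (hox : o ≤ v + x) (hgap : v + x ≤ o + ρ₀)
    (hx0 : 0 ≤ x) (hxX : x ≤ X) (hvX : v + X ≤ 1) (halu : 0 ≤ alu) (halN : 0 < alN)
    (he₀ : e₀ ≤ ρ / 8) (hg₀ : 0 < g₀) (heg : e₀ ≤ g₀ / 2)
    (hE : ∀ i, r₀ ≤ i → i ≤ r → 0 ≤ E i ∧ E i ≤ 1)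
    (hrd : ∀ i, r₀ ≤ i → i ≤ r → 0 ≤ rd i ∧ rd i + g₀ ≤ 1)
    (hn : ∀ i, r₀ ≤ i → i < r → n i + E i + g₀ ≤ 1) {t : ℝ}
    (ht : alu * (X - x) * Real.log 2 + tz - alN * (X - x) * Real.log 2 +
      (3 * φ + ρ + alu * ρ₀) * Real.log 2 + e2 * (1 / 2) ^ k + dl * (X - x) < t) :
    RowUf S Φ c r₀ r v U n (sn r v + alu * x) (sn r v + alu * X)
      (sn (r + 1) v + alN * X) t := by
  have hl2 : 0 < Real.log 2 := Real.log_pos one_lt_two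
  have hφ : 0 ≤ φ := (abs_nonneg _).trans hslo
  have hρ := hN.ρ0
  have hρ₀ : 0 ≤ ρ₀ := by linarith
  have h2k : (0 : ℝ) < (1 / 2) ^ k := by positivity
  obtain ⟨σ, hσ⟩ : ∃ σ : ℝ, σ = t - (alu * (X - x) * Real.log 2 + tz -
    alN * (X - x) * Real.log 2 + (3 * φ + ρ + alu * ρ₀) * Real.log 2 + e2 * (1 / 2) ^ k +
    dl * (X - x)) := ⟨_, rfl⟩
  have hσ0 : 0 < σ := by rw [hσ]; linarith
  have hdx : 0 ≤ dl * (X - x) := mul_nonneg hdl (by linarith)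
  obtain ⟨η, hη⟩ : ∃ η : ℝ, η = σ / (4 * (alN * Real.log 2)) := ⟨_, rfl⟩
  have hη0 : 0 < η := by rw [hη]; positivity
  have hηe : η * (alN * Real.log 2) = σ / 4 := by
    rw [hη]
    field_simp
  obtain ⟨ψ, hψ⟩ : ∃ ψ : ℝ, ψ = φ / alN := ⟨_, rfl⟩
  have hψ0 : 0 ≤ ψ := by rw [hψ]; positivity
  have hψe : alN * ψ = φ := by
    rw [hψ]
    field_simp
  have hρl : 0 ≤ ρ * Real.log 2 := by positivity
  have haρl : 0 ≤ alu * ρ₀ * Real.log 2 := by positivity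
  have hφl : 0 ≤ φ * Real.log 2 := by positivity
  have he2k : 0 ≤ e2 * (1 / 2) ^ k := by positivity
  by_cases hbig : 2 * ψ + 2 * η < X - x
  · obtain ⟨w1, a1, a2⟩ := exists_rat_btwn (show v + x + ψ < v + x + ψ + η by linarith)
    obtain ⟨o1, a3, a4⟩ := exists_rat_btwn (show v + X - ψ - η < v + X - ψ by linarith)
    have hwo : (w1 : ℝ) ≤ o1 := by linarith
    have hwo' : w1 ≤ o1 := by exact_mod_cast hwo
    have hFY := fulY_of hpos hFN (v := v) (u := o) (a := w1) (o := o1) (by linarith) hwo'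
      (by linarith) (by linarith) (by linarith) (by linarith)
      (d := ph * (o1 - w1) - e2 * (1 / 2) ^ k - σ / 8) (by linarith)
    have hs1 := abs_le.1 (hs w1 (by linarith) (by linarith))
    have hs2 := abs_le.1 (hs o1 (by linarith) (by linarith))
    have hF := htn_F1 htm hN hc hr le_rfl (δ₂ := σ / 8) (by linarith)
    refine rowUf_of htm he hle hΦ hZ hFY (by have := (hN.bw 0 (Nat.zero_le M)).1; rwa [hN.b0] at this)
      (by linarith) ?_ ?_ hK hE1 hrho hpi (Nu := sn r o - ρ) (e₃ := ρ / 8) (δ₃ := σ / 8)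
      (g₀ := g₀) (by linarith) hg₀ (fun _ => hF) hr he₀ heg hE hrd hn hN.U1 ?_ ?_ ?_
    · -- the first digits
      have k1 : alN * (v + x + ψ) ≤ alN * w1 := mul_le_mul_of_nonneg_left a1.le halN.le
      have k2 : alN * (v + x + ψ) = alN * v + alN * x + φ := by rw [mul_add, mul_add, hψe]
      linarith [hs1.1]
    · have k1 : alN * o1 ≤ alN * (v + X - ψ) := mul_le_mul_of_nonneg_left a4.le halN.le
      have k2 : alN * (v + X - ψ) = alN * v + alN * X - φ := by rw [mul_sub, mul_add, hψe]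
      linarith [hs2.2]
    · have := mul_le_mul_of_nonneg_left hxX halN.le
      linarith
    · have := mul_le_mul_of_nonneg_left hxX halu
      linarith
    · -- the bound
      have k1 : max (sn r v + alu * x - (sn r o - ρ)) 0 ≤ alu * ρ₀ + φ + ρ := by
        refine max_le ?_ (by have := mul_nonneg halu hρ₀; linarith)
        have h1 := (abs_le.1 hslo).1
        have h2 : alu * (v + x) ≤ alu * (o + ρ₀) := mul_le_mul_of_nonneg_left hgap halu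
        linarith
      have k2 : max (sn r v + alu * x - (sn r o - ρ)) 0 * Real.log 2 ≤
          (alu * ρ₀ + φ + ρ) * Real.log 2 := mul_le_mul_of_nonneg_right k1 hl2.le
      have k3 : X - x - 2 * ψ - 2 * η ≤ o1 - w1 := by linarith
      have hwor : (0 : ℝ) ≤ (o1 : ℝ) - w1 := by linarith
      have k4 : (alN * Real.log 2 - dl) * (X - x - 2 * ψ - 2 * η) ≤ ph * (o1 - w1) :=
        (mul_le_mul_of_nonneg_left k3 (by linarith)).trans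
          (mul_le_mul_of_nonneg_right hph hwor)
      have k5 : (alN * Real.log 2 - dl) * (X - x - 2 * ψ - 2 * η) =
          alN * (X - x) * Real.log 2 -
          2 * (φ * Real.log 2) - 2 * (σ / 4) - dl * (X - x) + dl * (2 * ψ + 2 * η) := by
        rw [← hψe, ← hηe]
        ring
      have k5' : 0 ≤ dl * (2 * ψ + 2 * η) := mul_nonneg hdl (by linarith)
      have k6 : (sn r v + alu * X - (sn r v + alu * x)) * Real.log 2 =
          alu * (X - x) * Real.log 2 := by ring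
      rw [k6]
      have k7 : t = alu * (X - x) * Real.log 2 + tz - alN * (X - x) * Real.log 2 +
        (3 * φ + ρ + alu * ρ₀) * Real.log 2 + e2 * (1 / 2) ^ k + dl * (X - x) + σ := by
        rw [hσ]; ring
      rw [k7]
      nlinarith [k2, k4, k5, k5']
  · push Not at hbig
    obtain ⟨J₀, hJ₀⟩ := exists_nat_ge (Real.log 5 / (σ / 4))
    refine Bas.mono J₀ (bas_pos htm) ?_
    rintro J hJ F A hpe V z z' g hL
    have hq := isLaw_cond F.isLaw hpe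
    have hJ0 : (0 : ℝ) ≤ J := Nat.cast_nonneg J
    have hJr : (J₀ : ℝ) ≤ J := by exact_mod_cast hJ
    have g1 : Real.log 5 ≤ σ / 4 * J := by
      have := hJ₀.trans hJr
      rwa [div_le_iff₀ (by linarith), mul_comm] at this
    have g2 := fl_few hq (fun ω => hgt F (c r) z' ⌊v * J⌋₊ (fun y => g y r) ω)
      (a := sn r v + alu * x) (b := sn r v + alu * X) hJ0
      (fun ω => (hd F c (r + 1) z' ⌊v * J⌋₊ g (sn (r + 1) v + alN * X) ω,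
        cx F c r₀ r z' ⌊v * J⌋₊ g n U ω))
    have k0 := mul_le_mul_of_nonneg_left hxX halu
    rw [max_eq_left (by linarith : 0 ≤ sn r v + alu * X - (sn r v + alu * x))] at g2
    refine g2.trans ?_
    have k3 : alN * (X - x) * Real.log 2 ≤ 2 * (φ * Real.log 2) + 2 * (σ / 4) := by
      have h1 : (X - x) * (alN * Real.log 2) ≤ (2 * ψ + 2 * η) * (alN * Real.log 2) :=
        mul_le_mul_of_nonneg_right hbig (by positivity)
      have h2 : (2 * ψ + 2 * η) * (alN * Real.log 2) = 2 * ((alN * ψ) * Real.log 2) +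
        2 * (η * (alN * Real.log 2)) := by ring
      rw [h2, hψe, hηe] at h1
      linarith
    have k7 : t = alu * (X - x) * Real.log 2 + tz - alN * (X - x) * Real.log 2 +
      (3 * φ + ρ + alu * ρ₀) * Real.log 2 + e2 * (1 / 2) ^ k + dl * (X - x) + σ := by
      rw [hσ]; ring
    have k8 : alu * (X - x) * Real.log 2 + σ / 4 ≤ t := by
      rw [k7]
      nlinarith
    have k9 := mul_le_mul_of_nonneg_right k8 hJ0
    linarith

/-- **The row of the first place**, the windows from a set with small gaps. -/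
theorem rowUf_gap {S : PCl m} {C₀ : ℝ} (htm : TmC S C₀)
    (hpos : ∀ (τ : ℝ) (J : ℕ) (F : Fam m J) (A : F.Ω → Prop), S.St τ J F A → 0 < Pe F.p A)
    {c : ℕ → Fin m} {r₀ r K K1 k : ℕ} (hr : r₀ ≤ r) {E rd n : ℕ → ℝ} {sn : ℕ → ℝ → ℝ}
    {G : Set ℝ} {e₀ v U ρ ρ₀ φ x X alu alN tz g₀ Lam dl : ℝ} {Sl f : ℕ → ℝ}
    {Φ : FmX m} {e : ℝ} (he : 0 < e) (hle : e ≤ e₀)
    (hΦ : FmL Φ c r₀ (r + 2) K e E v rd (fun l => sn l v))
    (hZ : RowNf S Φ c r₀ r v U n (sn r v + alu * X)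
      (sn (r + 1) v + alN * x) (sn (r + 1) v + alN * X) tz) (htz : 0 ≤ tz)
    {e1 rho1 pi1 x0 ph e2 : ℝ} {s : ℝ → ℝ}
    (hFN : AltAt S ((range (r + 1)).image c) ((range r).image c) (c (r + 1)) K1 e1 rho1 pi1
      s x0 ph e2 k) (he2 : 0 ≤ e2)
    (hs : ∀ y : ℚ, v ≤ y → (y : ℝ) ≤ v + X → |s y - sn (r + 1) v - alN * (y - v)| ≤ φ)
    (hbox1 : x0 - (1 / 2) ^ k ≤ v) (hbox2 : v + X ≤ x0 + (1 / 2) ^ k)
    (hdl : 0 ≤ dl) (hdlb : dl ≤ alN * Real.log 2) (hph : alN * Real.log 2 - dl ≤ ph)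
    (hK : K ≤ K1) (hE1 : E (r + 1) + e₀ ≤ e1)
    (hrho : rd (r + 1) + e₀ ≤ rho1) (hpi : pi1 ≤ sn (r + 1) v - e₀)
    (hch : ∀ w ∈ G, ∃ (u₁ : ℝ) (rd : ℕ → ℝ), (∀ i, r₀ ≤ i → i ≤ r → 0 ≤ rd i) ∧
      Chn S c r₀ (r + 1) w w u₁ (fun l => sn l w) rd)
    (hvG : v ∈ G) (hG : ∀ y, v ≤ y → y ≤ v + X → ∃ w ∈ G, |w - y| ≤ ρ₀)
    (hsl : ∀ l, r₀ ≤ l → l ≤ r → ∀ w ∈ G, v ≤ w → w ≤ v + X →
      |sn l w - sn l v - Sl l * (w - v)| ≤ φ)
    (hSl : ∀ l, r₀ ≤ l → l ≤ r → 0 ≤ Sl l ∧ Sl l ≤ Lam) (halu : Sl r = alu)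
    (hnl : ∀ l, r₀ ≤ l → l < r → n l = sn l v + f l)
    (hf1 : ∀ l, r₀ ≤ l → l < r → 2 * (Lam * X) + 3 * φ + ρ < f l)
    (hf2 : ∀ l, r₀ ≤ l → l < r → f l + φ ≤ U - (v + X))
    (hf3 : ∀ l, r₀ ≤ l → l < r → ∀ l', r₀ ≤ l' → l' < l → f l + Lam * X + 2 * φ + ρ ≤ f l')
    (hUX : Lam * X + 2 * φ ≤ U - (v + X)) (hU : U ≤ 1) (hUv : v + X < U) (hv : 0 ≤ v)
    (hρ : 0 < ρ) (hx0 : 0 ≤ x) (hxX : x ≤ X) (halN : 0 < alN)
    (he₀ : e₀ ≤ ρ / 8) (hg₀ : 0 < g₀) (heg : e₀ ≤ g₀ / 2)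
    (hE : ∀ i, r₀ ≤ i → i ≤ r → 0 ≤ E i ∧ E i ≤ 1)
    (hrd : ∀ i, r₀ ≤ i → i ≤ r → 0 ≤ rd i ∧ rd i + g₀ ≤ 1)
    (hn : ∀ i, r₀ ≤ i → i < r → n i + E i + g₀ ≤ 1) {t : ℝ}
    (ht : alu * (X - x) * Real.log 2 + tz - alN * (X - x) * Real.log 2 +
      (3 * φ + ρ + alu * (2 * ρ₀)) * Real.log 2 + e2 * (1 / 2) ^ k + dl * (X - x) < t) :
    RowUf S Φ c r₀ r v U n (sn r v + alu * x) (sn r v + alu * X)
      (sn (r + 1) v + alN * X) t := by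
  have hX0 : 0 ≤ X := hx0.trans hxX
  have hρ₀ : 0 ≤ ρ₀ := by
    obtain ⟨w, -, h1⟩ := hG v le_rfl (by linarith)
    exact (abs_nonneg _).trans h1
  have halu0 : 0 ≤ alu := by rw [← halu]; exact (hSl r hr le_rfl).1
  have hLam : 0 ≤ Lam := (hSl r hr le_rfl).1.trans (hSl r hr le_rfl).2
  -- the window `o`
  obtain ⟨o, hoG, ho1, ho2, ho3⟩ : ∃ o ∈ G, v ≤ o ∧ o ≤ v + x ∧ v + x ≤ o + 2 * ρ₀ := by
    rcases le_or_gt ρ₀ x with h1 | h1
    · obtain ⟨w, hw, h2⟩ := hG (v + x - ρ₀) (by linarith) (by linarith)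
      have h3 := abs_le.1 h2
      rcases le_or_gt v w with h4 | h4
      · exact ⟨w, hw, h4, by linarith [h3.2], by linarith [h3.1]⟩
      · exact ⟨v, hvG, le_rfl, by linarith, by linarith [h3.1]⟩
    · exact ⟨v, hvG, le_rfl, by linarith, by linarith⟩
  -- the list
  obtain ⟨M, wb, b0, bM, hb, hst⟩ := gseq (G := G) (h := 2 * ρ₀ + 1) hvG (by linarith) 1 o hoG
    ho1 (by
      have : o ≤ 1 := by linarith
      push_cast
      linarith) (fun y hy1 hy2 => hG y hy1 (by linarith))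
  have hN := htn_r (r₀ := r₀) (r := r) (sn := sn) (n := n) (U := U) (ρ := ρ) (φ := φ) (X := X)
    (Lam := Lam) (Sl := Sl) (f := f) b0 bM (fun j hj => (hb j hj).2) hv (by linarith)
    (by linarith) hU hρ (by linarith)
    (fun l h0 h1 j hj => hsl l h0 h1 (wb j) (hb j hj).1 (hb j hj).2.1
      (by linarith [(hb j hj).2.2])) hSl hLam hnl hf1
    (fun l h0 h1 => by linarith [hf2 l h0 h1]) hf3 (by linarith)
  refine rowUf_num htm hpos hr he hle hΦ hZ htz hFN he2 hs hbox1 hbox2 hdl hdlb hph hK hE1 hrho hpi hN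
    (chl_of hr fun j hj => hch (wb j) (hb j hj).1) ?_ ho2 ho3 hx0 hxX (by linarith) halu0 halN
    he₀ hg₀ heg hE hrd hn ht
  rw [← halu]
  exact hsl r hr le_rfl o hoG ho1 (by linarith)

/-- **The rows of the second place**, in the form of `pair_rb`. -/
theorem rw2_Nf {S : PCl m} {C₀ : ℝ} (htm : TmC S C₀) {Ψ : Fm2 m} {c : ℕ → Fin m} {r₀ r K : ℕ}
    {e : ℝ} {E : ℕ → ℝ} {v lam : ℝ} {rd p n : ℕ → ℝ} (hv0 : 0 ≤ v) (hv : v ≤ 1)
    {Φ : FmX m} (hΦ : FmL Φ c r₀ (r + 2) K e E v rd p) (hΨ : PsF Ψ Φ c r₀ r K v lam n)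
    {α₁ α₂ q h d d' : ℝ}
    {N₀ : ℕ} (hdd : d < d')
    (H : ∀ i j : ℕ, i ≤ j → j ≤ N₀ → ∀ x : ℝ, x = q - q * j / N₀ →
      RowNf S Φ c r₀ r v (v + lam) n (p r + α₁ * (q - q * i / N₀))
        (p (r + 1) + α₂ * x) (p (r + 1) + α₂ * (q - q * i / N₀))
        ((α₂ - h) * ((q - q * i / N₀) - x) * Real.log 2 + d)) :
    Rw2 S Ψ.swap (c (r + 1)) (c r) v (p (r + 1)) (p r) α₂ α₁ q h d' N₀ := by
  intro i j hij hj
  obtain ⟨x, hx⟩ : ∃ x : ℝ, x = q - q * j / N₀ := ⟨_, rfl⟩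
  rw [← hx]
  obtain ⟨B, hB⟩ : ∃ B : ℝ, B = r * Real.log (4 * (K + 3) + 3) + m * Real.log 7 := ⟨_, rfl⟩
  obtain ⟨J₀, hJ₀⟩ := exists_nat_ge (B / (d' - d))
  refine Bas.mono J₀ (Bas.and (H i j hij hj x hx) (bas_pos' htm)) ?_
  rintro J hJ F A ⟨hA, hpe⟩ V C z z' G₂ G₁ cc hps
  obtain ⟨g, hG, rfl, rfl, φ, hφ⟩ := hΨ J F A V C z z' G₁ G₂ cc hps
  have hL := hΦ J F A V z z' g hG
  have hq := isLaw_cond F.isLaw hpe
  have hJr : (J₀ : ℝ) ≤ J := by exact_mod_cast hJ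
  have g1 : B ≤ (d' - d) * J := by
    have := hJ₀.trans hJr
    rwa [div_le_iff₀ (by linarith), mul_comm] at this
  have g2 := hA V z z' g hG
  have g3 := cx_few hv0 hv hL hφ hq
    (fun ω => (⌊(2 : ℝ) ^ ((p (r + 1) + α₂ * x) * J) *
      ojet F (c (r + 1)) 0 (g (z' (slam F ⌊v * J⌋₊ ω)) (r + 1)) ω⌋,
      (⌊(2 : ℝ) ^ ((p r + α₁ * (q - q * i / N₀)) * J) *
        ojet F (c r) 0 (g (z' (slam F ⌊v * J⌋₊ ω)) r) ω⌋,
        (z' (slam F ⌊v * J⌋₊ ω), (cc (slam F ⌊v * J⌋₊ ω), F.W ω)))))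
    (fun ω ω' e => by
      have k1 := Prod.ext_iff.mp e
      have k2 := Prod.ext_iff.mp k1.2
      have k3 := Prod.ext_iff.mp k2.2
      have k4 := Prod.ext_iff.mp k3.2
      exact ⟨k3.1, k4.1, k4.2⟩)
    (fun ω => ⌊(2 : ℝ) ^ ((p (r + 1) + α₂ * (q - q * i / N₀)) * J) *
      ojet F (c (r + 1)) 0 (g (z' (slam F ⌊v * J⌋₊ ω)) (r + 1)) ω⌋)
    (fun ω => (hd F c (r + 1) z' ⌊v * J⌋₊ g (p (r + 1) + α₂ * x) ω,
      (hd F c r z' ⌊v * J⌋₊ g (p r + α₁ * (q - q * i / N₀)) ω,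
        cx F c r₀ r z' ⌊v * J⌋₊ g n (v + lam) ω)))
    (fun ω ω' e k => by
      have k1 := Prod.ext_iff.mp e
      have k2 := Prod.ext_iff.mp k1.2
      exact Prod.ext k1.1 (Prod.ext k2.1 k))
  refine g3.trans ?_
  rw [← hB]
  have g4 : ((α₂ - h) * ((q - q * i / N₀) - x) * Real.log 2 + d') * J =
      ((α₂ - h) * ((q - q * i / N₀) - x) * Real.log 2 + d) * J + (d' - d) * J := by ring
  rw [g4]
  exact add_le_add g2 g1

/-- **The rows of the first place**, in the form of `pair_rb`. -/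
theorem rw2_Uf {S : PCl m} {C₀ : ℝ} (htm : TmC S C₀) {Ψ : Fm2 m} {c : ℕ → Fin m} {r₀ r K : ℕ}
    {e : ℝ} {E : ℕ → ℝ} {v lam : ℝ} {rd p n : ℕ → ℝ} (hv0 : 0 ≤ v) (hv : v ≤ 1)
    {Φ : FmX m} (hΦ : FmL Φ c r₀ (r + 2) K e E v rd p) (hΨ : PsF Ψ Φ c r₀ r K v lam n)
    {α₁ α₂ q h d d' : ℝ}
    {N₀ : ℕ} (hdd : d < d')
    (H : ∀ i j : ℕ, i ≤ j → j ≤ N₀ → ∀ x : ℝ, x = q - q * j / N₀ →
      RowUf S Φ c r₀ r v (v + lam) n (p r + α₁ * x)
        (p r + α₁ * (q - q * i / N₀)) (p (r + 1) + α₂ * (q - q * i / N₀))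
        ((α₁ - h) * ((q - q * i / N₀) - x) * Real.log 2 + d)) :
    Rw2 S Ψ (c r) (c (r + 1)) v (p r) (p (r + 1)) α₁ α₂ q h d' N₀ := by
  intro i j hij hj
  obtain ⟨x, hx⟩ : ∃ x : ℝ, x = q - q * j / N₀ := ⟨_, rfl⟩
  rw [← hx]
  obtain ⟨B, hB⟩ : ∃ B : ℝ, B = r * Real.log (4 * (K + 3) + 3) + m * Real.log 7 := ⟨_, rfl⟩
  obtain ⟨J₀, hJ₀⟩ := exists_nat_ge (B / (d' - d))
  refine Bas.mono J₀ (Bas.and (H i j hij hj x hx) (bas_pos' htm)) ?_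
  rintro J hJ F A ⟨hA, hpe⟩ V C z z' G₁ G₂ cc hps
  obtain ⟨g, hG, rfl, rfl, φ, hφ⟩ := hΨ J F A V C z z' G₁ G₂ cc hps
  have hL := hΦ J F A V z z' g hG
  have hq := isLaw_cond F.isLaw hpe
  have hJr : (J₀ : ℝ) ≤ J := by exact_mod_cast hJ
  have g1 : B ≤ (d' - d) * J := by
    have := hJ₀.trans hJr
    rwa [div_le_iff₀ (by linarith), mul_comm] at this
  have g2 := hA V z z' g hG
  have g3 := cx_few hv0 hv hL hφ hq
    (fun ω => (⌊(2 : ℝ) ^ ((p r + α₁ * x) * J) *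
      ojet F (c r) 0 (g (z' (slam F ⌊v * J⌋₊ ω)) r) ω⌋,
      (⌊(2 : ℝ) ^ ((p (r + 1) + α₂ * (q - q * i / N₀)) * J) *
        ojet F (c (r + 1)) 0 (g (z' (slam F ⌊v * J⌋₊ ω)) (r + 1)) ω⌋,
        (z' (slam F ⌊v * J⌋₊ ω), (cc (slam F ⌊v * J⌋₊ ω), F.W ω)))))
    (fun ω ω' e => by
      have k1 := Prod.ext_iff.mp e
      have k2 := Prod.ext_iff.mp k1.2
      have k3 := Prod.ext_iff.mp k2.2
      have k4 := Prod.ext_iff.mp k3.2
      exact ⟨k3.1, k4.1, k4.2⟩)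
    (fun ω => ⌊(2 : ℝ) ^ ((p r + α₁ * (q - q * i / N₀)) * J) *
      ojet F (c r) 0 (g (z' (slam F ⌊v * J⌋₊ ω)) r) ω⌋)
    (fun ω => (hd F c r z' ⌊v * J⌋₊ g (p r + α₁ * x) ω,
      (hd F c (r + 1) z' ⌊v * J⌋₊ g (p (r + 1) + α₂ * (q - q * i / N₀)) ω,
        cx F c r₀ r z' ⌊v * J⌋₊ g n (v + lam) ω)))
    (fun ω ω' e k => by
      have k1 := Prod.ext_iff.mp e
      have k2 := Prod.ext_iff.mp k1.2
      exact Prod.ext k1.1 (Prod.ext k2.1 k))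
  refine g3.trans ?_
  rw [← hB]
  have g4 : ((α₁ - h) * ((q - q * i / N₀) - x) * Real.log 2 + d') * J =
      ((α₁ - h) * ((q - q * i / N₀) - x) * Real.log 2 + d) * J + (d' - d) * J := by ring
  rw [g4]
  exact add_le_add g2 g1

/-- **A short row** is trivial. -/
theorem rowNf_triv {S : PCl m} {C₀ : ℝ} (htm : TmC S C₀) {Φ : FmX m}
    {c : ℕ → Fin m} {r₀ r : ℕ} {v U : ℝ} {n : ℕ → ℝ} {bu a b t : ℝ} (hab : a ≤ b)
    (ht : (b - a) * Real.log 2 < t) : RowNf S Φ c r₀ r v U n bu a b t := by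
  obtain ⟨σ, hσ⟩ : ∃ σ : ℝ, σ = t - (b - a) * Real.log 2 := ⟨_, rfl⟩
  have hσ0 : 0 < σ := by rw [hσ]; linarith
  obtain ⟨J₀, hJ₀⟩ := exists_nat_ge (Real.log 5 / σ)
  refine Bas.mono J₀ (bas_pos htm) ?_
  rintro J hJ F A hpe V z z' g hL
  have hq := isLaw_cond F.isLaw hpe
  have hJ0 : (0 : ℝ) ≤ J := Nat.cast_nonneg J
  have hJr : (J₀ : ℝ) ≤ J := by exact_mod_cast hJ
  have g1 : Real.log 5 ≤ σ * J := by
    have := hJ₀.trans hJr
    rwa [div_le_iff₀ hσ0, mul_comm] at this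
  have g5 := fl_few hq (fun ω => hgt F (c (r + 1)) z' ⌊v * J⌋₊ (fun y => g y (r + 1)) ω)
    (a := a) (b := b) hJ0 (fun ω => (hd F c r z' ⌊v * J⌋₊ g bu ω,
      cx F c r₀ r z' ⌊v * J⌋₊ g n U ω))
  rw [max_eq_left (by linarith : (0 : ℝ) ≤ b - a)] at g5
  refine g5.trans ?_
  have g7 : t * J = (b - a) * Real.log 2 * J + σ * J := by
    rw [hσ]
    ring
  rw [g7]
  nlinarith [g1]

end Pool.CR99
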