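import Pool.Agent.H99.D2.Vnc
import Pool.Agent.H78.PSQ.Val

/-!
# Natural labels of many windows over one label of a family

`NzN`: the natural labels of the window `v` with natural labels of the windows `a k`, `k < n`, over the
same label of the family `Ψ`. `NzN.nzq`: each pair of windows is in `NzQ`. `nzn_ex`: they exist on a part.
`PsN`: the pairs of labels with these natural labels (`PsQ` of helper18 for many windows).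
-/

set_option autoImplicit false

namespace Pool.CR99

open Finset Real MvPolynomial
open Pool.Agent.H49.Ent Pool.Agent.H32.Dense Pool.STK Pool.KA Pool.KSAT Pool.K2S Pool.PB Pool.S6C
open Pool.GEN Pool.RCD Pool.LA91 Pool.OWN68 Pool.AJW Pool.AJX Pool.CHT
open Pool.GRD (LbP)
open Pool.ALT (Fml NzQ NzF NzL NzO nzG floorw wz wz_slam)
open Pool.PN18

/-- **The natural labels of the window** `v` with natural labels of the windows `a k`, `k < n`, over the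
same label of the family `Ψ`. -/
def NzN {m : ℕ} (Ψ : Fml m) (c : ℕ → Fin m) (r₀ : ℕ) (κ : Fin m) (D : ℕ)
    (w v p₁ p₂ e u p : ℝ) (n : ℕ) (a pa₁ pa₂ ea ua pa : ℕ → ℝ) : Fml m := fun J F A V z z' G =>
  ∃ (V₀ V₁ V₂ : Type) (z₀ : PtT F → V₀) (z₀' : LnT F → V₀)
    (G₀ : V₀ → MvPolynomial (Option (Fin m)) ℝ) (P₁ : ℕ) (z₁ : PtT F → V₁) (z₁' : LnT F → V₁)
    (G₁ : V₁ → MvPolynomial (Option (Fin m)) ℝ) (P₂ : ℕ) (z₂ : PtT F → V₂)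
    (z₂' : LnT F → V₂) (H : V₂ → MvPolynomial (Option (Fin m)) ℝ)
    (f : V → V₀ × (V₁ × V₂)), Ψ J F A V₀ z₀ z₀' G₀ ∧
      NzL c r₀ κ D D D w v p₁ p₂ e u p F A z z' G z₀' G₀ P₁ z₁ z₁' G₁ P₂ z₂ z₂' H f ∧
      ∀ k < n, ∃ (Va Y₁ Y₂ : Type) (za : PtT F → Va) (za' : LnT F → Va)
        (Ga : Va → MvPolynomial (Option (Fin m)) ℝ) (Q₁ : ℕ) (y₁ : PtT F → Y₁) (y₁' : LnT F → Y₁)
        (B₁ : Y₁ → MvPolynomial (Option (Fin m)) ℝ) (Q₂ : ℕ) (y₂ : PtT F → Y₂)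
        (y₂' : LnT F → Y₂) (B₂ : Y₂ → MvPolynomial (Option (Fin m)) ℝ)
        (fa : Va → V₀ × (Y₁ × Y₂)),
        NzL c r₀ κ D D D w (a k) (pa₁ k) (pa₂ k) (ea k) (ua k) (pa k) F A za za' Ga z₀' G₀ Q₁
          y₁ y₁' B₁ Q₂ y₂ y₂' B₂ fa

variable {m : ℕ} {Ψ : Fml m} {c : ℕ → Fin m} {r₀ : ℕ} {κ : Fin m} {D : ℕ}
  {w v p₁ p₂ e u p : ℝ} {n : ℕ} {a pa₁ pa₂ ea ua pa : ℕ → ℝ}

theorem NzN.hs (hΨs : ∀ (J : ℕ) (F : Fam m J) (A B : F.Ω → Prop) (V : Type)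
      (z : PtT F → V) (z' : LnT F → V) (G : V → MvPolynomial (Option (Fin m)) ℝ), Sub B A →
      Ψ J F A V z z' G → Ψ J F B V z z' G) (J : ℕ) (F : Fam m J) (A B : F.Ω → Prop) (V : Type)
    (z : PtT F → V) (z' : LnT F → V) (G : V → MvPolynomial (Option (Fin m)) ℝ) (hB : Sub B A)
    (h : NzN Ψ c r₀ κ D w v p₁ p₂ e u p n a pa₁ pa₂ ea ua pa J F A V z z' G) :
    NzN Ψ c r₀ κ D w v p₁ p₂ e u p n a pa₁ pa₂ ea ua pa J F B V z z' G := by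
  obtain ⟨V₀, V₁, V₂, z₀, z₀', G₀, P₁, z₁, z₁', G₁, P₂, z₂, z₂', H, f, h1, h2, h3⟩ := h
  refine ⟨V₀, V₁, V₂, z₀, z₀', G₀, P₁, z₁, z₁', G₁, P₂, z₂, z₂', H, f,
    hΨs J F A B V₀ z₀ z₀' G₀ hB h1, h2.sub hB, fun k hk => ?_⟩
  obtain ⟨Va, Y₁, Y₂, za, za', Ga, Q₁, y₁, y₁', B₁, Q₂, y₂, y₂', B₂, fa, h4⟩ := h3 k hk
  exact ⟨Va, Y₁, Y₂, za, za', Ga, Q₁, y₁, y₁', B₁, Q₂, y₂, y₂', B₂, fa, h4.sub hB⟩

/-- Each pair of windows. -/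
theorem NzN.nzq {J : ℕ} {F : Fam m J} {A : F.Ω → Prop} {V : Type}
    {z : PtT F → V} {z' : LnT F → V} {G : V → MvPolynomial (Option (Fin m)) ℝ}
    (h : NzN Ψ c r₀ κ D w v p₁ p₂ e u p n a pa₁ pa₂ ea ua pa J F A V z z' G) {k : ℕ}
    (hk : k < n) :
    NzQ Ψ c r₀ κ D D D D w v p₁ p₂ e u p (a k) (pa₁ k) (pa₂ k) (ea k) (ua k) (pa k) J F A V z z'
      G := by
  obtain ⟨V₀, V₁, V₂, z₀, z₀', G₀, P₁, z₁, z₁', G₁, P₂, z₂, z₂', H, f, h1, h2, h3⟩ := h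
  exact ⟨V₀, V₁, V₂, z₀, z₀', G₀, P₁, z₁, z₁', G₁, P₂, z₂, z₂', H, f, h1, h2, h3 k hk⟩

theorem NzN.nzf {J : ℕ} {F : Fam m J} {A : F.Ω → Prop} {V : Type}
    {z : PtT F → V} {z' : LnT F → V} {G : V → MvPolynomial (Option (Fin m)) ℝ}
    (h : NzN Ψ c r₀ κ D w v p₁ p₂ e u p n a pa₁ pa₂ ea ua pa J F A V z z' G) :
    NzF Ψ c r₀ κ D D D w v p₁ p₂ e u p J F A V z z' G := by
  obtain ⟨V₀, V₁, V₂, z₀, z₀', G₀, P₁, z₁, z₁', G₁, P₂, z₂, z₂', H, f, h1, h2, -⟩ := h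
  exact ⟨V₀, V₁, V₂, z₀, z₀', G₀, P₁, z₁, z₁', G₁, P₂, z₂, z₂', H, f, h1, h2⟩

/-- **More code**: a label with a finer code is a label of the family. -/
theorem NzN.code {J : ℕ} {F : Fam m J} {A : F.Ω → Prop} {V V' : Type}
    {z : PtT F → V} {z' : LnT F → V} {G : V → MvPolynomial (Option (Fin m)) ℝ}
    (h : NzN Ψ c r₀ κ D w v p₁ p₂ e u p n a pa₁ pa₂ ea ua pa J F A V z z' G)
    (y : PtT F → V') (y' : LnT F → V') (φ : V' → V) (h1 : ∀ x, φ (y' x) = z' x)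
    (h2 : ∀ ω, A ω → y (ptr F J ω) = y' (slam F ⌊v * J⌋₊ ω)) :
    NzN Ψ c r₀ κ D w v p₁ p₂ e u p n a pa₁ pa₂ ea ua pa J F A V' y y'
      (fun x => G (φ x)) := by
  obtain ⟨V₀, V₁, V₂, z₀, z₀', G₀, P₁, z₁, z₁', G₁, P₂, z₂, z₂', H, f, a1, a2, a3⟩ := h
  refine ⟨V₀, V₁, V₂, z₀, z₀', G₀, P₁, z₁, z₁', G₁, P₂, z₂, z₂', H, fun x => f (φ x), a1, ?_, a3⟩
  refine ⟨a2.l1, a2.q1, a2.l2, a2.q2, fun x => ?_, fun x => a2.pol _, ?_⟩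
  · rw [h1, a2.cod]
  · refine ⟨fun x => a2.lb.deg _, fun x => a2.lb.dep _, h2, fun ω hω => ?_, fun ω hω => ?_,
      fun ω hω => ?_⟩
    · simp only [h1]
      exact a2.lb.pos ω hω
    · simp only [h1]
      exact a2.lb.vel ω hω
    · simp only [h1]
      exact a2.lb.lip ω hω

/-- **The natural labels exist on a part.** -/
theorem nzn_ex {S : PCl m} (hN : NzO S Ψ c r₀ κ D D D w v p₁ p₂ e u p)
    (hNa : ∀ k < n, NzO S Ψ c r₀ κ D D D w (a k) (pa₁ k) (pa₂ k) (ea k) (ua k) (pa k))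
    (hΨs : ∀ (J : ℕ) (F : Fam m J) (A B : F.Ω → Prop) (V : Type)
      (z : PtT F → V) (z' : LnT F → V) (G : V → MvPolynomial (Option (Fin m)) ℝ), Sub B A →
      Ψ J F A V z z' G → Ψ J F B V z z' G)
    (hex : Bas S (fun J F A => ∃ (V : Type) (z : PtT F → V) (z' : LnT F → V)
      (G : V → MvPolynomial (Option (Fin m)) ℝ), Ψ J F A V z z' G))
    (h1 : Bas S (fun J F A => ∃ (P₁ : ℕ) (V₁ : Type) (z₁ : PtT F → V₁) (z₁' : LnT F → V₁)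
      (G₁ : V₁ → MvPolynomial (Option (Fin m)) ℝ),
      LbP F ((range (r₀ + 1)).image c) κ D J ⌊v * J⌋₊ P₁ A z₁ z₁' G₁ ∧ p₁ * J ≤ P₁))
    (h2 : Bas S (fun J F A => ∃ (P₂ : ℕ) (V₂ : Type) (z₂ : PtT F → V₂) (z₂' : LnT F → V₂)
      (H : V₂ → MvPolynomial (Option (Fin m)) ℝ),
      LbP F ((range r₀).image c) (c r₀) D J ⌊v * J⌋₊ P₂ A z₂ z₂' H ∧ p₂ * J ≤ P₂))
    (ha1 : ∀ k < n, Bas S (fun J F A => ∃ (P₁ : ℕ) (V₁ : Type) (z₁ : PtT F → V₁)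
      (z₁' : LnT F → V₁) (G₁ : V₁ → MvPolynomial (Option (Fin m)) ℝ),
      LbP F ((range (r₀ + 1)).image c) κ D J ⌊a k * J⌋₊ P₁ A z₁ z₁' G₁ ∧ pa₁ k * J ≤ P₁))
    (ha2 : ∀ k < n, Bas S (fun J F A => ∃ (P₂ : ℕ) (V₂ : Type) (z₂ : PtT F → V₂)
      (z₂' : LnT F → V₂) (H : V₂ → MvPolynomial (Option (Fin m)) ℝ),
      LbP F ((range r₀).image c) (c r₀) D J ⌊a k * J⌋₊ P₂ A z₂ z₂' H ∧ pa₂ k * J ≤ P₂)) :
    Bas S (fun J F A => ∃ B : F.Ω → Prop, Sub B A ∧ Pe F.p A ≤ 8 ^ (n + 1) * Pe F.p B ∧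
      ∃ (V : Type) (z : PtT F → V) (z' : LnT F → V)
        (G : V → MvPolynomial (Option (Fin m)) ℝ),
        NzN Ψ c r₀ κ D w v p₁ p₂ e u p n a pa₁ pa₂ ea ua pa J F B V z z' G) := by
  induction n with
  | zero =>
    refine Bas.mono 0 (Pool.ALT.nzf_ex hN hΨs hex h1 h2) ?_
    rintro J - F A ⟨B, b1, b2, V, z, z', G, V₀, V₁, V₂, z₀, z₀', G₀, P₁, z₁, z₁', G₁, P₂, z₂, z₂',
      H, f, a1, a2⟩
    exact ⟨B, b1, by rw [zero_add, pow_one]; exact b2, V, z, z', G, V₀, V₁, V₂, z₀, z₀', G₀, P₁,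
      z₁, z₁', G₁, P₂, z₂, z₂', H, f, a1, a2, fun k hk => absurd hk (Nat.not_lt_zero k)⟩
  | succ n ih =>
    have IH := ih (fun k hk => hNa k (by omega)) (fun k hk => ha1 k (by omega))
      (fun k hk => ha2 k (by omega))
    have h8 : (0 : ℝ) < 8 ^ (n + 1) := by positivity
    refine Bas.mono 0 (Bas.and IH (Pool.GRW.bas_part (Bas.and (hNa n (Nat.lt_succ_self n) 1
      one_pos) (Bas.and (ha1 n (Nat.lt_succ_self n)) (ha2 n (Nat.lt_succ_self n)))) h8)) ?_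
    rintro J - F A ⟨⟨B, b1, b2, V, z, z', G, V₀, V₁, V₂, z₀, z₀', G₀, P₁, z₁, z₁', G₁, P₂, z₂,
      z₂', H, f, a1, a2, a3⟩, hp⟩
    obtain ⟨HN, ⟨Q₁, Y₁, y₁, y₁', B₁, hB₁, hQ₁⟩, Q₂, Y₂, y₂, y₂', B₂, hB₂, hQ₂⟩ := hp B b1 b2
    obtain ⟨B', c1, c2, c3⟩ := HN V₀ z₀ z₀' G₀ a1 Q₁ Y₁ y₁ y₁' B₁ hB₁ hQ₁ Q₂ Y₂ y₂ y₂' B₂ hB₂ hQ₂ B
      (fun ω h => h) (by rw [div_one, one_mul])
    refine ⟨B', fun ω hω => b1 ω (c1 ω hω), ?_, V, z, z', G, V₀, V₁, V₂, z₀, z₀', G₀, P₁, z₁, z₁',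
      G₁, P₂, z₂, z₂', H, f, hΨs J F B B' V₀ z₀ z₀' G₀ c1 a1, a2.sub c1, fun k hk => ?_⟩
    · have := mul_le_mul_of_nonneg_left c2 h8.le
      rw [pow_succ]
      linarith
    · rcases Nat.lt_or_ge k n with hkn | hkn
      · obtain ⟨Va, X₁, X₂, za, za', Ga, R₁, x₁, x₁', C₁, R₂, x₂, x₂', C₂, fa, h4⟩ := a3 k hkn
        exact ⟨Va, X₁, X₂, za, za', Ga, R₁, x₁, x₁', C₁, R₂, x₂, x₂', C₂, fa, h4.sub c1⟩
      · have : k = n := by omega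
        subst this
        exact ⟨_, Y₁, Y₂, _, _, _, Q₁, y₁, y₁', B₁, Q₂, y₂, y₂', B₂, id, hB₁.sub c1, hQ₁,
          hB₂.sub c1, hQ₂, fun _ => rfl, fun _ => rfl, c3⟩

/-- **The pairs of labels**: a nested chain of labels at the window `v`, the last one natural, with
natural labels of the windows `a k`, `k < n₀`, over the same label of the family `Ψ₀`. -/
def PsN {m : ℕ} (Ψ₀ : Fml m) (c : ℕ → Fin m) (r D K : ℕ)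
    (vn v p₁ p₂ eN uN pN : ℝ) (n₀ : ℕ) (a pa₁ pa₂ ea ua pa : ℕ → ℝ) (lam e : ℝ)
    (E rd p n : ℕ → ℝ) : Fm2 m :=
  fun J F A V C z z' G₁ G₂ cc => ∃ g : V → ℕ → MvPolynomial (Option (Fin m)) ℝ,
    LbX F c 0 (r + 2) K e E v rd p A z z' g ∧ G₁ = (fun x => g x r) ∧
    G₂ = (fun x => g x (r + 1)) ∧
    NzN Ψ₀ c r (c (r + 1)) D vn v p₁ p₂ eN uN pN n₀ a pa₁ pa₂ ea ua pa J F A V z z' G₂ ∧
    (∃ φ : C → (Fin m → ℤ × ℤ) × (ℕ → ℕ → ℤ), ∀ x,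
      ctxN F c 0 r ⌊v * J⌋₊ ⌊(v + lam) * J⌋₊ K z' g n x = φ (cc x)) ∧
    ∃ ψ : V × ((Fin m → ℤ × ℤ) × (ℕ → ℕ → ℤ)) → C, ∀ x,
      cc x = ψ (z' x, ctxN F c 0 r ⌊v * J⌋₊ ⌊(v + lam) * J⌋₊ K z' g n x)

/-- Each pair of windows. -/
theorem PsN.psq {Ψ₀ : Fml m} {c : ℕ → Fin m} {r D K : ℕ} {vn v p₁ p₂ eN uN pN : ℝ} {n₀ : ℕ}
    {a pa₁ pa₂ ea ua pa : ℕ → ℝ} {lam e : ℝ} {E rd p n : ℕ → ℝ} {J : ℕ} {F : Fam m J}
    {A : F.Ω → Prop} {V C : Type} {z : PtT F → V} {z' : LnT F → V}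
    {G₁ G₂ : V → MvPolynomial (Option (Fin m)) ℝ} {cc : LnT F → C}
    (h : PsN Ψ₀ c r D K vn v p₁ p₂ eN uN pN n₀ a pa₁ pa₂ ea ua pa lam e E rd p n J F A V C z z'
      G₁ G₂ cc) {k : ℕ} (hk : k < n₀) :
    PsQ Ψ₀ c r D K vn v (a k) p₁ p₂ eN uN pN (pa₁ k) (pa₂ k) (ea k) (ua k) (pa k) lam e E rd p n
      J F A V C z z' G₁ G₂ cc := by
  obtain ⟨g, h1, h2, h3, h4, h5, h6⟩ := h
  exact ⟨g, h1, h2, h3, h4.nzq hk, h5, h6⟩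

end Pool.CR99
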