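import Pool.Agent.H99.D2.Rnb
import Pool.Agent.H99.D2.Vnd

/-!
# The row of the last coordinate of a pair with natural labels

`rowNf_nz`: the row `RowNf` for a family whose labels of `c (r + 1)` are natural, with a natural label of
the window `o` over the same label of `Ψ₀`, from the raw rows.
-/

set_option autoImplicit false

namespace Pool.CR99

open Finset Real MvPolynomial
open Pool.Agent.H49.Ent Pool.Agent.H32.Dense Pool.STK Pool.KA Pool.KSAT Pool.K2S Pool.PB Pool.GEN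
open Pool.S6C Pool.RCD Pool.LA91 Pool.OWN68 Pool.CHT Pool.AJX Pool.PN18
open Pool.GRD (LbP Pb_mono_pos)
open Pool.UNJ (ceI Tub)
open Pool.BFL (Pb)
open Pool.ALT (AltAt ful_few Fml NzQ NzF NzL NzO nzq_few DpI)
open Pool.RW37

variable {m : ℕ}

/-- Fewer places. -/
theorem qJets_cut {c : ℕ → Fin m} {r K J : ℕ} {e v bu : ℝ} {p n : ℕ → ℝ} {F : Fam m J}
    {A : F.Ω → Prop} {uu : F.Ω → ℕ → ℕ → ℤ}
    (h : (qJets m c 0 (r + 1) 0 (fun _ _ => v) (fun l _ => p l)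
      (fun l _ => Function.update n r bu l)).P K e J F A uu) :
    (qJets m c 0 r 0 (fun _ _ => v) (fun l _ => p l) (fun l _ => n l)).P K e J F A
      (fun ω i j => if i < r then uu ω i j else 0) := by
  refine ⟨fun i h0 hi j' hj' => ?_, fun ω hω i j' hij => ?_⟩
  · have h1 := h.1 i h0 (by omega) j' hj'
    have e1 : (fun ω => (fun ω i j => if i < r then uu ω i j else 0 : F.Ω → ℕ → ℕ → ℤ) ω i j') =
        fun ω => uu ω i j' := by
      funext ω
      exact if_pos hi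
    have e2 : Function.update n r bu i = n i := Function.update_of_ne (by omega) _ _
    rw [e1]
    beta_reduce at h1
    rw [e2] at h1
    exact h1
  · by_cases hi : i < r
    · show (if i < r then uu ω i j' else 0) = 0
      rw [if_pos hi]
      exact h.2 ω hω i j' (fun h2 => hij ⟨h2.1, hi, h2.2.2⟩)
    · exact if_neg hi

/-- **The row of a natural label.** -/
theorem rowNf_nz {S : PCl m} {C₀ : ℝ} (htm : TmC S C₀)
    (hpos : ∀ (τ : ℝ) (J : ℕ) (F : Fam m J) (A : F.Ω → Prop), S.St τ J F A → 0 < Pe F.p A)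
    {Φ : FmX m} {c : ℕ → Fin m} {r K D M : ℕ} (hr1 : 1 ≤ r) {sn : ℕ → ℝ → ℝ}
    {wb n E rd : ℕ → ℝ} {v o U ρ g₀ e bu q x h δ₁ b t : ℝ} (he : 0 < e)
    (hle : e ≤ min (ρ / 8) (g₀ / 2))
    (hΦ : FmL Φ c 0 (r + 2) K e E v rd (fun l => sn l v))
    {Ψ₀ : Fml m} {vn p₁ p₂ eN uN pN pa₁ pa₂ ea ua pa pm : ℝ}
    (hΨd : ∀ (J : ℕ) (F : Fam m J) (A : F.Ω → Prop) (V : Type) (z : PtT F → V) (z' : LnT F → V)
      (G : V → MvPolynomial (Option (Fin m)) ℝ), Ψ₀ J F A V z z' G →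
      (∀ y, (G y).totalDegree ≤ D) ∧ (∀ y, DpI ((range (r + 1)).image c) (G y)) ∧
      ∀ ω, A ω → z (ptr F J ω) = z' (slam F ⌊vn * J⌋₊ ω))
    (hΦN : ∀ (J : ℕ) (F : Fam m J) (A : F.Ω → Prop) (V : Type) (z : PtT F → V)
      (z' : LnT F → V) (g : V → ℕ → MvPolynomial (Option (Fin m)) ℝ), Φ J F A V z z' g →
      NzQ Ψ₀ c r (c (r + 1)) D D D D vn v p₁ p₂ eN uN pN o pa₁ pa₂ ea ua pa J F A V z z'
        (fun y => g y (r + 1)))
    (hN : HtN 0 r M wb sn (Function.update n r bu) (fun i => sn i o - ρ) v o U ρ)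
    (hc : ChL S c 0 r M wb sn) (hU : U < 1) {u₁ : ℝ} {rw : ℕ → ℝ}
    (hco : Chn S c 0 (r + 1) o o u₁ (fun l => sn l o) rw) (hvn : vn ≤ v) (hg₀ : 0 < g₀)
    (hE : ∀ i ≤ r + 1, 0 ≤ E i ∧ E i ≤ 1) (hrd : ∀ i ≤ r + 1, 0 ≤ rd i ∧ rd i + g₀ ≤ 1)
    (hnE : ∀ i < r + 1, Function.update n r bu i + E i + g₀ ≤ 1)
    (hNE : sn (r + 1) v + q + E (r + 1) + g₀ ≤ 1) (hp : 0 ≤ sn (r + 1) v)
    (hraw : RawN S ((range (r + 1)).image c) (c (r + 1)) (sn (r + 1) v) q h δ₁)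
    (hδ₁ : 0 ≤ δ₁) (h1 : h ≤ 1) (hx0 : 0 ≤ x) (hxq : x ≤ q) (hbu : sn r o - ρ ≤ bu)
    (hs : sn (r + 1) v + q ≤ pa) (hm1 : pm ≤ pN) (hm2 : pm ≤ pa) (hm3 : ρ ≤ pm)
    (h3 : sn (r + 1) v + q + ρ ≤ pm + (U - o))
    (h3' : ∀ l < r, sn (r + 1) v + q + ρ ≤ pm + (n l - sn l o - ρ))
    (hb : sn (r + 1) v + q ≤ b)
    (ht : (1 - h) * (q - x) * Real.log 2 + (δ₁ + (r + 1) * ρ) +
      (b - (sn (r + 1) v + q)) * Real.log 2 < t) :
    RowNf S Φ c 0 r v U n bu (sn (r + 1) v + x) b t := by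
  classical
  have hl2 : 0 < Real.log 2 := Real.log_pos one_lt_two
  have hh : 0 ≤ 1 - h := by linarith
  have hρ := hN.ρ0
  have hr0 : (0 : ℝ) ≤ r := Nat.cast_nonneg r
  have hwo : v ≤ o := by
    have := (hN.bw 0 (Nat.zero_le _)).1
    rwa [hN.b0] at this
  have heρ : e ≤ ρ / 8 := hle.trans (min_le_left _ _)
  have heg : e ≤ g₀ / 2 := hle.trans (min_le_right _ _)
  obtain ⟨τ, hτ⟩ : ∃ τ : ℝ, τ = t - ((1 - h) * (q - x) * Real.log 2 + (δ₁ + (r + 1) * ρ) +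
    (b - (sn (r + 1) v + q)) * Real.log 2) := ⟨_, rfl⟩
  have hτ0 : 0 < τ := by rw [hτ]; linarith
  obtain ⟨δ₂, hδ₂⟩ : ∃ δ₂ : ℝ, δ₂ = τ / (4 * ((r : ℝ) + 2)) := ⟨_, rfl⟩
  have hδ₂0 : 0 < δ₂ := by rw [hδ₂]; positivity
  have hδ₂e : ((r : ℝ) + 2) * δ₂ = τ / 4 := by
    rw [hδ₂]
    field_simp
  -- the family
  obtain ⟨Φ', hΦ'⟩ : ∃ Φ' : Fml m, Φ' = fun J F A V z z' G =>
    ∃ g : V → ℕ → MvPolynomial (Option (Fin m)) ℝ, Φ J F A V z z' g ∧
      G = fun y => g y (r + 1) := ⟨_, rfl⟩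
  -- the raw rows
  obtain ⟨J₃, hJ₃⟩ := exists_nat_ge (Real.log (m + 1) / (g₀ / 2 * Real.log 2) +
    (Real.log 9 + Real.log 11) / (τ / 8))
  have hlogm : 0 ≤ Real.log (m + 1) := Real.log_nonneg (by
    have : (0 : ℝ) ≤ m := Nat.cast_nonneg m
    linarith)
  have hl9 : 0 ≤ Real.log 9 + Real.log 11 := add_nonneg (Real.log_nonneg (by norm_num))
    (Real.log_nonneg (by norm_num))
  have hraw' : Bas S (fun J F A => ∀ (V : Type) (z : PtT F → V) (z' : LnT F → V)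
      (G : V → MvPolynomial (Option (Fin m)) ℝ), Φ' J F A V z z' G →
      CH (Pool.Agent.H49.Ent.cond F.p A True)
        (fun ω => ⌊(2 : ℝ) ^ ((sn (r + 1) v + q) * J) *
          ojet F (c (r + 1)) 0 (G (z' (slam F ⌊v * J⌋₊ ω))) ω⌋)
        (fun ω => (⌊(2 : ℝ) ^ ((sn (r + 1) v + x) * J) *
          ojet F (c (r + 1)) 0 (G (z' (slam F ⌊v * J⌋₊ ω))) ω⌋,
          (ceI ((range (r + 1)).image c) (fun _ => J) (F.x ω),
            (z' (slam F ⌊v * J⌋₊ ω), F.W ω)))) ≤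
        ((1 - h) * (q - x) * Real.log 2 + δ₁ + τ / 8) * J) := by
    refine Bas.mono J₃ ((hraw x hx0 hxq).and (Pool.GRW.tmc_bas htm one_pos)) ?_
    rintro J hJ F A ⟨hR, hA, -⟩ V z z' G hG
    rw [hΦ'] at hG
    obtain ⟨g, hg, rfl⟩ := hG
    have hL := hΦ J F A V z z' g hg
    have hJ0 : (0 : ℝ) ≤ J := Nat.cast_nonneg J
    have hJ3 : (J₃ : ℝ) ≤ J := by exact_mod_cast hJ
    have t1 : 0 ≤ Real.log (m + 1) / (g₀ / 2 * Real.log 2) := by positivity
    have t2 : 0 ≤ (Real.log 9 + Real.log 11) / (τ / 8) := by positivity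
    have f1 : Real.log (m + 1) ≤ g₀ / 2 * Real.log 2 * J := by
      have : Real.log (m + 1) / (g₀ / 2 * Real.log 2) ≤ J := by linarith
      rwa [div_le_iff₀ (by positivity), mul_comm] at this
    have f2 : Real.log 9 + Real.log 11 ≤ τ / 8 * J := by
      have : (Real.log 9 + Real.log 11) / (τ / 8) ≤ J := by linarith
      rwa [div_le_iff₀ (by linarith), mul_comm] at this
    have hq := isLaw_cond F.isLaw hA
    have hqA : ∀ ω, 0 < Pool.Agent.H49.Ent.cond F.p A True ω → A ω := fun ω hω =>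
      of_cond_pos hω
    have hE1 := hE (r + 1) le_rfl
    have hrd1 := hrd (r + 1) le_rfl
    have hlb := hL (r + 1) (Nat.zero_le _) (by omega)
    have h5 := Pool.OWN54.row_raw hq hqA hlb (by linarith [hE1.1]) (by
        refine Nat.floor_le_of_le ?_
        have : (rd (r + 1) + e) * J ≤ 1 * J := mul_le_mul_of_nonneg_right (by linarith) hJ0
        linarith) (p := sn (r + 1) v) (x := x) (q := q) (by
        refine f1.trans (mul_le_mul_of_nonneg_right ?_ hJ0)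
        exact mul_le_mul_of_nonneg_right (by linarith) hl2.le) hp hx0 hxq
      (fun ω => (⌊(2 : ℝ) ^ ((sn (r + 1) v + x) * J) *
          ojet F (c (r + 1)) 0 (g (z' (slam F ⌊v * J⌋₊ ω)) (r + 1)) ω⌋,
          (ceI ((range (r + 1)).image c) (fun _ => J) (F.x ω),
            (z' (slam F ⌊v * J⌋₊ ω), F.W ω))))
      (fun ω => (ceI ((range (r + 1)).image c) (fun _ => J) (F.x ω), F.W ω))
      (fun ω ω' _ _ ee => by
        simp only [Prod.mk.injEq] at ee ⊢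
        exact ⟨ee.1, ee.2.1, ee.2.2.1, (Prod.ext_iff.mp ee.2.2.2).1, ee.2.1, ee.2.2.2⟩)
    refine h5.trans ?_
    have h6 : ((1 - h) * (q - x) * Real.log 2 + δ₁ + τ / 8) * J =
        ((1 - h) * (q - x) * Real.log 2 + δ₁) * J + τ / 8 * J := by ring
    rw [h6]
    exact add_le_add hR f2
  -- the value
  have hval : ∀ K₀ : ℕ, Bas S (fun J F A => ∀ (V : Type) (z : PtT F → V) (z' : LnT F → V)
      (G : V → MvPolynomial (Option (Fin m)) ℝ), Φ' J F A V z z' G →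
      ∀ uu : F.Ω → ℕ → ℕ → ℤ,
      (qJets m c 0 (r + 1) 0 (fun _ _ => v) (fun l _ => sn l v)
        (fun l _ => Function.update n r bu l)).P K₀ (ρ / 8) J F A uu →
      ∃ (V₁ : Type) (z₁ : F.Ω → V₁), Cl2 (ptr F J) (vg o J F) A z₁ ∧
      CH (Pool.Agent.H49.Ent.cond F.p A True)
        (fun ω => ⌊(2 : ℝ) ^ ((sn (r + 1) v + q) * J) *
          ojet F (c (r + 1)) 0 (G (z' (slam F ⌊v * J⌋₊ ω))) ω⌋)
        (fun ω => (uu ω, (z₁ ω, (bI ((range 0).image c) U J F ω, F.W ω)))) ≤ δ₂ * J) := by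
    intro K₀
    have hnz := nzq_few (S := S) htm hpos (Ψ := Ψ₀) (c := c) (r := r) (κ := c (r + 1)) (K := D)
      (K₁ := D) (Ku := D) (Kb := D) (w := vn) (v := v) (p₁ := p₁) (p₂ := p₂) (eN := eN)
      (uN := uN) (pN := pN) (a := o) (pa₁ := pa₁) (pa₂ := pa₂) (ea := ea) (ua := ua) (pa := pa)
      (s := sn (r + 1) v + q) hΨd hvn hwo hN.o1.le hr1 hs (b₀ := 0) (u₀ := o) (u₁ := u₁)
      (p₀ := U) (σ₀ := ρ) (pm := pm) (so := fun l => sn l o) (rd := rw)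
      (lv := fun l => n l - sn l o - ρ) (wv := fun _ _ => v) (pv := fun l _ => sn l v)
      (Nv := fun l _ => n l) (hco.take (Nat.zero_le r) (Nat.le_succ r))
      (fun _ _ _ _ _ => hwo) hN.oU hN.U1 hρ (fun i _ hi => ?_) (fun i _ hi => ?_)
      (fun i _ hi => ?_) (fun i _ hi l _ hl => ?_) hm1 hm2 hm3 h3 (fun l _ hl => h3' l hl)
      (f := fun J F => ptr F J)
      (y := fun J F ω => (bI ((range 0).image c) U J F ω, F.W ω))
      (fun J F => ⟨fun x => x, fun _ => rfl⟩) (kn0_bI ((range 0).image c) U) hδ₂0 K₀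
    · refine Bas.mono 0 (hnz.and (Pool.GRW.tmc_bas htm one_pos)) ?_
      rintro J - F A ⟨hz, hA, -⟩ V z z' G hG uu huu
      rw [hΦ'] at hG
      obtain ⟨g, hg, rfl⟩ := hG
      have h0 := (isLaw_cond F.isLaw hA).nonneg
      obtain ⟨V₁, z₁, k1, k2⟩ := hz V z z' _ (hΦN J F A V z z' g hg) _ (qJets_cut huu)
      refine ⟨V₁, z₁, k1, le_trans (CH_mono_cond h0 fun ω ω' _ _ ee => ?_) k2⟩
      simp only [Prod.mk.injEq] at ee ⊢
      exact ⟨by rw [ee.1], ee.2⟩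
    · have h4 := hN.far1 i (Nat.zero_le i) hi 0 (Nat.zero_le _)
      rw [hN.b0, Function.update_of_ne (by omega)] at h4
      beta_reduce
      linarith
    · beta_reduce
      linarith
    · have h4 := hN.far2 i (Nat.zero_le i) hi 0 (Nat.zero_le _)
      rw [hN.b0, Function.update_of_ne (by omega)] at h4
      beta_reduce
      linarith
    · have h4 := hN.far3 i (Nat.zero_le i) hi l (Nat.zero_le _) hl 0 (Nat.zero_le _)
      rw [hN.b0, Function.update_of_ne (by omega), Function.update_of_ne (by omega)] at h4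
      beta_reduce
      linarith
  -- the row
  have hrow := nz_rowy htm (Φ := Φ') (c := c) (κ := c (r + 1)) (r₀ := 0) (r := r + 1)
    (Nat.zero_le _) (w := v) (o := o) (U := U)
    (R := (1 - h) * (q - x) * Real.log 2 + δ₁ + τ / 8) (δ₂ := δ₂)
    (δ := (1 - h) * (q - x) * Real.log 2 + (δ₁ + (r + 1) * ρ) + τ / 2) (e₁ := ρ / 8)
    (e₂ := ρ / 8) (g₀ := g₀) (sa := sn (r + 1) v + x) (sb := sn (r + 1) v + q) (E := E)
    (rd := rd) (p := fun l => sn l v) (n := Function.update n r bu) (so := fun l => sn l o)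
    (Nl := fun i => sn i o - ρ) hwo hN.o1.le (by linarith) hg₀
    (fun i _ hi => hE i hi.le) (fun i _ hi => hrd i hi.le) (fun i _ hi => hnE i hi) hN.U1
    (fun J F A V z z' G hG ω hω => by
      rw [hΦ'] at hG
      obtain ⟨g, hg, rfl⟩ := hG
      exact (hΦ J F A V z z' g hg (r + 1) (Nat.zero_le _) (by omega)).cls ω hω) hraw' hval
    (hco.base U hN.oU hU) hco.ful (by linarith) (by linarith)
    (fun i _ hi => htn_F1 htm hN hc (Nat.zero_le i) (by omega) hδ₂0)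
    (fun i _ hi => ?_) (fun i _ _ => by
      beta_reduce
      linarith) hδ₂0.le (by
      have e1 : ∑ i ∈ Finset.Ico 0 (r + 1), (sn i o - (sn i o - ρ)) = ((r : ℝ) + 1) * ρ := by
        have e2 : ∑ i ∈ Finset.Ico 0 (r + 1), (sn i o - (sn i o - ρ)) =
            ∑ i ∈ Finset.Ico 0 (r + 1), ρ := Finset.sum_congr rfl fun i _ => by ring
        rw [e2, Finset.sum_const, Nat.card_Ico, nsmul_eq_mul]
        push_cast
        ring
      beta_reduce
      rw [e1]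
      push_cast
      have e3 : ((r : ℝ) + 1 + 1) * δ₂ = τ / 4 := by
        rw [← hδ₂e]
        ring
      rw [e3]
      linarith)
    e he (by rw [min_self]; exact hle) K
  swap
  · rcases Nat.lt_or_ge i r with h4 | h4
    · have h5 := hN.far1 i (Nat.zero_le i) h4 0 (Nat.zero_le _)
      rw [hN.b0] at h5
      beta_reduce
      linarith
    · obtain rfl : i = r := by omega
      rw [Function.update_self]
      exact hbu
  -- the digits
  obtain ⟨J₀, hJ₀⟩ := exists_nat_ge (Real.log 5 / (τ / 2))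
  refine Bas.mono J₀ (hrow.and (bas_pos htm)) ?_
  rintro J hJ F A ⟨hA, hpe⟩ V z z' g hg
  have hL := hΦ J F A V z z' g hg
  have hq' := isLaw_cond F.isLaw hpe
  have h0 := hq'.nonneg
  have hJ0 : (0 : ℝ) ≤ J := Nat.cast_nonneg J
  have hJr : (J₀ : ℝ) ≤ J := by exact_mod_cast hJ
  have g1 : Real.log 5 ≤ τ / 2 * J := by
    have := hJ₀.trans hJr
    rwa [div_le_iff₀ (by linarith), mul_comm] at this
  have g2 := hA V z z' (fun y => g y (r + 1)) (by rw [hΦ']; exact ⟨g, hg, rfl⟩) g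
    (fun l h5 h6 => hL l h5 (by omega))
  have g3 := CH_le_add h0 (hd F c (r + 1) z' ⌊v * J⌋₊ g b)
    (hd F c (r + 1) z' ⌊v * J⌋₊ g (sn (r + 1) v + q))
    (fun ω => (hd F c (r + 1) z' ⌊v * J⌋₊ g (sn (r + 1) v + x) ω,
      (hd F c r z' ⌊v * J⌋₊ g bu ω, cx F c 0 r z' ⌊v * J⌋₊ g n U ω)))
  have g4 : CH (Pool.Agent.H49.Ent.cond F.p A True)
      (hd F c (r + 1) z' ⌊v * J⌋₊ g (sn (r + 1) v + q))
      (fun ω => (hd F c (r + 1) z' ⌊v * J⌋₊ g (sn (r + 1) v + x) ω,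
        (hd F c r z' ⌊v * J⌋₊ g bu ω, cx F c 0 r z' ⌊v * J⌋₊ g n U ω))) ≤
      ((1 - h) * (q - x) * Real.log 2 + (δ₁ + (r + 1) * ρ) + τ / 2) * J := by
    refine le_trans ?_ g2
    refine CH_mono_cond h0 fun ω ω' _ _ hh => ?_
    have k1 := Prod.ext_iff.mp hh
    have k2 := Prod.ext_iff.mp k1.2
    have k3 := Prod.ext_iff.mp k2.2
    have k4 := Prod.ext_iff.mp k3.2
    exact Prod.ext k1.1 (Prod.ext k3.1 (Prod.ext (hts_upd F c z' _ g n bu k4.1 k2.1) k4.2))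
  have g5 := fl_few hq' (fun ω => hgt F (c (r + 1)) z' ⌊v * J⌋₊ (fun y => g y (r + 1)) ω)
    (a := sn (r + 1) v + q) (b := b) hJ0
    (fun ω => (hd F c (r + 1) z' ⌊v * J⌋₊ g (sn (r + 1) v + x) ω,
      (hd F c r z' ⌊v * J⌋₊ g bu ω, cx F c 0 r z' ⌊v * J⌋₊ g n U ω)))
  rw [max_eq_left (by linarith : (0 : ℝ) ≤ b - (sn (r + 1) v + q))] at g5
  have g7 : t * J = ((1 - h) * (q - x) * Real.log 2 + (δ₁ + (r + 1) * ρ) + τ / 2) * J +
      (b - (sn (r + 1) v + q)) * J * Real.log 2 + τ / 2 * J := by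
    rw [hτ]
    ring
  rw [g7]
  refine g3.trans ((add_le_add g4 g5).trans ?_)
  linarith only [g1]

end Pool.CR99
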