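import Pool.Agent.H92.D2.Cpg

/-!
# The velocity of the visible coefficient is linear in the velocity

The critical cell `S_N = 1 + S_u`, `u` thin, the own coefficient `c` of `u` moves: `A` is its own
velocity, `X = (1, E)`. `X · θ - A u` is few bits given `(a, e)`, where `θ`, `u` are new digits of
the point; `u` is not few bits given `a`. Then `(X, A)` lies, with a fixed probability, in a
hyperplane which is a function of the closed record `Z`; and, because `X` is in no such hyperplane,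
`A = Γ · X` up to a small error, `Γ` a function of `Z`.
-/

set_option autoImplicit false

namespace Pool.CR99

open Finset Real
open Pool.Agent.H49.Ent Pool.Agent.H32.Dense Pool.STK Pool.D2A Pool.D2Con Pool.V1E
open Pool.BFL (Pb)

variable {Ω ζ α ε : Type} [Fintype Ω] {n : ℕ}

/-- The vector `(A, X)`. -/
def xa (X : ε → Fin n → ℝ) (V : ε → ℝ) (e : ε) : Fin (n + 1) → ℝ := Fin.cons (V e) (X e)

/-- **A hyperplane of `(A, X)` is a linear formula for `A`**, if `X` is in no hyperplane. -/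
theorem lin_of_hyp {p : Ω → ℝ} (hp : IsLaw p) (Z : Ω → ζ) (E : Ω → ε) (X : ε → Fin n → ℝ)
    (V : ε → ℝ) {η c η' c' ν B : ℝ} (hn : 0 < n) (hν : 0 < ν) (hν1 : ν < 1) (hη : 0 ≤ η)
    (hV : ∀ ω, 0 < p ω → |V (E ω)| ≤ B) (hη' : η + ν * B ≤ η')
    (hX : NoHyp p (fun ω => X (E ω)) Z η' c')
    (hh : ¬ NoHyp p (fun ω => xa X V (E ω)) Z η c) :
    ∃ Γ : ζ → Fin n → ℝ, (∀ z j, |Γ z j| ≤ 1 / ν) ∧
      c - c' < law p (fun ω => |V (E ω) - ∑ j, Γ (Z ω) j * X (E ω) j| ≤ η / ν) True := by
  classical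
  have h0 := hp.nonneg
  unfold NoHyp at hh
  push Not at hh
  obtain ⟨m, hm, hlaw⟩ := hh
  -- the normalised normal vector of the hyperplane of `X`, where the first entry is small
  obtain ⟨m', hm'⟩ : ∃ m' : ζ → Fin n → ℝ, m' = fun z =>
      if (∀ j, |m z (Fin.succ j)| ≤ 1) ∧ (∃ j, |m z (Fin.succ j)| = 1) then
        fun j => m z (Fin.succ j) else fun _ => 1 := ⟨_, rfl⟩
  obtain ⟨Γ, hΓ⟩ : ∃ Γ : ζ → Fin n → ℝ, Γ = fun z j =>
      if ν ≤ |m z 0| ∧ |m z (Fin.succ j)| ≤ 1 then -(m z (Fin.succ j) / m z 0) else 0 := ⟨_, rfl⟩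
  have hm1 : ∀ ω, 0 < p ω → (∀ j, |m' (Z ω) j| ≤ 1) ∧ ∃ j, |m' (Z ω) j| = 1 := by
    intro ω _
    rw [hm']
    by_cases h : (∀ j, |m (Z ω) (Fin.succ j)| ≤ 1) ∧ (∃ j, |m (Z ω) (Fin.succ j)| = 1)
    · simp only [if_pos h]
      exact h
    · simp only [if_neg h]
      exact ⟨fun j => by norm_num, ⟨⟨0, hn⟩, by norm_num⟩⟩
  have h1 := hX m' hm1
  refine ⟨Γ, ?_, ?_⟩
  · intro z j
    rw [hΓ]
    by_cases h : ν ≤ |m z 0| ∧ |m z (Fin.succ j)| ≤ 1
    · simp only [if_pos h]
      rw [abs_neg, abs_div]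
      exact div_le_div₀ zero_le_one h.2 hν h.1
    · simp only [if_neg h, abs_zero]
      positivity
  · have h2 : law p (fun ω => |∑ j, m (Z ω) j * xa X V (E ω) j| ≤ η) True ≤
        law p (fun ω => |V (E ω) - ∑ j, Γ (Z ω) j * X (E ω) j| ≤ η / ν) True +
          law p (fun ω => |∑ j, m' (Z ω) j * X (E ω) j| ≤ η') True := by
      rw [Pb_law, Pb_law, Pb_law]
      unfold Pb
      rw [← Finset.sum_add_distrib]
      refine Finset.sum_le_sum fun ω _ => ?_
      rcases (h0 ω).eq_or_lt with hz | hz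
      · rw [← hz]
        simp
      · obtain ⟨a1, a2⟩ := hm ω hz
        by_cases hG : |∑ j, m (Z ω) j * xa X V (E ω) j| ≤ η
        · rw [if_pos hG]
          have e1 : ∑ j, m (Z ω) j * xa X V (E ω) j =
              m (Z ω) 0 * V (E ω) + ∑ j, m (Z ω) (Fin.succ j) * X (E ω) j := by
            rw [Fin.sum_univ_succ]
            simp [xa]
          rw [e1] at hG
          by_cases hb : ν ≤ |m (Z ω) 0|
          · have hb0 : 0 < |m (Z ω) 0| := hν.trans_le hb
            have hne : m (Z ω) 0 ≠ 0 := abs_pos.mp hb0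
            have h3 : |V (E ω) - ∑ j, Γ (Z ω) j * X (E ω) j| ≤ η / ν := by
              have e2 : V (E ω) - ∑ j, Γ (Z ω) j * X (E ω) j =
                  (m (Z ω) 0 * V (E ω) + ∑ j, m (Z ω) (Fin.succ j) * X (E ω) j) / m (Z ω) 0 := by
                have e3 : ∑ j, Γ (Z ω) j * X (E ω) j =
                    -(∑ j, m (Z ω) (Fin.succ j) * X (E ω) j) / m (Z ω) 0 := by
                  rw [neg_div, Finset.sum_div, ← Finset.sum_neg_distrib]
                  refine Finset.sum_congr rfl fun j _ => ?_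
                  rw [hΓ]
                  simp only [if_pos (show ν ≤ |m (Z ω) 0| ∧ |m (Z ω) (Fin.succ j)| ≤ 1 from
                    ⟨hb, a1 _⟩)]
                  ring
                rw [e3]
                field_simp
                ring
              rw [e2, abs_div]
              exact div_le_div₀ hη hG hν hb
            rw [if_pos h3]
            have : (0 : ℝ) ≤ if |∑ j, m' (Z ω) j * X (E ω) j| ≤ η' then p ω else 0 := by
              split_ifs
              exacts [hz.le, le_rfl]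
            linarith
          · have hb' : |m (Z ω) 0| < ν := not_le.mp hb
            have h4 : (∀ j, |m (Z ω) (Fin.succ j)| ≤ 1) ∧ (∃ j, |m (Z ω) (Fin.succ j)| = 1) := by
              refine ⟨fun j => a1 _, ?_⟩
              obtain ⟨j, hj⟩ := a2
              refine Fin.cases (motive := fun j => |m (Z ω) j| = 1 →
                ∃ j : Fin n, |m (Z ω) (Fin.succ j)| = 1) (fun h => ?_) (fun i h => ⟨i, h⟩) j hj
              rw [h] at hb'
              linarith
            have h5 : |∑ j, m' (Z ω) j * X (E ω) j| ≤ η' := by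
              rw [hm']
              simp only [if_pos h4]
              have e4 : ∑ j, m (Z ω) (Fin.succ j) * X (E ω) j =
                  (m (Z ω) 0 * V (E ω) + ∑ j, m (Z ω) (Fin.succ j) * X (E ω) j) -
                    m (Z ω) 0 * V (E ω) := by ring
              rw [e4]
              refine (abs_sub _ _).trans ?_
              have h6 : |m (Z ω) 0 * V (E ω)| ≤ ν * B := by
                rw [abs_mul]
                exact mul_le_mul hb'.le (hV ω hz) (abs_nonneg _) hν.le
              linarith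
            rw [if_pos h5]
            have : (0 : ℝ) ≤ if |V (E ω) - ∑ j, Γ (Z ω) j * X (E ω) j| ≤ η / ν then p ω else 0 := by
              split_ifs
              exacts [hz.le, le_rfl]
            linarith
        · rw [if_neg hG]
          refine add_nonneg ?_ ?_ <;>
          · split_ifs
            exacts [hz.le, le_rfl]
    linarith

/-- **The own velocity of the coefficient is linear in the velocity** (K_V02, step 1 (c)). `U = (θ, -u)`
is a function of the closed record `Z`; `X · θ - V u` is few bits given `(E, A)`; the direction is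
nearly free; `X` is in no hyperplane; `u` has more than `F` bits given `A`. -/
theorem step1_law {p : Ω → ℝ} (hp : IsLaw p) (Z : Ω → ζ) (A : Ω → α) (E : Ω → ε)
    (X : ε → Fin n → ℝ) (V : ε → ℝ) (θ : ζ → Fin n → ℝ) (u : ζ → ℝ)
    {B M c η η' c' ν δ₁ δ₂ : ℝ} (hn : 0 < n) (hZA : Det p Z A) (hB : 1 ≤ B) (hη : 0 < η)
    (hM : 0 ≤ M) (hν : 0 < ν) (hν1 : ν < 1) (hη' : η + ν * B ≤ η')
    (hXB : ∀ ω, 0 < p ω → ∀ j, |X (E ω) j| ≤ B) (hVB : ∀ ω, 0 < p ω → |V (E ω)| ≤ B)
    (hθ : ∀ ω, 0 < p ω → ∀ j, |θ (Z ω) j| ≤ M) (hu : ∀ ω, 0 < p ω → |u (Z ω)| ≤ M)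
    (hX : NoHyp p (fun ω => X (E ω)) Z η' c')
    (hvel : CH p (fun ω => ⌊∑ j, X (E ω) j * θ (Z ω) j - V (E ω) * u (Z ω)⌋)
      (fun ω => (E ω, A ω)) ≤ δ₁)
    (hfree : CH p E A ≤ CH p E Z + δ₂)
    (hfull : ((n + 1 : ℕ) : ℝ) * (δ₂ + δ₁) + Real.log 2 +
      ((n + 1 : ℕ) : ℝ) * (Real.log (2 * (cK (n + 1) B (η ^ (n + 1)) + 1) + 1) +
        ((n + 1 : ℕ) : ℝ) * c * Real.log (4 * (M + 1) + 1)) <
      CH p (fun ω => ⌊-u (Z ω)⌋) A) :
    ∃ Γ : ζ → Fin n → ℝ, (∀ z j, |Γ z j| ≤ 1 / ν) ∧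
      c - c' < law p (fun ω => |V (E ω) - ∑ j, Γ (Z ω) j * X (E ω) j| ≤ η / ν) True := by
  classical
  have h0 := hp.nonneg
  refine lin_of_hyp hp Z E X V hn hν hν1 hη.le hVB hη' hX fun hnh => ?_
  obtain ⟨U, hU⟩ : ∃ U : ζ → Unit → Fin (n + 1) → ℝ, U = fun z _ => Fin.cons (-u z) (θ z) :=
    ⟨_, rfl⟩
  have h1 := cop_grad (ι := Unit) hp Z A E (xa X V) U hZA hB hη hM (c := c) (δ₁ := δ₁) (δ₂ := δ₂)
    (by
      intro ω hω j
      refine Fin.cases ?_ (fun i => ?_) j
      · simpa [xa] using hVB ω hω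
      · simpa [xa] using hXB ω hω i)
    (by
      intro ω hω _ j
      rw [hU]
      refine Fin.cases ?_ (fun i => ?_) j
      · simpa using hu ω hω
      · simpa using hθ ω hω i)
    hnh
    (by
      refine (CH_mono_left h0 fun ω ω' _ _ h => ?_).trans hvel
      have e1 : ∀ ω, ∑ j, xa X V (E ω) j * U (Z ω) () j =
          ∑ j, X (E ω) j * θ (Z ω) j - V (E ω) * u (Z ω) := by
        intro ω
        rw [Fin.sum_univ_succ, hU]
        simp only [xa, Fin.cons_zero, Fin.cons_succ]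
        ring
      funext β
      show ⌊∑ j, xa X V (E ω) j * U (Z ω) () j⌋ = ⌊∑ j, xa X V (E ω') j * U (Z ω') () j⌋
      rw [e1, e1]
      exact (Prod.ext_iff.mp h).1)
    hfree
  have h2 : CH p (fun ω => ⌊-u (Z ω)⌋) A ≤
      CH p (fun ω (k : Unit × Fin (n + 1)) => ⌊U (Z ω) k.1 k.2⌋) A := by
    refine CH_mono_left h0 fun ω ω' _ _ h => ?_
    have h3 := congrFun (Prod.ext_iff.mp h).1 ((), (0 : Fin (n + 1)))
    rw [hU] at h3
    simpa using h3
  have e2 : (Fintype.card Unit : ℝ) = 1 := by simp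
  rw [e2, one_mul] at h1
  linarith

end Pool.CR99
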