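import Pool.Agent.H99.D2.St1
import Pool.Agent.H98.D2.Shf

/-!
# The velocity of the visible coefficient, without the time

`CH_drop`: for functions of the line with its window, the time can be dropped from the condition,
because it is full given the line. `gam_law`: `step1_law`, where the inputs are given with the time,
and the output `Γ` is a function of the closed record without the time.
-/

set_option autoImplicit false

namespace Pool.CR99

open Finset Real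
open Pool.Agent.H49.Ent Pool.Agent.H32.Dense Pool.STK Pool.D2A Pool.D2Con Pool.V1E
open Pool.BFL (Pb)

variable {Ω Λ τ ζ α β ε : Type} [Fintype Ω] {n : ℕ}

/-- **The time can be dropped** for the functions of the line. -/
theorem CH_drop {p : Ω → ℝ} (hp : IsLaw p) (L : Ω → Λ) (T : Ω → τ) (A : Ω → α) (Y : Ω → β)
    (hA : Det p L A) (hY : Det p L Y) {t δ : ℝ} (hT : CH p T A ≤ t) (hL : t - δ ≤ CH p T L) :
    CH p Y A ≤ CH p Y (fun ω => (A ω, T ω)) + δ := by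
  have h0 := hp.nonneg
  have h1 := CH_chain h0 Y T A
  have h2 := CH_chain h0 T Y A
  have h3 : CH p (fun ω => (Y ω, T ω)) A = CH p (fun ω => (T ω, Y ω)) A := by
    refine CH_congr h0 ?_ ?_ (fun _ _ _ _ h => h) (fun _ _ _ _ h => h) <;>
    · intro ω ω' _ _ h
      simp only [Prod.mk.injEq] at h ⊢
      tauto
  have h4 : CH p T L ≤ CH p T (fun ω => (Y ω, A ω)) :=
    CH_mono_cond h0 fun ω ω' a b h => Prod.ext (hY ω ω' a b h) (hA ω ω' a b h)
  have h5 : CH p Y (fun ω => (T ω, A ω)) ≤ CH p Y (fun ω => (A ω, T ω)) := by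
    refine CH_mono_cond h0 fun ω ω' _ _ h => ?_
    simp only [Prod.mk.injEq] at h ⊢
    exact ⟨h.2, h.1⟩
  linarith

/-- **The velocity of the visible coefficient**: the output does not depend on the time. -/
theorem gam_law {p : Ω → ℝ} (hp : IsLaw p) (L : Ω → Λ) (T : Ω → τ) (Z : Ω → ζ) (A : Ω → α)
    (E : Ω → ε) (X : ε → Fin n → ℝ) (V : ε → ℝ) (θ : ζ → Fin n → ℝ) (u : ζ → ℝ) (Y : Ω → ℤ)
    {B M c η η' c' ν δ₀ δ₁ δ₂ t K : ℝ} (hn : 0 < n) (hLZ : Det p L Z) (hLE : Det p L E)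
    (hZA : Det p Z A) (hTA : CH p T A ≤ t) (hTL : t - δ₀ ≤ CH p T L) (hB : 1 ≤ B) (hη : 0 < η)
    (hM : 0 ≤ M) (hν : 0 < ν) (hν1 : ν < 1) (hη' : η + ν * B ≤ η')
    (hXB : ∀ ω, 0 < p ω → ∀ j, |X (E ω) j| ≤ B) (hVB : ∀ ω, 0 < p ω → |V (E ω)| ≤ B)
    (hθ : ∀ ω, 0 < p ω → ∀ j, |θ (Z ω) j| ≤ M) (hu : ∀ ω, 0 < p ω → |u (Z ω)| ≤ M)
    (hX : NoHyp p (fun ω => X (E ω)) (fun ω => (Z ω, T ω)) η' c')
    (hY : ∀ ω, 0 < p ω → |∑ j, X (E ω) j * θ (Z ω) j - V (E ω) * u (Z ω) - Y ω| ≤ K)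
    (hvel : CH p Y (fun ω => (E ω, (A ω, T ω))) ≤ δ₁)
    (hfree : CH p E (fun ω => (A ω, T ω)) ≤ CH p E (fun ω => (Z ω, T ω)) + δ₂)
    (hfull : ((n + 1 : ℕ) : ℝ) * ((δ₂ + δ₀) + (δ₁ + Real.log (2 * (2 * K + 2) + 1) + δ₀)) +
      Real.log 2 + ((n + 1 : ℕ) : ℝ) * (Real.log (2 * (cK (n + 1) B (η ^ (n + 1)) + 1) + 1) +
        ((n + 1 : ℕ) : ℝ) * c * Real.log (4 * (M + 1) + 1)) <
      CH p (fun ω => ⌊-u (Z ω)⌋) (fun ω => (A ω, T ω))) :
    ∃ Γ : ζ → Fin n → ℝ, (∀ z j, |Γ z j| ≤ 1 / ν) ∧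
      c - c' < law p (fun ω => |V (E ω) - ∑ j, Γ (Z ω) j * X (E ω) j| ≤ η / ν) True := by
  have h0 := hp.nonneg
  have hLA : Det p L A := fun ω ω' a b h => hZA ω ω' a b (hLZ ω ω' a b h)
  refine step1_law hp Z A E X V θ u hn hZA hB hη hM hν hν1 hη' hXB hVB hθ hu
    (δ₁ := δ₁ + Real.log (2 * (2 * K + 2) + 1) + δ₀) (δ₂ := δ₂ + δ₀) ?_ ?_ ?_ ?_
  · intro m hm
    exact hX (fun z => m z.1) hm
  · obtain ⟨W, hW⟩ : ∃ W : Ω → ℤ, W = fun ω =>
        ⌊∑ j, X (E ω) j * θ (Z ω) j - V (E ω) * u (Z ω)⌋ := ⟨_, rfl⟩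
    rw [← hW]
    have h1 := CH_drop hp L T (fun ω => (E ω, A ω)) W
      (fun ω ω' a b h => Prod.ext (hLE ω ω' a b h) (hLA ω ω' a b h))
      (fun ω ω' a b h => by
        rw [hW]
        show ⌊∑ j, X (E ω) j * θ (Z ω) j - V (E ω) * u (Z ω)⌋ =
          ⌊∑ j, X (E ω') j * θ (Z ω') j - V (E ω') * u (Z ω')⌋
        rw [hLE ω ω' a b h, hLZ ω ω' a b h])
      ((CH_mono_cond h0 fun ω ω' _ _ h => (Prod.ext_iff.1 h).2).trans hTA) hTL
    have h2 := CH_le_add h0 W Y (fun ω => ((E ω, A ω), T ω))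
    have h3 : CH p Y (fun ω => ((E ω, A ω), T ω)) ≤ δ₁ := by
      refine (CH_mono_cond h0 fun ω ω' _ _ h => ?_).trans hvel
      simp only [Prod.mk.injEq] at h ⊢
      exact ⟨h.1.1, h.1.2, h.2⟩
    have h4 : CH p W (fun ω => (Y ω, ((E ω, A ω), T ω))) ≤ Real.log (2 * (2 * K + 2) + 1) := by
      have h5 := Pool.D2G30.CH_vec_le (ι := Unit) h0 hp.sum_one (fun ω _ => W ω)
        (fun ω => (Y ω, ((E ω, A ω), T ω))) (L := 2 * K + 2) (by
          intro ω ω' a b h _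
          have e1 : Y ω = Y ω' := (Prod.ext_iff.1 h).1
          have h6 := hY ω a
          have h7 := hY ω' b
          rw [← e1] at h7
          rw [hW]
          show |((⌊∑ j, X (E ω) j * θ (Z ω) j - V (E ω) * u (Z ω)⌋ -
            ⌊∑ j, X (E ω') j * θ (Z ω') j - V (E ω') * u (Z ω')⌋ : ℤ) : ℝ)| ≤ 2 * K + 2
          refine (floor_diff _ _).trans ?_
          have h8 : |(∑ j, X (E ω) j * θ (Z ω) j - V (E ω) * u (Z ω)) -
              (∑ j, X (E ω') j * θ (Z ω') j - V (E ω') * u (Z ω'))| ≤ K + K := by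
            have e2 : (∑ j, X (E ω) j * θ (Z ω) j - V (E ω) * u (Z ω)) -
                (∑ j, X (E ω') j * θ (Z ω') j - V (E ω') * u (Z ω')) =
                (∑ j, X (E ω) j * θ (Z ω) j - V (E ω) * u (Z ω) - Y ω) -
                (∑ j, X (E ω') j * θ (Z ω') j - V (E ω') * u (Z ω') - Y ω) := by ring
            rw [e2]
            exact (abs_sub _ _).trans (add_le_add h6 h7)
          linarith)
      rw [Fintype.card_unit, Nat.cast_one, one_mul] at h5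
      refine (CH_mono_left h0 fun ω ω' _ _ h => ?_).trans h5
      exact congrFun (Prod.ext_iff.1 h).1 ()
    linarith
  · have h1 := CH_drop hp L T A E hLA hLE hTA hTL
    have h2 : CH p E (fun ω => (Z ω, T ω)) ≤ CH p E Z :=
      CH_mono_cond h0 fun ω ω' _ _ h => (Prod.ext_iff.1 h).1
    linarith
  · refine hfull.trans_le ?_
    exact CH_mono_cond h0 fun ω ω' _ _ h => (Prod.ext_iff.1 h).1

end Pool.CR99
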