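import Pool.Agent.H18.PN.Pzs
import Pool.Agent.H80.ASB.F1d
import Pool.Agent.H99.D2.Und

/-!
# The supply of the closed slope at all scales of the record

`AltF`: the conclusion of `F1UD` at a record: the first jet of the place `r` in a subclass, or no drop.
`BlSup R₁`: at every scale of the record the conclusion of `F1UD` holds, or in a subclass there is a closed
slope of the coordinate `r + 1` over the place `r`: closed at `t + V₀ q`, and natural at `t - R₁ q`.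
-/

set_option autoImplicit false

namespace Pool.CR99

open Finset Real
open Pool.Agent.H49.Ent Pool.Agent.H32.Dense Pool.STK Pool.KA Pool.KSAT Pool.K2S Pool.PB
open Pool.GEN Pool.S6C Pool.STAT Pool.CHT Pool.GRW Pool.ONE Pool.STA Pool.PKG
open Pool.LA91 (FaQ sumQ qJets qJet)
open Pool.OWN68 (F1)
open Pool.RCD (vg)

/-- **The conclusion of `F1UD` at a record.** -/
def AltF (m r : ℕ) (Sl : ℕ → ℝ) (del : ℝ) : PropY m := fun dd S c L q t pf pr Nf =>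
  (∃ S' : PCl m, S'.Ne ∧
    (∀ (τ : ℝ) (J : ℕ) (F : Fam m J) (A : F.Ω → Prop), S'.St τ J F A → S.St τ J F A) ∧
    ∃ e : ℝ, 0 < e ∧ F1 S' (fun J F => ptr F J) (vg t) (fun _ F => F.T)
      (qJets m c 0 r 1 (fun _ _ => t) (fun l _ => pf l) Nf)
      (qJet m ((range r).image c) (c r) 1 t pr (L r t t + (Sl r - 1) * q - t)) e (dd * q)) ∨
  L r (t + q) (t + q) ≤ L r (t + q) t + del * q

/-- **The supply of the closed slope** of the coordinate `r + 1` over the place `r`, at all scales of the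
record, or else the conclusion of `F1UD`: closed at the window `t + V₀ q`, `V₀ ≤ -R₀`, natural at the
window `t - R₁ q` up to `ρ q`. The degree `Dg` depends on `S₂` only. -/
def BlSup (m r : ℕ) (h : ℝ) (Sl : ℕ → ℝ) (κ : ℕ → Kg) {ι Λ : Type} (Q : PropG m ι)
    (Z : PropZ m Λ) (R₁ : ℝ) : Prop :=
  ∀ al : ℝ, 0 < al → ∀ K₀ : ℝ, 0 < K₀ → ∀ del : ℝ, 0 < del → ∀ S₀ : ℕ, 1 ≤ S₀ → ∀ R₀ : ℝ, R₁ < R₀ →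
  ∃ V₀ : ℝ, V₀ ≤ -R₀ ∧
  ∃ (Kr : ℝ) (Nr : ℕ) (Ar Vr : ℕ → ℝ), 1 ≤ Kr ∧ (∀ k < Nr, -Kr ≤ Vr k ∧ Vr k ≤ Ar k ∧ Ar k ≤ Kr) ∧
  ∀ S₂ : ℕ, S₀ ≤ S₂ → ∃ Dg : ℕ, ∀ dd : ℝ, 0 < dd →
  ∃ φ₀ kf₀ : ℝ, 0 < φ₀ ∧ ∀ φ : ℝ, 0 < φ → φ ≤ φ₀ → ∀ kf : ℝ, kf₀ ≤ kf → ∀ ρ : ℝ, 0 < ρ →
  ∃ (lam : Λ) (K₁ : ℝ) (Nv : ℕ) (Vv : ℕ → ℝ), (∀ j < Nv, -K₁ ≤ Vv j ∧ Vv j ≤ K₁) ∧
  ∀ K' : ℝ, K₁ ≤ K' →
  ∃ ε₀ : ℝ, 0 < ε₀ ∧ ∀ ε : ℝ, 0 < ε → ε ≤ ε₀ →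
  ∀ (S : PCl m) (g₀ : ℝ → ℝ) (P : List (Fin m) × Fin m → ℝ → ℝ → ℝ)
    (θ : ℝ) (P₂ : ℕ → List (Fin m) × Fin m → ℝ → ℝ → ℝ) (θ₂ Eb e₂ : ℕ → ℝ) (c : ℕ → Fin m)
    (Pt : ℝ → ℝ → ℝ) (rt : ℝ → ℝ) (L T : ℕ → ℝ → ℝ → ℝ) (G : Set ℝ) (g : ℝ),
    IsClosed G → g ∈ G → (∀ l < m, HasDerivAt (fun x => L l x x) (Sl l) g) →
    Z lam S P θ c Pt rt L T κ G g →
    ∃ (p : ℕ → ι) (M : ℕ) (B₀ B₁ : ℕ → ℝ),
    (∀ j < M, B₀ j < B₁ j) ∧ ∀ k₀ : ℕ → ℕ, (∀ j < M, Q (p j) (k₀ j) S P θ c Pt rt L T κ G g) →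
    ∃ q₁ : ℝ, 0 < q₁ ∧ ∀ (q t : ℝ) (x : ℕ → ℝ),
      q < q₁ → (∀ j < M, x j ∈ G ∧ t + B₀ j * q ≤ x j ∧ x j ≤ t + B₁ j * q ∧
        Q (p j) (k₀ j) S P θ c Pt rt L T κ G (x j)) →
      ∀ (N : ℕ) (A V : ℕ → ℝ) (N' : ℕ) (V' : ℕ → ℝ),
      RecG S al g₀ P θ P₂ θ₂ Eb e₂ c Pt rt h K₀ g L T Sl κ G S₀ N A V S₂ N' V' K' ε q t →
      (∀ k < Nr, ∃ j < N, A j = Ar k ∧ V j = Vr k) → (∀ k < Nv, ∃ j < N', V' j = Vv k) →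
      ∀ (pf : ℕ → ℝ) (pr : ℝ) (Nf : ℕ → ℕ → ℝ),
      (∀ l < r, L l t t - φ * q ≤ pf l ∧ pf l ≤ L l t t) →
      L r t t - φ * q ≤ pr → pr ≤ L r t t →
      (∀ l < r, ∀ j ≤ 1, Nf l j = L l t t + kf * q - (j : ℕ) * t) →
      AltF m r Sl del dd S c L q t pf pr Nf ∨
      ∃ S' : PCl m, S'.Ne ∧
        (∀ (τ : ℝ) (J : ℕ) (F : Fam m J) (A : F.Ω → Prop), S'.St τ J F A → S.St τ J F A) ∧
        ∃ κ' : ℝ, 0 < κ' ∧ BlX S' c r Dg Dg (t + V₀ * q)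
          (L (r + 1) (t + V₀ * q) (t + V₀ * q) - ρ * q) 1 (fun _ => t - R₁ * q)
          (fun _ => L (r + 1) (t - R₁ * q) (t - R₁ * q) - ρ * q)
          (fun _ => L r (t - R₁ * q) (t - R₁ * q) - L (r + 1) (t - R₁ * q) (t - R₁ * q) + ρ * q) κ'

end Pool.CR99
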