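import Pool.Agent.H99.D2.Una

/-!
# The closed slope by scaling of the row label

`rv_vis`: the slope of the row label minus the one of the chart is visible, to the precision of the row
label. `unc_ev`: it is a closed constant on every later window, up to the gain of the scaling.
-/

set_option autoImplicit false

namespace Pool.CR99

open Finset Real MvPolynomial
open Pool.Agent.H49.Ent Pool.Agent.H32.Dense Pool.STK Pool.KA Pool.KSAT Pool.K2S Pool.PB Pool.S6C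
open Pool.GEN Pool.CHT Pool.CHX Pool.ISO Pool.D2R Pool.D2G30 Pool.V1E
open Pool.FLF (Fam.sub)
open Pool.PB.Trl (rt rt_mem t_rt)

/-- **The slope of the row label minus the one of the chart is visible.** -/
theorem rv_vis (D r : ℕ) : ∃ C : ℕ, ∀ {m J : ℕ} {F : Fam m J} {c : ℕ → Fin m}
    {M₀ x p q₁ su sn o v e : ℕ} {gT : ℕ → ℕ} {B : F.Ω → Prop}
    {G T : PtT F → ℕ → MvPolynomial (Option (Fin m)) ℝ}
    {H TH : LnT F → ℕ → MvPolynomial (Option (Fin m)) ℝ}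
    {Gt : PtT F → MvPolynomial (Option (Fin m)) ℝ} {Ht : LnT F → MvPolynomial (Option (Fin m)) ℝ},
    Set.InjOn c (Set.Iio (r + 1)) → o ≤ J →
    ChOK F c (r + 1) (fun _ => D) (o + v) o e gT B T TH →
    (∀ y l, (G y l).totalDegree ≤ D) → (∀ y l, DepC c l (G y l)) → Clsd F (r + 2) o B G H →
    (∀ y, (Gt y).totalDegree ≤ D) → (∀ s, (Ht s).totalDegree ≤ D) →
    (∀ y, DepC c (r + 1) (Gt y)) → (∀ s, DepC c (r + 1) (Ht s)) →
    (∀ ω, B ω → ∀ b, NBx c (T (ptr F J ω)) gT (o + v) (F.t ω) (r + 1) b →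
      |eval b (Gt (ptr F J ω)) - eval b (Ht (slam F o ω))| ≤ 1 / 2 ^ p) →
    (∀ ω, B ω → ∀ b, NBx c (T (ptr F J ω)) gT (o + v) (F.t ω) (r + 1) b →
      |eval b (Ht (slam F o ω)) -
        eval b (Gno (c (r + 1)) J J (fun y => G y (r + 1)) (ptr F J ω))| ≤ 2 ^ x / 2 ^ q₁) →
    gT r + sn + M₀ ≤ su + p + x → gT r + sn ≤ su + q₁ + x → q₁ ≤ p →
    (∀ l < r + 1, e + gT l + M₀ + C ≤ J) → ∀ ω ν, B ω → B ν → ptr F J ω = ptr F J ν →
      |(spt c r su sn o (fun s => Ht s - H s (r + 1)) (slam F o ω)).eval (rt F o ω) -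
        (spt c r su sn o (fun s => Ht s - H s (r + 1)) (slam F o ν)).eval (rt F o ν)| ≤
        2 ^ (C * (x + 1)) / 2 ^ M₀ := by
  obtain ⟨C₀, hpd⟩ := pd_last D r
  obtain ⟨C₁, hcell⟩ := pd_cell D r
  refine ⟨C₀ + 2 * C₁ + 4, ?_⟩
  intro m J F c M₀ x p q₁ su sn o v e gT B G T H TH Gt Ht hc1 hoJ hth dG pG hcl dGt dHt pGt pHt hagr
    hrow a1 a2 a3 hJ ω ν hω hν hpt
  obtain ⟨P, hP⟩ : ∃ P : PtT F → MvPolynomial (Option (Fin m)) ℝ, P = fun y =>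
      Gt y - Gno (c (r + 1)) J J (fun y => G y (r + 1)) y := ⟨_, rfl⟩
  have hPd : ∀ y, (P y).totalDegree ≤ D := fun y => by
    rw [hP]
    exact (totalDegree_sub _ _).trans (max_le (dGt y) (deg_Gno _ _ _ (dG y _)))
  have hPp : ∀ y, DepC c (r + 1) (P y) := fun y b b' h1 h2 => by
    rw [hP, map_sub, map_sub, pGt y b b' h1 h2, depC_Gno _ _ _ (pG y _) b b' h1 h2]
  have hPe : ∀ (y : PtT F) (b : Option (Fin m) → ℝ), eval b (pderiv (some (c r)) (P y)) =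
      eval b (pderiv (some (c r)) (Gt y)) - eval b (pderiv (some (c r)) (G y (r + 1))) := by
    intro y b
    rw [hP, map_sub, map_sub, pd_Gno]
  have hq0 : (0 : ℝ) < 2 ^ q₁ := by positivity
  have hbox : ∀ ω, B ω → ∀ b, NBx c (T (ptr F J ω)) gT (o + v) (F.t ω) (r + 1) b →
      |eval b (P (ptr F J ω))| ≤ 2 ^ (x + 1) / 2 ^ q₁ := by
    intro ω hω b hb
    have h1 := hagr ω hω b hb
    have h2 := hrow ω hω b hb
    have h3 : (1 : ℝ) / 2 ^ p ≤ 2 ^ x / 2 ^ q₁ := by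
      refine div_le_div₀ (by positivity) (one_le_pow₀ (by norm_num)) hq0
        (pow_le_pow_right₀ (by norm_num) a3)
    rw [hP, map_sub]
    have e1 : eval b (Gt (ptr F J ω)) - eval b (Gno (c (r + 1)) J J (fun y => G y (r + 1))
        (ptr F J ω)) = (eval b (Gt (ptr F J ω)) - eval b (Ht (slam F o ω))) +
        (eval b (Ht (slam F o ω)) - eval b (Gno (c (r + 1)) J J (fun y => G y (r + 1))
          (ptr F J ω))) := by ring
    rw [e1]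
    refine (abs_add_le _ _).trans ((add_le_add (h1.trans h3) h2).trans (le_of_eq ?_))
    rw [pow_succ]
    ring
  -- the visible number
  obtain ⟨Z, hZ⟩ : ∃ Z : F.Ω → ℝ, Z = fun ω => 2 ^ sn / 2 ^ su *
      eval (bt F ω) (pderiv (some (c r)) (P (ptr F J ω))) := ⟨_, rfl⟩
  obtain ⟨E, hE⟩ : ∃ E : F.Ω → ℝ, E = fun ω =>
      (spt c r su sn o (fun s => Ht s - H s (r + 1)) (slam F o ω)).eval (rt F o ω) := ⟨_, rfl⟩
  -- own against visible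
  have hov : ∀ ω, B ω → |Z ω - E ω| ≤ 2 ^ (C₀ + x) / 2 ^ M₀ := by
    intro ω hω
    have h1 := hpd (c := c) (ψ := T (ptr F J ω))
      (P := Gt (ptr F J ω) - Ht (slam F o ω)) (g := gT) (a := o + v) (t := F.t ω)
      (M := 1 / 2 ^ p) hc1 (hth.degG _) (hth.depG _)
      (fun b b' h1 h2 => by rw [map_sub, map_sub, pGt _ b b' h1 h2, pHt _ b b' h1 h2])
      ((totalDegree_sub _ _).trans (max_le (dGt _) (dHt _))) (by positivity)
      (fun b hb => by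
        rw [map_sub]
        exact hagr ω hω b hb) (bt F ω) (by
        show |F.t ω - F.t ω| ≤ _
        rw [sub_self, abs_zero]
        positivity) (fun l hl => by
        refine (hth.pos ω hω l hl).trans ?_
        exact div_le_div_of_nonneg_right (by norm_num) (by positivity))
    rw [map_sub, map_sub] at h1
    rw [hZ, hE]
    beta_reduce
    rw [hPe, eval_spt hoJ, map_sub, map_sub, ← hcl ω hω (r + 1) (by omega), ← mul_sub, abs_mul,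
      abs_of_pos (show (0 : ℝ) < 2 ^ sn / 2 ^ su by positivity)]
    have e1 : eval (bt F ω) (pderiv (some (c r)) (Gt (ptr F J ω))) -
        eval (bt F ω) (pderiv (some (c r)) (G (ptr F J ω) (r + 1))) -
        (eval (bt F ω) (pderiv (some (c r)) (Ht (slam F o ω))) -
          eval (bt F ω) (pderiv (some (c r)) (G (ptr F J ω) (r + 1)))) =
        eval (bt F ω) (pderiv (some (c r)) (Gt (ptr F J ω))) -
          eval (bt F ω) (pderiv (some (c r)) (Ht (slam F o ω))) := by ring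
    rw [e1]
    refine (mul_le_mul_of_nonneg_left h1 (by positivity)).trans ?_
    have h2 : (2 : ℝ) ^ (gT r + sn) / 2 ^ (su + p) ≤ 2 ^ x / 2 ^ M₀ :=
      num_e (by omega)
    calc 2 ^ sn / 2 ^ su * (2 ^ C₀ * (1 / 2 ^ p) * 2 ^ gT r) =
          2 ^ C₀ * (2 ^ (gT r + sn) / 2 ^ (su + p)) := by
          rw [pow_add 2 (gT r), pow_add 2 su]
          field_simp
      _ ≤ 2 ^ C₀ * (2 ^ x / 2 ^ M₀) := mul_le_mul_of_nonneg_left h2 (by positivity)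
      _ = _ := by rw [pow_add]; ring
  -- the same cell
  have hsame : |Z ω - Z ν| ≤ 2 ^ (C₁ + 2 * x + 1) / 2 ^ M₀ := by
    have h1 := hcell (v := M₀) (M := 2 ^ (x + 1) / 2 ^ q₁) hc1 hth (fun l hl => by
      have := hJ l hl
      omega) (hPp (ptr F J ω)) (hPd _) (by positivity) ω ν hω hpt (hbox ω hω)
    have e1 : Z ω - Z ν = -((eval (bt F ν) (pderiv (some (c r)) (P (ptr F J ω))) -
        eval (bt F ω) (pderiv (some (c r)) (P (ptr F J ω)))) * (2 ^ sn / 2 ^ su)) := by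
      rw [hZ]
      beta_reduce
      rw [hpt]
      ring
    rw [e1, abs_neg, abs_mul, abs_of_pos (show (0 : ℝ) < 2 ^ sn / 2 ^ su by positivity)]
    refine (mul_le_mul_of_nonneg_right h1 (by positivity)).trans ?_
    have h2 : (2 : ℝ) ^ (gT r + sn) / 2 ^ (su + q₁) ≤ 2 ^ x / 2 ^ 0 :=
      num_e (by omega)
    rw [pow_zero, div_one] at h2
    calc (2 ^ C₁ * (2 ^ (x + 1) / 2 ^ q₁) * 2 ^ gT r / 2 ^ M₀) * (2 ^ sn / 2 ^ su) =
          2 ^ (C₁ + (x + 1)) / 2 ^ M₀ * (2 ^ (gT r + sn) / 2 ^ (su + q₁)) := by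
          rw [pow_add 2 (gT r), pow_add 2 su, pow_add 2 C₁]
          field_simp
      _ ≤ 2 ^ (C₁ + (x + 1)) / 2 ^ M₀ * 2 ^ x := mul_le_mul_of_nonneg_left h2 (by positivity)
      _ = _ := by
          rw [show C₁ + 2 * x + 1 = C₁ + (x + 1) + x by ring, pow_add 2 (C₁ + (x + 1))]
          ring
  have h1 := hov ω hω
  have h2 := hov ν hν
  have hgoal : |E ω - E ν| ≤ 2 ^ ((C₀ + 2 * C₁ + 4) * (x + 1)) / 2 ^ M₀ := by
    have e1 : E ω - E ν = -(Z ω - E ω) + (Z ω - Z ν) + (Z ν - E ν) := by ring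
    rw [e1]
    refine (abs_add_le _ _).trans ((add_le_add ((abs_add_le _ _).trans (add_le_add
      ((abs_neg _).trans_le h1) hsame)) h2).trans ?_)
    obtain ⟨X, hX⟩ : ∃ X, X = C₀ + C₁ + 2 * x + 1 := ⟨_, rfl⟩
    have hM : (0 : ℝ) < 2 ^ M₀ := by positivity
    have k1 : (2 : ℝ) ^ (C₀ + x) ≤ 2 ^ X := pow_le_pow_right₀ (by norm_num) (by omega)
    have k2 : (2 : ℝ) ^ (C₁ + 2 * x + 1) ≤ 2 ^ X := pow_le_pow_right₀ (by norm_num) (by omega)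
    rw [← add_div, ← add_div]
    refine div_le_div_of_nonneg_right ?_ hM.le
    calc (2 : ℝ) ^ (C₀ + x) + 2 ^ (C₁ + 2 * x + 1) + 2 ^ (C₀ + x) ≤
        2 ^ (X + 2) := by
          rw [pow_add 2 X 2]
          linarith [show (0 : ℝ) < 2 ^ X by positivity]
      _ ≤ _ := pow_le_pow_right₀ (by norm_num) (by rw [hX]; nlinarith)
  rw [hE] at hgoal
  exact hgoal

/-- **The closed slope by scaling**, on one event: `κL`, `κG` are closed at the window `w`; the slope of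
the row label of the window `i` minus the one of the chart is `U κL`, up to `2 U / 2 ^ M`. -/
theorem unc_ev (m D r : ℕ) : ∃ C₁ : ℕ, 1 ≤ C₁ ∧ ∀ {c : ℕ → Fin m} {Dr N N₂ : ℕ} {R : ℕ → Prop}
    {C a Eb ε₀ η₀ : ℝ} {Pt : ℝ → ℝ → ℝ} {o : ℕ → ℝ} {lv be : ℕ → ℕ → ℝ} {J : ℕ} {F : Fam m J}
    {b : ℕ → ℕ → ℝ} {κ : ℝ} {z : ℕ → ℕ → ℕ} {B : F.Ω → Prop} {gc gT g₀ : ℕ → ℕ → ℕ}
    {G : ℕ → PtT F → ℕ → MvPolynomial (Option (Fin m)) ℝ}
    {H : ℕ → LnT F → ℕ → MvPolynomial (Option (Fin m)) ℝ}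
    {T : ℕ → PtT F → ℕ → MvPolynomial (Option (Fin m)) ℝ}
    {TH : ℕ → LnT F → ℕ → MvPolynomial (Option (Fin m)) ℝ}
    {Gt : ℕ → PtT F → MvPolynomial (Option (Fin m)) ℝ}
    {Ht : ℕ → LnT F → MvPolynomial (Option (Fin m)) ℝ},
    WG c (r + 1) D Dr N N₂ R C a Eb ε₀ η₀ Pt o lv be F b κ z B gc gT g₀ G H T TH Gt Ht →
    Set.InjOn c (Set.Iio (r + 2)) → R r → 0 ≤ η₀ →
    ∀ {i w : ℕ} {ζ M₁ θ : ℝ} {A : F.Ω → Prop}, 0 < Pe F.p A → Sub A B →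
    (∀ (E : F.Ω → Prop) (hE : 0 < Pe F.p E), Sub E A → Pe F.p A / 2 ≤ Pe F.p E →
      (Fam.sub F E hE).Tm θ) → 0 ≤ θ → 0 ≤ ζ → 0 ≤ M₁ →
    i ≤ N → w ≤ N → o i ≤ o w → ⌊o w * J⌋₊ ≤ J →
    C₁ * (θ + 1) ≤ η₀ * J * Real.log 2 → C₁ * (θ + 1) ≤ ((J : ℝ) - ⌊o w * J⌋₊) * Real.log 2 →
    C₁ ≤ C * (η₀ * J) → 0 ≤ lv i r → 0 ≤ lv i (r + 1) → ζ + 4 * (C * η₀) ≤ lv i (r + 1) →
    M₁ + C₁ * (ζ + C * η₀) ≤ o w - o i →
    M₁ + C₁ * (ζ + C * η₀) + (lv i (r + 1) + (a - o i)) ≤ Pt a (o i) →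
    (∀ l ≤ r, R l → Eb + (lv i l + (a - o i)) + M₁ + C₁ * (ζ + C * η₀) ≤ 1) →
    (∀ l ≤ r, ¬ R l → Eb + be i l + M₁ + C₁ * (ζ + C * η₀) ≤ 1) →
    ∃ (B' : F.Ω → Prop) (κL : LnT F → ℝ) (κG : PtT F → ℝ), Sub B' A ∧
      Pe F.p A / 8 ≤ Pe F.p B' ∧ (∀ ω, B' ω → κG (ptr F J ω) = κL (slam F ⌊o w * J⌋₊ ω)) ∧
      ∀ ω, B' ω → |eval (bt F ω) (pderiv (some (c r)) (Ht i (slam F ⌊o i * J⌋₊ ω))) -
        eval (bt F ω) (pderiv (some (c r)) (H i (slam F ⌊o i * J⌋₊ ω) (r + 1))) -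
        2 ^ ⌊lv i r * J⌋₊ / 2 ^ ⌊lv i (r + 1) * J⌋₊ * κL (slam F ⌊o w * J⌋₊ ω)| ≤
        2 ^ ⌊lv i r * J⌋₊ / 2 ^ ⌊lv i (r + 1) * J⌋₊ * (2 / 2 ^ ⌊M₁ * J⌋₊) := by
  classical
  obtain ⟨C₀, hC₀, hval⟩ := chart_val m 0 D
  obtain ⟨C₃, hC₃, hpath⟩ := vel_path m D
  obtain ⟨C₅, hvis⟩ := rv_vis D r
  obtain ⟨C₆, hC₆⟩ : ∃ C₆ : ℕ, C₆ = ⌈C₀⌉₊ + ⌈C₃⌉₊ := ⟨_, rfl⟩
  have hC06 : C₀ + C₃ ≤ C₆ := by
    rw [hC₆]
    push_cast
    exact add_le_add (Nat.le_ceil C₀) (Nat.le_ceil C₃)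
  refine ⟨C₆ + 10 * C₅ + 20, by omega, ?_⟩
  intro c Dr N N₂ R C a Eb ε₀ η₀ Pt o lv be J F b κ z B gc gT g₀ G H T TH Gt Ht W hc hR hη i w ζ M₁
    θ A hA hAB hTm hθ hζ hM₁ hi hw hiw hwJ ht1 ht2 hCJ hl0 hl1 hpos hm1 hm2 hs1 hs2
  have hJ0 : (0 : ℝ) ≤ J := Nat.cast_nonneg J
  have hC1 : 1 ≤ C := W.win.C1
  have hl2 : 0 < Real.log 2 := Real.log_pos one_lt_two
  have h2 : (0 : ℝ) < 2 := by norm_num
  push_cast at ht1 ht2 hCJ hm1 hm2 hs1 hs2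
  have c5 : (0 : ℝ) ≤ C₅ := Nat.cast_nonneg _
  have c6 : (0 : ℝ) ≤ C₆ := Nat.cast_nonneg _
  have hηJ : 0 ≤ η₀ * J := mul_nonneg hη hJ0
  have hCη : η₀ * J ≤ C * (η₀ * J) := le_mul_of_one_le_left hηJ hC1
  obtain ⟨X, hX⟩ : ∃ X : ℝ, X = C * (η₀ * J) := ⟨_, rfl⟩
  obtain ⟨Zt, hZt⟩ : ∃ Z : ℝ, Z = ζ * J := ⟨_, rfl⟩
  have hX0 : 0 ≤ X := by rw [hX]; exact hηJ.trans hCη
  have hZ0 : 0 ≤ Zt := by rw [hZt]; exact mul_nonneg hζ hJ0
  have hX4 : (C₆ : ℝ) + 10 * C₅ + 20 ≤ X := by rw [hX]; exact hCJ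
  have hηX : η₀ * J ≤ X := by rw [hX]; exact hCη
  have hθ1 : 0 ≤ θ + 1 := by linarith
  have hc1 : Set.InjOn c (Set.Iio (r + 1)) := hc.mono fun y hy => by
    rw [Set.mem_Iio] at hy ⊢
    omega
  -- the numbers
  obtain ⟨Q, hQ⟩ : ∃ Q : ℝ, Q = (C₆ + 10 * C₅ + 20) * (Zt + X) := ⟨_, rfl⟩
  have hQ1 : 20 * (Zt + X) + 10 * (C₅ * (Zt + X)) ≤ Q := by
    rw [hQ]
    have : 0 ≤ (C₆ : ℝ) * (Zt + X) := by positivity
    linarith
  have h5X : 0 ≤ (C₅ : ℝ) * X := by positivity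
  have h5Z : 0 ≤ (C₅ : ℝ) * Zt := by positivity
  obtain ⟨su, hsu⟩ : ∃ su, su = ⌊lv i r * J⌋₊ := ⟨_, rfl⟩
  obtain ⟨sn, hsn⟩ : ∃ sn, sn = ⌊lv i (r + 1) * J⌋₊ := ⟨_, rfl⟩
  obtain ⟨x, hx⟩ : ∃ x, x = ⌊(ζ + 8 * (C * η₀)) * J⌋₊ := ⟨_, rfl⟩
  obtain ⟨M, hM⟩ : ∃ M, M = ⌊M₁ * J⌋₊ := ⟨_, rfl⟩
  have su1 : (su : ℝ) ≤ lv i r * J := by rw [hsu]; exact Nat.floor_le (mul_nonneg hl0 hJ0)
  have su2 : lv i r * J < su + 1 := by rw [hsu]; exact Nat.lt_floor_add_one _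
  have sn1 : (sn : ℝ) ≤ lv i (r + 1) * J := by
    rw [hsn]; exact Nat.floor_le (mul_nonneg hl1 hJ0)
  have ex : (ζ + 8 * (C * η₀)) * (J : ℝ) = Zt + 8 * X := by rw [hX, hZt]; ring
  have x1 : (x : ℝ) ≤ Zt + 8 * X := by
    rw [hx, ← ex]
    exact Nat.floor_le (by rw [ex]; linarith)
  have x2 : Zt + 8 * X < x + 1 := by rw [hx, ← ex]; exact Nat.lt_floor_add_one _
  have M1 : (M : ℝ) ≤ M₁ * J := by rw [hM]; exact Nat.floor_le (mul_nonneg hM₁ hJ0)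
  have hM0 : (0 : ℝ) ≤ M := Nat.cast_nonneg M
  obtain ⟨M₀, hM₀⟩ : ∃ M₀, M₀ = M + C₅ * (x + 1) + 3 := ⟨_, rfl⟩
  have M₀1 : (M₀ : ℝ) ≤ M₁ * J + C₅ * (Zt + 8 * X + 1) + 3 := by
    rw [hM₀]
    push_cast
    have : (C₅ : ℝ) * (x + 1) ≤ C₅ * (Zt + 8 * X + 1) :=
      mul_le_mul_of_nonneg_left (by linarith) c5
    linarith
  have eQ : (C₆ + 10 * C₅ + 20) * (ζ + C * η₀) * (J : ℝ) = Q := by
    rw [hQ, hX, hZt]
    ring
  have hm1J : M₁ * J + Q ≤ o w * J - o i * J := by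
    have h1 := mul_le_mul_of_nonneg_right hm1 hJ0
    rw [add_mul, eQ, sub_mul] at h1
    exact h1
  have hm2J : M₁ * J + Q + (lv i (r + 1) * J + (a * J - o i * J)) ≤ Pt a (o i) * J := by
    have h1 := mul_le_mul_of_nonneg_right hm2 hJ0
    rw [add_mul, add_mul M₁, eQ] at h1
    linarith
  obtain ⟨hoi0, hoia⟩ := W.win.ho i hi
  obtain ⟨how0, howa⟩ := W.win.ho w hw
  have ha0 : 0 ≤ a := hoi0.trans hoia
  have a1 : (⌊a * J⌋₊ : ℝ) ≤ a * J := Nat.floor_le (mul_nonneg ha0 hJ0)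
  have a2 : a * J < ⌊a * J⌋₊ + 1 := Nat.lt_floor_add_one _
  have o1 : (⌊o i * J⌋₊ : ℝ) ≤ o i * J := Nat.floor_le (mul_nonneg hoi0 hJ0)
  have o2 : o i * J < ⌊o i * J⌋₊ + 1 := Nat.lt_floor_add_one _
  have w2 : o w * J < ⌊o w * J⌋₊ + 1 := Nat.lt_floor_add_one _
  have hia' : ⌊o i * J⌋₊ ≤ ⌊a * J⌋₊ :=
    Nat.floor_le_floor (mul_le_mul_of_nonneg_right hoia hJ0)
  have hiw' : ⌊o i * J⌋₊ ≤ ⌊o w * J⌋₊ :=
    Nat.floor_le_floor (mul_le_mul_of_nonneg_right hiw hJ0)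
  have hiJ : ⌊o i * J⌋₊ ≤ J := hiw'.trans hwJ
  obtain ⟨-, -, a3, a4, n5, n6⟩ := W.win.g_num hi (l := r + 1) le_rfl
  obtain ⟨t1, t2⟩ := (W.win.t_num hi (l := r) (Nat.lt_succ_self r)).1 hR
  have hbi := W.win.evs i hi
  -- the row
  obtain ⟨y, hy⟩ : ∃ y : ℝ, y = lv i (r + 1) * J + ((⌊a * J⌋₊ : ℝ) - ⌊o i * J⌋₊) -
      (Zt + 4 * X) := ⟨_, rfl⟩
  have f3 : (⌊o i * J⌋₊ : ℝ) ≤ ⌊a * J⌋₊ := by exact_mod_cast hia'
  have hposJ : Zt + 4 * X ≤ lv i (r + 1) * J := by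
    have := mul_le_mul_of_nonneg_right hpos hJ0
    refine le_trans (le_of_eq ?_) this
    rw [hX, hZt]; ring
  have hy0 : 0 ≤ y := by rw [hy]; linarith
  have q1 : (⌊y⌋₊ : ℝ) ≤ y := Nat.floor_le hy0
  have q2 : y < ⌊y⌋₊ + 1 := Nat.lt_floor_add_one _
  have eP : (Pt a (o i) - 2 * (C * η₀)) * (J : ℝ) = Pt a (o i) * J - 2 * X := by rw [hX]; ring
  have hMJ : 0 ≤ M₁ * J := mul_nonneg hM₁ hJ0
  have hQX : 20 * X ≤ Q := by linarith
  have e1 : (⌊y⌋₊ : ℝ) + C * (η₀ * J) ≤ (Pt a (o i) - 2 * (C * η₀)) * J := by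
    rw [eP, ← hX]
    linarith
  have e5 : (⌊y⌋₊ : ℝ) + C * (η₀ * J) ≤ gc i (r + 1) := by rw [← hX]; linarith
  have hro := W.win.row i hi i hi le_rfl ⌊y⌋₊ e1 e5
  obtain ⟨p, hp⟩ : ∃ p, p = ⌊(Pt a (o i) - 2 * (C * η₀)) * J⌋₊ := ⟨_, rfl⟩
  have p2 : Pt a (o i) * J - 2 * X < p + 1 := by
    rw [hp, ← eP]
    exact Nat.lt_floor_add_one _
  have hU : ⌊C * (η₀ * J)⌋₊ ≤ x := by
    rw [hx]
    refine Nat.floor_le_floor ?_
    rw [ex, ← hX]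
    linarith
  have hfl : (⌊(Eb + (fun _ : ℕ => η₀) i + (fun _ : ℕ => η₀) i) * J⌋₊ : ℝ) ≤
      Eb * J + 2 * (η₀ * J) := by
    refine (Nat.floor_le ?_).trans (le_of_eq (by ring))
    have : 0 ≤ (Eb + η₀ + η₀) * (J : ℝ) := mul_nonneg (by linarith [W.win.Eb0]) hJ0
    exact this
  -- visibility
  have hv := hvis (F := F) (c := c) (M₀ := M₀) (x := x) (su := su) (sn := sn) hc1 hiJ hbi.thin
    (fun y l => hbi.ball.degG y l) (fun y l => hbi.ball.depG y l) hbi.cls hbi.dG hbi.dH hbi.pG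
    hbi.pH hbi.agr (fun ω hω b hb => (hro.box ω hω b hb).trans
      (div_le_div_of_nonneg_right (pow_le_pow_right₀ (by norm_num) hU) (by positivity))) (by
      have : ((gT i r + sn + M₀ : ℕ) : ℝ) ≤
          ((su + ⌊(fun k => Pt a (o k) - 2 * (C * η₀)) i * J⌋₊ + x : ℕ) : ℝ) := by
        beta_reduce
        rw [← hp]
        push_cast
        linarith
      exact_mod_cast this) (by
      have : ((gT i r + sn : ℕ) : ℝ) ≤ ((su + ⌊y⌋₊ + x : ℕ) : ℝ) := by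
        push_cast
        linarith
      exact_mod_cast this) (by
      beta_reduce
      refine Nat.floor_le_floor ?_
      rw [eP]
      linarith) (fun l hl => by
      have : ((⌊(Eb + (fun _ : ℕ => η₀) i + (fun _ : ℕ => η₀) i) * J⌋₊ + gT i l + M₀ + C₅ : ℕ) : ℝ)
          ≤ (J : ℕ) := by
        push_cast at hfl ⊢
        by_cases hRl : R l
        · obtain ⟨-, s2⟩ := (W.win.t_num hi (l := l) hl).1 hRl
          have s3 := mul_le_mul_of_nonneg_right (hs1 l (by omega) hRl) hJ0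
          rw [add_mul, eQ, one_mul] at s3
          linarith
        · obtain ⟨-, s2⟩ := (W.win.t_num hi (l := l) hl).2 hRl
          have s3 := mul_le_mul_of_nonneg_right (hs2 l (by omega) hRl) hJ0
          rw [add_mul, eQ, one_mul] at s3
          linarith
      exact_mod_cast this)
  -- the size
  obtain ⟨cP, hcP⟩ : ∃ cP : LnT F → Polynomial ℝ, cP =
      spt c r su sn ⌊o i * J⌋₊ (fun s => Ht i s - H i s (r + 1)) := ⟨_, rfl⟩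
  have hcPe : ∀ ω, (cP (slam F ⌊o i * J⌋₊ ω)).eval (rt F ⌊o i * J⌋₊ ω) = 2 ^ sn / 2 ^ su *
      (eval (bt F ω) (pderiv (some (c r)) (Ht i (slam F ⌊o i * J⌋₊ ω))) -
      eval (bt F ω) (pderiv (some (c r)) (H i (slam F ⌊o i * J⌋₊ ω) (r + 1)))) := fun ω => by
    rw [hcP, eval_spt hiJ]
    beta_reduce
    rw [map_sub, map_sub]
  have hdeg : ∀ s, (cP s).natDegree ≤ D := fun s => by
    rw [hcP]
    exact deg_spt su sn _ (fun s => (totalDegree_sub _ _).trans (max_le (hbi.dH s)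
      (hbi.ball.degH s _))) s
  have hsz : ∀ ω, B ω → |(cP (slam F ⌊o i * J⌋₊ ω)).eval (rt F ⌊o i * J⌋₊ ω)| ≤ 2 ^ x := by
    intro ω hω
    have h3 := wg_near W hc1 hR hi hi le_rfl hiJ hζ hη (by rw [← hX]; linarith) (by
      by_contra h4
      push Not at h4
      have h5 := mul_le_mul_of_nonneg_right h4.le hJ0
      rw [add_mul (Pt a (o i)), add_mul (lv i (r + 1)), sub_mul, ← hZt] at h5
      have h6 : 0 < Q := by linarith
      linarith) hpos ω hω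
    rw [hcPe, abs_mul, abs_of_pos (show (0 : ℝ) < 2 ^ sn / 2 ^ su by positivity)]
    refine (mul_le_mul_of_nonneg_left h3 (by positivity)).trans ?_
    have e6 : (lv i r - lv i (r + 1) + ζ + 6 * (C * η₀)) * (J : ℝ) =
        lv i r * J - lv i (r + 1) * J + Zt + 6 * X := by rw [hX, hZt]; ring
    rw [e6, ← Real.rpow_natCast 2 x]
    exact pw3' (by linarith)
  -- the velocity
  have hE3 : C₃ * (θ + 1) ≤ ((J : ℝ) - ⌊o i * J⌋₊) * Real.log 2 := by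
    have q3 : C₃ * (θ + 1) ≤ (C₆ + 10 * C₅ + 20) * (θ + 1) :=
      mul_le_mul_of_nonneg_right (by linarith) hθ1
    have q4 : ((J : ℝ) - ⌊o w * J⌋₊) * Real.log 2 ≤ ((J : ℝ) - ⌊o i * J⌋₊) * Real.log 2 := by
      have : (⌊o i * J⌋₊ : ℝ) ≤ ⌊o w * J⌋₊ := by exact_mod_cast hiw'
      exact mul_le_mul_of_nonneg_right (by linarith) hl2.le
    linarith
  obtain ⟨A₂, b1, b2, b3⟩ := hpath hA cP (fun _ => 0) (2 ^ x) 0 θ (le_refl ⌊o i * J⌋₊) hiJ hdeg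
    (fun _ => by simp) (by positivity) hθ (hTm A hA (fun _ h => h) (by linarith)) hE3
    (fun ω hω => by
      rw [Polynomial.eval_zero, sub_zero]
      exact hsz ω (hAB ω hω)) (fun ω _ => by simp)
  rw [Nat.sub_self, pow_zero, one_mul, add_zero] at b3
  have hA₂ : 0 < Pe F.p A₂ := by linarith
  obtain ⟨cy, hcy⟩ := vis_of A₂
    (fun ω => (cP (slam F ⌊o i * J⌋₊ ω)).eval (rt F ⌊o i * J⌋₊ ω))
  have hc' : ∀ ω, A₂ ω → |(cP (slam F ⌊o i * J⌋₊ ω)).eval (rt F ⌊o i * J⌋₊ ω) -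
      cy (ptr F J ω)| ≤ 2 ^ (C₅ * (x + 1)) / 2 ^ M₀ := by
    intro ω hω
    obtain ⟨ν, g1, g2, g3⟩ := hcy ω hω
    rw [g3, hcP]
    exact hv ω ν (hAB ω (b1 ω hω)) (hAB ν (b1 ν g1)) g2
  obtain ⟨S₀, hS₀⟩ : ∃ S₀ : ℝ, S₀ = 1 / 2 ^ (⌊o w * J⌋₊ - ⌊o i * J⌋₊) *
    (Real.exp (C₃ * (θ + 1)) * 2 ^ x) := ⟨_, rfl⟩
  have hS₀0 : 0 < S₀ := by rw [hS₀]; positivity
  obtain ⟨B₁, κL, κG, k1, k2, hclo, hown, -⟩ := hval J F A₂ hA₂ ⌊o w * J⌋₊ (ζ := Unit)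
    (fun _ => ()) (fun _ => ()) (fun _ j => Fin.elim0 j)
    (res (⌊o w * J⌋₊ - ⌊o i * J⌋₊) cP) (fun _ j => Fin.elim0 j) cy
    (fun _ j => Fin.elim0 j) S₀ (2 ^ (C₅ * (x + 1)) / 2 ^ M₀) 0 0 θ M hwJ (deg_res hdeg)
    (fun _ j => Fin.elim0 j) hS₀0 hθ (hTm A₂ hA₂ b1 b2) (by
      refine le_trans (mul_le_mul_of_nonneg_right ?_ hθ1) ht2
      linarith)
    (fun _ _ => rfl) (fun _ j => Fin.elim0 j) (fun ω hω => by
      rw [eval_res hiw' hwJ]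
      exact hc' ω hω) (fun _ _ j => Fin.elim0 j)
    (fun ω hω => by
      rw [Finset.univ_eq_empty, Finset.sum_empty, sub_zero, der_res hiw' hwJ, abs_mul,
        abs_of_pos (show (0 : ℝ) < 1 / 2 ^ (⌊o w * J⌋₊ - ⌊o i * J⌋₊) by positivity), hS₀]
      exact mul_le_mul_of_nonneg_left (b3 ω hω) (by positivity)) (by
      simp only [mul_zero, add_zero]
      have e9 : (1 : ℝ) / (4 * 2 ^ M) = 1 / (8 * 2 ^ M) + 1 / (8 * 2 ^ M) := by
        field_simp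
        norm_num
      have e8 : (1 : ℝ) / (8 * 2 ^ M) = (2 : ℝ) ^ (-((3 : ℝ) + M)) := by
        rw [Real.rpow_neg h2.le, Real.rpow_add h2, Real.rpow_natCast]
        norm_num
      rw [e9]
      refine add_le_add ?_ ?_
      · have g1 : Real.exp (C₀ * (θ + 1)) * Real.exp (C₃ * (θ + 1)) ≤ (2 : ℝ) ^ (η₀ * J) := by
          rw [← Real.exp_add, Real.rpow_def_of_pos h2]
          refine Real.exp_le_exp.2 ?_
          rw [← add_mul]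
          refine (mul_le_mul_of_nonneg_right (hC06.trans ?_) hθ1).trans (ht1.trans
            (le_of_eq (by ring)))
          linarith
        have g2 : (2 : ℝ) ^ (η₀ * J) * 2 ^ x / 2 ^ (⌊o w * J⌋₊ - ⌊o i * J⌋₊) ≤
            1 / (8 * 2 ^ M) := by
          rw [e8, ← Real.rpow_natCast 2 x, ← Real.rpow_natCast, ← Real.rpow_add h2,
            ← Real.rpow_sub h2]
          refine Real.rpow_le_rpow_of_exponent_le (by norm_num) ?_
          rw [Nat.cast_sub hiw']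
          linarith
        refine le_trans ?_ g2
        rw [hS₀]
        calc Real.exp (C₀ * (θ + 1)) * (1 / 2 ^ (⌊o w * J⌋₊ - ⌊o i * J⌋₊) *
              (Real.exp (C₃ * (θ + 1)) * 2 ^ x)) =
              (Real.exp (C₀ * (θ + 1)) * Real.exp (C₃ * (θ + 1))) * 2 ^ x /
                2 ^ (⌊o w * J⌋₊ - ⌊o i * J⌋₊) := by ring
          _ ≤ _ := by gcongr
      · rw [hM₀, div_le_div_iff₀ (by positivity) (by positivity), one_mul, pow_add, pow_add]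
        have : (0 : ℝ) < 2 ^ (C₅ * (x + 1)) * 2 ^ M := by positivity
        linarith)
  refine ⟨B₁, κL, κG, fun ω hω => b1 ω (k1 ω hω), by linarith, fun ω hω => (hclo ω hω).symm,
    fun ω hω => ?_⟩
  have h3 := (hown ω hω _ (rt_mem F ⌊o w * J⌋₊ ω)).1
  rw [Finset.univ_eq_empty, Finset.sum_empty, sub_zero, eval_res hiw' hwJ, hcPe] at h3
  rw [← hsu, ← hsn, ← hM]
  obtain ⟨α, hα⟩ : ∃ α, α = eval (bt F ω) (pderiv (some (c r)) (Ht i (slam F ⌊o i * J⌋₊ ω))) -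
      eval (bt F ω) (pderiv (some (c r)) (H i (slam F ⌊o i * J⌋₊ ω) (r + 1))) := ⟨_, rfl⟩
  rw [← hα] at h3 ⊢
  have e1 : α - 2 ^ su / 2 ^ sn * κL (slam F ⌊o w * J⌋₊ ω) =
      2 ^ su / 2 ^ sn * (2 ^ sn / 2 ^ su * α - κL (slam F ⌊o w * J⌋₊ ω)) := by
    field_simp
  rw [e1, abs_mul, abs_of_pos (show (0 : ℝ) < 2 ^ su / 2 ^ sn by positivity)]
  exact mul_le_mul_of_nonneg_left h3 (by positivity)

end Pool.CR99
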