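import Pool.Agent.H99.D2.Unb

/-!
# The closed slope by scaling, class form

`pol_box`: the box from the samples, for a closed polynomial. `blx_unc`: `BlX` on a later window, by the
scaling of the row label of an earlier window.
-/

set_option autoImplicit false

namespace Pool.CR99

open Finset Real MvPolynomial
open Pool.Agent.H49.Ent Pool.Agent.H32.Dense Pool.STK Pool.KA Pool.KSAT Pool.K2S Pool.PB Pool.S6C
open Pool.GEN Pool.CHT Pool.CHX Pool.ISO Pool.D2R Pool.D2G30 Pool.V1E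
open Pool.FLF (Fam.sub)
open Pool.PB.Trl (rt rt_mem t_rt)
open Pool.GRD (LbP)

/-- **The box from the samples**, for a closed polynomial. -/
theorem pol_box {m J : ℕ} {F : Fam m J} {c : ℕ → Fin m} {r D Dr h : ℕ} {κ : ℝ}
    {o₂ : ℕ} {g₂ : ℕ → ℕ} {B B₁ : F.Ω → Prop}
    {G₂ : PtT F → ℕ → MvPolynomial (Option (Fin m)) ℝ}
    {H₂ : LnT F → ℕ → MvPolynomial (Option (Fin m)) ℝ}
    {ML : LnT F → MvPolynomial (Option (Fin m)) ℝ} {Mp : PtT F → MvPolynomial (Option (Fin m)) ℝ}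
    {K : ℝ} (hD : D ≤ Dr)
    (hdG₂ : ∀ y l, (G₂ y l).totalDegree ≤ D) (hdH₂ : ∀ s l, (H₂ s l).totalDegree ≤ D)
    (hpG₂ : ∀ y l, DepC c l (G₂ y l)) (hpH₂ : ∀ s l, DepC c l (H₂ s l))
    (hcl2 : Clsd F (r + 2) o₂ B G₂ H₂) (hrel : RelvF F c (r + 1) o₂ o₂ g₂ Dr h κ B G₂)
    (hdL : ∀ s, (ML s).totalDegree ≤ D) (hdp : ∀ y, (Mp y).totalDegree ≤ D)
    (hpL : ∀ s, DepC c (r + 1) (ML s)) (hpp : ∀ y, DepC c (r + 1) (Mp y))
    (hB₁ : Sub B₁ B) (hκ : κ * Pe F.p B ≤ Pe F.p B₁)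
    (hcl : ∀ ω, B₁ ω → Mp (ptr F J ω) = ML (slam F o₂ ω))
    (hn : ∀ ω, B₁ ω → |eval (bt F ω) (pderiv (some (c r)) (H₂ (slam F o₂ ω) (r + 1))) -
      eval (bt F ω) (pderiv (some (c r)) (ML (slam F o₂ ω)))| ≤ K) (hK0 : 0 < K) :
    ∃ B₂ : F.Ω → Prop, Sub B₂ B₁ ∧ Pe F.p B₁ / 2 ≤ Pe F.p B₂ ∧ ∀ ω, B₂ ω →
      ∀ b, NBx c (G₂ (ptr F J ω)) g₂ o₂ (F.t ω) (r + 1) b →
      |eval b (pderiv (some (c r)) (G₂ (ptr F J ω) (r + 1))) -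
        eval b (pderiv (some (c r)) (Mp (ptr F J ω)))| ≤ 2 ^ h * K := by
  classical
  obtain ⟨Dx, hDx⟩ : ∃ Dx : PtT F → MvPolynomial (Option (Fin m)) ℝ, Dx = fun y =>
      pderiv (some (c r)) (G₂ y (r + 1)) - pderiv (some (c r)) (Mp y) := ⟨_, rfl⟩
  obtain ⟨Dl, hDl⟩ : ∃ Dl : LnT F → MvPolynomial (Option (Fin m)) ℝ, Dl = fun s =>
      pderiv (some (c r)) (H₂ s (r + 1)) - pderiv (some (c r)) (ML s) := ⟨_, rfl⟩
  have heq : ∀ ω, B₁ ω → ∀ b, eval b (Dx (ptr F J ω)) = eval b (Dl (slam F o₂ ω)) := by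
    intro ω hω b
    rw [hDx, hDl]
    beta_reduce
    rw [hcl ω hω, hcl2 ω (hB₁ ω hω) (r + 1) (by omega)]
  have hpt : ∀ ω, B₁ ω → |eval (bt F ω) (Dx (ptr F J ω))| ≤ K := by
    intro ω hω
    refine le_trans (le_of_eq ?_) (hn ω hω)
    rw [hDx]
    beta_reduce
    rw [hcl ω hω, hcl2 ω (hB₁ ω hω) (r + 1) (by omega), map_sub]
  obtain ⟨B₂, d1, d2, d3⟩ := hrel B₁ hB₁ hκ Dx Dl K
    (fun y => by
      rw [hDx]
      exact ((totalDegree_sub _ _).trans (max_le ((pd_deg _ _).trans (hdG₂ y _))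
        ((pd_deg _ _).trans (hdp y)))).trans hD)
    (fun s => by
      rw [hDl]
      exact ((totalDegree_sub _ _).trans (max_le ((pd_deg _ _).trans (hdH₂ s _))
        ((pd_deg _ _).trans (hdL s)))).trans hD)
    (fun y b b' h4 h5 => by
      rw [hDx]
      beta_reduce
      rw [map_sub, map_sub, depC_pderiv (hpp y) _ b b' h4 h5,
        depC_pderiv (hpG₂ y _) _ b b' h4 h5])
    (fun s b b' h4 h5 => by
      rw [hDl]
      beta_reduce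
      rw [map_sub, map_sub, depC_pderiv (hpL s) _ b b' h4 h5,
        depC_pderiv (hpH₂ s _) _ b b' h4 h5])
    hK0 hpt (fun ω hω b _ => by
      rw [heq ω hω b, sub_self, abs_zero]
      exact hK0.le)
  refine ⟨B₂, d1, d2, fun ω hω b hb => ?_⟩
  refine le_trans (le_of_eq ?_) (d3 ω hω b hb)
  rw [hDx]
  beta_reduce
  rw [map_sub]

/-- **The closed slope by scaling**, class form. -/
theorem blx_unc (m D r : ℕ) (hD1 : 1 ≤ D) : ∃ C₁ : ℕ, 1 ≤ C₁ ∧ ∀ {S : PCl m} {C₀ : ℝ}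
    {c : ℕ → Fin m} {Dr N N₂ : ℕ} {R : ℕ → Prop} {C a Eb ε₀ η₀ : ℝ} {Pt : ℝ → ℝ → ℝ}
    {o : ℕ → ℝ} {lv be b : ℕ → ℕ → ℝ} {K₁ : ℝ}, TmC S C₀ → Set.InjOn c (Set.Iio (r + 2)) → R r →
    D ≤ Dr → 0 < K₁ → 0 < η₀ → 1 ≤ C → a ≤ 1 →
    WgS S c r D Dr N N₂ R C a Eb ε₀ η₀ Pt o lv be b K₁ →
    ∀ (n : ℕ) {i w : ℕ} {ζ M₁ P : ℝ} {x₀ : ℕ → ℝ}, 0 ≤ ζ → 0 ≤ M₁ → 0 ≤ P →
    i ≤ N → w ≤ N → o i ≤ o w → o w < 1 → (∀ k < n, k ≤ N ∧ o i ≤ o k) →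
    (∀ k ≤ N, o i ≤ o k → lv k (r + 1) + (a - o k) ≤ Pt a (o i) + ζ) →
    (∀ k ≤ N, ζ + 4 * (C * η₀) ≤ lv k (r + 1)) → 0 ≤ lv i r →
    M₁ + C₁ * (ζ + C * η₀) ≤ o w - o i →
    M₁ + C₁ * (ζ + C * η₀) + (lv i (r + 1) + (a - o i)) ≤ Pt a (o i) →
    (∀ l ≤ r, R l → Eb + (lv i l + (a - o i)) + M₁ + C₁ * (ζ + C * η₀) ≤ 1) →
    (∀ l ≤ r, ¬ R l → Eb + be i l + M₁ + C₁ * (ζ + C * η₀) ≤ 1) →
    (∀ k < n, lv k r - lv k (r + 1) + ζ + 7 * (C * η₀) ≤ x₀ k) →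
    (∀ k < n, lv i r - lv i (r + 1) - M₁ + C * η₀ ≤ x₀ k) →
    P + ζ + 20 * (C * η₀) ≤ lv w (r + 1) →
    P + 20 * (C * η₀) ≤ lv w r + (lv i (r + 1) - lv i r) + M₁ →
    BlX S c r (bmd D) D (o w) P n o (fun k => lv k (r + 1) - η₀) x₀ (16 * K₁) := by
  classical
  obtain ⟨C₁, hC₁, hev⟩ := unc_ev m D r
  refine ⟨C₁, hC₁, ?_⟩
  intro S C₀ c Dr N N₂ R C a Eb ε₀ η₀ Pt o lv be b K₁ htm hc hR hDr hK₁ hη hC ha1 hW n i w ζ M₁ P
    x₀ hζ hM₁ hP hi hw hiw hw1 hn hrow hpos hl0 hm1 hm2 hs1 hs2 hx1 hx2 hP1 hP2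
  have hl2 : 0 < Real.log 2 := Real.log_pos one_lt_two
  have h2 : (0 : ℝ) < 2 := by norm_num
  have c1 : (1 : ℝ) ≤ C₁ := by exact_mod_cast hC₁
  have hc1 : Set.InjOn c (Set.Iio (r + 1)) := hc.mono fun y hy => by
    rw [Set.mem_Iio] at hy ⊢
    omega
  have hCη : 0 < C * η₀ := mul_pos (by linarith) hη
  obtain ⟨ψ, hψ, J₁, hJ₁⟩ := tm_num hC₁ hη hw1
  obtain ⟨J₂, hJ₂⟩ := exists_nat_ge (((C₁ : ℝ) + 10) / (C * η₀))
  refine Bas.mono (max J₁ J₂) (Bas.and (hW (1 / 8) (by norm_num))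
    (Pool.GRW.bas_part (Pool.GRW.tms_bas htm hψ) (show (0 : ℝ) < 2 * K₁ by linarith))) ?_
  rintro J hJ F A ⟨⟨B, z, gc, gT, g₀, G, H, T, TH, Gt, Ht, b1, b2, W⟩, htB⟩
  have hJ0 : (0 : ℝ) ≤ J := Nat.cast_nonneg J
  obtain ⟨t1, t2⟩ := hJ₁ J ((le_max_left _ _).trans hJ)
  have j2 : (C₁ : ℝ) + 10 ≤ C * (η₀ * J) := by
    have e1 : (J₂ : ℝ) ≤ J := by exact_mod_cast (le_max_right _ _).trans hJ
    have e2 := hJ₂.trans e1
    rw [div_le_iff₀ hCη] at e2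
    linarith
  have hB : 0 < Pe F.p B := (htB B b1 (b2.trans (mul_le_mul_of_nonneg_right (by linarith)
    (Pe_nonneg F.isLaw B)))).1
  obtain ⟨X, hX⟩ : ∃ X : ℝ, X = C * (η₀ * J) := ⟨_, rfl⟩
  obtain ⟨Zt, hZt⟩ : ∃ Z : ℝ, Z = ζ * J := ⟨_, rfl⟩
  have hηJ : 0 ≤ η₀ * J := mul_nonneg hη.le hJ0
  have hηX : η₀ * J ≤ X := by rw [hX]; exact le_mul_of_one_le_left hηJ hC
  have hX0 : 0 ≤ X := hηJ.trans hηX
  have hZ0 : 0 ≤ Zt := by rw [hZt]; exact mul_nonneg hζ hJ0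
  rw [← hX] at j2
  have hokJ : ∀ k ≤ N, ⌊o k * J⌋₊ ≤ J := fun k hk => by
    obtain ⟨q1, q2⟩ := W.win.ho k hk
    refine Nat.floor_le_of_le ?_
    have := mul_le_mul_of_nonneg_right (q2.trans ha1) hJ0
    linarith
  have hwJ := hokJ w hw
  have hiw' : ⌊o i * J⌋₊ ≤ ⌊o w * J⌋₊ :=
    Nat.floor_le_floor (mul_le_mul_of_nonneg_right hiw hJ0)
  obtain ⟨how0, -⟩ := W.win.ho w hw
  have f0 : (⌊o w * J⌋₊ : ℝ) ≤ o w * J := Nat.floor_le (mul_nonneg how0 hJ0)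
  have hJX : (1 : ℝ) ≤ C * (η₀ * J) := by rw [← hX]; linarith
  have hlv1 : 0 ≤ lv i (r + 1) := by
    have := hpos i hi
    linarith
  obtain ⟨B', κL, κG, k1, k2, hclo, hown⟩ := hev W hc hR hη.le (i := i) (w := w) (ζ := ζ)
    (M₁ := M₁) (θ := ψ * J) hB (fun _ h => h) (fun E hE hEB hPE =>
      (htB E (fun ω hω => b1 ω (hEB ω hω)) (by
        have := mul_le_mul_of_nonneg_left hPE (show (0 : ℝ) ≤ 2 * K₁ by linarith)
        linarith)).2) (mul_nonneg hψ.le hJ0) hζ hM₁ hi hw hiw hwJ t1 (t2.trans (by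
      have e2 : (⌊o w * J⌋₊ : ℝ) * Real.log 2 ≤ o w * J * Real.log 2 :=
        mul_le_mul_of_nonneg_right f0 hl2.le
      linarith)) (by rw [← hX]; linarith) hl0 hlv1 (hpos i hi) hm1 hm2 hs1 hs2
  have hbi := W.win.evs i hi
  have hbw := W.win.evs w hw
  -- the numbers
  obtain ⟨su, hsu⟩ : ∃ su, su = ⌊lv i r * J⌋₊ := ⟨_, rfl⟩
  obtain ⟨sn, hsn⟩ : ∃ sn, sn = ⌊lv i (r + 1) * J⌋₊ := ⟨_, rfl⟩
  rw [← hsu, ← hsn] at hown
  have su1 : (su : ℝ) ≤ lv i r * J := by rw [hsu]; exact Nat.floor_le (mul_nonneg hl0 hJ0)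
  have sn2 : lv i (r + 1) * J < sn + 1 := by rw [hsn]; exact Nat.lt_floor_add_one _
  obtain ⟨M, hM⟩ : ∃ M, M = ⌊M₁ * J⌋₊ := ⟨_, rfl⟩
  have M2 : M₁ * J < M + 1 := by rw [hM]; exact Nat.lt_floor_add_one _
  rw [← hM] at hown
  have hηf : (⌊η₀ * J⌋₊ : ℝ) ≤ η₀ * J := Nat.floor_le hηJ
  -- the closed polynomial
  obtain ⟨ML, hML⟩ : ∃ ML : LnT F → MvPolynomial (Option (Fin m)) ℝ, ML = fun s =>
      H i (co (⌊o w * J⌋₊ - ⌊o i * J⌋₊) s) (r + 1) + mu1 c r (2 ^ su / 2 ^ sn * κL s) := ⟨_, rfl⟩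
  obtain ⟨Mp, hMp⟩ : ∃ Mp : PtT F → MvPolynomial (Option (Fin m)) ℝ, Mp = fun y =>
      G i y (r + 1) + mu1 c r (2 ^ su / 2 ^ sn * κG y) := ⟨_, rfl⟩
  have dML : ∀ s, (ML s).totalDegree ≤ D := fun s => by
    rw [hML]
    exact (totalDegree_add _ _).trans (max_le (hbi.ball.degH _ _) ((deg_mu1 c r _).trans hD1))
  have dMp : ∀ y, (Mp y).totalDegree ≤ D := fun y => by
    rw [hMp]
    exact (totalDegree_add _ _).trans (max_le (hbi.ball.degG _ _) ((deg_mu1 c r _).trans hD1))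
  have pML : ∀ s, DepC c (r + 1) (ML s) := fun s b b' h4 h5 => by
    rw [hML]
    beta_reduce
    rw [map_add, map_add, hbi.ball.depH _ _ b b' h4 h5, dep_mu1 c r _ b b' h4 h5]
  have pMp : ∀ y, DepC c (r + 1) (Mp y) := fun y b b' h4 h5 => by
    rw [hMp]
    beta_reduce
    rw [map_add, map_add, hbi.ball.depG _ _ b b' h4 h5, dep_mu1 c r _ b b' h4 h5]
  have hMclo : ∀ ω, B' ω → Mp (ptr F J ω) = ML (slam F ⌊o w * J⌋₊ ω) := fun ω hω => by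
    rw [hML, hMp]
    beta_reduce
    rw [co_slam F hiw' hwJ, hclo ω hω, hbi.cls ω (k1 ω hω) (r + 1) (by omega)]
  have hMe : ∀ ω, B' ω → eval (bt F ω) (pderiv (some (c r)) (ML (slam F ⌊o w * J⌋₊ ω))) =
      eval (bt F ω) (pderiv (some (c r)) (H i (slam F ⌊o i * J⌋₊ ω) (r + 1))) +
        2 ^ su / 2 ^ sn * κL (slam F ⌊o w * J⌋₊ ω) := fun ω hω => by
    rw [hML]
    beta_reduce
    rw [map_add, map_add, pd_mu1, co_slam F hiw' hwJ]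
  have hnear : ∀ k ≤ N, o i ≤ o k → ∀ ω, B' ω →
      |eval (bt F ω) (pderiv (some (c r)) (H k (slam F ⌊o k * J⌋₊ ω) (r + 1))) -
        eval (bt F ω) (pderiv (some (c r)) (ML (slam F ⌊o w * J⌋₊ ω)))| ≤
        (2 : ℝ) ^ ((lv k r - lv k (r + 1) + ζ + 6 * (C * η₀)) * J) +
        2 ^ su / 2 ^ sn * (2 / 2 ^ M) := by
    intro k hk hok ω hω
    have h3 := wg_near W hc1 hR hi hk hok (hokJ k hk) hζ hη.le hJX (hrow k hk hok) (hpos k hk) ω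
      (k1 ω hω)
    have h4 := hown ω hω
    rw [hMe ω hω]
    rw [abs_le] at h3 h4 ⊢
    constructor <;> linarith [h3.1, h3.2, h4.1, h4.2]
  have hUM : (2 : ℝ) ^ su / 2 ^ sn * (2 / 2 ^ M) = (2 : ℝ) ^ ((su : ℝ) - sn + (1 - (M : ℝ))) := by
    rw [Real.rpow_add h2, Real.rpow_sub h2, Real.rpow_sub h2, Real.rpow_natCast,
      Real.rpow_natCast, Real.rpow_natCast, Real.rpow_one]
  -- the box
  obtain ⟨K, hK⟩ : ∃ K : ℝ, K = (2 : ℝ) ^ ((lv w r - lv w (r + 1) + ζ + 6 * (C * η₀)) * J) +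
        2 ^ su / 2 ^ sn * (2 / 2 ^ M) := ⟨_, rfl⟩
  have hK0 : 0 < K := by rw [hK]; positivity
  obtain ⟨B₂, d1, d2, d3⟩ := pol_box (K := K) hDr (fun y l => hbw.ball.degG y l)
    (fun s l => hbw.ball.degH s l) (fun y l => hbw.ball.depG y l) (fun s l => hbw.ball.depH s l)
    hbw.cls hbw.relb dML dMp pML pMp k1 (by linarith) hMclo (fun ω hω => by
      rw [hK]
      exact hnear w hw hiw ω hω) hK0
  have hB₂B : Sub B₂ B := fun ω hω => k1 ω (d1 ω hω)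
  obtain ⟨-, -, a1, a2, -, -⟩ := W.win.g_num hw (l := r) (by omega)
  obtain ⟨-, -, a3, a4, -, -⟩ := W.win.g_num hw (l := r + 1) le_rfl
  have hPJ : 0 ≤ P * J := mul_nonneg hP hJ0
  have p2 : ((⌈P * J⌉₊ : ℕ) : ℝ) < P * J + 1 := Nat.ceil_lt_add_one hPJ
  have hP1J : P * J + Zt + 20 * X ≤ lv w (r + 1) * J := by
    have := mul_le_mul_of_nonneg_right hP1 hJ0
    refine le_trans (le_of_eq ?_) this
    rw [hX, hZt]
    ring
  have hP2J : P * J + 20 * X ≤ lv w r * J + (lv i (r + 1) * J - lv i r * J) + M₁ * J := by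
    have := mul_le_mul_of_nonneg_right hP2 hJ0
    calc P * J + 20 * X = (P + 20 * (C * η₀)) * J := by rw [hX]; ring
      _ ≤ _ := this
      _ = _ := by ring
  obtain ⟨zz, zz', hl, hlC⟩ := bmg_lbp (F := F) (c := c) (r := r) (D := D) (P := ⌈P * J⌉₊)
    (K₁ := 2 ^ ⌊η₀ * J⌋₊ * K) (hbw.ball.sub hB₂B) (fun ω hω => hbw.cls ω (hB₂B ω hω))
    dML dMp pML pMp (fun ω hω => hMclo ω (d1 ω hω)) d3 hc1 (by
      have e9 : (1 : ℝ) / 2 ^ ⌈P * J⌉₊ =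
          (2 : ℝ) ^ (-(⌈P * J⌉₊ : ℝ) - 1) + ((2 : ℝ) ^ (-(⌈P * J⌉₊ : ℝ) - 2) +
            (2 : ℝ) ^ (-(⌈P * J⌉₊ : ℝ) - 2)) := by
        have e8 : (2 : ℝ) ^ (-(⌈P * J⌉₊ : ℝ) - 1) = 1 / 2 ^ ⌈P * J⌉₊ / 2 := by
          rw [Real.rpow_sub_one h2.ne', Real.rpow_neg h2.le, Real.rpow_natCast, one_div]
        have e7 : (2 : ℝ) ^ (-(⌈P * J⌉₊ : ℝ) - 2) = 1 / 2 ^ ⌈P * J⌉₊ / 4 := by
          rw [show -(⌈P * J⌉₊ : ℝ) - 2 = -(⌈P * J⌉₊ : ℝ) - 1 - 1 by ring,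
            Real.rpow_sub_one h2.ne', e8]
          ring
        rw [e8, e7]
        ring
      rw [e9]
      refine add_le_add ?_ ?_
      · have : (1 : ℝ) / 2 ^ g₀ w (r + 1) = (2 : ℝ) ^ (-(g₀ w (r + 1) : ℝ)) := by
          rw [Real.rpow_neg h2.le, Real.rpow_natCast, one_div]
        rw [this]
        exact Real.rpow_le_rpow_of_exponent_le (by norm_num) (by linarith)
      · have e1 : (2 : ℝ) ^ ⌊η₀ * J⌋₊ * K * (1 / 2 ^ g₀ w r) =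
            (2 : ℝ) ^ ((⌊η₀ * J⌋₊ : ℝ) +
              (lv w r - lv w (r + 1) + ζ + 6 * (C * η₀)) * J - g₀ w r) +
            (2 : ℝ) ^ ((⌊η₀ * J⌋₊ : ℝ) + ((su : ℝ) - sn + (1 - (M : ℝ))) - g₀ w r) := by
          rw [hK, hUM]
          obtain ⟨α, hα⟩ : ∃ α : ℝ, α = (lv w r - lv w (r + 1) + ζ + 6 * (C * η₀)) * J :=
            ⟨_, rfl⟩
          obtain ⟨β, hβ⟩ : ∃ β : ℝ, β = (su : ℝ) - sn + (1 - (M : ℝ)) := ⟨_, rfl⟩
          rw [← hα, ← hβ, Real.rpow_sub h2, Real.rpow_sub h2, Real.rpow_add h2, Real.rpow_add h2,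
            Real.rpow_natCast, Real.rpow_natCast]
          ring
        rw [e1]
        refine add_le_add (Real.rpow_le_rpow_of_exponent_le (by norm_num) ?_)
          (Real.rpow_le_rpow_of_exponent_le (by norm_num) ?_)
        · have e2 : (lv w r - lv w (r + 1) + ζ + 6 * (C * η₀)) * (J : ℝ) =
              lv w r * J - lv w (r + 1) * J + Zt + 6 * X := by rw [hX, hZt]; ring
          rw [e2]
          linarith
        · linarith)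
  refine ⟨B₂, fun ω hω => b1 ω (hB₂B ω hω), ?_, BmV m c r D, zz, zz', bmG, ⌈P * J⌉₊, hl,
    Nat.le_ceil _, fun k hk => ?_⟩
  · have h5 : Pe F.p B ≤ 16 * Pe F.p B₂ := by linarith
    have := mul_le_mul_of_nonneg_left h5 hK₁.le
    linarith
  · obtain ⟨hkN, hok⟩ := hn k hk
    have hbk := W.win.evs k hkN
    obtain ⟨V₁, z₁, z₁', G₁, l1, l2⟩ := lbp_ball (hbk.ball.sub hB₂B)
      (fun ω hω => hbk.cls ω (hB₂B ω hω))
    refine ⟨V₁, z₁, z₁', G₁, g₀ k (r + 1), l1, ?_, fun ω hω => ?_⟩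
    · obtain ⟨-, -, q1, -, -, -⟩ := W.win.g_num hkN (l := r + 1) le_rfl
      have e1 : (lv k (r + 1) - η₀) * (J : ℝ) = lv k (r + 1) * J - η₀ * J := by ring
      beta_reduce
      rw [e1]
      exact q1
    · rw [map_sub, map_sub, l2, bmg_dir hc1, hlC]
      refine (hnear k hkN hok ω (d1 ω hω)).trans ?_
      have h6 : (2 : ℝ) ^ ((lv k r - lv k (r + 1) + ζ + 6 * (C * η₀)) * J) ≤
          (2 : ℝ) ^ (x₀ k * J - 1) := by
        refine Real.rpow_le_rpow_of_exponent_le (by norm_num) ?_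
        have e1 := mul_le_mul_of_nonneg_right (hx1 k hk) hJ0
        have e2 : (lv k r - lv k (r + 1) + ζ + 7 * (C * η₀)) * (J : ℝ) =
            (lv k r - lv k (r + 1) + ζ + 6 * (C * η₀)) * J + X := by rw [hX]; ring
        linarith
      have h7 : 2 ^ su / 2 ^ sn * (2 / 2 ^ M) ≤ (2 : ℝ) ^ (x₀ k * J - 1) := by
        rw [hUM]
        refine Real.rpow_le_rpow_of_exponent_le (by norm_num) ?_
        have e1 := mul_le_mul_of_nonneg_right (hx2 k hk) hJ0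
        have e2 : (lv i r - lv i (r + 1) - M₁ + C * η₀) * (J : ℝ) =
            lv i r * J - lv i (r + 1) * J - M₁ * J + X := by rw [hX]; ring
        linarith
      have h8 : (2 : ℝ) ^ (x₀ k * J) = (2 : ℝ) ^ (x₀ k * J - 1) + (2 : ℝ) ^ (x₀ k * J - 1) := by
        rw [← two_mul, Real.rpow_sub_one h2.ne']
        field_simp
      rw [h8]
      exact add_le_add h6 h7

end Pool.CR99
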