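import Pool.Agent.H99.D2.Cst
import Pool.Agent.H99.D2.Hev

/-!
# The slope is visible, absolute form

`slp_cell`: the derivative of the chart of `N = c (r + 1)` in the direction `u = c r` at two samples in the
same cell. `cab_vis`: a path which is near this derivative at the samples is visible.
-/

set_option autoImplicit false

namespace Pool.CR99

open Finset Real MvPolynomial
open Pool.Agent.H49.Ent Pool.Agent.H32.Dense Pool.STK Pool.KA Pool.KSAT Pool.K2S Pool.PB Pool.S6C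
open Pool.GEN Pool.CHT Pool.CHX Pool.ISO Pool.D2R Pool.D2G30 Pool.V1E
open Pool.FLF (Fam.sub)
open Pool.PB.Trl (rt rt_mem t_rt)

/-- **The slope at two samples in the same cell.** -/
theorem slp_cell (D r : ℕ) : ∃ C : ℕ, 1 ≤ C ∧ ∀ {m J : ℕ} {F : Fam m J} {c : ℕ → Fin m}
    {w e L : ℕ} {g : ℕ → ℕ} {A : F.Ω → Prop}
    {G : PtT F → ℕ → MvPolynomial (Option (Fin m)) ℝ}
    {H : LnT F → ℕ → MvPolynomial (Option (Fin m)) ℝ}, Set.InjOn c (Set.Iio (r + 2)) →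
    ChOK F c (r + 2) (fun _ => D) w w e g A G H → (∀ i < r + 2, e + g i + C ≤ J) →
    (∀ l < r + 1, nlp g l (r + 1) ≤ L) → ∀ ω ν, A ω → ptr F J ω = ptr F J ν →
      |eval (bt F ν) (pderiv (some (c r)) (G (ptr F J ω) (r + 1))) -
        eval (bt F ω) (pderiv (some (c r)) (G (ptr F J ω) (r + 1)))| ≤
        2 ^ (C + e + L + g r) / 2 ^ J := by
  classical
  obtain ⟨C₁, hC₁, hcell⟩ := Pool.PRQ76.dil_cell (r + 2) D
  obtain ⟨C₂, hpd⟩ := pd_last D r
  obtain ⟨C₃, hC₃⟩ := pow_unbounded_of_one_lt ((r : ℝ) + 1) (one_lt_two (α := ℝ))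
  refine ⟨C₁ + C₂ + C₃, by omega, ?_⟩
  intro m J F c w e L g A G H hc hch hJ hL ω ν hω hpt
  obtain ⟨hT, htn, hx⟩ := bt_near hpt
  have hc1 : Set.InjOn c (Set.Iio (r + 1)) := hc.mono fun y hy => by
    rw [Set.mem_Iio] at hy ⊢
    omega
  obtain ⟨P, hP⟩ : ∃ P, P = G (ptr F J ω) := ⟨_, rfl⟩
  have hPd : ∀ l, (P l).totalDegree ≤ D := fun l => by rw [hP]; exact hch.degG _ l
  have hPp : ∀ l, DepC c l (P l) := fun l => by rw [hP]; exact hch.depG _ l
  rw [← hP]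
  have hmv := mv_chain (Q := pderiv (some (c r)) (P (r + 1))) (c := c) (i := r + 1)
    (b := bt F ω) (b' := bt F ν) (L := 2 ^ C₂ * 2 ^ (e + L) * 2 ^ g r) (δ := 1 / 2 ^ J)
    (DepC.pderiv (hPp (r + 1)) r) (by positivity) (by positivity) htn.symm
    (fun l hl => by
      have := hx (c l)
      rw [abs_sub_comm]
      exact this) (by
    intro y hy hyx l hl
    rw [Pool.D2R.pd_comm]
    have h1 := (hcell (P := P) (g := g) (a := w) (e := e) (n := 0) (hi := J) (v := 0)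
      (t := F.t ω) (x := bt F ω) hc hPd hPp (by
        show |F.t ω - F.t ω| ≤ _
        rw [sub_self, abs_zero]
        positivity) (fun l hl => by
        rw [pow_zero, hP]
        exact hch.pos ω hω l hl)
      (fun i hi b hb l hl => by
        rw [hP] at hb ⊢
        exact hch.lip ω hω i hi b hb l hl) (fun i hi => by
        have := hJ i hi
        omega) (r + 1) (by omega) y hy hyx).1
    exact hpd (ψ := P) (g := g) (a := w) (t := F.t ω) (M := 2 ^ (e + L)) hc1 hPd hPp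
      (DepC.pderiv (hPp (r + 1)) l) ((totalDegree_pdσ (hPd (r + 1)) _)) (by positivity)
      (fun b hb => by
        rw [hP] at hb ⊢
        refine (hch.lip ω hω (r + 1) (by omega) b hb l hl).trans ?_
        exact pow_le_pow_right₀ (by norm_num) (by have := hL l hl; omega)) y (by
        rw [hy]
        show |F.t ω - F.t ω| ≤ _
        rw [sub_self, abs_zero]
        positivity) (fun l hl => (h1 l hl).trans (div_le_div_of_nonneg_right (by norm_num)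
          (by positivity))))
  refine hmv.trans ?_
  have h2 : (((r + 1 : ℕ) : ℝ)) ≤ 2 ^ C₃ := by
    push_cast
    exact hC₃.le
  calc 2 ^ C₂ * 2 ^ (e + L) * 2 ^ g r * (((r + 1 : ℕ) : ℝ) * (1 / 2 ^ J)) ≤
      2 ^ C₂ * 2 ^ (e + L) * 2 ^ g r * (2 ^ C₃ * (1 / 2 ^ J)) := by gcongr
    _ = 2 ^ (C₂ + (e + L) + g r + C₃) / 2 ^ J := by
        rw [pow_add 2 (C₂ + (e + L) + g r), pow_add 2 (C₂ + (e + L)), pow_add 2 C₂ (e + L)]
        ring
    _ ≤ _ := div_le_div_of_nonneg_right (pow_le_pow_right₀ (by norm_num) (by omega))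
        (by positivity)

/-- **A path which is near the slope at the samples is visible.** -/
theorem cab_vis (D r : ℕ) : ∃ C : ℕ, 1 ≤ C ∧ ∀ {m J : ℕ} {F : Fam m J} {c : ℕ → Fin m}
    {o₁ o₂ e L x M₀ su sn : ℕ} {g₂ : ℕ → ℕ} {A : F.Ω → Prop}
    {G₂ : PtT F → ℕ → MvPolynomial (Option (Fin m)) ℝ}
    {H₂ : LnT F → ℕ → MvPolynomial (Option (Fin m)) ℝ} {cP : LnT F → Polynomial ℝ},
    Set.InjOn c (Set.Iio (r + 2)) → ChOK F c (r + 2) (fun _ => D) o₂ o₂ e g₂ A G₂ H₂ →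
    Clsd F (r + 2) o₂ A G₂ H₂ → (∀ i < r + 2, e + g₂ i + C ≤ J) →
    (∀ l < r + 1, nlp g₂ l (r + 1) ≤ L) → e + L + g₂ r + sn + M₀ ≤ J + su + x →
    (∀ ω, A ω → |(cP (slam F o₁ ω)).eval (rt F o₁ ω) - 2 ^ sn / 2 ^ su *
      eval (bt F ω) (pderiv (some (c r)) (H₂ (slam F o₂ ω) (r + 1)))| ≤ 2 ^ x / 2 ^ M₀) →
    ∀ ω ν, A ω → A ν → ptr F J ω = ptr F J ν → |(cP (slam F o₁ ω)).eval (rt F o₁ ω) -
      (cP (slam F o₁ ν)).eval (rt F o₁ ν)| ≤ 2 ^ (C * (x + 1)) / 2 ^ M₀ := by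
  classical
  obtain ⟨C₁, hC₁, hcell⟩ := slp_cell D r
  refine ⟨C₁ + 3, by omega, ?_⟩
  intro m J F c o₁ o₂ e L x M₀ su sn g₂ A G₂ H₂ cP hc hch hcl hJ hL hn hv ω ν hω hν hpt
  have h1 := hcell hc hch (fun i hi => by
    have := hJ i hi
    omega) hL ω ν hω hpt
  have h2 := hv ω hω
  have h3 := hv ν hν
  rw [← hcl ω hω (r + 1) (by omega)] at h2
  rw [← hcl ν hν (r + 1) (by omega), ← hpt] at h3
  obtain ⟨a, ha⟩ : ∃ a, a = eval (bt F ω) (pderiv (some (c r)) (G₂ (ptr F J ω) (r + 1))) :=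
    ⟨_, rfl⟩
  obtain ⟨a', ha'⟩ : ∃ a, a = eval (bt F ν) (pderiv (some (c r)) (G₂ (ptr F J ω) (r + 1))) :=
    ⟨_, rfl⟩
  rw [← ha] at h1 h2
  rw [← ha'] at h1 h3
  have h4 : |2 ^ sn / 2 ^ su * a' - 2 ^ sn / 2 ^ su * a| ≤ 2 ^ (C₁ + x) / 2 ^ M₀ := by
    rw [← mul_sub, abs_mul, abs_of_pos (show (0 : ℝ) < 2 ^ sn / 2 ^ su by positivity)]
    refine (mul_le_mul_of_nonneg_left h1 (by positivity)).trans ?_
    rw [div_mul_div_comm, div_le_div_iff₀ (by positivity) (by positivity), ← pow_add, ← pow_add,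
      ← pow_add, ← pow_add]
    exact pow_le_pow_right₀ (by norm_num) (by omega)
  have h5 : (2 : ℝ) ^ x / 2 ^ M₀ ≤ 2 ^ (C₁ + x) / 2 ^ M₀ :=
    div_le_div_of_nonneg_right (pow_le_pow_right₀ (by norm_num) (by omega)) (by positivity)
  have h6 : 3 * ((2 : ℝ) ^ (C₁ + x) / 2 ^ M₀) ≤ 2 ^ ((C₁ + 3) * (x + 1)) / 2 ^ M₀ := by
    rw [← mul_div_assoc]
    refine div_le_div_of_nonneg_right ?_ (by positivity)
    calc 3 * (2 : ℝ) ^ (C₁ + x) ≤ 2 ^ 2 * 2 ^ (C₁ + x) := by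
          have : (0 : ℝ) < 2 ^ (C₁ + x) := by positivity
          nlinarith
      _ = 2 ^ (2 + (C₁ + x)) := by rw [pow_add 2 2]
      _ ≤ _ := pow_le_pow_right₀ (by norm_num) (by nlinarith [Nat.zero_le (C₁ * x)])
  rw [abs_le] at h2 h3 h4 ⊢
  constructor <;> linarith [h2.1, h2.2, h3.1, h3.2, h4.1, h4.2]

end Pool.CR99
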