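import Pool.Agent.H99.D2.Und

/-!
# The blind labels at the rounded samples

`two_labx`: two labels of one window have near derivatives on the boxes around the samples. `blf_blC`:
the labels of the family `BlF` are near all labels of the windows `v k`, at the rounded samples (`BlC` of
helper60).
-/

set_option autoImplicit false

namespace Pool.CR99

open Finset Real MvPolynomial
open Pool.Agent.H49.Ent Pool.Agent.H32.Dense Pool.STK Pool.KA Pool.KSAT Pool.K2S Pool.PB Pool.S6C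
open Pool.GEN Pool.CHT Pool.CHX Pool.ISO Pool.D2R Pool.D2G30 Pool.V1E
open Pool.FLF (Fam.sub)
open Pool.PB.Trl (rt rt_mem t_rt)
open Pool.GRD (LbP)
open Pool.BFL (Pb)
open Pool.GRW (xr)
open Pool.ALT (BlC BlB sbu sbu_eval sbu_deg sbu_dep DpI Upg wz wz_slam floorw)

variable {m : ℕ}

/-- **Two labels of one window have near derivatives** on the boxes around the samples, off a small
probability. -/
theorem two_labx {S : PCl m} {C₀ : ℝ} (hC₀ : 0 ≤ C₀) (htm : TmC S C₀) {I : Finset (Fin m)}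
    {κ : Fin m} (o : Option (Fin m)) {v u : ℝ} (hvu : v ≤ u) (hu0 : 0 ≤ u) (hu : u < 1)
    (hful : Pool.TOP.Ful S I v u) (K : ℕ) {η p x : ℝ} (hη : 0 < η) (hx : u - p < x) :
    Bas S (fun J F A => ∀ (P₁ P₂ : ℕ) (V₁ V₂ : Type) (z₁ : PtT F → V₁) (z₁' : LnT F → V₁)
      (G₁ : V₁ → MvPolynomial (Option (Fin m)) ℝ) (z₂ : PtT F → V₂) (z₂' : LnT F → V₂)
      (G₂ : V₂ → MvPolynomial (Option (Fin m)) ℝ),
      LbP F I κ K J ⌊v * J⌋₊ P₁ A z₁ z₁' G₁ → LbP F I κ K J ⌊v * J⌋₊ P₂ A z₂ z₂' G₂ →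
      p * J ≤ P₁ → p * J ≤ P₂ →
      ∃ B : F.Ω → Prop, Sub B A ∧ (1 - η) * Pe F.p A ≤ Pe F.p B ∧ ∀ ω, B ω →
        ∀ b : Option (Fin m) → ℝ, (∀ o, |b o - bt F ω o| ≤ 1 / 2 ^ ⌊u * J⌋₊) →
        |eval b (pderiv o (G₁ (z₁' (slam F ⌊v * J⌋₊ ω)) -
          G₂ (z₂' (slam F ⌊v * J⌋₊ ω))))| ≤ 2 ^ (x * J)) := by
  classical
  obtain ⟨C, hC, hmk⟩ := Pool.GRD.dir_markov (m := m) K
  have hl2 : 0 < Real.log 2 := Real.log_pos one_lt_two
  obtain ⟨h, hh⟩ : ∃ h : ℝ, h = (x - (u - p)) * Real.log 2 / 2 := ⟨_, rfl⟩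
  have hh0 : 0 < h := by
    rw [hh]
    have : 0 < x - (u - p) := by linarith
    positivity
  obtain ⟨η', hη'⟩ : ∃ η' : ℝ, η' = min η 1 := ⟨_, rfl⟩
  have hη0 : 0 < η' := by rw [hη']; exact lt_min hη one_pos
  have hη1 : η' ≤ 1 := by rw [hη']; exact min_le_right _ _
  have hηη : η' ≤ η := by rw [hη']; exact min_le_left _ _
  obtain ⟨J₁, hJ₁⟩ := exists_nat_ge (Real.log (4 * C) / h)
  refine Bas.mono J₁ ((Pool.TOP.uni_cls hC₀ htm I hvu hu0 hu hful K hh0 hη0 hη1).and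
    (Pool.GRW.tmc_bas htm one_pos)) ?_
  rintro J hJ F A ⟨H, hA, -⟩ P₁ P₂ V₁ V₂ z₁ z₁' G₁ z₂ z₂' G₂ h₁ h₂ hP₁ hP₂
  have hJ0 : (0 : ℝ) ≤ J := Nat.cast_nonneg J
  have hJ1 : Real.log (4 * C) ≤ h * J := by
    have e1 : (J₁ : ℝ) ≤ J := by exact_mod_cast hJ
    have e2 := hJ₁.trans e1
    rw [div_le_iff₀ hh0] at e2
    linarith
  obtain ⟨B, b1, b2, b3⟩ := H (V₁ × V₂) (fun y => (z₁ y, z₂ y)) (fun s => (z₁' s, z₂' s))
    (fun x => G₁ x.1 - G₂ x.2) (fun _ => 1 / 2 ^ P₁ + 1 / 2 ^ P₂)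
    (fun x => (MvPolynomial.totalDegree_sub _ _).trans (max_le (h₁.deg _) (h₂.deg _)))
    (fun x b b' hb hb' => by
      rw [map_sub, map_sub, h₁.dep _ b b' hb hb', h₂.dep _ b b' hb hb'])
    (fun ω hω => by rw [h₁.cls ω hω, h₂.cls ω hω]) (fun _ => by positivity) (fun ω hω => by
      simp only
      rw [map_sub]
      have k1 := h₁.pos ω hω
      have k2 := h₂.pos ω hω
      have e1 : MvPolynomial.eval (bt F ω) (G₁ (z₁' (slam F ⌊v * J⌋₊ ω))) -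
          MvPolynomial.eval (bt F ω) (G₂ (z₂' (slam F ⌊v * J⌋₊ ω))) =
          (F.x ω κ - MvPolynomial.eval (bt F ω) (G₂ (z₂' (slam F ⌊v * J⌋₊ ω)))) -
          (F.x ω κ - MvPolynomial.eval (bt F ω) (G₁ (z₁' (slam F ⌊v * J⌋₊ ω)))) := by ring
      rw [e1]
      refine (abs_sub _ _).trans ?_
      linarith)
  refine ⟨B, b1, le_trans (mul_le_mul_of_nonneg_right (by linarith) hA.le) b2,
    fun ω hω b₀ hb₀ => ?_⟩
  have hδ : (0 : ℝ) < 1 / 2 ^ ⌊u * J⌋₊ := by positivity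
  have k1 := hmk (G₁ (z₁' (slam F ⌊v * J⌋₊ ω)) - G₂ (z₂' (slam F ⌊v * J⌋₊ ω))) b₀ o
    (1 / 2 ^ ⌊u * J⌋₊) (Real.exp (h * J) * (1 / 2 ^ P₁ + 1 / 2 ^ P₂))
    ((MvPolynomial.totalDegree_sub _ _).trans (max_le (h₁.deg _) (h₂.deg _))) hδ
    fun s hs => b3 ω hω _ fun o' => by
      have h7 := hb₀ o'
      by_cases ho : o' = o
      · subst ho
        rw [Function.update_self]
        have e1 : b₀ o' + s - bt F ω o' = (b₀ o' - bt F ω o') + s := by ring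
        rw [e1]
        refine (abs_add_le _ _).trans ?_
        linarith
      · rw [Function.update_of_ne ho]
        linarith
  refine k1.trans ?_
  have e1 : C * (Real.exp (h * J) * (1 / 2 ^ P₁ + 1 / 2 ^ P₂)) / (1 / 2 ^ ⌊u * J⌋₊) =
      C * Real.exp (h * J) * 2 ^ ⌊u * J⌋₊ * (1 / 2 ^ P₁ + 1 / 2 ^ P₂) := by
    field_simp
  have hp : ∀ P : ℕ, p * J ≤ P → (1 : ℝ) / 2 ^ P ≤ Real.exp (-(p * Real.log 2 * J)) := by
    intro P hP
    have e2 : (1 : ℝ) / 2 ^ P = Real.exp (-(P * Real.log 2)) := by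
      rw [Real.exp_neg, mul_comm, Real.exp_mul, Real.exp_log (by norm_num), Real.rpow_natCast,
        one_div]
    rw [e2]
    refine Real.exp_le_exp.2 (neg_le_neg ?_)
    have := mul_le_mul_of_nonneg_right hP hl2.le
    linarith
  have hu2 : (2 : ℝ) ^ ⌊u * J⌋₊ ≤ Real.exp (u * Real.log 2 * J) := by
    have e2 : (2 : ℝ) ^ ⌊u * J⌋₊ = Real.exp (⌊u * J⌋₊ * Real.log 2) := by
      rw [mul_comm (⌊u * J⌋₊ : ℝ) (Real.log 2), Real.exp_mul, Real.exp_log (by norm_num),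
        Real.rpow_natCast]
    rw [e2]
    refine Real.exp_le_exp.2 ?_
    have := mul_le_mul_of_nonneg_right (Nat.floor_le (mul_nonneg hu0 hJ0)) hl2.le
    linarith
  have hC4 : (2 * C : ℝ) ≤ Real.exp (h * J) := by
    have h4 : 0 < 4 * C := by linarith
    calc 2 * C ≤ 4 * C := by linarith
      _ = Real.exp (Real.log (4 * C)) := (Real.exp_log h4).symm
      _ ≤ _ := Real.exp_le_exp.2 hJ1
  rw [e1, rp_exp]
  have e3 : Real.exp (x * Real.log 2 * J) = Real.exp (h * J) * Real.exp (h * J) *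
      Real.exp (u * Real.log 2 * J) * Real.exp (-(p * Real.log 2 * J)) := by
    rw [← Real.exp_add, ← Real.exp_add, ← Real.exp_add]
    congr 1
    rw [hh]
    ring
  rw [e3]
  calc C * Real.exp (h * J) * 2 ^ ⌊u * J⌋₊ * (1 / 2 ^ P₁ + 1 / 2 ^ P₂) ≤
      C * Real.exp (h * J) * Real.exp (u * Real.log 2 * J) *
        (Real.exp (-(p * Real.log 2 * J)) + Real.exp (-(p * Real.log 2 * J))) := by
        have h5 := hp P₁ hP₁
        have h6 := hp P₂ hP₂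
        have h7 : 0 ≤ C * Real.exp (h * J) := by positivity
        exact mul_le_mul (mul_le_mul_of_nonneg_left hu2 h7) (add_le_add h5 h6) (by positivity)
          (by positivity)
    _ = (2 * C) * (Real.exp (h * J) * Real.exp (u * Real.log 2 * J) *
        Real.exp (-(p * Real.log 2 * J))) := by ring
    _ ≤ Real.exp (h * J) * (Real.exp (h * J) * Real.exp (u * Real.log 2 * J) *
        Real.exp (-(p * Real.log 2 * J))) := mul_le_mul_of_nonneg_right hC4 (by positivity)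
    _ = _ := by ring

/-- A derivative depends on the same coordinates. -/
theorem pd_dpI {I : Finset (Fin m)} (o : Option (Fin m)) {f : MvPolynomial (Option (Fin m)) ℝ}
    (hf : DpI I f) : DpI I (pderiv o f) := fun b b' h0 hb =>
  Pool.ORD65.dep_pderiv hf o b b' h0 hb

/-- The rest of an event has a small probability. -/
theorem pb_off {Ω : Type} [Fintype Ω] {p : Ω → ℝ} {A B : Ω → Prop} (h0 : ∀ ω, 0 ≤ p ω)
    (hA : 0 < Pe p A) (hBA : ∀ ω, B ω → A ω) {η : ℝ} (h : (1 - η) * Pe p A ≤ Pe p B) :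
    Pb (Pool.Agent.H49.Ent.cond p A True) (fun ω => ¬ B ω) ≤ η := by
  classical
  rw [show Pb (Pool.Agent.H49.Ent.cond p A True) (fun ω => ¬ B ω) =
    Pe (Pool.Agent.H49.Ent.cond p A True) (fun ω => ¬ B ω) by rw [Pe_eq]; rfl, Pe_cond,
    div_le_iff₀ hA]
  have h5 : Pe p (fun ω => A ω ∧ ¬ B ω) + Pe p B ≤ Pe p A := by
    rw [Pe_eq, Pe_eq, Pe_eq, ← Finset.sum_add_distrib]
    refine Finset.sum_le_sum fun ω _ => ?_
    have h6 := h0 ω
    by_cases g1 : A ω <;> by_cases g2 : B ω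
    · simp [g1, g2]
    · simp [g1, g2]
    · exact absurd (hBA ω g2) g1
    · simp [g1, g2]
  linarith

/-- A label of a window is a label of a later window. -/
theorem lbp_wz {J : ℕ} {F : Fam m J} {I : Finset (Fin m)} {κ : Fin m} {K W W₁ P : ℕ}
    {A : F.Ω → Prop} {V : Type} {z : PtT F → V} {z' : LnT F → V}
    {G : V → MvPolynomial (Option (Fin m)) ℝ} (h : LbP F I κ K J W P A z z' G) (h1 : W ≤ W₁)
    (h2 : W₁ ≤ J) : LbP F I κ K J W₁ P A z (wz z' W W₁) G :=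
  ⟨h.deg, h.dep, fun ω hω => by rw [wz_slam z' h1 h2]; exact h.cls ω hω,
    fun ω hω => by rw [wz_slam z' h1 h2]; exact h.pos ω hω⟩

/-- **The labels of the family `BlF` are near all labels of the windows before `v k`**, at the rounded
samples. -/
theorem blf_blC {S : PCl m} {C₀ : ℝ} (hC₀ : 0 ≤ C₀) (htm : TmC S C₀) {c : ℕ → Fin m}
    {r K K₁ K₂ Ku : ℕ} {e₀ ρ₀ π₀ w : ℝ} {n : ℕ} {v p₁ x₀ : ℕ → ℝ} {k : ℕ} (hk : k < n)
    {v' u : ℝ} (hwv : w ≤ v k) (hv' : v' ≤ v k) (hvu : v k ≤ u) (hu0 : 0 ≤ u) (hu : u < 1)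
    (hful : Pool.TOP.Ful S ((range (r + 1)).image c) (v k) u) {p p₂ x : ℝ} (hp : 0 ≤ p)
    (hx₀ : x₀ k < x) (hx₁ : u - p₁ k < x) (hx₂ : u - p < x) :
    BlC S c r (c (r + 1)) w v' K₂ Ku p p₂ x (BlF c r K K₁ e₀ ρ₀ π₀ w n v p₁ x₀) := by
  classical
  intro η χ hη hχ
  have hl2 : 0 < Real.log 2 := Real.log_pos one_lt_two
  obtain ⟨x', hx'⟩ : ∃ x' : ℝ, x' = (max (x₀ k) (max (u - p₁ k) (u - p)) + x) / 2 := ⟨_, rfl⟩
  have hmx : max (x₀ k) (max (u - p₁ k) (u - p)) < x := max_lt hx₀ (max_lt hx₁ hx₂)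
  have hx'x : x' < x := by rw [hx']; linarith
  have hx0' : x₀ k < x' := by
    rw [hx']
    have := le_max_left (x₀ k) (max (u - p₁ k) (u - p))
    linarith
  have hx1' : u - min (p₁ k) p < x' := by
    rw [hx']
    have h1 : u - min (p₁ k) p = max (u - p₁ k) (u - p) := by
      rcases le_total (p₁ k) p with h | h
      · rw [min_eq_left h, max_eq_left (by linarith)]
      · rw [min_eq_right h, max_eq_right (by linarith)]
    rw [h1]
    have := le_max_right (x₀ k) (max (u - p₁ k) (u - p))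
    linarith
  obtain ⟨J₁, hJ₁⟩ := exists_nat_ge (2 / (x - x'))
  obtain ⟨h', hh'⟩ : ∃ h' : ℝ, h' = (x' - x₀ k) * Real.log 2 := ⟨_, rfl⟩
  have hh'0 : 0 < h' := by rw [hh']; exact mul_pos (by linarith) hl2
  obtain ⟨η', hη'⟩ : ∃ η' : ℝ, η' = min (η / 2) 1 := ⟨_, rfl⟩
  have hη0 : 0 < η' := by rw [hη']; exact lt_min (by linarith) one_pos
  have hη1 : η' ≤ 1 := by rw [hη']; exact min_le_right _ _
  have hηη : η' ≤ η / 2 := by rw [hη']; exact min_le_left _ _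
  refine Bas.mono J₁ (((two_labx hC₀ htm (κ := c (r + 1)) (some (c r)) hvu hu0 hu hful (max K₁ K₂)
    (η := η / 2) (p := min (p₁ k) p) (x := x') (by linarith) hx1').and
    (Pool.TOP.uni_cls hC₀ htm _ hvu hu0 hu hful (max K₁ K) hh'0 hη0 hη1)).and
    (Pool.GRW.tmc_bas htm one_pos)) ?_
  rintro J hJ F A ⟨⟨H, Hu⟩, hA, -⟩ V z z' G hΨ P₁ V₁ z₁ z₁' G₁ hG₁ hP₁ P₂ V₂ z₂ z₂' H₂ hH hP₂
  have hJ0 : (0 : ℝ) ≤ J := Nat.cast_nonneg J
  obtain ⟨V₃, z₃, z₃', G₃, P₃, h1, h2, h3⟩ := hΨ.2 k hk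
  obtain ⟨g1, g2⟩ := floorw hwv (hvu.trans hu.le) J
  obtain ⟨f1, f2⟩ := floorw hv' (hvu.trans hu.le) J
  obtain ⟨B, b1, b2, b3⟩ := H P₁ P₃ V₁ V₃ z₁ (wz z₁' ⌊v' * J⌋₊ ⌊v k * J⌋₊) G₁ z₃ z₃' G₃
    ((lbp_wz hG₁ f1 f2).mono (Finset.Subset.refl _) (le_max_right _ _) le_rfl)
    (h1.mono (Finset.Subset.refl _) (le_max_left _ _) le_rfl) (by
      have e1 : min (p₁ k) p * J ≤ p * J := mul_le_mul_of_nonneg_right (min_le_right _ _) hJ0
      have e2 : (p + χ) * J = p * J + χ * J := by ring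
      have e3 : 0 ≤ χ * J := by positivity
      linarith) (le_trans (mul_le_mul_of_nonneg_right (min_le_left _ _) hJ0) h2)
  obtain ⟨B', c1, c2, c3⟩ := Hu (V₃ × V) (fun y => (z₃ y, z y))
    (fun s => (z₃' s, wz z' ⌊w * J⌋₊ ⌊v k * J⌋₊ s))
    (fun x => pderiv (some (c r)) (G₃ x.1 - G x.2)) (fun _ => 2 ^ (x₀ k * J))
    (fun x => (pd_deg _ _).trans ((totalDegree_sub _ _).trans
      (max_le ((h1.deg _).trans (le_max_left _ _)) ((hΨ.1.deg _).trans (le_max_right _ _)))))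
    (fun x => pd_dpI _ (DpI.sub (h1.dep _) (hΨ.1.dep _)))
    (fun ω hω => by
      beta_reduce
      rw [h1.cls ω hω, wz_slam z' g1 g2, hΨ.1.cls ω hω])
    (fun _ => Real.rpow_pos_of_pos (by norm_num) _) (fun ω hω => by
      beta_reduce
      rw [wz_slam z' g1 g2]
      exact h3 ω hω)
  obtain ⟨q', hq'⟩ : ∃ q' : F.Ω → ℝ, q' = Pool.Agent.H49.Ent.cond F.p A True := ⟨_, rfl⟩
  have hq'l : IsLaw q' := by
    rw [hq']
    exact isLaw_cond F.isLaw hA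
  have hp1 := pb_off (A := A) (B := B) F.isLaw.nonneg hA b1 b2
  have hp2 := pb_off (A := A) (B := B') F.isLaw.nonneg hA c1 c2
  rw [← hq'] at hp1 hp2 ⊢
  have hor : Pb q' (fun ω => ¬ B ω ∨ ¬ B' ω) ≤ Pb q' (fun ω => ¬ B ω) + Pb q' (fun ω => ¬ B' ω) :=
    Pool.LIV.Pb_or25 hq'l.nonneg _ _
  refine le_trans (Pool.GRD.Pb_mono_pos hq'l.nonneg fun ω hω0 hω => ?_)
    (hor.trans (by linarith))
  by_contra hcon
  rw [not_or, not_not, not_not] at hcon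
  obtain ⟨hBω, hB'ω⟩ := hcon
  have hAω := b1 ω hBω
  have hnear : ∀ o, |xr F ω o - bt F ω o| ≤ 1 / 2 ^ ⌊u * J⌋₊ := fun o => by
    refine (Pool.GRW.xr_near F ω o).trans ?_
    refine one_div_le_one_div_of_le (by positivity) (pow_le_pow_right₀ (by norm_num) ?_)
    exact (floorw le_rfl hu.le J).2
  have h4 := b3 ω hBω _ hnear
  rw [wz_slam z₁' f1 f2] at h4
  have h5 := c3 ω hB'ω (xr F ω) (fun o => (hnear o).trans (by
    have : (0 : ℝ) ≤ 1 / 2 ^ ⌊u * J⌋₊ := by positivity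
    linarith))
  beta_reduce at h5
  rw [wz_slam z' g1 g2] at h5
  have e0 : Real.exp (h' * J) * 2 ^ (x₀ k * J) = (2 : ℝ) ^ (x' * J) := by
    rw [rp_exp, rp_exp, ← Real.exp_add]
    congr 1
    rw [hh']
    ring
  rw [e0] at h5
  have h6 : |eval (xr F ω) (pderiv (some (c r)) (G₁ (z₁' (slam F ⌊v' * J⌋₊ ω)) -
      G (z' (slam F ⌊w * J⌋₊ ω))))| ≤ 2 ^ (x' * J) + 2 ^ (x' * J) := by
    have e1 : G₁ (z₁' (slam F ⌊v' * J⌋₊ ω)) - G (z' (slam F ⌊w * J⌋₊ ω)) =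
        (G₁ (z₁' (slam F ⌊v' * J⌋₊ ω)) - G₃ (z₃' (slam F ⌊v k * J⌋₊ ω))) +
        (G₃ (z₃' (slam F ⌊v k * J⌋₊ ω)) - G (z' (slam F ⌊w * J⌋₊ ω))) := by ring
    rw [e1, map_add, map_add]
    exact (abs_add_le _ _).trans (add_le_add h4 h5)
  have h7 : (2 : ℝ) ^ (x' * J) + 2 ^ (x' * J) < 2 ^ (x * J) := by
    have e1 : (2 : ℝ) ^ (x' * J) + 2 ^ (x' * J) = 2 ^ (x' * J + 1) := by
      rw [Real.rpow_add (by norm_num), Real.rpow_one]
      ring
    rw [e1]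
    refine Real.rpow_lt_rpow_of_exponent_lt (by norm_num) ?_
    have e2 : (J₁ : ℝ) ≤ J := by exact_mod_cast hJ
    have e3 := hJ₁.trans e2
    rw [div_le_iff₀ (by linarith)] at e3
    linarith
  exact absurd hω (not_le.2 (lt_of_le_of_lt h6 h7))

end Pool.CR99
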