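import Pool.Agent.H99.D2.Vna
import Pool.Agent.H18.PN.Nzs

/-!
# The natural labels over the blind labels

`AlW.degm`: `AlW` for a larger degree. `blf_sub`: in a subclass the family `BlF` exists on all events.
`nzo_blf`: the natural labels of a window over the labels of this family.
-/

set_option autoImplicit false

namespace Pool.CR99

open Finset Real MvPolynomial
open Pool.Agent.H49.Ent Pool.Agent.H32.Dense Pool.STK Pool.KA Pool.KSAT Pool.K2S Pool.PB Pool.S6C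
open Pool.GEN Pool.CHT Pool.CHX Pool.ISO Pool.D2R Pool.D2G30 Pool.V1E
open Pool.FLF (Fam.sub)
open Pool.GRD (LbP)
open Pool.BFL (Pb)
open Pool.ALT (BlC DpI Upg AlW Fml NzO nzo_bl)

variable {m : ℕ}

/-- The data of a window for a larger degree. -/
theorem alw_deg {S : PCl m} {c : ℕ → Fin m} {r : ℕ} {κ : Fin m} {D D' : ℕ}
    {w pκ pu E Eu u : ℝ} (h : AlW S c r κ D w pκ pu E Eu u) (hD : D ≤ D') :
    AlW S c r κ D' w pκ pu E Eu u :=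
  ⟨h.w0, h.wu, h.u1, h.E0, h.Eu0, h.pE, h.pEu, h.rE, h.rEu, h.pk0, h.pu0, fun e he => by
    refine Bas.mono 0 (h.lb e he) ?_
    rintro J - F A ⟨V, z, z', g, gu, h1, h2⟩
    exact ⟨V, z, z', g, gu, h1.mono (Finset.Subset.refl _) hD le_rfl le_rfl le_rfl,
      h2.mono (Finset.Subset.refl _) hD le_rfl le_rfl le_rfl⟩, h.ful, h.fI, h.fI0⟩

/-- `BlX` for a larger degree. -/
theorem blx_deg {S : PCl m} {c : ℕ → Fin m} {r K K' K₁ : ℕ} {w P : ℝ} {n : ℕ}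
    {v p₁ x₀ : ℕ → ℝ} {κ : ℝ} (h : BlX S c r K K₁ w P n v p₁ x₀ κ) (hK : K ≤ K') :
    BlX S c r K' K₁ w P n v p₁ x₀ κ := by
  refine Bas.mono 0 h ?_
  rintro J - F A ⟨B, b1, b2, V, z, z', G, Q, l1, l2, l3⟩
  exact ⟨B, b1, b2, V, z, z', G, Q, l1.mono (Finset.Subset.refl _) hK le_rfl, l2, l3⟩

/-- **The blind labels exist on all events** of a subclass. -/
theorem blf_sub {S : PCl m} {C₀ : ℝ} (htm : TmC S C₀) (hne : S.Ne) {c : ℕ → Fin m}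
    {r K K₁ : ℕ} {w P : ℝ} {n : ℕ} {v p₁ x₀ : ℕ → ℝ} {κ : ℝ}
    (h : BlX S c r K K₁ w P n v p₁ x₀ κ) (hκ : 0 < κ) {u p e σ : ℝ}
    (hup : Upg S ((range (r + 1)).image c) (c (r + 1)) K w u p e) (hσ : 0 < σ)
    (hpP : p + σ ≤ P) :
    ∃ S' : PCl m, S'.Ne ∧ (∀ (τ : ℝ) (J : ℕ) (F : Fam m J) (A : F.Ω → Prop),
        S'.St τ J F A → S.St τ J F A) ∧
      Bas S' (fun J F A => ∃ (V : Type) (z : PtT F → V) (z' : LnT F → V)
        (G : V → MvPolynomial (Option (Fin m)) ℝ), BlF c r K K₁ e u p w n v p₁ x₀ J F A V z z' G) := by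
  obtain ⟨S', a1, a2, a3⟩ := Pool.V0F.her_extc (ι := Unit) hne (fun _ J F A =>
      ∃ (V : Type) (z : PtT F → V) (z' : LnT F → V) (G : V → MvPolynomial (Option (Fin m)) ℝ),
        BlF c r K K₁ e u p w n v p₁ x₀ J F A V z z' G)
    (fun _ J F A B hB => by
      rintro ⟨V, z, z', G, hG⟩
      exact ⟨V, z, z', G, BlF.hs J F A B V z z' G hB hG⟩)
    (fun _ => ⟨4 * κ, blf_of htm h hκ hup hσ hpP⟩)
  exact ⟨S', a1, a2, a3 ()⟩

/-- The labels of the family. -/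
theorem BlF.hd {c : ℕ → Fin m} {r K K₁ : ℕ} {e₀ ρ₀ π₀ w : ℝ} {n : ℕ} {v p₁ x₀ : ℕ → ℝ} {D : ℕ}
    (hK : K ≤ D) (J : ℕ)
    (F : Fam m J) (A : F.Ω → Prop) (V : Type) (z : PtT F → V) (z' : LnT F → V)
    (G : V → MvPolynomial (Option (Fin m)) ℝ)
    (h : BlF c r K K₁ e₀ ρ₀ π₀ w n v p₁ x₀ J F A V z z' G) :
    (∀ y, (G y).totalDegree ≤ D) ∧ (∀ y, DpI ((range (r + 1)).image c) (G y)) ∧
      ∀ ω, A ω → z (ptr F J ω) = z' (slam F ⌊w * J⌋₊ ω) :=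
  ⟨fun y => (h.1.deg y).trans hK, h.1.dep, h.1.cls⟩

/-- **The natural labels of a window over the blind labels.** -/
theorem nzo_blf {S : PCl m} {C₀ : ℝ} (hC₀ : 0 ≤ C₀) (htm : TmC S C₀)
    (hpos : ∀ (τ : ℝ) (J : ℕ) (F : Fam m J) (A : F.Ω → Prop), S.St τ J F A → 0 < Pe F.p A)
    {c : ℕ → Fin m} {r K K₁ D : ℕ} (hinj : Set.InjOn c (Set.Iio (r + 1))) (hKD : K ≤ D)
    {e₀ ρ₀ π₀ w : ℝ} {n : ℕ} {v p₁ x₀ : ℕ → ℝ} (hw0 : 0 ≤ w) {k : ℕ} (hk : k < n) {o uk : ℝ}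
    (hwo : w ≤ o) (hok : o ≤ v k) (hvu : v k ≤ uk) (huk : uk < 1)
    (hful : Pool.TOP.Ful S ((range (r + 1)).image c) (v k) uk)
    {pκ pu E Eu u : ℝ} (hv : AlW S c r (c (r + 1)) D o pκ pu E Eu u)
    {uN pN eN : ℝ} (hpN : 0 ≤ pN) (hpk : pN < pκ) (hx₀ : x₀ k + pN < pu)
    (hx₁ : uk - p₁ k + pN < pu) (hx₂ : uk - pκ + pN < pu) (hu : u < uN)
    (hu1 : uN < 1) (heN : E < eN) (hN : uN < pN + eN) : ∃ q₁ q₂ : ℝ, q₁ < pκ ∧ q₂ < pu ∧
      NzO S (BlF c r K K₁ e₀ ρ₀ π₀ w n v p₁ x₀) c r (c (r + 1)) D D D w o q₁ q₂ eN uN pN := by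
  obtain ⟨x, hx1, hx2⟩ : ∃ x : ℝ, max (x₀ k) (max (uk - p₁ k) (uk - pκ)) < x ∧ x < pu - pN :=
    exists_between (max_lt (by linarith) (max_lt (by linarith) (by linarith)))
  have h1 := (le_max_left _ _).trans_lt hx1
  have h2 := ((le_max_left _ _).trans (le_max_right _ _)).trans_lt hx1
  have h3 := ((le_max_right _ _).trans (le_max_right (x₀ k) _)).trans_lt hx1
  have hpk0 := hv.pk0
  refine nzo_bl htm hpos hinj hv hw0 hwo (BlF.hd hKD) (BlF.hs) (x₀ := x)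
    (t₀ := min (pκ / 2) ((x - (uk - pκ)) / 2)) (lt_min (by linarith) (by linarith))
    (fun t ht0 ht1 p₂ => ?_) hpN hpk (by linarith) hu hu1 heN hN
  have t1 := ht1.trans (min_le_left _ _)
  have t2 := ht1.trans (min_le_right _ _)
  exact blf_blC hC₀ htm hk (hwo.trans hok) hok hvu (by linarith) huk hful (by linarith) h1 h2
    (by linarith)

end Pool.CR99
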