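import Pool.Agent.H99.D2.Vnb

/-!
# Blindness at the windows before a window

`blc_back`: a family of labels of the window `w` which has the slope of the labels of the window `t`
has at the window `o ≤ t` the slope of the labels of `o`, if these have the slope of the labels of `t`.
`nzo_back`: the natural labels at `o`, from a chain of windows from `o` to `t`.
-/

set_option autoImplicit false

namespace Pool.CR99

open Finset Real MvPolynomial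
open Pool.Agent.H49.Ent Pool.Agent.H32.Dense Pool.STK Pool.KA Pool.KSAT Pool.K2S Pool.PB Pool.S6C
open Pool.GEN Pool.RCD Pool.LA91 Pool.OWN68
open Pool.GRD (LbP)
open Pool.BFL (Pb)
open Pool.GRW (xr)
open Pool.ALT (BlC DpI Upg AlW Fml NzO nzo_bl AttP blc_tel)

variable {m : ℕ}

/-- **Blindness at an earlier window.** -/
theorem blc_back {S : PCl m} {C₀ : ℝ} (htm : TmC S C₀) {c : ℕ → Fin m} {r : ℕ} {κ : Fin m}
    {w o t : ℝ} {K₂ Ku K₃ K₄ : ℕ} {p₃ p₄ p p₂ x x' q₁ q₂ : ℝ} {Ψ : Fml m}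
    (h1 : BlC S c r κ w t K₃ K₄ p₃ p₄ x Ψ)
    (h2 : BlC S c r κ o t K₃ K₄ p₃ p₄ x (fun J F A _ z z' G =>
      LbP F ((range (r + 1)).image c) κ K₂ J ⌊o * J⌋₊ ⌊p * J⌋₊ A z z' G))
    (ch1 : Bas S (fun J F A => ∃ (P₁ : ℕ) (V₁ : Type) (z₁ : PtT F → V₁) (z₁' : LnT F → V₁)
      (G₁ : V₁ → MvPolynomial (Option (Fin m)) ℝ),
      LbP F ((range (r + 1)).image c) κ K₃ J ⌊t * J⌋₊ P₁ A z₁ z₁' G₁ ∧ q₁ * J ≤ P₁))
    (hq₁ : p₃ < q₁)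
    (ch2 : Bas S (fun J F A => ∃ (P₁ : ℕ) (V₁ : Type) (z₁ : PtT F → V₁) (z₁' : LnT F → V₁)
      (G₁ : V₁ → MvPolynomial (Option (Fin m)) ℝ),
      LbP F ((range r).image c) (c r) K₄ J ⌊t * J⌋₊ P₁ A z₁ z₁' G₁ ∧ q₂ * J ≤ P₁))
    (hq₂ : p₄ < q₂) (hx : x < x') : BlC S c r κ w o K₂ Ku p p₂ x' Ψ := by
  classical
  intro η χ hη hχ
  obtain ⟨J₁, hJ₁⟩ := exists_nat_ge (2 / (x' - x))
  obtain ⟨χ', hχ'⟩ : ∃ χ' : ℝ, χ' = min (q₁ - p₃) (q₂ - p₄) := ⟨_, rfl⟩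
  have hχ0 : 0 < χ' := by rw [hχ']; exact lt_min (by linarith) (by linarith)
  have hc1 : p₃ + χ' ≤ q₁ := by
    have : χ' ≤ q₁ - p₃ := by rw [hχ']; exact min_le_left _ _
    linarith
  have hc2 : p₄ + χ' ≤ q₂ := by
    have : χ' ≤ q₂ - p₄ := by rw [hχ']; exact min_le_right _ _
    linarith
  refine Bas.mono J₁ ((((h1 (η / 2) χ' (by linarith) hχ0).and (h2 (η / 2) χ' (by linarith)
    hχ0)).and (ch1.and ch2)).and (Pool.GRW.tmc_bas htm one_pos)) ?_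
  rintro J hJ F A ⟨⟨⟨H1, H2⟩, ⟨Pa, Va, za, za', Ga, hGa, hPa⟩, Pb', Vb, zb, zb', Gb, hGb, hPb⟩,
    hA, -⟩ V z z' G hΨ P₁ V₁ z₁ z₁' G₁ hG₁ hP₁ P₂ V₂ z₂ z₂' H₂ hH hP₂
  have hJ0 : (0 : ℝ) ≤ J := Nat.cast_nonneg J
  have hq'l : IsLaw (Pool.Agent.H49.Ent.cond F.p A True) := isLaw_cond F.isLaw hA
  have k1 := H1 V z z' G hΨ Pa Va za za' Ga hGa
    ((mul_le_mul_of_nonneg_right hc1 hJ0).trans hPa) Pb' Vb zb zb' Gb hGb
    ((mul_le_mul_of_nonneg_right hc2 hJ0).trans hPb)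
  have hfl : ⌊p * (J : ℝ)⌋₊ ≤ P₁ := by
    have e1 : p * (J : ℝ) ≤ P₁ := by
      have e2 : (p + χ) * (J : ℝ) = p * J + χ * J := by ring
      have e3 : 0 ≤ χ * (J : ℝ) := by positivity
      linarith
    exact (Nat.floor_le_floor e1).trans (le_of_eq (Nat.floor_natCast P₁))
  have k2 := H2 V₁ z₁ z₁' G₁ (hG₁.mono (Finset.Subset.refl _) le_rfl hfl) Pa Va za za' Ga hGa
    ((mul_le_mul_of_nonneg_right hc1 hJ0).trans hPa) Pb' Vb zb zb' Gb hGb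
    ((mul_le_mul_of_nonneg_right hc2 hJ0).trans hPb)
  refine le_trans (Pool.GRD.Pb_mono_pos hq'l.nonneg fun ω hω0 hω => ?_)
    (((Pool.LIV.Pb_or25 hq'l.nonneg _ _).trans (add_le_add k1 k2)).trans
      (show η / 2 + η / 2 ≤ η by linarith))
  by_contra hcon
  obtain ⟨g1, g2⟩ := not_or.1 hcon
  rw [not_le] at g1 g2
  have h6 : |eval (xr F ω) (pderiv (some (c r)) (G₁ (z₁' (slam F ⌊o * J⌋₊ ω)) -
      G (z' (slam F ⌊w * J⌋₊ ω))))| ≤ 2 ^ (x * J) + 2 ^ (x * J) := by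
    have e1 : G₁ (z₁' (slam F ⌊o * J⌋₊ ω)) - G (z' (slam F ⌊w * J⌋₊ ω)) =
        (Ga (za' (slam F ⌊t * J⌋₊ ω)) - G (z' (slam F ⌊w * J⌋₊ ω))) -
        (Ga (za' (slam F ⌊t * J⌋₊ ω)) - G₁ (z₁' (slam F ⌊o * J⌋₊ ω))) := by ring
    rw [e1, map_sub, map_sub]
    exact (abs_sub _ _).trans (add_le_add g1.le g2.le)
  have h7 : (2 : ℝ) ^ (x * J) + 2 ^ (x * J) < 2 ^ (x' * J) := by
    have e1 : (2 : ℝ) ^ (x * J) + 2 ^ (x * J) = 2 ^ (x * J + 1) := by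
      rw [Real.rpow_add (by norm_num), Real.rpow_one]
      ring
    rw [e1]
    refine Real.rpow_lt_rpow_of_exponent_lt (by norm_num) ?_
    have e2 : (J₁ : ℝ) ≤ J := by exact_mod_cast hJ
    have e3 := hJ₁.trans e2
    rw [div_le_iff₀ (by linarith)] at e3
    linarith
  exact absurd hω (not_le.2 (lt_of_le_of_lt h6 h7))

/-- **The natural labels at the window** `wb 0` of a chain of windows to `t = wb (M + 1)`, for a family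
with the slopes of the labels of `t`. -/
theorem nzo_back {S : PCl m} {C₀ : ℝ} (htm : TmC S C₀)
    (hpos : ∀ (τ : ℝ) (J : ℕ) (F : Fam m J) (A : F.Ω → Prop), S.St τ J F A → 0 < Pe F.p A)
    {c : ℕ → Fin m} {r : ℕ} {κ : Fin m} {D M : ℕ} {wb : ℕ → ℝ} {sU sN : ℝ → ℝ}
    (hinj : Set.InjOn c (Set.Iio (r + 1))) {w : ℝ} (hw0 : 0 ≤ w) (hwo : w ≤ wb 0)
    (hw : ∀ k ≤ M, wb k ≤ wb (k + 1))
    (hch : ∀ k ≤ M, ∃ (u₀ u₁ : ℝ) (s rd : ℕ → ℝ), Chn S c 0 (r + 1) (wb (k + 1)) u₀ u₁ s rd ∧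
      s r = sU (wb (k + 1)))
    (hatt : ∀ k, 0 < k → k ≤ M → AttP S ((range (r + 1)).image c) κ (wb k) (sN (wb k)))
    {E Eu u : ℝ} (hv : AlW S c r κ D (wb 0) (sN (wb 0)) (sU (wb 0)) E Eu u)
    {K₃ K₄ : ℕ} {q₁ q₂ : ℝ}
    (ch1 : Bas S (fun J F A => ∃ (P₁ : ℕ) (V₁ : Type) (z₁ : PtT F → V₁) (z₁' : LnT F → V₁)
      (G₁ : V₁ → MvPolynomial (Option (Fin m)) ℝ),
      LbP F ((range (r + 1)).image c) κ K₃ J ⌊wb (M + 1) * J⌋₊ P₁ A z₁ z₁' G₁ ∧ q₁ * J ≤ P₁))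
    (ch2 : Bas S (fun J F A => ∃ (P₁ : ℕ) (V₁ : Type) (z₁ : PtT F → V₁) (z₁' : LnT F → V₁)
      (G₁ : V₁ → MvPolynomial (Option (Fin m)) ℝ),
      LbP F ((range r).image c) (c r) K₄ J ⌊wb (M + 1) * J⌋₊ P₁ A z₁ z₁' G₁ ∧ q₂ * J ≤ P₁))
    {Ψ : Fml m}
    (hΨd : ∀ (J : ℕ) (F : Fam m J) (A : F.Ω → Prop) (V : Type) (z : PtT F → V)
      (z' : LnT F → V) (G : V → MvPolynomial (Option (Fin m)) ℝ), Ψ J F A V z z' G →
      (∀ y, (G y).totalDegree ≤ D) ∧ (∀ y, DpI ((range (r + 1)).image c) (G y)) ∧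
      ∀ ω, A ω → z (ptr F J ω) = z' (slam F ⌊w * J⌋₊ ω))
    (hΨs : ∀ (J : ℕ) (F : Fam m J) (A B : F.Ω → Prop) (V : Type) (z : PtT F → V)
      (z' : LnT F → V) (G : V → MvPolynomial (Option (Fin m)) ℝ), Sub B A →
      Ψ J F A V z z' G → Ψ J F B V z z' G) {p₃ p₄ x x₀ : ℝ}
    (h1 : BlC S c r κ w (wb (M + 1)) K₃ K₄ p₃ p₄ x Ψ) (hp₃ : p₃ < q₁) (hp₄ : p₄ < q₂)
    (hx3 : sU (wb (M + 1)) - p₃ < x) (hxx : x < x₀)
    (hx : ∀ k ≤ M, sU (wb (k + 1)) - sN (wb k) < x ∧ sU (wb (k + 1)) - sN (wb (k + 1)) < x)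
    {uN pN eN : ℝ} (hpN : 0 ≤ pN) (hpk : pN < sN (wb 0)) (hx1 : pN + x₀ < sU (wb 0))
    (hu : u < uN) (hu1 : uN < 1) (heN : E < eN) (hN : uN < pN + eN) :
    ∃ p₁ p₂ : ℝ, p₁ < sN (wb 0) ∧ p₂ < sU (wb 0) ∧
      NzO S Ψ c r κ D D D w (wb 0) p₁ p₂ eN uN pN := by
  have hch' : ∀ k, ∃ (u₀ u₁ : ℝ) (s rd : ℕ → ℝ), k ≤ M →
      Chn S c 0 (r + 1) (wb (k + 1)) u₀ u₁ s rd ∧ s r = sU (wb (k + 1)) := by
    intro k
    by_cases hk : k ≤ M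
    · obtain ⟨u₀, u₁, s, rd, h⟩ := hch k hk
      exact ⟨u₀, u₁, s, rd, fun _ => h⟩
    · exact ⟨0, 0, fun _ => 0, fun _ => 0, fun h => absurd h hk⟩
  choose u₀ u₁ s rd hch' using hch'
  refine nzo_bl htm hpos hinj hv hw0 hwo hΨd hΨs (x₀ := x₀)
    (t₀ := (x - (sU (wb 1) - sN (wb 0))) / 2) (by have := (hx 0 (Nat.zero_le _)).1; linarith)
    (fun t ht0 ht1 p₂ => ?_) hpN hpk hx1 hu hu1 heN hN
  obtain ⟨pn, hpn⟩ : ∃ pn : ℕ → ℝ, pn = fun k => if k = 0 then sN (wb 0) - t else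
    if k = M + 1 then p₃ else sN (wb k) := ⟨_, rfl⟩
  have p0 : pn 0 = sN (wb 0) - t := by rw [hpn]; exact if_pos rfl
  have pM : pn (M + 1) = p₃ := by
    rw [hpn]
    show (if M + 1 = 0 then _ else if M + 1 = M + 1 then _ else _) = _
    rw [if_neg (Nat.succ_ne_zero M), if_pos rfl]
  have pk : ∀ k, 0 < k → k ≤ M → pn k = sN (wb k) := fun k h1 h2 => by
    rw [hpn]
    show (if k = 0 then _ else if k = M + 1 then _ else _) = _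
    rw [if_neg (by omega), if_neg (by omega)]
  have hb := blc_tel (Ψ := fun J F A _ z z' G =>
      LbP F ((range (r + 1)).image c) κ D J ⌊wb 0 * J⌋₊ ⌊(sN (wb 0) - t) * J⌋₊ A z z' G)
    htm (Nat.zero_le r) (wb := wb) (pN := pn) (u₀ := u₀) (u₁ := u₁) (s := s)
    (rd := rd) (K := D) (κ := κ) (x := x)
    (fun J F A V z z' G h => by rw [p0]; exact h) hw (fun k hk => (hch' k hk).1)
    (fun k h1 h2 => by rw [pk k h1 h2]; exact hatt k h1 h2) (fun k hk => ?_) K₃ K₄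
    (p₁ := p₃) (by rw [pM]) p₄
  · exact blc_back htm h1 hb ch1 hp₃ ch2 hp₄ hxx
  · rw [(hch' k hk).2]
    have h1 := hx k hk
    have h2 : sU (wb (k + 1)) - x < pn k := by
      rcases Nat.eq_zero_or_pos k with rfl | h0
      · rw [p0]
        have := (hx 0 (Nat.zero_le _)).1
        linarith
      · rw [pk k h0 hk]
        linarith [h1.1]
    have h3 : sU (wb (k + 1)) - x < pn (k + 1) := by
      rcases hk.eq_or_lt with rfl | h0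
      · rw [pM]
        linarith
      · rw [pk (k + 1) (Nat.succ_pos k) h0]
        linarith [h1.2]
    have := lt_min h2 h3
    linarith

end Pool.CR99
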